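import Pool.Agent.TRZ.Defs
import Pool.Agent.TRP.CB

/-! # [ALL2] common definitions 2: the classes at the primes above `2`, the decomposition of `d √-7`, the matrices -/

set_option autoImplicit false

open NumberField Ideal IsDedekindDomain
open scoped Real Classical ComplexConjugate
open TR TRG TRP

namespace TRZ

section
variable {L : Type} [Field L] [NumberField L]

/-- the symbol of two odd elements at `2`: `(-1)^(Tr (β γ))` for `x = a² (1 + 2 β)`, `y = b² (1 + 2 γ)` modulo `4` -/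
noncomputable def tp (x y : 𝓞 L) : ℤ :=
  if h : ∃ β γ : 𝓞 L, Cl β x ∧ Cl γ y then
    (if (2 : ℤ) ∣ Algebra.trace ℤ (𝓞 L) (h.choose * h.choose_spec.choose) then 1 else -1) else 0

/-- `x` is a square of a unit modulo `4` -/
def Q4 (x : 𝓞 L) : Prop := ∃ a c : 𝓞 L, IsCoprime a 2 ∧ x = a ^ 2 + 4 * c

/-- the quadratic character of the class `(i, c)` -/
noncomputable def kc (c : 𝓞 L) (i : Bool) (x : 𝓞 L) : ℤ := tp x c * te i x

/-- the class `(i, c)` is ramified -/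
def Rm (c : 𝓞 L) (i : Bool) : Prop := i = true ∨ ¬ Q4 c

/-- the primitive character -/
noncomputable def kp (c : 𝓞 L) (i : Bool) : 𝓞 L → ℤ := if Rm c i then kc c i else fun _ => 1

end

section
variable {L M : Type} [Field L] [NumberField L] [Field M] [NumberField M] [Algebra L M] [IsTotallyReal L]

/-- the decomposition of `δ = d (± √-7)` with respect to `s`: `δ = ε (-ϖ)^i (-ϖ')^j ∏ z_P` up to squares, `z_P` normalised (`T` = the odd primes at
which `δ` has odd valuation) -/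
structure DK (D : Dat L M) (s : Bool) (d : M) (T : Finset (HeightOneSpectrum (𝓞 M)))
    (z : HeightOneSpectrum (𝓞 M) → 𝓞 M) (ε : (𝓞 L)ˣ) (i j : Bool) : Prop where
  two : ∀ P ∈ T, (2 : 𝓞 M) ∉ P.asIdeal
  ng : ∀ P ∈ T, NG D s P (z P)
  eq : ∃ y : M, y ≠ 0 ∧ d * (rs7 D s : M) = ((algebraMap (𝓞 L) (𝓞 M) (ε : 𝓞 L) * (if i then -(p1 D s) else 1) *
    (if j then -(p2 D s) else 1) * ∏ P ∈ T, z P : 𝓞 M) : M) * y ^ 2

/-- the class of `-δ` at `ϖ` (a representative in `𝓞 L`, modulo `4` up to squares); the class of `δ` at `ϖ'` is that of `ε` -/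
noncomputable def cd (D : Dat L M) (s : Bool) (T : Finset (HeightOneSpectrum (𝓞 M)))
    (z : HeightOneSpectrum (𝓞 M) → 𝓞 M) (ε : (𝓞 L)ˣ) : 𝓞 L :=
  rd8 D (!s) (-(algebraMap (𝓞 L) (𝓞 M) (ε : 𝓞 L)) * ∏ P ∈ T, z P)

/-- **the matrix invariant** (correct for all types at `ϖ`, if `δ` is no local square at `ϖ'`) -/
noncomputable def GT (D : Dat L M) (s : Bool) (T : Finset (HeightOneSpectrum (𝓞 M)))
    (z : HeightOneSpectrum (𝓞 M) → 𝓞 M) (ε : (𝓞 L)ˣ) (i j : Bool) : ZMod 2 :=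
  if Rm (cd D s T z ε) i then
    Pool.Agent.TRG.fU (fun P Q => aM z Q P) (bt (FK D s (kp (cd D s T z ε) i) j) z) (nv D s z) (nu D s) T
  else if j then Pool.Agent.TRG.f (fun P Q => aM z Q P) (nv D s z) T
  else ∑ k ∈ T, nv D s z k * Pool.Agent.TRP.cof (fun P Q => aM z Q P) T k

/-- the uniform formula `det (Cᵗ + diag κ_P + ν' νᵗ)`, `C(P, Q) = aM z P Q`, `C(P, P) = ∑ Q, aM z Q P` (equal to `GT` if moreover `-δ` is no local square at `ϖ`) -/
noncomputable def GU (D : Dat L M) (s : Bool) (T : Finset (HeightOneSpectrum (𝓞 M)))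
    (z : HeightOneSpectrum (𝓞 M) → 𝓞 M) (ε : (𝓞 L)ˣ) (i j : Bool) : ZMod 2 :=
  Pool.Agent.TRG.fU (fun P Q => aM z Q P) (bt (FK D s (kp (cd D s T z ε) i) j) z) (nv D s z) (nu D s) T

/-- the primitive Hecke character of the curve: `f` at `ϖ`, `f'` at `ϖ'` -/
structure PhiK (D : Dat L M) (s : Bool) (T : Finset (HeightOneSpectrum (𝓞 M))) (f f' : 𝓞 L → ℤ)
    (Φ : Ideal (𝓞 M) →*₀ ℂ) : Prop where
  span_eq : ∀ x : 𝓞 M, x ≠ 0 → Φ (span {x}) =
    D.NK (x : M) * (((∏ P ∈ T, TT.qr P x) * f (rd8 D (!s) x) * f' (rd8 D s x) : ℤ) : ℂ)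
  val : ∀ I, ∃ β : R7, Φ I = toC β
  norm_eq : ∀ I, I ≠ ⊥ → (∀ P ∈ T, ¬ I ≤ P.asIdeal) → (f = fun _ => 1) ∨ ¬ I ≤ span {p1 D s} →
    (f' = fun _ => 1) ∨ ¬ I ≤ span {p2 D s} → ‖Φ I‖ ^ 2 = absNorm I

/-- `δ` is no square in the completion at `ϖ'`, i.e. the curve is not an unramified nontrivial twist of `X₀(49)` there -/
def Nsq (D : Dat L M) (s : Bool) (d : M) : Prop :=
  ∀ P : HeightOneSpectrum (𝓞 M), p2 D s ∈ P.asIdeal → ¬ IsSquare (algebraMap M (P.adicCompletion M) (d * (rs7 D s : M)))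

end

end TRZ
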