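import Pool.Agent.TRZ.K1
import Pool.Agent.TRZ.Defs2
import Pool.Agent.TRP.R3
import Pool.Agent.TRG.AS3

/-! # [ALL2-T1] the symbol `tp` on `𝓞 L`, the characters of the classes at `2` -/

set_option autoImplicit false
set_option linter.unusedSectionVars false

open NumberField Ideal IsDedekindDomain
open scoped Real Classical ComplexConjugate
open TR TRG TRP

namespace TRZ

section
variable {L : Type} [Field L] [NumberField L]

/-- every integer is a square modulo `2` (`2` inert) -/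
theorem t1_sq (h2 : (span {(2 : 𝓞 L)}).IsPrime) (x : 𝓞 L) : ∃ s y : 𝓞 L, x = s ^ 2 + 2 * y := by
  have hfin : Finite (𝓞 L ⧸ span {(2 : 𝓞 L)}) :=
    Ideal.finiteQuotientOfFreeOfNeBot _ (by
      rw [Ne, Ideal.span_singleton_eq_bot]
      exact two_ne_zero)
  have hinj : Function.Injective (fun q : 𝓞 L ⧸ span {(2 : 𝓞 L)} => q ^ 2) := by
    intro p q hpq
    obtain ⟨a, rfl⟩ := Ideal.Quotient.mk_surjective p
    obtain ⟨b, rfl⟩ := Ideal.Quotient.mk_surjective q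
    have h : (Ideal.Quotient.mk (span {(2 : 𝓞 L)}) a) ^ 2 = (Ideal.Quotient.mk (span {(2 : 𝓞 L)}) b) ^ 2 := hpq
    rw [← map_pow, ← map_pow, Ideal.Quotient.eq, mem_span_singleton] at h
    obtain ⟨c, hc⟩ := h
    rw [Ideal.Quotient.eq]
    have h3 : (a - b) ^ 2 ∈ span {(2 : 𝓞 L)} := by
      rw [mem_span_singleton]
      exact ⟨c - a * b + b ^ 2, by linear_combination hc⟩
    exact h2.mem_of_pow_mem 2 h3
  obtain ⟨q, hq⟩ := Finite.surjective_of_injective hinj (Ideal.Quotient.mk _ x)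
  obtain ⟨s, rfl⟩ := Ideal.Quotient.mk_surjective q
  have h : (Ideal.Quotient.mk (span {(2 : 𝓞 L)}) s) ^ 2 = Ideal.Quotient.mk (span {(2 : 𝓞 L)}) x := hq
  rw [← map_pow, eq_comm, Ideal.Quotient.eq, mem_span_singleton] at h
  obtain ⟨y, hy⟩ := h
  exact ⟨s, y, by linear_combination hy⟩

theorem t1_exists (h2 : (span {(2 : 𝓞 L)}).IsPrime) {x : 𝓞 L} (hx : x ∉ span {(2 : 𝓞 L)}) : ∃ β : 𝓞 L, Cl β x := by
  obtain ⟨s, y, rfl⟩ := t1_sq h2 x
  have hs : s ∉ span {(2 : 𝓞 L)} := by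
    intro h
    apply hx
    rw [sq]
    exact Ideal.add_mem _ (Ideal.mul_mem_left _ _ h) (Ideal.mul_mem_right _ _ (mem_span_singleton_self _))
  obtain ⟨a, b, hab⟩ := (cop_two h2 hs).pow_left (m := 2)
  exact ⟨a * y, s, b * y, cop_two h2 hs, by linear_combination (-2 * y) * hab⟩

theorem t1_uniq (h2 : (span {(2 : 𝓞 L)}).IsPrime) {x β β' : 𝓞 L} (h : Cl β x) (h' : Cl β' x) :
    β - β' ∈ span {(2 : 𝓞 L)} := by
  obtain ⟨s, c, hs, h3⟩ := h
  obtain ⟨r, d, hr, h4⟩ := h'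
  have h5 : (s - r) ^ 2 ∈ span {(2 : 𝓞 L)} := by
    rw [mem_span_singleton]
    exact ⟨r ^ 2 * β' + 2 * d - s ^ 2 * β - 2 * c + r ^ 2 - s * r, by linear_combination h4 - h3⟩
  obtain ⟨k, hk⟩ := mem_span_singleton.1 (h2.mem_of_pow_mem 2 h5)
  have h6 : s ^ 2 * (β - β') ∈ span {(2 : 𝓞 L)} := by
    rw [mem_span_singleton]
    have h7 : (2 : 𝓞 L) * (s ^ 2 * (β - β')) =
        2 * (2 * (d - c - k * s + k ^ 2 - 2 * k * s * β' + 2 * k ^ 2 * β')) := by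
      have hr' : r = s - 2 * k := by linear_combination -hk
      rw [hr'] at h4
      linear_combination h4 - h3
    exact ⟨_, mul_left_cancel₀ two_ne_zero h7⟩
  rcases h2.mem_or_mem h6 with h7 | h7
  · exact absurd (h2.mem_of_pow_mem 2 h7) (notMem_of_cop h2 hs)
  · exact h7

theorem t1_tr {a b : 𝓞 L} (h : a - b ∈ span {(2 : 𝓞 L)}) :
    (2 : ℤ) ∣ Algebra.trace ℤ (𝓞 L) a ↔ (2 : ℤ) ∣ Algebra.trace ℤ (𝓞 L) b := by
  obtain ⟨c, hc⟩ := mem_span_singleton.1 h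
  have e : a = b + 2 * c := by linear_combination hc
  rw [e]
  exact k1_tr_two b c

theorem t1_tp (h2 : (span {(2 : 𝓞 L)}).IsPrime) {x y β γ : 𝓞 L} (hx : Cl β x) (hy : Cl γ y) :
    tp x y = if (2 : ℤ) ∣ Algebra.trace ℤ (𝓞 L) (β * γ) then 1 else -1 := by
  have h : ∃ β γ : 𝓞 L, Cl β x ∧ Cl γ y := ⟨β, γ, hx, hy⟩
  unfold tp
  rw [dif_pos h]
  have e : (2 : ℤ) ∣ Algebra.trace ℤ (𝓞 L) (h.choose * h.choose_spec.choose) ↔
      (2 : ℤ) ∣ Algebra.trace ℤ (𝓞 L) (β * γ) := by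
    apply t1_tr
    have e1 := t1_uniq h2 h.choose_spec.choose_spec.1 hx
    have e2 := t1_uniq h2 h.choose_spec.choose_spec.2 hy
    have e3 : h.choose * h.choose_spec.choose - β * γ =
        (h.choose - β) * h.choose_spec.choose + β * (h.choose_spec.choose - γ) := by ring
    rw [e3]
    exact Ideal.add_mem _ (Ideal.mul_mem_right _ _ e1) (Ideal.mul_mem_left _ _ e2)
  simp only [e]

theorem t1_tp_pm (h2 : (span {(2 : 𝓞 L)}).IsPrime) {x y : 𝓞 L} (hx : x ∉ span {(2 : 𝓞 L)})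
    (hy : y ∉ span {(2 : 𝓞 L)}) : tp x y = 1 ∨ tp x y = -1 := by
  obtain ⟨β, hβ⟩ := t1_exists h2 hx
  obtain ⟨γ, hγ⟩ := t1_exists h2 hy
  rw [t1_tp h2 hβ hγ]
  split_ifs
  · exact Or.inl rfl
  · exact Or.inr rfl

theorem t1_zero (h2 : (span {(2 : 𝓞 L)}).IsPrime) {x y : 𝓞 L}
    (h : x ∈ span {(2 : 𝓞 L)} ∨ y ∈ span {(2 : 𝓞 L)}) : tp x y = 0 := by
  unfold tp
  rw [dif_neg]
  rintro ⟨β, γ, hβ, hγ⟩
  rcases h with h | h
  · exact notMem_of_cop h2 (cl_odd hβ) h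
  · exact notMem_of_cop h2 (cl_odd hγ) h

/-- the trace of `β² + β` is even -/
theorem t1_tr_sq (h2 : (span {(2 : 𝓞 L)}).IsPrime) (β : 𝓞 L) :
    (2 : ℤ) ∣ Algebra.trace ℤ (𝓞 L) (β * β + β) := by
  have h3 : IsCoprime (1 + 2 * β) 2 := ⟨1, -β, by ring⟩
  have h4 := k1_four (β * β + β)
  have e : 1 + 4 * (β * β + β) = (1 + 2 * β) * (1 + 2 * β) := by ring
  rw [e, k1_mul] at h4
  have h5 : t8 (1 + 2 * β) = 1 ∨ t8 (1 + 2 * β) = -1 := by
    rcases k1_val (1 + 2 * β) with h6 | h6 | h6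
    · exact absurd ((k1_zero h2 _).1 h6) (notMem_of_cop h2 h3)
    · exact Or.inl h6
    · exact Or.inr h6
  by_contra hc
  rw [if_neg hc] at h4
  rcases h5 with h6 | h6 <;> rw [h6] at h4 <;> norm_num at h4

end

section
variable {L M : Type} [Field L] [NumberField L] [Field M] [NumberField M] [Algebra L M]
  [IsTotallyReal L] {D : Dat L M} (hD : Od2 D)
include hD

theorem exists_cl {x : 𝓞 L} (hx : x ∉ span {(2 : 𝓞 L)}) : ∃ β : 𝓞 L, Cl β x := t1_exists hD.two hx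

theorem cl_uniq {x β β' : 𝓞 L} (h : Cl β x) (h' : Cl β' x) : β - β' ∈ span {(2 : 𝓞 L)} :=
  t1_uniq hD.two h h'

theorem tp_eq {x y β γ : 𝓞 L} (hx : Cl β x) (hy : Cl γ y) :
    tp x y = if (2 : ℤ) ∣ Algebra.trace ℤ (𝓞 L) (β * γ) then 1 else -1 := t1_tp hD.two hx hy

theorem tp_zero {x y : 𝓞 L} (h : x ∈ span {(2 : 𝓞 L)} ∨ y ∈ span {(2 : 𝓞 L)}) : tp x y = 0 :=
  t1_zero hD.two h

theorem tp_comm (x y : 𝓞 L) : tp x y = tp y x := by
  by_cases hx : x ∈ span {(2 : 𝓞 L)}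
  · rw [t1_zero hD.two (Or.inl hx), t1_zero hD.two (Or.inr hx)]
  by_cases hy : y ∈ span {(2 : 𝓞 L)}
  · rw [t1_zero hD.two (Or.inl hy), t1_zero hD.two (Or.inr hy)]
  obtain ⟨β, hβ⟩ := t1_exists hD.two hx
  obtain ⟨γ, hγ⟩ := t1_exists hD.two hy
  rw [t1_tp hD.two hβ hγ, t1_tp hD.two hγ hβ, mul_comm]

theorem tp_mul (x x' y : 𝓞 L) (hy : y ∉ span {(2 : 𝓞 L)}) : tp (x * x') y = tp x y * tp x' y := by
  by_cases hx : x ∈ span {(2 : 𝓞 L)}
  · rw [t1_zero hD.two (Or.inl hx), t1_zero hD.two (Or.inl (Ideal.mul_mem_right _ _ hx)), zero_mul]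
  by_cases hx' : x' ∈ span {(2 : 𝓞 L)}
  · rw [t1_zero hD.two (Or.inl hx'), t1_zero hD.two (Or.inl (Ideal.mul_mem_left _ _ hx')), mul_zero]
  obtain ⟨β, hβ⟩ := t1_exists hD.two hx
  obtain ⟨β', hβ'⟩ := t1_exists hD.two hx'
  obtain ⟨γ, hγ⟩ := t1_exists hD.two hy
  rw [t1_tp hD.two hβ hγ, t1_tp hD.two hβ' hγ, t1_tp hD.two (cl_mul hβ hβ') hγ, add_mul, map_add]
  by_cases h1 : (2 : ℤ) ∣ Algebra.trace ℤ (𝓞 L) (β * γ) <;>
    by_cases h3 : (2 : ℤ) ∣ Algebra.trace ℤ (𝓞 L) (β' * γ)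
  · rw [if_pos h1, if_pos h3, if_pos (dvd_add h1 h3), mul_one]
  · rw [if_pos h1, if_neg h3, if_neg (by omega), one_mul]
  · rw [if_neg h1, if_pos h3, if_neg (by omega), mul_one]
  · rw [if_neg h1, if_neg h3, if_pos (by omega)]
    norm_num

theorem tp_self {x : 𝓞 L} (hx : x ∉ span {(2 : 𝓞 L)}) : tp x x = tp x (-1) := by
  obtain ⟨β, hβ⟩ := t1_exists hD.two hx
  have h1 : Cl (-1 : 𝓞 L) (-1) := ⟨1, 0, isCoprime_one_left, by ring⟩
  rw [t1_tp hD.two hβ hβ, t1_tp hD.two hβ h1]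
  have h3 := t1_tr_sq hD.two β
  have e : (2 : ℤ) ∣ Algebra.trace ℤ (𝓞 L) (β * β) ↔ (2 : ℤ) ∣ Algebra.trace ℤ (𝓞 L) (β * -1) := by
    rw [map_add] at h3
    rw [mul_neg_one, map_neg]
    omega
  simp only [e]

theorem tp_per (x y c : 𝓞 L) : tp (x + 4 * c) y = tp x y := by
  have h4 : (4 : 𝓞 L) * c ∈ span {(2 : 𝓞 L)} := by
    rw [mem_span_singleton]
    exact ⟨2 * c, by ring⟩
  by_cases hx : x ∈ span {(2 : 𝓞 L)}
  · rw [t1_zero hD.two (Or.inl hx), t1_zero hD.two (Or.inl (Ideal.add_mem _ hx h4))]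
  by_cases hy : y ∈ span {(2 : 𝓞 L)}
  · rw [t1_zero hD.two (Or.inr hy), t1_zero hD.two (Or.inr hy)]
  obtain ⟨β, hβ⟩ := t1_exists hD.two hx
  obtain ⟨γ, hγ⟩ := t1_exists hD.two hy
  rw [t1_tp hD.two hβ hγ, t1_tp hD.two (cl_add hβ c) hγ]

/-- nondegenerate -/
theorem tp_nondeg {y : 𝓞 L} (hy : y ∉ span {(2 : 𝓞 L)}) (h : ¬ Q4 y) : ∃ x : 𝓞 L, tp (1 + 2 * x) y = -1 := by
  obtain ⟨γ, hγ⟩ := t1_exists hD.two hy
  have hγ2 : γ ∉ span {(2 : 𝓞 L)} := by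
    intro h1
    obtain ⟨k, hk⟩ := mem_span_singleton.1 h1
    obtain ⟨s, c, hs, h3⟩ := hγ
    exact h ⟨s, s ^ 2 * k + c, hs, by rw [h3, hk]; ring⟩
  obtain ⟨c, hc⟩ := k1_tr hD.two hD.odd hγ2
  refine ⟨c, ?_⟩
  rw [t1_tp hD.two (cl_one c) hγ, mul_comm, if_neg hc]

theorem tp_q4 {x y : 𝓞 L} (hx : Q4 x) (hy : y ∉ span {(2 : 𝓞 L)}) : tp x y = 1 := by
  obtain ⟨a, c, ha, h⟩ := hx
  obtain ⟨γ, hγ⟩ := t1_exists hD.two hy
  have h1 : Cl 0 x := ⟨a, c, ha, by rw [h]; ring⟩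
  rw [t1_tp hD.two h1 hγ, zero_mul, map_zero, if_pos (dvd_zero _)]

/-- a unit which is a square modulo `4` is a square -/
theorem q4_unit {u : (𝓞 L)ˣ} (h : Q4 (u : 𝓞 L)) : ∃ w : (𝓞 L)ˣ, u = w ^ 2 := by
  obtain ⟨t, c, -, h1⟩ := h
  obtain ⟨v, hv⟩ := D.unit_square u t c h1
  have hint : IsIntegral ℤ v := by
    apply IsIntegral.of_pow (n := 2) (by norm_num)
    rw [hv]
    exact (RingOfIntegers.isIntegral_coe (u : 𝓞 L)).map (algebraMap L M).toIntAlgHom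
  obtain ⟨V, hvO⟩ : ∃ V : 𝓞 M, V ^ 2 = algebraMap (𝓞 L) (𝓞 M) (u : 𝓞 L) := by
    refine ⟨⟨v, hint⟩, ?_⟩
    apply RingOfIntegers.ext
    exact hv
  have hunit : IsUnit V := by
    rw [← isUnit_pow_iff (n := 2) two_ne_zero, hvO]
    exact u.isUnit.map _
  obtain ⟨w, hw⟩ := hunit
  obtain ⟨w', hw'⟩ := D.unit_real w
  refine ⟨w', ?_⟩
  apply Units.ext
  apply FaithfulSMul.algebraMap_injective (𝓞 L) (𝓞 M)
  rw [Units.val_pow_eq_pow_val, map_pow, ← hw', hw, hvO]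

theorem kp_kp {c : 𝓞 L} (hc : c ∉ span {(2 : 𝓞 L)}) {i : Bool} (h : Rm c i) : Kp (if i then 3 else 2) (kp c i) := by
  have hk : kp c i = kc c i := if_pos h
  rw [hk]
  have hte : ∀ (i : Bool) (x y : 𝓞 L), te i (x * y) = te i x * te i y := by
    intro i x y
    unfold te
    split_ifs
    · exact k1_mul x y
    · rw [mul_one]
  have hte0 : ∀ (i : Bool) (x : 𝓞 L), x ∉ span {(2 : 𝓞 L)} → te i x = 1 ∨ te i x = -1 := by
    intro i x hx
    unfold te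
    split_ifs
    · rcases k1_val x with h1 | h1 | h1
      · exact absurd ((k1_zero hD.two x).1 h1) hx
      · exact Or.inl h1
      · exact Or.inr h1
    · exact Or.inl rfl
  have hmul : ∀ x y, kc c i (x * y) = kc c i x * kc c i y := by
    intro x y
    unfold kc
    rw [tp_mul hD x y c hc, hte]
    ring
  have hpm : ∀ x : 𝓞 L, x ∉ span {(2 : 𝓞 L)} → kc c i x = 1 ∨ kc c i x = -1 := by
    intro x hx
    unfold kc
    rcases t1_tp_pm hD.two hx hc with h1 | h1 <;> rcases hte0 i x hx with h3 | h3 <;> rw [h1, h3] <;>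
      norm_num
  have hz : ∀ x, kc c i x = 0 ↔ x ∈ span {(2 : 𝓞 L)} := by
    intro x
    constructor
    · intro h1
      by_contra hx
      rcases hpm x hx with h3 | h3 <;> rw [h3] at h1 <;> norm_num at h1
    · intro h1
      unfold kc
      rw [t1_zero hD.two (Or.inl h1), zero_mul]
  have hval : ∀ x, kc c i x = 0 ∨ kc c i x = 1 ∨ kc c i x = -1 := by
    intro x
    by_cases hx : x ∈ span {(2 : 𝓞 L)}
    · exact Or.inl ((hz x).2 hx)
    · exact Or.inr (hpm x hx)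
  cases i with
  | false =>
    rw [if_neg (by decide)]
    refine ⟨le_refl _, by norm_num, hmul, ?_, hz, hval, ?_⟩
    · intro x y
      unfold kc te
      rw [show (2 : 𝓞 L) ^ 2 = 4 by norm_num, tp_per hD]
      rfl
    · have h1 : ¬ Q4 c := by
        rcases h with h1 | h1
        · exact absurd h1 (by decide)
        · exact h1
      obtain ⟨x, hx⟩ := tp_nondeg hD hc h1
      refine ⟨x, ?_⟩
      unfold kc te
      rw [show (2 : 𝓞 L) ^ (2 - 1) = 2 by norm_num, hx]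
      rfl
  | true =>
    rw [if_pos rfl]
    refine ⟨by norm_num, le_refl _, hmul, ?_, hz, hval, ?_⟩
    · intro x y
      unfold kc te
      rw [if_pos rfl, if_pos rfl, show (2 : 𝓞 L) ^ 3 * y = 4 * (2 * y) by ring, tp_per hD,
        show x + 4 * (2 * y) = x + 8 * y by ring, k1_per]
    · refine ⟨1, ?_⟩
      unfold kc te
      rw [if_pos rfl, show (1 : 𝓞 L) + 2 ^ (3 - 1) * 1 = 1 + 4 * 1 by norm_num, tp_per hD, k1_four,
        if_neg (k1_tr_one hD.odd)]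
      have h1 : tp 1 c = 1 := tp_q4 hD ⟨1, 0, isCoprime_one_left, by ring⟩ hc
      rw [h1, one_mul]

theorem kp_one {c : 𝓞 L} {i : Bool} (h : ¬ Rm c i) : kp c i = fun _ => 1 := if_neg h

/-- for an unramified class the symbol is trivial on the odd elements -/
theorem kc_unr {c x : 𝓞 L} {i : Bool} (h : ¬ Rm c i) (hc : c ∉ span {(2 : 𝓞 L)}) (hx : x ∉ span {(2 : 𝓞 L)}) : kc c i x = 1 := by
  unfold Rm at h
  push Not at h
  obtain ⟨hi, hq⟩ := h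
  have hi' : i = false := by
    cases i with
    | false => rfl
    | true => exact absurd rfl hi
  subst hi'
  unfold kc te
  rw [tp_comm hD, tp_q4 hD hq hx]
  rfl

end

end TRZ
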