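import Pool.Agent.TRZ.R5b
import Pool.Agent.TRZ.T1

/-! # [ALL2-R5] explicit reciprocity at `2` -/

set_option autoImplicit false
set_option linter.unusedSectionVars false

open NumberField Ideal IsDedekindDomain
open scoped Real Classical ComplexConjugate
open TR TRG TRP TTS TU TT

namespace TRZ

section
variable {L M : Type} [Field L] [NumberField L] [Field M] [NumberField M] [Algebra L M] [IsTotallyReal L]
  {D : Dat L M} (hD : Od2 D)
include hD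

omit hD in
theorem r5_add (s : Bool) (x y : 𝓞 M) : rd8 D s (x + y) = rd8 D s x + rd8 D s y := by
  unfold rd8 lf
  rw [map_add, Prod.fst_add, Prod.snd_add]
  ring

/-- a representative of the residue modulo `8` -/
theorem r5_rd (s : Bool) (x : 𝓞 M) : x - algebraMap (𝓞 L) (𝓞 M) (rd8 D (!s) x) ∈ (Vp hD s).asIdeal := by
  have h := x1_cong1 hD (!s) x
  rw [p2_not] at h
  exact h

theorem r5_vtwo (s : Bool) {c : 𝓞 L} (h : algebraMap (𝓞 L) (𝓞 M) c ∈ (Vp hD s).asIdeal) : c ∈ span {(2 : 𝓞 L)} := by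
  apply x_two (D := D) (s := !s)
  rw [p2_not]
  exact h

theorem r5_twov (s : Bool) {c : 𝓞 L} (h : c ∈ span {(2 : 𝓞 L)}) : algebraMap (𝓞 L) (𝓞 M) c ∈ (Vp hD s).asIdeal := by
  have h1 := x1_two_mem (D := D) (!s) h
  rw [p2_not] at h1
  exact h1

/-- the Artin-Schreier symbol is the trace -/
theorem r5_tr (s : Bool) (y : 𝓞 L) : chd 1 (algebraMap (𝓞 L) (𝓞 M) y) (Vp hD s) =
    if (2 : ℤ) ∣ Algebra.trace ℤ (𝓞 L) y then 1 else -1 := by
  have key : ∀ y : 𝓞 L, chd 1 (algebraMap (𝓞 L) (𝓞 M) y) (Vp hD s) = 1 → (2 : ℤ) ∣ Algebra.trace ℤ (𝓞 L) y := by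
    intro y hy
    have h1 : ∃ b : 𝓞 M, b ^ 2 - 1 * b - algebraMap (𝓞 L) (𝓞 M) y ∈ (Vp hD s).asIdeal := by
      by_contra hne
      unfold chd at hy
      rw [if_neg hne] at hy
      norm_num at hy
    obtain ⟨b, hb⟩ := h1
    set c := rd8 D (!s) b with hc
    have h2 : algebraMap (𝓞 L) (𝓞 M) (c ^ 2 - c - y) ∈ (Vp hD s).asIdeal := by
      have h3 := r5_rd hD s b
      rw [← hc] at h3
      have e : algebraMap (𝓞 L) (𝓞 M) (c ^ 2 - c - y) = (b ^ 2 - 1 * b - algebraMap (𝓞 L) (𝓞 M) y) -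
          (b - algebraMap (𝓞 L) (𝓞 M) c) * (b + algebraMap (𝓞 L) (𝓞 M) c - 1) := by
        rw [map_sub, map_sub, map_pow]
        ring
      rw [e]
      exact Ideal.sub_mem _ hb (Ideal.mul_mem_right _ _ h3)
    have h4 := r5_vtwo hD s h2
    have h5 : y - (c * c + c) ∈ span {(2 : 𝓞 L)} := by
      obtain ⟨k, hk⟩ := Ideal.mem_span_singleton.1 h4
      rw [Ideal.mem_span_singleton]
      exact ⟨-k - c, by linear_combination -hk⟩
    exact (t1_tr h5).2 (t1_tr_sq hD.two c)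
  have h1 : chd 1 (1 : 𝓞 M) (Vp hD s) = -1 := by
    rcases chd_one_sgn (Vp hD s) 1 with h | h
    · exfalso
      have h2 := key 1 (by rw [map_one]; exact h)
      exact k1_tr_one hD.odd h2
    · exact h
  split_ifs with h
  · rcases chd_one_sgn (Vp hD s) (algebraMap (𝓞 L) (𝓞 M) y) with h2 | h2
    · exact h2
    · exfalso
      have h3 : chd 1 (algebraMap (𝓞 L) (𝓞 M) (y + 1)) (Vp hD s) = 1 := by
        rw [map_add, map_one, chd_one_add (Vp_two hD s), h2, h1]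
        norm_num
      have h4 := key _ h3
      apply k1_tr_one (L := L) hD.odd
      rw [map_add] at h4
      exact (dvd_add_right h).1 h4
  · rcases chd_one_sgn (Vp hD s) (algebraMap (𝓞 L) (𝓞 M) y) with h2 | h2
    · exact absurd (key y h2) h
    · exact h2

theorem r5_chd (s : Bool) (x : 𝓞 M) : chd 1 x (Vp hD s) =
    if (2 : ℤ) ∣ Algebra.trace ℤ (𝓞 L) (rd8 D (!s) x) then 1 else -1 := by
  have := D.isTotallyComplex
  rw [chd_congr (r5_rd hD s x), r5_tr hD s]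

/-- the residue of an odd element -/
theorem r5_cop (s : Bool) {a : 𝓞 M} (ha : IsCoprime a 2) : IsCoprime (rd8 D s a) 2 := by
  obtain ⟨u, v, huv⟩ := ha
  have h1 := rd8_mul hD s u a
  have h2 := rd8_mul hD s v 2
  have h3 := rd8_alg hD s 1
  have h4 := rd8_alg hD s 2
  rw [map_one] at h3
  rw [map_ofNat] at h4
  have h5 := congrArg (rd8 D s) huv
  rw [r5_add] at h5
  obtain ⟨k1, hk1⟩ := Ideal.mem_span_singleton.1 h1
  obtain ⟨k2, hk2⟩ := Ideal.mem_span_singleton.1 h2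
  obtain ⟨k3, hk3⟩ := Ideal.mem_span_singleton.1 h3
  obtain ⟨k4, hk4⟩ := Ideal.mem_span_singleton.1 h4
  refine ⟨rd8 D s u, rd8 D s v + 4 * (k1 + k2 - k3 + rd8 D s v * k4), ?_⟩
  linear_combination h5 - hk1 - hk2 + hk3 - rd8 D s v * hk4

theorem r5_notMem (s : Bool) {a : 𝓞 M} (ha : IsCoprime a 2) : rd8 D s a ∉ span {(2 : 𝓞 L)} := by
  intro h
  obtain ⟨u, v, huv⟩ := r5_cop hD s ha
  apply hD.two.ne_top
  rw [Ideal.eq_top_iff_one, ← huv]
  exact Ideal.add_mem _ (Ideal.mul_mem_left _ _ h) (Ideal.mul_mem_left _ _ (Ideal.mem_span_singleton_self _))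

/-- residues of classes -/
theorem r5_rdcl (s : Bool) {z a : 𝓞 M} (h : Cl z a) : Cl (rd8 D s z) (rd8 D s a) := by
  obtain ⟨t, c, ht, rfl⟩ := h
  have e : t ^ 2 * (1 + 2 * z) + 4 * c = t * t + (t * t * (algebraMap (𝓞 L) (𝓞 M) 2 * z) + algebraMap (𝓞 L) (𝓞 M) 4 * c) := by
    rw [map_ofNat, map_ofNat]
    ring
  rw [e, r5_add, r5_add]
  obtain ⟨k1, hk1⟩ := Ideal.mem_span_singleton.1 (rd8_mul hD s t t)
  obtain ⟨k2, hk2⟩ := Ideal.mem_span_singleton.1 (rd8_mul hD s (t * t) (algebraMap (𝓞 L) (𝓞 M) 2 * z))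
  obtain ⟨k3, hk3⟩ := Ideal.mem_span_singleton.1 (rd8_mul hD s (algebraMap (𝓞 L) (𝓞 M) 2) z)
  obtain ⟨k4, hk4⟩ := Ideal.mem_span_singleton.1 (rd8_mul hD s (algebraMap (𝓞 L) (𝓞 M) 4) c)
  obtain ⟨k5, hk5⟩ := Ideal.mem_span_singleton.1 (rd8_alg hD s 2)
  obtain ⟨k6, hk6⟩ := Ideal.mem_span_singleton.1 (rd8_alg hD s 4)
  have h1 : rd8 D s (t * t) = rd8 D s t * rd8 D s t + 8 * k1 := by linear_combination hk1
  have h3 : rd8 D s (algebraMap (𝓞 L) (𝓞 M) 2 * z) = (2 + 8 * k5) * rd8 D s z + 8 * k3 := by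
    linear_combination hk3 + rd8 D s z * hk5
  have h2 : rd8 D s (t * t * (algebraMap (𝓞 L) (𝓞 M) 2 * z)) =
      (rd8 D s t * rd8 D s t + 8 * k1) * ((2 + 8 * k5) * rd8 D s z + 8 * k3) + 8 * k2 := by
    rw [← h1, ← h3]
    linear_combination hk2
  have h4 : rd8 D s (algebraMap (𝓞 L) (𝓞 M) 4 * c) = (4 + 8 * k6) * rd8 D s c + 8 * k4 := by
    linear_combination hk4 + rd8 D s c * hk6
  rw [h1, h2, h4]
  refine ⟨rd8 D s t, 2 * k1 + (rd8 D s t * rd8 D s t * (2 * k5 * rd8 D s z + 2 * k3) +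
    2 * k1 * ((2 + 8 * k5) * rd8 D s z + 8 * k3)) + 2 * k2 + (1 + 2 * k6) * rd8 D s c + 2 * k4, r5_cop hD s ht, ?_⟩
  ring

/-- the local symbol at `ϖ` -/
theorem r5_tp (s : Bool) {z w a b : 𝓞 M} (ha : Cl z a) (hb : Cl w b) :
    chd 1 (z * w) (Vp hD s) = tp (rd8 D (!s) a) (rd8 D (!s) b) := by
  rw [r5_chd hD s, t1_tp hD.two (r5_rdcl hD (!s) ha) (r5_rdcl hD (!s) hb)]
  have h : rd8 D (!s) (z * w) - rd8 D (!s) z * rd8 D (!s) w ∈ span {(2 : 𝓞 L)} := by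
    obtain ⟨k, hk⟩ := Ideal.mem_span_singleton.1 (rd8_mul hD (!s) z w)
    rw [Ideal.mem_span_singleton]
    exact ⟨4 * k, by linear_combination hk⟩
  exact if_congr (t1_tr h) rfl rfl

/-- [R5a] (from `bb_val`, `bb_mix` for both primes above `2`, `bb_add_left/right`) -/
theorem rec_odd {a b : 𝓞 M} (ha : IsCoprime a 2) (hb : IsCoprime b 2) (hab : IsCoprime a b) (s : Bool) :
    rs a b = tp (rd8 D s a) (rd8 D s b) * tp (rd8 D (!s) a) (rd8 D (!s) b) := by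
  have := D.isTotallyComplex
  have hd := dyM hD s
  have hd' : Dy (Vp hD (!s)) (p2 D s) (p1 D s) := by
    have h := dyM hD (!s)
    rw [p2_not] at h
    exact h
  obtain ⟨z, hz⟩ := r5_cl hd hd' ha
  obtain ⟨w, hw⟩ := r5_cl hd hd' hb
  rw [r5_rs hd hd' hz hw hab, r5_tp hD s hz hw, r5_tp hD (!s) hz hw, Bool.not_not, mul_comm]

/-- squares modulo `4` -/
theorem r5_sq (s : Bool) {a t c : 𝓞 M} (ha : IsCoprime a 2) (h : a = t ^ 2 + 4 * c) :
    chd t c (Vp hD s) = t8 (rd8 D (!s) a) := by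
  have := D.isTotallyComplex
  have ht : IsCoprime t 2 := by
    have h1 : IsCoprime (t ^ 2) 2 := by
      have h2 : t ^ 2 = a + 2 * (-2 * c) := by rw [h]; ring
      rw [h2, IsCoprime.add_mul_left_left_iff]
      exact ha
    exact (IsCoprime.pow_left_iff (by norm_num)).1 h1
  have htV : t ∉ (Vp hD s).asIdeal := by
    intro h1
    obtain ⟨u, v, huv⟩ := ht
    apply (Vp hD s).isPrime.ne_top
    rw [Ideal.eq_top_iff_one, ← huv]
    exact Ideal.add_mem _ (Ideal.mul_mem_left _ _ h1) (Ideal.mul_mem_left _ _ (Vp_two hD s))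
  obtain ⟨u, v, huv⟩ := r5_cop hD (!s) ht
  set τ := rd8 D (!s) t with hτ
  set γ := rd8 D (!s) c with hγ
  -- `c' = u² γ`
  have e1 : τ ^ 2 * (u ^ 2 * γ) - γ ∈ span {(2 : 𝓞 L)} := by
    rw [Ideal.mem_span_singleton]
    refine ⟨-v * (1 + u * τ) * γ, ?_⟩
    linear_combination ((1 + u * τ) * γ) * huv
  have h1 : chd t c (Vp hD s) = chd 1 (algebraMap (𝓞 L) (𝓞 M) (u ^ 2 * γ)) (Vp hD s) := by
    apply chd_scale htV
    have h2 := r5_rd hD s t
    have h3 := r5_rd hD s c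
    rw [← hτ] at h2
    rw [← hγ] at h3
    have h4 := r5_twov hD s e1
    have e : t ^ 2 * algebraMap (𝓞 L) (𝓞 M) (u ^ 2 * γ) - c =
        algebraMap (𝓞 L) (𝓞 M) (τ ^ 2 * (u ^ 2 * γ) - γ) - (c - algebraMap (𝓞 L) (𝓞 M) γ) +
          (t - algebraMap (𝓞 L) (𝓞 M) τ) * ((t + algebraMap (𝓞 L) (𝓞 M) τ) * algebraMap (𝓞 L) (𝓞 M) (u ^ 2 * γ)) := by
      simp only [map_sub, map_mul, map_pow]
      ring
    rw [e]
    exact Ideal.add_mem _ (Ideal.sub_mem _ h4 h3) (Ideal.mul_mem_right _ _ h2)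
  have h2 : rd8 D (!s) a - (τ ^ 2 + 4 * γ) ∈ span {(8 : 𝓞 L)} := by
    have e : a = t * t + algebraMap (𝓞 L) (𝓞 M) 4 * c := by
      rw [h, map_ofNat]
      ring
    rw [e, r5_add]
    obtain ⟨k1, hk1⟩ := Ideal.mem_span_singleton.1 (rd8_mul hD (!s) t t)
    obtain ⟨k2, hk2⟩ := Ideal.mem_span_singleton.1 (rd8_mul hD (!s) (algebraMap (𝓞 L) (𝓞 M) 4) c)
    obtain ⟨k3, hk3⟩ := Ideal.mem_span_singleton.1 (rd8_alg hD (!s) 4)
    rw [Ideal.mem_span_singleton]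
    refine ⟨k1 + k2 + k3 * γ, ?_⟩
    rw [← hτ] at hk1
    rw [← hγ] at hk2
    linear_combination hk1 + hk2 + γ * hk3
  have hτ2 : τ ^ 2 ∉ span {(2 : 𝓞 L)} := fun h3 => r5_notMem hD (!s) ht (hD.two.mem_of_pow_mem 2 h3)
  rw [h1, r5_tr hD s, x1_t8_per h2, t8_four hD e1 hτ2]
  have h3 : t8 (τ ^ 2) = 1 := by
    have h4 := t8_sq hD (a := τ) (c := 0) (r5_cop hD (!s) ht)
    rwa [mul_zero, add_zero] at h4
  rw [h3, one_mul]

/-- [R5b] -/
theorem rec_unif {a : 𝓞 M} (ha : IsCoprime a 2) (s : Bool) : sy (-(p1 D s)) (span {a}) = t8 (rd8 D (!s) a) := by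
  have := D.isTotallyComplex
  have hd := dyM hD s
  have hd' : Dy (Vp hD (!s)) (p2 D s) (p1 D s) := by
    have h := dyM hD (!s)
    rw [p2_not] at h
    exact h
  have hsp : span {-(p1 D s)} = (Vp hD s).asIdeal ^ 1 := by
    rw [pow_one, Ideal.span_singleton_neg]
    rfl
  have hsq : ∀ {a t c : 𝓞 M}, IsCoprime a 2 → a = t ^ 2 + 4 * c → sy (-(p1 D s)) (span {a}) = t8 (rd8 D (!s) a) := by
    intro a t c ha h
    rw [rec_two D.hodd (Vp_two hD s) odd_one hsp h ha, r5_sq hD s ha h]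
  obtain ⟨z, hz⟩ := r5_cl hd hd' ha
  obtain ⟨X, Y, hXY, hA⟩ := r5_rep hd z
  have hAo := cl_odd hA
  obtain ⟨t, c, htc⟩ := cl_eq hz hA
  have h1 := hsq (ha.mul_left hAo) htc
  rw [← Ideal.span_singleton_mul_span_singleton, r1_sy_mul_right _ (r2_span_ne ha) (r2_span_ne hAo),
    r5_stein hd hAo hXY, mul_one] at h1
  have h2 : t8 (rd8 D (!s) (X ^ 2 + p1 D s * Y ^ 2)) = 1 := by
    have h3 : rd8 D (!s) (X ^ 2 + p1 D s * Y ^ 2) -
        (rd8 D (!s) X ^ 2 - 2 * rd8 D (!s) Y ^ 2) ∈ span {(8 : 𝓞 L)} := by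
      have e : X ^ 2 + p1 D s * Y ^ 2 = X * X + p1 D s * (Y * Y) := by ring
      rw [e, r5_add]
      have h4 : rd8 D (!s) (p1 D s) + 2 ∈ span {(8 : 𝓞 L)} := by
        have h5 : p1 D s - algebraMap (𝓞 L) (𝓞 M) (-2) ∈ span {p2 D (!s) ^ 3} := by
          rw [p2_not, map_neg, map_ofNat]
          have hq := r5_q hd
          refine Ideal.mem_span_singleton'.2 ⟨-1, ?_⟩
          linear_combination (-(p1 D s + 1)) * hq
        have h6 := rd8_uniq hD (!s) h5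
        rwa [sub_neg_eq_add] at h6
      obtain ⟨k1, hk1⟩ := Ideal.mem_span_singleton.1 (rd8_mul hD (!s) X X)
      obtain ⟨k2, hk2⟩ := Ideal.mem_span_singleton.1 (rd8_mul hD (!s) (p1 D s) (Y * Y))
      obtain ⟨k3, hk3⟩ := Ideal.mem_span_singleton.1 (rd8_mul hD (!s) Y Y)
      obtain ⟨k4, hk4⟩ := Ideal.mem_span_singleton.1 h4
      rw [Ideal.mem_span_singleton]
      have h5 : rd8 D (!s) (Y * Y) = rd8 D (!s) Y * rd8 D (!s) Y + 8 * k3 := by linear_combination hk3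
      have h6 : rd8 D (!s) (p1 D s) = -2 + 8 * k4 := by linear_combination hk4
      rw [h5, h6] at hk2
      refine ⟨k1 + k2 + k4 * (rd8 D (!s) Y * rd8 D (!s) Y + 8 * k3) - 2 * k3, ?_⟩
      linear_combination hk1 + hk2
    rw [x1_t8_per h3]
    apply r5_t8
    rw [← x1_t8_per h3]
    intro h4
    exact r5_notMem hD (!s) hAo ((t8_zero hD _).1 h4)
  rw [h1, x1_t8_per (rd8_mul hD (!s) a (X ^ 2 + p1 D s * Y ^ 2)), x1_t8_mul, h2, mul_one]

/-- classes of the basic elements -/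
theorem rd8_p1 (s : Bool) : rd8 D s (-(p1 D s)) - 5 ∈ span {(8 : 𝓞 L)} := by
  have := D.isTotallyComplex
  have hq := r5_q (dyM hD s)
  have hp := r5_p' (dyM hD s)
  apply rd8_uniq hD s
  rw [map_ofNat, hp]
  refine Ideal.mem_span_singleton'.2 ⟨p1 D s + 1, ?_⟩
  linear_combination (-p1 D s ^ 2 + p1 D s + 3) * hq

theorem rd8_p2 (s : Bool) : rd8 D (!s) (-(p2 D s)) - 5 ∈ span {(8 : 𝓞 L)} := by
  have h := rd8_p1 hD (!s)
  exact h

theorem rd8_rs7 (s : Bool) : rd8 D s (rs7 D s) - 5 ∈ span {(8 : 𝓞 L)} ∧ rd8 D (!s) (rs7 D s) - 3 ∈ span {(8 : 𝓞 L)} := by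
  have := D.isTotallyComplex
  have hq := r5_q (dyM hD s)
  have hp := r5_p' (dyM hD s)
  constructor
  · apply rd8_uniq hD s
    rw [map_ofNat]
    unfold rs7
    rw [hp]
    refine Ideal.mem_span_singleton'.2 ⟨2, ?_⟩
    linear_combination (-2 * p1 D s + 4) * hq
  · apply rd8_uniq hD (!s)
    rw [map_ofNat, p2_not]
    unfold rs7
    rw [hp]
    refine Ideal.mem_span_singleton'.2 ⟨1 - p1 D s, ?_⟩
    linear_combination (-p1 D s ^ 2 + 2) * hq

end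

end TRZ
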