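import Pool.Agent.TRZ.SG3
import Pool.Agent.TRX.C7

/-! # [ALL2-SG4] the local conditions at `ϖ'` and at `ϖ`; the decomposition of a Selmer class -/

set_option autoImplicit false
set_option linter.unusedSectionVars false

open NumberField Ideal IsDedekindDomain
open scoped Real Classical ComplexConjugate
open TR TRG TRP TTS TU TT

namespace TRZ

open WithZero TRX2

section
variable {L M : Type} [Field L] [NumberField L] [Field M] [NumberField M] [Algebra L M]
  [IsTotallyReal L] {D : Dat L M} {s : Bool} {d : M}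

theorem sg_r2c (D : Dat L M) (s : Bool) (P : HeightOneSpectrum (𝓞 M)) :
    (algebraMap M (P.adicCompletion M) (rs7 D s : M)) ^ 2 = -7 := by
  rw [← map_pow, sg_r2, map_neg, map_ofNat]

theorem sg_dr {d : M} (hd : d ≠ 0) (s : Bool) : d * (rs7 D s : M) ≠ 0 := mul_ne_zero hd (c2_rs7_ne s)

theorem sg_ur_rs7 (hD : Od2 D) {P : HeightOneSpectrum (𝓞 M)} (hP : p2 D s ∈ P.asIdeal) : Ur P (rs7 D s : M) :=
  sg_et_ur hD hP (se4_et_rs7 D s)

/-- `d` and `δ` have the same type at `ϖ'` -/
theorem sg_ur_dr (hD : Od2 D) {P : HeightOneSpectrum (𝓞 M)} (hP : p2 D s ∈ P.asIdeal) : Ur P (d * (rs7 D s : M)) ↔ Ur P d := by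
  refine ⟨fun h => ?_, fun h => h.mul (sg_ur_rs7 hD hP)⟩
  have h1 := h.mul (sg_ur_rs7 (s := s) hD hP)
  have e : d * (rs7 D s : M) * (rs7 D s : M) = (rs7 D s : M) ^ 2 * d := by ring
  rwa [e, ur_sq_mul (c2_rs7_ne s)] at h1

/-- **the local condition at `ϖ'`** -/
theorem sg_loc_p2 (hD : Od2 D) {P : HeightOneSpectrum (𝓞 M)} (hP : p2 D s ∈ P.asIdeal) (hd : d ≠ 0)
    (hN : ¬ IsSquare (algebraMap M (P.adicCompletion M) (d * (rs7 D s : M)))) {x : M} (hx : x ≠ 0)
    (h : LocCond (algebraMap M (P.adicCompletion M) d) (algebraMap M (P.adicCompletion M) (rs7 D s : M)) (algebraMap M (P.adicCompletion M) x)) :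
    IsSquare (algebraMap M (P.adicCompletion M) x) ∨ IsSquare (algebraMap M (P.adicCompletion M) (x * (d * (rs7 D s : M)))) := by
  have hchar : CharZero (P.adicCompletion M) :=
    charZero_of_injective_algebraMap (algebraMap M (P.adicCompletion M)).injective
  have h2P := c1_mem_two hP
  have hb : P.valuation M (wbB (rs7 D s : M)) < 1 := by
    rw [sg_wbB, c1_val hD hP, ← exp_zero, exp_lt_exp]
    norm_num
  by_cases hU : Ur P d
  · obtain ⟨t, c, hc, hxt⟩ := wb_of_locCond (sg_r2 D s) P hb hU x hx h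
    have ht : t ≠ 0 := by
      rintro rfl
      apply hx
      rw [hxt]
      ring
    have hux : Ur P x := TRH.ur_of_form P h2P ht hc hxt
    by_cases hxs : IsSquare (algebraMap M (P.adicCompletion M) x)
    · exact Or.inl hxs
    · exact Or.inr (sg_two hux ((sg_ur_dr hD hP).2 hU) hxs hN)
  · have hB : algebraMap M (P.adicCompletion M) (wbB (rs7 D s : M)) = wbB (algebraMap M (P.adicCompletion M) (rs7 D s : M)) := by
      unfold wbB
      rw [map_div₀, map_sub, map_one, map_ofNat]
    have h1 := (locCond_a (v := (Valued.v : Valuation (P.adicCompletion M) (WithZero (Multiplicative ℤ))))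
      (fun x hx => TRX.w1_hensel P x hx) (sg_r2c D s P) (by rw [← hB, hr_val_coe]; exact hb)
      (by rw [← map_mul]; exact (map_ne_zero _).2 (sg_dr hd s)) (fun h2 => hU (by
        rw [← map_mul] at h2
        exact (sg_ur_dr hD hP).1 (sg_unr h2P (sg_dr hd s) h2)))).1 h
    rcases h1 with h1 | h1
    · exact Or.inl h1
    · right
      rw [← map_mul, ← map_mul] at h1
      exact h1

/-- the local condition at `ϖ`, ramified case -/
theorem sg_loc_p1 (hD : Od2 D) {P : HeightOneSpectrum (𝓞 M)} (hP : p1 D s ∈ P.asIdeal) (hd : d ≠ 0) (hU : ¬ Ur P d)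
    {x : M} (hx : x ≠ 0) (h : NmAt P (d * (rs7 D s : M)) x) :
    LocCond (algebraMap M (P.adicCompletion M) d) (algebraMap M (P.adicCompletion M) (rs7 D s : M)) (algebraMap M (P.adicCompletion M) x) := by
  have hchar : CharZero (P.adicCompletion M) :=
    charZero_of_injective_algebraMap (algebraMap M (P.adicCompletion M)).injective
  have hP' : p2 D (!s) ∈ P.asIdeal := by
    rw [c2_p2_not]
    exact hP
  have h2P := c1_mem_two hP'
  have hw : P.valuation M (wB (rs7 D s : M)) < 1 := by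
    rw [sg_wB]
    have h3 := c1_val hD hP'
    rw [c2_p2_not] at h3
    rw [h3, ← exp_zero, exp_lt_exp]
    norm_num
  have hW : algebraMap M (P.adicCompletion M) (wB (rs7 D s : M)) = wB (algebraMap M (P.adicCompletion M) (rs7 D s : M)) := by
    unfold wB
    rw [map_div₀, map_add, map_one, map_ofNat]
  obtain ⟨u, t, hut⟩ := h
  refine (locCond_b (v := (Valued.v : Valuation (P.adicCompletion M) (WithZero (Multiplicative ℤ))))
      (fun x hx => TRX.w1_hensel P x hx) (sg_r2c D s P) (by rw [← hW, hr_val_coe]; exact hw)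
      (by rw [← map_mul]; exact (map_ne_zero _).2 (sg_dr hd s)) (fun h2 => hU ?_) ((map_ne_zero _).2 hx)).2 ⟨u, t, ?_⟩
  · have e : -(algebraMap M (P.adicCompletion M) d * algebraMap M (P.adicCompletion M) (rs7 D s : M)) =
        algebraMap M (P.adicCompletion M) (d * (rs7 D (!s) : M)) := by
      rw [c2_rs7_not]
      have e2 : ((-(rs7 D s) : 𝓞 M) : M) = -(rs7 D s : M) := map_neg _ _
      rw [e2, mul_neg, map_neg, map_mul]
    rw [e] at h2
    exact (sg_ur_dr hD hP').1 (sg_unr h2P (sg_dr hd (!s)) h2)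
  · rw [hut, map_mul]

/-- the type of `-δ` at `ϖ` -/
theorem sg_ur_neg (hD : Od2 D) {P : HeightOneSpectrum (𝓞 M)} (hP : p1 D s ∈ P.asIdeal) : Ur P (-(d * (rs7 D s : M))) ↔ Ur P d := by
  have hP' : p2 D (!s) ∈ P.asIdeal := by
    rw [c2_p2_not]
    exact hP
  have e : -(d * (rs7 D s : M)) = d * (rs7 D (!s) : M) := by
    rw [c2_rs7_not]
    have e2 : ((-(rs7 D s) : 𝓞 M) : M) = -(rs7 D s : M) := map_neg _ _
    rw [e2]
    ring
  rw [e]
  exact sg_ur_dr hD hP'

/-- the local condition at `ϖ`, unramified case -/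
theorem sg_loc_p1u (hD : Od2 D) {P : HeightOneSpectrum (𝓞 M)} (hP : p1 D s ∈ P.asIdeal) (hU : Ur P d)
    {x : M} (hx : x ≠ 0) :
    LocCond (algebraMap M (P.adicCompletion M) d) (algebraMap M (P.adicCompletion M) (rs7 D s : M)) (algebraMap M (P.adicCompletion M) x) ↔
      IsSquare (P.valuation M x) := by
  have hP' : p2 D (!s) ∈ P.asIdeal := by
    rw [c2_p2_not]
    exact hP
  have h2P := c1_mem_two hP'
  constructor
  · intro h
    refine TRX.val_of_locCond' (sg_r2 D s) P (fun h7 => ?_) hU h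
    apply P.isPrime.ne_top
    rw [Ideal.eq_top_iff_one]
    have h3 : (1 : 𝓞 M) = 7 - 3 * 2 := by norm_num
    rw [h3]
    exact Ideal.sub_mem _ h7 (Ideal.mul_mem_left _ _ h2P)
  · intro h
    refine TRX.locCond_w (sg_r2 D s) P ?_ hU hx h
    rw [sg_wB]
    have h3 := c1_val hD hP'
    rw [c2_p2_not] at h3
    rw [h3, ← exp_zero, exp_lt_exp]
    norm_num

theorem sg_dat (D : Dat L M) (s : Bool) : ∃ D' : Dat L M, D'.r = (rs7 D s : M) := by
  rw [c2_rs7_coe]
  cases s
  · exact ⟨Dat.neg D, by rw [if_neg (by decide)]; rfl⟩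
  · exact ⟨D, by rw [if_pos rfl]⟩

end

section
variable {L M : Type} [Field L] [NumberField L] [Field M] [NumberField M] [Algebra L M]
  [IsTotallyReal L] {D : Dat L M} {s : Bool} {d : M} {T : Finset (HeightOneSpectrum (𝓞 M))}
  {z : HeightOneSpectrum (𝓞 M) → 𝓞 M} {ε : (𝓞 L)ˣ} {i j : Bool} (H : DK D s d T z ε i j)
include H

/-- **the decomposition** -/
theorem sg_decomp (hD : Od2 D) {x : M} (hx : x ≠ 0)
    (hev : ∀ P : HeightOneSpectrum (𝓞 M), (2 : 𝓞 M) ∉ P.asIdeal → P ∉ T → IsSquare (P.valuation M x))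
    (hsq : ∀ P : HeightOneSpectrum (𝓞 M), p2 D s ∈ P.asIdeal → IsSquare (algebraMap M (P.adicCompletion M) x)) :
    ∃ (m : Bool) (U : Finset (HeightOneSpectrum (𝓞 M))) (y : M), U ⊆ T ∧ y ≠ 0 ∧ x = (sgx D s z m U : M) * y ^ 2 := by
  obtain ⟨D', hD'⟩ := sg_dat D s
  obtain ⟨U, hUd⟩ : ∃ U : Finset (HeightOneSpectrum (𝓞 M)), U = T.filter (fun P => ¬ IsSquare (P.valuation M x)) := ⟨_, rfl⟩
  have hU : U ⊆ T := by
    rw [hUd]
    exact Finset.filter_subset _ _
  obtain ⟨m, hm⟩ : ∃ m : Bool, m = decide (∃ P : HeightOneSpectrum (𝓞 M), p1 D s ∈ P.asIdeal ∧ ¬ IsSquare (P.valuation M x)) := ⟨_, rfl⟩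
  have hwb : ∀ P : HeightOneSpectrum (𝓞 M), P.valuation M (wbB (rs7 D s : M)) < 1 → p2 D s ∈ P.asIdeal := by
    intro P hb
    rw [sg_wbB] at hb
    rw [← P.valuation_lt_one_iff_mem (K := M)]
    exact hb
  have hv : ∀ P : HeightOneSpectrum (𝓞 M), IsSquare (P.valuation M x) ↔ IsSquare (P.valuation M (sgx D s z m U : M)) := by
    intro P
    by_cases h2 : (2 : 𝓞 M) ∈ P.asIdeal
    · rcases c1_or hD s h2 with hP | hP
      · have h3 : P ∉ U := fun h => H.two P (hU h) h2
        rw [(sgx_val H hU m (c1_p1_not hP) h3).2]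
        exact ⟨fun _ => ⟨1, (one_mul 1).symm⟩, fun _ => s5_val (hsq P hP)⟩
      · have hP1 : p1 D s ∈ P.asIdeal := by
          rw [c2_p2_not] at hP
          exact hP
        rw [sgx_p1 H hD hU m hP1]
        by_cases hPx : IsSquare (P.valuation M x)
        · have hm' : m = false := by
            rw [hm, decide_eq_false_iff_not]
            rintro ⟨Q, hQ, hQx⟩
            have hQP : Q = P := by
              have hQ' : p2 D (!s) ∈ Q.asIdeal := by
                rw [c2_p2_not]
                exact hQ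
              exact HeightOneSpectrum.ext ((c1_ideal hD hQ').trans (c1_ideal hD hP).symm)
            rw [hQP] at hQx
            exact hQx hPx
          rw [hm', if_neg (by decide)]
          exact ⟨fun _ => ⟨1, (one_mul 1).symm⟩, fun _ => hPx⟩
        · have hm' : m = true := by
            rw [hm, decide_eq_true_iff]
            exact ⟨P, hP1, hPx⟩
          rw [hm', if_pos rfl]
          exact ⟨fun h => absurd h hPx, fun h => absurd h hr_par_exp⟩
    · have hp1 : p1 D s ∉ P.asIdeal := fun h => h2 (by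
        rw [← x_mul D s]
        exact Ideal.mul_mem_right _ _ h)
      by_cases hPU : P ∈ U
      · have h3 := sgx_odd H hU m hPU
        have h4 : ¬ IsSquare (P.valuation M x) := by
          rw [hUd] at hPU
          exact (Finset.mem_filter.1 hPU).2
        exact ⟨fun h => absurd h h4, fun h => absurd h h3⟩
      · rw [(sgx_val H hU m hp1 hPU).2]
        refine ⟨fun _ => ⟨1, (one_mul 1).symm⟩, fun _ => ?_⟩
        by_cases hPT : P ∈ T
        · by_contra hcon
          apply hPU
          rw [hUd]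
          exact Finset.mem_filter.2 ⟨hPT, hcon⟩
        · exact hev P h2 hPT
  have hz' : WBc D'.r x := by
    intro P hb
    rw [hD'] at hb
    have hP := hwb P hb
    exact s4_wb_ur (sg_r2 D s) hb (se4_ur P (c1_mem_two hP) hx (hsq P hP))
  have hw' : WBc D'.r (sgx D s z m U : M) := by
    intro P hb
    rw [hD'] at hb
    have hP := hwb P hb
    exact s4_wb_ur (sg_r2 D s) hb (sg_et_ur hD hP (sgx_et H hD hU m))
  obtain ⟨y, hy, hxy⟩ := s4_split (D := D') hx (sgx_ne H hU m) hv hz' hw'
  exact ⟨m, U, y, hU, hy, hxy⟩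

end

end TRZ
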