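import Pool.Agent.TRZ.FD7
import Pool.Agent.TRPD.D5

/-! # [ALL2-FD8] finiteness of `Ш` of the curves of the family in terms of the matrices of the density theorem -/

set_option autoImplicit false

open NumberField Ideal IsDedekindDomain
open scoped Real Classical ComplexConjugate
open TR TRG TTS TU TT TRP

namespace TRPA

variable {P G : Type} [AddCommGroup G]

/-- the sets with nonsingular matrix -/
def DSys.NS (B : DSys P G) (κ μ μ' : G →+ ZMod 2) (S : Finset P) : Prop := (B.mt κ μ μ' S).det ≠ 0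

theorem GW_iff (B : DSys P G) (κ μ μ' : G →+ ZMod 2) (c₀ : G) (S : Finset P) :
    B.GW κ μ μ' c₀ S ↔ B.cs S = c₀ ∧ B.NS κ μ μ' S := Iff.rfl

theorem NS_map (B : DSys P G) (κ μ μ' : G →+ ZMod 2) (T : Finset P) {K : Type} [DecidableEq K] (φ : P ↪ K)
    {a : K → K → ZMod 2} {b u v : K → ZMod 2} (ha : ∀ x y, a (φ x) (φ y) = B.w x y) (hb : ∀ x, b (φ x) = κ (B.c x))
    (hu : ∀ x, u (φ x) = μ (B.c x)) (hv : ∀ x, v (φ x) = μ' (B.c x)) :
    (Pool.Agent.TRG.lap a b (T.map φ) + Matrix.vecMulVec (fun P : (T.map φ : Finset K) => u P)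
      (fun P : (T.map φ : Finset K) => v P)).det ≠ 0 ↔ B.NS κ μ μ' T := by
  let e : T ≃ (T.map φ : Finset K) := Equiv.ofBijective
    (fun x : T => (⟨φ x.1, Finset.mem_map_of_mem φ x.2⟩ : (T.map φ : Finset K))) (by
      constructor
      · intro x y h
        exact Subtype.ext (φ.injective (congrArg Subtype.val h))
      · rintro ⟨y, hy⟩
        obtain ⟨x, hx, h⟩ := Finset.mem_map.1 hy
        exact ⟨⟨x, hx⟩, Subtype.ext h⟩)
  have he : ∀ x : T, ((e x : (T.map φ : Finset K)) : K) = φ x := fun x => rfl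
  unfold DSys.NS DSys.mt
  rw [← Matrix.det_submatrix_equiv_self e]
  have h : (Pool.Agent.TRG.lap a b (T.map φ) + Matrix.vecMulVec (fun P : (T.map φ : Finset K) => u P)
      (fun P : (T.map φ : Finset K) => v P)).submatrix e e =
      Pool.Agent.TRG.lapW B.w (fun v => κ (B.c v)) (fun u v => μ (B.c u) * μ' (B.c v)) T := by
    ext x y
    rw [Matrix.submatrix_apply, Matrix.add_apply, Matrix.vecMulVec_apply]
    unfold Pool.Agent.TRG.lap Pool.Agent.TRG.lapW
    rw [he, he, hu, hv]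
    congr 1
    by_cases h : x = y
    · subst h
      rw [if_pos rfl, if_pos rfl, ← Finset.map_erase, Finset.sum_map, hb, Finset.sum_congr rfl fun R _ => ha _ _]
    · rw [if_neg h, if_neg fun h1 => h (e.injective h1), ha]
  rw [h]

end TRPA

namespace TRZ

section
variable {L M : Type} [Field L] [NumberField L] [Field M] [NumberField M] [Algebra L M]
  [IsTotallyReal L] {D : Dat L M} (hD : Od2 D)

/-- the primes of `T` -/
abbrev mp (T : Finset (OP M)) : Finset (HeightOneSpectrum (𝓞 M)) := T.map ⟨Subtype.val, Subtype.val_injective⟩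

variable {z : HeightOneSpectrum (𝓞 M) → 𝓞 M} (hz : ∀ P, (2 : 𝓞 M) ∉ P.asIdeal → NG D true P (z P))

include hz in
/-- the decomposition of `dl f T` -/
theorem dl_DK (f : FI M) (T : Finset (OP M)) : ∃ ε : (𝓞 L)ˣ,
    algebraMap (𝓞 L) (𝓞 M) (ε : 𝓞 L) = ((Quotient.out f.1 : (𝓞 M)ˣ) : 𝓞 M) ∧
      DK D true (dl D true z f T) (mp T) z ε f.2.1 f.2.2 := by
  obtain ⟨ε, hε⟩ := D.unit_real (Quotient.out f.1 : (𝓞 M)ˣ)
  refine ⟨ε, hε.symm, ?_, ?_, 1, one_ne_zero, ?_⟩
  · intro P hP
    obtain ⟨v, -, rfl⟩ := Finset.mem_map.1 hP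
    exact v.2
  · intro P hP
    obtain ⟨v, -, rfl⟩ := Finset.mem_map.1 hP
    exact hz v.1 v.2
  · rw [bl_rs7_true, bl_rr_r, dl_r, one_pow, mul_one, ← hε]
    unfold dx kq
    rw [Finset.prod_map]
    congr 1
    rw [← mul_assoc]
    rfl

variable (B : TRPA.DSys (OP M) (G8 D true)) (hw : B.w = fun u v => aM z u.1 v.1)
  (hc : B.c = fun v => c8 D true (z v.1))

include hD hz hw hc in
theorem sm_mt (f : FI M) (T : Finset (OP M)) {ε : (𝓞 L)ˣ}
    (hε : algebraMap (𝓞 L) (𝓞 M) (ε : 𝓞 L) = ((Quotient.out f.1 : (𝓞 M)ˣ) : 𝓞 M)) :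
    (sm D true (mp T) z ε f.2.1 f.2.2).det ≠ 0 ↔
      B.NS (chi D true (kq D true f)) (chi D true (-p1 D true)) (chi D true (-p2 D true)) T := by
  unfold sm
  apply TRPA.NS_map B _ _ _ T
  · intro u v
    rw [hw]
    rfl
  · intro v
    rw [hc]
    have h1 := chi_NG (K8.wk hD true f) v.2 (hz v.1 v.2)
    have e : algebraMap (𝓞 L) (𝓞 M) (ε : 𝓞 L) * (if f.2.1 then -(p1 D true) else 1) *
        (if f.2.2 then -(p2 D true) else 1) = kq D true f := by
      unfold kq
      rw [hε, mul_assoc]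
    rw [e]
    exact h1.symm
  · intro v
    rw [hc]
    exact (chi_NG (K8.w1 hD true) v.2 (hz v.1 v.2)).symm
  · intro v
    rw [hc]
    beta_reduce
    rw [chi_NG (K8.w2 hD true) v.2 (hz v.1 v.2)]
    exact (nu_eq hD (s := false) v.2 (hz v.1 v.2)).symm

include hD hz hw hc in
/-- **the criterion** -/
theorem sha_iff (f : FI M) (T : Finset (OP M)) (hN : ∀ t, Nsq D t (dl D true z f T))
    (C : WeierstrassCurve.VariableChange M) :
    TRB.FiniteSha (C • TTS.Ws (dl D true z f T)) ↔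
      B.NS (chi D true (kq D true f)) (chi D true (-p1 D true)) (chi D true (-p2 D true)) T := by
  have hd := dl_ne hD hz f T
  obtain ⟨ε, hε, H⟩ := dl_DK hz f T
  obtain ⟨T', z', ε', i', j', H', -⟩ := exists_DK hD hd false
  obtain ⟨hT, hi, hj, -⟩ := DK.other hD H H'
  subst hT
  subst hi
  subst hj
  have h1 := sel_lap hD H (hN true) (hN false)
  have h2 := sel_lap hD H' (hN false) (hN true)
  have h3 := sm_other hD hd H H'
  rw [finiteSha_iff hD hd hN C, ← sm_mt hD hz B hw hc f T hε]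
  constructor
  · intro h
    exact h1.1 (h true)
  · intro h s
    cases s
    · rw [h2]
      change (sm D (!true) (mp T) z' ε' f.2.2 f.2.1).det ≠ 0
      rw [h3, Matrix.det_transpose]
      exact h
    · exact h1.2 h

end

end TRZ
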