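import Pool.Agent.TRZ.C2
import Pool.Agent.TRP.AD1
import Pool.Agent.TRZ.CB2
import Pool.Agent.TRZ.T1

/-! # [ALL2-R6a] the decomposition of `d √-7`: existence, uniqueness -/

set_option autoImplicit false
set_option linter.unusedSectionVars false

open NumberField Ideal IsDedekindDomain
open scoped Real Classical ComplexConjugate
open TR TRG TRP TTS TU TT

namespace TRZ

section
variable {L M : Type} [Field L] [NumberField L] [Field M] [NumberField M] [Algebra L M]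
  [IsTotallyReal L] {D : Dat L M}

theorem r6_cm (x y : 𝓞 M) : ((x * y : 𝓞 M) : M) = (x : M) * (y : M) := map_mul (algebraMap (𝓞 M) M) _ _

theorem r6_mul {P : HeightOneSpectrum (𝓞 M)} {x y : M} (hx : x ≠ 0) (hy : y ≠ 0) :
    IsSquare (P.valuation M (x * y)) ↔ (IsSquare (P.valuation M x) ↔ IsSquare (P.valuation M y)) := by
  rw [map_mul]
  exact ad1_sq_mul ((Valuation.ne_zero_iff _).2 hx) ((Valuation.ne_zero_iff _).2 hy)

theorem r6_one (P : HeightOneSpectrum (𝓞 M)) : IsSquare (P.valuation M ((1 : 𝓞 M) : M)) := by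
  rw [show ((1 : 𝓞 M) : M) = 1 from map_one (algebraMap (𝓞 M) M), map_one]
  exact ⟨1, (mul_one _).symm⟩

include D in
/-- a number with even valuations is a unit of `L` times a square -/
theorem r6_unit {e : M} (he : e ≠ 0) (h : ∀ P : HeightOneSpectrum (𝓞 M), IsSquare (P.valuation M e)) :
    ∃ (ε : (𝓞 L)ˣ) (y : M), y ≠ 0 ∧ e = ((algebraMap (𝓞 L) (𝓞 M) (ε : 𝓞 L) : 𝓞 M) : M) * y ^ 2 := by
  obtain ⟨y, δ, S, hy, hdy, hS⟩ := x0_step D.hodd he
  have hSe : S = ∅ := by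
    rw [Finset.eq_empty_iff_forall_notMem]
    intro P hP
    obtain ⟨h2, h3⟩ := n2_exact hS P hP
    apply n2_not_sq D.hodd P h2 h3
    have h4 := h P
    rw [hdy, map_mul, map_pow] at h4
    have hy0 : P.valuation M y ≠ 0 := (Valuation.ne_zero_iff _).2 hy
    obtain ⟨w, hw⟩ := h4
    refine ⟨w / P.valuation M y, ?_⟩
    rw [div_mul_div_comm, ← hw, sq, mul_div_cancel_left₀ _ (mul_ne_zero hy0 hy0)]
  rw [hSe, Finset.prod_empty, Ideal.one_eq_top] at hS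
  have hδu : IsUnit δ := Ideal.span_singleton_eq_top.1 hS
  obtain ⟨w, hw⟩ := D.unit_real hδu.unit
  have hw' : δ = algebraMap (𝓞 L) (𝓞 M) (w : 𝓞 L) := hw
  exact ⟨w, y, hy, by rw [← hw', hdy, mul_comm]⟩

theorem r6_prod {T : Finset (HeightOneSpectrum (𝓞 M))} {z : HeightOneSpectrum (𝓞 M) → 𝓞 M} {s : Bool}
    (hz : ∀ P ∈ T, NG D s P (z P)) (P : HeightOneSpectrum (𝓞 M)) :
    (∏ Q ∈ T, z Q ≠ 0) ∧ (IsSquare (P.valuation M ((∏ Q ∈ T, z Q : 𝓞 M) : M)) ↔ P ∉ T) := by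
  induction T using Finset.induction_on with
  | empty =>
    rw [Finset.prod_empty]
    exact ⟨one_ne_zero, iff_of_true (r6_one P) (Finset.notMem_empty P)⟩
  | insert Q U hQ ih =>
    obtain ⟨h0, h1⟩ := ih fun R hR => hz R (Finset.mem_insert_of_mem hR)
    obtain ⟨k, hk, hg⟩ := (hz Q (Finset.mem_insert_self _ _)).gen
    have hz0 : z Q ≠ 0 := by
      intro h
      rw [h, Ideal.span_singleton_eq_bot.2 rfl] at hg
      exact pow_ne_zero k Q.ne_bot hg.symm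
    rw [Finset.prod_insert hQ, r6_cm]
    refine ⟨mul_ne_zero hz0 h0, ?_⟩
    rw [r6_mul (RingOfIntegers.coe_ne_zero_iff.2 hz0) (RingOfIntegers.coe_ne_zero_iff.2 h0), h1, ad1_val hk hg, Finset.mem_insert]
    constructor
    · rintro h (h2 | h2)
      · subst h2
        exact (h.2 hQ) rfl
      · refine (h.1 ?_) h2
        rintro rfl
        exact hQ h2
    · intro h
      rw [not_or] at h
      exact iff_of_true h.1 h.2

theorem r6_p1_ne (s : Bool) : p1 D s ≠ 0 := by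
  intro h
  have h1 := p12 D s
  rw [h, zero_mul] at h1
  exact two_ne_zero h1.symm

theorem r6_if_ne (b t : Bool) : ((if b then -(p1 D t) else 1 : 𝓞 M) : M) ≠ 0 := by
  rw [RingOfIntegers.coe_ne_zero_iff]
  split_ifs
  · exact neg_ne_zero.2 (r6_p1_ne t)
  · exact one_ne_zero

variable (hD : Od2 D)
include hD

theorem r6_vp1 (s : Bool) (P : HeightOneSpectrum (𝓞 M)) :
    IsSquare (P.valuation M ((-p1 D s : 𝓞 M) : M)) ↔ P ≠ Vp hD s := by
  refine ad1_val (k := 1) odd_one ?_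
  rw [pow_one, Ideal.span_singleton_neg]
  rfl

theorem r6_if (b t : Bool) (P : HeightOneSpectrum (𝓞 M)) :
    IsSquare (P.valuation M ((if b then -(p1 D t) else 1 : 𝓞 M) : M)) ↔ (b = true → P ≠ Vp hD t) := by
  by_cases h : b = true
  · rw [if_pos h, r6_vp1 hD]
    exact ⟨fun h1 _ => h1, fun h1 => h1 h⟩
  · rw [if_neg h]
    exact iff_of_true (r6_one P) fun h1 => absurd h1 h

theorem r6_two {P : HeightOneSpectrum (𝓞 M)} (s : Bool) (h : (2 : 𝓞 M) ∈ P.asIdeal) : P = Vp hD s ∨ P = Vp hD (!s) := by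
  rw [← p12 D s] at h
  have key : ∀ s, p1 D s ∈ P.asIdeal → P = Vp hD s := by
    intro s hs
    apply HeightOneSpectrum.ext
    symm
    refine (Vp hD s).isMaximal.eq_of_le P.isPrime.ne_top ?_
    exact (Ideal.span_singleton_le_iff_mem _).2 hs
  rcases P.isPrime.mem_or_mem h with h1 | h1
  · exact Or.inl (key s h1)
  · exact Or.inr (key (!s) h1)

theorem r6_Vp_ne (s : Bool) : Vp hD s ≠ Vp hD (!s) := by
  intro h
  have h1 : p1 D s ∈ (Vp hD s).asIdeal := Ideal.mem_span_singleton_self _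
  have h2 : p2 D s ∈ (Vp hD s).asIdeal := by
    rw [h]
    exact Ideal.mem_span_singleton_self _
  apply (Vp hD s).isPrime.ne_top
  rw [Ideal.eq_top_iff_one, ← p12_add D s]
  exact add_mem h1 h2

/-- **existence of the decomposition** -/
theorem exists_DK {d : M} (hd : d ≠ 0) (s : Bool) : ∃ (T : Finset (HeightOneSpectrum (𝓞 M))) (z : HeightOneSpectrum (𝓞 M) → 𝓞 M)
    (ε : (𝓞 L)ˣ) (i j : Bool),
    DK D s d T z ε i j ∧ ∀ P, (2 : 𝓞 M) ∉ P.asIdeal → NG D s P (z P) := by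
  have hr := c2_rs7_ne (D := D) s
  obtain ⟨x, δ, S, hx, hdx, hS⟩ := x0_step D.hodd (mul_ne_zero hd hr)
  have hz : ∀ P : HeightOneSpectrum (𝓞 M), ∃ q, (2 : 𝓞 M) ∉ P.asIdeal → NG D s P q := by
    intro P
    by_cases h : (2 : 𝓞 M) ∈ P.asIdeal
    · exact ⟨1, fun h1 => absurd h h1⟩
    · obtain ⟨q, hq⟩ := exists_NG hD s h
      exact ⟨q, fun _ => hq⟩
  choose z hz using hz
  set T := S.filter fun P => (2 : 𝓞 M) ∉ P.asIdeal with hT
  have hT2 : ∀ P ∈ T, (2 : 𝓞 M) ∉ P.asIdeal := fun P hP => (Finset.mem_filter.1 hP).2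
  set i : Bool := decide (Vp hD s ∈ S) with hi
  set j : Bool := decide (Vp hD (!s) ∈ S) with hj
  have hδ0 : (δ : M) ≠ 0 := by
    intro h
    rw [h, mul_zero] at hdx
    exact mul_ne_zero hd hr hdx
  have hv : ∀ P : HeightOneSpectrum (𝓞 M), IsSquare (P.valuation M (δ : M)) ↔ P ∉ S := by
    intro P
    constructor
    · intro h hP
      obtain ⟨h2, h3⟩ := n2_exact hS P hP
      exact n2_not_sq D.hodd P h2 h3 h
    · intro h
      have h1 : δ ∉ P.asIdeal := fun h2 => h (x0_mem hS h2)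
      rw [(P.valuation_eq_one_iff_notMem (K := M)).2 h1]
      exact ⟨1, (mul_one _).symm⟩
  set N : 𝓞 M := (if i then -(p1 D s) else 1) * (if j then -(p2 D s) else 1) * ∏ P ∈ T, z P with hN
  have hNM : (N : M) = ((if i then -(p1 D s) else 1 : 𝓞 M) : M) * ((if j then -(p2 D s) else 1 : 𝓞 M) : M) *
      ((∏ P ∈ T, z P : 𝓞 M) : M) := by
    rw [hN, r6_cm, r6_cm]
  have h1 : ((if i then -(p1 D s) else 1 : 𝓞 M) : M) ≠ 0 := r6_if_ne i s
  have h2 : ((if j then -(p2 D s) else 1 : 𝓞 M) : M) ≠ 0 := r6_if_ne (D := D) j (!s)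
  have h3 : ((∏ P ∈ T, z P : 𝓞 M) : M) ≠ 0 :=
    RingOfIntegers.coe_ne_zero_iff.2 (r6_prod (fun P hP => hz P (hT2 P hP)) (Vp hD s)).1
  have hN0 : (N : M) ≠ 0 := by
    rw [hNM]
    exact mul_ne_zero (mul_ne_zero h1 h2) h3
  have hvN : ∀ P : HeightOneSpectrum (𝓞 M), IsSquare (P.valuation M (N : M)) ↔ P ∉ S := by
    intro P
    rw [hNM, r6_mul (mul_ne_zero h1 h2) h3, r6_mul h1 h2, (r6_prod (fun P hP => hz P (hT2 P hP)) P).2, r6_if hD,
      show IsSquare (P.valuation M ((if j then -p2 D s else 1 : 𝓞 M) : M)) ↔ _ from r6_if hD j (!s) P]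
    have hne := r6_Vp_ne hD s
    by_cases h2P : (2 : 𝓞 M) ∈ P.asIdeal
    · have hPT : P ∉ T := fun h => hT2 P h h2P
      rcases r6_two hD s h2P with h | h
      · subst h
        have hj' : (j = true → Vp hD s ≠ Vp hD (!s)) := fun _ => hne
        have hi' : (i = true → Vp hD s ≠ Vp hD s) ↔ Vp hD s ∉ S := by
          rw [hi, decide_eq_true_eq]
          exact ⟨fun h h1 => h h1 rfl, fun h h1 => absurd h1 h⟩
        rw [hi']
        exact ⟨fun h => (h.2 hPT).2 hj', fun h => iff_of_true (iff_of_true h hj') hPT⟩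
      · subst h
        have hi' : (i = true → Vp hD (!s) ≠ Vp hD s) := fun _ => hne.symm
        have hj' : (j = true → Vp hD (!s) ≠ Vp hD (!s)) ↔ Vp hD (!s) ∉ S := by
          rw [hj, decide_eq_true_eq]
          exact ⟨fun h h1 => h h1 rfl, fun h h1 => absurd h1 h⟩
        rw [hj']
        exact ⟨fun h => (h.2 hPT).1 hi', fun h => iff_of_true (iff_of_true hi' h) hPT⟩
    · have hi' : (i = true → P ≠ Vp hD s) := fun _ h => h2P (by rw [h]; exact Vp_two hD s)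
      have hj' : (j = true → P ≠ Vp hD (!s)) := fun _ h => h2P (by rw [h]; exact Vp_two hD (!s))
      have hPT : P ∉ T ↔ P ∉ S := by
        rw [hT, Finset.mem_filter]
        exact ⟨fun h h1 => h ⟨h1, h2P⟩, fun h h1 => h h1.1⟩
      rw [← hPT]
      exact ⟨fun h => h.1 (iff_of_true hi' hj'), fun h => iff_of_true (iff_of_true hi' hj') h⟩
  obtain ⟨ε, y, hy, he⟩ := r6_unit (D := D) (mul_ne_zero hδ0 hN0) (fun P => by
    rw [r6_mul hδ0 hN0, hv, hvN])
  refine ⟨T, z, ε, i, j, ⟨hT2, fun P hP => hz P (hT2 P hP), x * y / (N : M), div_ne_zero (mul_ne_zero hx hy) hN0, ?_⟩, hz⟩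
  have e1 : ((algebraMap (𝓞 L) (𝓞 M) (ε : 𝓞 L) * (if i then -(p1 D s) else 1) *
    (if j then -(p2 D s) else 1) * ∏ P ∈ T, z P : 𝓞 M) : M) = ((algebraMap (𝓞 L) (𝓞 M) (ε : 𝓞 L) : 𝓞 M) : M) * (N : M) := by
    rw [← r6_cm, hN]
    congr 1
    ring
  have h4 : ((algebraMap (𝓞 L) (𝓞 M) (ε : 𝓞 L) : 𝓞 M) : M) * (N : M) * (x * y / (N : M)) ^ 2 =
      x ^ 2 * (((algebraMap (𝓞 L) (𝓞 M) (ε : 𝓞 L) : 𝓞 M) : M) * y ^ 2) / (N : M) := by
    field_simp
  rw [e1, hdx, h4, ← he, mul_div_assoc, mul_div_cancel_right₀ _ hN0]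

end

section
variable {L M : Type} [Field L] [NumberField L] [Field M] [NumberField M] [Algebra L M]
  [IsTotallyReal L] {D : Dat L M} (hD : Od2 D)
include hD

theorem r6_int {x : 𝓞 M} {y : M} (h : (x : M) = y ^ 2) : ∃ y' : 𝓞 M, (y' : M) = y ∧ x = y' ^ 2 := by
  have h3 : IsIntegral ℤ y := by
    refine IsIntegral.of_pow (n := 2) (by norm_num) ?_
    rw [← h]
    exact RingOfIntegers.isIntegral_coe _
  refine ⟨⟨y, h3⟩, rfl, ?_⟩
  apply RingOfIntegers.coe_injective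
  exact h

/-- the square of an odd element is a square modulo `4` -/
theorem r6_sq {t : Bool} {Y : 𝓞 M} (h : Y ∉ span {p2 D t}) : Q4 (rd8 D t (Y ^ 2)) := by
  have h1 : rd8 D t (Y ^ 2) - rd8 D t Y ^ 2 ∈ span {(8 : 𝓞 L)} := by
    have := rd8_mul hD t Y Y
    rwa [← sq, ← sq] at this
  refine (q4_per_iff h1).2 ⟨rd8 D t Y, 0, ?_, by ring⟩
  apply x0_cop
  intro v hv h2
  apply h
  rw [← rd8_even hD]
  have h3 : span {(2 : 𝓞 L)} = v.asIdeal := by
    have h4 : span {(2 : 𝓞 L)} ≠ ⊥ := by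
      rw [Ne, Ideal.span_singleton_eq_bot]
      exact two_ne_zero
    exact (hD.two.isMaximal h4).eq_of_le v.isPrime.ne_top ((Ideal.span_singleton_le_iff_mem _).2 hv)
  rw [h3]
  exact h2

/-- the relation between the two decompositions -/
theorem DK.other_q4 {s t : Bool} (hst : t = !s) {d : M} {T : Finset (HeightOneSpectrum (𝓞 M))} {z : HeightOneSpectrum (𝓞 M) → 𝓞 M} {ε : (𝓞 L)ˣ} {i j : Bool}
    (H : DK D s d T z ε i j)
    {z' : HeightOneSpectrum (𝓞 M) → 𝓞 M} {T' : Finset (HeightOneSpectrum (𝓞 M))} {ε' : (𝓞 L)ˣ} {i' j' : Bool} (H' : DK D t d T' z' ε' i' j')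
    (hi : j' = i) (hj : i' = j) :
    Q4 ((ε' : 𝓞 L) * cd D s T z ε) := by
  subst hst hi hj
  obtain ⟨y, hy, h1⟩ := H.eq
  obtain ⟨y', hy', h2⟩ := H'.eq
  rw [c2_p2_not, show p1 D (!s) = p2 D s from rfl] at h2
  have hA := r6_if_ne (D := D) j' s
  have hB : ((if i' then -(p2 D s) else 1 : 𝓞 M) : M) ≠ 0 := r6_if_ne (D := D) i' (!s)
  have h3 : (rs7 D (!s) : M) = -(rs7 D s : M) := by
    rw [c2_rs7_not]
    exact map_neg _ _
  rw [h3, mul_neg] at h2
  rw [r6_cm, r6_cm, r6_cm] at h1 h2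
  set A : M := ((if j' then -(p1 D s) else 1 : 𝓞 M) : M) with hAd
  set B : M := ((if i' then -(p2 D s) else 1 : 𝓞 M) : M) with hBd
  set X : 𝓞 M := (-(algebraMap (𝓞 L) (𝓞 M) (ε : 𝓞 L)) * ∏ P ∈ T, z P) * algebraMap (𝓞 L) (𝓞 M) (ε' : 𝓞 L) * ∏ P ∈ T', z' P with hX
  have hXM : (X : M) = ((((algebraMap (𝓞 L) (𝓞 M) (ε' : 𝓞 L) : 𝓞 M) : M) * ((∏ P ∈ T', z' P : 𝓞 M) : M)) * y' / y) ^ 2 := by
    have e1 : (X : M) = -((algebraMap (𝓞 L) (𝓞 M) (ε : 𝓞 L) : 𝓞 M) : M) * ((∏ P ∈ T, z P : 𝓞 M) : M) *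
        ((algebraMap (𝓞 L) (𝓞 M) (ε' : 𝓞 L) : 𝓞 M) : M) * ((∏ P ∈ T', z' P : 𝓞 M) : M) := by
      rw [hX, r6_cm, r6_cm, r6_cm]
      have e0 : ((-(algebraMap (𝓞 L) (𝓞 M) (ε : 𝓞 L)) : 𝓞 M) : M) = -((algebraMap (𝓞 L) (𝓞 M) (ε : 𝓞 L) : 𝓞 M) : M) := map_neg _ _
      rw [e0]
    rw [e1]
    field_simp
    have e2 : A * B ≠ 0 := mul_ne_zero hA hB
    apply mul_left_cancel₀ e2
    linear_combination ((∏ P ∈ T', z' P : 𝓞 M) : M) * (h1 + h2)
  obtain ⟨Y, -, hY⟩ := r6_int hD hXM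
  have hV2 := Vp_two hD s
  have hVs : (Vp hD s).asIdeal = span {p2 D (!s)} := by
    rw [c2_p2_not]
    rfl
  have hXn : X ∉ (Vp hD s).asIdeal := by
    intro hm
    rcases (Vp hD s).isPrime.mem_or_mem hm with hm | hm
    · rcases (Vp hD s).isPrime.mem_or_mem hm with hm | hm
      · rcases (Vp hD s).isPrime.mem_or_mem hm with hm | hm
        · rw [neg_mem_iff] at hm
          exact c2_unit_not _ ε hm
        · exact H.prod_not (H.two_not hV2) hm
      · exact c2_unit_not _ ε' hm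
    · exact H'.prod_not (H'.two_not hV2) hm
  have hYn : Y ∉ span {p2 D (!s)} := by
    intro hm
    apply hXn
    rw [hY, hVs, sq]
    exact Ideal.mul_mem_left _ _ hm
  have h4 := r6_sq hD hYn
  rw [← hY, hX, c2_q4_mul hD (H'.q4_prod hD)] at h4
  have h5 := (q4_per_iff (rd8_mul hD (!s) _ _)).1 h4
  have h6 : rd8 D (!s) (-(algebraMap (𝓞 L) (𝓞 M) (ε : 𝓞 L)) * ∏ P ∈ T, z P) * rd8 D (!s) (algebraMap (𝓞 L) (𝓞 M) (ε' : 𝓞 L)) -
      (ε' : 𝓞 L) * cd D s T z ε ∈ span {(8 : 𝓞 L)} := by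
    have e1 : rd8 D (!s) (-(algebraMap (𝓞 L) (𝓞 M) (ε : 𝓞 L)) * ∏ P ∈ T, z P) * rd8 D (!s) (algebraMap (𝓞 L) (𝓞 M) (ε' : 𝓞 L)) -
      (ε' : 𝓞 L) * cd D s T z ε = cd D s T z ε * (rd8 D (!s) (algebraMap (𝓞 L) (𝓞 M) (ε' : 𝓞 L)) - ε') := by
      unfold cd
      ring
    rw [e1]
    exact Ideal.mul_mem_left _ _ (rd8_alg hD (!s) _)
  exact (q4_per_iff h6).1 h5

/-- valuations above `2` -/
theorem r6_bool {P : HeightOneSpectrum (𝓞 M)} {d : M} {b b' : Bool}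
    (h : ∃ y : M, y ≠ 0 ∧ P.valuation M d = (if b then WithZero.exp (-1 : ℤ) else 1) * P.valuation M y ^ 2)
    (h' : ∃ y : M, y ≠ 0 ∧ P.valuation M d = (if b' then WithZero.exp (-1 : ℤ) else 1) * P.valuation M y ^ 2) : b = b' := by
  have key : ∀ {b : Bool}, (∃ y : M, y ≠ 0 ∧ P.valuation M d = (if b then WithZero.exp (-1 : ℤ) else 1) * P.valuation M y ^ 2) →
      (IsSquare (P.valuation M d) ↔ b = false) := by
    rintro b ⟨y, hy, h⟩
    rw [h, c2_mul_sq ((P.valuation M).ne_zero_iff.2 hy)]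
    cases b
    · simp only [Bool.false_eq_true, if_false, iff_true]
      exact ⟨1, (mul_one _).symm⟩
    · simp only [if_true]
      rw [c2_exp_sq]
      decide
  have h1 := key h
  have h2 := key h'
  rw [h1] at h2
  cases b <;> cases b' <;> simp_all

/-- **the other decomposition** -/
theorem DK.other {s : Bool} {d : M} {T : Finset (HeightOneSpectrum (𝓞 M))} {z : HeightOneSpectrum (𝓞 M) → 𝓞 M} {ε : (𝓞 L)ˣ} {i j : Bool}
    (H : DK D s d T z ε i j) {z' : HeightOneSpectrum (𝓞 M) → 𝓞 M} {T' : Finset (HeightOneSpectrum (𝓞 M))} {ε' : (𝓞 L)ˣ} {i' j' : Bool} (H' : DK D (!s) d T' z' ε' i' j') :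
    T' = T ∧ i' = j ∧ j' = i ∧ (Rm (ε' : 𝓞 L) j' ↔ Rm (cd D s T z ε) i) ∧ (Rm (ε : 𝓞 L) j ↔ Rm (cd D (!s) T' z' ε') i') ∧
      Q4 ((ε' : 𝓞 L) * cd D s T z ε) ∧ Q4 ((ε : 𝓞 L) * cd D (!s) T' z' ε') := by
  have hT : T' = T := by
    ext P
    by_cases h2 : (2 : 𝓞 M) ∈ P.asIdeal
    · exact iff_of_false (fun h => H'.two P h h2) (fun h => H.two P h h2)
    · rw [H.mem_iff h2, H'.mem_iff h2]
  -- `P = (ϖ)`, `Q = (ϖ')`
  have hP : p1 D s ∈ (Vp hD s).asIdeal := Ideal.mem_span_singleton_self _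
  have hP' : p2 D (!s) ∈ (Vp hD s).asIdeal := by
    rw [c2_p2_not]
    exact hP
  have hQ : p2 D s ∈ (Vp hD (!s)).asIdeal := Ideal.mem_span_singleton_self _
  have hQ' : p1 D (!s) ∈ (Vp hD (!s)).asIdeal := hQ
  have hi : j' = i := r6_bool hD (H'.val_p2 hP' hD) (H.val_p1 hP hD)
  have hj : i' = j := r6_bool hD (H'.val_p1 hQ' hD) (H.val_p2 hQ hD)
  refine ⟨hT, hj, hi, ?_, ?_, DK.other_q4 hD rfl H H' hi hj, DK.other_q4 hD (by rw [Bool.not_not]) H' H hj.symm hi.symm⟩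
  · exact not_iff_not.1 ((H'.ur_p2 hP' hD).symm.trans (H.ur_p1 hP hD))
  · exact not_iff_not.1 ((H.ur_p2 hQ hD).symm.trans (H'.ur_p1 hQ' hD))

/-- the casewise invariant is the uniform one (the hypothesis is `DK.nsq'`) -/
theorem r6_GT_eq {s : Bool} {T : Finset (HeightOneSpectrum (𝓞 M))} {z : HeightOneSpectrum (𝓞 M) → 𝓞 M} {ε : (𝓞 L)ˣ} {i j : Bool}
    (h : ¬ Rm (cd D s T z ε) i → (if j then 1 else 0) + ∑ P ∈ T, nu D s P = 1) :
    GT D s T z ε i j = GU D s T z ε i j := by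
  unfold GT GU
  by_cases hR : Rm (cd D s T z ε) i
  · rw [if_pos hR]
  · rw [if_neg hR]
    have h1 := h hR
    have hkp : kp (cd D s T z ε) i = fun _ => 1 := kp_one hD hR
    rw [hkp]
    cases j
    · simp only [Bool.false_eq_true, if_false, zero_add] at h1 ⊢
      have hb : bt (FK D s (fun _ => 1) false) z = fun _ => 0 := by
        funext P
        unfold bt FK te
        simp
      have hT : T ≠ ∅ := by
        rintro rfl
        rw [Finset.sum_empty] at h1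
        exact zero_ne_one h1
      rw [hb, fU_zero, if_neg hT, h1, one_mul, zero_add]
    · simp only [if_true] at h1 ⊢
      have h2 : ∑ P ∈ T, nu D s P = 0 := by
        have h3 := h1
        rwa [add_eq_left] at h3
      have hb : bt (FK D s (fun _ => 1) true) z = nv D s z := by
        funext P
        unfold nv bt FK te
        simp
      rw [hb, fU_self, h2, add_zero, mul_one]

end

end TRZ
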