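import Pool.Agent.TRZ.H2b3
import Pool.Agent.TRX2.CV8

/-! # [ALL2-H2b] the `L`-series of the twist by `d` (all types at the primes above `2`) -/

set_option autoImplicit false
set_option linter.unusedSectionVars false

open NumberField Ideal IsDedekindDomain ArithmeticFunction
open CM27 CMT GE TR TT TK TU TTS TRG TRP
open scoped Real Classical ComplexConjugate

namespace TRZ

section
variable {L M : Type} [Field L] [NumberField L] [Field M] [NumberField M] [Algebra L M]
  [IsTotallyReal L] {D : Dat L M} (hD : Od2 D)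
include hD

section
variable {s : Bool} {d : M} {T : Finset (HeightOneSpectrum (𝓞 M))} {z : HeightOneSpectrum (𝓞 M) → 𝓞 M} {ε : (𝓞 L)ˣ} {i j : Bool}
  (H : DK D s d T z ε i j)
include H

/-- the value at the primes not above `7` -/
theorem DK.h2_at (Ψ : PsiDat D) {Φ : Ideal (𝓞 M) →*₀ ℂ} (hΦ : PhiK D s T (kp (cd D s T z ε) i) (kp (ε : 𝓞 L) j) Φ)
    {P : HeightOneSpectrum (𝓞 M)} (h7 : (7 : 𝓞 M) ∉ P.asIdeal) :
    Φ P.asIdeal = (sg P d : ℂ) * Ψ.psi P.asIdeal := by
  by_cases h2 : (2 : 𝓞 M) ∈ P.asIdeal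
  · rcases h2_cases hD s h2 with hP | hP
    · exact H.h2_at2 hD Ψ hΦ hP
    · obtain ⟨T', z', ε', i', j', H', -⟩ := exists_DK hD H.h2_ne (!s)
      exact H'.h2_at2 hD Ψ (PhiK.other hD H H' hΦ) hP
  · exact H.h2_atodd hD Ψ hΦ h2 h7

/-- the Euler factors -/
theorem DK.h2_euler (Ψ : PsiDat D) {Φ : Ideal (𝓞 M) →*₀ ℂ}
    (hΦ : PhiK D s T (kp (cd D s T z ε) i) (kp (ε : 𝓞 L) j) Φ)
    (C : WeierstrassCurve.VariableChange M) (P : HeightOneSpectrum (𝓞 M)) {p n : ℕ} (hp : p.Prime)
    (hn : 0 < n) (hP : absNorm P.asIdeal = p ^ n) :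
    PowerSeries.map (Int.castRingHom ℂ) (loc p (fW M (C • Wd d) P)) *
      ((1 - PowerSeries.C (Φ P.asIdeal) * PowerSeries.X ^ n) *
        (1 - PowerSeries.C (cPhi Φ P.asIdeal) * PowerSeries.X ^ n)) = 1 := by
  have hmem := u5m_mem P hP
  by_cases hram : (2 : 𝓞 M) ∈ P.asIdeal ∧ ¬ Ur P d
  · obtain ⟨h2, hU⟩ := hram
    have hv2 : (2 : 𝓞 M) ∉ P.asIdeal ^ 2 := by
      rcases h2_cases hD s h2 with hP' | hP' <;> exact h2_two_sq hP'
    have h7 : (7 : 𝓞 M) ∉ P.asIdeal := by
      intro h7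
      apply P.isPrime.ne_top
      rw [Ideal.eq_top_iff_one]
      have h3 : (1 : 𝓞 M) = 7 - 3 * 2 := by norm_num
      rw [h3]
      exact Ideal.sub_mem _ h7 (Ideal.mul_mem_left _ _ h2)
    have e1 : Φ P.asIdeal = (sg P d : ℂ) * Ψ.psi P.asIdeal := H.h2_at hD Ψ hΦ h7
    have h0 : sg P d = 0 := by
      unfold sg
      rw [if_neg hU]
    rw [TRX2.fWd_ram P h2 hv2 H.h2_ne hU C, loc_one hp, cPhi_apply, e1, h0]
    simp
  have hcases : Ur P d ∨ (Od P d ∧ (2 : 𝓞 M) ∉ P.asIdeal) := by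
    by_cases h2 : (2 : 𝓞 M) ∈ P.asIdeal
    · left
      by_contra hU
      exact hram ⟨h2, hU⟩
    · rcases ur_or_od h2 H.h2_ne with h1 | h1
      · exact Or.inl h1
      · exact Or.inr ⟨h1, h2⟩
  by_cases h7 : (7 : 𝓞 M) ∈ P.asIdeal
  · have hR : P.asIdeal = span {D.rr} := (D.above_seven.2.1 P).1 h7
    have h2 := g2_two_R hR
    by_cases hPT : P ∈ T
    · have hur : Ur P d := by
        rw [ur_iff_val h2 H.h2_ne]
        have h1 := (H.mem_iff h2).1 hPT
        rw [g2_sq_mul H.h2_ne g2_r_ne, iff_false_right (g2_R_not_sq hR), not_not] at h1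
        exact h1
      have h3 : Φ P.asIdeal = 0 := hΦ.h2_zero hPT le_rfl
      have h73 : (7 : 𝓞 M) ∉ P.asIdeal ^ 3 := by
        intro h
        have h4 : D.rr * D.rr ∈ P.asIdeal ^ 3 := by
          have h5 := neg_mem h
          rwa [g2_seven D, neg_neg] at h5
        rw [hR, Ideal.span_singleton_pow, Ideal.mem_span_singleton] at h4
        obtain ⟨x, hx⟩ := h4
        have h6 : D.rr * x = 1 := by
          have h8 : D.rr * D.rr * (D.rr * x) = D.rr * D.rr * 1 := by
            linear_combination -hx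
          exact mul_left_cancel₀ (mul_ne_zero (g2_rr_ne D) (g2_rr_ne D)) h8
        apply P.isPrime.ne_top
        rw [hR, Ideal.span_singleton_eq_top]
        exact IsUnit.of_mul_eq_one _ h6
      rw [loc7 P h7 H.h2_ne (Or.inr ⟨h73, hur⟩) C, loc_one hp, cPhi_apply, h3]
      simp
    · -- good reduction
      have hod : Od P d := by
        rcases ur_or_od h2 H.h2_ne with h1 | h1
        · exfalso
          have h3 := (not_congr (H.mem_iff h2)).1 hPT
          rw [not_not, g2_sq_mul H.h2_ne g2_r_ne, iff_true_left h1.val] at h3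
          exact g2_R_not_sq hR h3
        · exact h1
      obtain ⟨x, a, hx, hdx, ha, ha2⟩ := hod
      obtain ⟨e, he⟩ : ∃ e, a = D.rr * e := by
        rw [hR, Ideal.mem_span_singleton] at ha
        exact ha
      have heP : e ∉ P.asIdeal := by
        intro h
        apply ha2
        rw [he, sq]
        exact Ideal.mul_mem_mul (g2_rr_mem hR) h
      obtain ⟨C', hC'⟩ := g2_model D hx e
      have hp7 : p = 7 := by
        have h3 : absNorm P.asIdeal = 7 ^ Module.finrank ℚ L := by rw [hR, D.above_seven.2.2.2]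
        rw [hP] at h3
        have h4 : p ∣ 7 ^ Module.finrank ℚ L := by
          rw [← h3]
          exact dvd_pow_self p hn.ne'
        exact (Nat.prime_dvd_prime_iff_eq hp (by norm_num)).1 (hp.dvd_of_dvd_pow h4)
      have hq4 : p ^ n % 4 = 3 := by
        rw [← hP, hR, D.above_seven.2.2.2]
        obtain ⟨m, hm⟩ := hD.odd
        rw [hm, pow_succ, pow_mul, Nat.mul_mod, Nat.pow_mod]
        norm_num
      have hsum : Φ P.asIdeal + cPhi Φ P.asIdeal = 0 := by
        rw [cPhi_apply, hR, hΦ.span_eq _ (g2_rr_ne D), map_mul, map_intCast, ← add_mul, g2_NK_rr hD.odd, zero_mul]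
      have hprod : Φ P.asIdeal * cPhi Φ P.asIdeal = (p : ℂ) ^ n := by
        have hnle : ∀ s' : Bool, ¬ P.asIdeal ≤ span {p2 D s'} := by
          intro s' hle
          obtain ⟨Q, hQ⟩ := h2_exists hD s'
          rw [← hQ] at hle
          rw [P.isMaximal.eq_of_le Q.isPrime.ne_top hle] at h2
          exact h2 (h2_two hQ)
        have h3 := hΦ.norm_eq P.asIdeal P.ne_bot (fun Q hQ hle => hPT (by
          rw [HeightOneSpectrum.ext (P.isMaximal.eq_of_le Q.isPrime.ne_top hle)]
          exact hQ)) (Or.inr (by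
            have h4 := hnle (!s)
            rwa [bl_not] at h4)) (Or.inr (hnle s))
        rw [cPhi_apply, Complex.mul_conj, Complex.normSq_eq_norm_sq, h3, hP]
        push_cast
        rfl
      rw [hdx, he, hC', ← mul_smul]
      refine g3_loc_good (WR D e) P hp hn hP ?_ _ _ hprod ?_ _
      · rw [WR_Δ]
        intro h
        rcases P.isPrime.mem_or_mem h with h1 | h1
        · apply h2
          have e1 : (4096 : 𝓞 M) = 2 ^ 12 := by norm_num
          rw [e1] at h1
          exact P.isPrime.mem_of_pow_mem _ h1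
        · exact heP (P.isPrime.mem_of_pow_mem _ h1)
      · intro k _ _ φ hφ hker hcard
        have hrr : φ D.rr = 0 := (hker _).2 (g2_rr_mem hR)
        have h2k : (2 : k) ≠ 0 := by
          intro h
          apply h2
          rw [← hker, map_ofNat]
          exact h
        have hek : φ e ≠ 0 := by
          intro h
          exact heP ((hker _).1 h)
        have hW : (WR D e).map φ = ⟨0, 0, 0, -(16 * φ e ^ 2), 0⟩ := by
          ext
          · exact map_zero _
          · show φ (-(3 * D.rr * e)) = 0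
            rw [map_neg, map_mul, map_mul, hrr, mul_zero, zero_mul, neg_zero]
          · exact map_zero _
          · show φ (-(16 * e ^ 2)) = _
            rw [map_neg, map_mul, map_pow, map_ofNat]
          · exact map_zero _
        have h16 : -(16 * φ e ^ 2) ≠ 0 := by
          rw [neg_ne_zero]
          refine mul_ne_zero ?_ (pow_ne_zero _ hek)
          have e1 : (16 : k) = 2 ^ 4 := by norm_num
          rw [e1]
          exact pow_ne_zero _ h2k
        rw [hW, g2_card k (by rw [hcard, hq4]) _ h16, hcard, hsum]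
        push_cast
        ring
  have hp7 : p ≠ 7 := by
    rintro rfl
    exact h7 (by exact_mod_cast hmem)
  have e1 : Φ P.asIdeal = (sg P d : ℂ) * Ψ.psi P.asIdeal := H.h2_at hD Ψ hΦ h7
  have e2 : cPhi Φ P.asIdeal = (sg P d : ℂ) * conj (Ψ.psi P.asIdeal) := by
    rw [cPhi_apply, e1, map_mul, map_intCast]
  rw [e1, e2]
  rcases u5m_c7_cases hp hp7 with hc | hc
  · obtain ⟨α, hα, hα7, hpts⟩ := point_count_split hp hc
    have hαβ : toC α * conj (toC α) = p := by
      rw [← u5m_norm_toC, hα]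
      simp
    have hw : Wl p (toC α) (conj (toC α)) := ⟨hαβ, fun m hm k _ _ hk => hpts m hm k hk⟩
    have h1 := loc_Wd P hp hn hP h7 hcases hw C
    rcases Ψ.split_eq P p n hp hP hc α hα hα7 with h2 | h2
    · rw [h2, map_pow (starRingEnd ℂ)]
      exact h1
    · rw [h2, map_pow (starRingEnd ℂ), Complex.conj_conj,
        mul_comm (1 - PowerSeries.C ((sg P d : ℂ) * (starRingEnd ℂ) (toC α) ^ n) * PowerSeries.X ^ n)]
      exact h1
  · obtain ⟨f, rfl⟩ := u5m_even D P hp hP hp7 hc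
    have h2 := Ψ.inert_eq P p f hp hP hc
    obtain ⟨α, hα⟩ : ∃ α : ℂ, α = Complex.I * (√(p : ℝ) : ℝ) := ⟨_, rfl⟩
    have hs : ((√(p : ℝ) : ℝ) : ℂ) ^ 2 = p := by
      rw [← Complex.ofReal_pow, Real.sq_sqrt (Nat.cast_nonneg p)]
      simp
    have hα2 : α ^ 2 = -(p : ℂ) := by
      rw [hα, mul_pow, hs, Complex.I_sq]
      ring
    have hβ2 : (-α) ^ 2 = -(p : ℂ) := by
      rw [neg_sq, hα2]
    have hαβ : α * (-α) = p := by
      linear_combination -hα2
    have hw : Wl p α (-α) := by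
      refine ⟨hαβ, ?_⟩
      intro m hm K _ _ hK
      have h := point_count_inert hp hc m hm K hK
      rcases Nat.even_or_odd m with hev | hodd
      · rw [if_pos hev] at h
        obtain ⟨k', hk⟩ := hev
        have hk2 : m = 2 * k' := by omega
        have hαf : α ^ m = (-(p : ℂ)) ^ k' := by rw [hk2, pow_mul, hα2]
        have hβf : (-α) ^ m = (-(p : ℂ)) ^ k' := by rw [hk2, pow_mul, hβ2]
        have h' : ((Nat.card (TR.E K).toAffine.Point : ℤ) : ℂ) = _ := congrArg (Int.cast : ℤ → ℂ) h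
        rw [Int.cast_natCast] at h'
        rw [h', hαf, hβf]
        push_cast
        have : m / 2 = k' := by omega
        rw [this]
        ring
      · rw [if_neg (Nat.not_even_iff_odd.2 hodd)] at h
        have hsum : α ^ m + (-α) ^ m = 0 := by rw [hodd.neg_pow, add_neg_cancel]
        have h' : ((Nat.card (TR.E K).toAffine.Point : ℤ) : ℂ) = _ := congrArg (Int.cast : ℤ → ℂ) h
        rw [Int.cast_natCast] at h'
        rw [h', hsum]
        push_cast
        ring
    have h1 := loc_Wd P hp hn hP h7 hcases hw C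
    rw [pow_mul α, pow_mul (-α), hα2, hβ2] at h1
    rw [h2, map_pow (starRingEnd ℂ), map_neg (starRingEnd ℂ), Complex.conj_natCast]
    exact h1

/-- the Dirichlet series over `M` -/
theorem DK.h2_LCW (Ψ : PsiDat D) {Φ : Ideal (𝓞 M) →*₀ ℂ}
    (hΦ : PhiK D s T (kp (cd D s T z ε) i) (kp (ε : 𝓞 L) j) Φ) (C : WeierstrassCurve.VariableChange M) :
    LCW M (C • Wd d) = idA M Φ * idA M (cPhi Φ) := by
  rw [ArithmeticFunction.IsMultiplicative.eq_iff_eq_on_prime_powers _
    (isMultiplicative_LCW M (C • Wd d)) _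
    ((isMultiplicative_idA M Φ).mul (isMultiplicative_idA M (cPhi Φ)))]
  intro p i hp
  rw [← coeff_loc, ← coeff_loc]
  congr 1
  rw [loc_LCW, loc_LFunctionW M (C • Wd d) hp (u6_S M hp) (fun v hv => (u6_mem_S M hp v).2 hv),
    map_prod, loc_mul hp]
  have h1 := loc_idA M Φ hp (u6_S M hp) (u6_mem_S M hp) (u6_d p) (u6_d_spec hp)
  have h2 := loc_idA M (cPhi Φ) hp (u6_S M hp) (u6_mem_S M hp) (u6_d p) (u6_d_spec hp)
  refine u6_inv (c := (∏ v ∈ u6_S M hp, (1 - PowerSeries.C (Φ v.asIdeal) * PowerSeries.X ^ u6_d p v)) *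
    ∏ v ∈ u6_S M hp, (1 - PowerSeries.C (cPhi Φ v.asIdeal) * PowerSeries.X ^ u6_d p v)) ?_ ?_
  · rw [← Finset.prod_mul_distrib, ← Finset.prod_mul_distrib]
    apply Finset.prod_eq_one
    intro P hP
    exact H.h2_euler hD Ψ hΦ C P hp (u6_d_pos hp P hP) (u6_d_spec hp P hP)
  · rw [mul_mul_mul_comm, h1, h2, one_mul]


/-- [H2b] **the `L`-series** -/
theorem series_K {Φ : Ideal (𝓞 M) →*₀ ℂ} (hΦ : PhiK D s T (kp (cd D s T z ε) i) (kp (ε : 𝓞 L) j) Φ)
    {Z : ℂ → ℂ} (hZd : Differentiable ℂ Z)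
    (hZ : ∀ t : ℂ, 3 / 2 < t.re → Z t = ∑' I : Ideal (𝓞 M), conj (Φ I) * (absNorm I : ℂ) ^ (-t))
    (C : WeierstrassCurve.VariableChange M) :
    SBSD2.IsEntireLSeries (C • Wd d) (fun t => Z t * conj (Z (conj t))) := by
  obtain ⟨Ψ⟩ := D.exists_psi
  have hkz : ∀ {c : 𝓞 L} {b : Bool}, c ∉ span {(2 : 𝓞 L)} →
      (∀ x, x ∈ span {(2 : 𝓞 L)} → kp c b x = 0) ∨ kp c b = fun _ => 1 := by
    intro c b hc
    by_cases h : Rm c b
    · exact Or.inl fun x hx => ((kp_kp hD hc h).zero x).2 hx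
    · exact Or.inr (kp_one hD h)
  have hle : ∀ I, ‖Φ I‖ ≤ (absNorm I : ℝ) ^ (1 / 2 : ℝ) := by
    intro I
    rw [← Real.sqrt_eq_rpow]
    exact Real.le_sqrt_of_sq_le (hΦ.h2_norm_le hD (hkz (H.h2_cd hD)) (hkz (h2_eps2 hD ε)) I)
  have hlec : ∀ I, ‖cPhi Φ I‖ ≤ (absNorm I : ℝ) ^ (1 / 2 : ℝ) := by
    intro I
    rw [cPhi_apply, RCLike.norm_conj]
    exact hle I
  have hcd : Differentiable ℂ (fun s => conj (Z (conj s))) := by
    intro s
    have h1 := (hZd (conj s)).conj_conj
    rw [Complex.conj_conj] at h1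
    exact h1
  refine ⟨hZd.mul hcd, fun s hs => ?_⟩
  obtain ⟨a1, a2, a3⟩ := lseries_idA M Φ (1 / 2) (by norm_num) hle (s := s) (by linarith)
  obtain ⟨b1, b2, b3⟩ := lseries_idA M (cPhi Φ) (1 / 2) (by norm_num) hlec (s := s) (by linarith)
  have h2 := f1_LSeries_eq M (C • Wd d) (H.h2_LCW hD Ψ hΦ C)
  have h4 : (C • Wd d).LSeries s = LSeries (⇑(idA M Φ * idA M (cPhi Φ))) s := by
    rw [← h2]
    rfl
  refine ⟨?_, ?_⟩
  · rw [h2]
    exact ArithmeticFunction.LSeriesSummable_mul a2 b2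
  · rw [h4, ArithmeticFunction.LSeries_mul' a2 b2, b3, a3]
    show Z s * conj (Z (conj s)) = _
    have hs' : 3 / 2 < (conj s).re := by
      rw [Complex.conj_re]
      exact hs
    rw [hZ s hs, hZ (conj s) hs', Complex.conj_tsum, mul_comm]
    congr 1
    refine tsum_congr fun I => ?_
    rw [map_mul, Complex.conj_conj]
    congr 1
    have h5 : ((absNorm I : ℂ)).arg ≠ π := by
      rw [Complex.natCast_arg]
      exact Real.pi_ne_zero.symm
    have h6 := Complex.conj_cpow (absNorm I : ℂ) (-s) h5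
    rw [Complex.conj_natCast, map_neg] at h6
    rw [← h6]

end

end

end TRZ
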