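import Pool.Agent.TRZ.FD1
import Pool.Agent.TRP.FM2
import Pool.Agent.TRP.FM1

/-! # [ALL2-FD2] the isomorphism classes with `j = -3375` correspond to the pairs `(f, T)` -/

set_option autoImplicit false

open NumberField Ideal IsDedekindDomain Filter Topology
open scoped Real Classical ComplexConjugate
open TR TRG TTS TU TT XTB TRP

namespace TRZ

section
variable {M : Type} [Field M] [NumberField M]

/-- the norm of `P`, if `d` is ramified -/
noncomputable def be (P : HeightOneSpectrum (𝓞 M)) (d : M) : ℕ := if Ur P d then 1 else absNorm P.asIdeal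

theorem absNorm_pos (P : HeightOneSpectrum (𝓞 M)) : 0 < absNorm P.asIdeal :=
  Nat.pos_of_ne_zero (by rw [Ne, Ideal.absNorm_eq_zero_iff]; exact P.ne_bot)

theorem be_pos (P : HeightOneSpectrum (𝓞 M)) (d : M) : 0 < be P d := by
  unfold be
  split_ifs
  · exact Nat.one_pos
  · exact absNorm_pos P

/-- good reduction at the primes above `2` -/
theorem good_two {P : HeightOneSpectrum (𝓞 M)} (h2 : (2 : 𝓞 M) ∈ P.asIdeal) {d : M} (hd : d ≠ 0)
    (C : WeierstrassCurve.VariableChange M) : XTS.GoodReduction (C • Ws d) P ↔ Ur P d := by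
  have h7 := TRH.h2_two_seven h2
  constructor
  · intro hg
    obtain ⟨C1, hC1⟩ := Wd_eq_Ws d
    have e : C • Ws d = (C * C1⁻¹) • Wd d := by
      rw [hC1, mul_smul, inv_smul_smul]
    rw [e] at hg
    exact ur_of_good h7 hd hg
  · intro h
    exact TRH.h2_good h7 h C

end

section
variable {L M : Type} [Field L] [NumberField L] [Field M] [NumberField M] [Algebra L M]
  [IsTotallyReal L] {D : Dat L M} (hD : Od2 D)

/-- the contribution of the primes above `2` to the product of the norms of the bad primes -/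
noncomputable def beta (hD : Od2 D) (d : M) : ℕ := be (Vp hD true) d * be (Vp hD false) d

theorem beta_pos (d : M) : 0 < beta hD d := Nat.mul_pos (be_pos _ _) (be_pos _ _)

theorem Vp_inj : Function.Injective (Vp hD) := by
  have h := Vp_ne hD true
  have h' := Vp_ne hD false
  intro s t hst
  cases s <;> cases t
  · rfl
  · exact absurd hst h'
  · exact absurd hst h
  · rfl

variable {s : Bool} {z : HeightOneSpectrum (𝓞 M) → 𝓞 M} (hz : ∀ P, (2 : 𝓞 M) ∉ P.asIdeal → NG D s P (z P))
include hz

/-- **the product of the norms of the bad primes** -/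
theorem badProd_dl {B : TRQ.Base (OP M)} (hB : B.N = fun v => absNorm v.1.asIdeal) (f : FI M) (T : Finset (OP M))
    (C : WeierstrassCurve.VariableChange M) :
    badProd (C • Ws (dl D s z f T)) = B.nS T * beta hD (dl D s z f T) := by
  set d := dl D s z f T with hd
  have hd0 : d ≠ 0 := dl_ne hD hz f T
  set emb : OP M ↪ HeightOneSpectrum (𝓞 M) := ⟨Subtype.val, Subtype.val_injective⟩ with hemb
  set A := T.map emb with hA
  set A' := ((Finset.univ : Finset Bool).filter fun t => ¬ Ur (Vp hD t) d).map ⟨Vp hD, Vp_inj hD⟩ with hA'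
  have hdis : Disjoint A A' := by
    rw [Finset.disjoint_left]
    intro P h1 h2
    obtain ⟨v, -, rfl⟩ := Finset.mem_map.1 h1
    obtain ⟨t, -, ht⟩ := Finset.mem_map.1 h2
    apply v.2
    change Vp hD t = v.1 at ht
    rw [← ht]
    exact Vp_two hD t
  rw [fm1_badProd (S := A ∪ A'), Finset.prod_union hdis, hA, hA', Finset.prod_map, Finset.prod_map]
  · congr 1
    · unfold TRQ.Base.nS
      rw [hB]
      rfl
    · rw [Finset.prod_filter, Fintype.prod_bool]
      unfold beta be
      congr 1
      · by_cases h : Ur (Vp hD true) d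
        · rw [if_neg (not_not.2 h), if_pos h]
        · rw [if_pos h, if_neg h]
          rfl
      · by_cases h : Ur (Vp hD false) d
        · rw [if_neg (not_not.2 h), if_pos h]
        · rw [if_pos h, if_neg h]
          rfl
  · intro P
    rw [Finset.mem_union, hA, hA', Finset.mem_map, Finset.mem_map]
    by_cases h2 : (2 : 𝓞 M) ∈ P.asIdeal
    · obtain ⟨t, rfl⟩ := (two_iff hD).1 h2
      rw [good_two h2 hd0 C]
      constructor
      · rintro (⟨v, -, hv⟩ | ⟨t', ht', hv⟩)
        · exact absurd (by rw [show v.1 = Vp hD t from hv]; exact h2) v.2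
        · rw [Finset.mem_filter] at ht'
          have h3 : t' = t := Vp_inj hD hv
          rw [← h3]
          exact ht'.2
      · intro h
        exact Or.inr ⟨t, Finset.mem_filter.2 ⟨Finset.mem_univ _, h⟩, rfl⟩
    · have h3 : XTS.GoodReduction (C • Ws d) P ↔ (⟨P, h2⟩ : OP M) ∉ T := by
        rw [← val_odd hD hz f T ⟨P, h2⟩]
        exact fm1_good_iff D hd0 C h2
      rw [h3, not_not]
      constructor
      · rintro (⟨v, hv, hvP⟩ | ⟨t', -, hv⟩)
        · have : v = ⟨P, h2⟩ := Subtype.ext hvP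
          rw [← this]
          exact hv
        · exact absurd (by rw [← show Vp hD t' = P from hv]; exact Vp_two hD t') h2
      · intro h
        exact Or.inl ⟨⟨P, h2⟩, h, rfl⟩

/-- **the isomorphism classes** -/
theorem fam_card {B : TRQ.Base (OP M)} (hB : B.N = fun v => absNorm v.1.asIdeal) (X : ℕ)
    (Q : WeierstrassCurve M → Prop) (F : FI M → Finset (OP M) → Prop)
    (hF : ∀ (f : FI M) (T : Finset (OP M)) (C : WeierstrassCurve.VariableChange M), Q (C • Ws (dl D s z f T)) ↔ F f T) :
    (cmFamily M X Q).Finite ∧ (cmFamily M X Q).ncard =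
      ∑ f : FI M, ((B.sb (X : ℝ)).filter fun T => B.nS T * beta hD (dl D s z f T) ≤ X ∧ F f T).card := by
  set G : FI M → Finset (Finset (OP M)) := fun f =>
    (B.sb (X : ℝ)).filter fun T => B.nS T * beta hD (dl D s z f T) ≤ X ∧ F f T with hG
  obtain ⟨cl, hcl⟩ : ∃ cl : ((_ : FI M) × Finset (OP M)) →
      MulAction.orbitRel.Quotient (WeierstrassCurve.VariableChange M) (WeierstrassCurve M),
      ∀ p, cl p = Quotient.mk _ (Ws (dl D s z p.1 p.2)) := ⟨fun p => Quotient.mk _ _, fun _ => rfl⟩
  have hset : cmFamily M X Q = ↑(((Finset.univ : Finset (FI M)).sigma G).image cl) := by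
    ext c
    rw [Finset.mem_coe, Finset.mem_image]
    constructor
    · rintro ⟨E, hc, ⟨hell, hj⟩, hX, hQ⟩
      obtain ⟨d, T, hd, ⟨C, hC⟩, hT, hTX⟩ := fm1_data D hB X hj hX
      obtain ⟨f, y, hy, hdy⟩ := exists_dl hD hz hd hT
      obtain ⟨C₂, hC₂, -⟩ := Ws_scale (d := dl D s z f T) hy
      have hE : E = (C * C₂) • Ws (dl D s z f T) := by
        rw [hC, hdy, hC₂, mul_smul]
      refine ⟨⟨f, T⟩, ?_, ?_⟩
      · rw [Finset.mem_sigma]
        refine ⟨Finset.mem_univ _, ?_⟩
        change T ∈ G f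
        rw [hG, Finset.mem_filter]
        refine ⟨hTX, ?_, ?_⟩
        · rw [← badProd_dl hD hz hB f T (C * C₂), ← hE]
          exact hX
        · rw [← hF f T (C * C₂), ← hE]
          exact hQ
      · rw [hcl, ← hc]
        apply Quotient.sound
        change Ws (dl D s z f T) ∈ MulAction.orbit _ E
        refine ⟨(C * C₂)⁻¹, ?_⟩
        change (C * C₂)⁻¹ • E = _
        rw [hE, inv_smul_smul]
    · rintro ⟨⟨f, T⟩, hp, rfl⟩
      rw [Finset.mem_sigma] at hp
      have hp2 : T ∈ G f := hp.2
      rw [hG, Finset.mem_filter] at hp2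
      have e : (1 : WeierstrassCurve.VariableChange M) • Ws (dl D s z f T) = Ws (dl D s z f T) := one_smul _ _
      have k1 := nf3_j (dl_ne hD hz f T) (1 : WeierstrassCurve.VariableChange M)
      have k2 := badProd_dl hD hz hB f T (1 : WeierstrassCurve.VariableChange M)
      have k3 := (hF f T (1 : WeierstrassCurve.VariableChange M)).2 hp2.2.2
      rw [e] at k1 k2 k3
      have k4 := hcl ⟨f, T⟩
      exact ⟨Ws (dl D s z f T), k4.symm, k1, k2.trans_le hp2.2.1, k3⟩
  have hinj : Set.InjOn cl ↑((Finset.univ : Finset (FI M)).sigma G) := by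
    intro p _ p' _ h
    have h0 : (Quotient.mk _ (Ws (dl D s z p.1 p.2)) : MulAction.orbitRel.Quotient (WeierstrassCurve.VariableChange M)
        (WeierstrassCurve M)) = Quotient.mk _ (Ws (dl D s z p'.1 p'.2)) := by
      rw [← hcl, ← hcl, h]
    have h1 : Ws (dl D s z p.1 p.2) ∈ MulAction.orbit (WeierstrassCurve.VariableChange M) (Ws (dl D s z p'.1 p'.2)) :=
      Quotient.exact h0
    obtain ⟨C, hC⟩ := h1
    have hC' : C • Ws (dl D s z p'.1 p'.2) = Ws (dl D s z p.1 p.2) := hC
    obtain ⟨y, hy, hdy⟩ := (ws_iso_iff (d := dl D s z p'.1 p'.2) (dl_ne hD hz p.1 p.2)).1 ⟨C, hC'.symm⟩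
    obtain ⟨h2, h3⟩ := dl_inj hD hz hy hdy
    exact Sigma.ext h2 (heq_of_eq h3)
  rw [hset]
  refine ⟨Finset.finite_toSet _, ?_⟩
  rw [Set.ncard_coe_finset, Finset.card_image_of_injOn hinj, Finset.card_sigma]

end

end TRZ
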