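import Pool.Agent.TRZ.CLD
import Pool.Agent.TRZ.SG4
import Pool.Agent.TRZ.FD2
import Pool.Agent.TRP.NF3

/-! # [ALL2-CL] the class of the curves of the final statement in terms of `d` -/

set_option autoImplicit false
set_option linter.unusedSectionVars false

open NumberField Ideal IsDedekindDomain
open scoped Real Classical ComplexConjugate
open TR TRG TRP TTS TU TT XTB

namespace TRZ

open WithZero TRX2

section
variable {M : Type} [Field M] [NumberField M]

/-- the twists which are isomorphic to `X₀(49)` over the completion -/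
theorem cl_iso {d : M} (hd : d ≠ 0) (C : WeierstrassCurve.VariableChange M) (P : HeightOneSpectrum (𝓞 M)) :
    (∃ C1 : WeierstrassCurve.VariableChange (P.adicCompletion M),
      C1 • (C • Ws d).map (algebraMap M (P.adicCompletion M)) = TT.Wc 1 0) ↔
      IsSquare (algebraMap M (P.adicCompletion M) d) := by
  have : CharZero (P.adicCompletion M) :=
    charZero_of_injective_algebraMap (algebraMap M (P.adicCompletion M)).injective
  constructor
  · rintro ⟨C1, hC1⟩
    rw [← WeierstrassCurve.map_variableChange, Ws_map, ← mul_smul] at hC1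
    exact nf_sq hC1
  · rintro ⟨s, hs⟩
    have hs0 : s ≠ 0 := by
      rintro rfl
      rw [mul_zero, map_eq_zero] at hs
      exact hd hs
    obtain ⟨C3, hC3, -⟩ := Ws_scale (d := (1 : P.adicCompletion M)) hs0
    obtain ⟨C4, hC4, -⟩ := Wc_eq_Ws (1 : P.adicCompletion M) 0
    have e1 : s ^ 2 * (1 : P.adicCompletion M) = algebraMap M (P.adicCompletion M) d := by
      rw [hs]; ring
    have e2 : (1 : P.adicCompletion M) ^ 2 + 4 * 0 = 1 := by ring
    rw [e1] at hC3
    rw [e2] at hC4
    refine ⟨C4 * (C.map (algebraMap M (P.adicCompletion M)) * C3)⁻¹, ?_⟩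
    rw [← WeierstrassCurve.map_variableChange, Ws_map, hC3, hC4, mul_smul, ← mul_smul _ C3, inv_smul_smul]

theorem cl_W : (TT.Wc 1 0 : WeierstrassCurve M) = ⟨1, -1, 0, -2, -1⟩ := by
  ext <;> simp [TT.Wc]

/-- the class in terms of `d` -/
theorem gen_iff {d : M} (hd : d ≠ 0) (C : WeierstrassCurve.VariableChange M) :
    GenCurve (C • Ws d) ↔ ∀ P : HeightOneSpectrum (𝓞 M), (2 : 𝓞 M) ∈ P.asIdeal → Ur P d →
      IsSquare (algebraMap M (P.adicCompletion M) d) := by
  have hW : ∀ P : HeightOneSpectrum (𝓞 M), (TT.Wc 1 0 : WeierstrassCurve (P.adicCompletion M)) = ⟨1, -1, 0, -2, -1⟩ := by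
    intro P
    ext <;> simp [TT.Wc]
  constructor
  · intro h P h2 hU
    have h1 := h.two P h2 ((good_two h2 hd C).2 hU)
    rw [← hW P] at h1
    exact (cl_iso hd C P).1 h1
  · intro h
    refine ⟨nf3_j hd C, fun P h2 hg => ?_⟩
    rw [← hW P]
    exact (cl_iso hd C P).2 (h P h2 ((good_two h2 hd C).1 hg))

end

section
variable {L M : Type} [Field L] [NumberField L] [Field M] [NumberField M] [Algebra L M]
  [IsTotallyReal L] {D : Dat L M} (hD : Od2 D)
include hD

/-- `±√-7` is no square at `ϖ'` -/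
theorem cl_rs7 {s : Bool} {P : HeightOneSpectrum (𝓞 M)} (hP : p2 D s ∈ P.asIdeal) :
    ¬ IsSquare (algebraMap M (P.adicCompletion M) (rs7 D s : M)) := by
  rw [sg_t8 hD hP (se4_et_rs7 D s), x1_t8_per (c1_rs7 hD s), sg_t8_five hD]
  norm_num

/-- the local condition at `ϖ'` -/
theorem cl_loc {d : M} (hd : d ≠ 0) {s : Bool} {P : HeightOneSpectrum (𝓞 M)} (hP : p2 D s ∈ P.asIdeal) :
    ¬ IsSquare (algebraMap M (P.adicCompletion M) (d * (rs7 D s : M))) ↔
      (Ur P d → IsSquare (algebraMap M (P.adicCompletion M) d)) := by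
  have hr := cl_rs7 hD hP
  have hr0 : (rs7 D s : M) ≠ 0 := c2_rs7_ne s
  constructor
  · intro h hU
    by_contra hns
    exact h (sg_two hU (sg_ur_rs7 hD hP) hns hr)
  · intro h hsq
    have hU : Ur P d := (sg_ur_dr hD hP).1 (se4_ur P (c1_mem_two hP) (mul_ne_zero hd hr0) hsq)
    obtain ⟨a, ha⟩ := h hU
    obtain ⟨b, hb⟩ := hsq
    apply hr
    have ha0 : a ≠ 0 := by
      rintro rfl
      rw [mul_zero] at ha
      exact (map_ne_zero _).2 hd ha
    refine ⟨b / a, ?_⟩
    rw [map_mul, ha] at hb
    field_simp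
    linear_combination hb

/-- [CL] the class of the curves: no exceptional prime above `2` -/
theorem cl_iff {d : M} (hd : d ≠ 0) (C : WeierstrassCurve.VariableChange M) :
    GenCurve (C • Ws d) ↔ ∀ t : Bool, Nsq D t d := by
  rw [gen_iff hd C]
  constructor
  · intro h t P hP
    rw [cl_loc hD hd hP]
    exact h P (c1_mem_two hP)
  · intro h P h2
    rcases c1_or hD true h2 with hP | hP
    · exact (cl_loc hD hd hP).1 (h true P hP)
    · exact (cl_loc hD hd hP).1 (h (!true) P hP)

end

end TRZ
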