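import Pool.Agent.TRZ.FD6

/-! # [ALL2-FD7] the two matrices of the Selmer conditions are transposed -/

set_option autoImplicit false

open NumberField Ideal IsDedekindDomain
open scoped Real Classical ComplexConjugate
open TR TRG TTS TU TT TRP

namespace TRZ

section
variable {L M : Type} [Field L] [NumberField L] [Field M] [NumberField M] [Algebra L M]
  [IsTotallyReal L] {D : Dat L M} (hD : Od2 D)

/-- the part of `δ` above `2` -/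
noncomputable def kk (D : Dat L M) (s : Bool) (ε : (𝓞 L)ˣ) (i j : Bool) : 𝓞 M :=
  algebraMap (𝓞 L) (𝓞 M) (ε : 𝓞 L) * (if i then -(p1 D s) else 1) * (if j then -(p2 D s) else 1)

/-- the matrix of `sel_lap` -/
noncomputable def sm (D : Dat L M) (s : Bool) (T : Finset (HeightOneSpectrum (𝓞 M))) (z : HeightOneSpectrum (𝓞 M) → 𝓞 M)
    (ε : (𝓞 L)ˣ) (i j : Bool) : Matrix T T (ZMod 2) :=
  Pool.Agent.TRG.lap (aM z) (fun P => if TT.qr P (algebraMap (𝓞 L) (𝓞 M) (ε : 𝓞 L) * (if i then -(p1 D s) else 1) *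
      (if j then -(p2 D s) else 1)) = -1 then 1 else 0) T +
      Matrix.vecMulVec (fun P : T => nu D s P) (fun P : T => nv D s z P)

include hD in
theorem nu_eq {s : Bool} {P : HeightOneSpectrum (𝓞 M)} (h2 : (2 : 𝓞 M) ∉ P.asIdeal)
    {t : Bool} {q : 𝓞 M} (hq : NG D t P q) :
    nu D s P = if t8 (rd8 D (!s) q) = -1 then 1 else 0 := by
  unfold nu
  rw [← rec_unif hD (ng_odd h2 hq) s, sy_gen hq.gen]

include hD in
/-- the relation of the two decompositions -/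
theorem sm_rel {s : Bool} {d : M} (hd : d ≠ 0) {T : Finset (HeightOneSpectrum (𝓞 M))} {z z' : HeightOneSpectrum (𝓞 M) → 𝓞 M}
    {ε ε' : (𝓞 L)ˣ} {i j : Bool} (H : DK D s d T z ε i j) (H' : DK D (!s) d T z' ε' j i)
    {u : HeightOneSpectrum (𝓞 M) → (𝓞 M)ˣ} {g : HeightOneSpectrum (𝓞 M) → 𝓞 M}
    (hu : ∀ P ∈ T, z P * z' P = (u P : 𝓞 M) * g P ^ 2) :
    ∃ Y : 𝓞 M, -(algebraMap (𝓞 L) (𝓞 M) (ε : 𝓞 L) * algebraMap (𝓞 L) (𝓞 M) (ε' : 𝓞 L)) * ∏ P ∈ T, ((u P : (𝓞 M)ˣ) : 𝓞 M) = Y ^ 2 := by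
  obtain ⟨y, hy, h1⟩ := H.eq
  obtain ⟨y', hy', h2⟩ := H'.eq
  have hr : rs7 D (!s) = -rs7 D s := by
    unfold rs7 p2
    rw [Bool.not_not]
    ring
  have hrM : ((rs7 D (!s) : 𝓞 M) : M) = -((rs7 D s : 𝓞 M) : M) := by
    rw [hr]
    exact map_neg (algebraMap (𝓞 M) M) _
  have hr0 : ((rs7 D s : 𝓞 M) : M) ≠ 0 := by
    rw [Ne, RingOfIntegers.coe_eq_zero_iff]
    intro h
    have h3 := rs7_sq (D := D) s
    rw [h] at h3
    have h4 : (7 : 𝓞 M) = 0 := by linear_combination h3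
    norm_num at h4
  have hp1 : p1 D (!s) = p2 D s := rfl
  have hp2 : p2 D (!s) = p1 D s := p2_not D s
  rw [hrM, hp1, hp2] at h2
  set W : 𝓞 M := (if i then -(p1 D s) else 1) * (if j then -(p2 D s) else 1) with hW
  have e1 : (algebraMap (𝓞 L) (𝓞 M) (ε : 𝓞 L) * (if i then -(p1 D s) else 1) * (if j then -(p2 D s) else 1) *
      ∏ P ∈ T, z P : 𝓞 M) = algebraMap (𝓞 L) (𝓞 M) (ε : 𝓞 L) * W * ∏ P ∈ T, z P := by
    rw [hW]
    ring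
  have e2 : (algebraMap (𝓞 L) (𝓞 M) (ε' : 𝓞 L) * (if j then -(p2 D s) else 1) * (if i then -(p1 D s) else 1) *
      ∏ P ∈ T, z' P : 𝓞 M) = algebraMap (𝓞 L) (𝓞 M) (ε' : 𝓞 L) * W * ∏ P ∈ T, z' P := by
    rw [hW]
    ring
  rw [e1] at h1
  rw [e2] at h2
  -- the product
  have h3 : (∏ P ∈ T, z P) * (∏ P ∈ T, z' P) = (∏ P ∈ T, ((u P : (𝓞 M)ˣ) : 𝓞 M)) * (∏ P ∈ T, g P) ^ 2 := by
    rw [← Finset.prod_mul_distrib, Finset.prod_congr rfl hu, Finset.prod_mul_distrib, Finset.prod_pow]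
  set A := algebraMap (𝓞 L) (𝓞 M) (ε : 𝓞 L) with hA
  set A' := algebraMap (𝓞 L) (𝓞 M) (ε' : 𝓞 L) with hA'
  set Z := ∏ P ∈ T, z P with hZ
  set Z' := ∏ P ∈ T, z' P with hZ'
  set U := ∏ P ∈ T, ((u P : (𝓞 M)ˣ) : 𝓞 M) with hU
  set G := ∏ P ∈ T, g P with hG
  have h4 := congrArg (fun x : 𝓞 M => (x : M)) h3
  simp only [cmul, cpow] at h1 h2 h4
  have hdr : d * ((rs7 D s : 𝓞 M) : M) ≠ 0 := mul_ne_zero hd hr0
  have hWG : ((W : 𝓞 M) : M) ≠ 0 ∧ ((G : 𝓞 M) : M) ≠ 0 := by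
    have h5 : ((A : 𝓞 M) : M) * ((W : 𝓞 M) : M) * ((Z : 𝓞 M) : M) * y ^ 2 ≠ 0 := by
      rw [← h1]
      exact hdr
    have h6 : ((A' : 𝓞 M) : M) * ((W : 𝓞 M) : M) * ((Z' : 𝓞 M) : M) * y' ^ 2 ≠ 0 := by
      rw [← h2]
      exact mul_ne_zero hd (neg_ne_zero.2 hr0)
    have hZ0 : ((Z : 𝓞 M) : M) ≠ 0 := fun h => h5 (by rw [h]; ring)
    have hZ0' : ((Z' : 𝓞 M) : M) ≠ 0 := fun h => h6 (by rw [h]; ring)
    refine ⟨fun h => h5 (by rw [h]; ring), fun h => ?_⟩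
    rw [h] at h4
    have : ((Z : 𝓞 M) : M) * ((Z' : 𝓞 M) : M) = 0 := by rw [h4]; ring
    exact mul_ne_zero hZ0 hZ0' this
  have h7 : ((-(A * A') * U : 𝓞 M) : M) = ((d * ((rs7 D s : 𝓞 M) : M)) / (((W : 𝓞 M) : M) * ((G : 𝓞 M) : M) * y * y')) ^ 2 := by
    have e3 : ((-(A * A') * U : 𝓞 M) : M) = -(((A : 𝓞 M) : M) * ((A' : 𝓞 M) : M)) * ((U : 𝓞 M) : M) := by
      rw [cmul, show ((-(A * A') : 𝓞 M) : M) = -((A * A' : 𝓞 M) : M) from map_neg (algebraMap (𝓞 M) M) _, cmul]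
    rw [e3, div_pow, eq_div_iff (pow_ne_zero 2 (mul_ne_zero (mul_ne_zero (mul_ne_zero hWG.1 hWG.2) hy) hy'))]
    have h8 : (d * ((rs7 D s : 𝓞 M) : M)) ^ 2 = -((d * ((rs7 D s : 𝓞 M) : M)) * (d * -((rs7 D s : 𝓞 M) : M))) := by ring
    rw [h8, h2]
    conv_rhs => rw [h1]
    linear_combination (-((A : 𝓞 M) : M) * ((A' : 𝓞 M) : M) * ((W : 𝓞 M) : M) ^ 2 * y ^ 2 * y' ^ 2) * (-h4)
  obtain ⟨Y, -, hY⟩ := int_sq h7
  exact ⟨Y, hY⟩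

include hD in
/-- the sums -/
theorem sm_diag {s : Bool} {d : M} (hd : d ≠ 0) {T : Finset (HeightOneSpectrum (𝓞 M))} {z z' : HeightOneSpectrum (𝓞 M) → 𝓞 M}
    {ε ε' : (𝓞 L)ˣ} {i j : Bool} (H : DK D s d T z ε i j) (H' : DK D (!s) d T z' ε' j i)
    {P : HeightOneSpectrum (𝓞 M)} (hP : P ∈ T) :
    s01 (TT.qr P (algebraMap (𝓞 L) (𝓞 M) (ε : 𝓞 L))) + s01 (TT.qr P (algebraMap (𝓞 L) (𝓞 M) (ε' : 𝓞 L))) =
      ∑ Q ∈ T.erase P, (aM z P Q + aM z Q P) := by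
  have h2 : ∀ Q ∈ T, (2 : 𝓞 M) ∉ Q.asIdeal := H.two
  have hex : ∀ Q : HeightOneSpectrum (𝓞 M), ∃ (u : (𝓞 M)ˣ) (g : 𝓞 M), Q ∈ T → z Q * z' Q = (u : 𝓞 M) * g ^ 2 := by
    intro Q
    by_cases hQ : Q ∈ T
    · obtain ⟨u, g, h⟩ := gen_gen D.hodd (H.ng Q hQ).gen (H'.ng Q hQ).gen
      exact ⟨u, g, fun _ => h⟩
    · exact ⟨1, 1, fun h => absurd h hQ⟩
  choose u g hu using hex
  obtain ⟨Y, hY⟩ := sm_rel hD hd H H' hu
  have hεu : IsUnit (algebraMap (𝓞 L) (𝓞 M) (ε : 𝓞 L)) := ε.isUnit.map _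
  have hεu' : IsUnit (algebraMap (𝓞 L) (𝓞 M) (ε' : 𝓞 L)) := ε'.isUnit.map _
  have hnm : ∀ {x : 𝓞 M}, IsUnit x → x ∉ P.asIdeal := fun hx h =>
    P.isPrime.ne_top (Ideal.eq_top_of_isUnit_mem _ h hx)
  have hYn : Y ∉ P.asIdeal := by
    intro h
    have h3 : -(algebraMap (𝓞 L) (𝓞 M) (ε : 𝓞 L) * algebraMap (𝓞 L) (𝓞 M) (ε' : 𝓞 L)) *
        ∏ Q ∈ T, ((u Q : (𝓞 M)ˣ) : 𝓞 M) ∈ P.asIdeal := by
      rw [hY, sq]
      exact Ideal.mul_mem_left _ _ h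
    refine hnm ?_ h3
    refine (hεu.mul hεu').neg.mul ?_
    rw [← Units.coe_prod]
    exact Units.isUnit _
  have h3 := qr_sq P hYn
  rw [← hY, ← Finset.mul_prod_erase T _ hP, show -(algebraMap (𝓞 L) (𝓞 M) (ε : 𝓞 L) * algebraMap (𝓞 L) (𝓞 M) (ε' : 𝓞 L)) *
    (((u P : (𝓞 M)ˣ) : 𝓞 M) * ∏ Q ∈ T.erase P, ((u Q : (𝓞 M)ˣ) : 𝓞 M)) =
    algebraMap (𝓞 L) (𝓞 M) (ε : 𝓞 L) * algebraMap (𝓞 L) (𝓞 M) (ε' : 𝓞 L) * (-((u P : (𝓞 M)ˣ) : 𝓞 M)) *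
      ∏ Q ∈ T.erase P, ((u Q : (𝓞 M)ˣ) : 𝓞 M) by ring, qr_mul P (h2 P hP), qr_mul P (h2 P hP), qr_mul P (h2 P hP),
    qr_unit_self hD (h2 P hP) (H.ng P hP) (H'.ng P hP) (hu P hP), mul_one, qr_prod (h2 P hP)] at h3
  -- the other primes
  have h4 : ∀ Q ∈ T.erase P, (TT.qr P ((u Q : (𝓞 M)ˣ) : 𝓞 M) = 1 ∨ TT.qr P ((u Q : (𝓞 M)ˣ) : 𝓞 M) = -1) ∧
      s01 (TT.qr P ((u Q : (𝓞 M)ˣ) : 𝓞 M)) = aM z P Q + aM z Q P := by
    intro Q hQ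
    rw [Finset.mem_erase] at hQ
    have hPQ : P ≠ Q := fun h => hQ.1 h.symm
    refine ⟨qr_pm (unit_nm _), ?_⟩
    have gnm : ∀ {q : 𝓞 M}, (∃ k, Odd k ∧ span {q} = Q.asIdeal ^ k) → q ∉ P.asIdeal := by
      rintro q ⟨k, -, hk⟩ h
      have h5 : Q.asIdeal ^ k ≤ P.asIdeal := by
        rw [← hk]
        exact (Ideal.span_singleton_le_iff_mem _).2 h
      have h6 := P.isPrime.le_of_pow_le h5
      exact hPQ (HeightOneSpectrum.ext (Q.isMaximal.eq_of_le P.isPrime.ne_top h6)).symm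
    have hz1 := gnm (H.ng Q hQ.2).gen
    have hz2 := gnm (H'.ng Q hQ.2).gen
    have h5 := hu Q hQ.2
    have hg : g Q ∉ P.asIdeal := by
      intro h
      rcases P.isPrime.mem_or_mem (show z Q * z' Q ∈ P.asIdeal by
        rw [h5, sq]
        exact Ideal.mul_mem_left _ _ (Ideal.mul_mem_left _ _ h)) with h | h
      · exact hz1 h
      · exact hz2 h
    have h6 : TT.qr P ((u Q : (𝓞 M)ˣ) : 𝓞 M) = TT.qr P (z Q) * TT.qr P (z' Q) := by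
      rw [← qr_mul P (h2 P hP), h5, qr_mul P (h2 P hP), qr_sq P hg, mul_one]
    rw [h6, s01_mul (qr_pm hz1) (qr_pm hz2),
      NG.transpose hD hPQ (h2 P hP) (h2 Q hQ.2) (H.ng P hP) (H'.ng Q hQ.2)]
    rfl
  obtain ⟨h7, h8⟩ := s01_prod (T.erase P) (fun Q => TT.qr P ((u Q : (𝓞 M)ˣ) : 𝓞 M)) fun Q hQ => (h4 Q hQ).1
  have h9 := congrArg s01 h3
  have hpm := qr_pm (hnm hεu)
  have hpm' := qr_pm (hnm hεu')
  rw [s01_mul (by rcases hpm with h | h <;> rcases hpm' with h' | h' <;> rw [h, h'] <;> norm_num) h7,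
    s01_mul hpm hpm', h8, Finset.sum_congr rfl fun Q hQ => (h4 Q hQ).2] at h9
  have h10 : s01 1 = 0 := by decide
  rw [h10] at h9
  exact CharTwo.add_eq_zero.1 h9

include hD in
theorem kk_s01 {s : Bool} {ε : (𝓞 L)ˣ} {i j : Bool} {P : HeightOneSpectrum (𝓞 M)} (h2 : (2 : 𝓞 M) ∉ P.asIdeal) :
    (if TT.qr P (algebraMap (𝓞 L) (𝓞 M) (ε : 𝓞 L) * (if i then -(p1 D s) else 1) *
      (if j then -(p2 D s) else 1)) = -1 then (1 : ZMod 2) else 0) = s01 (TT.qr P (algebraMap (𝓞 L) (𝓞 M) (ε : 𝓞 L))) +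
      s01 (TT.qr P ((if i then -(p1 D s) else 1) * (if j then -(p2 D s) else 1))) := by
  have h1 : IsUnit (algebraMap (𝓞 L) (𝓞 M) (ε : 𝓞 L)) := ε.isUnit.map _
  have h3 : algebraMap (𝓞 L) (𝓞 M) (ε : 𝓞 L) ∉ P.asIdeal := fun h =>
    P.isPrime.ne_top (Ideal.eq_top_of_isUnit_mem _ h h1)
  have h4 : ∀ t : Bool, p1 D t ∉ P.asIdeal := by
    intro t h
    apply h2
    rw [← p12 D t]
    exact Ideal.mul_mem_right _ _ h
  have h5 : ∀ (b t : Bool), (if b then -(p1 D t) else 1 : 𝓞 M) ∉ P.asIdeal := by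
    intro b t
    split_ifs
    · rw [neg_mem_iff]
      exact h4 t
    · exact fun h => P.isPrime.ne_top ((Ideal.eq_top_iff_one _).2 h)
  have h6 : ((if i then -(p1 D s) else 1) * (if j then -(p2 D s) else 1) : 𝓞 M) ∉ P.asIdeal := by
    intro h
    rcases P.isPrime.mem_or_mem h with h | h
    · exact h5 i s h
    · exact h5 j (!s) h
  rw [mul_assoc, qr_mul P h2, ← s01_mul (qr_pm h3) (qr_pm h6)]
  rfl

include hD in
/-- **the two matrices are transposed** -/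
theorem sm_other {s : Bool} {d : M} (hd : d ≠ 0) {T : Finset (HeightOneSpectrum (𝓞 M))} {z z' : HeightOneSpectrum (𝓞 M) → 𝓞 M}
    {ε ε' : (𝓞 L)ˣ} {i j : Bool} (H : DK D s d T z ε i j) (H' : DK D (!s) d T z' ε' j i) :
    sm D (!s) T z' ε' j i = (sm D s T z ε i j).transpose := by
  have hnu : ∀ P ∈ T, nu D s P = nv D (!s) z' P := fun P hP => nu_eq hD (H.two P hP) (H'.ng P hP)
  have hnu' : ∀ P ∈ T, nu D (!s) P = nv D s z P := by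
    intro P hP
    have h := nu_eq hD (s := !s) (H.two P hP) (H.ng P hP)
    rw [Bool.not_not] at h
    exact h
  have ha : ∀ P ∈ T, ∀ Q ∈ T, P ≠ Q → aM z' P Q = aM z Q P := by
    intro P hP Q hQ hPQ
    unfold TRG.aM
    rw [NG.transpose hD hPQ (H.two P hP) (H.two Q hQ) (H.ng P hP) (H'.ng Q hQ)]
  ext P Q
  unfold sm
  rw [Matrix.transpose_apply, Matrix.add_apply, Matrix.add_apply, Matrix.vecMulVec_apply, Matrix.vecMulVec_apply,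
    hnu' P.1 P.2, ← hnu Q.1 Q.2, mul_comm (nv D s z P.1)]
  congr 1
  unfold Pool.Agent.TRG.lap
  by_cases hPQ : P = Q
  · subst hPQ
    rw [if_pos rfl, if_pos rfl]
    beta_reduce
    rw [kk_s01 hD (H.two P.1 P.2), kk_s01 hD (H.two P.1 P.2)]
    have h1 := sm_diag hD hd H H' P.2
    have h2 : ((if j then -(p1 D (!s)) else 1) * (if i then -(p2 D (!s)) else 1) : 𝓞 M) =
        (if i then -(p1 D s) else 1) * (if j then -(p2 D s) else 1) := by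
      rw [p2_not, mul_comm]
      rfl
    rw [h2, Finset.sum_congr rfl fun R hR => ha P.1 P.2 R (Finset.mem_of_mem_erase hR)
      (fun h => (Finset.mem_erase.1 hR).1 h.symm)]
    rw [Finset.sum_add_distrib] at h1
    generalize s01 (TT.qr P.1 ((if i then -(p1 D s) else 1) * (if j then -(p2 D s) else 1))) = w
    generalize s01 (TT.qr P.1 (algebraMap (𝓞 L) (𝓞 M) (ε : 𝓞 L))) = a at *
    generalize s01 (TT.qr P.1 (algebraMap (𝓞 L) (𝓞 M) (ε' : 𝓞 L))) = b at *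
    have h3 : b = a + (∑ Q ∈ T.erase P.1, aM z P.1 Q + ∑ Q ∈ T.erase P.1, aM z Q P.1) := by
      rw [← h1, ← add_assoc, CharTwo.add_self_eq_zero, zero_add]
    rw [h3]
    have h4 : ∀ x : ZMod 2, x + x = 0 := CharTwo.add_self_eq_zero
    linear_combination h4 (∑ Q ∈ T.erase P.1, aM z Q P.1)
  · rw [if_neg hPQ, if_neg (fun h => hPQ h.symm)]
    exact ha P.1 P.2 Q.1 Q.2 fun h => hPQ (Subtype.ext h)

end

end TRZ
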