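import Pool.Agent.TRZ.CRD
import Pool.Agent.TRZ.CL
import Pool.Agent.TRZ.FD7
import Pool.Agent.TRP.FM1
import Pool.Agent.TRP.RES0

/-! # [ALL2-CRIT] the criterion for the curves of the final statement -/

set_option autoImplicit false
set_option linter.unusedSectionVars false

open NumberField Ideal IsDedekindDomain
open scoped Real Classical ComplexConjugate
open TR TRG TRP TTS TU TT XTB

namespace TRZ

section
variable {L M : Type} [Field L] [NumberField L] [Field M] [NumberField M] [Algebra L M]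
  [IsTotallyReal L] {D : Dat L M}

theorem cr_sub_one (D : Dat L M) (s : Bool) : p2 D s - 1 = -(p1 D s) := by
  linear_combination x_add D s

theorem cr_rs7 (D : Dat L M) (s : Bool) : (1 : M) - 2 * ((p2 D s : 𝓞 M) : M) = (rs7 D s : M) := by
  have h : (1 : 𝓞 M) - 2 * p2 D s = rs7 D s := by
    unfold rs7
    linear_combination -x_add D s
  rw [← h]
  push_cast
  rfl

theorem cr_p1 (D : Dat L M) (s : Bool) {P : HeightOneSpectrum (𝓞 M)} (h2 : (2 : 𝓞 M) ∉ P.asIdeal) : p1 D s ∉ P.asIdeal := fun h => h2 (by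
  rw [← x_mul D s]
  exact Ideal.mul_mem_right _ _ h)

theorem cr_edge (D : Dat L M) (s : Bool) {P : HeightOneSpectrum (𝓞 M)} (h2 : (2 : 𝓞 M) ∉ P.asIdeal) : edge P (-(p1 D s)) = nu D s P := by
  rw [edge_eq (by rw [neg_mem_iff]; exact cr_p1 D s h2)]
  rfl

/-- `κ` is prime to `P` -/
theorem cr_kap (D : Dat L M) (s : Bool) {P : HeightOneSpectrum (𝓞 M)} (h2 : (2 : 𝓞 M) ∉ P.asIdeal) (ε : (𝓞 L)ˣ) (i j : Bool) :
    algebraMap (𝓞 L) (𝓞 M) (ε : 𝓞 L) * (if i then -(p1 D s) else 1) * (if j then -(p2 D s) else 1) ∉ P.asIdeal := by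
  have h5 : ∀ (b t : Bool), (if b then -(p1 D t) else 1 : 𝓞 M) ∉ P.asIdeal := by
    intro b t
    split_ifs
    · rw [neg_mem_iff]
      exact cr_p1 D t h2
    · exact fun h => P.isPrime.ne_top ((Ideal.eq_top_iff_one _).2 h)
  intro h
  rcases P.isPrime.mem_or_mem h with h | h
  · rcases P.isPrime.mem_or_mem h with h | h
    · exact P.isPrime.ne_top (Ideal.eq_top_of_isUnit_mem _ h (ε.isUnit.map _))
    · exact h5 i s h
  · exact h5 j (!s) h

variable (hD : Od2 D)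
include hD

theorem cr_mat {s : Bool} {d : M} {T : Finset (HeightOneSpectrum (𝓞 M))} {p : HeightOneSpectrum (𝓞 M) → 𝓞 M} {ε : (𝓞 L)ˣ} {i j : Bool}
    (H : DK D s d T p ε i j) : tmat T p (p2 D s) (algebraMap (𝓞 L) (𝓞 M) (ε : 𝓞 L) * (if i then -(p1 D s) else 1) *
      (if j then -(p2 D s) else 1)) = sm D s T p ε i j := by
  funext P Q
  have h1 : edge P.1 (p2 D s - 1) = nu D s P.1 := by
    rw [cr_sub_one, cr_edge D s (H.two P.1 P.2)]
  have h2 : edge Q.1 (-(p2 D s)) = nv D s p Q.1 := by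
    have h3 := nu_eq hD (s := !s) (H.two Q.1 Q.2) (H.ng Q.1 Q.2)
    rw [Bool.not_not] at h3
    rw [p2, cr_edge D (!s) (H.two Q.1 Q.2), h3]
    rfl
  unfold tmat sm
  rw [Matrix.add_apply, Matrix.vecMulVec_apply, h1, h2]
  congr 1
  unfold Pool.Agent.TRG.lap
  by_cases hPQ : P = Q
  · rw [if_pos hPQ, if_pos hPQ, add_comm, edge_eq (cr_kap D s (H.two P.1 P.2) ε i j)]
    congr 1
    refine Finset.sum_congr rfl fun R hR => ?_
    have hR1 := Finset.mem_erase.1 hR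
    exact fm0_edge hD H.two H.ng H.ng P.2 hR1.2 (Ne.symm hR1.1)
  · rw [if_neg hPQ, if_neg hPQ]
    exact fm0_edge hD H.two H.ng H.ng P.2 Q.2 fun h => hPQ (Subtype.ext h)

/-- **the criterion**: the Selmer conditions of both sides -/
theorem cr_sha {s : Bool} {d : M} {T : Finset (HeightOneSpectrum (𝓞 M))} {p : HeightOneSpectrum (𝓞 M) → 𝓞 M} {ε : (𝓞 L)ˣ} {i j : Bool}
    (H : DK D s d T p ε i j) (hN : ∀ t, Nsq D t d) (C : WeierstrassCurve.VariableChange M) :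
    TRB.FiniteSha (C • Ws d) ↔ (sm D s T p ε i j).det ≠ 0 := by
  have hd : d ≠ 0 := H.sg_ne
  obtain ⟨T', z', ε', i', j', H', -⟩ := exists_DK hD hd (!s)
  obtain ⟨hT, hi, hj, -⟩ := DK.other hD H H'
  subst hT
  subst hi
  subst hj
  have hN' : Nsq D (!(!s)) d := by
    rw [Bool.not_not]
    exact hN s
  have h1 := sel_lap hD H (hN s) (hN (!s))
  have h2 := sel_lap hD H' (hN (!s)) hN'
  have h3 := sm_other hD hd H H'
  have h4 : Sel d (rs7 D (!s) : M) ↔ (sm D s T' p ε j' i').det ≠ 0 := by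
    rw [h2]
    change (sm D (!s) T' z' ε' i' j').det ≠ 0 ↔ _
    rw [h3, Matrix.det_transpose]
  rw [finiteSha_iff hD hd hN C]
  constructor
  · intro h
    exact h1.1 (h s)
  · intro h t
    rcases Bool.eq_or_eq_not t s with rfl | rfl
    · exact h1.2 h
    · exact h4.2 h

/-- [CRIT] over `M` -/
theorem cr_all {E : WeierstrassCurve M} (hE : GenCurve E) {w : 𝓞 M} (hw : w ^ 2 = w - 2) :
    (∃ (κ : 𝓞 M) (T : Finset (HeightOneSpectrum (𝓞 M))) (p : HeightOneSpectrum (𝓞 M) → 𝓞 M), Twist E w κ T p) ∧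
    ∀ (κ : 𝓞 M) (T : Finset (HeightOneSpectrum (𝓞 M))) (p : HeightOneSpectrum (𝓞 M) → 𝓞 M), Twist E w κ T p →
      (∀ P : HeightOneSpectrum (𝓞 M), (2 : 𝓞 M) ∉ P.asIdeal → (P ∈ T ↔ ¬ XTS.GoodReduction E P)) ∧
      (TRB.FiniteSha E ↔ (tmat T p w κ).det ≠ 0) := by
  obtain ⟨s, rfl⟩ := fm0_w D hw
  constructor
  · obtain ⟨hell, hj⟩ := hE.j_eq
    obtain ⟨d, C, C', hd, hC, -⟩ := exists_Ws E hj
    obtain ⟨T, z, ε, i, j, H, -⟩ := exists_DK hD hd s
    obtain ⟨y, hy, he⟩ := H.eq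
    refine ⟨algebraMap (𝓞 L) (𝓞 M) (ε : 𝓞 L) * (if i then -(p1 D s) else 1) * (if j then -(p2 D s) else 1), T, z, H.two,
      fun P hP => fm0_normalised (H.ng P hP), ?_, ?_⟩
    · refine ⟨Units.map (algebraMap (𝓞 L) (𝓞 M)).toMonoidHom ε, i, j, ?_⟩
      rw [cr_sub_one]
      rfl
    · refine ⟨d, y, C⁻¹, hd, hy, ?_, ?_⟩
      · rw [hC, inv_smul_smul]
        rfl
      · rw [cr_rs7]
        exact he
  · intro κ T p h
    obtain ⟨u, i, j, hκ⟩ := h.unit
    obtain ⟨d, y, C, hd, hy, hC, he⟩ := h.eq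
    obtain ⟨ε, hε⟩ := D.unit_real u
    rw [cr_sub_one, hε] at hκ
    have hC' : E = C⁻¹ • Ws d := by
      have h1 : C • E = Ws d := hC
      rw [← h1, inv_smul_smul]
    have H : DK D s d T p ε i j := by
      refine ⟨h.odd, fun P hP => fm0_ng D (h.odd P hP) (h.nrm P hP), y, hy, ?_⟩
      rw [← cr_rs7, he, hκ]
    have hN : ∀ t, Nsq D t d := by
      rw [hC'] at hE
      exact (cl_iff hD hd C⁻¹).1 hE
    refine ⟨fun P hP => ?_, ?_⟩
    · rw [H.mem_iff hP, hC']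
      exact not_congr (fm1_good_iff D hd C⁻¹ hP).symm
    · rw [hC', cr_sha hD H hN C⁻¹, ← cr_mat hD H, hκ]

end

end TRZ

namespace XTB

open TRB XTR XTS

/-- [CRIT] the criterion over `M` for the admissible fields -/
theorem gen_crit {L : Type} [Field L] [NumberField L] (hL : Admissible L) (h2 : (Ideal.span {(2 : 𝓞 L)}).IsPrime)
    (ho : Odd (Module.finrank ℚ L)) {M : Type} [Field M] [NumberField M] [Algebra L M]
    (hM : Module.finrank L M = 2) (hr : ∃ r : M, r ^ 2 = -7) {E : WeierstrassCurve M} (hE : GenCurve E) {w : 𝓞 M}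
    (hw : w ^ 2 = w - 2) :
    (∃ (κ : 𝓞 M) (T : Finset (HeightOneSpectrum (𝓞 M))) (p : HeightOneSpectrum (𝓞 M) → 𝓞 M), Twist E w κ T p) ∧
    ∀ (κ : 𝓞 M) (T : Finset (HeightOneSpectrum (𝓞 M))) (p : HeightOneSpectrum (𝓞 M) → 𝓞 M), Twist E w κ T p →
      (∀ P : HeightOneSpectrum (𝓞 M), (2 : 𝓞 M) ∉ P.asIdeal → (P ∈ T ↔ ¬ GoodReduction E P)) ∧
      (FiniteSha E ↔ (tmat T p w κ).det ≠ 0) := by
  have : IsTotallyReal L := hL.real
  obtain ⟨D, hD⟩ := exists_datOd2 hL h2 ho hM hr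
  exact TRZ.cr_all hD hE hw

end XTB
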