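import Pool.Agent.TRZ.FD13
import Pool.Agent.TRZ.DC

/-! # [ALL2-FD14] the exact proportion of the allowed curves among all curves with `j = -3375` -/

set_option autoImplicit false

open NumberField Ideal IsDedekindDomain Filter Topology
open scoped Real Classical ComplexConjugate
open TR TRG TTS TU TT XTB TRP

namespace TRZ

section
variable {L M : Type} [Field L] [NumberField L] [Field M] [NumberField M] [Algebra L M]
  [IsTotallyReal L] {D : Dat L M} (hD : Od2 D)

/-- the sum of the weights of the local classes -/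
noncomputable def WL2 (L : Type) [Field L] [NumberField L] : ℝ := 6 - 2 / 2 ^ Module.finrank ℚ L

theorem card_rf : Fintype.card (RF L) = 2 ^ Module.finrank ℚ L := by
  rw [← Nat.card_eq_fintype_card]
  exact card_two

theorem sum_phw : ∑ x : LQ L, phw L x = WL2 L := by
  have hq : (0 : ℝ) < 2 ^ Module.finrank ℚ L := by positivity
  have h1 : ∀ b : Bool, ∑ y : RF L × ZMod 2, phw L (b, y) = if b = false then
      2 * (1 + (2 ^ Module.finrank ℚ L - 1) / 2 ^ Module.finrank ℚ L) else 2 := by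
    intro b
    rw [Fintype.sum_prod_type]
    have h2 : ∀ r : RF L, ∑ t : ZMod 2, phw L (b, r, t) = 2 * (if b = false ∧ r = 0 then 1 else 1 / 2 ^ Module.finrank ℚ L) := by
      intro r
      have h3 : ∀ t : ZMod 2, phw L (b, r, t) = if b = false ∧ r = 0 then 1 else 1 / 2 ^ Module.finrank ℚ L := fun _ => rfl
      rw [Finset.sum_congr rfl fun t _ => h3 t, Finset.sum_const, Finset.card_univ, ZMod.card, nsmul_eq_mul]
      norm_num
    rw [Finset.sum_congr rfl fun r _ => h2 r, ← Finset.mul_sum]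
    cases b
    · rw [if_pos rfl]
      congr 1
      have h3 : ∀ r : RF L, (if (false : Bool) = false ∧ r = 0 then (1 : ℝ) else 1 / 2 ^ Module.finrank ℚ L) =
          1 / 2 ^ Module.finrank ℚ L + if r = 0 then 1 - 1 / 2 ^ Module.finrank ℚ L else 0 := by
        intro r
        by_cases hr : r = 0
        · rw [if_pos ⟨rfl, hr⟩, if_pos hr]
          ring
        · rw [if_neg fun h => hr h.2, if_neg hr, add_zero]
      rw [Finset.sum_congr rfl fun r _ => h3 r, Finset.sum_add_distrib, Finset.sum_const, Finset.card_univ, card_rf,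
        Finset.sum_ite_eq' Finset.univ (0 : RF L), if_pos (Finset.mem_univ _), nsmul_eq_mul]
      push_cast
      field_simp
    · rw [if_neg (by simp)]
      have h3 : ∀ r : RF L, (if (true : Bool) = false ∧ r = 0 then (1 : ℝ) else 1 / 2 ^ Module.finrank ℚ L) =
          1 / 2 ^ Module.finrank ℚ L := fun r => if_neg (by simp)
      rw [Finset.sum_congr rfl fun r _ => h3 r, Finset.sum_const, Finset.card_univ, card_rf, nsmul_eq_mul]
      push_cast
      field_simp
  rw [Fintype.sum_prod_type, Fintype.sum_bool, h1, h1, if_neg (by simp), if_pos rfl]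
  unfold WL2
  field_simp
  ring

theorem sum_phw' : ∑ x : LQ L, (if x ≠ (false, 0, 0) then phw L x else 0) = WL2 L - 1 := by
  have h1 : ∀ x : LQ L, (if x ≠ (false, 0, 0) then phw L x else 0) = phw L x - if x = (false, 0, 0) then 1 else 0 := by
    intro x
    by_cases h : x = (false, 0, 0)
    · rw [if_neg (not_not.2 h), if_pos h, h]
      unfold phw
      simp
    · rw [if_pos h, if_neg h, sub_zero]
  rw [Finset.sum_congr rfl fun x _ => h1 x, Finset.sum_sub_distrib, sum_phw,
    Finset.sum_ite_eq' Finset.univ ((false, 0, 0) : LQ L), if_pos (Finset.mem_univ _)]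

variable {z : HeightOneSpectrum (𝓞 M) → 𝓞 M} (hz : ∀ P, (2 : 𝓞 M) ∉ P.asIdeal → NG D true P (z P))
  (hex : ∀ c : G8 D true, ∃ T : Finset (OP M), csz D true z T = c)

include hz hex in
theorem beta_pm (p : FI M × G8 D true) :
    (1 : ℝ) / betaC hD true z p.1 p.2 = phw L (pm D p).1 * phw L (pm D p).2 := by
  obtain ⟨f, c⟩ := p
  obtain ⟨T, rfl⟩ := hex c
  have h := pm_beta hD hz f T
  rw [betaC_eq hD hz] at h
  exact h

include hD hz hex in
theorem al_pm (p : FI M × G8 D true) : p ∈ alS D z ↔ (pm D p).1 ≠ (false, 0, 0) ∧ (pm D p).2 ≠ (false, 0, 0) := by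
  obtain ⟨f, c⟩ := p
  obtain ⟨T, rfl⟩ := hex c
  rw [← pm_nsq hD hz, ← AL_iff hD hz]
  unfold alS
  rw [Finset.mem_filter]
  exact ⟨fun h => h.2, fun h => ⟨Finset.mem_univ _, h⟩⟩

include hz hex in
/-- the total weight -/
theorem sum_all : ∑ p : FI M × G8 D true, (1 : ℝ) / betaC hD true z p.1 p.2 = WL2 L ^ 2 := by
  rw [Finset.sum_congr rfl fun p _ => beta_pm hD hz hex p,
    Fintype.sum_bijective (pm D) (pm_bij hD) (fun p => phw L (pm D p).1 * phw L (pm D p).2)
      (fun y : LQ L × LQ L => phw L y.1 * phw L y.2) (fun _ => rfl), Fintype.sum_prod_type]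
  rw [sq, ← sum_phw (L := L), Finset.sum_mul_sum]

include hz hex in
/-- the weight of the allowed pairs -/
theorem sum_al : ∑ p ∈ alS D z, (1 : ℝ) / betaC hD true z p.1 p.2 = (WL2 L - 1) ^ 2 := by
  have h1 : ∀ p ∈ (Finset.univ : Finset (FI M × G8 D true)), (if p ∈ alS D z then (1 : ℝ) / betaC hD true z p.1 p.2 else 0) =
      (if (pm D p).1 ≠ (false, 0, 0) then phw L (pm D p).1 else 0) *
        (if (pm D p).2 ≠ (false, 0, 0) then phw L (pm D p).2 else 0) := by
    intro p _
    rw [beta_pm hD hz hex]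
    have h2 := al_pm hD hz hex p
    by_cases h3 : (pm D p).1 ≠ (false, 0, 0)
    · by_cases h4 : (pm D p).2 ≠ (false, 0, 0)
      · rw [if_pos (h2.2 ⟨h3, h4⟩), if_pos h3, if_pos h4]
      · rw [if_neg fun h => h4 (h2.1 h).2, if_neg h4, mul_zero]
    · rw [if_neg fun h => h3 (h2.1 h).1, if_neg h3, zero_mul]
  have h5 : ∑ p ∈ alS D z, (1 : ℝ) / betaC hD true z p.1 p.2 =
      ∑ p : FI M × G8 D true, if p ∈ alS D z then (1 : ℝ) / betaC hD true z p.1 p.2 else 0 := by
    rw [← Finset.sum_filter, Finset.filter_mem_eq_inter, Finset.univ_inter]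
  rw [h5, Finset.sum_congr rfl h1, Fintype.sum_bijective (pm D) (pm_bij hD)
    (fun p => (if (pm D p).1 ≠ (false, 0, 0) then phw L (pm D p).1 else 0) *
        (if (pm D p).2 ≠ (false, 0, 0) then phw L (pm D p).2 else 0))
    (fun y : LQ L × LQ L => (if y.1 ≠ (false, 0, 0) then phw L y.1 else 0) *
        (if y.2 ≠ (false, 0, 0) then phw L y.2 else 0)) (fun _ => rfl), Fintype.sum_prod_type]
  rw [sq, ← sum_phw' (L := L), Finset.sum_mul_sum]

end

section
variable {L M : Type} [Field L] [NumberField L] [Field M] [NumberField M] [Algebra L M]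
  [IsTotallyReal L] {D : Dat L M} (hD : Od2 D)

theorem WL2_ge : 5 ≤ WL2 L := by
  unfold WL2
  have h : (2 : ℝ) ≤ 2 ^ Module.finrank ℚ L := by
    have h1 : 0 < Module.finrank ℚ L := Module.finrank_pos
    calc (2 : ℝ) = 2 ^ 1 := (pow_one _).symm
      _ ≤ 2 ^ Module.finrank ℚ L := pow_le_pow_right₀ (by norm_num) h1
  have h2 : (2 : ℝ) / 2 ^ Module.finrank ℚ L ≤ 1 := (div_le_one (by positivity)).2 h
  linarith

include hD

/-- **the number of the curves in a union of types** -/
theorem exists_kap : ∃ (z : HeightOneSpectrum (𝓞 M) → 𝓞 M) (kap : ℝ), (∀ P, (2 : 𝓞 M) ∉ P.asIdeal → NG D true P (z P)) ∧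
    0 < kap ∧ (∀ c : G8 D true, ∃ T : Finset (OP M), csz D true z T = c) ∧
    ∀ (Q : WeierstrassCurve M → Prop) (A : Finset (FI M × G8 D true)),
      (∀ (f : FI M) (T : Finset (OP M)) (C : WeierstrassCurve.VariableChange M),
        Q (C • Ws (dl D true z f T)) ↔ (f, csz D true z T) ∈ A) →
      (∀ X : ℕ, (cmFamily M X Q).Finite) ∧
      Tendsto (fun X : ℕ => ((cmFamily M X Q).ncard : ℝ) / X) atTop (𝓝 (kap * ∑ p ∈ A, (1 : ℝ) / betaC hD true z p.1 p.2)) := by
  obtain ⟨z, hz⟩ : ∃ z : HeightOneSpectrum (𝓞 M) → 𝓞 M, ∀ P, (2 : 𝓞 M) ∉ P.asIdeal → NG D true P (z P) := by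
    have h : ∀ P : HeightOneSpectrum (𝓞 M), (2 : 𝓞 M) ∉ P.asIdeal → ∃ q, NG D true P q :=
      fun P hP => exists_NG hD true hP
    choose! z hz using h
    exact ⟨z, hz⟩
  obtain ⟨om, hsy, hom, hom0, hps⟩ := exists_om hD true
  obtain ⟨B, hN, hw, hc, hBom⟩ := exists_dsys hD true hz om hsy fun P Q hPQ hP hQ =>
    hom z P Q hPQ hP hQ (hz P hP) (hz Q hQ)
  obtain ⟨kap, hkap, hlim⟩ := sb_cls hD true hz B hN hc
  refine ⟨z, kap, hz, hkap, fun c => ?_, fun Q A hQ => ?_⟩
  · obtain ⟨R, -, hR⟩ := TRPA.exists_set B ∅ c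
    exact ⟨R, by rw [← fd_cs_eq B hc]; exact hR⟩
  · have h1 := fun X => fam_sum hD hz (B := B.toBase) hN X Q A (fun _ _ => True) (fun f T C => by rw [hQ, and_true])
    refine ⟨fun X => (h1 X).1, ?_⟩
    rw [Finset.mul_sum]
    have h2 : ∀ p ∈ A, Tendsto (fun X : ℕ => (cnt B.toBase ((X : ℝ) / betaC hD true z p.1 p.2) (fun T =>
        csz D true z T = p.2 ∧ True) : ℝ) / X) atTop (𝓝 (kap * (1 / betaC hD true z p.1 p.2))) := by
      intro p _
      have hb : (0 : ℝ) < betaC hD true z p.1 p.2 := by exact_mod_cast betaC_pos hD p.1 p.2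
      have h3 := ((hlim p.2).comp (div_tend (betaC hD true z p.1 p.2) (betaC_pos hD p.1 p.2))).mul_const
        (1 / (betaC hD true z p.1 p.2 : ℝ))
      refine h3.congr' ?_
      filter_upwards [eventually_gt_atTop 0] with X hX
      have hX' : (0 : ℝ) < X := by exact_mod_cast hX
      simp only [Function.comp]
      rw [cnt_eq B.toBase _ (fun S => B.cs S = p.2), cnt_congr B.toBase (Q' := fun T => csz D true z T = p.2 ∧ True)
        (fun T => by rw [fd_cs_eq B hc, and_true])]
      field_simp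
    refine (tendsto_finsetSum A h2).congr fun X => ?_
    rw [(h1 X).2]
    push_cast
    rw [Finset.sum_div]

/-- **[ALL2] the exact proportion of the allowed curves among all curves with `j = -3375`** -/
theorem all2_prop {Al : WeierstrassCurve M → Prop}
    (hAl : ∀ d : M, d ≠ 0 → ∀ C : WeierstrassCurve.VariableChange M, Al (C • Ws d) ↔ ∀ t, Nsq D t d) :
    (∀ X : ℕ, (cmFamily M X fun _ => True).Finite) ∧
    Tendsto (fun X : ℕ => ((cmFamily M X Al).ncard : ℝ) / ((cmFamily M X fun _ => True).ncard : ℝ)) atTop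
      (𝓝 ((1 - 1 / (6 - 2 / 2 ^ Module.finrank ℚ L)) ^ 2)) := by
  obtain ⟨z, kap, hz, hkap, hex, H⟩ := exists_kap hD
  have h1 := H (fun _ => True) Finset.univ (fun _ _ _ => ⟨fun _ => Finset.mem_univ _, fun _ => trivial⟩)
  have h2 := H Al (alS D z) (fun f T C => by
    rw [hAl _ (dl_ne hD hz f T) C, ← AL_iff hD hz]
    unfold alS
    rw [Finset.mem_filter]
    exact ⟨fun h => ⟨Finset.mem_univ _, h⟩, fun h => h.2⟩)
  rw [sum_all hD hz hex] at h1
  rw [sum_al hD hz hex] at h2
  refine ⟨h1.1, ?_⟩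
  have hW := WL2_ge (L := L)
  have h3 := h2.2.div h1.2 (by positivity)
  have h4 : kap * (WL2 L - 1) ^ 2 / (kap * WL2 L ^ 2) = (1 - 1 / (6 - 2 / 2 ^ Module.finrank ℚ L)) ^ 2 := by
    have h5 : (6 - 2 / 2 ^ Module.finrank ℚ L : ℝ) = WL2 L := rfl
    rw [h5]
    have hW0 : WL2 L ≠ 0 := by linarith
    field_simp
  rw [h4] at h3
  refine h3.congr' ?_
  filter_upwards [eventually_gt_atTop 0] with X hX
  have hX' : (0 : ℝ) < X := by exact_mod_cast hX
  simp only [Pi.div_apply]
  rw [div_div_div_cancel_right₀ hX'.ne']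

end

end TRZ
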