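import Pool.Agent.TRZ.F2
import Pool.Agent.TRZ.CL
import Pool.Agent.TRZ.FD14
import Pool.Agent.TRP.RES2

/-! # [ALL2] the final statements for admissible fields of odd degree in which `2` is inert -/

set_option autoImplicit false

open NumberField IsDedekindDomain XTR XTS Filter Topology
open scoped Classical

namespace XTB

open TRB

section
variable {L : Type} [Field L] [NumberField L] (hL : Admissible L) (h2 : (Ideal.span {(2 : 𝓞 L)}).IsPrime)
  (ho : Odd (Module.finrank ℚ L)) {M : Type} [Field M] [NumberField M] [Algebra L M]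
  (hM : Module.finrank L M = 2) (hr : ∃ r : M, r ^ 2 = -7)
include hL h2 ho hM hr

/-- the conjecture modulo `2` over `M` -/
theorem gen_modTwo {E : WeierstrassCurve M} (hE : GenCurve E) : ModTwo E := by
  have : IsTotallyReal L := hL.real
  obtain ⟨D, hD⟩ := exists_datOd2 hL h2 ho hM hr
  obtain ⟨hell, hj⟩ := hE.j_eq
  obtain ⟨d, C, C', hd, hC, hC'⟩ := TTS.exists_Ws E hj
  obtain ⟨Ψ⟩ := D.exists_psi
  exact TRZ.modTwo_K hD Ψ hd ((TRZ.cl_iff hD hd C).1 (hC ▸ hE)) hC hC'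

/-- the density theorem over `M` -/
theorem gen_density :
    (∀ X : ℕ, (cmFamily M X fun _ => True).Finite) ∧
    Tendsto (fun X : ℕ => (cmFamily M X GenCurve).ncard) atTop atTop ∧
    Tendsto (fun X : ℕ => ((cmFamily M X GenCurve).ncard : ℝ) / ((cmFamily M X fun _ => True).ncard : ℝ)) atTop
      (𝓝 ((1 - 1 / (6 - 2 / 2 ^ Module.finrank ℚ L)) ^ 2)) ∧
    Tendsto (fun X : ℕ => ((cmFamily M X fun E => GenCurve E ∧ FiniteSha E).ncard : ℝ) /
      ((cmFamily M X GenCurve).ncard : ℝ)) atTop (𝓝 (∏' k : ℕ, (1 - 1 / 2 ^ (k + 1)))) := by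
  have : IsTotallyReal L := hL.real
  obtain ⟨D, hD⟩ := exists_datOd2 hL h2 ho hM hr
  have hAl : ∀ d : M, d ≠ 0 → ∀ C : WeierstrassCurve.VariableChange M, GenCurve (C • TTS.Ws d) ↔ ∀ t, TRZ.Nsq D t d :=
    fun d hd C => TRZ.cl_iff hD hd C
  obtain ⟨-, h1, h2⟩ := TRZ.all2_density hD hAl
  obtain ⟨h3, h4⟩ := TRZ.all2_prop hD hAl
  exact ⟨h3, h1, h4, h2⟩

end

end XTB
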