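import Pool.Agent.TRP.FamD

/-! # [ALL2] the class of the curves of the final statement: definition -/

set_option autoImplicit false

open NumberField IsDedekindDomain
open scoped Classical

namespace XTB

section
variable {K : Type} [Field K] [NumberField K]

/-- `E` is an elliptic curve over `K` with `j`-invariant `-3375` (complex multiplication by the ring of integers of
`ℚ(√-7)`) which at each prime ideal `P` above `2` has bad reduction or is isomorphic to
`X₀(49) : y² + x y = x³ - x² - 2 x - 1` over the completion. -/
structure GenCurve (E : WeierstrassCurve K) : Prop where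
  j_eq : ∃ _ : E.IsElliptic, E.j = -3375
  two : ∀ P : HeightOneSpectrum (𝓞 K), (2 : 𝓞 K) ∈ P.asIdeal → XTS.GoodReduction E P →
    ∃ C : WeierstrassCurve.VariableChange (P.adicCompletion K),
      C • E.map (algebraMap K (P.adicCompletion K)) = ⟨1, -1, 0, -2, -1⟩

end

end XTB
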