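import Pool.Agent.TRZ.C5

/-! # [ALL2-C] the period: the theorem -/

set_option autoImplicit false
set_option linter.unusedSectionVars false

open NumberField Ideal IsDedekindDomain
open scoped Real Classical ComplexConjugate
open TR TRG TRP TTS TU TT

namespace TRZ

theorem c6_ws_ne {F : Type} [Field F] [CharZero F] {δ : F} (hδ : δ ≠ 0) : (Ws δ).Δ ≠ 0 := by
  have hMδ : (0 : F) ^ 2 + 4 * (δ / 4) = δ := by ring
  obtain ⟨C2, hC2, -⟩ := Wc_eq_Ws (0 : F) (δ / 4)
  rw [hMδ] at hC2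
  intro h0
  have h1 : (TT.Wc (0 : F) (δ / 4)).Δ ≠ 0 := by
    rw [TT.Wc_Δ]
    refine mul_ne_zero (by norm_num) (pow_ne_zero _ ?_)
    rw [hMδ]
    exact hδ
  apply h1
  rw [hC2, WeierstrassCurve.variableChange_Δ, h0, mul_zero]

theorem c6_map {F K : Type} [Field F] [Field K] (φ : F →+* K) (δ : F) : (Ws δ).map φ = Ws (φ δ) := by
  have h35 : φ 35 = 35 := map_ofNat φ 35
  have h98 : φ 98 = 98 := map_ofNat φ 98
  unfold Ws WeierstrassCurve.map
  ext <;> simp [h35, h98]

theorem c6_two_pow (a : ℤ) : padicValRat 2 ((2 : ℚ) ^ a) = a := by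
  have : Fact (Nat.Prime 2) := ⟨Nat.prime_two⟩
  rw [padicValRat.zpow]
  have h : padicValRat 2 (2 : ℚ) = 1 := by
    have := padicValRat.self (p := 2) (by norm_num)
    exact_mod_cast this
  rw [h, mul_one]

section
variable {L M : Type} [Field L] [NumberField L] [Field M] [NumberField M] [Algebra L M]
  [IsTotallyReal L] {D : Dat L M}
  {s : Bool} {d : M} {T : Finset (HeightOneSpectrum (𝓞 M))} {z : HeightOneSpectrum (𝓞 M) → 𝓞 M} {ε : (𝓞 L)ˣ} {i j : Bool}
  (H : DK D s d T z ε i j)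
include H

theorem DK.NN_pos : 0 < NN (L := L) T i j := by
  unfold NN
  have h : 0 < ∏ P ∈ T, absNorm P.asIdeal := by
    refine Finset.prod_pos fun P hP => ?_
    exact (TRB.f1_odd_norm (H.two P hP)).pos
  positivity

omit H in
/-- [C] **the period** -/
theorem period_K (hD : Od2 D) (H : DK D s d T z ε i j) (C : WeierstrassCurve.VariableChange M) :
    ∃ q : ℚ, 0 < q ∧ padicValRat 2 q = -(Module.finrank ℚ L * nr (cd D s T z ε) (ε : 𝓞 L) i j : ℤ) ∧
      SBSD.period (C • TTS.Ws d) * √((NN (L := L) T i j : ℕ) : ℝ) =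
        (q : ℝ) * √7 ^ Module.finrank ℚ L * TRS.Om ^ (2 * Module.finrank ℚ L) := by
  have : Fact (Nat.Prime 2) := ⟨Nat.prime_two⟩
  have D' := TRB.ofTR D
  have hMc : IsTotallyComplex M := D'.isTotallyComplex
  obtain ⟨x, hx, hd⟩ := H.dlt_eq
  obtain ⟨B, hB, hn⟩ := H.norm_delta
  set g := Module.finrank ℚ L with hg
  set R1 := Rm (cd D s T z ε) i with hR1
  set R2 := Rm (ε : 𝓞 L) j with hR2
  set δ : M := (dlt D s T z ε i j : M) with hδ
  set u : M := (uK D s R1 R2 : M) with hu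
  have hu0 : u ≠ 0 := uK_ne s _ _
  have hδ0 : δ ≠ 0 := H.dlt_ne
  set C0 : WeierstrassCurve.VariableChange M := ⟨Units.mk0 u hu0, 0, 0, 0⟩ with hC0
  have hΔ : (Ws δ).Δ ≠ 0 := c6_ws_ne hδ0
  have hNpos : (0 : ℝ) < (NN (L := L) T i j : ℝ) := by exact_mod_cast H.NN_pos
  have hBpos : (0 : ℝ) < (B : ℝ) := by
    have : 0 < B := hB.pos
    exact_mod_cast this
  -- the products over the places
  have hpδ : ∏ w : InfinitePlace M, w δ = √(NN (L := L) T i j : ℝ) * B := by
    have h1 := TRH.prod_places D' (x := dlt D s T z ε i j) hn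
    rw [hδ, h1]
    push_cast
    rw [Real.sqrt_mul (by positivity), Real.sqrt_sq (by positivity)]
  have hpu : (∏ w : InfinitePlace M, w u) ^ 2 = 2 ^ (g * ((if R1 then 0 else 1) + (if R2 then 0 else 1))) := by
    have h1 := TRH.prod_places D' (x := uK D s R1 R2) (uK_norm s R1 R2)
    rw [hu, h1, Real.sq_sqrt (by positivity)]
    push_cast
    rfl
  -- the finite places
  obtain ⟨q, hq, hv, hneron⟩ := TW.neron_unit M (C0 • Ws δ) (fun P hP => H.neron_one hD hP)
  -- the infinite places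
  have harch : ∏ w : InfinitePlace M, SBSD.archPeriod (C0 • Ws δ) w =
      2 ^ (g * ((if R1 then 0 else 1) + (if R2 then 0 else 1))) *
        (√7 ^ g * TRS.Om ^ (2 * g) / (4 ^ g * (√(NN (L := L) T i j : ℝ) * B))) := by
    have h5 : ∀ w : InfinitePlace M, SBSD.archPeriod (C0 • Ws δ) w =
        w u ^ 2 * (√7 * TRS.Om ^ 2 / (4 * w δ)) := by
      intro w
      have hw : ¬ w.IsReal := InfinitePlace.not_isReal_iff_isComplex.2 (IsTotallyComplex.isComplex w)
      rw [archPeriod_smul, InfinitePlace.mult_isComplex ⟨w, IsTotallyComplex.isComplex w⟩]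
      congr 1
      have hmap : (Ws δ).map w.embedding = Ws (w.embedding δ) := c6_map _ _
      unfold SBSD.archPeriod
      rw [dif_neg hw, hmap, complexArea_Ws ((map_ne_zero _).2 hδ0), InfinitePlace.norm_embedding_eq]
    rw [Finset.prod_congr rfl fun w _ => h5 w, Finset.prod_mul_distrib, Finset.prod_pow, hpu, Finset.prod_div_distrib,
      Finset.prod_mul_distrib (f := fun _ : InfinitePlace M => (4 : ℝ)), hpδ, Finset.prod_const, Finset.prod_const, Finset.card_univ,
      TRB.p6_card D', mul_pow, ← pow_mul]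
  obtain ⟨C1, hC1, -⟩ := TTS.Ws_scale (d := δ) hx
  have h7 : C • Ws d = (C * C1 * C0⁻¹) • (C0 • Ws δ) := by
    rw [mul_smul, inv_smul_smul, mul_smul, ← hC1, ← hd]
  have hΔ' : (C0 • Ws δ).Δ ≠ 0 := by
    rw [WeierstrassCurve.variableChange_Δ]
    exact mul_ne_zero (pow_ne_zero _ (Units.ne_zero _)) hΔ
  have hBq : (0 : ℚ) < B := by exact_mod_cast hB.pos
  have hBv : padicValRat 2 (B : ℚ) = 0 := by
    rw [padicValRat.of_nat, padicValNat.eq_zero_of_not_dvd hB.not_two_dvd_nat]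
    rfl
  have hnr : nr (cd D s T z ε) (ε : 𝓞 L) i j + ((if R1 then 0 else 1) + (if R2 then 0 else 1)) = 2 := by
    unfold nr
    rw [← hR1, ← hR2]
    split_ifs <;> rfl
  refine ⟨q * 2 ^ (g * ((if R1 then 0 else 1) + (if R2 then 0 else 1))) / (2 ^ (g * 2) * B), by positivity, ?_, ?_⟩
  · rw [padicValRat.div (by positivity) (by positivity), padicValRat.mul hq.ne' (by positivity), padicValRat.mul (by positivity) hBq.ne',
      hv, hBv]
    have e1 := c6_two_pow ((g * ((if R1 then 0 else 1) + (if R2 then 0 else 1)) : ℕ) : ℤ)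
    have e2 := c6_two_pow ((g * 2 : ℕ) : ℤ)
    rw [zpow_natCast] at e1 e2
    rw [e1, e2, ← hnr]
    push_cast
    ring
  · rw [h7, period_smul _ hΔ', SBSD.period, hneron, harch]
    have h4 : (4 : ℝ) ^ g = 2 ^ (g * 2) := by
      rw [mul_comm, pow_mul]
      norm_num
    have hsN : 0 < √(NN (L := L) T i j : ℝ) := Real.sqrt_pos.2 hNpos
    rw [h4]
    push_cast
    field_simp

end

end TRZ
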