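import Pool.Agent.TRZ.X1
import Pool.Agent.TRZ.T1
import Pool.Agent.TRZ.Defs2
import Pool.Agent.TRP.G2a

/-! # [ALL2-H2a] the Hecke series of the curve: analytic continuation -/

set_option autoImplicit false
set_option linter.unusedSectionVars false

open NumberField Ideal IsDedekindDomain
open scoped Real Classical ComplexConjugate
open TR TRG TRP TTS TU TT

namespace TRZ

section
variable {L M : Type} [Field L] [NumberField L] [Field M] [NumberField M] [Algebra L M]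
  [IsTotallyReal L] {D : Dat L M}

/-- trivial or a primitive quadratic character -/
def H2Gd (f : 𝓞 L → ℤ) : Prop := (∃ k, Kp k f) ∨ f = fun _ => 1

theorem H2Gd.mul {f : 𝓞 L → ℤ} (h : H2Gd f) (x y : 𝓞 L) : f (x * y) = f x * f y := by
  rcases h with ⟨k, hk⟩ | rfl
  · exact hk.mul x y
  · exact (mul_one _).symm

theorem H2Gd.per {f : 𝓞 L → ℤ} (h : H2Gd f) {x y : 𝓞 L} (hxy : x - y ∈ span {(8 : 𝓞 L)}) : f x = f y := by
  rcases h with ⟨k, hk⟩ | rfl
  · exact x1_kp_per hk hxy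
  · rfl

/-- the sign of `x` -/
noncomputable def h2S (D : Dat L M) (s : Bool) (T : Finset (HeightOneSpectrum (𝓞 M))) (f f' : 𝓞 L → ℤ) (x : 𝓞 M) : ℤ :=
  (∏ P ∈ T, TT.qr P x) * f (rd8 D (!s) x) * f' (rd8 D s x)

theorem h2_two_mem (D : Dat L M) (s : Bool) : (2 : 𝓞 M) ∈ span {p2 D s} :=
  Ideal.mem_span_singleton'.2 ⟨p1 D s, x_mul D s⟩

theorem h2_p2_not (D : Dat L M) (s : Bool) : p2 D (!s) = p1 D s := by
  unfold p2
  rw [Bool.not_not]

variable (hD : Od2 D)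
include hD

theorem h2_not_le (s : Bool) {I : Ideal (𝓞 M)} (hI : Odd (absNorm I)) : ¬ I ≤ span {p2 D s} := by
  intro h
  have h1 : ((absNorm I : ℕ) : 𝓞 M) ∈ span {p2 D s} := h (absNorm_mem I)
  have h2 := h2_two_mem D s
  obtain ⟨k, hk⟩ := hI
  apply (x_prime hD s).ne_top
  rw [Ideal.eq_top_iff_one]
  have h3 : (1 : 𝓞 M) = ((absNorm I : ℕ) : 𝓞 M) - 2 * (k : 𝓞 M) := by
    rw [hk]
    push_cast
    ring
  rw [h3]
  exact Ideal.sub_mem _ h1 (Ideal.mul_mem_right _ _ h2)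

theorem h2S_mul {s : Bool} {T : Finset (HeightOneSpectrum (𝓞 M))} (h2 : ∀ P ∈ T, (2 : 𝓞 M) ∉ P.asIdeal) {f f' : 𝓞 L → ℤ}
    (hf : H2Gd f) (hf' : H2Gd f') (x y : 𝓞 M) : h2S D s T f f' (x * y) = h2S D s T f f' x * h2S D s T f f' y := by
  unfold h2S
  rw [hf.per (rd8_mul hD (!s) x y), hf'.per (rd8_mul hD s x y), hf.mul, hf'.mul,
    Finset.prod_congr rfl fun P hP => TT.qr_mul P (h2 P hP) x y, Finset.prod_mul_distrib]
  ring

section
variable {s : Bool} {T : Finset (HeightOneSpectrum (𝓞 M))} {f f' : 𝓞 L → ℤ} {Φ : Ideal (𝓞 M) →*₀ ℂ}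

omit hD in
/-- the character vanishes at an ideal if the sign vanishes at the generators of a power -/
theorem h2_zero (hΦ : PhiK D s T f f' Φ) {I J : Ideal (𝓞 M)} (hIJ : I ≤ J) (h : ∀ x ∈ J, h2S D s T f f' x = 0) : Φ I = 0 := by
  by_cases hI0 : I = ⊥
  · rw [hI0, ← Ideal.zero_eq_bot, map_zero]
  obtain ⟨x, hx0, hx⟩ := g2_gen hI0
  have h1 : x ∈ J := by
    rw [← Ideal.span_singleton_le_iff_mem, ← hx]
    exact (Ideal.pow_le_self (classNumber_pos M).ne').trans hIJ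
  have h2 : Φ I ^ classNumber M = 0 := by
    rw [← map_pow, hx, hΦ.span_eq x hx0]
    have h3 := h x h1
    unfold h2S at h3
    rw [h3, Int.cast_zero, mul_zero]
  exact pow_eq_zero_iff (classNumber_pos M).ne' |>.1 h2

theorem h2_norm_le (hf : H2Gd f) (hf' : H2Gd f') (hΦ : PhiK D s T f f' Φ) (I : Ideal (𝓞 M)) : ‖Φ I‖ ^ 2 ≤ absNorm I := by
  have hz : Φ I = 0 → ‖Φ I‖ ^ 2 ≤ absNorm I := by
    intro h
    rw [h, norm_zero, zero_pow two_ne_zero]
    exact Nat.cast_nonneg _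
  by_cases hI0 : I = ⊥
  · exact hz (by rw [hI0, ← Ideal.zero_eq_bot, map_zero])
  by_cases h : ∀ P ∈ T, ¬ I ≤ P.asIdeal
  · by_cases h1 : (f = fun _ => 1) ∨ ¬ I ≤ span {p1 D s}
    · by_cases h2 : (f' = fun _ => 1) ∨ ¬ I ≤ span {p2 D s}
      · exact (hΦ.norm_eq I hI0 h h1 h2).le
      · push Not at h2
        obtain ⟨h3, h4⟩ := h2
        obtain ⟨k, hk⟩ := hf'.resolve_right h3
        refine hz (h2_zero hΦ h4 fun x hx => ?_)
        unfold h2S
        rw [(hk.zero _).2 ((rd8_even hD s x).2 hx), mul_zero]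
    · push Not at h1
      obtain ⟨h3, h4⟩ := h1
      obtain ⟨k, hk⟩ := hf.resolve_right h3
      rw [← h2_p2_not] at h4
      refine hz (h2_zero hΦ h4 fun x hx => ?_)
      unfold h2S
      rw [(hk.zero _).2 ((rd8_even hD (!s) x).2 hx), mul_zero, zero_mul]
  · push Not at h
    obtain ⟨P, hP, hIP⟩ := h
    refine hz (h2_zero hΦ hIP fun x hx => ?_)
    unfold h2S
    rw [Finset.prod_eq_zero hP ((TT.qr_eq_zero P).2 hx), zero_mul, zero_mul]

omit hD in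
theorem h2_unit (hΦ : PhiK D s T f f' Φ) (u : (𝓞 L)ˣ) :
    h2S D s T f f' (algebraMap (𝓞 L) (𝓞 M) (u : 𝓞 L)) = Algebra.norm ℤ (u : 𝓞 L) := by
  have hu : IsUnit (algebraMap (𝓞 L) (𝓞 M) (u : 𝓞 L)) := u.isUnit.map _
  have h1 := hΦ.span_eq _ hu.ne_zero
  rw [Ideal.span_singleton_eq_top.2 hu, ← Ideal.one_eq_top, map_one, g2_NK_alg] at h1
  have h2 : (1 : ℤ) = Algebra.norm ℤ (u : 𝓞 L) * h2S D s T f f' (algebraMap (𝓞 L) (𝓞 M) (u : 𝓞 L)) := by
    unfold h2S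
    exact_mod_cast h1
  rcases Int.isUnit_iff.1 (u.isUnit.map (Algebra.norm ℤ)) with h | h
  · rw [h] at h2 ⊢
    linarith
  · rw [h] at h2 ⊢
    linarith

theorem h2_OW (h2 : ∀ P ∈ T, (2 : 𝓞 M) ∉ P.asIdeal) (hf : H2Gd f) (hf' : H2Gd f') (hΦ : PhiK D s T f f' Φ)
    {J : Ideal (𝓞 M)} {n : ℕ} (hn : 0 < n) (h8 : 8 ∣ n)
    (hSn : ∀ P ∈ T, absNorm P.asIdeal ∣ n) (hJn : absNorm J ∣ n) :
    OW n (fun x => if x ∈ D.Lb J then h2S D s T f f' (D.omMap x) * 1 else 0) where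
  pos := hn
  per x y := by
    have h1 : D.omMap (x + (n : 𝓞 L) • y) = D.omMap x + ((n : ℕ) : 𝓞 M) * D.omMap y := by
      rw [map_add, map_smul, Algebra.smul_def, map_natCast]
    have h2 : ∀ I : Ideal (𝓞 M), absNorm I ∣ n → ((n : ℕ) : 𝓞 M) * D.omMap y ∈ I := by
      rintro I ⟨k, hk⟩
      rw [hk, Nat.cast_mul, mul_assoc]
      exact I.mul_mem_right _ (absNorm_mem I)
    have h3 : x + (n : 𝓞 L) • y ∈ D.Lb J ↔ x ∈ D.Lb J := by
      show D.omMap (x + (n : 𝓞 L) • y) ∈ J ↔ D.omMap x ∈ J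
      rw [h1]
      exact J.add_mem_iff_left (h2 J hJn)
    have h4 : ∏ P ∈ T, TT.qr P (D.omMap (x + (n : 𝓞 L) • y)) = ∏ P ∈ T, TT.qr P (D.omMap x) := by
      refine Finset.prod_congr rfl fun P hP => ?_
      rw [h1]
      refine TT.qr_congr P ?_
      rw [add_sub_cancel_left]
      exact h2 _ (hSn P hP)
    have h5 : ∀ s' : Bool, rd8 D s' (D.omMap (x + (n : 𝓞 L) • y)) - rd8 D s' (D.omMap x) ∈ span {(8 : 𝓞 L)} := by
      intro s'
      obtain ⟨k, hk⟩ := h8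
      rw [rd8_om hD, rd8_om hD]
      refine Ideal.mem_span_singleton'.2 ⟨(k : 𝓞 L) * lf (lb8 s') y, ?_⟩
      unfold lf
      show _ = ((lb8 s').1 : 𝓞 L) * (x.1 + (n : 𝓞 L) * y.1) + ((lb8 s').2 : 𝓞 L) * (x.2 + (n : 𝓞 L) * y.2) - _
      rw [hk]
      push_cast
      ring
    have h6 : h2S D s T f f' (D.omMap (x + (n : 𝓞 L) • y)) = h2S D s T f f' (D.omMap x) := by
      unfold h2S
      rw [h4, hf.per (h5 (!s)), hf'.per (h5 s)]
    simp only [h3, h6]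
  unit u x := by
    have h1 : D.omMap ((u : 𝓞 L) • x) = algebraMap (𝓞 L) (𝓞 M) u * D.omMap x := by
      rw [map_smul, Algebra.smul_def]
    have hu : IsUnit (algebraMap (𝓞 L) (𝓞 M) (u : 𝓞 L)) := u.isUnit.map _
    obtain ⟨v, hv⟩ := hu
    have h3 : (u : 𝓞 L) • x ∈ D.Lb J ↔ x ∈ D.Lb J := by
      show D.omMap ((u : 𝓞 L) • x) ∈ J ↔ D.omMap x ∈ J
      rw [h1, ← hv]
      constructor
      · intro h2
        have h4 := J.mul_mem_left (((v⁻¹ : (𝓞 M)ˣ)) : 𝓞 M) h2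
        rwa [← mul_assoc, Units.inv_mul, one_mul] at h4
      · intro h2
        exact J.mul_mem_left _ h2
    have h4 : h2S D s T f f' (D.omMap ((u : 𝓞 L) • x)) =
        Algebra.norm ℤ (u : 𝓞 L) * h2S D s T f f' (D.omMap x) := by
      rw [h1, h2S_mul hD h2 hf hf', h2_unit hΦ]
    simp only [h3, h4]
    split_ifs
    · ring
    · ring

theorem h2_hch (hf : H2Gd f) (hf' : H2Gd f') (hΦ : PhiK D s T f f' Φ) :
    HCh D Φ (fun x => h2S D s T f f' (D.omMap x)) where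
  span_eq x := by
    have e : z1_m D x = D.omMap x := (a1_omMap (D := D) x).symm
    rw [e]
    by_cases hx : D.omMap x = 0
    · have h1 := D.absNorm_span (0 : 𝓞 M)
      rw [Ideal.span_singleton_eq_bot.2 rfl, Ideal.absNorm_bot, Nat.cast_zero] at h1
      have h2 : D.NK ((0 : 𝓞 M) : M) = 0 := by
        have h3 := pow_eq_zero_iff two_ne_zero |>.1 h1.symm
        exact norm_eq_zero.1 h3
      rw [hx, Ideal.span_singleton_eq_bot.2 rfl, ← Ideal.zero_eq_bot, map_zero, h2, mul_zero]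
    · rw [hΦ.span_eq _ hx, mul_comm]
      rfl
  norm_le := h2_norm_le hD hf hf' hΦ

/-- the continuation for arbitrary local characters -/
theorem h2_main (h2 : ∀ P ∈ T, (2 : 𝓞 M) ∉ P.asIdeal) (hf : H2Gd f) (hf' : H2Gd f') (hΦ : PhiK D s T f f' Φ) :
    ∃ Z : ℂ → ℂ, Differentiable ℂ Z ∧
      ∀ t : ℂ, 3 / 2 < t.re → Z t = ∑' I : Ideal (𝓞 M), conj (Φ I) * (absNorm I : ℂ) ^ (-t) := by
  have hpos : 0 < ∏ P ∈ T, absNorm P.asIdeal := Finset.prod_pos fun P _ => absNorm_pos P.ne_bot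
  obtain ⟨J⟩ := exists_goodReps M D.hodd hpos
  have hJS : ∀ k, ∀ P ∈ T, ¬ J.r k ≤ P.asIdeal := by
    intro k P hP
    refine not_le_of_cop (Nat.Coprime.coprime_dvd_right ?_ (J.cop k))
    exact Dvd.dvd.mul_left (Finset.dvd_prod_of_mem (fun P : HeightOneSpectrum (𝓞 M) => absNorm P.asIdeal) hP) 14
  have hodd : ∀ k, Odd (absNorm (J.r k)) := fun k =>
    Nat.coprime_two_right.1 (Nat.Coprime.coprime_dvd_right (Dvd.intro (7 * _) (by ring)) (J.cop k))
  have hrn : ∀ k, Φ (J.r k) * conj (Φ (J.r k)) = (absNorm (J.r k) : ℂ) := by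
    intro k
    have h1 := hΦ.norm_eq (J.r k) (J.ne k) (hJS k)
      (Or.inr (by rw [← h2_p2_not]; exact h2_not_le hD (!s) (hodd k))) (Or.inr (h2_not_le hD s (hodd k)))
    rw [Complex.mul_conj, Complex.normSq_eq_norm_sq, h1]
    push_cast
    rfl
  obtain ⟨Z, hZ, hZs⟩ := exists_LW' (h2_hch hD hf hf' hΦ) hD.odd (w := fun _ => 1) (B := 1) (fun I => by simp) J.r J.ne hrn J.bij
    (g := fun _ _ => 1) (fun k I x hx hI => rfl)
    (n := fun k => 8 * (absNorm (J.r k) * ∏ P ∈ T, absNorm P.asIdeal))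
    (fun k => h2_OW hD h2 hf hf' hΦ (Nat.mul_pos (by norm_num) (Nat.mul_pos (absNorm_pos (J.ne k)) hpos)) (Dvd.intro _ rfl)
      (fun P hP => Dvd.dvd.mul_left (Dvd.dvd.mul_left
        (Finset.dvd_prod_of_mem (fun P : HeightOneSpectrum (𝓞 M) => absNorm P.asIdeal) hP) _) _)
      (Dvd.dvd.mul_left (Dvd.intro _ rfl) _))
  refine ⟨Z, hZ, fun s hs => ?_⟩
  rw [hZs s hs]
  exact tsum_congr fun I => by simp

end

theorem h2_gd {c : 𝓞 L} (hc : c ∉ span {(2 : 𝓞 L)}) (i : Bool) : H2Gd (kp c i) := by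
  by_cases h : Rm c i
  · exact Or.inl ⟨_, kp_kp hD hc h⟩
  · exact Or.inr (kp_one hD h)

theorem h2_ng_not (s : Bool) {P : HeightOneSpectrum (𝓞 M)} (h2 : (2 : 𝓞 M) ∉ P.asIdeal) {q : 𝓞 M}
    {s' : Bool} (hq : NG D s' P q) : q ∉ span {p2 D s} := by
  intro hmem
  obtain ⟨k, -, hk⟩ := hq.gen
  have hpr := x_prime hD s
  have h1 : P.asIdeal ^ k ≤ span {p2 D s} := by
    rw [← hk, Ideal.span_singleton_le_iff_mem]
    exact hmem
  have h3 : P.asIdeal ≤ span {p2 D s} := hpr.le_of_pow_le h1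
  have h4 : P.asIdeal = span {p2 D s} := P.isMaximal.eq_of_le hpr.ne_top h3
  apply h2
  rw [h4]
  exact h2_two_mem D s

section
variable {s : Bool} {d : M} {T : Finset (HeightOneSpectrum (𝓞 M))} {z : HeightOneSpectrum (𝓞 M) → 𝓞 M} {ε : (𝓞 L)ˣ} {i j : Bool}
  (H : DK D s d T z ε i j)
include H

theorem h2_cd_not : cd D s T z ε ∉ span {(2 : 𝓞 L)} := by
  unfold cd
  rw [rd8_even hD (!s)]
  intro hmem
  have hpr := x_prime hD (!s)
  rcases hpr.mem_or_mem hmem with h | h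
  · rw [neg_mem_iff] at h
    exact hpr.ne_top (Ideal.eq_top_of_isUnit_mem _ h (ε.isUnit.map _))
  · have h1 : ∀ S ⊆ T, ∏ P ∈ S, z P ∉ span {p2 D (!s)} := by
      intro S
      induction S using Finset.induction_on with
      | empty =>
        intro _ h2
        rw [Finset.prod_empty] at h2
        exact hpr.ne_top ((Ideal.eq_top_iff_one _).2 h2)
      | insert P S hP ih =>
        intro hS h2
        rw [Finset.prod_insert hP] at h2
        have hPT : P ∈ T := hS (Finset.mem_insert_self _ _)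
        rcases hpr.mem_or_mem h2 with h3 | h3
        · exact h2_ng_not hD (!s) (H.two P hPT) (H.ng P hPT) h3
        · exact ih (fun Q hQ => hS (Finset.mem_insert_of_mem hQ)) h3
    exact h1 T (Finset.Subset.refl T) h

/-- [H2a] (port of `exists_ZT`; no removal of Euler factors is needed) -/
theorem exists_ZK {Φ : Ideal (𝓞 M) →*₀ ℂ} (hΦ : PhiK D s T (kp (cd D s T z ε) i) (kp (ε : 𝓞 L) j) Φ) :
    ∃ Z : ℂ → ℂ, Differentiable ℂ Z ∧
      ∀ t : ℂ, 3 / 2 < t.re → Z t = ∑' I : Ideal (𝓞 M), conj (Φ I) * (absNorm I : ℂ) ^ (-t) :=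
  h2_main hD H.two (h2_gd hD (h2_cd_not hD H) i)
    (h2_gd hD (fun h => hD.two.ne_top (Ideal.eq_top_of_isUnit_mem _ h ε.isUnit)) j) hΦ

end

end

end TRZ
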