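import Pool.Agent.TRZ.H3a

/-! # [ALL2-H3] rationality of the value -/

set_option autoImplicit false
set_option linter.unusedSectionVars false

open NumberField Ideal IsDedekindDomain
open scoped Real Classical ComplexConjugate
open TR TRG TRP TTS TU TT

namespace TRZ

theorem h3_ee_half : ee (1 / 2) = -1 := by
  unfold ee
  rw [show 2 * (π : ℂ) * Complex.I * (1 / 2) = π * Complex.I by ring, Complex.exp_pi_mul_I]

theorem h3_ee_quarter : ee (1 / 4) = Complex.I := by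
  unfold ee
  rw [show 2 * (π : ℂ) * Complex.I * (1 / 4) = ((π / 2 : ℝ) : ℂ) * Complex.I by push_cast; ring, Complex.exp_mul_I,
    ← Complex.ofReal_cos, ← Complex.ofReal_sin, Real.cos_pi_div_two, Real.sin_pi_div_two]
  simp

theorem h3_sqrt_two : ((√2 : ℝ) : ℂ) = ee (1 / 8) + ee (-(1 / 8)) := by
  unfold ee
  rw [show 2 * (π : ℂ) * Complex.I * (1 / 8) = ((π / 4 : ℝ) : ℂ) * Complex.I by push_cast; ring,
    show 2 * (π : ℂ) * Complex.I * (-(1 / 8)) = ((-(π / 4) : ℝ) : ℂ) * Complex.I by push_cast; ring, Complex.exp_mul_I,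
    Complex.exp_mul_I, ← Complex.ofReal_cos, ← Complex.ofReal_sin, ← Complex.ofReal_cos, ← Complex.ofReal_sin, Real.cos_neg,
    Real.sin_neg, Real.cos_pi_div_four]
  push_cast
  ring

/-- `χ₄`, `χ₈` of an odd integer -/
theorem h3_x4 {t : ℤ} (ht : t % 2 = 1) : (t % 4 = 1 ∧ ZMod.χ₄ (t : ZMod 4) = 1) ∨ (t % 4 = 3 ∧ ZMod.χ₄ (t : ZMod 4) = -1) := by
  have h : t % 4 = 1 ∨ t % 4 = 3 := by omega
  rcases h with h | h
  · exact Or.inl ⟨h, by rw [ZMod.χ₄_int_eq_if_mod_four, if_neg (by omega), if_pos h]⟩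
  · exact Or.inr ⟨h, by rw [ZMod.χ₄_int_eq_if_mod_four, if_neg (by omega), if_neg (by omega)]⟩

theorem h3_x8 {t : ℤ} (ht : t % 2 = 1) : ((t % 8 = 1 ∨ t % 8 = 7) ∧ ZMod.χ₈ (t : ZMod 8) = 1) ∨
    ((t % 8 = 3 ∨ t % 8 = 5) ∧ ZMod.χ₈ (t : ZMod 8) = -1) := by
  have h : (t % 8 = 1 ∨ t % 8 = 7) ∨ (t % 8 = 3 ∨ t % 8 = 5) := by omega
  rcases h with h | h
  · exact Or.inl ⟨h, by rw [ZMod.χ₈_int_eq_if_mod_eight, if_neg (by omega), if_pos h]⟩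
  · exact Or.inr ⟨h, by rw [ZMod.χ₈_int_eq_if_mod_eight, if_neg (by omega), if_neg (by omega)]⟩

/-- the Galois action on `i` -/
theorem h3_I (σ : ℂ ≃+* ℂ) {m : ℕ} (hm : 0 < m) (h4 : 4 ∣ m) {t : ℤ} (ht : t % 2 = 1)
    (hσ : σ (ee (1 / (m : ℂ))) = ee ((t : ℂ) / (m : ℂ))) :
    σ Complex.I = ((ZMod.χ₄ (t : ZMod 4) : ℤ) : ℂ) * Complex.I := by
  obtain ⟨k, hk⟩ := h4
  have hk0 : (k : ℂ) ≠ 0 := by
    rw [Nat.cast_ne_zero]
    rintro rfl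
    omega
  have h1 := TRS.sigma_ee σ hσ (k : ℤ)
  have e1 : (((k : ℤ) : ℂ) / ((m : ℕ) : ℂ)) = 1 / 4 := by
    rw [hk]
    push_cast
    field_simp
  have e2 : (((t * (k : ℤ) : ℤ) : ℂ) / ((m : ℕ) : ℂ)) = (t : ℂ) / 4 := by
    rw [hk]
    push_cast
    field_simp
  rw [e1, e2, h3_ee_quarter] at h1
  rw [h1]
  rcases h3_x4 ht with ⟨h, hx⟩ | ⟨h, hx⟩
  · rw [hx]
    have e3 : (t : ℂ) / 4 = 1 / 4 + ((t / 4 : ℤ) : ℂ) := by
      have e4 : t = 1 + 4 * (t / 4) := by omega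
      have e5 := congrArg (fun z : ℤ => (z : ℂ)) e4
      rw [e5]
      push_cast
      ring
    rw [e3, TRS.a18b_ee_add, h3_ee_quarter]
    push_cast
    ring
  · rw [hx]
    have e3 : (t : ℂ) / 4 = (1 / 4 + 1 / 2) + ((t / 4 : ℤ) : ℂ) := by
      have e4 : t = 3 + 4 * (t / 4) := by omega
      have e5 := congrArg (fun z : ℤ => (z : ℂ)) e4
      rw [e5]
      push_cast
      ring
    rw [e3, TRS.a18b_ee_add, v1_ee_add, h3_ee_quarter, h3_ee_half]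
    push_cast
    ring

/-- the Galois action on `√2` -/
theorem h3_sqrt2 (σ : ℂ ≃+* ℂ) {m : ℕ} (hm : 0 < m) (h8 : 8 ∣ m) {t : ℤ} (ht : t % 2 = 1)
    (hσ : σ (ee (1 / (m : ℂ))) = ee ((t : ℂ) / (m : ℂ))) :
    σ ((√2 : ℝ) : ℂ) = ((ZMod.χ₈ (t : ZMod 8) : ℤ) : ℂ) * ((√2 : ℝ) : ℂ) := by
  obtain ⟨k, hk⟩ := h8
  have hk0 : (k : ℂ) ≠ 0 := by
    rw [Nat.cast_ne_zero]
    rintro rfl
    omega
  have h1 := TRS.sigma_ee σ hσ (k : ℤ)
  have h1' := TRS.sigma_ee σ hσ (-(k : ℤ))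
  have e1 : (((k : ℤ) : ℂ) / ((m : ℕ) : ℂ)) = 1 / 8 := by
    rw [hk]
    push_cast
    field_simp
  have e1' : (((-(k : ℤ) : ℤ) : ℂ) / ((m : ℕ) : ℂ)) = -(1 / 8) := by
    rw [hk]
    push_cast
    field_simp
  have e2 : (((t * (k : ℤ) : ℤ) : ℂ) / ((m : ℕ) : ℂ)) = (t : ℂ) / 8 := by
    rw [hk]
    push_cast
    field_simp
  have e2' : (((t * (-(k : ℤ)) : ℤ) : ℂ) / ((m : ℕ) : ℂ)) = -((t : ℂ) / 8) := by
    rw [hk]
    push_cast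
    field_simp
  rw [e1, e2] at h1
  rw [e1', e2'] at h1'
  have hE : ∀ r : ℤ, t % 8 = r → ee ((t : ℂ) / 8) = ee ((r : ℂ) / 8) ∧ ee (-((t : ℂ) / 8)) = ee (-((r : ℂ) / 8)) := by
    intro r hr
    have e4 : t = r + 8 * (t / 8) := by omega
    have e5 := congrArg (fun z : ℤ => (z : ℂ)) e4
    constructor
    · have e3 : (t : ℂ) / 8 = (r : ℂ) / 8 + ((t / 8 : ℤ) : ℂ) := by
        rw [e5]
        push_cast
        ring
      rw [e3, TRS.a18b_ee_add]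
    · have e3 : -((t : ℂ) / 8) = -((r : ℂ) / 8) + ((-(t / 8) : ℤ) : ℂ) := by
        rw [e5]
        push_cast
        ring
      rw [e3, TRS.a18b_ee_add]
  have hneg : ee (-(1 / 2)) = -1 := by
    have h := TRS.a18b_ee_add (-(1 / 2)) 1
    rw [← h, Int.cast_one, show (-(1 / 2) + 1 : ℂ) = 1 / 2 by norm_num, h3_ee_half]
  rw [h3_sqrt_two, map_add, h1, h1']
  rcases h3_x8 ht with ⟨h | h, hx⟩ | ⟨h | h, hx⟩ <;> rw [hx, (hE _ h).1, (hE _ h).2] <;> push_cast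
  · rw [one_mul]
  · have a1 : (7 / 8 : ℂ) = -(1 / 8) + ((1 : ℤ) : ℂ) := by push_cast; norm_num
    have a2 : (-(7 / 8) : ℂ) = 1 / 8 + ((-1 : ℤ) : ℂ) := by push_cast; norm_num
    rw [a2, a1, TRS.a18b_ee_add, TRS.a18b_ee_add]
    ring
  · have a1 : (3 / 8 : ℂ) = 1 / 2 + -(1 / 8) := by norm_num
    have a2 : (-(3 / 8) : ℂ) = -(1 / 2) + 1 / 8 := by norm_num
    rw [a2, a1, v1_ee_add, v1_ee_add, h3_ee_half, hneg]
    ring
  · have a1 : (5 / 8 : ℂ) = 1 / 2 + 1 / 8 := by norm_num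
    have a2 : (-(5 / 8) : ℂ) = -(1 / 2) + -(1 / 8) := by norm_num
    rw [a2, a1, v1_ee_add, v1_ee_add, h3_ee_half, hneg]
    ring

/-- the Galois action on `√(7^g)`, `g` odd -/
theorem h3_s7 {g : ℕ} (hg : Odd g) {σ : ℂ ≃+* ℂ} {e : ℤ} (hI : σ Complex.I = (e : ℂ) * Complex.I)
    (hr : σ (Complex.I * (√7 : ℝ)) = Complex.I * (√7 : ℝ)) :
    σ ((√((7 ^ g : ℕ) : ℝ) : ℝ) : ℂ) = (e : ℂ) * ((√((7 ^ g : ℕ) : ℝ) : ℝ) : ℂ) := by
  obtain ⟨k, rfl⟩ := hg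
  have e1 : ((√((7 ^ (2 * k + 1) : ℕ) : ℝ) : ℝ) : ℂ) = 7 ^ k * ((√7 : ℝ) : ℂ) := by
    have e2 : √((7 ^ (2 * k + 1) : ℕ) : ℝ) = 7 ^ k * √7 := by
      push_cast
      rw [pow_succ, Real.sqrt_mul (by positivity), mul_comm 2 k, pow_mul, Real.sqrt_sq (by positivity)]
    rw [e2]
    push_cast
    rfl
  have h7 : σ ((√7 : ℝ) : ℂ) = (e : ℂ) * ((√7 : ℝ) : ℂ) := by
    have h1 : ((√7 : ℝ) : ℂ) = -(Complex.I * (Complex.I * ((√7 : ℝ) : ℂ))) := by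
      linear_combination ((√7 : ℝ) : ℂ) * Complex.I_sq
    calc σ ((√7 : ℝ) : ℂ) = -(σ Complex.I * σ (Complex.I * ((√7 : ℝ) : ℂ))) := by
          rw [← map_mul, ← map_neg, ← h1]
      _ = (e : ℂ) * ((√7 : ℝ) : ℂ) := by
          rw [hI, hr]
          linear_combination (-(e : ℂ) * ((√7 : ℝ) : ℂ)) * Complex.I_sq
  rw [e1, map_mul, map_pow, map_ofNat, h7]
  ring

/-- the Galois action on the power of `√2` -/
theorem h3_s2 {g : ℕ} (hg : Odd g) {σ : ℂ ≃+* ℂ} {e : ℤ} (he : e * e = 1) (h2 : σ ((√2 : ℝ) : ℂ) = (e : ℂ) * ((√2 : ℝ) : ℂ))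
    (i j : Bool) :
    σ ((√((2 ^ (g * ((if i then 1 else 0) + (if j then 1 else 0))) : ℕ) : ℝ) : ℝ) : ℂ) =
      (((if i then e else 1) * (if j then e else 1) : ℤ) : ℂ) *
        ((√((2 ^ (g * ((if i then 1 else 0) + (if j then 1 else 0))) : ℕ) : ℝ) : ℝ) : ℂ) := by
  have h1 : σ ((√((2 ^ g : ℕ) : ℝ) : ℝ) : ℂ) = (e : ℂ) * ((√((2 ^ g : ℕ) : ℝ) : ℝ) : ℂ) := by
    obtain ⟨k, rfl⟩ := hg
    have e1 : ((√((2 ^ (2 * k + 1) : ℕ) : ℝ) : ℝ) : ℂ) = 2 ^ k * ((√2 : ℝ) : ℂ) := by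
      have e2 : √((2 ^ (2 * k + 1) : ℕ) : ℝ) = 2 ^ k * √2 := by
        push_cast
        rw [pow_succ, Real.sqrt_mul (by positivity), mul_comm 2 k, pow_mul, Real.sqrt_sq (by positivity)]
      rw [e2]
      push_cast
      rfl
    rw [e1, map_mul, map_pow, map_ofNat, h2]
    ring
  cases i <;> cases j
  · simp
  · simpa using h1
  · simpa using h1
  · have h3 : ((√((2 ^ (g * ((if true then 1 else 0) + (if true then 1 else 0))) : ℕ) : ℝ) : ℝ) : ℂ) = ((2 ^ g : ℕ) : ℂ) := by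
      have h4 : √((2 ^ (g * ((if true then 1 else 0) + (if true then 1 else 0))) : ℕ) : ℝ) = ((2 ^ g : ℕ) : ℝ) := by
        have h5 : ((2 ^ (g * ((if true then 1 else 0) + (if true then 1 else 0))) : ℕ) : ℝ) = (((2 ^ g : ℕ) : ℝ)) ^ 2 := by
          push_cast
          rw [← pow_mul]
          rfl
        rw [h5, Real.sqrt_sq (Nat.cast_nonneg _)]
      rw [h4]
      push_cast
      rfl
    rw [h3, map_natCast]
    have h4 : (((if true then e else 1) * (if true then e else 1) : ℤ) : ℂ) = 1 := by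
      rw [if_pos rfl, he, Int.cast_one]
    rw [h4, one_mul]

section
variable {K : Type} [Field K] [NumberField K]

/-- the Galois action on `√∏ N P` -/
theorem h3_sT (T : Finset (HeightOneSpectrum (𝓞 K))) (h2 : ∀ v ∈ T, (2 : 𝓞 K) ∉ v.asIdeal)
    (σ : ℂ ≃+* ℂ) {N : ℕ} (hN : 0 < N) {s : ℤ}
    (hs : IsCoprime s (N : ℤ)) (hσ : σ (ee (1 / (N : ℂ))) = ee ((s : ℂ) / (N : ℂ)))
    (hv : ∀ v ∈ T, absNorm v.asIdeal ∣ N) {e : ℤ} (he : e * e = 1) (hI : σ Complex.I = (e : ℂ) * Complex.I) :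
    σ ((√((∏ v ∈ T, absNorm v.asIdeal : ℕ) : ℝ) : ℝ) : ℂ) =
      (((∏ v ∈ T, TT.qr v (s : 𝓞 K)) * (if (∏ v ∈ T, absNorm v.asIdeal) % 4 = 3 then e else 1) : ℤ) : ℂ) *
        ((√((∏ v ∈ T, absNorm v.asIdeal : ℕ) : ℝ) : ℝ) : ℂ) := by
  have h1 := f2_sqrt_prod T h2 σ hN hs hσ hv
  have hI2 : Complex.I * Complex.I = -1 := Complex.I_mul_I
  have heC : (e : ℂ) * (e : ℂ) = 1 := by exact_mod_cast he
  rcases f2_e_prod T h2 with ⟨h4, h5⟩ | ⟨h4, h5⟩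
  · rw [if_neg (by omega), mul_one]
    rcases h5 with h5 | h5 <;> rw [h5] at h1
    · rw [one_mul] at h1
      exact h1
    · rw [neg_one_mul, map_neg, mul_neg] at h1
      exact neg_injective h1
  · rw [if_pos h4]
    have h6 : σ (Complex.I * ((√((∏ v ∈ T, absNorm v.asIdeal : ℕ) : ℝ) : ℝ) : ℂ)) =
        ((∏ v ∈ T, TT.qr v (s : 𝓞 K) : ℤ) : ℂ) * (Complex.I * ((√((∏ v ∈ T, absNorm v.asIdeal : ℕ) : ℝ) : ℝ) : ℂ)) := by
      rcases h5 with h5 | h5 <;> rw [h5] at h1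
      · exact h1
      · rw [neg_mul, map_neg, mul_neg] at h1
        exact neg_injective h1
    rw [map_mul, hI] at h6
    rw [Int.cast_mul]
    generalize σ ((√((∏ v ∈ T, absNorm v.asIdeal : ℕ) : ℝ) : ℝ) : ℂ) = x at h6 ⊢
    generalize ((√((∏ v ∈ T, absNorm v.asIdeal : ℕ) : ℝ) : ℝ) : ℂ) = y at h6 ⊢
    generalize ((∏ v ∈ T, TT.qr v (s : 𝓞 K) : ℤ) : ℂ) = A at h6 ⊢
    generalize (e : ℂ) = e' at h6 heC ⊢
    linear_combination (-e' * Complex.I) * h6 + (e' * e' * x - e' * A * y) * hI2 + (-x) * heC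

end

section
variable {L M : Type} [Field L] [NumberField L] [Field M] [NumberField M] [Algebra L M]
  [IsTotallyReal L] {D : Dat L M} (hD : Od2 D)
include hD

theorem h3_t8_int (t : ℤ) : t8 ((t : ℤ) : 𝓞 L) = ZMod.χ₈ (t : ZMod 8) := by
  unfold t8
  have h7 : ((t : ℤ) : 𝓞 L) = algebraMap ℤ (𝓞 L) t := by simp
  rw [h7, Algebra.norm_algebraMap, RingOfIntegers.rank, Int.cast_pow, map_pow]
  have hd : ∀ a : ZMod 8, ZMod.χ₈ a = 0 ∨ ZMod.χ₈ a = 1 ∨ ZMod.χ₈ a = -1 := by decide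
  exact r1_pow_odd (hd _) hD.odd

theorem h3_kp_int {c : 𝓞 L} (hc : c ∉ span {(2 : 𝓞 L)}) (i : Bool) {t : ℤ} (ht : t % 4 = 1) :
    kp c i ((t : ℤ) : 𝓞 L) = if i then ZMod.χ₈ (t : ZMod 8) else 1 := by
  by_cases h : Rm c i
  · unfold kp
    rw [if_pos h]
    unfold kc te
    have hQ : Q4 ((t : ℤ) : 𝓞 L) := ⟨1, ((t / 4 : ℤ) : 𝓞 L), isCoprime_one_left, by
      have e : t = 1 + 4 * (t / 4) := by omega
      have e5 := congrArg (fun z : ℤ => (z : 𝓞 L)) e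
      rw [e5]
      push_cast
      ring⟩
    rw [tp_q4 hD hQ hc, one_mul, h3_t8_int hD]
  · rw [kp_one hD h]
    have hi : i = false := by
      by_contra hcon
      exact h (Or.inl (by simpa using hcon))
    rw [hi]
    rfl

/-- the sign at an integer -/
theorem h3_S_int {s : Bool} {T : Finset (HeightOneSpectrum (𝓞 M))} {f f' : 𝓞 L → ℤ} (hf : H2Gd f) (hf' : H2Gd f') (t : ℤ) :
    h2S D s T f f' (t : 𝓞 M) = (∏ P ∈ T, TT.qr P (t : 𝓞 M)) * f (t : 𝓞 L) * f' (t : 𝓞 L) := by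
  unfold h2S
  have h1 : ∀ s' : Bool, rd8 D s' ((t : ℤ) : 𝓞 M) - ((t : ℤ) : 𝓞 L) ∈ span {(8 : 𝓞 L)} := by
    intro s'
    have h := rd8_alg hD s' ((t : ℤ) : 𝓞 L)
    rwa [map_intCast] at h
  rw [hf.per (h1 _), hf'.per (h1 _)]

/-- the sign at an odd integer, explicitly -/
theorem h3_sign {s : Bool} {T : Finset (HeightOneSpectrum (𝓞 M))} (h2 : ∀ P ∈ T, (2 : 𝓞 M) ∉ P.asIdeal) {c c' : 𝓞 L}
    (hc : c ∉ span {(2 : 𝓞 L)}) (hc' : c' ∉ span {(2 : 𝓞 L)}) {i j : Bool} {Φ : Ideal (𝓞 M) →*₀ ℂ}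
    (hΦ : PhiK D s T (kp c i) (kp c' j) Φ) {t : ℤ} (ht : t % 2 = 1) :
    h2S D s T (kp c i) (kp c' j) (t : 𝓞 M) = (∏ P ∈ T, TT.qr P (t : 𝓞 M)) *
      (ZMod.χ₄ (t : ZMod 4) * (if (∏ P ∈ T, absNorm P.asIdeal) % 4 = 3 then ZMod.χ₄ (t : ZMod 4) else 1) *
        ((if i then ZMod.χ₈ (t : ZMod 8) else 1) * (if j then ZMod.χ₈ (t : ZMod 8) else 1))) := by
  have hf := h2_gd hD hc i
  have hf' := h2_gd hD hc' j
  rw [h3_S_int hD hf hf', mul_assoc]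
  congr 1
  rcases h3_x4 ht with ⟨h, hx⟩ | ⟨h, hx⟩
  · rw [hx, h3_kp_int hD hc i h, h3_kp_int hD hc' j h, ite_self, one_mul, one_mul]
  · -- the sign at `-1`
    have h1 := h3_S_int hD (s := s) (T := T) hf hf' (-1)
    have h3 := h2_unit hΦ (-1 : (𝓞 L)ˣ)
    rw [Units.val_neg, Units.val_one, map_neg, map_one] at h3
    have h6 : Algebra.norm ℤ (-1 : 𝓞 L) = -1 := by
      have h7 : (-1 : 𝓞 L) = algebraMap ℤ (𝓞 L) (-1) := by simp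
      rw [h7, Algebra.norm_algebraMap, RingOfIntegers.rank]
      exact hD.odd.neg_one_pow
    have h5 : ((-1 : ℤ) : 𝓞 M) = -1 := by push_cast; rfl
    rw [h6] at h3
    rw [h5, h3] at h1
    have hA : ∏ P ∈ T, TT.qr P (-1 : 𝓞 M) = 1 ∨ ∏ P ∈ T, TT.qr P (-1 : 𝓞 M) = -1 := by
      refine Int.isUnit_iff.1 (IsUnit.of_mul_eq_one (-(kp c i ((-1 : ℤ) : 𝓞 L) * kp c' j ((-1 : ℤ) : 𝓞 L))) ?_)
      linarith
    have hB : kp c i ((-1 : ℤ) : 𝓞 L) * kp c' j ((-1 : ℤ) : 𝓞 L) =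
        ZMod.χ₄ (t : ZMod 4) * (if (∏ P ∈ T, absNorm P.asIdeal) % 4 = 3 then ZMod.χ₄ (t : ZMod 4) else 1) := by
      rw [hx]
      rcases hA with hA | hA
      · have h4 := f2_four T h2 (by rw [h5]; exact hA)
        rw [hA] at h1
        rw [if_neg (by omega)]
        linarith
      · have h4 := g3_four T h2 (by rw [h5]; exact hA)
        rw [hA] at h1
        rw [if_pos h4]
        linarith
    have e : ∀ (c : 𝓞 L) (i : Bool), H2Gd (kp c i) → kp c i ((t : ℤ) : 𝓞 L) = kp c i ((-1 : ℤ) : 𝓞 L) * kp c i ((-t : ℤ) : 𝓞 L) := by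
      intro c i hg
      rw [← hg.mul]
      congr 1
      push_cast
      ring
    have h8 : ZMod.χ₈ ((-t : ℤ) : ZMod 8) = ZMod.χ₈ (t : ZMod 8) := by
      have hd : ∀ a : ZMod 8, ZMod.χ₈ (-a) = ZMod.χ₈ a := by decide
      rw [Int.cast_neg, hd]
    have hm : (-t) % 4 = 1 := by omega
    rw [e c i hf, e c' j hf', h3_kp_int hD hc i hm, h3_kp_int hD hc' j hm, h8, mul_mul_mul_comm, hB]

theorem h3_rd_add (s : Bool) (x y : 𝓞 M) : rd8 D s (x + 8 * y) - rd8 D s x ∈ span {(8 : 𝓞 L)} := by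
  apply rd8_uniq hD s
  have h8 : (8 : 𝓞 M) * y ∈ span {p2 D s ^ 3} := by
    have hm := x_mul D s
    refine Ideal.mem_span_singleton'.2 ⟨p1 D s ^ 3 * y, ?_⟩
    linear_combination (y * ((p1 D s * p2 D s) ^ 2 + 2 * (p1 D s * p2 D s) + 4)) * hm
  have e : x + 8 * y - algebraMap (𝓞 L) (𝓞 M) (rd8 D s x) = (x - algebraMap (𝓞 L) (𝓞 M) (rd8 D s x)) + 8 * y := by ring
  rw [e]
  exact add_mem (rd8_cong hD s x) h8

/-- the sign function of the curve -/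
theorem h3_Sg {s : Bool} {T : Finset (HeightOneSpectrum (𝓞 M))} (h2 : ∀ P ∈ T, (2 : 𝓞 M) ∉ P.asIdeal) {f f' : 𝓞 L → ℤ}
    (hf : H2Gd f) (hf' : H2Gd f') {Φ : Ideal (𝓞 M) →*₀ ℂ} (hΦ : PhiK D s T f f' Φ) :
    Sg D (h2S D s T f f') (8 * ∏ P ∈ T, absNorm P.asIdeal) where
  pos := Nat.mul_pos (by norm_num) (Finset.prod_pos fun P _ => absNorm_pos P.ne_bot)
  mul := h2S_mul hD h2 hf hf'
  unit := h2_unit hΦ
  per x y := by
    have h1 : ∏ P ∈ T, TT.qr P (x + ((8 * ∏ P ∈ T, absNorm P.asIdeal : ℕ) : 𝓞 M) * y) = ∏ P ∈ T, TT.qr P x := by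
      refine Finset.prod_congr rfl fun P hP => TT.qr_congr P ?_
      rw [add_sub_cancel_left]
      obtain ⟨k, hk⟩ : absNorm P.asIdeal ∣ 8 * ∏ P ∈ T, absNorm P.asIdeal :=
        Dvd.dvd.mul_left (Finset.dvd_prod_of_mem (fun P : HeightOneSpectrum (𝓞 M) => absNorm P.asIdeal) hP) _
      rw [hk, Nat.cast_mul, mul_assoc]
      exact P.asIdeal.mul_mem_right _ (absNorm_mem _)
    have h3 : ((8 * ∏ P ∈ T, absNorm P.asIdeal : ℕ) : 𝓞 M) * y = 8 * (((∏ P ∈ T, absNorm P.asIdeal : ℕ) : 𝓞 M) * y) := by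
      rw [Nat.cast_mul, mul_assoc]
      rfl
    unfold h2S
    rw [h1, h3, hf.per (h3_rd_add hD (!s) x _), hf'.per (h3_rd_add hD s x _)]

/-- the data of the character -/
theorem h3_ChB {s : Bool} {T : Finset (HeightOneSpectrum (𝓞 M))} {f f' : 𝓞 L → ℤ}
    (hf : H2Gd f) (hf' : H2Gd f') {Φ : Ideal (𝓞 M) →*₀ ℂ} (hΦ : PhiK D s T f f' Φ) :
    ChB D (h2S D s T f f') (8 * ∏ P ∈ T, absNorm P.asIdeal) Φ where
  span_eq := hΦ.span_eq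
  val := hΦ.val
  norm_le := h2_norm_le hD hf hf' hΦ
  norm_eq I hI hcop := by
    have hodd : Odd (absNorm I) :=
      Nat.coprime_two_right.1 (Nat.Coprime.coprime_dvd_right (Dvd.intro (7 * (8 * ∏ P ∈ T, absNorm P.asIdeal)) (by ring)) hcop)
    refine hΦ.norm_eq I hI (fun P hP => not_le_of_cop (Nat.Coprime.coprime_dvd_right ?_ hcop)) (Or.inr ?_)
      (Or.inr (h2_not_le hD s hodd))
    · exact Dvd.dvd.mul_left (Dvd.dvd.mul_left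
        (Finset.dvd_prod_of_mem (fun P : HeightOneSpectrum (𝓞 M) => absNorm P.asIdeal) hP) _) _
    · rw [← h2_p2_not]
      exact h2_not_le hD (!s) hodd

/-- rationality for the local characters `kp c i`, `kp c' j` -/
theorem h3_main {s : Bool} {T : Finset (HeightOneSpectrum (𝓞 M))} (h2 : ∀ P ∈ T, (2 : 𝓞 M) ∉ P.asIdeal) {c c' : 𝓞 L}
    (hc : c ∉ span {(2 : 𝓞 L)}) (hc' : c' ∉ span {(2 : 𝓞 L)}) {i j : Bool} {Φ : Ideal (𝓞 M) →*₀ ℂ}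
    (hΦ : PhiK D s T (kp c i) (kp c' j) Φ)
    {Z : ℂ → ℂ} (hZd : Differentiable ℂ Z)
    (hZ : ∀ t : ℂ, 3 / 2 < t.re → Z t = ∑' I : Ideal (𝓞 M), conj (Φ I) * (absNorm I : ℂ) ^ (-t)) :
    ∃ Q : ℚ, Z 1 * conj (Z 1) * ((√|(discr L : ℝ)| : ℝ) : ℂ) ^ 2 *
        ((√((NN (L := L) T i j : ℕ) : ℝ) : ℝ) : ℂ) /
        ((TRS.Om : ℝ) : ℂ) ^ (2 * Module.finrank ℚ L) = Q := by
  have hf := h2_gd hD hc i
  have hf' := h2_gd hD hc' j
  have hS := h3_Sg hD h2 hf hf' hΦ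
  refine h3_rational D hD.odd hS (h3_ChB hD hf hf' hΦ) ?_ hZd hZ
  intro σ hr t ht hσ
  have h8 : 8 ∣ 8 * ∏ P ∈ T, absNorm P.asIdeal := Dvd.intro _ rfl
  have ht2 : t % 2 = 1 := by
    have h4 : IsCoprime t 2 := by
      have h5 : (((8 * ∏ P ∈ T, absNorm P.asIdeal : ℕ) : ℕ) : ℤ) = 2 * (4 * ((∏ P ∈ T, absNorm P.asIdeal : ℕ) : ℤ)) := by
        rw [Nat.cast_mul]
        push_cast
        ring
      rw [h5] at ht
      exact ht.of_mul_right_left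
    obtain ⟨u, v, huv⟩ := h4
    rcases Int.emod_two_eq_zero_or_one t with h5 | h5
    · exfalso
      obtain ⟨w, hw⟩ := Int.dvd_of_emod_eq_zero h5
      rw [hw] at huv
      have h6 : 2 * (u * w + v) = 1 := by linarith
      omega
    · exact h5
  have hI := h3_I σ hS.pos ((by norm_num : 4 ∣ 8).trans h8) ht2 hσ
  have hs2 := h3_sqrt2 σ hS.pos h8 ht2 hσ
  have e4 : ZMod.χ₄ (t : ZMod 4) * ZMod.χ₄ (t : ZMod 4) = 1 := by
    rcases h3_x4 ht2 with ⟨-, h⟩ | ⟨-, h⟩ <;> rw [h] <;> norm_num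
  have e8 : ZMod.χ₈ (t : ZMod 8) * ZMod.χ₈ (t : ZMod 8) = 1 := by
    rcases h3_x8 ht2 with ⟨-, h⟩ | ⟨-, h⟩ <;> rw [h] <;> norm_num
  have a1 := h3_s7 hD.odd hI hr
  have a2 := h3_s2 hD.odd e8 hs2 i j
  have a3 := h3_sT T h2 σ hS.pos ht hσ
    (fun P hP => Dvd.dvd.mul_left (Finset.dvd_prod_of_mem (fun P : HeightOneSpectrum (𝓞 M) => absNorm P.asIdeal) hP) _) e4 hI
  rw [h3_sign hD h2 hc hc' hΦ ht2]
  have e : ((√((NN (L := L) T i j : ℕ) : ℝ) : ℝ) : ℂ) = ((√((7 ^ Module.finrank ℚ L : ℕ) : ℝ) : ℝ) : ℂ) *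
      ((√((∏ v ∈ T, absNorm v.asIdeal : ℕ) : ℝ) : ℝ) : ℂ) *
      ((√((2 ^ (Module.finrank ℚ L * ((if i then 1 else 0) + (if j then 1 else 0))) : ℕ) : ℝ) : ℝ) : ℂ) := by
    unfold NN
    rw [← Complex.ofReal_mul, ← Complex.ofReal_mul, ← Real.sqrt_mul (Nat.cast_nonneg _),
      ← Real.sqrt_mul (by positivity), ← Nat.cast_mul, ← Nat.cast_mul]
  rw [e, map_mul, map_mul, a1, a2, a3]
  simp only [Int.cast_mul]
  ring

section
variable {s : Bool} {d : M} {T : Finset (HeightOneSpectrum (𝓞 M))} {z : HeightOneSpectrum (𝓞 M) → 𝓞 M} {ε : (𝓞 L)ˣ} {i j : Bool}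
  (H : DK D s d T z ε i j)
include H

/-- [H3] rationality -/
theorem rational_K {Φ : Ideal (𝓞 M) →*₀ ℂ} (hΦ : PhiK D s T (kp (cd D s T z ε) i) (kp (ε : 𝓞 L) j) Φ)
    {Z : ℂ → ℂ} (hZd : Differentiable ℂ Z)
    (hZ : ∀ t : ℂ, 3 / 2 < t.re → Z t = ∑' I : Ideal (𝓞 M), conj (Φ I) * (absNorm I : ℂ) ^ (-t)) :
    ∃ Q : ℚ, Z 1 * conj (Z 1) * ((√|(discr L : ℝ)| : ℝ) : ℂ) ^ 2 *
        ((√((NN (L := L) T i j : ℕ) : ℝ) : ℝ) : ℂ) /
        ((TRS.Om : ℝ) : ℂ) ^ (2 * Module.finrank ℚ L) = Q :=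
  h3_main hD H.two (h2_cd_not hD H) (fun h => hD.two.ne_top (Ideal.eq_top_of_isUnit_mem _ h ε.isUnit)) hΦ hZd hZ

end

end

end TRZ
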