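import Pool.Agent.TRZ.SG1
import Pool.Agent.TRZ.T1
import Pool.Agent.TRP.BAL

/-! # [ALL2-SG2] normalised elements and local squares at `ϖ'` -/

set_option autoImplicit false
set_option linter.unusedSectionVars false

open NumberField Ideal IsDedekindDomain
open scoped Real Classical ComplexConjugate
open TR TRG TRP TTS TU TT

namespace TRZ

open WithZero TRX2

section
variable {L M : Type} [Field L] [NumberField L] [Field M] [NumberField M] [Algebra L M] [IsTotallyReal L]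

theorem sg_r2 (D : Dat L M) (s : Bool) : (rs7 D s : M) ^ 2 = -7 := by
  rw [c2_rs7_coe]
  cases s
  · rw [if_neg (by decide), neg_sq, D.hr]
  · rw [if_pos rfl, D.hr]

theorem sg_wB (D : Dat L M) (s : Bool) : wB (rs7 D s : M) = (p1 D s : M) := by
  rw [c2_rs7_coe, se4_p1]
  cases s
  · rw [if_neg (by decide), if_neg (by decide)]
    unfold wB wbB
    ring
  · rw [if_pos rfl, if_pos rfl]

theorem sg_wbB (D : Dat L M) (s : Bool) : wbB (rs7 D s : M) = (p2 D s : M) := by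
  unfold p2
  rw [c2_rs7_coe, se4_p1]
  cases s
  · rw [if_neg (by decide), Bool.not_false, if_pos rfl]
    unfold wB wbB
    ring
  · rw [if_pos rfl, Bool.not_true, if_neg (by decide)]

end

section
variable {L M : Type} [Field L] [NumberField L] [Field M] [NumberField M] [Algebra L M]
  [IsTotallyReal L] {D : Dat L M} (hD : Od2 D)
include hD

theorem sg_t8_five : t8 (5 : 𝓞 L) = -1 := by
  have e : (5 : 𝓞 L) = 1 + 4 * 1 := by norm_num
  rw [e, k1_four, if_neg (k1_tr_one hD.odd)]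

theorem sg_t8_p1 (s : Bool) : t8 (rd8 D s (-(p1 D s))) = -1 := by
  rw [x1_t8_per (c1_p1 hD s), sg_t8_five hD]

theorem sg_t8_mul (s : Bool) (x y : 𝓞 M) : t8 (rd8 D s (x * y)) = t8 (rd8 D s x) * t8 (rd8 D s y) := by
  rw [x1_t8_per (rd8_mul hD s x y), k1_mul]

/-- a normalised element which is a square at `ϖ'` -/
theorem sg_t8_sq {s : Bool} {P : HeightOneSpectrum (𝓞 M)} (hP : p2 D s ∈ P.asIdeal) {x : 𝓞 M} (hx : Et D s x)
    (h : IsSquare (algebraMap M (P.adicCompletion M) (x : M))) : t8 (rd8 D s x) = 1 := by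
  obtain ⟨a, c, hac, hxa⟩ := hx
  have hPI := c1_ideal hD hP
  have hp1 := c1_p1_not hP
  have h2P := c1_mem_two hP
  have hp10 : (p1 D s : M) ≠ 0 := fun h0 => hp1 (by
    rw [RingOfIntegers.coe_eq_zero_iff.1 h0]
    exact P.asIdeal.zero_mem)
  obtain ⟨T, c', hT⟩ := bl_lift D s (x := x * p1 D s ^ 2) (a := 0) (b := a * p1 D s)
    ⟨x, by ring⟩ ⟨p1 D s ^ 2 * c, by rw [hxa]; ring⟩
  have haP : a ∉ P.asIdeal := by
    intro h1
    obtain ⟨u, v, huv⟩ := hac
    apply P.isPrime.ne_top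
    rw [Ideal.eq_top_iff_one, ← huv]
    exact Ideal.add_mem _ (Ideal.mul_mem_left _ _ h1) (Ideal.mul_mem_left _ _ hP)
  have hxP : x ∉ P.asIdeal := by
    intro h1
    apply haP
    apply P.isPrime.mem_of_pow_mem 2
    have e : a ^ 2 = x - p2 D s ^ 2 * c := by rw [hxa]; ring
    rw [e]
    refine Ideal.sub_mem _ h1 (Ideal.mul_mem_right _ _ ?_)
    rw [sq]
    exact Ideal.mul_mem_left _ _ hP
  have hTP : T ^ 2 + 4 * c' ∉ P.asIdeal := by
    rw [← hT]
    intro h1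
    rcases P.isPrime.mem_or_mem h1 with h1 | h1
    · exact hxP h1
    · exact hp1 (P.isPrime.mem_of_pow_mem 2 h1)
  have hsq : IsSquare (algebraMap M (P.adicCompletion M) ((T ^ 2 + 4 * c' : 𝓞 M) : M)) := by
    rw [← hT]
    have e : ((x * p1 D s ^ 2 : 𝓞 M) : M) = (x : M) * (p1 D s : M) ^ 2 := by
      simp only [map_mul, map_pow]
    rw [e, map_mul, map_pow]
    exact h.mul (IsSquare.sq _)
  have hchd := hr_chd hsq
  have hb : ∃ b : 𝓞 M, b ^ 2 - T * b - c' ∈ P.asIdeal := by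
    by_contra hne
    unfold chd at hchd
    rw [if_neg hne] at hchd
    norm_num at hchd
  obtain ⟨b, hb⟩ := hb
  have hcong : x * p1 D s ^ 2 - (T - 2 * b) ^ 2 ∈ span {p2 D s ^ 3} := by
    have e : x * p1 D s ^ 2 - (T - 2 * b) ^ 2 = -4 * (b ^ 2 - T * b - c') := by
      rw [hT]
      ring
    rw [hPI, Ideal.mem_span_singleton] at hb
    obtain ⟨g, hg⟩ := hb
    rw [e, hg, Ideal.mem_span_singleton]
    refine ⟨-(p1 D s ^ 2) * g, ?_⟩
    have h2 := x_mul D s
    have e4 : (4 : 𝓞 M) = (p1 D s * p2 D s) ^ 2 := by rw [h2]; norm_num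
    rw [e4]
    ring
  have hTb : T - 2 * b ∉ P.asIdeal := by
    intro h1
    apply hTP
    have e : T ^ 2 + 4 * c' = (T - 2 * b) * (T - 2 * b) - 2 * (2 * (b ^ 2 - T * b - c')) := by ring
    rw [e]
    exact Ideal.sub_mem _ (Ideal.mul_mem_left _ _ h1) (Ideal.mul_mem_right _ _ h2P)
  -- the residues
  have h8 : ∀ {x y : 𝓞 M}, x - y ∈ span {p2 D s ^ 3} → t8 (rd8 D s x) = t8 (rd8 D s y) := by
    intro x y hxy
    apply x1_t8_per
    apply rd8_uniq hD s
    have e : x - algebraMap (𝓞 L) (𝓞 M) (rd8 D s y) = (x - y) + (y - algebraMap (𝓞 L) (𝓞 M) (rd8 D s y)) := by ring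
    rw [e]
    exact Ideal.add_mem _ hxy (rd8_cong hD s y)
  have h1 := h8 hcong
  have hpm : ∀ y : 𝓞 M, y ∉ P.asIdeal → t8 (rd8 D s y) * t8 (rd8 D s y) = 1 := by
    intro y hy
    rcases k1_val (rd8 D s y) with h2 | h2 | h2
    · exfalso
      rw [k1_zero hD.two, rd8_even hD s, ← hPI] at h2
      exact hy h2
    · rw [h2]; norm_num
    · rw [h2]; norm_num
  rw [sg_t8_mul hD, sq, sg_t8_mul hD, hpm _ hp1, mul_one, sq, sg_t8_mul hD, hpm _ hTb] at h1
  exact h1

theorem sg_et_p1 (s : Bool) : Et D s (-(p1 D s)) := by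
  refine ⟨1, 1, isCoprime_one_left, ?_⟩
  have h1 := x_add D s
  have h2 := x_mul D s
  have e : p1 D s = 1 - p2 D s := by rw [← h1]; ring
  rw [e] at h2 ⊢
  linear_combination h2

theorem sg_et_ur {s : Bool} {P : HeightOneSpectrum (𝓞 M)} (hP : p2 D s ∈ P.asIdeal) {x : 𝓞 M} (hx : Et D s x) :
    Ur P (x : M) := by
  have hxP : x ∉ P.asIdeal := by
    obtain ⟨a, c, hac, hxa⟩ := hx
    intro h1
    have haP : a ∈ P.asIdeal := by
      apply P.isPrime.mem_of_pow_mem 2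
      have e : a ^ 2 = x - p2 D s ^ 2 * c := by rw [hxa]; ring
      rw [e]
      refine Ideal.sub_mem _ h1 (Ideal.mul_mem_right _ _ ?_)
      rw [sq]
      exact Ideal.mul_mem_left _ _ hP
    obtain ⟨u, v, huv⟩ := hac
    apply P.isPrime.ne_top
    rw [Ideal.eq_top_iff_one, ← huv]
    exact Ideal.add_mem _ (Ideal.mul_mem_left _ _ haP) (Ideal.mul_mem_left _ _ hP)
  rw [ur_iff_q4 hD hP hxP]
  exact (rd8_et hD s x).1 hx

/-- **the symbol of a normalised element at `ϖ'`** -/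
theorem sg_t8 {s : Bool} {P : HeightOneSpectrum (𝓞 M)} (hP : p2 D s ∈ P.asIdeal) {x : 𝓞 M} (hx : Et D s x) :
    IsSquare (algebraMap M (P.adicCompletion M) (x : M)) ↔ t8 (rd8 D s x) = 1 := by
  refine ⟨sg_t8_sq hD hP hx, fun h => ?_⟩
  by_contra hns
  have hp1 : ¬ IsSquare (algebraMap M (P.adicCompletion M) ((-(p1 D s) : 𝓞 M) : M)) := by
    intro h1
    have h2 := sg_t8_sq hD hP (sg_et_p1 hD s) h1
    rw [sg_t8_p1 hD] at h2
    norm_num at h2
  have h3 := sg_two (sg_et_ur hD hP hx) (sg_et_ur hD hP (sg_et_p1 hD s)) hns hp1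
  have e : ((x * -(p1 D s) : 𝓞 M) : M) = (x : M) * ((-(p1 D s) : 𝓞 M) : M) := map_mul _ _ _
  rw [← e] at h3
  have het : Et D s (x * -(p1 D s)) := by
    obtain ⟨a, c, hac, hxa⟩ := hx
    obtain ⟨a', c', hac', hxa'⟩ := sg_et_p1 hD s
    refine ⟨a * a', a ^ 2 * c' + a' ^ 2 * c + p2 D s ^ 2 * (c * c'), hac.mul_left hac', ?_⟩
    rw [hxa, hxa']
    ring
  have h4 := sg_t8_sq hD hP het h3
  rw [sg_t8_mul hD, h, sg_t8_p1 hD] at h4
  norm_num at h4

end

end TRZ
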