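import Pool.Agent.TRZ.R6a
import Pool.Agent.TRZ.R5
import Pool.Agent.TRZ.SG2
import Pool.Agent.TRP.Y1

/-! # [ALL2-R6b] the product formulas for the decomposition of `d √-7` -/

set_option autoImplicit false
set_option linter.unusedSectionVars false

open NumberField Ideal IsDedekindDomain
open scoped Real Classical ComplexConjugate
open TR TRG TRP TTS TU TT

namespace TRZ

section
variable {L M : Type} [Field L] [NumberField L] [Field M] [NumberField M] [Algebra L M]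
  [IsTotallyReal L] {D : Dat L M} (hD : Od2 D)
include hD

theorem r6_od_mul {x y : 𝓞 L} (hx : x ∉ span {(2 : 𝓞 L)}) (hy : y ∉ span {(2 : 𝓞 L)}) : x * y ∉ span {(2 : 𝓞 L)} :=
  fun h => (hD.two.mem_or_mem h).elim hx hy

theorem r6_od_unit (u : (𝓞 L)ˣ) : (u : 𝓞 L) ∉ span {(2 : 𝓞 L)} := fun h =>
  hD.two.ne_top (Ideal.eq_top_of_isUnit_mem _ h u.isUnit)

/-- the primitive character on the odd elements -/
theorem r6_kp {c x : 𝓞 L} (hc : c ∉ span {(2 : 𝓞 L)}) (hx : x ∉ span {(2 : 𝓞 L)}) (i : Bool) : kp c i x = tp x c * te i x := by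
  by_cases h : Rm c i
  · unfold kp
    rw [if_pos h]
    rfl
  · rw [kp_one hD h]
    exact (kc_unr hD h hc hx).symm

theorem r6_pm {x y : 𝓞 L} (hx : x ∉ span {(2 : 𝓞 L)}) (hy : y ∉ span {(2 : 𝓞 L)}) : tp x y * tp x y = 1 := by
  rcases t1_tp_pm hD.two hx hy with h | h <;> rw [h] <;> norm_num

theorem r6_per {x x' y : 𝓞 L} (h : x - x' ∈ span {(8 : 𝓞 L)}) : tp x y = tp x' y := by
  obtain ⟨k, hk⟩ := Ideal.mem_span_singleton'.1 h
  have e : x = x' + 4 * (2 * k) := by linear_combination -hk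
  rw [e, tp_per hD]

theorem r6_per' {x x' y : 𝓞 L} (h : x - x' ∈ span {(8 : 𝓞 L)}) : tp y x = tp y x' := by
  rw [tp_comm hD y x, tp_comm hD y x', r6_per hD h]

theorem r6_tp_mul' {x x' y : 𝓞 L} (hy : y ∉ span {(2 : 𝓞 L)}) : tp y (x * x') = tp y x * tp y x' := by
  rw [tp_comm hD y, tp_mul hD _ _ _ hy, tp_comm hD x, tp_comm hD x']

/-- reciprocity with a normalised element -/
theorem r6_rec {s : Bool} {a b : 𝓞 M} (ha : IsCoprime a 2) (hb : IsCoprime b 2) (hab : IsCoprime a b) (h4 : Q4 (rd8 D s b)) :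
    sy a (span {b}) * sy b (span {a}) = tp (rd8 D (!s) a) (rd8 D (!s) b) := by
  have h1 := rec_odd hD ha hb hab s
  rw [tp_comm hD (rd8 D s a), tp_q4 hD h4 (r5_notMem hD s ha), one_mul] at h1
  exact h1

theorem r6_cop_unit {a : 𝓞 M} (ha : IsUnit a) (b : 𝓞 M) : IsCoprime a b := by
  obtain ⟨u, rfl⟩ := ha
  exact ⟨((u⁻¹ : (𝓞 M)ˣ) : 𝓞 M), 0, by rw [Units.inv_mul, zero_mul, add_zero]⟩

theorem r6_sy_unit {s : Bool} {b : 𝓞 M} (hb : IsCoprime b 2) (h4 : Q4 (rd8 D s b)) (u : (𝓞 L)ˣ) :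
    sy (algebraMap (𝓞 L) (𝓞 M) (u : 𝓞 L)) (span {b}) = tp (u : 𝓞 L) (rd8 D (!s) b) := by
  have hu : IsUnit (algebraMap (𝓞 L) (𝓞 M) (u : 𝓞 L)) := u.isUnit.map _
  have h1 := r6_rec hD (s := s) (a := algebraMap (𝓞 L) (𝓞 M) (u : 𝓞 L)) (r6_cop_unit hD hu 2) hb
    (r6_cop_unit hD hu b) h4
  rw [Ideal.span_singleton_eq_top.2 hu, ← Ideal.one_eq_top, r1_sy_one, mul_one, r6_per hD (rd8_alg hD (!s) _)] at h1
  exact h1

theorem r6_sy_p2 {s : Bool} {b : 𝓞 M} (hb : IsCoprime b 2) : sy (-(p2 D s)) (span {b}) = t8 (rd8 D s b) := by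
  have h := rec_unif hD hb (!s)
  rw [Bool.not_not] at h
  exact h

omit hD in
theorem r6_not {v P : HeightOneSpectrum (𝓞 M)} {s : Bool} {x : 𝓞 M} (hx : NG D s P x) (h : v ≠ P) : x ∉ v.asIdeal := by
  obtain ⟨k, -, hk⟩ := hx.gen
  intro hz
  have h1 : P.asIdeal ^ k ≤ v.asIdeal := by
    rw [← hk, Ideal.span_singleton_le_iff_mem]
    exact hz
  have h2 := v.isPrime.le_of_pow_le h1
  exact h (HeightOneSpectrum.ext ((P.isMaximal.eq_of_le v.isPrime.ne_top h2).symm))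

omit hD in
theorem r6_prod_not {U : Finset (HeightOneSpectrum (𝓞 M))} {z : HeightOneSpectrum (𝓞 M) → 𝓞 M} {s : Bool}
    (hz : ∀ P ∈ U, NG D s P (z P)) {v : HeightOneSpectrum (𝓞 M)} (h : v ∉ U) : ∏ P ∈ U, z P ∉ v.asIdeal := by
  intro hm
  obtain ⟨P, hP, h1⟩ := (v.isPrime.prod_mem_iff).1 hm
  exact r6_not (hz P hP) (fun e => h (by rw [e]; exact hP)) h1

omit hD in
theorem r6_isCop {a b : 𝓞 M} (ha : a ≠ 0) (h : ∀ v : HeightOneSpectrum (𝓞 M), a ∈ v.asIdeal → b ∉ v.asIdeal) : IsCoprime a b := by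
  rw [← Ideal.isCoprime_span_singleton_iff, Ideal.isCoprime_iff_sup_eq]
  by_contra hne
  obtain ⟨m, hm, hle⟩ := Ideal.exists_le_maximal _ hne
  have h1 : a ∈ m := hle (Ideal.mem_sup_left (Ideal.mem_span_singleton_self _))
  have hbot : m ≠ ⊥ := by
    rintro rfl
    exact ha (Ideal.mem_bot.1 h1)
  exact h ⟨m, hm.isPrime, hbot⟩ h1 (hle (Ideal.mem_sup_right (Ideal.mem_span_singleton_self _)))

omit hD in
theorem r6_prod_cop {U : Finset (HeightOneSpectrum (𝓞 M))} {z : HeightOneSpectrum (𝓞 M) → 𝓞 M} {s : Bool}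
    (h2 : ∀ P ∈ U, (2 : 𝓞 M) ∉ P.asIdeal) (hz : ∀ P ∈ U, NG D s P (z P)) : IsCoprime (∏ P ∈ U, z P) 2 :=
  x0_cop fun _ hv => r6_prod_not hz fun h => h2 _ h hv

theorem r6_prod_q4 {U : Finset (HeightOneSpectrum (𝓞 M))} {z : HeightOneSpectrum (𝓞 M) → 𝓞 M} {s : Bool}
    (hz : ∀ P ∈ U, NG D s P (z P)) : Q4 (rd8 D s (∏ P ∈ U, z P)) := by
  induction U using Finset.induction_on with
  | empty =>
    rw [Finset.prod_empty]
    exact c2_q4_one hD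
  | insert P U hPU ih =>
    rw [Finset.prod_insert hPU]
    refine (c2_q4_mul hD (ih fun Q hQ => hz Q (Finset.mem_insert_of_mem hQ))).2 ?_
    exact (rd8_et hD s (z P)).1 (hz P (Finset.mem_insert_self _ _)).et

omit hD in
/-- the symbol modulo a normalised generator -/
theorem r6_sy_ng {P : HeightOneSpectrum (𝓞 M)} {s : Bool} {x : 𝓞 M} (hx : NG D s P x) (y : 𝓞 M) : sy y (span {x}) = TT.qr P y := by
  obtain ⟨k, hk, h⟩ := hx.gen
  rw [h, r1_sy_pow_right _ P.ne_bot, r1_sy_prime, r1_pow_odd (TT.qr_cases P y) hk]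

omit hD in
theorem r6_ng_ne {P : HeightOneSpectrum (𝓞 M)} {s : Bool} {x : 𝓞 M} (hx : NG D s P x) : x ≠ 0 := by
  obtain ⟨k, -, h⟩ := hx.gen
  exact ad1_span_ne h

omit hD in
theorem r6_sy_prod {U : Finset (HeightOneSpectrum (𝓞 M))} {z : HeightOneSpectrum (𝓞 M) → 𝓞 M} {s : Bool}
    (hz : ∀ P ∈ U, NG D s P (z P)) (y : 𝓞 M) : sy y (span {∏ P ∈ U, z P}) = ∏ P ∈ U, TT.qr P y := by
  induction U using Finset.induction_on with
  | empty =>
    rw [Finset.prod_empty, Finset.prod_empty, Ideal.span_singleton_one, ← Ideal.one_eq_top, r1_sy_one]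
  | insert P U hPU ih =>
    have h1 := hz P (Finset.mem_insert_self _ _)
    have h2 := fun Q hQ => hz Q (Finset.mem_insert_of_mem hQ)
    have h3 : ∏ Q ∈ U, z Q ≠ 0 := Finset.prod_ne_zero_iff.2 fun Q hQ => r6_ng_ne (h2 Q hQ)
    rw [Finset.prod_insert hPU, Finset.prod_insert hPU, ← Ideal.span_singleton_mul_span_singleton,
      r1_sy_mul_right _ (by rw [Ne, Ideal.span_singleton_eq_bot]; exact r6_ng_ne h1)
        (by rw [Ne, Ideal.span_singleton_eq_bot]; exact h3), ih h2, r6_sy_ng h1]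

/-- the norm of a unit -/
theorem r6_norm_unit (w : (𝓞 L)ˣ) : Algebra.norm ℤ (w : 𝓞 L) = tp (w : 𝓞 L) (-1) := by
  have hw := r6_od_unit hD w
  obtain ⟨β, hβ⟩ := exists_cl hD hw
  have h1 : Cl (-1 : 𝓞 L) (-1) := ⟨1, 0, isCoprime_one_left, by ring⟩
  rw [tp_eq hD hβ h1]
  obtain ⟨a, c, ha, h2⟩ := hβ
  -- `N a` is odd
  have ha2 : a ∉ span {(2 : 𝓞 L)} := by
    intro h
    obtain ⟨u, v, huv⟩ := ha
    apply hD.two.ne_top
    rw [Ideal.eq_top_iff_one, ← huv]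
    exact Ideal.add_mem _ (Ideal.mul_mem_left _ _ h) (Ideal.mul_mem_left _ _ (Ideal.mem_span_singleton_self _))
  have hna : Algebra.norm ℤ a % 2 ≠ 0 := by
    intro h
    have h3 := k1_t8 a
    rw [if_pos h] at h3
    exact ha2 ((k1_zero hD.two a).1 h3)
  have h3 := k1_norm_congr 4 (a ^ 2 * (1 + 2 * β)) c
  have e1 : a ^ 2 * (1 + 2 * β) + ((4 : ℕ) : 𝓞 L) * c = (w : 𝓞 L) := by
    rw [h2]
    norm_num
  rw [e1, map_mul, map_pow] at h3
  obtain ⟨r, hr⟩ := Algebra.norm_one_add_smul (2 : ℤ) β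
  have e2 : (1 : 𝓞 L) + (2 : ℤ) • β = 1 + 2 * β := by
    rw [zsmul_eq_mul]
    norm_num
  rw [e2] at hr
  rw [hr] at h3
  have hunit : IsUnit (Algebra.norm ℤ (w : 𝓞 L)) := w.isUnit.map _
  have e3 : Algebra.trace ℤ (𝓞 L) (β * -1) = -Algebra.trace ℤ (𝓞 L) β := by
    rw [mul_neg_one, map_neg]
  rw [e3]
  generalize Algebra.trace ℤ (𝓞 L) β = T at *
  generalize Algebra.norm ℤ a = A at *
  obtain ⟨q, hq⟩ : ∃ q, A = 2 * q + 1 := ⟨A / 2, by omega⟩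
  have h5 : A ^ 2 * (1 + T * 2 + r * 2 ^ 2) = 1 + 2 * T + 4 * ((q ^ 2 + q) * (1 + 2 * T + r * 2 ^ 2) + r) := by
    rw [hq]
    ring
  rw [h5] at h3
  generalize (q ^ 2 + q) * (1 + 2 * T + r * 2 ^ 2) + r = X at h3
  push_cast at h3
  rcases Int.isUnit_iff.1 hunit with h | h
  · rw [h] at h3 ⊢
    split_ifs with h6
    · rfl
    · exfalso
      omega
  · rw [h] at h3 ⊢
    split_ifs with h6
    · exfalso
      omega
    · rfl

omit hD in
theorem r6_alg_neg (ε : (𝓞 L)ˣ) : -(algebraMap (𝓞 L) (𝓞 M) (ε : 𝓞 L)) = algebraMap (𝓞 L) (𝓞 M) ((-ε : (𝓞 L)ˣ) : 𝓞 L) := by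
  rw [Units.val_neg, map_neg]

theorem r6_five : (5 : 𝓞 L) ∉ span {(2 : 𝓞 L)} := by
  intro h
  apply hD.two.ne_top
  rw [Ideal.eq_top_iff_one]
  have e : (1 : 𝓞 L) = 5 - 2 * 2 := by norm_num
  rw [e]
  exact Ideal.sub_mem _ h (Ideal.mul_mem_left _ _ (Ideal.mem_span_singleton_self _))

theorem r6_tp_m1 : tp (-1 : 𝓞 L) (-1) = -1 := by
  have h1 : Cl (-1 : 𝓞 L) (-1) := ⟨1, 0, isCoprime_one_left, by ring⟩
  rw [tp_eq hD h1 h1, neg_mul_neg, one_mul, if_neg (k1_tr_one hD.odd)]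

/-- the values of the characters at the prime elements above `2` -/
theorem r6_kp_p {c : 𝓞 L} (hc : c ∉ span {(2 : 𝓞 L)}) (i : Bool) {x : 𝓞 M} {s : Bool} (hx : rd8 D s (-x) - 5 ∈ span {(8 : 𝓞 L)}) :
    kp c i (rd8 D s x) = tp (-1) c * (if i then -1 else 1) := by
  have h1 : rd8 D s x - -5 ∈ span {(8 : 𝓞 L)} := by
    have h2 := rd8_mul hD s (algebraMap (𝓞 L) (𝓞 M) (-1)) (-x)
    have h3 := rd8_alg hD s (-1)
    rw [map_neg, map_one, neg_mul_neg, one_mul] at h2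
    rw [map_neg, map_one] at h3
    have e : rd8 D s x - -5 = (rd8 D s x - rd8 D s (-1) * rd8 D s (-x)) + (rd8 D s (-1) - -1) * rd8 D s (-x) - (rd8 D s (-x) - 5) := by ring
    rw [e]
    exact Ideal.sub_mem _ (Ideal.add_mem _ h2 (Ideal.mul_mem_right _ _ h3)) hx
  have h5 := r6_five hD (D := D)
  have hxo : rd8 D s x ∉ span {(2 : 𝓞 L)} := by
    intro h
    apply h5
    have h28 : (span {(8 : 𝓞 L)}) ≤ span {(2 : 𝓞 L)} := Ideal.span_singleton_le_span_singleton.2 ⟨4, by norm_num⟩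
    have e : (5 : 𝓞 L) = (rd8 D s x - -5) - rd8 D s x := by ring
    rw [e]
    exact Ideal.sub_mem _ (h28 h1) h
  have h6 : tp (5 : 𝓞 L) c = 1 := tp_q4 hD q4_five hc
  have h7 : t8 (-5 : 𝓞 L) = -1 := by
    have e : (-5 : 𝓞 L) = ((-1 : (𝓞 L)ˣ) : 𝓞 L) * 5 := by
      rw [Units.val_neg, Units.val_one]
      ring
    rw [e, k1_mul, k1_unit, one_mul, sg_t8_five hD]
  rw [r6_kp hD hc hxo, r6_per hD h1, show (-5 : 𝓞 L) = -1 * 5 by ring, tp_mul hD _ _ _ hc, h6, mul_one]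
  congr 1
  unfold te
  rw [x1_t8_per h1, h7]

section
variable {s : Bool} {d : M} {T : Finset (HeightOneSpectrum (𝓞 M))} {z : HeightOneSpectrum (𝓞 M) → 𝓞 M} {ε : (𝓞 L)ˣ} {i j : Bool}
  (H : DK D s d T z ε i j)
include H

omit hD in
theorem DK.r6_cop : IsCoprime (∏ P ∈ T, z P) 2 := r6_prod_cop H.two H.ng

/-- the class `cd` -/
theorem DK.r6_cd : cd D s T z ε - ((-ε : (𝓞 L)ˣ) : 𝓞 L) * rd8 D (!s) (∏ P ∈ T, z P) ∈ span {(8 : 𝓞 L)} := by
  unfold cd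
  rw [r6_alg_neg]
  have h1 := rd8_mul hD (!s) (algebraMap (𝓞 L) (𝓞 M) ((-ε : (𝓞 L)ˣ) : 𝓞 L)) (∏ P ∈ T, z P)
  have h2 := rd8_alg hD (!s) (((-ε : (𝓞 L)ˣ) : 𝓞 L))
  have e : rd8 D (!s) (algebraMap (𝓞 L) (𝓞 M) ((-ε : (𝓞 L)ˣ) : 𝓞 L) * ∏ P ∈ T, z P) - ((-ε : (𝓞 L)ˣ) : 𝓞 L) * rd8 D (!s) (∏ P ∈ T, z P) =
      (rd8 D (!s) (algebraMap (𝓞 L) (𝓞 M) ((-ε : (𝓞 L)ˣ) : 𝓞 L) * ∏ P ∈ T, z P) -
        rd8 D (!s) (algebraMap (𝓞 L) (𝓞 M) ((-ε : (𝓞 L)ˣ) : 𝓞 L)) * rd8 D (!s) (∏ P ∈ T, z P)) +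
      (rd8 D (!s) (algebraMap (𝓞 L) (𝓞 M) ((-ε : (𝓞 L)ˣ) : 𝓞 L)) - ((-ε : (𝓞 L)ˣ) : 𝓞 L)) * rd8 D (!s) (∏ P ∈ T, z P) := by ring
  rw [e]
  exact Ideal.add_mem _ h1 (Ideal.mul_mem_right _ _ h2)

theorem DK.r6_cd_not : cd D s T z ε ∉ span {(2 : 𝓞 L)} := by
  intro h
  have h28 : (span {(8 : 𝓞 L)}) ≤ span {(2 : 𝓞 L)} := Ideal.span_singleton_le_span_singleton.2 ⟨4, by norm_num⟩
  have h1 := h28 (H.r6_cd hD)
  have h2 : ((-ε : (𝓞 L)ˣ) : 𝓞 L) * rd8 D (!s) (∏ P ∈ T, z P) ∈ span {(2 : 𝓞 L)} := by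
    have e : ((-ε : (𝓞 L)ˣ) : 𝓞 L) * rd8 D (!s) (∏ P ∈ T, z P) = cd D s T z ε -
      (cd D s T z ε - ((-ε : (𝓞 L)ˣ) : 𝓞 L) * rd8 D (!s) (∏ P ∈ T, z P)) := by ring
    rw [e]
    exact Ideal.sub_mem _ h h1
  exact r6_od_mul hD (r6_od_unit hD (-ε)) (r5_notMem hD (!s) (H.r6_cop)) h2

/-- the symbol with the product of the generators -/
theorem DK.r6_tp {x : 𝓞 L} (hx : x ∉ span {(2 : 𝓞 L)}) :
    tp x (rd8 D (!s) (∏ P ∈ T, z P)) = tp x ((-ε : (𝓞 L)ˣ) : 𝓞 L) * tp x (cd D s T z ε) := by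
  rw [r6_per' hD (H.r6_cd hD), r6_tp_mul' hD hx, ← mul_assoc, r6_pm hD hx (r6_od_unit hD (-ε)), one_mul]

/-- the units -/
theorem DK.r6_units (w : (𝓞 L)ˣ) : ∏ P ∈ T, TT.qr P (algebraMap (𝓞 L) (𝓞 M) (w : 𝓞 L)) =
    tp (w : 𝓞 L) ((-ε : (𝓞 L)ˣ) : 𝓞 L) * tp (w : 𝓞 L) (cd D s T z ε) := by
  rw [← r6_sy_prod H.ng, r6_sy_unit hD H.r6_cop (r6_prod_q4 hD H.ng), H.r6_tp hD (r6_od_unit hD w)]

theorem DK.unit (u : (𝓞 M)ˣ) : D.NK ((u : 𝓞 M) : M) * (((∏ P ∈ T, TT.qr P (u : 𝓞 M)) * kp (cd D s T z ε) i (rd8 D (!s) (u : 𝓞 M)) *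
    kp (ε : 𝓞 L) j (rd8 D s (u : 𝓞 M)) : ℤ) : ℂ) = 1 := by
  obtain ⟨w, hw⟩ := D.unit_real u
  have hwo := r6_od_unit hD w
  have hcd := H.r6_cd_not hD
  have hεo := r6_od_unit hD ε
  have hu2 : IsCoprime (u : 𝓞 M) 2 := r6_cop_unit hD u.isUnit 2
  have hA : ∀ (t b : Bool) {c : 𝓞 L}, c ∉ span {(2 : 𝓞 L)} → kp c b (rd8 D t (u : 𝓞 M)) = tp (w : 𝓞 L) c := by
    intro t b c hc
    have h1 : rd8 D t (u : 𝓞 M) - (w : 𝓞 L) ∈ span {(8 : 𝓞 L)} := by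
      rw [hw]
      exact rd8_alg hD t _
    rw [r6_kp hD hc (r5_notMem hD t hu2), r6_per hD h1]
    unfold te
    split_ifs
    · rw [x1_t8_per h1, k1_unit, mul_one]
    · rw [mul_one]
  rw [hA (!s) i hcd, hA s j hεo, hw, NK_unit, H.r6_units hD w, r6_norm_unit hD w, ← Int.cast_mul]
  have h1 : ((-ε : (𝓞 L)ˣ) : 𝓞 L) = -1 * (ε : 𝓞 L) := by
    rw [Units.val_neg]
    ring
  have h2 : tp (w : 𝓞 L) ((-ε : (𝓞 L)ˣ) : 𝓞 L) = tp (w : 𝓞 L) (-1) * tp (w : 𝓞 L) (ε : 𝓞 L) := by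
    rw [h1, r6_tp_mul' hD hwo]
  have hm1 : (-1 : 𝓞 L) ∉ span {(2 : 𝓞 L)} := by
    have := r6_od_unit hD (-1)
    rwa [Units.val_neg, Units.val_one] at this
  have h3 := r6_pm hD hwo hm1
  have h4 := r6_pm hD hwo hεo
  have h5 := r6_pm hD hwo hcd
  have h6 : tp (w : 𝓞 L) (-1) * (tp (w : 𝓞 L) ((-ε : (𝓞 L)ˣ) : 𝓞 L) * tp (w : 𝓞 L) (cd D s T z ε) * tp (w : 𝓞 L) (cd D s T z ε) *
      tp (w : 𝓞 L) (ε : 𝓞 L)) = 1 := by
    rw [h2]
    linear_combination (tp (w : 𝓞 L) (ε : 𝓞 L)) ^ 2 * (tp (w : 𝓞 L) (cd D s T z ε)) ^ 2 * h3 +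
      (tp (w : 𝓞 L) (cd D s T z ε)) ^ 2 * h4 + h5
  rw [h6, Int.cast_one]

/-- product formula at the other primes -/
theorem DK.prime {P : HeightOneSpectrum (𝓞 M)} (h2 : (2 : 𝓞 M) ∉ P.asIdeal) (hP : P ∉ T) {x : 𝓞 M} (hx : NG D s P x) :
    (∏ Q ∈ T, TT.qr Q x) * kp (cd D s T z ε) i (rd8 D (!s) x) * kp (ε : 𝓞 L) j (rd8 D s x) =
      TT.qr P (-(algebraMap (𝓞 L) (𝓞 M) (ε : 𝓞 L) * (if i then -(p1 D s) else 1) * (if j then -(p2 D s) else 1) * ∏ Q ∈ T, z Q)) := by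
  have hx2 : IsCoprime x 2 := x0_cop fun v hv => r6_not hx fun h => h2 (by rw [← h]; exact hv)
  have hx4 : Q4 (rd8 D s x) := (rd8_et hD s x).1 hx.et
  have hcd := H.r6_cd_not hD
  have hεo := r6_od_unit hD ε
  have hxo := r5_notMem hD (!s) hx2
  have hcop : IsCoprime (∏ Q ∈ T, z Q) x := by
    refine (r6_isCop (r6_ng_ne hx) fun v hv => ?_).symm
    have e : v = P := by
      by_contra hne
      exact r6_not hx hne hv
    rw [e]
    exact r6_prod_not H.ng hP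
  -- the symbol of the product
  have h1 := r6_rec hD H.r6_cop hx2 hcop hx4
  rw [r6_sy_prod H.ng, tp_comm hD, H.r6_tp hD hxo] at h1
  rw [r6_kp hD hcd hxo, r6_kp hD hεo (r5_notMem hD s hx2), tp_q4 hD hx4 hεo, one_mul]
  -- the right side
  have e : -(algebraMap (𝓞 L) (𝓞 M) (ε : 𝓞 L) * (if i then -(p1 D s) else 1) * (if j then -(p2 D s) else 1) * ∏ Q ∈ T, z Q) =
      algebraMap (𝓞 L) (𝓞 M) ((-ε : (𝓞 L)ˣ) : 𝓞 L) * (if i then -(p1 D s) else 1) * (if j then -(p2 D s) else 1) * ∏ Q ∈ T, z Q := by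
    rw [← r6_alg_neg]
    ring
  rw [e, TT.qr_mul P h2, TT.qr_mul P h2, TT.qr_mul P h2, ← r6_sy_ng hx, ← r6_sy_ng hx, ← r6_sy_ng hx, ← r6_sy_ng hx,
    r6_sy_unit hD hx2 hx4]
  have hi : sy (if i then -(p1 D s) else 1) (span {x}) = te i (rd8 D (!s) x) := by
    cases i
    · simp only [Bool.false_eq_true, if_false]
      rw [r6_sy_ng hx, x_qr_one]
      rfl
    · simp only [if_true]
      rw [rec_unif hD hx2]
      rfl
  have hj : sy (if j then -(p2 D s) else 1) (span {x}) = te j (rd8 D s x) := by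
    cases j
    · simp only [Bool.false_eq_true, if_false]
      rw [r6_sy_ng hx, x_qr_one]
      rfl
    · simp only [if_true]
      rw [r6_sy_p2 hD hx2]
      rfl
  rw [hi, hj]
  have hB : sy (∏ Q ∈ T, z Q) (span {x}) * sy (∏ Q ∈ T, z Q) (span {x}) = 1 := by
    rw [r6_sy_ng hx]
    rcases TT.qr_cases P (∏ Q ∈ T, z Q) with h | h | h
    · exact absurd ((TT.qr_eq_zero P).1 h) (r6_prod_not H.ng hP)
    · rw [h]; norm_num
    · rw [h]; norm_num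
  have h3 := r6_pm hD hxo hcd
  rw [tp_comm hD ((-ε : (𝓞 L)ˣ) : 𝓞 L)]
  generalize sy (∏ Q ∈ T, z Q) (span {x}) = B at *
  generalize (∏ Q ∈ T, TT.qr Q x) = A at *
  generalize tp (rd8 D (!s) x) (cd D s T z ε) = C at *
  generalize tp (rd8 D (!s) x) ((-ε : (𝓞 L)ˣ) : 𝓞 L) = E at *
  generalize te i (rd8 D (!s) x) = I at *
  generalize te j (rd8 D s x) = J at *
  linear_combination (-(A * C * I * J)) * hB + B * C * I * J * h1 + B * E * I * J * h3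

omit hD H in
theorem r6_phi {ι : Type*} (U : Finset ι) (f : ι → ℤ) (h : ∀ Q ∈ U, f Q = 1 ∨ f Q = -1) :
    (∏ Q ∈ U, f Q = 1 ∨ ∏ Q ∈ U, f Q = -1) ∧
      ∑ Q ∈ U, (if f Q = -1 then (1 : ZMod 2) else 0) = if ∏ Q ∈ U, f Q = -1 then 1 else 0 := by
  induction U using Finset.induction_on with
  | empty => exact ⟨Or.inl rfl, by simp⟩
  | insert Q U hQ ih =>
    obtain ⟨h1, h2⟩ := ih fun R hR => h R (Finset.mem_insert_of_mem hR)
    rw [Finset.prod_insert hQ, Finset.sum_insert hQ, h2]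
    rcases h Q (Finset.mem_insert_self _ _) with h3 | h3 <;> rcases h1 with h4 | h4 <;> rw [h3, h4] <;>
      refine ⟨by norm_num, ?_⟩ <;> norm_num <;> decide

omit hD H in
theorem r6_qr_pm {P : HeightOneSpectrum (𝓞 M)} {x : 𝓞 M} (h : x ∉ P.asIdeal) : TT.qr P x = 1 ∨ TT.qr P x = -1 := by
  rcases TT.qr_cases P x with h1 | h1 | h1
  · exact absurd ((TT.qr_eq_zero P).1 h1) h
  · exact Or.inl h1
  · exact Or.inr h1

omit H in
theorem r6_te_pm {x : 𝓞 L} (hx : x ∉ span {(2 : 𝓞 L)}) (b : Bool) : te b x = 1 ∨ te b x = -1 := by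
  unfold te
  split_ifs
  · rcases k1_val x with h | h | h
    · exact absurd ((k1_zero hD.two x).1 h) hx
    · exact Or.inl h
    · exact Or.inr h
  · exact Or.inl rfl

omit H in
theorem r6_sy_if {b : 𝓞 M} {t : Bool} (hb : IsCoprime b 2) (i : Bool) : sy (if i then -(p1 D t) else 1) (span {b}) = te i (rd8 D (!t) b) := by
  cases i
  · simp only [Bool.false_eq_true, if_false]
    have hb0 : (span {b} : Ideal (𝓞 M)) ≠ ⊥ := by
      rw [Ne, Ideal.span_singleton_eq_bot]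
      rintro rfl
      obtain ⟨u, v, huv⟩ := hb
      have h2 : IsUnit (2 : 𝓞 M) := IsUnit.of_mul_eq_one v (by linear_combination huv)
      exact (Vp hD t).isPrime.ne_top (Ideal.eq_top_of_isUnit_mem _ (Vp_two hD t) h2)
    have h1 := r1_sy_sq hb0 (a := (1 : 𝓞 M)) (by
      rw [r1_cop]
      exact isCoprime_one_left)
    rw [one_pow] at h1
    rw [h1]
    rfl
  · simp only [if_true]
    rw [rec_unif hD hb]
    rfl

omit hD H in
theorem r6_qr_prod {P : HeightOneSpectrum (𝓞 M)} (h2 : (2 : 𝓞 M) ∉ P.asIdeal) {ι : Type*} (U : Finset ι) (F : ι → 𝓞 M) :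
    TT.qr P (∏ i ∈ U, F i) = ∏ i ∈ U, TT.qr P (F i) := by
  induction U using Finset.induction_on with
  | empty =>
    rw [Finset.prod_empty, Finset.prod_empty, x_qr_one]
  | insert Q U hQ ih =>
    rw [Finset.prod_insert hQ, Finset.prod_insert hQ, TT.qr_mul P h2, ih]

/-- row and column sums -/
theorem DK.kap {P : HeightOneSpectrum (𝓞 M)} (hP : P ∈ T) :
    ∑ Q ∈ T.erase P, aM z P Q + (if TT.qr P (algebraMap (𝓞 L) (𝓞 M) (ε : 𝓞 L) * (if i then -(p1 D s) else 1) * (if j then -(p2 D s) else 1)) = -1 then 1 else 0) =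
      ∑ Q ∈ T.erase P, aM z Q P + bt (FK D s (kp (cd D s T z ε) i) j) z P := by
  have h2 := H.two P hP
  have hx := H.ng P hP
  have hU2 : ∀ Q ∈ T.erase P, (2 : 𝓞 M) ∉ Q.asIdeal := fun Q hQ => H.two Q (Finset.mem_of_mem_erase hQ)
  have hUz : ∀ Q ∈ T.erase P, NG D s Q (z Q) := fun Q hQ => H.ng Q (Finset.mem_of_mem_erase hQ)
  have hx2 : IsCoprime (z P) 2 := x0_cop fun v hv => r6_not hx fun h => h2 (by rw [← h]; exact hv)
  have hx4 : Q4 (rd8 D s (z P)) := (rd8_et hD s (z P)).1 hx.et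
  have hcd := H.r6_cd_not hD
  have hεo := r6_od_unit hD ε
  have hxo := r5_notMem hD (!s) hx2
  have hPU : P ∉ T.erase P := Finset.notMem_erase P T
  have hcop : IsCoprime (∏ Q ∈ T.erase P, z Q) (z P) := by
    refine (r6_isCop (r6_ng_ne hx) fun v hv => ?_).symm
    have e : v = P := by
      by_contra hne
      exact r6_not hx hne hv
    rw [e]
    exact r6_prod_not hUz hPU
  have hm1 : (-1 : 𝓞 L) ∉ span {(2 : 𝓞 L)} := by
    have := r6_od_unit hD (-1)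
    rwa [Units.val_neg, Units.val_one] at this
  have hy2 := r6_prod_cop hU2 hUz
  have hyo := r5_notMem hD (!s) hy2
  have h1 := r6_rec hD hy2 hx2 hcop hx4
  rw [r6_sy_prod hUz, tp_comm hD] at h1
  -- the product over all primes
  have h3 := H.r6_tp hD hxo
  rw [← Finset.mul_prod_erase T z hP, r6_per' hD (rd8_mul hD (!s) _ _), r6_tp_mul' hD hxo, tp_self hD hxo] at h3
  have h4 : tp (rd8 D (!s) (z P)) ((-ε : (𝓞 L)ˣ) : 𝓞 L) = tp (rd8 D (!s) (z P)) (-1) * tp (rd8 D (!s) (z P)) (ε : 𝓞 L) := by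
    have e : ((-ε : (𝓞 L)ˣ) : 𝓞 L) = -1 * (ε : 𝓞 L) := by
      rw [Units.val_neg]
      ring
    rw [e, r6_tp_mul' hD hxo]
  rw [h4] at h3
  -- the two sums
  have hA := r6_phi (T.erase P) (fun Q => TT.qr Q (z P)) (fun Q hQ => r6_qr_pm (r6_not hx (Finset.ne_of_mem_erase hQ)))
  have hB := r6_phi (T.erase P) (fun Q => TT.qr P (z Q)) (fun Q hQ => r6_qr_pm (r6_not (hUz Q hQ) (Finset.ne_of_mem_erase hQ).symm))
  have hB' : ∏ Q ∈ T.erase P, TT.qr P (z Q) = sy (∏ Q ∈ T.erase P, z Q) (span {z P}) := by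
    rw [r6_sy_ng hx]
    exact (r6_qr_prod h2 _ _).symm
  have hK : TT.qr P (algebraMap (𝓞 L) (𝓞 M) (ε : 𝓞 L) * (if i then -(p1 D s) else 1) * (if j then -(p2 D s) else 1)) =
      tp (rd8 D (!s) (z P)) (ε : 𝓞 L) * te i (rd8 D (!s) (z P)) * te j (rd8 D s (z P)) := by
    have hj := r6_sy_if hD (t := !s) hx2 j
    rw [Bool.not_not] at hj
    rw [TT.qr_mul P h2, TT.qr_mul P h2, ← r6_sy_ng hx, ← r6_sy_ng hx, ← r6_sy_ng hx, r6_sy_unit hD hx2 hx4, r6_sy_if hD hx2,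
      tp_comm hD]
    congr 1
  have hF : FK D s (kp (cd D s T z ε) i) j (z P) = tp (rd8 D (!s) (z P)) (cd D s T z ε) * te i (rd8 D (!s) (z P)) * te j (rd8 D s (z P)) := by
    unfold FK
    rw [r6_kp hD hcd hxo]
  unfold bt
  rw [hK, hF]
  have e1 : ∑ Q ∈ T.erase P, aM z P Q = if sy (∏ Q ∈ T.erase P, z Q) (span {z P}) = -1 then 1 else 0 := by
    rw [← hB', ← hB.2]
    rfl
  have e2 : ∑ Q ∈ T.erase P, aM z Q P = if ∏ Q ∈ T.erase P, TT.qr Q (z P) = -1 then 1 else 0 := by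
    rw [← hA.2]
    rfl
  rw [e1, e2]
  have c1 := hA.1
  have c2 := hB.1
  rw [hB'] at c2
  have c3 := t1_tp_pm hD.two hxo hεo
  have c4 := t1_tp_pm hD.two hxo hcd
  have c5 := t1_tp_pm hD.two hxo hm1
  have c6 := r6_te_pm hD hxo i
  have c7 := r6_te_pm hD (r5_notMem hD s hx2) j
  have c8 := t1_tp_pm hD.two hxo hyo
  generalize sy (∏ Q ∈ T.erase P, z Q) (span {z P}) = B at *
  generalize (∏ Q ∈ T.erase P, TT.qr Q (z P)) = A at *
  generalize tp (rd8 D (!s) (z P)) (cd D s T z ε) = C at *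
  generalize tp (rd8 D (!s) (z P)) (ε : 𝓞 L) = E at *
  generalize tp (rd8 D (!s) (z P)) (-1) = N at *
  generalize tp (rd8 D (!s) (z P)) (rd8 D (!s) (∏ Q ∈ T.erase P, z Q)) = X at *
  generalize te i (rd8 D (!s) (z P)) = I at *
  generalize te j (rd8 D s (z P)) = J at *
  clear hA hB hB' hK hF e1 e2
  rcases c1 with rfl | rfl <;> rcases c2 with rfl | rfl <;> rcases c3 with rfl | rfl <;> rcases c4 with rfl | rfl <;>
    rcases c5 with rfl | rfl <;> rcases c8 with rfl | rfl <;> (try (exfalso; revert h1 h3; decide)) <;>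
    rcases c6 with rfl | rfl <;> rcases c7 with rfl | rfl <;> decide

theorem DK.r6_neg : ∏ P ∈ T, TT.qr P (-1 : 𝓞 M) = -(tp (-1) (ε : 𝓞 L) * tp (-1) (cd D s T z ε)) := by
  have hm1 : (-1 : 𝓞 L) ∉ span {(2 : 𝓞 L)} := by
    have := r6_od_unit hD (-1)
    rwa [Units.val_neg, Units.val_one] at this
  have h1 := H.r6_units hD (-1)
  have e : ((-ε : (𝓞 L)ˣ) : 𝓞 L) = -1 * (ε : 𝓞 L) := by
    rw [Units.val_neg]
    ring
  rw [Units.val_neg, Units.val_one, map_neg, map_one, e, r6_tp_mul' hD hm1, r6_tp_m1 hD] at h1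
  rw [h1]
  ring

/-- the product of the symbols of `-ϖ`, `-ϖ'` -/
theorem DK.r6_pr (t : Bool) : ∏ P ∈ T, TT.qr P (-(p1 D t)) = t8 (rd8 D (!t) (∏ P ∈ T, z P)) := by
  rw [← r6_sy_prod H.ng, rec_unif hD H.r6_cop]

omit hD in
theorem DK.r6_split (x : 𝓞 M) : ∏ P ∈ T, TT.qr P x = (∏ P ∈ T, TT.qr P (-1 : 𝓞 M)) * ∏ P ∈ T, TT.qr P (-x) := by
  rw [← Finset.prod_mul_distrib]
  refine Finset.prod_congr rfl fun P hP => ?_
  rw [← TT.qr_mul P (H.two P hP), neg_mul_neg, one_mul]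

omit hD H in
theorem r6_fin {p : Prop} {a b : ℤ} {m : ZMod 2} {i : Bool} (ha : a = 1 ∨ a = -1) (hb : b = if i then -1 else 1) (hm : m = if a = -1 then 1 else 0)
    (hp : p ↔ ¬ (b * a = 1)) {c : ℤ} (hc : c = -(b * a)) : (p ↔ c = 1) ∧ (p ↔ (if i then 1 else 0) + m = 1) := by
  rw [hp, hc, hm, hb]
  rcases ha with rfl | rfl <;> cases i <;> decide

theorem DK.nsq (hj : ¬ Rm (ε : 𝓞 L) j) :
    (Nsq D s d ↔ (∏ P ∈ T, TT.qr P (p2 D s)) * kp (cd D s T z ε) i (rd8 D (!s) (p2 D s)) = 1) ∧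
      (Nsq D s d ↔ (if i then 1 else 0) + ∑ P ∈ T, nv D s z P = 1) := by
  have hj0 : j = false := by
    by_contra h
    exact hj (Or.inl (by simpa using h))
  have hq : Q4 (ε : 𝓞 L) := by
    by_contra h
    exact hj (Or.inr h)
  have hcd := H.r6_cd_not hD
  have hm1 : (-1 : 𝓞 L) ∉ span {(2 : 𝓞 L)} := by
    have := r6_od_unit hD (-1)
    rwa [Units.val_neg, Units.val_one] at this
  have hq2 := H.r6_cop
  have hzo : ∀ P ∈ T, t8 (rd8 D s (z P)) = 1 ∨ t8 (rd8 D s (z P)) = -1 := by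
    intro P hP
    have h2 := H.two P hP
    have hx2 : IsCoprime (z P) 2 := x0_cop fun v hv => r6_not (H.ng P hP) fun h => h2 (by rw [← h]; exact hv)
    exact r6_te_pm hD (r5_notMem hD s hx2) true
  have hsum := r6_phi T (fun P => t8 (rd8 D s (z P))) hzo
  have hprod : ∏ P ∈ T, t8 (rd8 D s (z P)) = t8 (rd8 D s (∏ P ∈ T, z P)) := by
    have h1 := H.r6_pr hD (!s)
    rw [Bool.not_not] at h1
    rw [← h1]
    refine Finset.prod_congr rfl fun P hP => ?_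
    have h2 := H.two P hP
    have hx2 : IsCoprime (z P) 2 := x0_cop fun v hv => r6_not (H.ng P hP) fun h => h2 (by rw [← h]; exact hv)
    rw [← r6_sy_ng (H.ng P hP)]
    exact (r6_sy_p2 hD hx2).symm
  refine r6_fin (a := t8 (rd8 D s (∏ P ∈ T, z P))) (b := if i then -1 else 1) ?_ rfl ?_ ?_ ?_
  · exact r6_te_pm hD (r5_notMem hD s hq2) true
  · rw [← hprod, ← hsum.2]
    rfl
  · -- the local condition
    obtain ⟨y, hy, h⟩ := H.eq
    subst hj0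
    simp only [Bool.false_eq_true, if_false, mul_one] at h
    set E : 𝓞 M := algebraMap (𝓞 L) (𝓞 M) (ε : 𝓞 L) * (if i then -(p1 D s) else 1) * ∏ P ∈ T, z P with hE
    have hEt : Et D s E := by
      rw [rd8_et hD s]
      show Q4 (rd8 D s E)
      rw [hE, c2_q4_mul hD (H.q4_prod hD), c2_q4_mul hD (c2_q4_p1 hD i), q4_per_iff (rd8_alg hD s (ε : 𝓞 L))]
      exact hq
    have ht : t8 (rd8 D s E) = (if i then -1 else 1) * t8 (rd8 D s (∏ P ∈ T, z P)) := by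
      rw [hE, sg_t8_mul hD, sg_t8_mul hD, x1_t8_per (rd8_alg hD s (ε : 𝓞 L)), k1_unit, one_mul]
      congr 1
      cases i
      · simp only [Bool.false_eq_true, if_false]
        rw [x1_t8_per (show rd8 D s (1 : 𝓞 M) - 1 ∈ span {(8 : 𝓞 L)} from by
          have := rd8_alg hD s (1 : 𝓞 L)
          rwa [map_one] at this), k1_one]
      · simp only [if_true]
        exact sg_t8_p1 hD s
    have hloc : ∀ P : HeightOneSpectrum (𝓞 M), p2 D s ∈ P.asIdeal →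
        (IsSquare (algebraMap M (P.adicCompletion M) (d * (rs7 D s : M))) ↔ (if i then -1 else 1) * t8 (rd8 D s (∏ P ∈ T, z P)) = 1) := by
      intro P hP
      rw [← ht, ← sg_t8 hD hP hEt, h, map_mul, map_pow]
      exact c2_mul_sq ((map_ne_zero _).2 hy)
    constructor
    · intro hN hc
      exact hN (Vp hD (!s)) (Ideal.mem_span_singleton_self _) ((hloc _ (Ideal.mem_span_singleton_self _)).2 hc)
    · intro hc P hP hsq
      exact hc ((hloc P hP).1 hsq)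
  · have hk := r6_kp_p hD hcd i (s := !s) (x := p2 D s) (rd8_p2 hD s)
    have h1 := H.r6_pr hD (!s)
    rw [Bool.not_not] at h1
    rw [hk, H.r6_split, H.r6_neg hD, show -(p2 D s) = -(p1 D (!s)) from rfl, h1, tp_comm hD (-1) (ε : 𝓞 L), tp_q4 hD hq hm1, one_mul]
    linear_combination (-(if i then -1 else 1) * t8 (rd8 D s (∏ P ∈ T, z P))) * r6_pm hD hm1 hcd

theorem DK.nsq' (hi : ¬ Rm (cd D s T z ε) i) :
    (Nsq D (!s) d ↔ (∏ P ∈ T, TT.qr P (p1 D s)) * kp (ε : 𝓞 L) j (rd8 D s (p1 D s)) = 1) ∧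
      (Nsq D (!s) d ↔ (if j then 1 else 0) + ∑ P ∈ T, nu D s P = 1) := by
  have hi0 : i = false := by
    by_contra h
    exact hi (Or.inl (by simpa using h))
  have hq : Q4 (cd D s T z ε) := by
    by_contra h
    exact hi (Or.inr h)
  have hεo := r6_od_unit hD ε
  have hm1 : (-1 : 𝓞 L) ∉ span {(2 : 𝓞 L)} := by
    have := r6_od_unit hD (-1)
    rwa [Units.val_neg, Units.val_one] at this
  have hq2 := H.r6_cop
  have hp1P : ∀ P ∈ T, TT.qr P (-(p1 D s)) = 1 ∨ TT.qr P (-(p1 D s)) = -1 := by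
    intro P hP
    apply r6_qr_pm
    rw [neg_mem_iff]
    exact fun hm => H.two P hP (by
      rw [← x_mul D s]
      exact Ideal.mul_mem_right _ _ hm)
  have hsum := r6_phi T (fun P => TT.qr P (-(p1 D s))) hp1P
  have hprod := H.r6_pr hD s
  refine r6_fin (a := t8 (rd8 D (!s) (∏ P ∈ T, z P))) (b := if j then -1 else 1) ?_ rfl ?_ ?_ ?_
  · exact r6_te_pm hD (r5_notMem hD (!s) hq2) true
  · rw [← hprod, ← hsum.2]
    rfl
  · obtain ⟨y, hy, h⟩ := H.eq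
    subst hi0
    simp only [Bool.false_eq_true, if_false, mul_one] at h
    set E : 𝓞 M := -(algebraMap (𝓞 L) (𝓞 M) (ε : 𝓞 L)) * (∏ P ∈ T, z P) * (if j then -(p2 D s) else 1) with hE
    have hj4 : Q4 (rd8 D (!s) (if j then -(p2 D s) else 1)) := c2_q4_p1 hD j
    have hEt : Et D (!s) E := by
      rw [rd8_et hD (!s)]
      show Q4 (rd8 D (!s) E)
      rw [hE, c2_q4_mul hD hj4]
      exact hq
    have ht : t8 (rd8 D (!s) E) = (if j then -1 else 1) * t8 (rd8 D (!s) (∏ P ∈ T, z P)) := by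
      rw [hE, sg_t8_mul hD, sg_t8_mul hD, r6_alg_neg, x1_t8_per (rd8_alg hD (!s) ((-ε : (𝓞 L)ˣ) : 𝓞 L)), k1_unit, one_mul, mul_comm]
      congr 1
      cases j
      · simp only [Bool.false_eq_true, if_false]
        rw [x1_t8_per (show rd8 D (!s) (1 : 𝓞 M) - 1 ∈ span {(8 : 𝓞 L)} from by
          have := rd8_alg hD (!s) (1 : 𝓞 L)
          rwa [map_one] at this), k1_one]
      · simp only [if_true]
        exact sg_t8_p1 hD (!s)
    have h7 : d * (rs7 D (!s) : M) = (E : M) * y ^ 2 := by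
      have h3 : (rs7 D (!s) : M) = -(rs7 D s : M) := by
        rw [c2_rs7_not]
        exact map_neg _ _
      have h4 : (E : M) = -((algebraMap (𝓞 L) (𝓞 M) (ε : 𝓞 L) * (if j then -(p2 D s) else 1) * ∏ P ∈ T, z P : 𝓞 M) : M) := by
        have h5 : E = -(algebraMap (𝓞 L) (𝓞 M) (ε : 𝓞 L) * (if j then -(p2 D s) else 1) * ∏ P ∈ T, z P) := by
          rw [hE]
          ring
        rw [h5]
        exact map_neg _ _
      rw [h3, h4, mul_neg, h, neg_mul]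
    have hloc : ∀ P : HeightOneSpectrum (𝓞 M), p2 D (!s) ∈ P.asIdeal →
        (IsSquare (algebraMap M (P.adicCompletion M) (d * (rs7 D (!s) : M))) ↔ (if j then -1 else 1) * t8 (rd8 D (!s) (∏ P ∈ T, z P)) = 1) := by
      intro P hP
      rw [← ht, ← sg_t8 hD hP hEt, h7, map_mul, map_pow]
      exact c2_mul_sq ((map_ne_zero _).2 hy)
    have hV : p2 D (!s) ∈ (Vp hD s).asIdeal := by
      rw [c2_p2_not]
      exact Ideal.mem_span_singleton_self _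
    constructor
    · intro hN hc
      exact hN (Vp hD s) hV ((hloc _ hV).2 hc)
    · intro hc P hP hsq
      exact hc ((hloc P hP).1 hsq)
  · have hk := r6_kp_p hD hεo j (s := s) (x := p1 D s) (rd8_p1 hD s)
    rw [hk, H.r6_split, H.r6_neg hD, hprod, tp_comm hD (-1) (cd D s T z ε), tp_q4 hD hq hm1, mul_one]
    linear_combination (-(if j then -1 else 1) * t8 (rd8 D (!s) (∏ P ∈ T, z P))) * r6_pm hD hm1 hεo

end

end

end TRZ
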