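import Pool.Agent.TRZ.R6a
import Pool.Agent.TRZ.R6b

/-! # [ALL2-R6c] the matrix invariant is the uniform one -/

set_option autoImplicit false

open NumberField Ideal IsDedekindDomain
open TR TRG TRP TTS TU TT

namespace TRZ

section
variable {L M : Type} [Field L] [NumberField L] [Field M] [NumberField M] [Algebra L M]
  [IsTotallyReal L] {D : Dat L M} (hD : Od2 D)
  {s : Bool} {d : M} {T : Finset (HeightOneSpectrum (𝓞 M))} {z : HeightOneSpectrum (𝓞 M) → 𝓞 M} {ε : (𝓞 L)ˣ} {i j : Bool}
  (H : DK D s d T z ε i j)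
include hD H

theorem DK.GT_eq (hN' : Nsq D (!s) d) : GT D s T z ε i j = GU D s T z ε i j :=
  r6_GT_eq hD fun hi => (DK.nsq' hD H hi).2.1 hN'

end

end TRZ
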