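import Pool.Agent.TRZ.SG4

/-! # [ALL2-SEL1] the Selmer group: `DK.sel_core`, `finiteSha_iff` -/

set_option autoImplicit false
set_option linter.unusedSectionVars false

open NumberField Ideal IsDedekindDomain
open scoped Real Classical ComplexConjugate
open TR TRG TRP TTS TU TT

namespace TRZ

open WithZero TRX2

section
variable {L M : Type} [Field L] [NumberField L] [Field M] [NumberField M] [Algebra L M]
  [IsTotallyReal L] {D : Dat L M} {s : Bool} {d : M} {T : Finset (HeightOneSpectrum (𝓞 M))}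
  {z : HeightOneSpectrum (𝓞 M) → 𝓞 M} {ε : (𝓞 L)ˣ} {i j : Bool} (H : DK D s d T z ε i j)
include H

theorem DK.sg_ne : d ≠ 0 := by
  rintro rfl
  obtain ⟨y, hy, h⟩ := H.eq
  rw [zero_mul] at h
  rcases mul_eq_zero.1 h.symm with h | h
  · rw [RingOfIntegers.coe_eq_zero_iff] at h
    have hp1 : ∀ b : Bool, (if b then -(p1 D s) else 1 : 𝓞 M) ≠ 0 := by
      intro b h0
      cases b
      · simp only [Bool.false_eq_true, if_false] at h0
        exact one_ne_zero h0
      · simp only [if_true] at h0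
        have h2 := x_mul D s
        rw [neg_eq_zero.1 h0, zero_mul] at h2
        exact two_ne_zero h2.symm
    have hp2 : ∀ b : Bool, (if b then -(p2 D s) else 1 : 𝓞 M) ≠ 0 := by
      intro b h0
      cases b
      · simp only [Bool.false_eq_true, if_false] at h0
        exact one_ne_zero h0
      · simp only [if_true] at h0
        have h2 := x_mul D s
        rw [neg_eq_zero.1 h0, mul_zero] at h2
        exact two_ne_zero h2.symm
    refine mul_ne_zero (mul_ne_zero (mul_ne_zero ?_ (hp1 i)) (hp2 j)) (Finset.prod_ne_zero_iff.2 fun Q hQ => (se2_val (H.ng Q hQ).gen).1) h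
    exact (ε.isUnit.map (algebraMap (𝓞 L) (𝓞 M))).ne_zero
  · exact hy (pow_eq_zero_iff two_ne_zero |>.1 h)

/-- a class which is a square at `ϖ'` -/
theorem sg_square (hD : Od2 D) (hw0 : ∀ w : HeightOneSpectrum (𝓞 M) → ZMod 2,
    (∀ P ∈ T, (w P * ((if TT.qr P (algebraMap (𝓞 L) (𝓞 M) (ε : 𝓞 L) * (if i then -(p1 D s) else 1) *
      (if j then -(p2 D s) else 1)) = -1 then 1 else 0) + ∑ Q ∈ T.erase P, aM z P Q) +
      ∑ Q ∈ T.erase P, aM z P Q * w Q) + nu D s P * ∑ Q ∈ T, nv D s z Q * w Q = 0) →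
    (Rm (cd D s T z ε) i ∨ ∑ Q ∈ T, nv D s z Q * w Q = 0) → ∀ P ∈ T, w P = 0)
    {x : M} (hx : x ≠ 0) (hev : ∀ P : HeightOneSpectrum (𝓞 M), (2 : 𝓞 M) ∉ P.asIdeal → P ∉ T → IsSquare (P.valuation M x))
    (hsq : ∀ P : HeightOneSpectrum (𝓞 M), p2 D s ∈ P.asIdeal → IsSquare (algebraMap M (P.adicCompletion M) x))
    (hT : ∀ P ∈ T, IsSquare (algebraMap M (P.adicCompletion M) x) ∨
      IsSquare (algebraMap M (P.adicCompletion M) (x * (d * (rs7 D s : M)))))
    (hp : ¬ Rm (cd D s T z ε) i → ∀ P : HeightOneSpectrum (𝓞 M), p1 D s ∈ P.asIdeal → IsSquare (P.valuation M x)) :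
    IsSquare x := by
  obtain ⟨m, U, y, hU, hy, hxy⟩ := sg_decomp H hD hx hev hsq
  have hm : (if m then (1 : ZMod 2) else 0) = ∑ Q ∈ T, nv D s z Q * (if Q ∈ U then 1 else 0) := by
    obtain ⟨hpm, h2⟩ := sgx_t8 H hD hU m
    have hP : p2 D s ∈ (bl_V hD (!s)).asIdeal := Ideal.mem_span_singleton_self _
    have h3 := hsq _ hP
    rw [hxy, s5_sq hy, sg_t8 hD hP (sgx_et H hD hU m), s5_par_iff hpm, h2] at h3
    have h4 : ∑ Q ∈ T, nv D s z Q * (if Q ∈ U then 1 else 0) = ∑ Q ∈ U, nv D s z Q := by
      have h5 : U = T.filter (fun Q => Q ∈ U) := by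
        ext Q
        simp only [Finset.mem_filter]
        exact ⟨fun h => ⟨hU h, h⟩, fun h => h.2⟩
      conv_rhs => rw [h5]
      rw [Finset.sum_filter]
      refine Finset.sum_congr rfl fun Q _ => ?_
      by_cases hQU : Q ∈ U
      · rw [if_pos hQU, if_pos hQU, mul_one]
      · rw [if_neg hQU, if_neg hQU, mul_zero]
    rw [h4]
    exact CharTwo.add_eq_zero.1 h3
  have hall := hw0 (fun Q => if Q ∈ U then 1 else 0) (fun P hP => by
    have h1 := hT P hP
    have e : x * (d * (rs7 D s : M)) = (sgx D s z m U : M) * (d * (rs7 D s : M)) * y ^ 2 := by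
      rw [hxy]
      ring
    rw [e, hxy, s5_sq hy, s5_sq hy, sgx_row H hU m hP, hm] at h1
    exact h1) (by
    by_cases hR : Rm (cd D s T z ε) i
    · exact Or.inl hR
    · right
      have hP : p1 D s ∈ (bl_V hD s).asIdeal := Ideal.mem_span_singleton_self _
      have h1 := hp hR _ hP
      rw [hxy, map_mul, map_pow, c2_mul_sq ((Valuation.ne_zero_iff _).2 hy), sgx_p1 H hD hU m hP] at h1
      rw [← hm]
      cases m
      · rfl
      · exact absurd h1 hr_par_exp)
  have hU0 : U = ∅ := by
    rw [Finset.eq_empty_iff_forall_notMem]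
    intro Q hQ
    have h1 := hall Q (hU hQ)
    rw [if_pos hQ] at h1
    exact one_ne_zero h1
  have hm0 : m = false := by
    rw [hU0] at hm
    cases m
    · rfl
    · exfalso
      have h1 : ∑ Q ∈ T, nv D s z Q * (if Q ∈ (∅ : Finset (HeightOneSpectrum (𝓞 M))) then 1 else 0) = 0 := by
        refine Finset.sum_eq_zero fun Q _ => ?_
        rw [if_neg (Finset.notMem_empty Q), mul_zero]
      rw [h1, if_pos rfl] at hm
      exact one_ne_zero hm
  rw [hxy, hU0, hm0]
  refine ⟨y, ?_⟩
  unfold sgx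
  rw [if_neg (by decide), Finset.prod_empty, one_mul]
  have e : ((1 : 𝓞 M) : M) = 1 := map_one _
  rw [e, one_mul, sq]

/-- **the Selmer group in terms of vectors** (all types at `ϖ`) -/
theorem DK.sel_core (hD : Od2 D) (hN : Nsq D s d) : Sel d (rs7 D s : M) ↔ ∀ w : HeightOneSpectrum (𝓞 M) → ZMod 2,
    (∀ P ∈ T, (w P * ((if TT.qr P (algebraMap (𝓞 L) (𝓞 M) (ε : 𝓞 L) * (if i then -(p1 D s) else 1) *
      (if j then -(p2 D s) else 1)) = -1 then 1 else 0) + ∑ Q ∈ T.erase P, aM z P Q) +
      ∑ Q ∈ T.erase P, aM z P Q * w Q) + nu D s P * ∑ Q ∈ T, nv D s z Q * w Q = 0) →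
    (Rm (cd D s T z ε) i ∨ ∑ Q ∈ T, nv D s z Q * w Q = 0) → ∀ P ∈ T, w P = 0 := by
  have hd := H.sg_ne
  have hr0 := c2_rs7_ne (D := D) s
  constructor
  · intro hsel w hw hcond
    obtain ⟨U, hUd⟩ : ∃ U : Finset (HeightOneSpectrum (𝓞 M)), U = T.filter (fun Q => w Q = 1) := ⟨_, rfl⟩
    have hU : U ⊆ T := by
      rw [hUd]
      exact Finset.filter_subset _ _
    have hwU : ∀ Q ∈ T, w Q = if Q ∈ U then 1 else 0 := by
      intro Q hQ
      by_cases h1 : w Q = 1
      · rw [if_pos (by rw [hUd]; exact Finset.mem_filter.2 ⟨hQ, h1⟩), h1]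
      · rw [if_neg (by rw [hUd]; exact fun h => h1 (Finset.mem_filter.1 h).2)]
        exact (s8_zmod (w Q)).resolve_right h1
    obtain ⟨m, hm⟩ : ∃ m : Bool, m = decide (∑ Q ∈ T, nv D s z Q * w Q = 1) := ⟨_, rfl⟩
    have hm' : (if m then (1 : ZMod 2) else 0) = ∑ Q ∈ T, nv D s z Q * w Q := by
      rcases s8_zmod (∑ Q ∈ T, nv D s z Q * w Q) with h | h
      · rw [hm, h]
        rfl
      · rw [hm, h]
        rfl
    have hx0 := sgx_ne H hU m
    have hsq : ∀ P : HeightOneSpectrum (𝓞 M), p2 D s ∈ P.asIdeal →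
        IsSquare (algebraMap M (P.adicCompletion M) (sgx D s z m U : M)) := by
      intro P hP
      obtain ⟨hpm, h2⟩ := sgx_t8 H hD hU m
      rw [sg_t8 hD hP (sgx_et H hD hU m), s5_par_iff hpm, h2, hm']
      have h4 : ∑ Q ∈ T, nv D s z Q * w Q = ∑ Q ∈ U, nv D s z Q := by
        have h5 : U = T.filter (fun Q => Q ∈ U) := by
          ext Q
          simp only [Finset.mem_filter]
          exact ⟨fun h => ⟨hU h, h⟩, fun h => h.2⟩
        conv_rhs => rw [h5]
        rw [Finset.sum_filter]
        refine Finset.sum_congr rfl fun Q hQ => ?_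
        rw [hwU Q hQ]
        by_cases hQU : Q ∈ U
        · rw [if_pos hQU, if_pos hQU, mul_one]
        · rw [if_neg hQU, if_neg hQU, mul_zero]
      rw [h4]
      exact CharTwo.add_self_eq_zero _
    have hT : ∀ P ∈ T, IsSquare (algebraMap M (P.adicCompletion M) (sgx D s z m U : M)) ∨
        IsSquare (algebraMap M (P.adicCompletion M) ((sgx D s z m U : M) * (d * (rs7 D s : M)))) := by
      intro P hP
      rw [sgx_row H hU m hP, hm']
      have h1 := hw P hP
      rw [hwU P hP] at h1
      refine Eq.trans ?_ h1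
      congr 2
      refine Finset.sum_congr rfl fun Q hQ => ?_
      rw [hwU Q (Finset.mem_of_mem_erase hQ)]
    have hne : ∀ P : HeightOneSpectrum (𝓞 M), (2 : 𝓞 M) ∉ P.asIdeal → p1 D s ∉ P.asIdeal := fun P h2 h => h2 (by
      rw [← x_mul D s]
      exact Ideal.mul_mem_right _ _ h)
    -- all places `≠ ϖ`
    have hloc : ∀ P : HeightOneSpectrum (𝓞 M), p1 D s ∉ P.asIdeal →
        LocCond (algebraMap M (P.adicCompletion M) d) (algebraMap M (P.adicCompletion M) (rs7 D s : M))
          (algebraMap M (P.adicCompletion M) (sgx D s z m U : M)) := by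
      intro P hP1
      have hchar : CharZero (P.adicCompletion M) :=
        charZero_of_injective_algebraMap (algebraMap M (P.adicCompletion M)).injective
      by_cases h2 : (2 : 𝓞 M) ∈ P.asIdeal
      · rcases c1_or hD s h2 with hP | hP
        · exact Or.inl (hsq P hP)
        · rw [c2_p2_not] at hP
          exact absurd hP hP1
      · by_cases hPT : P ∈ T
        · refine sg_loc_of (sg_r2c D s P) (by rw [← map_mul]; exact (map_ne_zero _).2 (sg_dr hd s)) ?_
          rw [← map_mul, ← map_mul]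
          exact hT P hPT
        · refine se1_locCond (sg_r2 D s) P h2 hd hx0 ?_ ?_
          · by_contra hcon
            rw [c2_val_rs7] at hcon
            exact hPT ((H.mem_iff h2).2 hcon)
          · rw [(sgx_val H hU m hP1 (fun h => hPT (hU h))).2]
            exact ⟨1, (one_mul 1).symm⟩
    -- the place `ϖ`
    have hlocp : ∀ P : HeightOneSpectrum (𝓞 M), p1 D s ∈ P.asIdeal →
        LocCond (algebraMap M (P.adicCompletion M) d) (algebraMap M (P.adicCompletion M) (rs7 D s : M))
          (algebraMap M (P.adicCompletion M) (sgx D s z m U : M)) := by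
      intro P hP
      by_cases hR : Rm (cd D s T z ε) i
      · have hU' : ¬ Ur P d := fun h => (H.ur_p1 hP hD).1 h hR
        have htc : IsTotallyComplex M := D.isTotallyComplex
        have hP' : p2 D (!s) ∈ P.asIdeal := by
          rw [c2_p2_not]
          exact hP
        refine sg_loc_p1 hD hP hd hU' hx0 ?_
        refine hrec D.hodd (c1_mem_two hP') (c1_val2 hD hP') hx0 (sg_dr hd s) (fun h => hU' ((sg_ur_neg hD hP).1 h)) ?_
        intro v hv
        have hv1 : p1 D s ∉ v.asIdeal := by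
          intro h
          apply hv
          have hQ' : p2 D (!s) ∈ v.asIdeal := by
            rw [c2_p2_not]
            exact h
          exact HeightOneSpectrum.ext ((c1_ideal hD hQ').trans (c1_ideal hD hP').symm)
        have hchar : CharZero (v.adicCompletion M) :=
          charZero_of_injective_algebraMap (algebraMap M (v.adicCompletion M)).injective
        obtain ⟨u, t, hut⟩ := sg_nm (sg_r2c D s v) (hloc v hv1)
        exact ⟨u, t, by rw [hut, map_mul]⟩
      · have hUr : Ur P d := (H.ur_p1 hP hD).2 hR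
        rw [sg_loc_p1u hD hP hUr hx0, sgx_p1 H hD hU m hP]
        have h1 := hcond.resolve_left hR
        rw [← hm'] at h1
        cases m
        · exact ⟨1, (one_mul 1).symm⟩
        · rw [if_pos rfl] at h1
          exact absurd h1 one_ne_zero
    have hfin := hsel _ hx0 (fun P => by
      by_cases hP : p1 D s ∈ P.asIdeal
      · exact hlocp P hP
      · exact hloc P hP)
    have hx : IsSquare (sgx D s z m U : M) := by
      rcases hfin with h | h
      · exact h
      · exfalso
        have hP : p2 D s ∈ (bl_V hD (!s)).asIdeal := Ideal.mem_span_singleton_self _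
        apply hN _ hP
        obtain ⟨a, ha⟩ := hsq _ hP
        obtain ⟨b, hb⟩ := h
        have ha0 : a ≠ 0 := by
          rintro rfl
          rw [mul_zero] at ha
          exact (map_ne_zero _).2 hx0 ha
        refine ⟨algebraMap M ((bl_V hD (!s)).adicCompletion M) b / a, ?_⟩
        have h1 : a * a * algebraMap M ((bl_V hD (!s)).adicCompletion M) (d * (rs7 D s : M)) =
            algebraMap M ((bl_V hD (!s)).adicCompletion M) b * algebraMap M ((bl_V hD (!s)).adicCompletion M) b := by
          rw [← ha, ← map_mul, hb, map_mul]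
        field_simp
        linear_combination h1
    intro P hP
    rw [hwU P hP]
    by_cases hPU : P ∈ U
    · exfalso
      apply sgx_odd H hU m hPU
      obtain ⟨b, hb⟩ := hx
      exact ⟨P.valuation M b, by rw [hb, map_mul]⟩
    · rw [if_neg hPU]
  · intro hw0 x hx hloc
    have hδ0 : d * (rs7 D s : M) ≠ 0 := sg_dr hd s
    have hevδ : ∀ P : HeightOneSpectrum (𝓞 M), (2 : 𝓞 M) ∉ P.asIdeal → P ∉ T → IsSquare (P.valuation M (d * (rs7 D s : M))) := by
      intro P h2 hPT
      by_contra hcon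
      rw [c2_val_rs7] at hcon
      exact hPT ((H.mem_iff h2).2 hcon)
    have hevx : ∀ P : HeightOneSpectrum (𝓞 M), (2 : 𝓞 M) ∉ P.asIdeal → P ∉ T → IsSquare (P.valuation M x) :=
      fun P h2 hPT => se1_val (sg_r2 D s) P h2 hd (hevδ P h2 hPT) (hloc P)
    have hTx : ∀ P ∈ T, IsSquare (algebraMap M (P.adicCompletion M) x) ∨
        IsSquare (algebraMap M (P.adicCompletion M) (x * (d * (rs7 D s : M)))) := by
      intro P hP
      refine se1_odd (sg_r2 D s) P (H.two P hP) hd ?_ (hloc P)
      rw [c2_val_rs7]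
      exact (H.mem_iff (H.two P hP)).1 hP
    have hpx : ¬ Rm (cd D s T z ε) i → ∀ P : HeightOneSpectrum (𝓞 M), p1 D s ∈ P.asIdeal → IsSquare (P.valuation M x) := by
      intro hR P hP
      exact (sg_loc_p1u hD hP ((H.ur_p1 hP hD).2 hR) hx).1 (hloc P)
    have hP0 : p2 D s ∈ (bl_V hD (!s)).asIdeal := Ideal.mem_span_singleton_self _
    have huniq : ∀ P : HeightOneSpectrum (𝓞 M), p2 D s ∈ P.asIdeal → P = bl_V hD (!s) := fun P hP =>
      HeightOneSpectrum.ext ((c1_ideal hD hP).trans (c1_ideal hD hP0).symm)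
    rcases sg_loc_p2 hD hP0 hd (hN _ hP0) hx (hloc _) with h | h
    · left
      exact sg_square H hD hw0 hx hevx (fun P hP => by rw [huniq P hP]; exact h) hTx hpx
    · right
      refine sg_square H hD hw0 (mul_ne_zero hx hδ0) ?_ (fun P hP => by rw [huniq P hP]; exact h) ?_ ?_
      · intro P h2 hPT
        rw [map_mul]
        exact (hevx P h2 hPT).mul (hevδ P h2 hPT)
      · intro P hP
        have e : x * (d * (rs7 D s : M)) * (d * (rs7 D s : M)) = x * (d * (rs7 D s : M)) ^ 2 := by ring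
        rw [e, s5_sq hδ0]
        exact (hTx P hP).symm
      · intro hR P hP
        rw [map_mul]
        refine (hpx hR P hP).mul ?_
        have h1 := ((sg_ur_neg (d := d) hD hP).2 ((H.ur_p1 hP hD).2 hR)).val
        rwa [Valuation.map_neg] at h1

end

section
variable {L M : Type} [Field L] [NumberField L] [Field M] [NumberField M] [Algebra L M]
  [IsTotallyReal L] {D : Dat L M} (hD : Od2 D)
include hD

theorem sg_nsq {d : M} {s : Bool} (h : Nsq D s d) : ¬ IsSquare (d * (rs7 D s : M)) := by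
  rintro ⟨b, hb⟩
  have hP : p2 D s ∈ (bl_V hD (!s)).asIdeal := Ideal.mem_span_singleton_self _
  exact h _ hP ⟨algebraMap M _ b, by rw [hb, map_mul]⟩

omit hD in
theorem sg_rs7_true (D : Dat L M) : (rs7 D true : M) = D.r := by
  rw [c2_rs7_coe, if_pos rfl]

omit hD in
theorem sg_rs7_false (D : Dat L M) : (rs7 D false : M) = -D.r := by
  rw [c2_rs7_coe, if_neg (by decide)]

omit hD in
/-- finite Sha implies the Selmer condition, if `± d √-7` are no squares -/
theorem sel_of_finiteSha {d : M} (hd : d ≠ 0) (s : Bool) (h1 : ¬ IsSquare (d * (rs7 D s : M)))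
    (h2 : ¬ IsSquare (-(d * (rs7 D s : M)))) (C : WeierstrassCurve.VariableChange M)
    (h : TRB.FiniteSha (C • TTS.Ws d)) : Sel d (rs7 D s : M) := by
  have htc : IsTotallyComplex M := D.isTotallyComplex
  intro x hx hloc
  by_contra hcon
  rw [not_or] at hcon
  exact TRH.not_finiteSha htc (sg_r2 D s) hd h1 h2 hx hcon.1 hcon.2 hloc C h

/-- [S5] -/
theorem finiteSha_iff {d : M} (hd : d ≠ 0) (hN : ∀ s, Nsq D s d) (C : WeierstrassCurve.VariableChange M) :
    TRB.FiniteSha (C • TTS.Ws d) ↔ ∀ s : Bool, Sel d (rs7 D s : M) := by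
  have hs : ∀ s : Bool, -(d * (rs7 D s : M)) = d * (rs7 D (!s) : M) := by
    intro s
    rw [c2_rs7_not]
    have e2 : ((-(rs7 D s) : 𝓞 M) : M) = -(rs7 D s : M) := map_neg _ _
    rw [e2]
    ring
  constructor
  · intro h s
    refine sel_of_finiteSha hd s (sg_nsq hD (hN s)) ?_ C h
    rw [hs]
    exact sg_nsq hD (hN (!s))
  · intro h
    have h1 := h true
    have h2 := h false
    rw [sg_rs7_true] at h1
    rw [sg_rs7_false] at h2
    exact TRH.finiteSha_of_sel D.hr hd h1 h2 C

end

end TRZ
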