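import Pool.Agent.TRZ.SEL2a
import Pool.Agent.TRZ.R6c
import Pool.Agent.TRZ.SEL1

/-! # [ALL2-S] the Selmer group and the matrix -/

set_option autoImplicit false
set_option linter.unusedSectionVars false

open NumberField Ideal IsDedekindDomain
open scoped Real Classical ComplexConjugate
open TR TRG TRP TTS TU TT

namespace TRZ

section
variable {L M : Type} [Field L] [NumberField L] [Field M] [NumberField M] [Algebra L M]
  [IsTotallyReal L] {D : Dat L M} (hD : Od2 D)
include hD
variable {s : Bool} {d : M} {T : Finset (HeightOneSpectrum (𝓞 M))} {z : HeightOneSpectrum (𝓞 M) → 𝓞 M} {ε : (𝓞 L)ˣ} {i j : Bool}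
  (H : DK D s d T z ε i j)
include H

omit hD H in
/-- the symbol of a class which is unramified at `ϖ` -/
theorem s2_bt (hi : ¬ Rm (cd D s T z ε) i) (P : HeightOneSpectrum (𝓞 M)) :
    bt (FK D s (kp (cd D s T z ε) i) j) z P = if j then nv D s z P else 0 := by
  have h1 : kp (cd D s T z ε) i = fun _ => 1 := by
    unfold kp
    rw [if_neg hi]
  have h2 : ∀ x, FK D s (kp (cd D s T z ε) i) j x = te j (rd8 D s x) := fun x => by
    unfold FK
    rw [h1, one_mul]
  unfold bt nv bt
  rw [h2]
  cases j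
  · simp [te]
  · simp [te]

/-- [S4] **the Selmer group and the matrix** -/
theorem sel_lap (hN : Nsq D s d) (hN' : Nsq D (!s) d) : Sel d (rs7 D s : M) ↔
    (Pool.Agent.TRG.lap (aM z) (fun P => if TT.qr P (algebraMap (𝓞 L) (𝓞 M) (ε : 𝓞 L) * (if i then -(p1 D s) else 1) *
      (if j then -(p2 D s) else 1)) = -1 then 1 else 0) T +
      Matrix.vecMulVec (fun P : T => nu D s P) (fun P : T => nv D s z P)).det ≠ 0 := by
  rw [H.sel_core hD hN]
  exact s2_mainA (aM z) (fun P hP => DK.kap hD H hP) (fun hi P => s2_bt hi P) (fun hi => ((DK.nsq' hD H hi).2).1 hN')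

/-- [S4'] the matrix with the row condition replaced -/
theorem sel_iff (hN : Nsq D s d) (hN' : Nsq D (!s) d) : Sel d (rs7 D s : M) ↔ GT D s T z ε i j ≠ 0 := by
  rw [sel_lap hD H hN hN', DK.GT_eq hD H hN']
  unfold GU
  rw [s2_fU (aM z) (fun P hP => DK.kap hD H hP)]

/-- [S4n] exactly one exceptional prime -/
theorem sel_n (hN : Nsq D s d) (_ : ¬ Nsq D (!s) d) (hT : T.Nonempty ∨ j = true) : Sel d (rs7 D s : M) ↔ GT D s T z ε i j ≠ 0 := by
  rw [H.sel_core hD hN]
  unfold GT
  exact s2_mainB (aM z) (fun P hP => DK.kap hD H hP) (fun hi P => s2_bt hi P) hT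

end

end TRZ
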