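import Pool.Agent.TRZ.V1
import Pool.Agent.TRZ.C6
import Pool.Agent.TRZ.SEL2
import Pool.Agent.TRZ.H2a
import Pool.Agent.TRZ.H2b
import Pool.Agent.TRZ.H3
import Pool.Agent.TRP.VAL

/-! # [ALL2-H4] the value of the primitive `L`-series -/

set_option autoImplicit false
set_option linter.unusedSectionVars false

open NumberField Ideal IsDedekindDomain
open scoped Real Classical ComplexConjugate
open TR TRG TRP TTS TU TT

namespace TRZ

section
variable {L M : Type} [Field L] [NumberField L] [Field M] [NumberField M] [Algebra L M]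
  [IsTotallyReal L] {D : Dat L M} (hD : Od2 D)

/-- `f` is `1` or vanishes on the even elements -/
def Fz (f : 𝓞 L → ℤ) : Prop := (f = fun _ => 1) ∨ ∀ y ∈ span {(2 : 𝓞 L)}, f y = 0

theorem PhiK.h4_zero {s : Bool} {T : Finset (HeightOneSpectrum (𝓞 M))} {f f' : 𝓞 L → ℤ} {Φ : Ideal (𝓞 M) →*₀ ℂ}
    (hΦ : PhiK D s T f f' Φ) {I : Ideal (𝓞 M)} {x : 𝓞 M} (hx0 : x ≠ 0) (hx : I ^ classNumber M = span {x})
    (h : (∏ P ∈ T, TT.qr P x) * f (rd8 D (!s) x) * f' (rd8 D s x) = 0) : Φ I = 0 := by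
  have h1 : Φ I ^ classNumber M = 0 := by
    rw [← map_pow, hx, hΦ.span_eq x hx0, h, Int.cast_zero, mul_zero]
  exact (pow_eq_zero_iff (classNumber_pos M).ne').1 h1

include hD

theorem PhiK.h4_zero2 {s : Bool} {T : Finset (HeightOneSpectrum (𝓞 M))} {f f' : 𝓞 L → ℤ} {Φ : Ideal (𝓞 M) →*₀ ℂ}
    (hΦ : PhiK D s T f f' Φ) (hf : ∀ y ∈ span {(2 : 𝓞 L)}, f' y = 0) {I : Ideal (𝓞 M)} (hI : I ≤ span {p2 D s}) : Φ I = 0 := by
  by_cases h0 : I = ⊥
  · rw [h0, ← Ideal.zero_eq_bot, map_zero]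
  obtain ⟨x, hx⟩ := r2_class_gen I
  have hx0 : x ≠ 0 := by
    rintro rfl
    rw [Ideal.span_singleton_eq_bot.2 rfl] at hx
    exact pow_ne_zero (classNumber M) h0 hx
  refine hΦ.h4_zero hx0 hx ?_
  rw [hf (rd8 D s x), mul_zero]
  rw [rd8_even hD, ← Ideal.span_singleton_le_iff_mem, ← hx]
  exact (Ideal.pow_le_self (classNumber_pos M).ne').trans hI

theorem PhiK.h4_zero1 {s : Bool} {T : Finset (HeightOneSpectrum (𝓞 M))} {f f' : 𝓞 L → ℤ} {Φ : Ideal (𝓞 M) →*₀ ℂ}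
    (hΦ : PhiK D s T f f' Φ) (hf : ∀ y ∈ span {(2 : 𝓞 L)}, f y = 0) {I : Ideal (𝓞 M)} (hI : I ≤ span {p1 D s}) : Φ I = 0 := by
  by_cases h0 : I = ⊥
  · rw [h0, ← Ideal.zero_eq_bot, map_zero]
  obtain ⟨x, hx⟩ := r2_class_gen I
  have hx0 : x ≠ 0 := by
    rintro rfl
    rw [Ideal.span_singleton_eq_bot.2 rfl] at hx
    exact pow_ne_zero (classNumber M) h0 hx
  refine hΦ.h4_zero hx0 hx ?_
  rw [hf (rd8 D (!s) x), mul_zero, zero_mul]
  have e : p1 D s = p2 D (!s) := by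
    unfold p2
    rw [Bool.not_not]
  rw [rd8_even hD, ← Ideal.span_singleton_le_iff_mem, ← hx, ← e]
  exact (Ideal.pow_le_self (classNumber_pos M).ne').trans hI

omit hD in
theorem PhiK.h4_zeroT {s : Bool} {T : Finset (HeightOneSpectrum (𝓞 M))} {f f' : 𝓞 L → ℤ} {Φ : Ideal (𝓞 M) →*₀ ℂ}
    (hΦ : PhiK D s T f f' Φ) {P : HeightOneSpectrum (𝓞 M)} (hP : P ∈ T) {I : Ideal (𝓞 M)} (hI : I ≤ P.asIdeal) : Φ I = 0 := by
  by_cases h0 : I = ⊥
  · rw [h0, ← Ideal.zero_eq_bot, map_zero]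
  obtain ⟨x, hx⟩ := r2_class_gen I
  have hx0 : x ≠ 0 := by
    rintro rfl
    rw [Ideal.span_singleton_eq_bot.2 rfl] at hx
    exact pow_ne_zero (classNumber M) h0 hx
  refine hΦ.h4_zero hx0 hx ?_
  rw [Finset.prod_eq_zero hP, zero_mul, zero_mul]
  rw [TT.qr_eq_zero, ← Ideal.span_singleton_le_iff_mem, ← hx]
  exact (Ideal.pow_le_self (classNumber_pos M).ne').trans hI

theorem PhiK.h4_bound {s : Bool} {T : Finset (HeightOneSpectrum (𝓞 M))} {f f' : 𝓞 L → ℤ} {Φ : Ideal (𝓞 M) →*₀ ℂ}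
    (hΦ : PhiK D s T f f' Φ) (hf : Fz f) (hf' : Fz f') (I : Ideal (𝓞 M)) : ‖Φ I‖ ^ 2 ≤ absNorm I := by
  have hz : Φ I = 0 → ‖Φ I‖ ^ 2 ≤ absNorm I := by
    intro h
    rw [h, norm_zero, zero_pow two_ne_zero]
    exact Nat.cast_nonneg _
  by_cases h0 : I = ⊥
  · apply hz
    rw [h0, ← Ideal.zero_eq_bot, map_zero]
  by_cases h : ∀ P ∈ T, ¬ I ≤ P.asIdeal
  · by_cases h1 : (f = fun _ => 1) ∨ ¬ I ≤ span {p1 D s}
    · by_cases h2 : (f' = fun _ => 1) ∨ ¬ I ≤ span {p2 D s}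
      · exact (hΦ.norm_eq I h0 h h1 h2).le
      · rw [not_or, not_not] at h2
        rcases hf' with h3 | h3
        · exact absurd h3 h2.1
        · exact hz (hΦ.h4_zero2 hD h3 h2.2)
    · rw [not_or, not_not] at h1
      rcases hf with h3 | h3
      · exact absurd h3 h1.1
      · exact hz (hΦ.h4_zero1 hD h3 h1.2)
  · push Not at h
    obtain ⟨P, hP, hI⟩ := h
    exact hz (hΦ.h4_zeroT hP hI)

theorem h4_unit_odd (u : (𝓞 L)ˣ) : (u : 𝓞 L) ∉ span {(2 : 𝓞 L)} := by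
  intro h
  rw [← t8_zero hD, t8_unit hD] at h
  exact one_ne_zero h

theorem h4_cd_odd {s : Bool} {d : M} {T : Finset (HeightOneSpectrum (𝓞 M))} {z : HeightOneSpectrum (𝓞 M) → 𝓞 M} {ε : (𝓞 L)ˣ} {i j : Bool}
    (H : DK D s d T z ε i j) : cd D s T z ε ∉ span {(2 : 𝓞 L)} := by
  unfold cd
  rw [rd8_even hD]
  have hp := x_prime hD (!s)
  have hu : -(algebraMap (𝓞 L) (𝓞 M) (ε : 𝓞 L)) ∉ span {p2 D (!s)} := by
    intro h
    have h1 : IsUnit (-(algebraMap (𝓞 L) (𝓞 M) (ε : 𝓞 L))) := (ε.isUnit.map (algebraMap (𝓞 L) (𝓞 M))).neg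
    exact hp.ne_top (Ideal.eq_top_of_isUnit_mem _ h h1)
  intro h
  rcases hp.mem_or_mem h with h | h
  · exact hu h
  · obtain ⟨P, hP, h⟩ := (Ideal.IsPrime.prod_mem_iff (hp := hp)).1 h
    obtain ⟨⟨k, hk, hz⟩, -⟩ := H.ng P hP
    have h1 : P.asIdeal ^ k ≤ span {p2 D (!s)} := by
      rw [← hz]
      exact (Ideal.span_singleton_le_iff_mem _).2 h
    have h2 := hp.le_of_pow_le h1
    have h3 : P.asIdeal = span {p2 D (!s)} := P.isMaximal.eq_of_le hp.ne_top h2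
    apply H.two P hP
    rw [h3, ← x_mul D (!s)]
    exact Ideal.mul_mem_left _ _ (Ideal.mem_span_singleton_self _)

theorem h4_fz {c : 𝓞 L} (hc : c ∉ span {(2 : 𝓞 L)}) (i : Bool) : Fz (kp c i) := by
  by_cases h : Rm c i
  · exact Or.inr fun y hy => ((kp_kp hD hc h).zero y).2 hy
  · exact Or.inl (kp_one hD h)

theorem h4_gk {V : ValuationSubring ℂ} (_ : V.valuation 2 < 1) {k : ℕ} {κ : 𝓞 L → ℤ} (hk : Kp k κ) {G : ℂ}
    (hG : G ^ 2 = (κ (-1) : ℂ) * 2 ^ (Module.finrank ℚ L * k)) :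
    G ≠ 0 ∧ V.valuation G ^ 2 = V.valuation 2 ^ (Module.finrank ℚ L * k) := by
  have h1 : κ (-1) = 1 ∨ κ (-1) = -1 := by
    rcases hk.val (-1) with h | h | h
    · exfalso
      rw [hk.zero, Ideal.mem_span_singleton] at h
      have h3 : IsUnit (2 : 𝓞 L) := isUnit_of_dvd_unit h isUnit_one.neg
      exact h4_unit_odd hD h3.unit (by rw [IsUnit.unit_spec]; exact Ideal.mem_span_singleton_self _)
    · exact Or.inl h
    · exact Or.inr h
  have h3 : V.valuation ((κ (-1) : ℂ)) = 1 := by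
    rcases h1 with h | h <;> rw [h]
    · rw [Int.cast_one, map_one]
    · rw [Int.cast_neg, Int.cast_one, Valuation.map_neg, map_one]
  constructor
  · rintro rfl
    rw [zero_pow two_ne_zero] at hG
    have h4 := congrArg V.valuation hG
    rw [map_zero, map_mul, h3, one_mul, map_pow] at h4
    have h5 : V.valuation (2 : ℂ) ≠ 0 := by
      rw [Ne, map_eq_zero]
      exact two_ne_zero
    exact pow_ne_zero _ h5 h4.symm
  · rw [← map_pow, hG, map_mul, h3, one_mul, map_pow]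

/-- the primitive and the depleted series -/
theorem h4_dep {s : Bool} {d : M} {T : Finset (HeightOneSpectrum (𝓞 M))} {z : HeightOneSpectrum (𝓞 M) → 𝓞 M} {ε : (𝓞 L)ˣ} {i j : Bool}
    (H : DK D s d T z ε i j) (hN : Nsq D s d) (P0 : PsiZ D s) {X : HeightOneSpectrum (𝓞 M) → (Ideal (𝓞 M) →*₀ ℤ)}
    (hX : ∀ P ∈ T, LamE D s P (X P)) {Y : Ideal (𝓞 M) →*₀ ℤ} (hY : LamF D s (FK D s (kp (cd D s T z ε) i) j) Y)
    {Zd : ℂ → ℂ} (hZd' : ZY P0 X Y T T Zd)
    {Φ : Ideal (𝓞 M) →*₀ ℂ} (hΦ : PhiK D s T (kp (cd D s T z ε) i) (kp (ε : 𝓞 L) j) Φ)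
    {Z : ℂ → ℂ} (hZd : Differentiable ℂ Z)
    (hZ : ∀ t : ℂ, 3 / 2 < t.re → Z t = ∑' I : Ideal (𝓞 M), conj (Φ I) * (absNorm I : ℂ) ^ (-t)) :
    Zd 1 = (if Rm (ε : 𝓞 L) j then 1 else (1 - ((c1 (!s)) ^ Module.finrank ℚ L)⁻¹)) * Z 1 := by
  have hc := h4_cd_odd hD H
  have hb := hΦ.h4_bound hD (h4_fz hD hc i) (h4_fz hD (h4_unit_odd hD ε) j)
  have hne : p2 D s ≠ 0 := by
    rw [show p2 D s = p1 D (!s) from rfl]
    exact bl_ne (D := D) (!s)
  have hser : ∀ t : ℂ, 3 / 2 < t.re → Zd t = ∑' I : Ideal (𝓞 M),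
      (if I ≤ span {p2 D s} then 0 else conj (Φ I)) * (absNorm I : ℂ) ^ (-t) := by
    intro t ht
    rw [hZd'.eq t ht]
    refine tsum_congr fun I => ?_
    by_cases hI : I ≤ span {p2 D s}
    · rw [if_pos hI, (P0.zero_iff I).2 hI, map_zero, zero_mul]
    · rw [if_neg hI, ← PhiK.twist hD H hX hY hΦ hI, map_mul, map_intCast]
  by_cases hR : Rm (ε : 𝓞 L) j
  · rw [if_pos hR, one_mul]
    have h1 : Zd = Z := by
      refine z2_identity hZd'.diff hZd fun t ht => ?_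
      rw [hser t ht, hZ t ht]
      refine tsum_congr fun I => ?_
      by_cases hI : I ≤ span {p2 D s}
      · rw [if_pos hI, hΦ.h4_zero2 hD (fun y hy => ((kp_kp hD (h4_unit_odd hD ε) hR).zero y).2 hy) hI, map_zero]
      · rw [if_neg hI]
    rw [h1]
  · rw [if_neg hR]
    have hΦ2 : Φ (span {p2 D s}) = D.NK (p2 D s : M) := by
      rw [hΦ.span_eq _ hne, kp_one hD hR, mul_one, ((DK.nsq hD H hR).1).1 hN, Int.cast_one, mul_one]
    rw [← conj_NK_p2 hD s, ← hΦ2]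
    exact remove_p2 hD hb hZd hZd'.diff hZ hser

/-- the valuation of the Euler factor -/
theorem h4_fac {s : Bool} {V : ValuationSubring ℂ} (h2 : V.valuation 2 < 1) (hs : V.valuation (c1 s) < 1) (p : Prop) [Decidable p] (x : ℂ) :
    V.valuation ((if p then 1 else (1 - ((c1 (!s)) ^ Module.finrank ℚ L)⁻¹)) * x) ^ 2 =
      V.valuation x ^ 2 * V.valuation 2 ^ (if p then 0 else 2) := by
  by_cases h : p
  · rw [if_pos h, if_pos h, one_mul, pow_zero, mul_one]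
  · rw [if_neg h, if_neg h]
    have h1 := v5_unit (half_unit (L := L) hD h2 hs)
    have h3 : V.valuation (1 - ((c1 (!s)) ^ Module.finrank ℚ L)⁻¹) = V.valuation 2 := by
      have e : (1 - ((c1 (!s)) ^ Module.finrank ℚ L)⁻¹ : ℂ) = (1 - ((c1 (!s)) ^ Module.finrank ℚ L)⁻¹) / 2 * 2 := by
        rw [div_mul_cancel₀ _ two_ne_zero]
      rw [e, map_mul, h1, one_mul]
    rw [map_mul, h3, mul_pow, mul_comm]

omit hD [IsTotallyReal L] in
theorem h4_alg {V : ValuationSubring ℂ} (c x K : ℂ) (g n : ℕ) :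
    V.valuation 2 ^ (2 * n + 2 * g) * V.valuation (c * x / (2 ^ g * K) / 2 ^ n) ^ 2 = V.valuation c ^ 2 * V.valuation (x / K) ^ 2 := by
  rw [← map_pow, ← map_pow, ← map_pow, ← map_pow, ← map_mul, ← map_mul]
  congr 1
  have h1 : (2 : ℂ) ^ g ≠ 0 := pow_ne_zero _ two_ne_zero
  have h2 : (2 : ℂ) ^ n ≠ 0 := pow_ne_zero _ two_ne_zero
  by_cases hK : K = 0
  · rw [hK]
    simp
  field_simp
  ring

/-- [H4] **the value** -/
theorem val_fin (Ψ : PsiDat D) {s : Bool} {d : M} {T : Finset (HeightOneSpectrum (𝓞 M))} {z : HeightOneSpectrum (𝓞 M) → 𝓞 M} {ε : (𝓞 L)ˣ} {i j : Bool}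
    (H : DK D s d T z ε i j) (hN : Nsq D s d) (hT : T.Nonempty ∨ Rm (cd D s T z ε) i ∨ j = true)
    {V : ValuationSubring ℂ} (h2 : V.valuation 2 < 1) (hs : V.valuation (c1 s) < 1)
    {κ₀ : ℂ} (hκ₀ : κ₀ ^ 4 = E4f tau0 ^ Module.finrank ℚ L)
    {Φ : Ideal (𝓞 M) →*₀ ℂ} (hΦ : PhiK D s T (kp (cd D s T z ε) i) (kp (ε : 𝓞 L) j) Φ)
    {Z : ℂ → ℂ} (hZd : Differentiable ℂ Z)
    (hZ : ∀ t : ℂ, 3 / 2 < t.re → Z t = ∑' I : Ideal (𝓞 M), conj (Φ I) * (absNorm I : ℂ) ^ (-t)) :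
    ∃ ζ : ℂ, V.valuation (ζ - zl (GT D s T z ε i j)) < 1 ∧
      V.valuation (Z 1 / (KL L * κ₀)) ^ 2 * V.valuation 2 ^ ((if Rm (ε : 𝓞 L) j then 0 else 2) +
          (if Rm (cd D s T z ε) i then (if i then Module.finrank ℚ L else 0) else 2)) =
        V.valuation 2 ^ (2 * T.card + (if Rm (cd D s T z ε) i then 0 else 2 * Module.finrank ℚ L)) * V.valuation ζ ^ 2 := by
  obtain ⟨P0⟩ := exists_psiZ hD Ψ s
  have hXe : ∀ P : HeightOneSpectrum (𝓞 M), ∃ X : Ideal (𝓞 M) →*₀ ℤ, P ∈ T → LamE D s P X := by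
    intro P
    by_cases hP : P ∈ T
    · obtain ⟨X, hX⟩ := exists_lamE hD s (H.two P hP)
      exact ⟨X, fun _ => hX⟩
    · exact ⟨1, fun h => absurd h hP⟩
  choose X hX using hXe
  have hX' : ∀ P ∈ T, LamE D s P (X P) := fun P hP => hX P hP
  set g := Module.finrank ℚ L with hg
  have hv2 : V.valuation (2 : ℂ) ≠ 0 := by
    rw [Ne, map_eq_zero]
    exact two_ne_zero
  have hv2p : ∀ n : ℕ, V.valuation (2 : ℂ) ^ n ≠ 0 := fun n => pow_ne_zero n hv2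
  have hc := h4_cd_odd hD H
  -- the depleted value
  have key : ∀ {Y : Ideal (𝓞 M) →*₀ ℤ}, LamF D s (FK D s (kp (cd D s T z ε) i) j) Y → ∀ {Zd : ℂ → ℂ}, ZY P0 X Y T T Zd →
      V.valuation (Zd 1 / (KL L * κ₀)) ^ 2 = V.valuation (Z 1 / (KL L * κ₀)) ^ 2 * V.valuation 2 ^ (if Rm (ε : 𝓞 L) j then 0 else 2) := by
    intro Y hY Zd hZd'
    rw [h4_dep hD H hN P0 hX' hY hZd' hΦ hZd hZ, mul_div_assoc, h4_fac hD h2 hs]
  rw [pow_add, ← mul_assoc]
  by_cases hR : Rm (cd D s T z ε) i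
  · -- `κ` ramified
    obtain ⟨k, hk, hkk⟩ : ∃ k, Kp k (kp (cd D s T z ε) i) ∧ k = if i then 3 else 2 := ⟨_, kp_kp hD hc hR, rfl⟩
    obtain ⟨G, hG2, hG⟩ := exists_gauss hD hk
    obtain ⟨hG0, hGv⟩ := h4_gk hD h2 hk hG2
    obtain ⟨Y, hY⟩ := exists_lamK hD s hk j
    obtain ⟨Zd, hZd'⟩ := exists_ZY hD P0 H.two hX' (Or.inl ⟨k, hk⟩) hY T
    have hv := val_K hD P0 Ψ h2 hs hκ₀ H.two hX' hk hG hG0 hY H.ng hZd'
    refine ⟨2 ^ (g * k) / G * Zd 1 / (2 ^ g * (KL L * κ₀)) / 2 ^ T.card, ?_, ?_⟩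
    · rw [GT, if_pos hR]
      exact hv
    · rw [← key hY hZd', if_pos hR, if_pos hR, add_zero]
      have h5 := h4_alg (V := V) (2 ^ (g * k) / G) (Zd 1) (KL L * κ₀) g T.card
      have h6 : V.valuation (2 ^ (g * k) / G) ^ 2 * V.valuation 2 ^ (g * k) = V.valuation 2 ^ (g * k) * V.valuation 2 ^ (g * k) := by
        rw [← hGv, ← mul_pow, ← map_mul, div_mul_cancel₀ _ hG0, map_pow, hGv, sq]
      have h7 : V.valuation (2 ^ (g * k) / G) ^ 2 = V.valuation 2 ^ (g * k) := mul_right_cancel₀ (hv2p (g * k)) h6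
      rw [h7] at h5
      apply mul_left_cancel₀ (hv2p (2 * g))
      rw [← mul_assoc (V.valuation 2 ^ (2 * g)) (V.valuation 2 ^ (2 * T.card)), ← pow_add, add_comm (2 * g), h5, mul_comm (V.valuation (Zd 1 / (KL L * κ₀)) ^ 2),
        ← mul_assoc, ← pow_add]
      congr 2
      rw [hkk]
      cases i
      · simp
        ring
      · simp
        ring
  · have hi : i = false := by
      by_contra h
      exact hR (Or.inl (by simpa using h))
    have hkp : kp (cd D s T z ε) i = fun _ => 1 := kp_one hD hR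
    obtain ⟨Y, hY⟩ := exists_lamT hD s j
    have hY' : LamF D s (FK D s (kp (cd D s T z ε) i) j) Y := by
      rw [hkp]
      exact hY
    obtain ⟨Zd, hZd'⟩ := exists_ZY hD P0 H.two hX' (Or.inr rfl) hY T
    have hfin : V.valuation (Zd 1 / (KL L * κ₀)) ^ 2 * V.valuation 2 ^ 2 =
        V.valuation 2 ^ (2 * T.card + 2 * g) * V.valuation (2 * Zd 1 / (2 ^ g * (KL L * κ₀)) / 2 ^ T.card) ^ 2 := by
      rw [h4_alg, mul_comm]
    refine ⟨2 * Zd 1 / (2 ^ g * (KL L * κ₀)) / 2 ^ T.card, ?_, ?_⟩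
    · rw [GT, if_neg hR]
      by_cases hj : j = true
      · subst hj
        rw [if_pos rfl]
        exact val_E hD P0 Ψ h2 hs hκ₀ H.two hX' hY H.ng hZd'
      · rw [if_neg hj]
        have hj' : j = false := by simpa using hj
        subst hj'
        have hTn : T.Nonempty := by
          rcases hT with h | h | h
          · exact h
          · exact absurd h hR
          · exact absurd h hj
        have hZE : ZE P0 X T T Zd := by
          refine ⟨hZd'.diff, fun t ht => ?_⟩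
          rw [hZd'.eq t ht]
          refine tsum_congr fun I => ?_
          by_cases hI : I ≤ span {p2 D s}
          · simp only [(P0.zero_iff I).2 hI, map_zero, zero_mul]
          · obtain ⟨x, hx, -, hYI⟩ := hY.pow I hI
            have h1 : Y I = 1 := by
              rw [hYI]
              show (1 : ℤ) * (if false = true then _ else 1) = 1
              rw [if_neg Bool.false_ne_true, mul_one]
            rw [h1, mul_one]
        exact val_O hD P0 Ψ h2 hs hκ₀ H.two hX' H.ng hTn hZE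
    · rw [← key hY' hZd', if_neg hR, if_neg hR, hfin]

end

end TRZ
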