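import Pool.Agent.TRZ.F1
import Pool.Agent.TRZ.H4

/-! # [ALL2-FIN] BSD modulo 2 for all twists over `M` -/

set_option autoImplicit false
set_option linter.unusedSectionVars false

open NumberField Ideal IsDedekindDomain
open scoped Real Classical ComplexConjugate
open TR TRG TRP TTS TU TT CM27 CMT GE

namespace TRZ

theorem f2_mon {G : Type*} [CommMonoid G] {X Y B Z Z' : G} {k₁ k₂ m₁ m₂ e e' : ℕ}
    (h1 : X * B ^ k₁ = B ^ m₁ * Z) (h2 : Y * B ^ k₂ = B ^ m₂ * Z') (he : e = k₁ + k₂) (he' : e' = m₁ + m₂) :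
    X * Y * B ^ e = B ^ e' * (Z * Z') := by
  rw [he, he', pow_add, pow_add, mul_mul_mul_comm, h1, h2, mul_mul_mul_comm]

/-- the bookkeeping of the valuations -/
theorem f2_key {V : ValuationSubring ℂ} {x y r t t' ζ ζ' : ℂ} {g n a b u u' : ℕ}
    (hx : V.valuation x * V.valuation 2 ^ g = V.valuation t)
    (hy : V.valuation y * V.valuation 2 ^ g = V.valuation t')
    (hr : V.valuation r ^ 2 = V.valuation 2 ^ (g * (a + b)))
    (h1 : V.valuation t ^ 2 * V.valuation 2 ^ (2 * u' + (g * a + 2 * u)) = V.valuation 2 ^ (2 * n + 2 * g * u) * V.valuation ζ ^ 2)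
    (h2 : V.valuation t' ^ 2 * V.valuation 2 ^ (2 * u + (g * b + 2 * u')) = V.valuation 2 ^ (2 * n + 2 * g * u') * V.valuation ζ' ^ 2) :
    V.valuation (x * y * r) * V.valuation 2 ^ (2 * g + 2 * (u + u')) =
      V.valuation 2 ^ (2 * n + g * (u + u')) * (V.valuation ζ * V.valuation ζ') := by
  rw [← pow_left_inj₀ zero_le zero_le (two_ne_zero)]
  rw [map_mul, map_mul]
  rw [← hx, mul_pow, ← pow_mul, mul_assoc, ← pow_add] at h1
  rw [← hy, mul_pow, ← pow_mul, mul_assoc, ← pow_add] at h2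
  have h3 := f2_mon h1 h2 (e := g * (a + b) + (2 * g + 2 * (u + u')) * 2) (e' := (2 * n + g * (u + u')) * 2)
    (by ring) (by ring)
  rw [mul_pow, mul_pow, mul_pow, mul_pow, mul_pow, hr, ← pow_mul, ← pow_mul, mul_assoc, ← pow_add]
  exact h3

theorem f2_sqrt {V : ValuationSubring ℂ} (hV : V.valuation 2 < 1) {N a : ℕ} (hN : Odd N) {M' : ℕ} (h : M' = N * 2 ^ a) :
    V.valuation ((√(M' : ℝ) : ℝ) : ℂ) ^ 2 = V.valuation 2 ^ a := by
  have h1 : ((√(M' : ℝ) : ℝ) : ℂ) ^ 2 = ((N : ℕ) : ℂ) * 2 ^ a := by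
    rw [← Complex.ofReal_pow, Real.sq_sqrt (Nat.cast_nonneg M'), h]
    push_cast
    rfl
  have h2 := congrArg V.valuation h1
  rwa [map_pow, map_mul, map_pow, TRS.zr3c_vodd hV hN, one_mul] at h2

section
variable {L M : Type} [Field L] [NumberField L] [Field M] [NumberField M] [Algebra L M]
  [IsTotallyReal L] {D : Dat L M} (hD : Od2 D)
include hD

theorem f2_odd_norm {s : Bool} {d : M} {T : Finset (HeightOneSpectrum (𝓞 M))} {z : HeightOneSpectrum (𝓞 M) → 𝓞 M}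
    {ε : (𝓞 L)ˣ} {i j : Bool} (H : DK D s d T z ε i j) : Odd (∏ P ∈ T, absNorm P.asIdeal) := by
  have h : ∀ P ∈ T, Odd (absNorm P.asIdeal) := fun P hP => TRB.f1_odd_norm (H.two P hP)
  clear H
  induction T using Finset.induction_on with
  | empty => exact odd_one
  | insert P S hP ih =>
    rw [Finset.prod_insert hP]
    exact (h P (Finset.mem_insert_self P S)).mul (ih fun Q hQ => h Q (Finset.mem_insert_of_mem hQ))

theorem f2_hT {s : Bool} {d : M} {T : Finset (HeightOneSpectrum (𝓞 M))} {z : HeightOneSpectrum (𝓞 M) → 𝓞 M}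
    {ε : (𝓞 L)ˣ} {i j : Bool} (H : DK D s d T z ε i j) (hN' : Nsq D (!s) d) :
    T.Nonempty ∨ Rm (cd D s T z ε) i ∨ j = true := by
  by_contra h
  push Not at h
  obtain ⟨h1, h2, h3⟩ := h
  have h4 := (DK.nsq' hD H h2).2.1 hN'
  rw [Finset.not_nonempty_iff_eq_empty.1 (Finset.not_nonempty_iff_eq_empty.2 h1), if_neg h3, Finset.sum_empty, add_zero] at h4
  exact zero_ne_one h4

/-- the valuation of the rational number -/
theorem f2_val (Ψ : PsiDat D) {s : Bool} {d : M} {T T' : Finset (HeightOneSpectrum (𝓞 M))}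
    {z z' : HeightOneSpectrum (𝓞 M) → 𝓞 M} {ε ε' : (𝓞 L)ˣ} {i j i' j' : Bool} (H : DK D s d T z ε i j)
    (H' : DK D (!s) d T' z' ε' i' j') (hN : ∀ s, Nsq D s d)
    {V : ValuationSubring ℂ} (hV : V.valuation 2 < 1) (hs : V.valuation (c1 s) < 1)
    {Φ : Ideal (𝓞 M) →*₀ ℂ} (hΦ : PhiK D s T (kp (cd D s T z ε) i) (kp (ε : 𝓞 L) j) Φ)
    {Z : ℂ → ℂ} (hZd : Differentiable ℂ Z)
    (hZ : ∀ t : ℂ, 3 / 2 < t.re → Z t = ∑' I : Ideal (𝓞 M), conj (Φ I) * (absNorm I : ℂ) ^ (-t))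
    {Q : ℚ} (hQ : Z 1 * conj (Z 1) * ((√|(discr L : ℝ)| : ℝ) : ℂ) ^ 2 *
        ((√((NN (L := L) T i j : ℕ) : ℝ) : ℝ) : ℂ) /
        ((TRS.Om : ℝ) : ℂ) ^ (2 * Module.finrank ℚ L) = Q) :
    ∃ ζ ζ' : ℂ, V.valuation (ζ - zl (GT D s T z ε i j)) < 1 ∧ V.valuation (ζ' - zl (GT D (!s) T' z' ε' i' j')) < 1 ∧
      V.valuation (Q : ℂ) * V.valuation 2 ^ (2 * Module.finrank ℚ L + 2 *
        ((if Rm (cd D s T z ε) i then 0 else 1) + (if Rm (ε : 𝓞 L) j then 0 else 1))) =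
      V.valuation 2 ^ (2 * T.card + Module.finrank ℚ L *
        ((if Rm (cd D s T z ε) i then 0 else 1) + (if Rm (ε : 𝓞 L) j then 0 else 1))) *
          (V.valuation ζ * V.valuation ζ') := by
  obtain ⟨hT, hi, hj, hR1, hR2, -, -⟩ := DK.other hD H H'
  have hΦ' := PhiK.other hD H H' hΦ
  obtain ⟨κ, hκ⟩ := IsAlgClosed.exists_pow_nat_eq (E4f tau0 ^ Module.finrank ℚ L) (n := 4) (by norm_num)
  have hV' : (V.comap (starRingEnd ℂ)).valuation 2 < 1 := by
    rw [TRH.h8_comap, Complex.conj_ofNat]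
    exact hV
  have hs' : (V.comap (starRingEnd ℂ)).valuation (c1 (!s)) < 1 := by
    rw [TRH.h8_comap, z_conj, z_not, sub_sub_cancel]
    exact hs
  obtain ⟨ζ, h1, h1'⟩ := val_fin hD Ψ H (hN s) (f2_hT hD H (hN _)) hV hs hκ hΦ hZd hZ
  obtain ⟨ζ', h2, h2'⟩ := val_fin hD Ψ H' (hN (!s)) (f2_hT hD H' (hN _)) hV' hs' (TRH.h8_conj hκ) hΦ' hZd hZ
  refine ⟨ζ, conj ζ', h1, ?_, ?_⟩
  · rwa [TRH.h8_comap, map_sub, f1_zl] at h2
  · -- transfer to `V`
    rw [← map_pow, ← map_pow, ← map_pow, ← map_pow, ← map_mul, ← map_mul, f1_comap] at h2'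
    simp only [map_mul, map_pow, map_div₀, Complex.conj_conj, Complex.conj_ofNat] at h2'
    have hKL : V.valuation (conj (KL L)) = V.valuation (KL L) := by
      congr 1
      unfold KL
      exact Complex.conj_ofReal _
    rw [hKL] at h2'
    simp only [← map_mul, ← map_div₀] at h2'
    have e1 : (if Rm (cd D s T z ε) i then (if i then Module.finrank ℚ L else 0) else 2) =
        Module.finrank ℚ L * (if i then 1 else 0) + 2 * (if Rm (cd D s T z ε) i then 0 else 1) := by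
      by_cases h : Rm (cd D s T z ε) i
      · rw [if_pos h, if_pos h]
        split_ifs <;> ring
      · have h5 : ¬ (i = true) := fun h6 => h (Or.inl h6)
        rw [if_neg h, if_neg h, if_neg h5]
        ring
    have e2 : (if Rm (cd D (!s) T' z' ε') i' then (if i' then Module.finrank ℚ L else 0) else 2) =
        Module.finrank ℚ L * (if j then 1 else 0) + 2 * (if Rm (ε : 𝓞 L) j then 0 else 1) := by
      by_cases h : Rm (cd D (!s) T' z' ε') i'
      · rw [if_pos h, if_pos (hR2.2 h), hi]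
        split_ifs <;> ring
      · have h5 : ¬ (j = true) := fun h6 => h (Or.inl (by rw [hi]; exact h6))
        rw [if_neg h, if_neg (fun h7 => h (hR2.1 h7)), if_neg h5]
        ring
    have e3 : (if Rm (ε' : 𝓞 L) j' then 0 else 2) = 2 * (if Rm (cd D s T z ε) i then 0 else 1) := by
      by_cases h : Rm (cd D s T z ε) i
      · rw [if_pos h, if_pos (hR1.2 h)]
      · rw [if_neg h, if_neg (fun h7 => h (hR1.1 h7))]
    have e4 : (if Rm (ε : 𝓞 L) j then 0 else 2) = 2 * (if Rm (ε : 𝓞 L) j then 0 else 1) := by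
      split_ifs <;> rfl
    have e5 : (if Rm (cd D s T z ε) i then 0 else 2 * Module.finrank ℚ L) =
        2 * Module.finrank ℚ L * (if Rm (cd D s T z ε) i then 0 else 1) := by
      split_ifs <;> ring
    have e6 : (if Rm (cd D (!s) T' z' ε') i' then 0 else 2 * Module.finrank ℚ L) =
        2 * Module.finrank ℚ L * (if Rm (ε : 𝓞 L) j then 0 else 1) := by
      by_cases h : Rm (cd D (!s) T' z' ε') i'
      · rw [if_pos h, if_pos (hR2.2 h)]
        ring
      · rw [if_neg h, if_neg (fun h7 => h (hR2.1 h7))]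
        ring
    rw [e1, e4, e5] at h1'
    rw [e2, e3, e6, hT] at h2'
    have hx := f1_val (L := L) hV hκ (Z 1)
    have hy := f1_val (L := L) hV hκ (conj (Z 1))
    have hr := f2_sqrt (V := V) hV (N := 7 ^ Module.finrank ℚ L * ∏ P ∈ T, absNorm P.asIdeal)
      ((Odd.pow (by decide)).mul (f2_odd_norm hD H)) (M' := NN (L := L) T i j) rfl
    have h7 := f2_key hx hy hr h1' h2'
    rw [← h7]
    congr 2
    rw [← hQ, two_mul, pow_add]
    ring

/-- the number of the unramified primes above `2` -/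
noncomputable def nu2 (c c' : 𝓞 L) (i j : Bool) : ℕ := (if Rm c i then 0 else 1) + (if Rm c' j then 0 else 1)

/-- **the core of the final assembly**: from the valuation of the rational number to BSD modulo 2 -/
theorem f2_core {s : Bool} {d : M} {T : Finset (HeightOneSpectrum (𝓞 M))}
    {z : HeightOneSpectrum (𝓞 M) → 𝓞 M} {ε : (𝓞 L)ˣ} {i j : Bool} (H : DK D s d T z ε i j) (hd : d ≠ 0)
    {Φ : Ideal (𝓞 M) →*₀ ℂ} (hΦ : PhiK D s T (kp (cd D s T z ε) i) (kp (ε : 𝓞 L) j) Φ)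
    {Z : ℂ → ℂ} (hZd : Differentiable ℂ Z)
    (hZ : ∀ t : ℂ, 3 / 2 < t.re → Z t = ∑' I : Ideal (𝓞 M), conj (Φ I) * (absNorm I : ℂ) ^ (-t))
    {E : WeierstrassCurve M} {C C' : WeierstrassCurve.VariableChange M} (hE : E = C • TTS.Ws d) (hE' : E = C' • Wd d)
    (htor : ∃ m : ℕ, (m = 0 ∨ Odd m) ∧ Nat.card (AddCommGroup.torsion (C • TTS.Ws d).toAffine.Point) = 4 * m)
    {V : ValuationSubring ℂ} (hV : V.valuation 2 < 1) {G : Prop} (hfs : TRB.FiniteSha E ↔ G)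
    {W : V.ValueGroup} (hW1 : G → W = 1) (hW0 : ¬ G → W < 1)
    (hv : ∀ Q : ℚ, Z 1 * conj (Z 1) * ((√|(discr L : ℝ)| : ℝ) : ℂ) ^ 2 *
        ((√((NN (L := L) T i j : ℕ) : ℝ) : ℝ) : ℂ) /
        ((TRS.Om : ℝ) : ℂ) ^ (2 * Module.finrank ℚ L) = Q → V.valuation (Q : ℂ) *
          V.valuation 2 ^ (2 * Module.finrank ℚ L + 2 * nu2 (cd D s T z ε) (ε : 𝓞 L) i j) =
      V.valuation 2 ^ (2 * T.card + Module.finrank ℚ L * nu2 (cd D s T z ε) (ε : 𝓞 L) i j) * W) :
    TRB.ModTwo E := by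
  refine ⟨TRB.m1_ell hd hE, ?_⟩
  have hser := series_K hD H hΦ hZd hZ C'
  rw [← hE'] at hser
  obtain ⟨Q0, hQ0⟩ := rational_K hD H hΦ hZd hZ
  have hvQ := hv Q0 hQ0
  set g := Module.finrank ℚ L with hg
  set n := T.card with hn
  obtain ⟨u, hu⟩ : ∃ u : ℕ, u = nu2 (cd D s T z ε) (ε : 𝓞 L) i j := ⟨_, rfl⟩
  obtain ⟨r, hr⟩ : ∃ r : ℕ, r = nr (cd D s T z ε) (ε : 𝓞 L) i j := ⟨_, rfl⟩
  have hur : u + r = 2 := by
    rw [hu, hr]
    unfold nr nu2
    split_ifs <;> rfl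
  rw [← hu] at hvQ
  obtain ⟨N, hN'⟩ : ∃ N : ℕ, N = NN (L := L) T i j := ⟨_, rfl⟩
  have hN0 : N ≠ 0 := by
    rw [hN']
    unfold NN
    have h3 : ∏ P ∈ T, absNorm P.asIdeal ≠ 0 := by
      rw [Finset.prod_ne_zero_iff]
      intro P _ h4
      exact P.ne_bot (Ideal.absNorm_eq_zero_iff.1 h4)
    exact mul_ne_zero (mul_ne_zero (pow_ne_zero _ (by norm_num)) h3) (pow_ne_zero _ two_ne_zero)
  rw [← hN'] at hQ0
  have ha : V.valuation (2 : ℂ) ≠ 0 := by
    rw [Ne, map_eq_zero]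
    exact two_ne_zero
  -- the valuation of the rational number
  have hone : G → Q0 ≠ 0 ∧ padicValRat 2 Q0 + (2 * g + 2 * u) = 2 * (n : ℤ) + g * u := by
    intro hf
    rw [hW1 hf, mul_one] at hvQ
    have hQ0 : Q0 ≠ 0 := by
      rintro rfl
      rw [Rat.cast_zero, map_zero, zero_mul] at hvQ
      exact pow_ne_zero _ ha hvQ.symm
    refine ⟨hQ0, ?_⟩
    rw [z2_val hV hQ0, ← zpow_natCast, ← zpow_natCast, ← zpow_add₀ ha] at hvQ
    have h5 := (zpow_right_strictAnti₀ (zero_lt_iff.2 ha) hV).injective hvQ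
    push_cast at h5
    exact h5
  have hzero : ¬ G → Q0 ≠ 0 → 2 * (n : ℤ) + g * u + 1 ≤ padicValRat 2 Q0 + (2 * g + 2 * u) := by
    intro hf hQ0
    have h4 : V.valuation (Q0 : ℂ) * V.valuation 2 ^ (2 * g + 2 * u) < V.valuation 2 ^ (2 * n + g * u) := by
      rw [hvQ]
      exact mul_lt_of_lt_one_right (pow_pos (zero_lt_iff.2 ha) _) (hW0 hf)
    rw [z2_val hV hQ0, ← zpow_natCast, ← zpow_natCast, ← zpow_add₀ ha] at h4
    have h5 := (zpow_right_strictAnti₀ (zero_lt_iff.2 ha) hV).lt_iff_gt.1 h4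
    push_cast at h5
    linarith
  -- the quotient
  obtain ⟨qP, hqP, hqP2, hper⟩ := period_K hD H C
  obtain ⟨m, hm, hcard⟩ := htor
  have htam := tam_K hD H C
  rw [← hE] at hper hcard htam
  rw [← hN'] at hper
  rw [← hr] at hqP2
  rw [← hn, ← hr] at htam
  have hqP0 : qP ≠ 0 := hqP.ne'
  have hsN0 : √(N : ℝ) ≠ 0 := (Real.sqrt_pos.2 (by exact_mod_cast Nat.pos_of_ne_zero hN0)).ne'
  have hquot : SBSD2.bsdQuotient E (Z 1 * conj (Z (conj 1))) =
      ((Q0 * (4 * (m : ℚ)) ^ 2 / (qP * 4 ^ (n + r)) : ℚ) : ℂ) := by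
    have hper' : SBSD.period E = (qP : ℝ) * √7 ^ g * TRS.Om ^ (2 * g) / √(N : ℝ) := by
      rw [← hper, mul_div_cancel_right₀ _ hsN0]
    have hdiscr := TRB.f6_discr (TRB.ofTR D)
    rw [← hg] at hdiscr
    have hOm : ((TRS.Om : ℝ) : ℂ) ^ g ≠ 0 := by
      apply pow_ne_zero
      exact_mod_cast TRS.Om_pos.ne'
    have h7 : ((√7 : ℝ) : ℂ) ^ g ≠ 0 := by
      apply pow_ne_zero
      rw [Complex.ofReal_ne_zero]
      exact (Real.sqrt_pos.2 (by norm_num)).ne'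
    have hsNC : ((√(N : ℝ) : ℝ) : ℂ) ≠ 0 := by rw [Complex.ofReal_ne_zero]; exact hsN0
    have hqPC : (qP : ℂ) ≠ 0 := by exact_mod_cast hqP0
    have h4C : (4 : ℂ) ^ (n + r) ≠ 0 := pow_ne_zero _ (by norm_num)
    have hQ : Z 1 * conj (Z 1) * ((√|(discr L : ℝ)| : ℝ) : ℂ) ^ 2 * ((√(N : ℝ) : ℝ) : ℂ) =
        (Q0 : ℂ) * (((TRS.Om : ℝ) : ℂ) ^ g) ^ 2 := by
      rw [← hQ0, ← pow_mul, mul_comm g 2, div_mul_cancel₀]
      rw [mul_comm 2 g, pow_mul]
      exact pow_ne_zero _ hOm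
    unfold SBSD2.bsdQuotient
    rw [hcard, htam, hper', hdiscr, map_one]
    push_cast
    rw [mul_comm 2 g, pow_mul]
    generalize ((TRS.Om : ℝ) : ℂ) ^ g = A at hQ hOm ⊢
    generalize ((√|(discr L : ℝ)| : ℝ) : ℂ) = Y at hQ ⊢
    generalize ((√7 : ℝ) : ℂ) ^ g = B at h7 ⊢
    generalize ((√(N : ℝ) : ℝ) : ℂ) = W at hQ hsNC ⊢
    generalize (4 : ℂ) ^ (n + r) = F at h4C ⊢
    field_simp
    linear_combination (m : ℂ) ^ 2 * hQ
  have : Fact (Nat.Prime 2) := ⟨Nat.prime_two⟩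
  have h4v : padicValRat 2 (4 : ℚ) = 2 := by
    rw [show (4 : ℚ) = 2 ^ 2 by norm_num, padicValRat.pow, q1_v2]
    norm_num
  have h4Q : (4 : ℚ) ^ (n + r) ≠ 0 := pow_ne_zero _ four_ne_zero
  have hval : ∀ (h0 : Q0 * (4 * (m : ℚ)) ^ 2 / (qP * 4 ^ (n + r)) ≠ 0),
      padicValRat 2 (Q0 * (4 * (m : ℚ)) ^ 2 / (qP * 4 ^ (n + r))) = padicValRat 2 Q0 + 4 - 2 * (n + r) + g * r := by
    intro h0
    have hQ00 : Q0 ≠ 0 := by
      rintro rfl
      exact h0 (by ring)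
    have hm0 : (m : ℚ) ≠ 0 := by
      intro h1
      exact h0 (by rw [h1]; ring)
    have hmo : Odd m := by
      rcases hm with h1 | h1
      · exact absurd (by exact_mod_cast h1) hm0
      · exact h1
    have hmv : padicValRat 2 (m : ℚ) = 0 := q1_odd hmo
    rw [padicValRat.div (mul_ne_zero hQ00 (pow_ne_zero _ (mul_ne_zero four_ne_zero hm0)))
      (mul_ne_zero hqP0 h4Q), padicValRat.mul hQ00
      (pow_ne_zero _ (mul_ne_zero four_ne_zero hm0)), padicValRat.pow, padicValRat.mul four_ne_zero hm0,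
      padicValRat.mul hqP0 h4Q, padicValRat.pow, h4v, hmv, hqP2]
    push_cast
    ring
  have hurZ : (u : ℤ) + r = 2 := by exact_mod_cast hur
  have hbk : 2 * (n : ℤ) + g * u - (2 * g + 2 * u) + 4 - 2 * (n + r) + g * r = 0 := by
    linear_combination ((g : ℤ) - 2) * hurZ
  refine ⟨_, hser, Q0 * (4 * (m : ℚ)) ^ 2 / (qP * 4 ^ (n + r)), hquot, ?_, ?_⟩
  · by_cases h0 : Q0 * (4 * (m : ℚ)) ^ 2 / (qP * 4 ^ (n + r)) = 0
    · rw [h0, padicValRat.zero]
    · rw [hval h0]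
      have hQ00 : Q0 ≠ 0 := by
        rintro rfl
        exact h0 (by ring)
      by_cases hf : G
      · have := (hone hf).2
        linarith
      · have := hzero hf hQ00
        linarith
  · rw [hfs]
    constructor
    · rintro ⟨h0, h1⟩
      by_contra hf
      have hQ00 : Q0 ≠ 0 := by
        rintro rfl
        exact h0 (by ring)
      rw [hval h0] at h1
      have := hzero hf hQ00
      linarith
    · intro hf
      obtain ⟨hQ00, hv⟩ := hone hf
      have hfin : Finite E.toAffine.Point := (hfs.2 hf).1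
      have hm0 : (m : ℚ) ≠ 0 := by
        intro h1
        have h2 : m = 0 := by exact_mod_cast h1
        rw [h2, mul_zero] at hcard
        exact TRB.f6_torsion hcard
      have h0 : Q0 * (4 * (m : ℚ)) ^ 2 / (qP * 4 ^ (n + r)) ≠ 0 :=
        div_ne_zero (mul_ne_zero hQ00 (pow_ne_zero _ (mul_ne_zero four_ne_zero hm0)))
          (mul_ne_zero hqP0 h4Q)
      refine ⟨h0, ?_⟩
      rw [hval h0]
      linarith

/-- [FIN] **BSD modulo 2** -/
theorem modTwo_K (Ψ : PsiDat D) {d : M} (hd : d ≠ 0) (hN : ∀ s, Nsq D s d) {E : WeierstrassCurve M}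
    {C C' : WeierstrassCurve.VariableChange M} (hE : E = C • TTS.Ws d) (hE' : E = C' • Wd d) :
    TRB.ModTwo E := by
  obtain ⟨V, hV⟩ := exists_V
  obtain ⟨s, hs⟩ := f1_side hV
  obtain ⟨T, z, ε, i, j, H, -⟩ := exists_DK hD hd s
  obtain ⟨T', z', ε', i', j', H', -⟩ := exists_DK hD hd (!s)
  have hfs : TRB.FiniteSha E ↔ GT D s T z ε i j ≠ 0 ∧ GT D (!s) T' z' ε' i' j' ≠ 0 := by
    rw [← sel_iff hD H (hN s) (hN (!s)), ← sel_iff hD H' (hN (!s)) (hN (!(!s))), hE, finiteSha_iff hD hd hN C]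
    constructor
    · exact fun h => ⟨h _, h _⟩
    · rintro ⟨h1, h2⟩ b
      cases s <;> cases b <;> assumption
  obtain ⟨Φ, hΦ⟩ := exists_PhiK hD H Ψ
  obtain ⟨Z, hZd, hZ⟩ := exists_ZK hD H hΦ
  obtain ⟨Q0, hQ0⟩ := rational_K hD H hΦ hZd hZ
  obtain ⟨ζ, ζ', h1, h2, hvQ⟩ := f2_val hD Ψ H H' hN hV hs hΦ hZd hZ hQ0
  have hle : V.valuation ζ ≤ 1 := by
    have h3 : V.valuation ζ = V.valuation ((ζ - zl (GT D s T z ε i j)) + zl (GT D s T z ε i j)) := by
      rw [sub_add_cancel]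
    rw [h3]
    exact (V.valuation.map_add _ _).trans (max_le h1.le (va_zl_le _))
  refine f2_core hD H hd hΦ hZd hZ hE hE' (tor_K hD H hN C) hV hfs (W := V.valuation ζ * V.valuation ζ') ?_ ?_ ?_
  · rintro ⟨hf, hf'⟩
    unfold zl at h1 h2
    rw [if_neg hf] at h1
    rw [if_neg hf'] at h2
    rw [v5_unit h1, v5_unit h2, one_mul]
  · intro hf
    rw [not_and_or, not_not, not_not] at hf
    rcases hf with hf | hf
    · unfold zl at h1 h2
      rw [if_pos hf, sub_zero] at h1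
      refine mul_lt_one_of_lt_of_le h1 ?_
      by_cases hf' : GT D (!s) T' z' ε' i' j' = 0
      · rw [if_pos hf', sub_zero] at h2
        exact h2.le
      · rw [if_neg hf'] at h2
        exact (v5_unit h2).le
    · unfold zl at h2
      rw [if_pos hf, sub_zero] at h2
      exact mul_lt_one_of_nonneg_of_lt_one_right hle zero_le h2
  · intro Q hQ
    have e : Q = Q0 := by
      have h3 := hQ.symm.trans hQ0
      exact_mod_cast h3
    rw [e]
    exact hvQ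

end

end TRZ
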