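import Pool.Agent.TRZ.Defs2

/-! # [ALL2] common definitions 3: the number of the ramified primes above `2`, the norm -/

set_option autoImplicit false

open NumberField Ideal IsDedekindDomain
open scoped Real Classical ComplexConjugate
open TR TRG TRP

namespace TRZ

section
variable {L : Type} [Field L] [NumberField L]

/-- the number of the ramified primes above `2` -/
noncomputable def nr (c c' : 𝓞 L) (i j : Bool) : ℕ := (if Rm c i then 1 else 0) + (if Rm c' j then 1 else 0)

variable {M : Type} [Field M] [NumberField M]

/-- the norm which makes everything rational -/
noncomputable def NN (T : Finset (HeightOneSpectrum (𝓞 M))) (i j : Bool) : ℕ :=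
  7 ^ Module.finrank ℚ L * (∏ P ∈ T, absNorm P.asIdeal) * 2 ^ (Module.finrank ℚ L * ((if i then 1 else 0) + (if j then 1 else 0)))

end

end TRZ
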