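import Pool.Agent.TRZ.C2
import Pool.Agent.TRZ.Defs3
import Pool.Agent.TRP.SE6
import Pool.Agent.TRP.SE7

/-! # [ALL2-C] Tamagawa numbers and torsion -/

set_option autoImplicit false
set_option linter.unusedSectionVars false

open NumberField Ideal IsDedekindDomain
open scoped Real Classical ComplexConjugate
open TR TRG TRP TTS TU TT

namespace TRZ

section
variable {L M : Type} [Field L] [NumberField L] [Field M] [NumberField M] [Algebra L M]
  [IsTotallyReal L] {D : Dat L M}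

/-- the prime `ϖ'` -/
noncomputable def pl2 (hD : Od2 D) (s : Bool) : HeightOneSpectrum (𝓞 M) where
  asIdeal := span {p2 D s}
  isPrime := x_prime hD s
  ne_bot := by
    rw [Ne, Ideal.span_singleton_eq_bot]
    exact x1_p2_ne s

theorem pl2_mem (hD : Od2 D) (s : Bool) : p2 D s ∈ (pl2 hD s).asIdeal := Ideal.mem_span_singleton_self _

theorem pl2_mem1 (hD : Od2 D) (s : Bool) : p1 D s ∈ (pl2 hD (!s)).asIdeal := by
  have h := pl2_mem hD (!s)
  rwa [c2_p2_not] at h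

theorem pl2_two (hD : Od2 D) (s : Bool) : (2 : 𝓞 M) ∈ (pl2 hD s).asIdeal := c1_mem_two (pl2_mem hD s)

theorem pl2_ne (hD : Od2 D) (s : Bool) : pl2 hD s ≠ pl2 hD (!s) := by
  intro h
  have h1 := pl2_mem1 hD s
  rw [← h] at h1
  exact c1_p1_not (pl2_mem hD s) h1

theorem pl2_eq (hD : Od2 D) (s : Bool) {P : HeightOneSpectrum (𝓞 M)} (h : (2 : 𝓞 M) ∈ P.asIdeal) : P = pl2 hD s ∨ P = pl2 hD (!s) := by
  rcases c1_or hD s h with h1 | h1
  · exact Or.inl (HeightOneSpectrum.ext (c1_ideal hD h1))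
  · exact Or.inr (HeightOneSpectrum.ext (c1_ideal hD h1))

theorem pl2_seven (hD : Od2 D) (s : Bool) : (7 : 𝓞 M) ∉ (pl2 hD s).asIdeal := by
  intro h7
  apply (pl2 hD s).isPrime.ne_top
  rw [Ideal.eq_top_iff_one]
  have h3 : (1 : 𝓞 M) = 7 - 3 * 2 := by norm_num
  rw [h3]
  exact Ideal.sub_mem _ h7 (Ideal.mul_mem_left _ _ (pl2_two hD s))

variable {s : Bool} {d : M} {T : Finset (HeightOneSpectrum (𝓞 M))} {z : HeightOneSpectrum (𝓞 M) → 𝓞 M} {ε : (𝓞 L)ˣ} {i j : Bool}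
  (H : DK D s d T z ε i j)
include H

theorem DK.ne : d ≠ 0 := by
  obtain ⟨y, hy, h⟩ := H.eq
  rintro rfl
  rw [zero_mul] at h
  have h1 := mul_eq_zero.1 h.symm
  rcases h1 with h1 | h1
  · have h2 : (algebraMap (𝓞 L) (𝓞 M) (ε : 𝓞 L) * (if i then -(p1 D s) else 1) * (if j then -(p2 D s) else 1) * ∏ P ∈ T, z P : 𝓞 M) = 0 :=
      (map_eq_zero_iff (algebraMap (𝓞 M) M) (IsFractionRing.injective _ _)).1 h1
    have hz : ∀ P ∈ T, z P ≠ 0 := by
      intro P hP h0
      obtain ⟨k, hk, e⟩ := (H.ng P hP).gen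
      rw [h0, Ideal.span_singleton_eq_bot.2 rfl] at e
      exact P.ne_bot ((pow_eq_zero_iff hk.pos.ne').1 e.symm)
    have h3 : (if i then -(p1 D s) else 1 : 𝓞 M) ≠ 0 := by
      split_ifs
      · rw [neg_ne_zero]
        have := x1_p2_ne (D := D) (!s)
        rwa [c2_p2_not] at this
      · exact one_ne_zero
    have h4 : (if j then -(p2 D s) else 1 : 𝓞 M) ≠ 0 := by
      split_ifs
      · rw [neg_ne_zero]
        exact x1_p2_ne s
      · exact one_ne_zero
    have h5 : algebraMap (𝓞 L) (𝓞 M) (ε : 𝓞 L) ≠ 0 := (ε.isUnit.map (algebraMap (𝓞 L) (𝓞 M))).ne_zero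
    exact mul_ne_zero (mul_ne_zero (mul_ne_zero h5 h3) h4) (Finset.prod_ne_zero_iff.2 hz) h2
  · exact hy (pow_eq_zero_iff two_ne_zero |>.1 h1)

/-- [C] Tamagawa numbers at `ϖ'` -/
theorem DK.tam_p2 (hD : Od2 D) (C : WeierstrassCurve.VariableChange M) :
    SBSD.tam (C • TTS.Ws d) (pl2 hD s) = 4 ^ (if Rm (ε : 𝓞 L) j then 1 else 0) := by
  have h := H.ur_p2 (pl2_mem hD s) hD
  by_cases hR : Rm (ε : 𝓞 L) j
  · rw [if_pos hR, pow_one]
    exact TRX2.tam_ram _ (pl2_two hD s) (c1_two_not hD (pl2_mem hD s)) H.ne (fun hu => (h.1 hu) hR) C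
  · rw [if_neg hR, pow_zero]
    exact tam_good _ (h.2 hR) (pl2_seven hD s) C

theorem DK.tam_p1 (hD : Od2 D) (C : WeierstrassCurve.VariableChange M) :
    SBSD.tam (C • TTS.Ws d) (pl2 hD (!s)) = 4 ^ (if Rm (cd D s T z ε) i then 1 else 0) := by
  have h := H.ur_p1 (pl2_mem1 hD s) hD
  by_cases hR : Rm (cd D s T z ε) i
  · rw [if_pos hR, pow_one]
    exact TRX2.tam_ram _ (pl2_two hD (!s)) (c1_two_not hD (pl2_mem hD (!s))) H.ne (fun hu => (h.1 hu) hR) C
  · rw [if_neg hR, pow_zero]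
    exact tam_good _ (h.2 hR) (pl2_seven hD (!s)) C

omit H in
/-- [C] Tamagawa numbers -/
theorem tam_K (hD : Od2 D) (H : DK D s d T z ε i j) (C : WeierstrassCurve.VariableChange M) :
    ∏ᶠ P : HeightOneSpectrum (𝓞 M), SBSD.tam (C • TTS.Ws d) P = 4 ^ (T.card + nr (cd D s T z ε) (ε : 𝓞 L) i j) := by
  have hsupp : Function.mulSupport (fun P : HeightOneSpectrum (𝓞 M) =>
      SBSD.tam (C • Ws d) P) ⊆ ↑(insert (pl2 hD s) (insert (pl2 hD (!s)) T)) := by
    intro P hP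
    rw [Function.mem_mulSupport] at hP
    rw [Finset.mem_coe, Finset.mem_insert, Finset.mem_insert]
    by_contra hcon
    push Not at hcon
    apply hP
    have h2 : (2 : 𝓞 M) ∉ P.asIdeal := fun h => by
      rcases pl2_eq hD s h with h | h
      · exact hcon.1 h
      · exact hcon.2.1 h
    refine se6_even D P h2 H.ne ?_ C
    by_contra h
    exact hcon.2.2 ((H.mem_iff h2).2 h)
  have h1 : pl2 hD (!s) ∉ T := fun h => H.two _ h (pl2_two hD _)
  have h2 : pl2 hD s ∉ insert (pl2 hD (!s)) T := by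
    rw [Finset.mem_insert, not_or]
    exact ⟨pl2_ne hD s, fun h => H.two _ h (pl2_two hD _)⟩
  rw [finprod_eq_prod_of_mulSupport_subset _ hsupp, Finset.prod_insert h2, Finset.prod_insert h1,
    Finset.prod_congr rfl (fun P hP => se6_odd D P (H.two P hP) H.ne ((H.mem_iff (H.two P hP)).1 hP) C), Finset.prod_const,
    H.tam_p2 hD, H.tam_p1 hD]
  unfold nr
  rw [pow_add, pow_add]
  ring

omit H in
/-- [C] torsion -/
theorem tor_K (hD : Od2 D) (H : DK D s d T z ε i j) (hN : ∀ s, Nsq D s d) (C : WeierstrassCurve.VariableChange M) :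
    ∃ m : ℕ, (m = 0 ∨ Odd m) ∧
      Nat.card (AddCommGroup.torsion (C • TTS.Ws d).toAffine.Point) = 4 * m := by
  have hd := H.ne
  obtain ⟨e⟩ := exists_vc d C
  have s1 : ¬ IsSquare (d * D.r) := by
    intro h
    have h1 := hN true (pl2 hD true) (pl2_mem hD true)
    rw [c2_rs7_coe, if_pos rfl] at h1
    exact h1 (h.map _)
  have s2 : ¬ IsSquare (-(d * D.r)) := by
    intro h
    have h1 := hN false (pl2 hD false) (pl2_mem hD false)
    rw [c2_rs7_coe, if_neg (by decide), mul_neg] at h1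
    exact h1 (h.map _)
  obtain ⟨k1, k2, k3, k4, k5, k6⟩ := T_ne hd D.hr
  have hes : ∀ (R : (C • Ws d).toAffine.Point)
      (T : (Ws d).toAffine.Point), R = e.symm T ↔ e R = T := fun R T => by
    rw [AddEquiv.eq_symm_apply]
  refine TRB.f5_four (e.symm (TTS.T1 hd D.hr)) (e.symm (TTS.T2 hd D.hr)) (e.symm (T3 hd))
    ?_ ?_ ?_ ?_ ?_ ?_ ?_ ?_
  · rw [Ne, AddEquiv.map_eq_zero_iff]; exact k1
  · rw [Ne, AddEquiv.map_eq_zero_iff]; exact k2
  · rw [Ne, AddEquiv.map_eq_zero_iff]; exact k3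
  · rw [Ne, e.symm.injective.eq_iff]; exact k4
  · rw [Ne, e.symm.injective.eq_iff]; exact k5
  · rw [Ne, e.symm.injective.eq_iff]; exact k6
  · intro R
    rw [hes, hes, hes]
    have h1 := two_nsmul_eq_zero hd D.hr (e R)
    rw [← map_nsmul, AddEquiv.map_eq_zero_iff, AddEquiv.map_eq_zero_iff] at h1
    exact h1
  · intro R
    have h1 := not_half hd D.hr s1 s2 (e R)
    rw [← map_nsmul] at h1
    rw [Ne, Ne, Ne, hes, hes, hes]
    exact h1

end

end TRZ
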