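import Pool.Agent.TRZ.CL1D
import Pool.Agent.TRZ.CL
import Pool.Agent.TRZ.C3

/-! # [ALL2-FE, CL1] at most one exceptional prime above `2`: the class in terms of `d`, the torsion -/

set_option autoImplicit false
set_option linter.unusedSectionVars false

open NumberField Ideal IsDedekindDomain
open scoped Real Classical ComplexConjugate
open TR TRG TRP TTS TU TT XTB

namespace TRZ

section
variable {K : Type} [Field K] [CharZero K] {d r : K}

theorem cl1_seven (hr : r ^ 2 = -7) : e1 r - 7 = r * wbB r ^ 4 := by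
  unfold e1 wbB
  linear_combination (-(r ^ 3) + 4 * r ^ 2 + r - 24) * hr / 16

/-- a point of order `4`, if `d √-7` is a square -/
theorem cl1_half (hd : d ≠ 0) (hr : r ^ 2 = -7) (h : IsSquare (d * r)) : ∃ P : (Ws d).toAffine.Point, addOrderOf P = 4 := by
  obtain ⟨a, ha⟩ := h
  obtain ⟨b, hb⟩ : ∃ b : K, b = a * wbB r ^ 2 := ⟨_, rfl⟩
  have h12 : d * e1 r - d * e2 r = a ^ 2 := by
    have h := e1_sub_e2 (M := K) (r := r)
    rw [← mul_sub, h, ha, sq]
  have h13 : d * e1 r - 7 * d = b ^ 2 := by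
    have h := cl1_seven hr
    rw [hb]
    linear_combination d * h + wbB r ^ 4 * ha
  have ha0 : a ≠ 0 := by
    rintro rfl
    exact s2a_ne12 hd hr (by linear_combination h12)
  have hb0 : b ≠ 0 := by
    rintro rfl
    exact s2a_ne13 hd hr (by linear_combination h13)
  have hab : a + b ≠ 0 := by
    intro h0
    exact s2a_ne23 hd hr (by linear_combination h13 - h12 - (a - b) * h0)
  have hY : a * b * (a + b) ≠ 0 := mul_ne_zero (mul_ne_zero ha0 hb0) hab
  have hE : (a * b * (a + b)) ^ 2 = (d * e1 r + a * b) ^ 3 - 35 * d ^ 2 * (d * e1 r + a * b) - 98 * d ^ 3 := by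
    rw [factor hr]
    have e2' : d * e1 r + a * b - d * e2 r = a * (a + b) := by linear_combination h12
    have e3' : d * e1 r + a * b - 7 * d = b * (a + b) := by linear_combination h13
    rw [e2', e3', add_sub_cancel_left]
    ring
  obtain ⟨Y2, h2, e⟩ := two_mkP hd hE hY
  have hne : (2 : ℕ) • mkP hd _ _ hE ≠ 0 := by
    rw [e]
    exact mkP_ne_zero hd h2
  have hF := FF_sq hd hr (mkP hd _ _ hE) hne
  have hFa : FF r (mkP hd _ _ hE) = a := by
    unfold FF
    rw [(xP_mkP hd hE).1, (xP_mkP hd hE).2, (s2b_kappa (d := d) hr).2.2.2, div_eq_iff (mul_ne_zero two_ne_zero hY)]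
    have e2' : d * e1 r + a * b - d * e2 r = a * (a + b) := by linear_combination h12
    have e3' : (d * e2 r - d * e1 r) * (d * e2 r - 7 * d) = a ^ 2 * (a ^ 2 - b ^ 2) := by
      have i1 : d * e2 r - d * e1 r = -a ^ 2 := by linear_combination -h12
      have i2 : d * e2 r - 7 * d = b ^ 2 - a ^ 2 := by linear_combination h13 - h12
      rw [i1, i2]
      ring
    rw [e2', e3']
    ring
  have hx : xP ((2 : ℕ) • mkP hd _ _ hE) = d * e1 r := by
    rw [hFa] at hF
    linear_combination -hF - h12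
  rw [e, (xP_mkP hd h2).1] at hx
  have hY2 : Y2 = 0 := by
    have h3 := h2
    rw [hx, factor hr, sub_self, zero_mul, zero_mul] at h3
    exact pow_eq_zero_iff two_ne_zero |>.1 h3
  have h4 : (2 : ℕ) • (2 : ℕ) • mkP hd _ _ hE = 0 := by
    rw [e]
    subst hY2
    exact two_mkP_zero hd h2
  refine ⟨mkP hd _ _ hE, ?_⟩
  have h5 : addOrderOf (mkP hd _ _ hE) = 2 ^ (1 + 1) := by
    refine addOrderOf_eq_prime_pow ?_ ?_
    · rw [pow_one]
      exact hne
    · have e5 : (2 : ℕ) ^ (1 + 1) = 2 * 2 := by norm_num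
      rw [e5, mul_nsmul]
      exact h4
  rw [h5]
  norm_num

/-- no point of order `4`, if `± d √-7` are no squares -/
theorem cl1_tors (hd : d ≠ 0) (hr : r ^ 2 = -7) (C : WeierstrassCurve.VariableChange K) :
    (¬ ∃ P : (C • Ws d).toAffine.Point, addOrderOf P = 4) ↔ ¬ IsSquare (d * r) ∧ ¬ IsSquare (-(d * r)) := by
  obtain ⟨e⟩ := exists_vc d C
  constructor
  · intro h
    have key : ∀ ρ : K, ρ ^ 2 = -7 → ¬ IsSquare (d * ρ) := by
      intro ρ hρ hsq
      obtain ⟨P, hP⟩ := cl1_half hd hρ hsq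
      apply h
      refine ⟨e.symm P, ?_⟩
      rw [← hP]
      exact addOrderOf_injective (e.symm : (Ws d).toAffine.Point →+ (C • Ws d).toAffine.Point) e.symm.injective P
    refine ⟨key r hr, ?_⟩
    rw [← mul_neg]
    exact key (-r) (by rw [neg_sq]; exact hr)
  · rintro ⟨s1, s2⟩ ⟨P, hP⟩
    have h1 := not_half hd hr s1 s2 (e P)
    have h4 : (4 : ℕ) • P = 0 := by
      rw [← hP]
      exact addOrderOf_nsmul_eq_zero P
    have h2 : (2 : ℕ) • P ≠ 0 := by
      intro h
      have h3 := addOrderOf_dvd_of_nsmul_eq_zero h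
      rw [hP] at h3
      exact absurd (Nat.le_of_dvd two_pos h3) (by norm_num)
    have h3 : (2 : ℕ) • ((2 : ℕ) • e P) = 0 := by
      rw [← map_nsmul, ← map_nsmul, ← mul_nsmul]
      have e4 : 2 * 2 = 4 := by norm_num
      rw [e4, h4, map_zero]
    have h5 := (two_nsmul_eq_zero hd hr ((2 : ℕ) • e P)).1 h3
    rcases h5 with h5 | h5 | h5 | h5
    · apply h2
      rw [← map_nsmul, AddEquiv.map_eq_zero_iff] at h5
      exact h5
    · exact h1.1 h5
    · exact h1.2.1 h5
    · exact h1.2.2 h5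

end

section
variable {L M : Type} [Field L] [NumberField L] [Field M] [NumberField M] [Algebra L M]
  [IsTotallyReal L] {D : Dat L M} (hD : Od2 D)
include hD

/-- [SN] torsion -/
theorem tor_K' {d : M} (hd : d ≠ 0) (hN : ∀ s, ¬ IsSquare (d * (rs7 D s : M))) (C : WeierstrassCurve.VariableChange M) :
    ∃ m : ℕ, (m = 0 ∨ Odd m) ∧ Nat.card (AddCommGroup.torsion (C • TTS.Ws d).toAffine.Point) = 4 * m := by
  obtain ⟨e⟩ := exists_vc d C
  have s1 : ¬ IsSquare (d * D.r) := by
    have h1 := hN true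
    rwa [c2_rs7_coe, if_pos rfl] at h1
  have s2 : ¬ IsSquare (-(d * D.r)) := by
    have h1 := hN false
    rwa [c2_rs7_coe, if_neg (by decide), mul_neg] at h1
  obtain ⟨k1, k2, k3, k4, k5, k6⟩ := T_ne hd D.hr
  have hes : ∀ (R : (C • Ws d).toAffine.Point)
      (T : (Ws d).toAffine.Point), R = e.symm T ↔ e R = T := fun R T => by
    rw [AddEquiv.eq_symm_apply]
  refine TRB.f5_four (e.symm (TTS.T1 hd D.hr)) (e.symm (TTS.T2 hd D.hr)) (e.symm (T3 hd))
    ?_ ?_ ?_ ?_ ?_ ?_ ?_ ?_
  · rw [Ne, AddEquiv.map_eq_zero_iff]; exact k1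
  · rw [Ne, AddEquiv.map_eq_zero_iff]; exact k2
  · rw [Ne, AddEquiv.map_eq_zero_iff]; exact k3
  · rw [Ne, e.symm.injective.eq_iff]; exact k4
  · rw [Ne, e.symm.injective.eq_iff]; exact k5
  · rw [Ne, e.symm.injective.eq_iff]; exact k6
  · intro R
    rw [hes, hes, hes]
    have h1 := two_nsmul_eq_zero hd D.hr (e R)
    rw [← map_nsmul, AddEquiv.map_eq_zero_iff, AddEquiv.map_eq_zero_iff] at h1
    exact h1
  · intro R
    have h1 := not_half hd D.hr s1 s2 (e R)
    rw [← map_nsmul] at h1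
    rw [Ne, Ne, Ne, hes, hes, hes]
    exact h1

/-- [CL1] the class of the curves with at most one exceptional prime above `2` and without points of order `4` -/
theorem cl1_iff {d : M} (hd : d ≠ 0) (C : WeierstrassCurve.VariableChange M) :
    GenOne (C • Ws d) ↔ (∃ s : Bool, Nsq D s d) ∧ ∀ s : Bool, ¬ IsSquare (d * (rs7 D s : M)) := by
  have hW : ∀ P : HeightOneSpectrum (𝓞 M), (TT.Wc 1 0 : WeierstrassCurve (P.adicCompletion M)) = ⟨1, -1, 0, -2, -1⟩ := by
    intro P
    ext <;> simp [TT.Wc]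
  have htors : (¬ ∃ P : (C • Ws d).toAffine.Point, addOrderOf P = 4) ↔ ∀ s : Bool, ¬ IsSquare (d * (rs7 D s : M)) := by
    rw [cl1_tors hd D.hr C]
    constructor
    · rintro ⟨s1, s2⟩ s
      rw [c2_rs7_coe]
      cases s
      · rw [if_neg (by decide), mul_neg]
        exact s2
      · rw [if_pos rfl]
        exact s1
    · intro h
      have h1 := h true
      have h2 := h false
      rw [c2_rs7_coe, if_pos rfl] at h1
      rw [c2_rs7_coe, if_neg (by decide), mul_neg] at h2
      exact ⟨h1, h2⟩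
  -- the condition at one prime
  have hone : ∀ {s : Bool} {P : HeightOneSpectrum (𝓞 M)}, p2 D s ∈ P.asIdeal → ((XTS.GoodReduction (C • Ws d) P →
      ∃ C1 : WeierstrassCurve.VariableChange (P.adicCompletion M),
        C1 • (C • Ws d).map (algebraMap M (P.adicCompletion M)) = ⟨1, -1, 0, -2, -1⟩) ↔ Nsq D s d) := by
    intro s P hP
    have h2 := c1_mem_two hP
    have h1 : Nsq D s d ↔ ¬ IsSquare (algebraMap M (P.adicCompletion M) (d * (rs7 D s : M))) := by
      constructor
      · intro h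
        exact h P hP
      · intro h Q hQ
        have hPQ : Q = P := HeightOneSpectrum.ext ((c1_ideal hD hQ).trans (c1_ideal hD hP).symm)
        rw [hPQ]
        exact h
    rw [h1, cl_loc hD hd hP]
    constructor
    · intro h hU
      obtain ⟨C1, hC1⟩ := h ((good_two h2 hd C).2 hU)
      rw [← hW P] at hC1
      exact (cl_iso hd C P).1 ⟨C1, hC1⟩
    · intro h hg
      rw [← hW P]
      exact (cl_iso hd C P).2 (h ((good_two h2 hd C).1 hg))
  constructor
  · intro h
    refine ⟨?_, htors.1 h.tors⟩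
    obtain ⟨P, h2, hP⟩ := h.two
    rcases c1_or hD true h2 with hP1 | hP1
    · exact ⟨true, (hone hP1).1 hP⟩
    · exact ⟨!true, (hone hP1).1 hP⟩
  · rintro ⟨⟨s, hs⟩, ht⟩
    have hP0 : p2 D s ∈ (bl_V hD (!s)).asIdeal := Ideal.mem_span_singleton_self _
    exact ⟨nf3_j hd C, ⟨_, c1_mem_two hP0, (hone hP0).2 hs⟩, htors.2 ht⟩

end

end TRZ
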