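import Pool.Agent.TRZ.F1
import Pool.Agent.TRZ.H4
import Pool.Agent.TRH.H7b

/-! # [ALL2-FIN2] the value is not zero if the group is finite, at most one exceptional prime -/

set_option autoImplicit false
set_option linter.unusedSectionVars false

open NumberField Ideal IsDedekindDomain
open scoped Real Classical ComplexConjugate
open TR TRG TRP TTS TU TT CM27 CMT GE

namespace TRZ

theorem f3_V (s : Bool) : ∃ V : ValuationSubring ℂ, V.valuation 2 < 1 ∧ V.valuation (c1 s) < 1 := by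
  obtain ⟨V, hV⟩ := exists_V
  obtain ⟨t, ht⟩ := f1_side hV
  by_cases h : t = s
  · subst h
    exact ⟨V, hV, ht⟩
  · have h' : t = !s := by
      cases s <;> cases t <;> simp_all
    refine ⟨V.comap (starRingEnd ℂ), ?_, ?_⟩
    · rw [TRH.h8_comap, Complex.conj_ofNat]
      exact hV
    · rw [TRH.h8_comap, z_conj, ← z_not, ← h']
      exact ht

section
variable {L M : Type} [Field L] [NumberField L] [Field M] [NumberField M] [Algebra L M]
  [IsTotallyReal L] {D : Dat L M} (hD : Od2 D)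
include hD

/-- a prime `ϖ'` -/
theorem f3_P (s : Bool) : ∃ P : HeightOneSpectrum (𝓞 M), p2 D s ∈ P.asIdeal := by
  refine ⟨⟨span {p2 D s}, x_prime hD s, ?_⟩, Ideal.mem_span_singleton_self _⟩
  rw [Ne, Ideal.span_singleton_eq_bot]
  rw [show p2 D s = p1 D (!s) from rfl]
  exact bl_ne (D := D) (!s)

theorem f3_not_sq {s : Bool} {d : M} (hN : Nsq D s d) : ¬ IsSquare (d * (rs7 D s : M)) := by
  obtain ⟨P, hP⟩ := f3_P hD s
  intro h
  exact hN P hP (h.map _)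

/-- `-δ` a local square at `ϖ`: the class is unramified -/
theorem f3_unr {s : Bool} {d : M} {T : Finset (HeightOneSpectrum (𝓞 M))} {z : HeightOneSpectrum (𝓞 M) → 𝓞 M}
    {ε : (𝓞 L)ˣ} {i j : Bool} (H : DK D s d T z ε i j) (hd : d ≠ 0) (hn : ¬ Nsq D (!s) d) :
    ¬ Rm (cd D s T z ε) i := by
  unfold Nsq at hn
  push Not at hn
  obtain ⟨P, hP, hsq⟩ := hn
  have hr := c2_rs7_ne (D := D) (!s)
  have h1 : Ur P (d * (rs7 D (!s) : M)) := (x0_sq (mul_ne_zero hd hr) hsq).ur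
  have h2 : Ur P (rs7 D (!s) : M) := (ur_iff_q4 hD hP (c2_rs7_mem hP)).2 (c2_q4_rs7 hD)
  have h3 := h1.mul h2
  have e : d * (rs7 D (!s) : M) * (rs7 D (!s) : M) = (rs7 D (!s) : M) ^ 2 * d := by ring
  rw [e, ur_sq_mul hr] at h3
  exact (H.ur_p1 (by rwa [← c2_p2_not]) hD).1 h3

/-- the hypothesis of `val_fin`: `-δ` is no square -/
theorem f3_hT {s : Bool} {d : M} {T : Finset (HeightOneSpectrum (𝓞 M))} {z : HeightOneSpectrum (𝓞 M) → 𝓞 M}
    {ε : (𝓞 L)ˣ} {i j : Bool} (H : DK D s d T z ε i j) (hsq : ¬ IsSquare (-(d * (rs7 D s : M)))) :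
    T.Nonempty ∨ Rm (cd D s T z ε) i ∨ j = true := by
  by_contra h
  push Not at h
  obtain ⟨h1, h2, h3⟩ := h
  subst h1
  unfold Rm at h2
  rw [not_or, not_not] at h2
  obtain ⟨h2, hq⟩ := h2
  have hq' : Q4 ((-ε : (𝓞 L)ˣ) : 𝓞 L) := by
    rw [Units.val_neg, ← q4_per_iff (rd8_alg hD (!s) (-(ε : 𝓞 L))), map_neg]
    unfold cd at hq
    rwa [Finset.prod_empty, mul_one] at hq
  obtain ⟨w, hw⟩ := q4_unit hD hq'
  obtain ⟨y, hy, h⟩ := H.eq
  apply hsq
  rw [if_neg h2, if_neg h3, Finset.prod_empty, mul_one, mul_one, mul_one] at h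
  refine ⟨((algebraMap (𝓞 L) (𝓞 M) (w : 𝓞 L) : 𝓞 M) : M) * y, ?_⟩
  have h4 : -((algebraMap (𝓞 L) (𝓞 M) (ε : 𝓞 L) : 𝓞 M) : M) = ((algebraMap (𝓞 L) (𝓞 M) (w : 𝓞 L) : 𝓞 M) : M) ^ 2 := by
    have h5 : -(ε : 𝓞 L) = (w : 𝓞 L) ^ 2 := by
      rw [← Units.val_neg, hw, Units.val_pow_eq_pow_val]
    rw [← map_pow, ← map_pow, ← h5, map_neg, map_neg]
  rw [h]
  linear_combination y ^ 2 * h4

/-- `-δ` a square: the decomposition is trivial -/
theorem f3_triv {s : Bool} {d : M} {T : Finset (HeightOneSpectrum (𝓞 M))} {z : HeightOneSpectrum (𝓞 M) → 𝓞 M}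
    {ε : (𝓞 L)ˣ} {i j : Bool} (H : DK D s d T z ε i j) (hd : d ≠ 0) (hsq : IsSquare (-(d * (rs7 D s : M)))) :
    T = ∅ ∧ ¬ Rm (cd D s T z ε) i ∧ j = false := by
  have hval : ∀ P : HeightOneSpectrum (𝓞 M), IsSquare (P.valuation M (d * (rs7 D s : M))) := by
    intro P
    obtain ⟨y, hy⟩ := hsq
    exact ⟨P.valuation M y, by rw [← Valuation.map_neg, hy, map_mul]⟩
  refine ⟨?_, ?_, ?_⟩
  · rw [Finset.eq_empty_iff_forall_notMem]
    intro P hP
    refine (H.mem_iff (H.two P hP)).1 hP ?_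
    rw [← c2_val_rs7 s]
    exact hval P
  · refine f3_unr hD H hd fun hN => ?_
    obtain ⟨P, hP⟩ := f3_P hD (!s)
    refine hN P hP ?_
    have e : d * (rs7 D (!s) : M) = -(d * (rs7 D s : M)) := by
      rw [c2_rs7_not]
      have e1 : ((-rs7 D s : 𝓞 M) : M) = -(rs7 D s : M) := map_neg _ _
      rw [e1, mul_neg]
    rw [e]
    exact hsq.map _
  · by_contra hj
    have hj' : j = true := by simpa using hj
    subst hj'
    obtain ⟨P, hP⟩ := f3_P hD s
    obtain ⟨y, hy, h⟩ := H.val_p2 hP hD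
    have h1 := hval P
    have hr : P.valuation M (rs7 D s : M) = 1 := (TU.g1_val_one P).2 (c2_rs7_mem hP)
    rw [map_mul, hr, mul_one, h, if_pos rfl, c2_mul_sq ((P.valuation M).ne_zero_iff.2 hy), c2_exp_sq] at h1
    exact absurd h1 (by decide)

/-- the curve with `8`-torsion: the anchor -/
theorem f3_anchor (Ψ : PsiDat D) {s : Bool} {d : M} {T : Finset (HeightOneSpectrum (𝓞 M))} {z : HeightOneSpectrum (𝓞 M) → 𝓞 M}
    {ε : (𝓞 L)ˣ} {i j : Bool} (H : DK D s d T z ε i j) (hN : Nsq D s d)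
    (hT : T = ∅) (hR : ¬ Rm (cd D s T z ε) i) (hj : j = false)
    {Φ : Ideal (𝓞 M) →*₀ ℂ} (hΦ : PhiK D s T (kp (cd D s T z ε) i) (kp (ε : 𝓞 L) j) Φ)
    {Z : ℂ → ℂ} (hZd : Differentiable ℂ Z)
    (hZ : ∀ t : ℂ, 3 / 2 < t.re → Z t = ∑' I : Ideal (𝓞 M), conj (Φ I) * (absNorm I : ℂ) ^ (-t)) : Z 1 ≠ 0 := by
  obtain ⟨V, hV, hs⟩ := f3_V s
  obtain ⟨κ, hκ⟩ := IsAlgClosed.exists_pow_nat_eq (E4f tau0 ^ Module.finrank ℚ L) (n := 4) (by norm_num)
  obtain ⟨P0⟩ := exists_psiZ hD Ψ s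
  have hX : ∀ P ∈ T, LamE D s P ((fun _ => 1 : HeightOneSpectrum (𝓞 M) → (Ideal (𝓞 M) →*₀ ℤ)) P) := by
    intro P hP
    rw [hT] at hP
    exact absurd hP (Finset.notMem_empty P)
  obtain ⟨Y, hY⟩ := exists_lamT hD s j
  have hY' : LamF D s (FK D s (kp (cd D s T z ε) i) j) Y := by
    rw [kp_one hD hR]
    exact hY
  obtain ⟨Zd, hZd'⟩ := exists_ZY hD P0 H.two hX (Or.inr rfl) hY T
  have h1 := h4_dep hD H hN P0 hX hY' hZd' hΦ hZd hZ
  have hZE : ZE P0 (fun _ => 1) ∅ ∅ Zd := by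
    refine ⟨hZd'.diff, fun t ht => ?_⟩
    rw [hZd'.eq t ht, hT]
    refine tsum_congr fun I => ?_
    by_cases hI : I ≤ span {p2 D s}
    · simp only [(P0.zero_iff I).2 hI, map_zero, zero_mul]
    · obtain ⟨x, hx, -, hYI⟩ := hY.pow I hI
      have h1 : Y I = 1 := by
        rw [hYI, hj]
        show (1 : ℤ) * (if false = true then _ else 1) = 1
        rw [if_neg Bool.false_ne_true, mul_one]
      rw [h1, mul_one]
  have h2 := v5_unit (anchor hD Ψ P0 hV hs hκ hZE)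
  intro h0
  rw [h0, mul_zero] at h1
  rw [h1, mul_zero, zero_div, map_zero] at h2
  exact zero_ne_one h2

/-- [FIN2] at most one exceptional prime -/
theorem conv_K (Ψ : PsiDat D) {d : M} (hd : d ≠ 0) (hN : ∃ s, Nsq D s d) {E : WeierstrassCurve M}
    {C C' : WeierstrassCurve.VariableChange M} (hE : E = C • TTS.Ws d) (hE' : E = C' • Wd d) (hS : TRB.FiniteSha E) :
    ∃ Z : ℂ → ℂ, SBSD2.IsEntireLSeries E Z ∧ Z 1 ≠ 0 := by
  obtain ⟨s, hs⟩ := hN
  obtain ⟨T, z, ε, i, j, H, -⟩ := exists_DK hD hd s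
  obtain ⟨Φ, hΦ⟩ := exists_PhiK hD H Ψ
  obtain ⟨Z, hZd, hZ⟩ := exists_ZK hD H hΦ
  have hser := series_K hD H hΦ hZd hZ C'
  rw [← hE'] at hser
  refine ⟨_, hser, ?_⟩
  suffices hZ1 : Z 1 ≠ 0 by
    rw [map_one]
    exact mul_ne_zero hZ1 ((map_ne_zero _).2 hZ1)
  by_cases hsq : IsSquare (-(d * (rs7 D s : M)))
  · obtain ⟨hT, hR, hj⟩ := f3_triv hD H hd hsq
    exact f3_anchor hD Ψ H hs hT hR hj hΦ hZd hZ
  · have hSel : Sel d (rs7 D s : M) := by
      intro x hx0 hx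
      by_contra hcon
      push Not at hcon
      have hr : ((rs7 D s : 𝓞 M) : M) ^ 2 = -7 := by
        rw [c2_rs7_coe]
        split_ifs
        · exact D.hr
        · rw [neg_sq]
          exact D.hr
      rw [hE] at hS
      exact TRH.not_finiteSha D.isTotallyComplex hr hd (f3_not_sq hD hs) hsq hx0 hcon.1 hcon.2 hx C hS
    have hT := f3_hT hD H hsq
    have hG : GT D s T z ε i j ≠ 0 := by
      by_cases hN' : Nsq D (!s) d
      · exact (sel_iff hD H hs hN').1 hSel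
      · have hR := f3_unr hD H hd hN'
        refine (sel_n hD H hs hN' ?_).1 hSel
        rcases hT with h | h | h
        · exact Or.inl h
        · exact absurd h hR
        · exact Or.inr h
    obtain ⟨V, hV, hc⟩ := f3_V s
    obtain ⟨κ, hκ⟩ := IsAlgClosed.exists_pow_nat_eq (E4f tau0 ^ Module.finrank ℚ L) (n := 4) (by norm_num)
    obtain ⟨ζ, h1, h2⟩ := val_fin hD Ψ H hs hT hV hc hκ hΦ hZd hZ
    unfold zl at h1
    rw [if_neg hG] at h1
    intro h0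
    rw [h0, zero_div, map_zero, zero_pow two_ne_zero, zero_mul, v5_unit h1, one_pow, mul_one] at h2
    have ha : V.valuation (2 : ℂ) ≠ 0 := by
      rw [Ne, map_eq_zero]
      exact two_ne_zero
    exact pow_ne_zero _ ha h2.symm

end

end TRZ
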