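import Pool.Agent.TRZ.FESN2
import Pool.Agent.TRZ.SEL2
import Pool.Agent.TRZ.FD7

/-! # [ALL2-FE, SN] the Selmer group on the exceptional side and the matrix; finiteness of `Ш` -/

set_option autoImplicit false
set_option linter.unusedSectionVars false

open NumberField Ideal IsDedekindDomain
open scoped Real Classical ComplexConjugate
open TR TRG TRP TTS TU TT

namespace TRZ

section
variable {L M : Type} [Field L] [NumberField L] [Field M] [NumberField M] [Algebra L M]
  [IsTotallyReal L] {D : Dat L M}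

/-- the type of `d` at `ϖ'`, if `δ` is a square there -/
theorem fs_ur (hD : Od2 D) {s : Bool} {d : M} (hd : d ≠ 0) (hn : ¬ Nsq D s d) : ∀ P : HeightOneSpectrum (𝓞 M), p2 D s ∈ P.asIdeal → Ur P d := by
  intro P hP
  unfold Nsq at hn
  push Not at hn
  obtain ⟨Q, hQ, hsq⟩ := hn
  have hPQ : P = Q := HeightOneSpectrum.ext ((c1_ideal hD hP).trans (c1_ideal hD hQ).symm)
  rw [hPQ]
  exact (sg_ur_dr hD hQ).1 (se4_ur Q (c1_mem_two hQ) (sg_dr hd s) hsq)

variable (hD : Od2 D)
include hD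

/-- [SN] the Selmer group on the exceptional side and the matrix -/
theorem sel_m' {s : Bool} {d : M} {T : Finset (HeightOneSpectrum (𝓞 M))} {z : HeightOneSpectrum (𝓞 M) → 𝓞 M} {ε : (𝓞 L)ˣ} {i j : Bool}
    (H : DK D s d T z ε i j) (hn : ¬ Nsq D (!s) d) (hN : Nsq D s d) (hT : T.Nonempty ∨ j = true) :
    Sel d (rs7 D (!s) : M) ↔ GT D s T z ε i j ≠ 0 := by
  have hd := H.sg_ne
  have hU' := fs_ur hD hd hn
  have hP0 : p1 D s ∈ (bl_V hD s).asIdeal := Ideal.mem_span_singleton_self _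
  have hU1 : Ur (bl_V hD s) d := hU' _ (by
    rw [c2_p2_not]
    exact hP0)
  have hRi : ¬ Rm (cd D s T z ε) i := (H.ur_p1 hP0 hD).1 hU1
  have hi : i = false := by
    cases i
    · rfl
    · exact absurd (Or.inl rfl) hRi
  obtain ⟨T', z', ε', i', j', H', -⟩ := exists_DK hD hd (!s)
  obtain ⟨hT', hi1, hj1, -, hR, -⟩ := DK.other hD H H'
  subst hT'
  subst hi1
  subst hj1
  have hnu : ∀ P ∈ T', nu D (!s) P = nv D s z P := by
    intro P hP
    have h := nu_eq hD (s := !s) (H.two P hP) (H.ng P hP)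
    rw [Bool.not_not] at h
    exact h
  have ha : ∀ P ∈ T', ∀ Q ∈ T', P ≠ Q → aM z' P Q = aM z Q P := by
    intro P hP Q hQ hPQ
    unfold TRG.aM
    rw [NG.transpose hD hPQ (H.two P hP) (H.two Q hQ) (H.ng P hP) (H'.ng Q hQ)]
  obtain ⟨e, he⟩ : ∃ e : HeightOneSpectrum (𝓞 M) → ZMod 2, e = fun P => if TT.qr P (algebraMap (𝓞 L) (𝓞 M) (ε' : 𝓞 L) *
      (if i' then -(p1 D (!s)) else 1) * (if j' then -(p2 D (!s)) else 1)) = -1 then 1 else 0 := ⟨_, rfl⟩
  have hrow : ∀ (w : HeightOneSpectrum (𝓞 M) → ZMod 2) (m : ZMod 2), ∀ P ∈ T', fnrow (aM z') e (nu D (!s)) T' w m P =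
      fnrow (fun P Q => aM z Q P) e (nv D s z) T' w m P := by
    intro w m P hP
    have h1 : ∀ Q ∈ T'.erase P, aM z' P Q = aM z Q P := fun Q hQ =>
      ha P hP Q (Finset.mem_of_mem_erase hQ) fun h => (Finset.mem_erase.1 hQ).1 h.symm
    have h2 : ∑ Q ∈ T'.erase P, aM z' P Q * w Q = ∑ Q ∈ T'.erase P, aM z Q P * w Q :=
      Finset.sum_congr rfl fun Q hQ => by rw [h1 Q hQ]
    unfold fnrow
    rw [hnu P hP, Finset.sum_congr rfl h1, h2]
  have hmain := fn_main (fun P Q => aM z Q P) (e := e) (nu := nv D s z) (T := T') (R := Rm (cd D (!s) T' z' ε') i') (i := i')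
    (fun P hP => by
      rw [he, ← hnu P hP]
      exact fs_kap H' hD hU' hP) (fun h => Or.inl h) (fun hR' P hP => by
      have hRj : ¬ Rm (ε : 𝓞 L) i' := fun h => hR' (hR.1 h)
      have hj : i' = false := by
        cases i'
        · rfl
        · exact absurd (Or.inl rfl) hRj
      have h1 := DK.kap hD H hP
      have h2 : (if j' then nu D s P else 0) = 0 := by
        rw [hi]
        rfl
      have h3 : (if i' then nv D s z P else 0) = 0 := by
        rw [hj]
        rfl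
      rw [s2_bt hRi, fs_kap H hD (fun Q hQ => (H.ur_p2 hQ hD).2 hRj) hP, h2, h3, add_zero, add_zero] at h1
      exact h1.symm) (fun hR' => by
      have hRj : ¬ Rm (ε : 𝓞 L) i' := fun h => hR' (hR.1 h)
      have h1 := (DK.nsq hD H hRj).2.1 hN
      rw [hi, if_neg (by decide), zero_add] at h1
      exact h1) hT
  rw [DK.sel_core_x H' hD hU']
  unfold GT
  rw [if_neg hRi, ← hmain]
  constructor
  · intro h w m hr hc
    exact h w m (fun P hP => by rw [← he, hrow w m P hP]; exact hr P hP) hc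
  · intro h w m hr hc
    exact h w m (fun P hP => by rw [← hrow w m P hP, he]; exact hr P hP) hc

/-- [SN] the Selmer group on the exceptional side. `δ` is a local square at `ϖ'`, no square in `M`; local condition at `ϖ'`: unramified classes; `x = (-ϖ)^m ∏_U z_P`, `m` free; rows: `[lap | ν]`;
it is minimal iff the rank is `#T`; `= GT` of the other side, transposed. -/
theorem sel_m {s : Bool} {d : M} {T : Finset (HeightOneSpectrum (𝓞 M))} {z : HeightOneSpectrum (𝓞 M) → 𝓞 M} {ε : (𝓞 L)ˣ} {i j : Bool}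
    (H : DK D s d T z ε i j) (hn : ¬ Nsq D (!s) d) (hN : Nsq D s d) (hT : T.Nonempty) : Sel d (rs7 D (!s) : M) ↔ GT D s T z ε i j ≠ 0 :=
  sel_m' hD H hn hN (Or.inl hT)

/-- [SN] -/
theorem finiteSha_iff' {d : M} (hd : d ≠ 0) (hN : ∀ s, ¬ IsSquare (d * (rs7 D s : M))) (C : WeierstrassCurve.VariableChange M) :
    TRB.FiniteSha (C • TTS.Ws d) ↔ ∀ s : Bool, Sel d (rs7 D s : M) := by
  have hs : ∀ s : Bool, -(d * (rs7 D s : M)) = d * (rs7 D (!s) : M) := by
    intro s
    rw [c2_rs7_not]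
    have e2 : ((-(rs7 D s) : 𝓞 M) : M) = -(rs7 D s : M) := map_neg _ _
    rw [e2]
    ring
  constructor
  · intro h s
    refine sel_of_finiteSha hd s (hN s) ?_ C h
    rw [hs]
    exact hN (!s)
  · intro h
    have h1 := h true
    have h2 := h false
    rw [sg_rs7_true] at h1
    rw [sg_rs7_false] at h2
    exact TRH.finiteSha_of_sel D.hr hd h1 h2 C

end

end TRZ
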