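import Pool.Agent.TRZ.FEA2

set_option autoImplicit false
set_option linter.unusedSectionVars false

open NumberField Ideal IsDedekindDomain
open scoped Real Classical ComplexConjugate nonZeroDivisors
open TR TRG TRP

/-! # [ALL2-FA3] the symmetry of the Eisenstein series -/

namespace TRZ

section
variable {L : Type} [Field L] [NumberField L]

theorem fa3_inD {n m : ℕ} {y : 𝓞 L × 𝓞 L} : inD n m ((y.2, -y.1) : 𝓞 L × 𝓞 L) ↔ inD n m y := by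
  have e : (((-y.1 : 𝓞 L)) : L) / (m : L) = -((y.1 : L) / (m : L)) := by
    have e1 : (((-y.1 : 𝓞 L)) : L) = -(y.1 : L) := rfl
    rw [e1, neg_div]
  unfold inD
  constructor
  · rintro ⟨h1, h2⟩
    refine ⟨?_, h1⟩
    have h3 : (((-y.1 : 𝓞 L)) : L) / (m : L) ∈ dualL (span {((n : ℕ) : 𝓞 L)}) := h2
    rw [e, neg_mem_iff] at h3
    exact h3
  · rintro ⟨h1, h2⟩
    refine ⟨h2, ?_⟩
    show (((-y.1 : 𝓞 L)) : L) / (m : L) ∈ dualL (span {((n : ℕ) : 𝓞 L)})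
    rw [e, neg_mem_iff]
    exact h1

/-- the character is periodic -/
theorem fa3_per {n m : ℕ} {z a a' : 𝓞 L} (hz : (z : L) / (m : L) ∈ dualL (span {((n : ℕ) : 𝓞 L)}))
    (ha : a - a' ∈ span {((n : ℕ) : 𝓞 L)}) : ee (trR (((a * z : 𝓞 L) : L) / (m : L))) = ee (trR (((a' * z : 𝓞 L) : L) / (m : L))) := by
  have e : ((a * z : 𝓞 L) : L) / (m : L) = ((a' * z : 𝓞 L) : L) / (m : L) + (z : L) / (m : L) * ((a - a' : 𝓞 L) : L) := by
    push_cast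
    ring
  have h1 : ee (trR ((z : L) / (m : L) * ((a - a' : 𝓞 L) : L))) = 1 := by
    rw [g4_ee_tr]
    exact hz _ ha
  rw [e, fa_ee_add, h1, mul_one]

theorem fa3_ft2 {n m : ℕ} {w : 𝓞 L × 𝓞 L → ℤ} (h : OW n w) {y : 𝓞 L × 𝓞 L} (hy : inD n m y) :
    ft2 n (fun x => w ((SL : (𝓞 L × 𝓞 L) ≃ₗ[𝓞 L] _).symm x)) m y = ft2 n w m ((y.2, -y.1) : 𝓞 L × 𝓞 L) := by
  have := nat_fin (L := L) h.pos
  have := Fintype.ofFinite (𝓞 L ⧸ span {((n : ℕ) : 𝓞 L)})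
  unfold ft2
  rw [finsum_eq_sum_of_fintype, finsum_eq_sum_of_fintype]
  let e : ((𝓞 L ⧸ span {((n : ℕ) : 𝓞 L)}) × (𝓞 L ⧸ span {((n : ℕ) : 𝓞 L)})) ≃
      ((𝓞 L ⧸ span {((n : ℕ) : 𝓞 L)}) × (𝓞 L ⧸ span {((n : ℕ) : 𝓞 L)})) :=
    { toFun := fun p => (p.2, -p.1), invFun := fun p => (-p.2, p.1), left_inv := fun p => by simp, right_inv := fun p => by simp }
  rw [← e.sum_comp fun p => (w ((Quotient.out p.1 : 𝓞 L), (Quotient.out p.2 : 𝓞 L)) : ℂ) *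
      ee (trR (((sB ((Quotient.out p.1 : 𝓞 L), (Quotient.out p.2 : 𝓞 L)) ((y.2, -y.1) : 𝓞 L × 𝓞 L) : 𝓞 L) : L) / (m : L)))]
  refine Finset.sum_congr rfl fun p _ => ?_
  have hq : (Quotient.out (-p.1) : 𝓞 L) - (-(Quotient.out p.1 : 𝓞 L)) ∈ span {((n : ℕ) : 𝓞 L)} := by
    rw [← Ideal.Quotient.eq, e3_mk_out, map_neg, e3_mk_out]
  show (w ((Quotient.out p.2 : 𝓞 L), -(Quotient.out p.1 : 𝓞 L)) : ℂ) *
      ee (trR (((((Quotient.out p.1 : 𝓞 L) * y.2 - (Quotient.out p.2 : 𝓞 L) * y.1) : 𝓞 L) : L) / (m : L))) =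
    (w ((Quotient.out p.2 : 𝓞 L), (Quotient.out (-p.1) : 𝓞 L)) : ℂ) *
      ee (trR (((((Quotient.out p.2 : 𝓞 L) * (-y.1) - (Quotient.out (-p.1) : 𝓞 L) * y.2) : 𝓞 L) : L) / (m : L)))
  have h1 : w ((Quotient.out p.2 : 𝓞 L), (Quotient.out (-p.1) : 𝓞 L)) = w ((Quotient.out p.2 : 𝓞 L), -(Quotient.out p.1 : 𝓞 L)) := by
    refine h.congr ?_ hq
    rw [sub_self]
    exact Ideal.zero_mem _
  have h2 : ee (trR (((((Quotient.out (-p.1) : 𝓞 L) * (-y.2)) : 𝓞 L) : L) / (m : L))) =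
      ee (trR (((((-(Quotient.out p.1 : 𝓞 L)) * (-y.2)) : 𝓞 L) : L) / (m : L))) := by
    refine fa3_per ?_ hq
    have e1 : (((-y.2 : 𝓞 L)) : L) / (m : L) = -((y.2 : L) / (m : L)) := by
      have e1 : (((-y.2 : 𝓞 L)) : L) = -(y.2 : L) := rfl
      rw [e1, neg_div]
    rw [e1, neg_mem_iff]
    exact hy.2
  rw [h1]
  congr 1
  have e2 : (((((Quotient.out p.1 : 𝓞 L) * y.2 - (Quotient.out p.2 : 𝓞 L) * y.1) : 𝓞 L) : L) / (m : L)) =
      (((((-(Quotient.out p.1 : 𝓞 L)) * (-y.2)) : 𝓞 L) : L) / (m : L)) + (((((Quotient.out p.2 : 𝓞 L) * (-y.1)) : 𝓞 L) : L) / (m : L)) := by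
    push_cast
    ring
  have e3 : (((((Quotient.out p.2 : 𝓞 L) * (-y.1) - (Quotient.out (-p.1) : 𝓞 L) * y.2) : 𝓞 L) : L) / (m : L)) =
      (((((Quotient.out (-p.1) : 𝓞 L) * (-y.2)) : 𝓞 L) : L) / (m : L)) + (((((Quotient.out p.2 : 𝓞 L) * (-y.1)) : 𝓞 L) : L) / (m : L)) := by
    push_cast
    ring
  rw [e2, e3, fa_ee_add, fa_ee_add, h2]

end

section
variable {L : Type} [Field L] [NumberField L] [IsTotallyReal L]

/-- [FA3] the relation is invariant (`B(S x, S y) = B(x, y)`) -/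
theorem FEp.S {n m : ℕ} {w w' : 𝓞 L × 𝓞 L → ℤ} {C : ℂ} (h : FEp n m w w' C) :
    FEp n m (fun x => w ((SL : (𝓞 L × 𝓞 L) ≃ₗ[𝓞 L] _).symm x)) (fun x => w' ((SL : (𝓞 L × 𝓞 L) ≃ₗ[𝓞 L] _).symm x)) C where
  ow := h.ow.S
  ow' := h.ow'.S
  dvd := h.dvd
  int := h.int
  eq y := by
    have h1 := h.eq ((y.2, -y.1) : 𝓞 L × 𝓞 L)
    show (w' ((y.2, -y.1) : 𝓞 L × 𝓞 L) : ℂ) = _
    rw [h1]
    by_cases hy : inD n m y
    · rw [if_pos (fa3_inD.2 hy), if_pos hy, fa3_ft2 h.ow hy]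
    · rw [if_neg (fun h => hy (fa3_inD.1 h)), if_neg hy]

end

section
variable {L M : Type} [Field L] [NumberField L] [Field M] [NumberField M] [Algebra L M] [IsTotallyReal L]

/-- the difference is constant -/
theorem fa3_const {n m : ℕ} {w w' : 𝓞 L × 𝓞 L → ℤ} {C : ℂ} (h : FEp n m w w' C) : ∃ c : ℂ, ∀ τ : ℂ, 0 < τ.im →
    Ec m w' τ 0 - C * ((n : ℂ) ^ (2 * Module.finrank ℚ L) * (|discr L| : ℤ) / (m : ℂ) ^ Module.finrank ℚ L) * Ec n w τ 0 = c := by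
  refine ⟨(cw m w' - C * ((n : ℂ) ^ (2 * Module.finrank ℚ L) * (|discr L| : ℤ) / (m : ℂ) ^ Module.finrank ℚ L) * cw n w) * KL L,
    fun τ hτ => ?_⟩
  have hK := KL_ne L
  have h1 := Ec_zero h.ow.pos w hτ
  have h2 := Ec_zero h.ow'.pos w' hτ
  rw [qsum_FE h hτ] at h2
  rw [div_eq_iff hK] at h1 h2
  rw [h1, h2]
  have hn : ((n : ℕ) : ℂ) ^ Module.finrank ℚ L ≠ 0 := pow_ne_zero _ (by exact_mod_cast h.ow.pos.ne')
  have hm : ((m : ℕ) : ℂ) ^ Module.finrank ℚ L ≠ 0 := pow_ne_zero _ (by exact_mod_cast h.ow'.pos.ne')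
  have e : (n : ℂ) ^ (2 * Module.finrank ℚ L) = (n : ℂ) ^ Module.finrank ℚ L * (n : ℂ) ^ Module.finrank ℚ L := by
    rw [two_mul, pow_add]
  rw [e]
  generalize (n : ℂ) ^ Module.finrank ℚ L = n' at hn ⊢
  generalize (m : ℂ) ^ Module.finrank ℚ L = m' at hm ⊢
  field_simp
  ring

/-- [FA3] **the symmetry**. PROOF. By `Ec_zero`, `qsum_FE` the difference of both sides is a constant `c` (independent of `τ`), and the same for `w ∘ S`, `w' ∘ S` with a constant `c'`;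
`Ec_S0`: `c = τ^g c'` for all `τ`, so `c = c' = 0`. -/
theorem Ec_FE (D : Dat L M) (hg : Odd (Module.finrank ℚ L)) {n m : ℕ} {w w' : 𝓞 L × 𝓞 L → ℤ} {C : ℂ} (h : FEp n m w w' C) {τ : ℂ} (hτ : 0 < τ.im) :
    Ec m w' τ 0 = C * ((n : ℂ) ^ (2 * Module.finrank ℚ L) * (|discr L| : ℤ) / (m : ℂ) ^ Module.finrank ℚ L) * Ec n w τ 0 := by
  obtain ⟨c, hc⟩ := fa3_const h
  obtain ⟨c', hc'⟩ := fa3_const h.S
  have key : ∀ t : ℂ, 0 < t.im → c = t ^ Module.finrank ℚ L * c' := by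
    intro t ht
    have ht0 : t ≠ 0 := by
      rintro rfl
      simp at ht
    have ht1 : 0 < (-1 / t).im := by
      have h0 : -1 / t = -t⁻¹ := by rw [neg_div, one_div]
      rw [h0, Complex.neg_im, Complex.inv_im]
      have : 0 < Complex.normSq t := Complex.normSq_pos.2 ht0
      rw [neg_div, neg_neg]
      positivity
    have h1 := hc _ ht1
    rw [Ec_S0 D hg h.ow ht, Ec_S0 D hg h.ow' ht] at h1
    rw [← h1, ← hc' t ht]
    ring
  have hI := key Complex.I (by simp)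
  have h2I := key (2 * Complex.I) (by simp)
  have hc0 : c' = 0 := by
    rw [hI, mul_pow] at h2I
    have h3 : Complex.I ^ Module.finrank ℚ L ≠ 0 := pow_ne_zero _ Complex.I_ne_zero
    have h4 : Complex.I ^ Module.finrank ℚ L * ((2 : ℂ) ^ Module.finrank ℚ L - 1) * c' = 0 := by
      linear_combination -h2I
    have h5 : (2 : ℂ) ^ Module.finrank ℚ L - 1 ≠ 0 := by
      intro h6
      have h7 : (2 : ℂ) ^ Module.finrank ℚ L = 1 := by linear_combination h6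
      have h8 : (2 : ℕ) ^ Module.finrank ℚ L = 1 := by exact_mod_cast h7
      exact (Nat.one_lt_two_pow Module.finrank_pos.ne').ne' h8
    rcases mul_eq_zero.1 h4 with h6 | h6
    · exact absurd h6 (mul_ne_zero h3 h5)
    · exact h6
  rw [hc0, mul_zero] at hI
  have h1 := hc τ hτ
  rw [hI] at h1
  exact sub_eq_zero.1 h1

end

end TRZ
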