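import Pool.Agent.TRZ.FEB1
import Pool.Agent.TR.G4

/-! # [FE-B] Gauss sums over any number field -/

set_option autoImplicit false
set_option linter.unusedSectionVars false
set_option linter.unusedVariables false

open NumberField Ideal IsDedekindDomain
open scoped Real Classical ComplexConjugate
open TR TRG TRP

namespace TRZ

section
variable {M : Type} [Field M] [NumberField M]

/-- the additive character -/
noncomputable def fch (z : M) (x : 𝓞 M) : ℂ := ee (trR (z * (x : M)))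

theorem fch_add (z : M) (x y : 𝓞 M) : fch z (x + y) = fch z x * fch z y := by
  unfold fch
  rw [← g4_ee_add]
  congr 2
  rw [show ((x + y : 𝓞 M) : M) = (x : M) + (y : M) from map_add _ _ _, mul_add]
  unfold trR
  rw [map_add]
  push_cast
  rfl

theorem fch_one {I : Ideal (𝓞 M)} {z : M} (hz : z ∈ dualL I) {x : 𝓞 M} (hx : x ∈ I) : fch z x = 1 := by
  unfold fch
  rw [g4_ee_tr]
  exact hz x hx

theorem fch_mul (z : M) (x y : 𝓞 M) : fch z (x * y) = fch (z * (x : M)) y := by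
  unfold fch
  congr 3
  rw [show ((x * y : 𝓞 M) : M) = (x : M) * (y : M) from map_mul _ _ _, mul_assoc]

theorem fch_sub (z z' : M) (x : 𝓞 M) (h : fch (z - z') x = 1) : fch z x = fch z' x := by
  have h1 : fch z x = fch z' x * fch (z - z') x := by
    unfold fch
    rw [← g4_ee_add]
    congr 2
    have h2 : z * (x : M) = z' * (x : M) + (z - z') * (x : M) := by ring
    rw [h2]
    unfold trR
    rw [map_add]
    push_cast
    rfl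
  rw [h1, h, mul_one]

theorem fch_congr {I : Ideal (𝓞 M)} {z : M} (hz : z ∈ dualL I) {x y : 𝓞 M} (h : x - y ∈ I) : fch z x = fch z y := by
  have h1 : x = y + (x - y) := by ring
  rw [h1, fch_add, fch_one hz h, mul_one]

theorem fch_conj (z : M) (x : 𝓞 M) : conj (fch z x) = fch z (-x) := by
  unfold fch ee
  rw [← Complex.exp_conj, map_mul, map_mul, map_mul, Complex.conj_ofReal, Complex.conj_ofReal, Complex.conj_I, Complex.conj_ofNat,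
    show ((-x : 𝓞 M) : M) = -(x : M) from map_neg _ _]
  congr 1
  have h : trR (z * -(x : M)) = -trR (z * (x : M)) := by
    unfold trR
    rw [mul_neg, map_neg]
    push_cast
    rfl
  rw [h]
  push_cast
  ring

/-- the sum over the residues -/
noncomputable def sI (I : Ideal (𝓞 M)) (F : 𝓞 M → ℂ) : ℂ := ∑ᶠ q : 𝓞 M ⧸ I, F (Quotient.out q : 𝓞 M)

/-- periodic modulo `I` -/
def PerI (I : Ideal (𝓞 M)) (F : 𝓞 M → ℂ) : Prop := ∀ x y : 𝓞 M, x - y ∈ I → F x = F y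

theorem sI_eq (I : Ideal (𝓞 M)) (F : 𝓞 M → ℂ) [Fintype (𝓞 M ⧸ I)] : sI I F = ∑ q : 𝓞 M ⧸ I, F (Quotient.out q : 𝓞 M) := by
  unfold sI
  rw [finsum_eq_sum_of_fintype]

theorem feb_fin {I : Ideal (𝓞 M)} (hI : I ≠ ⊥) : Finite (𝓞 M ⧸ I) := Ideal.finiteQuotientOfFreeOfNeBot _ hI

theorem feb_out (I : Ideal (𝓞 M)) (q : 𝓞 M ⧸ I) : Ideal.Quotient.mk I (Quotient.out q : 𝓞 M) = q := Quotient.out_eq q

theorem feb_out_sub {I : Ideal (𝓞 M)} {q : 𝓞 M ⧸ I} {x : 𝓞 M} (h : Ideal.Quotient.mk I x = q) : (Quotient.out q : 𝓞 M) - x ∈ I := by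
  rw [← Ideal.Quotient.eq, feb_out, h]

theorem sI_mul {I : Ideal (𝓞 M)} (hI : I ≠ ⊥) {F : 𝓞 M → ℂ} (hF : PerI I F) {t t' : 𝓞 M} (ht : t * t' - 1 ∈ I) :
    sI I (fun x => F (t * x)) = sI I F := by
  have := feb_fin hI
  have := Fintype.ofFinite (𝓞 M ⧸ I)
  rw [sI_eq, sI_eq]
  have e1 : Ideal.Quotient.mk I t * Ideal.Quotient.mk I t' = 1 := by
    rw [← map_mul, ← map_one (Ideal.Quotient.mk I), Ideal.Quotient.eq]
    exact ht
  have hbij : Function.Bijective fun q : 𝓞 M ⧸ I => Ideal.Quotient.mk I t * q := by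
    refine Function.bijective_iff_has_inverse.2 ⟨fun q => Ideal.Quotient.mk I t' * q, fun q => ?_, fun q => ?_⟩
    · show Ideal.Quotient.mk I t' * (Ideal.Quotient.mk I t * q) = q
      rw [← mul_assoc, mul_comm (Ideal.Quotient.mk I t'), e1, one_mul]
    · show Ideal.Quotient.mk I t * (Ideal.Quotient.mk I t' * q) = q
      rw [← mul_assoc, e1, one_mul]
  refine Fintype.sum_bijective _ hbij _ _ fun q => ?_
  refine hF _ _ ?_
  rw [← neg_mem_iff, neg_sub]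
  exact feb_out_sub (by rw [map_mul, feb_out])

/-- the transport from `𝔯 / 𝔣 𝔯` to `𝓞 / 𝔣` -/
theorem sI_coprime {𝔣 𝔯 : Ideal (𝓞 M)} (hf : 𝔣 ≠ ⊥) (hr : 𝔯 ≠ ⊥) (hc : IsCoprime 𝔯 𝔣) {F : 𝓞 M → ℂ} (hF : PerI 𝔣 F) :
    sI (𝔣 * 𝔯) (fun x => if x ∈ 𝔯 then F x else 0) = sI 𝔣 F := by
  have hfr : 𝔣 * 𝔯 ≠ ⊥ := mul_ne_zero hf hr
  have := feb_fin hf
  have := feb_fin hfr
  have := Fintype.ofFinite (𝓞 M ⧸ 𝔣)
  have := Fintype.ofFinite (𝓞 M ⧸ (𝔣 * 𝔯))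
  rw [sI_eq, sI_eq, ← Finset.sum_filter]
  obtain ⟨r, hr', f, hf', hrf⟩ := Ideal.isCoprime_iff_exists.1 hc
  have hmem : ∀ (x : 𝓞 M), (Quotient.out (Ideal.Quotient.mk (𝔣 * 𝔯) (r * x)) : 𝓞 M) - r * x ∈ 𝔣 * 𝔯 := fun x => feb_out_sub rfl
  refine Finset.sum_bij (fun q _ => Ideal.Quotient.mk 𝔣 (Quotient.out q : 𝓞 M)) (fun _ _ => Finset.mem_univ _) ?_ ?_ ?_
  · intro q hq q' hq' h
    rw [Finset.mem_filter] at hq hq'
    rw [← feb_out _ q, ← feb_out _ q', Ideal.Quotient.eq]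
    exact (Ideal.mul_eq_inf_of_isCoprime hc.symm).ge (Submodule.mem_inf.2 ⟨Ideal.Quotient.eq.1 h, 𝔯.sub_mem hq.2 hq'.2⟩)
  · intro p _
    refine ⟨Ideal.Quotient.mk (𝔣 * 𝔯) (r * (Quotient.out p : 𝓞 M)), ?_, ?_⟩
    · rw [Finset.mem_filter]
      refine ⟨Finset.mem_univ _, ?_⟩
      have h1 := Ideal.mul_le_right (hmem (Quotient.out p : 𝓞 M))
      have h2 := 𝔯.add_mem h1 (𝔯.mul_mem_right (Quotient.out p : 𝓞 M) hr')
      rwa [sub_add_cancel] at h2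
    · conv_rhs => rw [← feb_out _ p]
      rw [Ideal.Quotient.eq]
      have h1 := Ideal.mul_le_left (hmem (Quotient.out p : 𝓞 M))
      have h2 : r * (Quotient.out p : 𝓞 M) - (Quotient.out p : 𝓞 M) = -(f * (Quotient.out p : 𝓞 M)) := by
        linear_combination (Quotient.out p : 𝓞 M) * hrf
      have h3 : -(f * (Quotient.out p : 𝓞 M)) ∈ 𝔣 := 𝔣.neg_mem (𝔣.mul_mem_right _ hf')
      rw [← h2] at h3
      have h4 := 𝔣.add_mem h1 h3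
      rwa [sub_add_sub_cancel] at h4
  · intro q hq
    exact hF _ _ (by
      rw [← neg_mem_iff, neg_sub]
      exact feb_out_sub rfl)

variable {𝔣 : Ideal (𝓞 M)} {W : 𝓞 M → ℤ}

omit [NumberField M] in
theorem PQ.congr (h : PQ 𝔣 W) {x y : 𝓞 M} (hxy : x - y ∈ 𝔣) : W x = W y := by
  have h1 := h.per y _ hxy
  rwa [add_sub_cancel] at h1

omit [NumberField M] in
/-- units modulo `𝔣` -/
theorem PQ.inv (h : PQ 𝔣 W) {t : 𝓞 M} (ht : W t ≠ 0) : ∃ t' : 𝓞 M, t * t' - 1 ∈ 𝔣 := by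
  have htop : span {t} ⊔ 𝔣 = ⊤ := by
    by_contra hcon
    obtain ⟨P, hPm, hP⟩ := Ideal.exists_le_maximal _ hcon
    have hfP : 𝔣 ≤ P := le_sup_right.trans hP
    have hP0 : P ≠ ⊥ := fun h' => h.ne (le_bot_iff.1 (h' ▸ hfP))
    exact ht ((h.zero t).2 ⟨⟨P, hPm.isPrime, hP0⟩, hfP, hP (Ideal.mem_sup_left (Ideal.mem_span_singleton_self t))⟩)
  have h1 : (1 : 𝓞 M) ∈ span {t} ⊔ 𝔣 := by
    rw [htop]
    exact Submodule.mem_top
  obtain ⟨x, hx, f, hf, e⟩ := Submodule.mem_sup.1 h1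
  obtain ⟨t', rfl⟩ := Ideal.mem_span_singleton'.1 hx
  refine ⟨t', ?_⟩
  have h2 : t * t' - 1 = -f := by linear_combination e
  rw [h2]
  exact 𝔣.neg_mem hf

omit [NumberField M] in
theorem PQ.sq (h : PQ 𝔣 W) {t : 𝓞 M} (ht : W t ≠ 0) : W t * W t = 1 := by
  rcases h.val t with h1 | h1 | h1
  · exact absurd h1 ht
  · rw [h1]; norm_num
  · rw [h1]; norm_num

/-- the Gauss sum with `t` -/
noncomputable def gG (𝔣 : Ideal (𝓞 M)) (W : 𝓞 M → ℤ) (z₀ : M) (t : 𝓞 M) : ℂ := sI 𝔣 fun x => (W x : ℂ) * fch z₀ (t * x)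

theorem gG_per (h : PQ 𝔣 W) {z₀ : M} (hz : z₀ ∈ dualL 𝔣) (t : 𝓞 M) : PerI 𝔣 fun x => (W x : ℂ) * fch z₀ (t * x) := by
  intro x y hxy
  show (W x : ℂ) * fch z₀ (t * x) = (W y : ℂ) * fch z₀ (t * y)
  rw [h.congr hxy, fch_congr hz (x := t * x) (y := t * y) (by
    rw [← mul_sub]
    exact 𝔣.mul_mem_left _ hxy)]

theorem gG_eq (h : PQ 𝔣 W) {z₀ : M} (hz : z₀ ∈ dualL 𝔣) (t : 𝓞 M) : gG 𝔣 W z₀ t = (W t : ℂ) * gG 𝔣 W z₀ 1 := by
  by_cases ht : W t = 0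
  · rw [ht, Int.cast_zero, zero_mul]
    obtain ⟨P, hfP, htP⟩ := (h.zero t).1 ht
    obtain ⟨𝔤, hg⟩ := Ideal.dvd_iff_le.2 hfP
    obtain ⟨u, hu, hWu⟩ := h.prim P 𝔤 hg
    obtain ⟨u', hu'⟩ := h.inv (t := u) (by rw [hWu]; norm_num)
    have h1 := sI_mul h.ne (gG_per h hz t) hu'
    have h2 : sI 𝔣 (fun x => (W (u * x) : ℂ) * fch z₀ (t * (u * x))) = -gG 𝔣 W z₀ t := by
      have := feb_fin h.ne
      have := Fintype.ofFinite (𝓞 M ⧸ 𝔣)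
      unfold gG
      rw [sI_eq, sI_eq, ← Finset.sum_neg_distrib]
      refine Finset.sum_congr rfl fun q _ => ?_
      have h3 : t * (u * (Quotient.out q : 𝓞 M)) - t * (Quotient.out q : 𝓞 M) ∈ 𝔣 := by
        have h4 : t * (u * (Quotient.out q : 𝓞 M)) - t * (Quotient.out q : 𝓞 M) = t * (u - 1) * (Quotient.out q : 𝓞 M) := by ring
        rw [h4]
        have h5 : t * (u - 1) ∈ P.asIdeal * 𝔤 := Ideal.mul_mem_mul htP hu
        rw [← hg] at h5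
        exact Ideal.mul_mem_right _ _ h5
      rw [fch_congr hz h3, h.mul, hWu]
      push_cast
      ring
    have h3 : gG 𝔣 W z₀ t = -gG 𝔣 W z₀ t := by
      rw [← h2]
      exact h1.symm
    have h4 : (2 : ℂ) * gG 𝔣 W z₀ t = 0 := by linear_combination h3
    exact (mul_eq_zero.1 h4).resolve_left two_ne_zero
  · obtain ⟨t', ht'⟩ := h.inv ht
    have h1 := sI_mul h.ne (gG_per h hz 1) ht'
    have h2 : sI 𝔣 (fun x => (W (t * x) : ℂ) * fch z₀ (1 * (t * x))) = (W t : ℂ) * gG 𝔣 W z₀ t := by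
      have := feb_fin h.ne
      have := Fintype.ofFinite (𝓞 M ⧸ 𝔣)
      unfold gG
      rw [sI_eq, sI_eq, Finset.mul_sum]
      refine Finset.sum_congr rfl fun q _ => ?_
      rw [h.mul, one_mul]
      push_cast
      ring
    have h3 : gG 𝔣 W z₀ 1 = (W t : ℂ) * gG 𝔣 W z₀ t := by
      rw [← h2]
      exact h1.symm
    have h4 : (W t : ℂ) * (W t : ℂ) = 1 := by exact_mod_cast h.sq ht
    rw [h3]
    linear_combination (-(gG 𝔣 W z₀ t)) * h4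

/-- the sum over `𝔯 / 𝔣 𝔯` -/
theorem gs_gG (h : PQ 𝔣 W) {z₀ : M} (hz : z₀ ∈ dualL 𝔣) {𝔯 : Ideal (𝓞 M)} (hr : 𝔯 ≠ ⊥) (hc : IsCoprime 𝔯 𝔣) {z : M}
    {t : 𝓞 M} (ht : z - (t : M) * z₀ ∈ dualL 𝔯) : gs 𝔣 𝔯 W z = gG 𝔣 W z₀ t := by
  unfold gG
  rw [← sI_coprime h.ne hr hc (gG_per h hz t)]
  unfold gs sI
  refine finsum_congr fun q => ?_
  simp only
  by_cases hq : (Quotient.out q : 𝓞 M) ∈ 𝔯
  · rw [if_pos hq, if_pos hq]
    congr 1
    have h1 := fch_sub z ((t : M) * z₀) (Quotient.out q : 𝓞 M) (fch_one ht hq)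
    rw [fch_mul, mul_comm z₀, ← h1]
    rfl
  · rw [if_neg hq, if_neg hq, zero_mul]

theorem gs_top (h : PQ 𝔣 W) {z₀ : M} (hz : z₀ ∈ dualL 𝔣) : gs 𝔣 ⊤ W z₀ = gG 𝔣 W z₀ 1 :=
  gs_gG h hz top_ne_bot (Ideal.isCoprime_iff_sup_eq.2 (top_sup_eq _)) (by
    rw [show ((1 : 𝓞 M) : M) = 1 from map_one _, one_mul, sub_self]
    exact AddSubgroup.zero_mem _)

/-- [FB] -/
theorem PQ.gs_eq (h : PQ 𝔣 W) {z₀ : M} (hz : PZ 𝔣 z₀) {𝔯 : Ideal (𝓞 M)} (hr : 𝔯 ≠ ⊥) (hc : IsCoprime 𝔯 𝔣) {z : M} (hz' : z ∈ dualL (𝔣 * 𝔯))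
    {t : 𝓞 M} (ht : z - (t : M) * z₀ ∈ dualL 𝔯) : gs 𝔣 𝔯 W z = (W t : ℂ) * gs 𝔣 ⊤ W z₀ := by
  rw [gs_gG h hz.mem hr hc ht, gG_eq h hz.mem, gs_top h hz.mem]

/-- the orthogonality relation -/
theorem PZ.orth {z₀ : M} (hz : PZ 𝔣 z₀) (c : 𝓞 M) : sI 𝔣 (fun t => fch z₀ (t * c)) = if c ∈ 𝔣 then (absNorm 𝔣 : ℂ) else 0 := by
  have := feb_fin hz.ne_bot
  have h1 := g4_sum (⊤ : Ideal (𝓞 M)) 𝔣 le_top (fun t => fch z₀ (t * c)) (fun a _ b _ => by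
    show fch z₀ ((a + b) * c) = fch z₀ (a * c) * fch z₀ (b * c)
    rw [add_mul, fch_add]) (fun a ha => fch_one hz.mem (𝔣.mul_mem_right c ha))
  have h2 : sI 𝔣 (fun t => fch z₀ (t * c)) =
      ∑ᶠ q : 𝓞 M ⧸ 𝔣, if (Quotient.out q : 𝓞 M) ∈ (⊤ : Ideal (𝓞 M)) then fch z₀ ((Quotient.out q : 𝓞 M) * c) else 0 := by
    unfold sI
    exact finsum_congr fun q => (if_pos Submodule.mem_top).symm
  rw [h2, h1]
  have h3 : (∀ a ∈ (⊤ : Ideal (𝓞 M)), fch z₀ (a * c) = 1) ↔ c ∈ 𝔣 := by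
    rw [← hz.mem_iff hz.ne_bot]
    constructor
    · intro h a ha
      have h4 := h a ha
      rw [mul_comm a c, fch_mul] at h4
      unfold fch at h4
      rw [g4_ee_tr] at h4
      exact h4
    · intro h a ha
      rw [mul_comm a c, fch_mul]
      exact fch_one h ha
  by_cases hc : c ∈ 𝔣
  · rw [if_pos (h3.2 hc), if_pos hc]
    congr 1
    rw [Ideal.absNorm_apply, Submodule.cardQuot_apply]
    exact Nat.card_congr (Equiv.subtypeUnivEquiv fun q => Submodule.mem_top)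
  · rw [if_neg fun h => hc (h3.1 h), if_neg hc]

/-- [FB] -/
theorem PQ.gs_sq (h : PQ 𝔣 W) {z₀ : M} (hz : PZ 𝔣 z₀) : gs 𝔣 ⊤ W z₀ ^ 2 = (W (-1) : ℂ) * (absNorm 𝔣 : ℂ) := by
  rw [gs_top h hz.mem]
  have := feb_fin h.ne
  have := Fintype.ofFinite (𝓞 M ⧸ 𝔣)
  set G := gG 𝔣 W z₀ 1 with hG
  have hW1 : W (-1) * W (-1) = 1 := by
    rw [← h.mul]
    norm_num
    exact h.one
  have hW1' : (W (-1) : ℂ) * (W (-1) : ℂ) = 1 := by exact_mod_cast hW1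
  -- the conjugate
  have hconj : ∀ t : 𝓞 M, conj (gG 𝔣 W z₀ t) = sI 𝔣 fun y => (W y : ℂ) * fch z₀ (-(t * y)) := by
    intro t
    unfold gG
    rw [sI_eq, sI_eq, map_sum]
    refine Finset.sum_congr rfl fun q _ => ?_
    rw [map_mul, fch_conj, map_intCast]
  have hcG : conj G = (W (-1) : ℂ) * G := by
    rw [hG, hconj, ← gG_eq h hz.mem]
    unfold gG
    congr 1
    funext y
    rw [one_mul, neg_one_mul]
  -- the Parseval identity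
  have h1 : ∑ q : 𝓞 M ⧸ 𝔣, gG 𝔣 W z₀ (Quotient.out q : 𝓞 M) * conj (gG 𝔣 W z₀ (Quotient.out q : 𝓞 M)) =
      (∑ q : 𝓞 M ⧸ 𝔣, (W (Quotient.out q : 𝓞 M) : ℂ) * (W (Quotient.out q : 𝓞 M) : ℂ)) * (G * conj G) := by
    rw [Finset.sum_mul]
    refine Finset.sum_congr rfl fun q _ => ?_
    rw [gG_eq h hz.mem, map_mul, map_intCast]
    ring
  have h2 : ∑ q : 𝓞 M ⧸ 𝔣, gG 𝔣 W z₀ (Quotient.out q : 𝓞 M) * conj (gG 𝔣 W z₀ (Quotient.out q : 𝓞 M)) =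
      (∑ q : 𝓞 M ⧸ 𝔣, (W (Quotient.out q : 𝓞 M) : ℂ) * (W (Quotient.out q : 𝓞 M) : ℂ)) * (absNorm 𝔣 : ℂ) := by
    have h3 : ∀ q : 𝓞 M ⧸ 𝔣, gG 𝔣 W z₀ (Quotient.out q : 𝓞 M) * conj (gG 𝔣 W z₀ (Quotient.out q : 𝓞 M)) =
        ∑ a : 𝓞 M ⧸ 𝔣, ∑ b : 𝓞 M ⧸ 𝔣, (W (Quotient.out a : 𝓞 M) : ℂ) * (W (Quotient.out b : 𝓞 M) : ℂ) *
          fch z₀ ((Quotient.out q : 𝓞 M) * ((Quotient.out a : 𝓞 M) - (Quotient.out b : 𝓞 M))) := by
      intro q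
      rw [hconj]
      unfold gG
      rw [sI_eq, sI_eq, Finset.sum_mul_sum]
      refine Finset.sum_congr rfl fun a _ => Finset.sum_congr rfl fun b _ => ?_
      have h4 : (Quotient.out q : 𝓞 M) * ((Quotient.out a : 𝓞 M) - (Quotient.out b : 𝓞 M)) =
          (Quotient.out q : 𝓞 M) * (Quotient.out a : 𝓞 M) + -((Quotient.out q : 𝓞 M) * (Quotient.out b : 𝓞 M)) := by ring
      rw [h4, fch_add]
      ring
    rw [Finset.sum_congr rfl fun q _ => h3 q, Finset.sum_comm, Finset.sum_mul]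
    refine Finset.sum_congr rfl fun a _ => ?_
    rw [Finset.sum_comm, Finset.sum_eq_single a]
    · rw [← Finset.mul_sum, ← sI_eq 𝔣 (fun t => fch z₀ (t * ((Quotient.out a : 𝓞 M) - (Quotient.out a : 𝓞 M)))), hz.orth, sub_self,
        if_pos (Ideal.zero_mem _)]
    · intro b _ hb
      rw [← Finset.mul_sum, ← sI_eq 𝔣 (fun t => fch z₀ (t * ((Quotient.out a : 𝓞 M) - (Quotient.out b : 𝓞 M)))), hz.orth,
        if_neg, mul_zero]
      intro hab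
      apply hb
      rw [← feb_out _ b, ← feb_out _ a]
      exact (Ideal.Quotient.eq.2 hab).symm
    · exact fun ha => absurd (Finset.mem_univ a) ha
  have hne : (∑ q : 𝓞 M ⧸ 𝔣, (W (Quotient.out q : 𝓞 M) : ℂ) * (W (Quotient.out q : 𝓞 M) : ℂ)) ≠ 0 := by
    have h3 : (0 : ℤ) < ∑ q : 𝓞 M ⧸ 𝔣, W (Quotient.out q : 𝓞 M) * W (Quotient.out q : 𝓞 M) := by
      refine Finset.sum_pos' (fun q _ => mul_self_nonneg _) ⟨Ideal.Quotient.mk 𝔣 1, Finset.mem_univ _, ?_⟩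
      rw [h.congr (feb_out_sub rfl : (Quotient.out (Ideal.Quotient.mk 𝔣 1) : 𝓞 M) - 1 ∈ 𝔣), h.one]
      norm_num
    exact_mod_cast h3.ne'
  have h3 : G * conj G = (absNorm 𝔣 : ℂ) := mul_left_cancel₀ hne (h1.symm.trans h2)
  rw [← h3, hcG]
  linear_combination (-(G ^ 2)) * hW1'

end

end TRZ
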