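import Pool.Agent.TRZ.FEC1

set_option autoImplicit false
set_option linter.unusedSectionVars false

open NumberField Ideal IsDedekindDomain
open scoped Real Classical ComplexConjugate
open TR TRG TRP

/-! # [ALL2-FC] the Fourier transform of the weight `uW` -/

namespace TRZ

section
variable {L M : Type} [Field L] [NumberField L] [Field M] [NumberField M] [Algebra L M] [IsTotallyReal L] {D : Dat L M}

theorem fec_finrank (D : Dat L M) : Module.finrank ℚ M = 2 * Module.finrank ℚ L := by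
  have h := Module.finrank_mul_finrank ℚ L M
  rw [D.finrank_eq_two] at h
  omega

theorem fec_norm (D : Dat L M) {n : ℕ} : (absNorm (span {((n : ℕ) : 𝓞 M)}) : ℂ) = (n : ℂ) ^ (2 * Module.finrank ℚ L) := by
  rw [absNorm_span_singleton]
  have h : ((n : ℕ) : 𝓞 M) = algebraMap ℤ (𝓞 M) ((n : ℕ) : ℤ) := by simp
  rw [h, Algebra.norm_algebraMap, RingOfIntegers.rank, Int.natAbs_pow, Int.natAbs_natCast, fec_finrank D]
  push_cast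
  rfl

theorem fec_z1_add (x y : 𝓞 L × 𝓞 L) : z1_m D (x + y) = z1_m D x + z1_m D y := by
  unfold z1_m
  simp only [Prod.fst_add, Prod.snd_add, map_add]
  ring

theorem fec_z1_sub (x y : 𝓞 L × 𝓞 L) : z1_m D (x - y) = z1_m D x - z1_m D y := by
  have h := fec_z1_add (D := D) (x - y) y
  rw [sub_add_cancel] at h
  rw [h, add_sub_cancel_right]

/-- the classes modulo `n` -/
theorem fec_mem {n : ℕ} (x : 𝓞 L × 𝓞 L) : z1_m D x ∈ span {((n : ℕ) : 𝓞 M)} ↔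
    x.1 ∈ span {((n : ℕ) : 𝓞 L)} ∧ x.2 ∈ span {((n : ℕ) : 𝓞 L)} := by
  constructor
  · intro h
    obtain ⟨c, hc⟩ := Ideal.mem_span_singleton'.mp h
    obtain ⟨v, rfl⟩ := fec_surj D c
    have h2 : z1_m D (((n : ℕ) : 𝓞 L) • v) = z1_m D x := by
      rw [z1_m_smul, map_natCast, mul_comm, hc]
    have h3 := z1_m_inj D h2
    rw [← h3]
    exact ⟨Ideal.mem_span_singleton'.mpr ⟨v.1, mul_comm _ _⟩, Ideal.mem_span_singleton'.mpr ⟨v.2, mul_comm _ _⟩⟩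
  · rintro ⟨h1, h2⟩
    obtain ⟨c, hc⟩ := Ideal.mem_span_singleton'.mp h1
    obtain ⟨d, hd⟩ := Ideal.mem_span_singleton'.mp h2
    have e : x = ((n : ℕ) : 𝓞 L) • (c, d) := by
      apply Prod.ext
      · exact (hc.symm).trans (mul_comm _ _)
      · exact (hd.symm).trans (mul_comm _ _)
    rw [e, z1_m_smul, map_natCast]
    exact Ideal.mul_mem_right _ _ (Ideal.mem_span_singleton_self _)

/-- the class of `(a, b)` -/
noncomputable def fec_e (D : Dat L M) (n : ℕ) (p : (𝓞 L ⧸ span {((n : ℕ) : 𝓞 L)}) × (𝓞 L ⧸ span {((n : ℕ) : 𝓞 L)})) : 𝓞 M ⧸ span {((n : ℕ) : 𝓞 M)} :=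
  Ideal.Quotient.mk _ (z1_m D ((Quotient.out p.1 : 𝓞 L), (Quotient.out p.2 : 𝓞 L)))

theorem fec_out {K : Type} [Field K] [NumberField K] (J' : Ideal (𝓞 K)) (a : 𝓞 K) :
    (Quotient.out (Ideal.Quotient.mk J' a) : 𝓞 K) - a ∈ J' := by
  rw [← Ideal.Quotient.eq]
  exact Quotient.out_eq _

theorem fec_mkout {K : Type} [Field K] [NumberField K] (J' : Ideal (𝓞 K)) (q : 𝓞 K ⧸ J') :
    Ideal.Quotient.mk J' (Quotient.out q : 𝓞 K) = q := Quotient.out_eq q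

theorem fec_einj (D : Dat L M) (n : ℕ) : Function.Injective (fec_e D n) := by
  rintro ⟨p1, p2⟩ ⟨q1, q2⟩ h
  unfold fec_e at h
  rw [Ideal.Quotient.eq, ← fec_z1_sub, fec_mem] at h
  obtain ⟨h1, h2⟩ := h
  have h1' : Ideal.Quotient.mk (span {((n : ℕ) : 𝓞 L)}) (Quotient.out p1 : 𝓞 L) = Ideal.Quotient.mk _ (Quotient.out q1 : 𝓞 L) :=
    Ideal.Quotient.eq.mpr h1
  have h2' : Ideal.Quotient.mk (span {((n : ℕ) : 𝓞 L)}) (Quotient.out p2 : 𝓞 L) = Ideal.Quotient.mk _ (Quotient.out q2 : 𝓞 L) :=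
    Ideal.Quotient.eq.mpr h2
  rw [fec_mkout, fec_mkout] at h1' h2'
  rw [h1', h2']

theorem fec_esurj (D : Dat L M) (n : ℕ) : Function.Surjective (fec_e D n) := by
  intro q
  obtain ⟨a, rfl⟩ := Ideal.Quotient.mk_surjective q
  obtain ⟨x, rfl⟩ := fec_surj D a
  refine ⟨(Ideal.Quotient.mk _ x.1, Ideal.Quotient.mk _ x.2), ?_⟩
  unfold fec_e
  rw [Ideal.Quotient.eq, ← fec_z1_sub, fec_mem]
  exact ⟨fec_out _ _, fec_out _ _⟩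

/-- sums over the classes of `𝓞 M` modulo `n` -/
theorem fec_finsum {n : ℕ} (F : 𝓞 M → ℂ) (hF : ∀ x, ∀ y ∈ span {((n : ℕ) : 𝓞 M)}, F (x + y) = F x) :
    (∑ᶠ p : (𝓞 L ⧸ span {((n : ℕ) : 𝓞 L)}) × (𝓞 L ⧸ span {((n : ℕ) : 𝓞 L)}),
      F (z1_m D ((Quotient.out p.1 : 𝓞 L), (Quotient.out p.2 : 𝓞 L)))) =
      ∑ᶠ q : 𝓞 M ⧸ span {((n : ℕ) : 𝓞 M)}, F (Quotient.out q : 𝓞 M) := by
  refine Eq.trans (finsum_congr (fun p => ?_)) (finsum_comp (g := fun q : 𝓞 M ⧸ span {((n : ℕ) : 𝓞 M)} => F (Quotient.out q : 𝓞 M)) (fec_e D n) ⟨fec_einj D n, fec_esurj D n⟩)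
  have h4 := hF (z1_m D ((Quotient.out p.1 : 𝓞 L), (Quotient.out p.2 : 𝓞 L))) _
    (fec_out (span {((n : ℕ) : 𝓞 M)}) (z1_m D ((Quotient.out p.1 : 𝓞 L), (Quotient.out p.2 : 𝓞 L))))
  rw [add_sub_cancel] at h4
  exact h4.symm

theorem fec_uW (W : 𝓞 M → ℤ) (𝔯 : Ideal (𝓞 M)) (x : 𝓞 L × 𝓞 L) :
    (uW D W 𝔯 x : ℂ) = if z1_m D x ∈ 𝔯 then (W (z1_m D x) : ℂ) else 0 := by
  unfold uW
  have h : x ∈ D.Lb 𝔯 ↔ z1_m D x ∈ 𝔯 := Iff.rfl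
  by_cases h1 : z1_m D x ∈ 𝔯
  · rw [if_pos (h.mpr h1), if_pos h1]
  · rw [if_neg (mt h.mp h1), if_neg h1]
    push_cast
    rfl

theorem fec_per {𝔣 : Ideal (𝓞 M)} {W : 𝓞 M → ℤ} (h : PQ 𝔣 W) (𝔯 : Ideal (𝓞 M)) (x : 𝓞 M) {y : 𝓞 M} (hy : y ∈ 𝔣 * 𝔯) :
    (if x + y ∈ 𝔯 then (W (x + y) : ℂ) else 0) = if x ∈ 𝔯 then (W x : ℂ) else 0 := by
  have h1 : y ∈ 𝔯 := Ideal.mul_le_right (I := 𝔣) (J := 𝔯) hy
  have h2 : y ∈ 𝔣 := Ideal.mul_le_left (I := 𝔣) (J := 𝔯) hy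
  rw [h.per x y h2]
  have h3 : x + y ∈ 𝔯 ↔ x ∈ 𝔯 := by
    constructor
    · intro h4
      have := 𝔯.sub_mem h4 h1
      rwa [add_sub_cancel_right] at this
    · intro h4
      exact 𝔯.add_mem h4 h1
  by_cases h4 : x ∈ 𝔯
  · rw [if_pos (h3.mpr h4), if_pos h4]
  · rw [if_neg (mt h3.mp h4), if_neg h4]

/-- [FC] -/
theorem ft2_uW {𝔣 : Ideal (𝓞 M)} {W : 𝓞 M → ℤ} (h : PQ 𝔣 W) {𝔯 : Ideal (𝓞 M)} (hr : 𝔯 ≠ ⊥) (hc : IsCoprime 𝔯 𝔣) {n m : ℕ} (hn0 : 0 < n) (hm : 0 < m) (hn : ((n : ℕ) : 𝓞 M) ∈ 𝔣 * 𝔯)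
    {y : 𝓞 L × 𝓞 L} (hy : inD n m y) :
    ft2 n (uW D W 𝔯) m y = if zD D m y ∈ dualL (𝔣 * 𝔯) then
      ((n : ℂ) ^ (2 * Module.finrank ℚ L) / (absNorm (𝔣 * 𝔯) : ℂ)) * gs 𝔣 𝔯 W (zD D m y) else 0 := by
  rw [inD_iff (D := D) hm] at hy
  have hle : span {((n : ℕ) : 𝓞 M)} ≤ 𝔣 * 𝔯 := by
    rw [Ideal.span_singleton_le_iff_mem]
    exact hn
  have hJ : span {((n : ℕ) : 𝓞 M)} ≠ ⊥ := by
    rw [Ne, Ideal.span_singleton_eq_bot]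
    exact_mod_cast hn0.ne'
  have h1 := fec_sum hle hJ (fun x => if x ∈ 𝔯 then (W x : ℂ) else 0) (fun x y hy => fec_per h 𝔯 x hy) hy
  rw [fec_norm D] at h1
  unfold gs
  rw [← h1]
  have hF : ∀ x, ∀ v ∈ span {((n : ℕ) : 𝓞 M)}, (if x + v ∈ 𝔯 then (W (x + v) : ℂ) else 0) * ee (trR (zD D m y * ((x + v : 𝓞 M) : M))) =
      (if x ∈ 𝔯 then (W x : ℂ) else 0) * ee (trR (zD D m y * (x : M))) := by
    intro x v hv
    rw [fec_per h 𝔯 x (hle hv), fec_zadd, fec_one hy hv, mul_one]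
  rw [← fec_finsum (D := D) (n := n) (fun x => (if x ∈ 𝔯 then (W x : ℂ) else 0) * ee (trR (zD D m y * (x : M)))) hF]
  unfold ft2
  refine finsum_congr (fun p => ?_)
  rw [zD_trace (D := D) hm, fec_uW]

end

end TRZ
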