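import Pool.Agent.TRZ.FEB
import Pool.Agent.TRZ.FEC2

set_option autoImplicit false
set_option linter.unusedSectionVars false

open NumberField Ideal IsDedekindDomain
open scoped Real Classical ComplexConjugate
open TR TRG TRP

/-! # [ALL2-FC] the dual weights -/

namespace TRZ

section
variable {L M : Type} [Field L] [NumberField L] [Field M] [NumberField M] [Algebra L M] [IsTotallyReal L] {D : Dat L M}

theorem fec_NK_alg (D : Dat L M) (a : 𝓞 L) :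
    D.NK ((algebraMap (𝓞 L) (𝓞 M) a : 𝓞 M) : M) = ((Algebra.norm ℤ a : ℤ) : ℂ) := by
  have e2 : D.NK ((algebraMap (𝓞 L) (𝓞 M) a : 𝓞 M) : M) = ∏ j : L →+* ℝ, (j (a : L) : ℂ) := by
    refine Finset.prod_congr rfl fun j _ => ?_
    rw [← D.emb_algebraMap]
    rfl
  have := normZ_eq L a
  rw [e2, ← Complex.ofReal_prod, ← this]
  simp

/-- the value of `W` at a unit of `L` -/
theorem HC.fec_unit {𝔣 : Ideal (𝓞 M)} {W : 𝓞 M → ℤ} {Φ : Ideal (𝓞 M) →*₀ ℂ} (H : HC D 𝔣 W Φ) (u : (𝓞 L)ˣ) :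
    W (algebraMap (𝓞 L) (𝓞 M) (u : 𝓞 L)) = Algebra.norm ℤ (u : 𝓞 L) := by
  have hu : IsUnit (algebraMap (𝓞 L) (𝓞 M) (u : 𝓞 L)) := u.isUnit.map _
  have h1 := H.span_eq (algebraMap (𝓞 L) (𝓞 M) (u : 𝓞 L)) hu.ne_zero
  have h2 : span {algebraMap (𝓞 L) (𝓞 M) (u : 𝓞 L)} = (1 : Ideal (𝓞 M)) := by
    rw [Ideal.one_eq_top, Ideal.span_singleton_eq_top]
    exact hu
  rw [h2, map_one, fec_NK_alg] at h1
  have h3 : Algebra.norm ℤ (u : 𝓞 L) * W (algebraMap (𝓞 L) (𝓞 M) (u : 𝓞 L)) = 1 := by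
    exact_mod_cast h1.symm
  rcases Int.isUnit_iff.mp (u.isUnit.map (Algebra.norm ℤ (S := 𝓞 L))) with h4 | h4
  · rw [h4] at h3 ⊢
    linarith
  · rw [h4] at h3 ⊢
    linarith

theorem fec_zD_smul (m : ℕ) (u : 𝓞 L) (y : 𝓞 L × 𝓞 L) :
    zD D m (u • y) = ((algebraMap (𝓞 L) (𝓞 M) u : 𝓞 M) : M) * zD D m y := by
  unfold zD
  have h1 : ((z1_m D (u • y) : 𝓞 M) : M) = algebraMap L M (u : L) * ((z1_m D y : 𝓞 M) : M) := by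
    rw [z1_m_smul]
    rfl
  have h2 : ((algebraMap (𝓞 L) (𝓞 M) u : 𝓞 M) : M) = algebraMap L M (u : L) := rfl
  rw [h1, h2, map_mul, AlgHom.commutes]
  ring

theorem fec_zD_add (m : ℕ) (x y : 𝓞 L × 𝓞 L) : zD D m (x + y) = zD D m x + zD D m y := by
  unfold zD
  have h1 : ((z1_m D (x + y) : 𝓞 M) : M) = ((z1_m D x : 𝓞 M) : M) + ((z1_m D y : 𝓞 M) : M) := by
    rw [fec_z1_add]
    rfl
  rw [h1, map_add]
  ring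

theorem fec_zD_per {m : ℕ} (hm : 0 < m) (I : Ideal (𝓞 M)) (x : 𝓞 L × 𝓞 L) : zD D m (((m : ℕ) : 𝓞 L) • x) ∈ dualL I := by
  intro a _
  obtain ⟨v, rfl⟩ := fec_surj D a
  rw [fec_traceQ hm]
  refine ⟨Algebra.trace ℤ (𝓞 L) (sB v x), ?_⟩
  have h1 : ((sB v (((m : ℕ) : 𝓞 L) • x) : 𝓞 L) : L) = (m : L) * ((sB v x : 𝓞 L) : L) := by
    have e : sB v (((m : ℕ) : 𝓞 L) • x) = ((m : ℕ) : 𝓞 L) * sB v x := by
      unfold sB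
      simp only [Prod.smul_fst, Prod.smul_snd, smul_eq_mul]
      ring
    rw [e]
    have e' : ((((m : ℕ) : 𝓞 L) * sB v x : 𝓞 L) : L) = (((m : ℕ) : 𝓞 L) : L) * ((sB v x : 𝓞 L) : L) := rfl
    rw [e']
    congr 1
  have hm' : (m : L) ≠ 0 := by exact_mod_cast hm.ne'
  rw [h1, mul_div_cancel_left₀ _ hm']
  exact (Algebra.coe_trace_int _).symm

theorem fec_G_ne {𝔣 : Ideal (𝓞 M)} {W : 𝓞 M → ℤ} (h : PQ 𝔣 W) {z₀ : M} (hz : PZ 𝔣 z₀) : gs 𝔣 ⊤ W z₀ ≠ 0 := by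
  intro h0
  have h1 := h.gs_sq hz
  rw [h0] at h1
  have h2 : (absNorm 𝔣 : ℂ) ≠ 0 := by
    exact_mod_cast (mt Ideal.absNorm_eq_zero_iff.mp h.ne)
  have h3 : W (-1) * W (-1) = 1 := by
    rw [← h.mul, neg_mul_neg, one_mul, h.one]
  have h4 : (W (-1) : ℂ) ≠ 0 := by
    intro h5
    have h6 : W (-1) = 0 := by exact_mod_cast h5
    rw [h6] at h3
    norm_num at h3
  rw [zero_pow two_ne_zero] at h1
  exact mul_ne_zero h4 h2 h1.symm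

/-- the dual weight -/
noncomputable def fec_v (D : Dat L M) (𝔣 𝔯 : Ideal (𝓞 M)) (W : 𝓞 M → ℤ) (z₀ : M) (m : ℕ) (y : 𝓞 L × 𝓞 L) : ℤ :=
  if h : zD D m y ∈ dualL (𝔣 * 𝔯) ∧ ∃ t : 𝓞 M, zD D m y - (t : M) * z₀ ∈ dualL 𝔯 then W h.2.choose else 0

section
variable {𝔣 : Ideal (𝓞 M)} {W : 𝓞 M → ℤ} (h : PQ 𝔣 W) {z₀ : M} (hz : PZ 𝔣 z₀) {𝔯 : Ideal (𝓞 M)} (hr : 𝔯 ≠ ⊥) (hc : IsCoprime 𝔯 𝔣)
include h hz hr hc

theorem fec_v_spec {m : ℕ} {y : 𝓞 L × 𝓞 L} (hy : zD D m y ∈ dualL (𝔣 * 𝔯)) {t : 𝓞 M} (ht : zD D m y - (t : M) * z₀ ∈ dualL 𝔯) :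
    fec_v D 𝔣 𝔯 W z₀ m y = W t := by
  have hex : zD D m y ∈ dualL (𝔣 * 𝔯) ∧ ∃ t : 𝓞 M, zD D m y - (t : M) * z₀ ∈ dualL 𝔯 := ⟨hy, t, ht⟩
  unfold fec_v
  rw [dif_pos hex]
  have h1 := h.gs_eq hz hr hc hy hex.2.choose_spec
  have h2 := h.gs_eq hz hr hc hy ht
  rw [h1] at h2
  have h3 := mul_right_cancel₀ (fec_G_ne h hz) h2
  exact_mod_cast h3

theorem fec_v_out {m : ℕ} {y : 𝓞 L × 𝓞 L} (hy : zD D m y ∉ dualL (𝔣 * 𝔯)) : fec_v D 𝔣 𝔯 W z₀ m y = 0 := by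
  unfold fec_v
  rw [dif_neg (fun h' => hy h'.1)]

theorem fec_v_per {m : ℕ} (hm : 0 < m) (y x : 𝓞 L × 𝓞 L) : fec_v D 𝔣 𝔯 W z₀ m (y + ((m : ℕ) : 𝓞 L) • x) = fec_v D 𝔣 𝔯 W z₀ m y := by
  by_cases hy : zD D m y ∈ dualL (𝔣 * 𝔯)
  · obtain ⟨t, ht⟩ := hz.exists_t hr hc hy
    have hy' : zD D m (y + ((m : ℕ) : 𝓞 L) • x) ∈ dualL (𝔣 * 𝔯) := by
      rw [fec_zD_add]
      exact (dualL (𝔣 * 𝔯)).add_mem hy (fec_zD_per hm _ _)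
    have ht' : zD D m (y + ((m : ℕ) : 𝓞 L) • x) - (t : M) * z₀ ∈ dualL 𝔯 := by
      rw [fec_zD_add, add_sub_right_comm]
      exact (dualL 𝔯).add_mem ht (fec_zD_per hm _ _)
    rw [fec_v_spec h hz hr hc hy ht, fec_v_spec h hz hr hc hy' ht']
  · have hy' : zD D m (y + ((m : ℕ) : 𝓞 L) • x) ∉ dualL (𝔣 * 𝔯) := by
      intro h'
      rw [fec_zD_add] at h'
      have := (dualL (𝔣 * 𝔯)).sub_mem h' (fec_zD_per (D := D) hm (𝔣 * 𝔯) x)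
      rw [add_sub_cancel_right] at this
      exact hy this
    rw [fec_v_out h hz hr hc hy, fec_v_out h hz hr hc hy']

theorem fec_v_unit {Φ : Ideal (𝓞 M) →*₀ ℂ} (H : HC D 𝔣 W Φ) {m : ℕ} (u : (𝓞 L)ˣ) (y : 𝓞 L × 𝓞 L) :
    fec_v D 𝔣 𝔯 W z₀ m ((u : 𝓞 L) • y) = Algebra.norm ℤ (u : 𝓞 L) * fec_v D 𝔣 𝔯 W z₀ m y := by
  by_cases hy : zD D m y ∈ dualL (𝔣 * 𝔯)
  · obtain ⟨t, ht⟩ := hz.exists_t hr hc hy
    have hy' : zD D m ((u : 𝓞 L) • y) ∈ dualL (𝔣 * 𝔯) := by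
      rw [fec_zD_smul]
      exact fec_smul hy _
    have ht' : zD D m ((u : 𝓞 L) • y) - ((algebraMap (𝓞 L) (𝓞 M) (u : 𝓞 L) * t : 𝓞 M) : M) * z₀ ∈ dualL 𝔯 := by
      have e : ((algebraMap (𝓞 L) (𝓞 M) (u : 𝓞 L) * t : 𝓞 M) : M) = ((algebraMap (𝓞 L) (𝓞 M) (u : 𝓞 L) : 𝓞 M) : M) * (t : M) := rfl
      rw [fec_zD_smul, e, mul_assoc, ← mul_sub]
      exact fec_smul ht _
    rw [fec_v_spec h hz hr hc hy ht, fec_v_spec h hz hr hc hy' ht', h.mul, H.fec_unit]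
  · have hy' : zD D m ((u : 𝓞 L) • y) ∉ dualL (𝔣 * 𝔯) := by
      intro h'
      have h1 : zD D m y = zD D m (((u⁻¹ : (𝓞 L)ˣ) : 𝓞 L) • ((u : 𝓞 L) • y)) := by
        rw [smul_smul, Units.inv_mul, one_smul]
      rw [h1, fec_zD_smul] at hy
      exact hy (fec_smul h' _)
    rw [fec_v_out h hz hr hc hy, fec_v_out h hz hr hc hy', mul_zero]

end

theorem fec_uW_OW {𝔣 : Ideal (𝓞 M)} {W : 𝓞 M → ℤ} {Φ : Ideal (𝓞 M) →*₀ ℂ} (H : HC D 𝔣 W Φ) {𝔯 : Ideal (𝓞 M)}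
    {n : ℕ} (hn0 : 0 < n) (hn : ((n : ℕ) : 𝓞 M) ∈ 𝔣 * 𝔯) : OW n (uW D W 𝔯) where
  pos := hn0
  per := by
    intro x y
    have h1 : ((uW D W 𝔯 (x + ((n : ℕ) : 𝓞 L) • y) : ℤ) : ℂ) = ((uW D W 𝔯 x : ℤ) : ℂ) := by
      rw [fec_uW, fec_uW, fec_z1_add]
      refine fec_per H.pq 𝔯 _ ?_
      rw [z1_m_smul, map_natCast]
      exact Ideal.mul_mem_right _ _ hn
    exact_mod_cast h1
  unit := by
    intro u x
    have hm : z1_m D ((u : 𝓞 L) • x) ∈ 𝔯 ↔ z1_m D x ∈ 𝔯 := by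
      rw [z1_m_smul]
      constructor
      · intro h'
        have h2 := Ideal.mul_mem_left 𝔯 (algebraMap (𝓞 L) (𝓞 M) ((u⁻¹ : (𝓞 L)ˣ) : 𝓞 L)) h'
        rwa [← mul_assoc, ← map_mul, Units.inv_mul, map_one, one_mul] at h2
      · intro h'
        exact Ideal.mul_mem_left _ _ h'
    have h1 : ((uW D W 𝔯 ((u : 𝓞 L) • x) : ℤ) : ℂ) = ((Algebra.norm ℤ (u : 𝓞 L) * uW D W 𝔯 x : ℤ) : ℂ) := by
      rw [Int.cast_mul, fec_uW, fec_uW]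
      by_cases h' : z1_m D x ∈ 𝔯
      · rw [if_pos (hm.mpr h'), if_pos h', z1_m_smul, H.pq.mul, H.fec_unit, Int.cast_mul]
      · rw [if_neg (mt hm.mp h'), if_neg h', mul_zero]
    exact_mod_cast h1

/-- [FC] **the dual weights**. -/
theorem HC.exists_dw {𝔣 : Ideal (𝓞 M)} {W : 𝓞 M → ℤ} {Φ : Ideal (𝓞 M) →*₀ ℂ} (H : HC D 𝔣 W Φ) {z₀ : M} (hz : PZ 𝔣 z₀) {𝔯 : Ideal (𝓞 M)} (hr : 𝔯 ≠ ⊥) (hc : IsCoprime 𝔯 𝔣)
    {n : ℕ} (hn0 : 0 < n) (hn : ((n : ℕ) : 𝓞 M) ∈ 𝔣 * 𝔯) :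
    ∃ (m : ℕ) (v : 𝓞 L × 𝓞 L → ℤ), 0 < m ∧ DW D 𝔣 𝔯 W z₀ m v ∧
      FEp n m (uW D W 𝔯) v ((absNorm (𝔣 * 𝔯) : ℂ) / ((n : ℂ) ^ (2 * Module.finrank ℚ L) * gs 𝔣 ⊤ W z₀)) := by
  have h := H.pq
  have hnb : span {((n : ℕ) : 𝓞 L)} ≠ ⊥ := by
    rw [Ne, Ideal.span_singleton_eq_bot]
    exact_mod_cast hn0.ne'
  obtain ⟨q, hq0, hq⟩ := dualL_bounded L hnb
  have hm : 0 < n * q := Nat.mul_pos hn0 hq0
  refine ⟨n * q, fec_v D 𝔣 𝔯 W z₀ (n * q), hm, ⟨fun y hy => fec_v_out h hz hr hc hy, fun y hy => ?_⟩, ?_⟩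
  · obtain ⟨t, ht⟩ := hz.exists_t hr hc hy
    exact ⟨t, ht, fec_v_spec h hz hr hc hy ht⟩
  · refine ⟨fec_uW_OW H hn0 hn, ⟨hm, fun x y => fec_v_per h hz hr hc hm x y, fun u x => fec_v_unit h hz hr hc H u x⟩, ⟨q, rfl⟩, ?_, ?_⟩
    · intro ν hν
      obtain ⟨a, ha⟩ := hq ν hν
      refine ⟨((n : ℕ) : 𝓞 L) * a, ?_⟩
      have e : ((((n : ℕ) : 𝓞 L) * a : 𝓞 L) : L) = (n : L) * (a : L) := by
        have e' : ((((n : ℕ) : 𝓞 L) * a : 𝓞 L) : L) = (((n : ℕ) : 𝓞 L) : L) * (a : L) := rfl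
        rw [e']
        congr 1
      rw [e, ← ha]
      push_cast
      ring
    · intro y
      by_cases hy : inD n (n * q) y
      · rw [if_pos hy, ft2_uW (D := D) h hr hc hn0 hm hn hy]
        by_cases hz' : zD D (n * q) y ∈ dualL (𝔣 * 𝔯)
        · rw [if_pos hz']
          obtain ⟨t, ht⟩ := hz.exists_t hr hc hz'
          rw [fec_v_spec h hz hr hc hz' ht, h.gs_eq hz hr hc hz' ht]
          have h1 := fec_G_ne h hz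
          have h2 : ((n : ℂ)) ≠ 0 := by exact_mod_cast hn0.ne'
          have h3 : (absNorm (𝔣 * 𝔯) : ℂ) ≠ 0 := by
            have h4 : 𝔣 * 𝔯 ≠ ⊥ := mul_ne_zero h.ne hr
            exact_mod_cast (mt Ideal.absNorm_eq_zero_iff.mp h4)
          field_simp
        · rw [if_neg hz', mul_zero, fec_v_out h hz hr hc hz']
          simp
      · rw [if_neg hy]
        rw [inD_iff (D := D) hm] at hy
        have hle : span {((n : ℕ) : 𝓞 M)} ≤ 𝔣 * 𝔯 := by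
          rw [Ideal.span_singleton_le_iff_mem]
          exact hn
        rw [fec_v_out h hz hr hc (fun h' => hy (fec_mono hle h'))]
        simp

end

end TRZ
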