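import Pool.Agent.TRZ.FEDd
import Pool.Agent.TRZ.FEA3
import Pool.Agent.TRZ.FEB
import Pool.Agent.TRZ.FEC3

set_option autoImplicit false
set_option linter.unusedSectionVars false

open NumberField Ideal IsDedekindDomain
open scoped Real Classical ComplexConjugate nonZeroDivisors
open TR TRG TRP

/-! # [ALL2-FDe] the functional equation at `s = 1` -/

namespace TRZ

theorem fee_conj_diff {f : ℂ → ℂ} (hf : Differentiable ℂ f) : Differentiable ℂ fun s => conj (f (conj s)) := by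
  intro z
  have h := (hf (star z)).star_star
  rw [star_star] at h
  exact h

section
variable {L M : Type} [Field L] [NumberField L] [Field M] [NumberField M] [Algebra L M] [IsTotallyReal L] {D : Dat L M}

section
variable {𝔣 : Ideal (𝓞 M)} {W : 𝓞 M → ℤ} {Φ : Ideal (𝓞 M) →*₀ ℂ} (H : HC D 𝔣 W Φ)
include H

/-- [FDe] **the functional equation at `s = 1`** (`HC.value`, `Ec_FE`, `HC.exists_dw`, `HC.dual_series`, identity theorem with `OW m (v k)`, `Ec_spec`) -/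
theorem HC.fe (hg : Odd (Module.finrank ℚ L)) {z₀ : M} (hz : PZ 𝔣 z₀) {m₀ : ℕ} (hm₀ : 0 < m₀) {a₀ : 𝓞 M} (ha₀ : z₀ = -(a₀ : M) / ((m₀ : M) * D.r)) {J₀ : Ideal (𝓞 M)}
    (hJ₀ : J₀ * rhoI D m₀ 𝔣 = span {a₀}) (hd₀ : ∃ 𝔟 : Ideal (𝓞 M), 𝔟 * 𝔣 * (differentIdeal ℤ (𝓞 L)).map (algebraMap (𝓞 L) (𝓞 M)) = span {((m₀ : ℕ) : 𝓞 M)})
    {Z : ℂ → ℂ} (hZd : Differentiable ℂ Z)
    (hZ : ∀ t : ℂ, 3 / 2 < t.re → Z t = ∑' I : Ideal (𝓞 M), conj (Φ I) * (absNorm I : ℂ) ^ (-t)) :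
    Z 1 = -(gs 𝔣 ⊤ W z₀ * D.NK z₀ * ((|discr L| : ℤ) : ℂ) * 7 ^ Module.finrank ℚ L / (Φ J₀ * conj (D.NK D.r))) * conj (Z 1) := by
  have hf0 : 𝔣 ≠ ⊥ := H.pq.ne
  have hfpos : 0 < absNorm 𝔣 := Nat.pos_of_ne_zero (mt absNorm_eq_zero_iff.1 hf0)
  obtain ⟨J⟩ := TT.exists_goodReps M D.hodd hfpos
  obtain ⟨r, hr, hb, hcop⟩ : ∃ (r : ClassGroup (𝓞 M) → Ideal (𝓞 M)) (hr : ∀ k, r k ≠ ⊥)
      (_ : Function.Bijective fun k => ClassGroup.mk0 ⟨r k, mem_nonZeroDivisors_of_ne_zero (hr k)⟩),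
      ∀ k, (absNorm (r k)).Coprime (absNorm 𝔣) :=
    ⟨J.r, J.ne, J.bij, fun k => Nat.Coprime.coprime_dvd_right (Dvd.intro_left _ rfl) (J.cop k)⟩
  have hrc : ∀ k, IsCoprime (r k) 𝔣 := by
    intro k
    have h1 : IsCoprime ((absNorm (r k) : ℕ) : 𝓞 M) ((absNorm 𝔣 : ℕ) : 𝓞 M) := (hcop k).cast
    rw [Ideal.isCoprime_iff_exists]
    obtain ⟨a, b, hab⟩ := h1
    exact ⟨a * ((absNorm (r k) : ℕ) : 𝓞 M), Ideal.mul_mem_left _ _ (Ideal.absNorm_mem _),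
      b * ((absNorm 𝔣 : ℕ) : 𝓞 M), Ideal.mul_mem_left _ _ (Ideal.absNorm_mem _), hab⟩
  have hfr0 : ∀ k, 𝔣 * r k ≠ ⊥ := fun k => mul_ne_zero hf0 (hr k)
  obtain ⟨n, hn0, hn⟩ : ∃ n : ClassGroup (𝓞 M) → ℕ, (∀ k, 0 < n k) ∧ ∀ k, ((n k : ℕ) : 𝓞 M) ∈ 𝔣 * r k :=
    ⟨fun k => absNorm (𝔣 * r k), fun k => Nat.pos_of_ne_zero (mt absNorm_eq_zero_iff.1 (hfr0 k)), fun k => Ideal.absNorm_mem _⟩
  have hex := fun k => H.exists_dw hz (hr k) (hrc k) (hn0 k) (hn k)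
  choose m v hm hv hE using hex
  have hd : ∀ k, ∃ 𝔟 : Ideal (𝓞 M), 𝔟 * (𝔣 * r k) * (differentIdeal ℤ (𝓞 L)).map (algebraMap (𝓞 L) (𝓞 M)) = span {((m k : ℕ) : 𝓞 M)} :=
    fun k => div_of_int (hn0 k) (hm k) (hfr0 k) (hn k) (hE k).int
  set g := Module.finrank ℚ L with hgdef
  set A : ℂ := -(D.NK z₀ * (absNorm 𝔣 : ℂ) * (discr L : ℂ) ^ 2 * 7 ^ g / (Φ J₀ * conj (D.NK D.r))) with hA
  -- the value
  have h1 := H.value hg r hr hrc hb hn0 hn hZd hZ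
  have hgs : gs 𝔣 ⊤ W z₀ ≠ 0 := by
    intro h0
    have h2 := H.pq.gs_sq hz
    rw [h0, zero_pow two_ne_zero] at h2
    have h3 : W (-1) ≠ 0 := by
      intro h4
      have h5 := H.pq.mul (-1) (-1)
      rw [h4, mul_zero, neg_mul_neg, one_mul, fea_one H.pq] at h5
      exact one_ne_zero h5
    exact mul_ne_zero (Int.cast_ne_zero.2 h3) (Nat.cast_ne_zero.2 hfpos.ne') h2.symm
  have hDne : discr L ≠ 0 := discr_ne_zero L
  -- the dual function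
  let Y : ℂ → ℂ := fun s => ∑ k, Φ (r k) * ((m k : ℂ) ^ g / (absNorm (r k) : ℂ)) * (absNorm (rhoI D (m k) (𝔣 * r k)) : ℂ) ^ s * Ec (m k) (v k) tau0 s
  have hYd : Differentiable ℂ Y := by
    refine Differentiable.fun_sum fun k _ => ?_
    have h3 : Differentiable ℂ fun s : ℂ => Ec (m k) (v k) tau0 s := (Ec_spec D hg (hE k).ow' z2_tau0_im).1
    have h4 : (absNorm (rhoI D (m k) (𝔣 * r k)) : ℂ) ≠ 0 := by
      rw [Nat.cast_ne_zero, Ne, absNorm_eq_zero_iff]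
      exact fed_ne (hm k) (hfr0 k) (hd k)
    have h5 : Differentiable ℂ fun s : ℂ => (absNorm (rhoI D (m k) (𝔣 * r k)) : ℂ) ^ s :=
      fun s => (differentiable_id s).const_cpow (Or.inl h4)
    exact ((differentiable_const _).mul h5).mul h3
  have hZ2d : Differentiable ℂ fun s : ℂ => A * conj (Z (1 + conj s)) := by
    have h2 : Differentiable ℂ fun s : ℂ => Z (1 + s) := hZd.comp ((differentiable_const _).add differentiable_id)
    exact (differentiable_const _).mul (fee_conj_diff h2)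
  have hY : Y = fun s : ℂ => A * conj (Z (1 + conj s)) := by
    refine z2_identity hYd hZ2d fun s hs => ?_
    have hs' : 1 / 2 < s.re := by linarith
    have h2 := H.dual_series hz hm₀ ha₀ hJ₀ hd₀ hg r hr hrc hb hm hd hv hs'
    show ∑ k, Φ (r k) * ((m k : ℂ) ^ g / (absNorm (r k) : ℂ)) * (absNorm (rhoI D (m k) (𝔣 * r k)) : ℂ) ^ s * Ec (m k) (v k) tau0 s =
      A * conj (Z (1 + conj s))
    have h3 : ∑ k, Φ (r k) * ((m k : ℂ) ^ g / (absNorm (r k) : ℂ)) * (absNorm (rhoI D (m k) (𝔣 * r k)) : ℂ) ^ s * Ec (m k) (v k) tau0 s =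
        ∑ k, Φ (r k) * ((m k : ℂ) ^ g / (absNorm (r k) : ℂ)) * (absNorm (rhoI D (m k) (𝔣 * r k)) : ℂ) ^ s * Ew (v k) tau0 s := by
      refine Finset.sum_congr rfl fun k _ => ?_
      rw [(Ec_spec D hg (hE k).ow' z2_tau0_im).2 s hs']
    have hs2 : 3 / 2 < (1 + conj s).re := by
      rw [Complex.add_re, Complex.one_re, Complex.conj_re]
      linarith
    rw [h3, h2, hZ _ hs2, Complex.conj_tsum]
    rw [hA]
    congr 1
    refine tsum_congr fun I => ?_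
    rw [map_mul, Complex.conj_conj]
    congr 1
    have e : -(1 + s) = conj (-(1 + conj s)) := by
      rw [map_neg, map_add, map_one, Complex.conj_conj]
    rw [e, Complex.cpow_conj _ _ (by
      rw [Complex.natCast_arg]
      exact Real.pi_pos.ne), Complex.conj_natCast]
  have hY0 : Y 0 = A * conj (Z 1) := by
    rw [hY]
    show A * conj (Z (1 + conj 0)) = _
    rw [map_zero, add_zero]
  -- comparison
  have h6 : Z 1 = gs 𝔣 ⊤ W z₀ / ((absNorm 𝔣 : ℂ) * ((|discr L| : ℤ) : ℂ)) * Y 0 := by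
    rw [h1]
    show _ = _ * ∑ k, Φ (r k) * ((m k : ℂ) ^ g / (absNorm (r k) : ℂ)) * (absNorm (rhoI D (m k) (𝔣 * r k)) : ℂ) ^ (0 : ℂ) * Ec (m k) (v k) tau0 0
    rw [Finset.mul_sum]
    refine Finset.sum_congr rfl fun k _ => ?_
    have hEc := Ec_FE D hg (hE k) z2_tau0_im
    rw [← hgdef] at hEc
    rw [hEc, Complex.cpow_zero, mul_one, map_mul]
    have hn' : (n k : ℂ) ^ (2 * g) ≠ 0 := pow_ne_zero _ (Nat.cast_ne_zero.2 (hn0 k).ne')
    have hm' : (m k : ℂ) ^ g ≠ 0 := pow_ne_zero _ (Nat.cast_ne_zero.2 (hm k).ne')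
    have hf' : (absNorm 𝔣 : ℂ) ≠ 0 := Nat.cast_ne_zero.2 hfpos.ne'
    have hr' : (absNorm (r k) : ℂ) ≠ 0 := by
      rw [Nat.cast_ne_zero, Ne, absNorm_eq_zero_iff]
      exact hr k
    have hD' : ((|discr L| : ℤ) : ℂ) ≠ 0 := Int.cast_ne_zero.2 (abs_ne_zero.2 hDne)
    push_cast at hD' ⊢
    field_simp
  refine h6.trans ?_
  rw [hY0, hA]
  have hD2 : (discr L : ℂ) ^ 2 = ((|discr L| : ℤ) : ℂ) ^ 2 := by
    rw [← Int.cast_pow, ← Int.cast_pow, sq_abs]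
  have hf' : (absNorm 𝔣 : ℂ) ≠ 0 := Nat.cast_ne_zero.2 hfpos.ne'
  have hD' : ((|discr L| : ℤ) : ℂ) ≠ 0 := Int.cast_ne_zero.2 (abs_ne_zero.2 hDne)
  rw [hD2]
  generalize ((|discr L| : ℤ) : ℂ) = d at hD' ⊢
  generalize conj (Z 1) = c
  by_cases hq : Φ J₀ * conj (D.NK D.r) = 0
  · rw [hq]
    simp
  · field_simp

end

end

end TRZ
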