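import Pool.Agent.TRZ.FEB
import Pool.Agent.TRZ.FEDe
import Pool.Agent.TRP.VIa
import Pool.Agent.TRP.AN
import Pool.Agent.TRP.G2a
import Pool.Agent.TR.A7e
import Pool.Agent.TRG.Z2

/-! # [ALL2-FE, FDf] the valuations in the functional equation -/

set_option autoImplicit false
set_option linter.unusedSectionVars false

open NumberField Ideal IsDedekindDomain
open scoped Real Classical ComplexConjugate
open TR TRG TRP TTS TU TT

namespace TRZ

section
variable {M : Type} [Field M] [NumberField M]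

/-- an ideal which is coprime to `2` has an odd norm -/
theorem fd_odd_norm {I : Ideal (𝓞 M)} (h : IsCoprime I (span {(2 : 𝓞 M)})) (h0 : I ≠ ⊥) : Odd (absNorm I) := by
  rw [← Nat.not_even_iff_odd]
  intro hev
  rw [Ideal.absNorm_apply, Submodule.cardQuot_apply] at hev
  have hfin : Finite (𝓞 M ⧸ I) := I.finiteQuotientOfFreeOfNeBot h0
  have : Fact (Nat.Prime 2) := ⟨Nat.prime_two⟩
  obtain ⟨x, hx⟩ := exists_prime_addOrderOf_dvd_card' (G := 𝓞 M ⧸ I) 2 hev.two_dvd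
  obtain ⟨i, hi, v, hv, hiv⟩ := Ideal.isCoprime_iff_exists.1 h
  obtain ⟨c, hc⟩ := Ideal.mem_span_singleton'.1 hv
  have h2x : (2 : 𝓞 M ⧸ I) * x = 0 := by
    have h3 := addOrderOf_nsmul_eq_zero x
    rw [hx, two_nsmul] at h3
    rw [two_mul, h3]
  have h1 : (1 : 𝓞 M ⧸ I) = Ideal.Quotient.mk I c * 2 := by
    have h4 := congrArg (Ideal.Quotient.mk I) hiv
    rw [map_add, Ideal.Quotient.eq_zero_iff_mem.2 hi, zero_add, ← hc, map_mul, map_one, map_ofNat] at h4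
    exact h4.symm
  have hx0 : x = 0 := by
    rw [← one_mul x, h1, mul_assoc, h2x, mul_zero]
  rw [hx0, addOrderOf_zero] at hx
  exact absurd hx (by norm_num)

end

section
variable {M : Type} [Field M] [NumberField M]

/-- elements of the dual of `1` (compare `g4_dual_one`) -/
theorem fd_dual_one (z : M) : (∀ x : 𝓞 M, ∃ n : ℤ, Algebra.trace ℚ M (z * (x : M)) = n) ↔
    ∀ δ ∈ differentIdeal ℤ (𝓞 M), ∃ c : 𝓞 M, z * (δ : M) = c := by
  have h1 : z ∈ FractionalIdeal.dual ℤ ℚ (1 : FractionalIdeal (nonZeroDivisors (𝓞 M)) M) ↔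
      ∀ x : 𝓞 M, ∃ n : ℤ, Algebra.trace ℚ M (z * (x : M)) = n := by
    rw [FractionalIdeal.mem_dual (by simp)]
    constructor
    · intro h x
      obtain ⟨n, hn⟩ := h (x : M) ((FractionalIdeal.mem_one_iff _).2 ⟨x, rfl⟩)
      exact ⟨n, hn.symm⟩
    · intro h a ha
      obtain ⟨x, rfl⟩ := (FractionalIdeal.mem_one_iff _).1 ha
      obtain ⟨n, hn⟩ := h x
      exact ⟨n, hn.symm⟩
  rw [← h1]
  have h2 : FractionalIdeal.dual ℤ ℚ (1 : FractionalIdeal (nonZeroDivisors (𝓞 M)) M) =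
      ((differentIdeal ℤ (𝓞 M) : FractionalIdeal (nonZeroDivisors (𝓞 M)) M))⁻¹ := by
    rw [coeIdeal_differentIdeal ℤ ℚ, inv_inv]
  have h3 : ((differentIdeal ℤ (𝓞 M) : FractionalIdeal (nonZeroDivisors (𝓞 M)) M)) ≠ 0 := by
    rw [coeIdeal_differentIdeal ℤ ℚ]
    exact inv_ne_zero (FractionalIdeal.dual_ne_zero _ _ one_ne_zero)
  rw [h2, FractionalIdeal.mem_inv_iff h3]
  constructor
  · intro h δ hδ
    obtain ⟨c, hc⟩ := (FractionalIdeal.mem_one_iff _).1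
      (h (δ : M) ((FractionalIdeal.mem_coeIdeal _).2 ⟨δ, hδ, rfl⟩))
    exact ⟨c, hc.symm⟩
  · intro h y hy
    obtain ⟨δ, hδ, rfl⟩ := (FractionalIdeal.mem_coeIdeal _).1 hy
    obtain ⟨c, hc⟩ := h δ hδ
    exact (FractionalIdeal.mem_one_iff _).2 ⟨c, hc.symm⟩

end

section
variable {L M : Type} [Field L] [NumberField L] [Field M] [NumberField M] [Algebra L M] [IsTotallyReal L]

/-- the dual lattice of an ideal of `M` in terms of the different of `L` and `√-7` -/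
theorem fd_mem (D : Dat L M) {𝔞 : Ideal (𝓞 M)} {x : M} : x ∈ dualL 𝔞 ↔
    ∀ a ∈ 𝔞, ∀ δ ∈ (differentIdeal ℤ (𝓞 L)).map (algebraMap (𝓞 L) (𝓞 M)), ∃ c : 𝓞 M,
      x * (a : M) * (D.r * (δ : M)) = c := by
  have hd : differentIdeal ℤ (𝓞 M) = span {D.rr} * (differentIdeal ℤ (𝓞 L)).map (algebraMap (𝓞 L) (𝓞 M)) := by
    rw [← a7e_different D]
    exact differentIdeal_eq_differentIdeal_mul_differentIdeal ℤ (𝓞 L) (𝓞 M)
  rw [mem_dualL]
  constructor
  · intro h1 a ha δ hδ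
    have h3 := (fd_dual_one (x * (a : M))).1 (fun y => by
      obtain ⟨n, hn⟩ := h1 (a * y) (𝔞.mul_mem_right y ha)
      refine ⟨n, ?_⟩
      rw [← hn, mul_assoc]
      rfl) (D.rr * δ) (by
        rw [hd]
        exact Ideal.mul_mem_mul (Ideal.mem_span_singleton_self _) hδ)
    obtain ⟨c, hc⟩ := h3
    refine ⟨c, ?_⟩
    have e : ((D.rr * δ : 𝓞 M) : M) = D.r * (δ : M) := by
      rw [← a7e_coe_rr D]
      exact map_mul _ _ _
    rw [← e]
    exact hc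
  · intro h1 a ha
    have h3 := (fd_dual_one (x * (a : M))).2 (fun δ' hδ' => by
      rw [hd, Ideal.mem_span_singleton_mul] at hδ'
      obtain ⟨δ, hδ, rfl⟩ := hδ'
      obtain ⟨c, hc⟩ := h1 a ha δ hδ
      refine ⟨c, ?_⟩
      have e : ((D.rr * δ : 𝓞 M) : M) = D.r * (δ : M) := by
        rw [← a7e_coe_rr D]
        exact map_mul _ _ _
      rw [e]
      exact hc)
    obtain ⟨n, hn⟩ := h3 1
    refine ⟨n, ?_⟩
    rw [← hn]
    congr 1
    exact (mul_one _).symm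

/-- an element of the dual lattice -/
theorem fd_int (D : Dat L M) {𝔞 : Ideal (𝓞 M)} {x : M} (hx : x ∈ dualL 𝔞) {w : 𝓞 M}
    (hw : w ∈ 𝔞 * (differentIdeal ℤ (𝓞 L)).map (algebraMap (𝓞 L) (𝓞 M))) : ∃ c : 𝓞 M, x * D.r * (w : M) = c := by
  refine Submodule.mul_induction_on hw ?_ ?_
  · intro a ha δ hδ
    obtain ⟨y, hy⟩ := (fd_mem D).1 hx a ha δ hδ
    refine ⟨y, ?_⟩
    have e : ((a * δ : 𝓞 M) : M) = (a : M) * (δ : M) := map_mul _ _ _
    rw [← hy]
    show x * D.r * ((a * δ : 𝓞 M) : M) = _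
    rw [e]
    ring
  · rintro u v ⟨c, hc⟩ ⟨c', hc'⟩
    refine ⟨c + c', ?_⟩
    have e : ((u + v : 𝓞 M) : M) = (u : M) + (v : M) := map_add _ _ _
    have e' : ((c + c' : 𝓞 M) : M) = (c : M) + (c' : M) := map_add _ _ _
    rw [e, e', mul_add, hc, hc']

end

section
variable {L : Type} [Field L] [NumberField L] [IsTotallyReal L]

/-- the different of `L` is coprime to `2` -/
theorem fd_diff (h2 : (span {(2 : 𝓞 L)}).IsPrime) (hodd : Odd (Module.finrank ℚ L)) :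
    IsCoprime (differentIdeal ℤ (𝓞 L)) (span {(2 : 𝓞 L)}) := by
  have hne : (span {(2 : 𝓞 L)}) ≠ ⊥ := by
    rw [Ne, Ideal.span_singleton_eq_bot]
    exact two_ne_zero
  have hmax := h2.isMaximal hne
  have hle : ¬ differentIdeal ℤ (𝓞 L) ≤ span {(2 : 𝓞 L)} := by
    intro hle
    have h3 := (g4_dual_one (1 / 2 : L)).2 (fun δ hδ => by
      obtain ⟨c, hc⟩ := Ideal.mem_span_singleton'.1 (hle hδ)
      refine ⟨c, ?_⟩
      rw [← hc]
      have e : ((c * 2 : 𝓞 L) : L) = (c : L) * 2 := by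
        show algebraMap (𝓞 L) L (c * 2) = algebraMap (𝓞 L) L c * 2
        rw [map_mul, map_ofNat]
      rw [e]
      ring)
    obtain ⟨n, hn⟩ := h3 1
    have e : (1 / 2 : L) * ((1 : 𝓞 L) : L) = algebraMap ℚ L (1 / 2) := by
      have e1 : ((1 : 𝓞 L) : L) = 1 := rfl
      rw [e1, mul_one, map_div₀, map_one, map_ofNat]
    rw [e, Algebra.trace_algebraMap] at hn
    obtain ⟨k, hk⟩ := hodd
    rw [hk, nsmul_eq_mul] at hn
    have h5 : (2 * (k : ℚ) + 1) = 2 * n := by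
      push_cast at hn
      linear_combination 2 * hn
    have h6 : (2 * (k : ℤ) + 1) = 2 * n := by exact_mod_cast h5
    omega
  rw [Ideal.isCoprime_iff_sup_eq]
  have h1 := hmax.1.2 (differentIdeal ℤ (𝓞 L) ⊔ span {(2 : 𝓞 L)})
  apply h1
  refine lt_of_le_of_ne le_sup_right fun h => hle ?_
  rw [h]
  exact le_sup_left

end

section
variable {L M : Type} [Field L] [NumberField L] [Field M] [NumberField M] [Algebra L M] [IsTotallyReal L]

/-- the norm of an integer of odd norm -/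
theorem fd_unit (D : Dat L M) {V : ValuationSubring ℂ} (h2 : V.valuation 2 < 1) {x : 𝓞 M} (hx : Odd (absNorm (span {x}))) :
    V.valuation (D.NK (x : M)) = 1 := by
  have hint : ∀ y : 𝓞 M, V.valuation (D.NK (y : M)) ≤ 1 ∧ V.valuation (conj (D.NK (y : M))) ≤ 1 := by
    intro y
    obtain ⟨m, n, h⟩ := vi_nk_form D true y
    have hc : ∀ s, IsIntegral ℤ (c1 s) := by
      intro s
      refine ⟨Polynomial.X ^ 2 - Polynomial.X + 2, by monicity!, ?_⟩
      have h3 := z_mul s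
      simp only [Polynomial.eval₂_add, Polynomial.eval₂_sub, Polynomial.eval₂_pow, Polynomial.eval₂_X, Polynomial.eval₂_ofNat]
      linear_combination -h3
    have h3 : IsIntegral ℤ (conj (D.NK (y : M))) := by
      rw [h]
      exact (isIntegral_algebraMap (R := ℤ) (x := m)).add ((isIntegral_algebraMap (R := ℤ) (x := n)).mul (hc true))
    have h4 : IsIntegral ℤ (D.NK (y : M)) := by
      have h5 : D.NK (y : M) = m + n * c1 false := by
        have h6 := congrArg (starRingEnd ℂ) h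
        rw [Complex.conj_conj, map_add, map_mul, map_intCast, map_intCast, z_conj, ← z_not] at h6
        exact h6
      rw [h5]
      exact (isIntegral_algebraMap (R := ℤ) (x := m)).add ((isIntegral_algebraMap (R := ℤ) (x := n)).mul (hc false))
    exact ⟨val_integral h4, val_integral h3⟩
  have h1 : D.NK (x : M) * conj (D.NK (x : M)) = ((absNorm (span {x}) : ℕ) : ℂ) := by
    rw [Complex.mul_conj, Complex.normSq_eq_norm_sq, ← D.absNorm_span, Complex.ofReal_natCast]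
  have h3 := congrArg V.valuation h1
  rw [map_mul, TRS.zr3c_vodd h2 hx] at h3
  obtain ⟨ha, hb⟩ := hint x
  refine le_antisymm ha ?_
  rw [← h3]
  calc V.valuation (D.NK (x : M)) * V.valuation (conj (D.NK (x : M))) ≤ V.valuation (D.NK (x : M)) * 1 := mul_le_mul' le_rfl hb
    _ = _ := mul_one _

theorem fd_absNorm (D : Dat L M) {V : ValuationSubring ℂ} (x : 𝓞 M) :
    V.valuation ((absNorm (span {x}) : ℕ) : ℂ) = V.valuation (D.NK (x : M)) * V.valuation (conj (D.NK (x : M))) := by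
  rw [← map_mul, Complex.mul_conj, Complex.normSq_eq_norm_sq, ← D.absNorm_span, Complex.ofReal_natCast]

theorem fd_unit' (D : Dat L M) {V : ValuationSubring ℂ} (h2 : V.valuation 2 < 1) {x : 𝓞 M} (hx : Odd (absNorm (span {x}))) :
    V.valuation (conj (D.NK (x : M))) = 1 := by
  have h1 := fd_absNorm D (V := V) x
  rw [TRS.zr3c_vodd h2 hx, fd_unit D h2 hx, one_mul] at h1
  exact h1.symm

/-- the valuation of `NK` of a generator of `I^h` -/
noncomputable def nI (D : Dat L M) (V : ValuationSubring ℂ) (I : Ideal (𝓞 M)) : V.ValueGroup :=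
  V.valuation (D.NK (((r2_class_gen I).choose : 𝓞 M) : M))

theorem nI_eq (D : Dat L M) {V : ValuationSubring ℂ} (h2 : V.valuation 2 < 1) {I : Ideal (𝓞 M)} {x : 𝓞 M}
    (hx : I ^ classNumber M = span {x}) : nI D V I = V.valuation (D.NK (x : M)) := by
  unfold nI
  have h1 := hx.symm.trans (r2_class_gen I).choose_spec
  obtain ⟨u, hu⟩ := Ideal.span_singleton_eq_span_singleton.1 h1
  rw [← hu]
  have e : ((x * (u : 𝓞 M) : 𝓞 M) : M) = (x : M) * ((u : 𝓞 M) : M) := map_mul _ _ _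
  rw [e, D.NK_mul, map_mul]
  have h3 : absNorm (span {(u : 𝓞 M)}) = 1 := by
    rw [Ideal.span_singleton_eq_top.2 u.isUnit, Ideal.absNorm_top]
  rw [fd_unit D h2 (x := (u : 𝓞 M)) (by rw [h3]; exact odd_one), mul_one]

theorem nI_mul (D : Dat L M) {V : ValuationSubring ℂ} (h2 : V.valuation 2 < 1) (I J : Ideal (𝓞 M)) :
    nI D V (I * J) = nI D V I * nI D V J := by
  obtain ⟨x, hx⟩ := r2_class_gen I
  obtain ⟨y, hy⟩ := r2_class_gen J
  rw [nI_eq D h2 hx, nI_eq D h2 hy, nI_eq D h2 (I := I * J) (x := x * y) (by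
    rw [mul_pow, hx, hy, Ideal.span_singleton_mul_span_singleton])]
  have e : ((x * y : 𝓞 M) : M) = (x : M) * (y : M) := map_mul _ _ _
  rw [e, D.NK_mul, map_mul]

theorem nI_pow (D : Dat L M) {V : ValuationSubring ℂ} (h2 : V.valuation 2 < 1) (I : Ideal (𝓞 M)) (n : ℕ) :
    nI D V (I ^ n) = nI D V I ^ n := by
  induction n with
  | zero =>
    rw [pow_zero, pow_zero, nI_eq D h2 (I := 1) (x := 1) (by rw [one_pow, Ideal.span_singleton_one, Ideal.one_eq_top])]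
    refine fd_unit D h2 ?_
    rw [Ideal.span_singleton_one, Ideal.absNorm_top]
    exact odd_one
  | succ n ih => rw [pow_succ, nI_mul D h2, ih, pow_succ]

theorem nI_span (D : Dat L M) {V : ValuationSubring ℂ} (h2 : V.valuation 2 < 1) (x : 𝓞 M) :
    nI D V (span {x}) = V.valuation (D.NK (x : M)) ^ classNumber M := by
  rw [nI_eq D h2 (x := x ^ classNumber M) (Ideal.span_singleton_pow _ _), vi_NK_pow, map_pow]

theorem nI_odd (D : Dat L M) {V : ValuationSubring ℂ} (h2 : V.valuation 2 < 1) {I : Ideal (𝓞 M)} (h0 : I ≠ ⊥)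
    (h : IsCoprime I (span {(2 : 𝓞 M)})) : nI D V I = 1 := by
  obtain ⟨x, hx⟩ := r2_class_gen I
  rw [nI_eq D h2 hx]
  refine fd_unit D h2 ?_
  rw [← hx, map_pow]
  exact (fd_odd_norm h h0).pow

theorem fd_c1 {V : ValuationSubring ℂ} {s : Bool} (hs : V.valuation (c1 s) < 1) :
    V.valuation (c1 (!s)) = 1 ∧ V.valuation (c1 s) = V.valuation 2 := by
  have h1 : V.valuation (c1 (!s)) = 1 := by
    rw [z_not]
    have e : (1 - c1 s : ℂ) = 1 + -c1 s := by ring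
    rw [e, Valuation.map_add_eq_of_lt_left _ (by rw [Valuation.map_neg, map_one]; exact hs), map_one]
  refine ⟨h1, ?_⟩
  have h3 := z_mul s
  rw [← z_not] at h3
  rw [← h3, map_mul, h1, mul_one]

end

section
variable {L M : Type} [Field L] [NumberField L] [Field M] [NumberField M] [Algebra L M] [IsTotallyReal L] {D : Dat L M}
  {𝔣 : Ideal (𝓞 M)} {W : 𝓞 M → ℤ} {Φ : Ideal (𝓞 M) →*₀ ℂ} (H : HC D 𝔣 W Φ)
include H

/-- [FDf] the valuations in the functional equation -/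
theorem HC.fe_val (hD : Od2 D) (hg : Odd (Module.finrank ℚ L)) {s : Bool} {V : ValuationSubring ℂ} (h2 : V.valuation 2 < 1) (hs : V.valuation (c1 s) < 1)
    {a b : ℕ} {𝔬 : Ideal (𝓞 M)} (h𝔬 : IsCoprime 𝔬 (span {(2 : 𝓞 M)})) (hf : 𝔣 = 𝔬 * span {p1 D s} ^ a * span {p2 D s} ^ b)
    {Z : ℂ → ℂ} (hZd : Differentiable ℂ Z)
    (hZ : ∀ t : ℂ, 3 / 2 < t.re → Z t = ∑' I : Ideal (𝓞 M), conj (Φ I) * (absNorm I : ℂ) ^ (-t)) :
    V.valuation (Z 1) ^ 2 * V.valuation 2 ^ (Module.finrank ℚ L * a) =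
      V.valuation 2 ^ (Module.finrank ℚ L * b) * V.valuation (conj (Z 1)) ^ 2 := by
  set g := Module.finrank ℚ L with hgdef
  have hf0 := H.pq.ne
  obtain ⟨z₀, hz⟩ := exists_PZ hf0
  obtain ⟨𝔡, h𝔡⟩ : ∃ 𝔡 : Ideal (𝓞 M), 𝔡 = (differentIdeal ℤ (𝓞 L)).map (algebraMap (𝓞 L) (𝓞 M)) := ⟨_, rfl⟩
  have hd2 := fd_diff hD.two hg
  have h𝔡2 : IsCoprime 𝔡 (span {(2 : 𝓞 M)}) := by
    rw [Ideal.isCoprime_iff_sup_eq] at hd2 ⊢
    have h3 := congrArg (Ideal.map (algebraMap (𝓞 L) (𝓞 M))) hd2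
    rw [Ideal.map_sup, Ideal.map_span, Set.image_singleton, map_ofNat, Ideal.map_top] at h3
    rw [h𝔡, h3]
  have h𝔡0 : 𝔡 ≠ ⊥ := by
    rw [h𝔡, Ne, Ideal.map_eq_bot_iff_of_injective (FaithfulSMul.algebraMap_injective (𝓞 L) (𝓞 M))]
    exact differentIdeal_ne_bot
  obtain ⟨m₀, hm⟩ : ∃ m₀ : ℕ, m₀ = absNorm (𝔣 * 𝔡) := ⟨_, rfl⟩
  have hm₀ : 0 < m₀ := by
    rw [hm, Nat.pos_iff_ne_zero, Ne, Ideal.absNorm_eq_zero_iff]
    exact mul_ne_zero hf0 h𝔡0
  have hmem : ((m₀ : ℕ) : 𝓞 M) ∈ 𝔣 * 𝔡 := by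
    rw [hm]
    exact Ideal.absNorm_mem _
  have h𝔟 : ∃ 𝔟 : Ideal (𝓞 M), 𝔟 * 𝔣 * 𝔡 = span {((m₀ : ℕ) : 𝓞 M)} := by
    obtain ⟨𝔟, h⟩ := Ideal.dvd_span_singleton.2 hmem
    exact ⟨𝔟, by rw [h]; ring⟩
  rw [h𝔡] at h𝔟 hmem
  have hρ := rhoI_eq (D := D) hm₀ hf0 h𝔟
  have hm0M : ((m₀ : ℕ) : M) ≠ 0 := by exact_mod_cast hm₀.ne'
  have hr0 : D.r ≠ 0 := by
    intro h0
    have h3 := D.hr
    rw [h0] at h3
    norm_num at h3
  obtain ⟨c, hc⟩ := fd_int D hz.mem hmem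
  have hmM : (((m₀ : ℕ) : 𝓞 M) : M) = (m₀ : M) := map_natCast _ _
  rw [hmM] at hc
  obtain ⟨a₀, ha⟩ : ∃ a₀ : 𝓞 M, a₀ = -c := ⟨_, rfl⟩
  have haM : (a₀ : M) = -(z₀ * D.r * m₀) := by
    rw [hc, ha]
    exact map_neg _ _
  have ha₀ : z₀ = -(a₀ : M) / ((m₀ : M) * D.r) := by
    rw [haM]
    field_simp
  have hamem : a₀ ∈ rhoI D m₀ 𝔣 := by
    show (a₀ : M) / ((m₀ : M) * D.r) ∈ dualL 𝔣
    have e : (a₀ : M) / ((m₀ : M) * D.r) = -z₀ := by
      rw [haM]
      field_simp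
    rw [e]
    exact neg_mem hz.mem
  obtain ⟨J₀, hJ⟩ := Ideal.dvd_span_singleton.2 hamem
  have hfe := H.fe hg hz hm₀ ha₀ (J₀ := J₀) (by rw [mul_comm, hJ]) h𝔟 hZd hZ
  -- `J₀`
  have ha00 : a₀ ≠ 0 := by
    rintro rfl
    apply hz.ne
    rw [ha₀]
    have e : ((0 : 𝓞 M) : M) = 0 := rfl
    rw [e, neg_zero, zero_div]
  have hJ0 : J₀ ≠ ⊥ := by
    rintro rfl
    rw [← Ideal.zero_eq_bot, mul_zero, Ideal.zero_eq_bot, Ideal.span_singleton_eq_bot] at hJ
    exact ha00 hJ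
  obtain ⟨x₀, hx₀⟩ := r2_class_gen J₀
  have hx0 : x₀ ≠ 0 := by
    rintro rfl
    rw [Ideal.span_singleton_eq_bot.2 rfl] at hx₀
    exact pow_ne_zero (classNumber M) hJ0 hx₀
  have hW : W x₀ ≠ 0 := by
    intro h0
    obtain ⟨P, hP, hxP⟩ := (H.pq.zero x₀).1 h0
    have hJP : J₀ ≤ P.asIdeal := by
      refine P.isPrime.le_of_pow_le (n := classNumber M) ?_
      rw [hx₀, Ideal.span_singleton_le_iff_mem]
      exact hxP
    obtain ⟨J₁, hJ1⟩ := Ideal.dvd_iff_le.2 hJP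
    obtain ⟨𝔤, hg1⟩ := Ideal.dvd_iff_le.2 hP
    refine hz.prim P 𝔤 hg1 ?_
    -- `(a₀) 𝔤 𝔡 = J₁ (m₀)`
    have h3 : span {a₀} * (𝔤 * 𝔡) = J₁ * span {((m₀ : ℕ) : 𝓞 M)} := by
      apply mul_left_cancel₀ P.ne_bot
      calc P.asIdeal * (span {a₀} * (𝔤 * 𝔡)) = span {a₀} * ((P.asIdeal * 𝔤) * 𝔡) := by ring
        _ = rhoI D m₀ 𝔣 * J₀ * (𝔣 * 𝔡) := by rw [← hg1, hJ]
        _ = J₀ * (rhoI D m₀ 𝔣 * 𝔣 * 𝔡) := by ring
        _ = J₀ * span {((m₀ : ℕ) : 𝓞 M)} := by rw [h𝔡, hρ]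
        _ = _ := by rw [hJ1]; ring
    rw [fd_mem D]
    intro y hy δ hδ
    rw [← h𝔡] at hδ
    have h4 : a₀ * (y * δ) ∈ J₁ * span {((m₀ : ℕ) : 𝓞 M)} := by
      rw [← h3]
      exact Ideal.mul_mem_mul (Ideal.mem_span_singleton_self _) (Ideal.mul_mem_mul hy hδ)
    obtain ⟨c', hc'⟩ := Ideal.mem_span_singleton'.1 (Ideal.mul_le_right h4)
    refine ⟨-c', ?_⟩
    have h5 : (a₀ : M) * ((y : M) * (δ : M)) = (c' : M) * (m₀ : M) := by
      have h6 : ((c' * ((m₀ : ℕ) : 𝓞 M) : 𝓞 M) : M) = ((a₀ * (y * δ) : 𝓞 M) : M) := by rw [hc']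
      have e1 : ((c' * ((m₀ : ℕ) : 𝓞 M) : 𝓞 M) : M) = (c' : M) * (m₀ : M) := by
        rw [← hmM]
        exact map_mul _ _ _
      have e2 : ((a₀ * (y * δ) : 𝓞 M) : M) = (a₀ : M) * ((y : M) * (δ : M)) := by
        have e3 : ((y * δ : 𝓞 M) : M) = (y : M) * (δ : M) := map_mul _ _ _
        rw [← e3]
        exact map_mul _ _ _
      rw [← e1, ← e2, h6]
    have e4 : ((-c' : 𝓞 M) : M) = -(c' : M) := map_neg _ _
    rw [e4, ha₀]
    field_simp
    linear_combination -h5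
  -- the valuations
  set h := classNumber M with hcl
  have hh0 : h ≠ 0 := (classNumber_pos M).ne'
  have hB : V.valuation (2 : ℂ) ≠ 0 := by
    rw [Ne, map_eq_zero]
    exact two_ne_zero
  obtain ⟨hc2, hc1⟩ := fd_c1 hs
  have hnk1 : V.valuation (D.NK (p1 D s : M)) = V.valuation 2 ^ g := by
    rw [nk_p1, map_pow, hc1]
  have hnk2 : V.valuation (D.NK (p2 D s : M)) = 1 := by
    rw [show p2 D s = p1 D (!s) from rfl, nk_p1, map_pow, hc2, one_pow]
  have h𝔬0 : 𝔬 ≠ ⊥ := by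
    rintro rfl
    apply hf0
    rw [hf, Ideal.bot_mul, Ideal.bot_mul]
  have hnf : nI D V 𝔣 = (V.valuation 2 ^ (g * a)) ^ h := by
    rw [hf, nI_mul D h2, nI_mul D h2, nI_pow D h2, nI_pow D h2, nI_span D h2, nI_span D h2, hnk1, hnk2, one_pow, one_pow, mul_one,
      nI_odd D h2 h𝔬0 h𝔬, one_mul, ← hcl, ← pow_mul, ← pow_mul, ← pow_mul]
    congr 1
    ring
  have hnd : nI D V 𝔡 = 1 := nI_odd D h2 h𝔡0 h𝔡2
  have hrrodd : Odd (absNorm (span {D.rr})) := by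
    rw [a7e_absNorm D]
    exact Odd.pow (by decide)
  have hnr : V.valuation (D.NK D.r) = 1 := by
    rw [← a7e_coe_rr D]
    exact fd_unit D h2 hrrodd
  have hncr : V.valuation (conj (D.NK D.r)) = 1 := by
    rw [← a7e_coe_rr D]
    exact fd_unit' D h2 hrrodd
  have hnm : V.valuation (D.NK ((m₀ : ℕ) : M)) ≠ 0 := by
    rw [← hmM, Ne, map_eq_zero]
    exact x_NK_ne D (by exact_mod_cast hm₀.ne')
  have hnneg : V.valuation (D.NK (-1 : M)) = 1 := by
    have e : (-1 : M) = ((-1 : 𝓞 M) : M) := by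
      show (-1 : M) = algebraMap (𝓞 M) M (-1)
      rw [map_neg, map_one]
    rw [e]
    refine fd_unit D h2 ?_
    rw [Ideal.span_singleton_neg, Ideal.span_singleton_one, Ideal.absNorm_top]
    exact odd_one
  have hna : V.valuation (D.NK (a₀ : M)) = V.valuation (D.NK z₀) * V.valuation (D.NK ((m₀ : ℕ) : M)) := by
    have e : (a₀ : M) = (-1) * (z₀ * D.r * m₀) := by
      rw [haM]
      ring
    rw [e, D.NK_mul, D.NK_mul, D.NK_mul, map_mul, map_mul, map_mul, hnneg, hnr, one_mul, mul_one]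
  have hE1 : nI D V (rhoI D m₀ 𝔣) * nI D V J₀ = V.valuation (D.NK (a₀ : M)) ^ h := by
    rw [← nI_mul D h2, ← hJ, nI_span D h2]
  have hE2 : nI D V (rhoI D m₀ 𝔣) * nI D V 𝔣 = V.valuation (D.NK ((m₀ : ℕ) : M)) ^ h := by
    rw [← hmM, ← nI_span D h2, ← hρ, ← h𝔡, nI_mul D h2, nI_mul D h2, hnd, mul_one]
  have hρ0 : nI D V (rhoI D m₀ 𝔣) ≠ 0 := by
    intro h0
    rw [h0, zero_mul] at hE2
    exact pow_ne_zero _ hnm hE2.symm
  have hnJ : nI D V J₀ = (V.valuation (D.NK z₀) * V.valuation 2 ^ (g * a)) ^ h := by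
    apply mul_left_cancel₀ hρ0
    rw [hE1, hna, mul_pow, ← hE2, hnf, mul_pow]
    rw [mul_left_comm]
  have hΦJ : V.valuation (Φ J₀) = V.valuation (D.NK z₀) * V.valuation 2 ^ (g * a) := by
    rw [← pow_left_inj₀ zero_le zero_le hh0, ← hnJ, nI_eq D h2 hx₀, ← map_pow, ← map_pow, hx₀, H.span_eq x₀ hx0, map_mul]
    have hW1 : V.valuation ((W x₀ : ℤ) : ℂ) = 1 := by
      rcases H.pq.val x₀ with h3 | h3 | h3
      · exact absurd h3 hW
      · rw [h3, Int.cast_one, map_one]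
      · rw [h3, Int.cast_neg, Int.cast_one, Valuation.map_neg, map_one]
    rw [hW1, mul_one]
  have hgs : V.valuation (gs 𝔣 ⊤ W z₀) ^ 2 = V.valuation 2 ^ (g * (a + b)) := by
    rw [← map_pow, H.pq.gs_sq hz, map_mul]
    have hW1 : V.valuation ((W (-1) : ℤ) : ℂ) = 1 := by
      rcases H.pq.val (-1) with h3 | h3 | h3
      · exfalso
        obtain ⟨P, -, hP⟩ := (H.pq.zero (-1)).1 h3
        exact P.isPrime.ne_top (Ideal.eq_top_of_isUnit_mem _ hP isUnit_one.neg)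
      · rw [h3, Int.cast_one, map_one]
      · rw [h3, Int.cast_neg, Int.cast_one, Valuation.map_neg, map_one]
    rw [hW1, one_mul, hf, map_mul, map_mul, map_pow, map_pow]
    push_cast
    rw [map_mul, map_mul, map_pow, map_pow, TRS.zr3c_vodd h2 (fd_odd_norm h𝔬 h𝔬0), one_mul, fd_absNorm D, fd_absNorm D,
      hnk1, hnk2, one_mul]
    have e1 : V.valuation (conj (D.NK (p1 D s : M))) = 1 := by
      rw [nk_p1, map_pow, z_conj, ← z_not, map_pow, hc2, one_pow]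
    have e2 : V.valuation (conj (D.NK (p2 D s : M))) = V.valuation 2 ^ g := by
      rw [show p2 D s = p1 D (!s) from rfl, nk_p1, map_pow, z_conj, z_not, sub_sub_cancel, map_pow, hc1]
    rw [e1, e2, mul_one, ← pow_mul, ← pow_mul, ← pow_add]
    congr 1
    ring
  have hdisc : V.valuation (((|discr L| : ℤ)) : ℂ) = 1 := by
    have e : ((|discr L| : ℤ) : ℂ) = ((absNorm (differentIdeal ℤ (𝓞 L)) : ℕ) : ℂ) := by
      rw [absNorm_differentIdeal L (𝓞 L), Int.abs_eq_natAbs, Int.cast_natCast]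
    rw [e]
    exact TRS.zr3c_vodd h2 (fd_odd_norm hd2 differentIdeal_ne_bot)
  have h7 : V.valuation ((7 : ℂ) ^ g) = 1 := by
    have := TRS.zr3c_vodd h2 (n := 7) (by decide)
    rw [map_pow]
    have e : ((7 : ℕ) : ℂ) = 7 := by norm_num
    rw [← e, this, one_pow]
  have hz0 : V.valuation (D.NK z₀) ≠ 0 := by
    intro h0
    rw [h0, zero_mul, map_eq_zero] at hna
    exact x_NK_ne D ha00 hna
  have hmain : V.valuation (Z 1) * V.valuation 2 ^ (g * a) = V.valuation (gs 𝔣 ⊤ W z₀) * V.valuation (conj (Z 1)) := by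
    have h8 := congrArg V.valuation hfe
    rw [map_mul, Valuation.map_neg, map_div₀, map_mul, map_mul, map_mul, map_mul, hdisc, h7, hncr, hΦJ, mul_one, mul_one, mul_one] at h8
    rw [h8]
    have hBga : V.valuation (2 : ℂ) ^ (g * a) ≠ 0 := pow_ne_zero _ hB
    field_simp
  apply mul_right_cancel₀ (pow_ne_zero (g * a) hB)
  have h9 : (V.valuation (Z 1) * V.valuation 2 ^ (g * a)) ^ 2 = (V.valuation (gs 𝔣 ⊤ W z₀) * V.valuation (conj (Z 1))) ^ 2 := by
    rw [hmain]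
  rw [mul_pow, mul_pow, hgs, ← pow_mul] at h9
  calc V.valuation (Z 1) ^ 2 * V.valuation 2 ^ (g * a) * V.valuation 2 ^ (g * a) =
      V.valuation (Z 1) ^ 2 * V.valuation 2 ^ (g * a * 2) := by
        rw [mul_assoc, ← pow_add, mul_two]
    _ = V.valuation 2 ^ (g * (a + b)) * V.valuation (conj (Z 1)) ^ 2 := h9
    _ = _ := by
        rw [mul_right_comm, ← pow_add]
        congr 2
        ring

end

end TRZ
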