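import Pool.Agent.TRZ.FG
import Pool.Agent.TRZ.FDf

/-! # [ALL2-FE, FG2] the functional equation for the valuations -/

set_option autoImplicit false
set_option linter.unusedSectionVars false

open NumberField Ideal IsDedekindDomain
open scoped Real Classical ComplexConjugate
open TR TRG TRP TTS TU TT

namespace TRZ

section
variable {L M : Type} [Field L] [NumberField L] [Field M] [NumberField M] [Algebra L M] [IsTotallyReal L] {D : Dat L M}
  (hD : Od2 D) {s : Bool} {d : M} {T : Finset (HeightOneSpectrum (𝓞 M))} {z : HeightOneSpectrum (𝓞 M) → 𝓞 M} {ε : (𝓞 L)ˣ} {i j : Bool}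
  (H : DK D s d T z ε i j)
include hD H

/-- [FG] **the functional equation for the valuations** -/
theorem DK.fe {V : ValuationSubring ℂ} (h2 : V.valuation 2 < 1) (hs : V.valuation (c1 s) < 1)
    {Φ : Ideal (𝓞 M) →*₀ ℂ} (hΦ : PhiK D s T (kp (cd D s T z ε) i) (kp (ε : 𝓞 L) j) Φ)
    {Z : ℂ → ℂ} (hZd : Differentiable ℂ Z)
    (hZ : ∀ t : ℂ, 3 / 2 < t.re → Z t = ∑' I : Ideal (𝓞 M), conj (Φ I) * (absNorm I : ℂ) ^ (-t)) :
    V.valuation (Z 1) ^ 2 * V.valuation 2 ^ (Module.finrank ℚ L * ce (cd D s T z ε) i) =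
      V.valuation 2 ^ (Module.finrank ℚ L * ce (ε : 𝓞 L) j) * V.valuation (conj (Z 1)) ^ 2 :=
  (DK.hc hD H hΦ).fe_val hD hD.odd h2 hs (fg_cop2 H.two) rfl hZd hZ

end

end TRZ
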