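import Pool.Agent.TRZ.F2
import Pool.Agent.TRZ.F3
import Pool.Agent.TRZ.FG2
import Pool.Agent.TRZ.FESN3
import Pool.Agent.TRZ.CL1

/-! # [ALL2-FIN3] BSD modulo 2, at most one exceptional prime above `2` -/

set_option autoImplicit false
set_option linter.unusedSectionVars false

open NumberField Ideal IsDedekindDomain
open scoped Real Classical ComplexConjugate
open TR TRG TRP TTS TU TT CM27 CMT GE

namespace TRZ

/-- the bookkeeping of the valuations with the functional equation -/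
theorem f4_key {V : ValuationSubring ℂ} {x y r t ζ : ℂ} {g n a b u u' c c' : ℕ} (hc : c + 2 * u = 2 + a) (hc' : c' + 2 * u' = 2 + b)
    (h20 : V.valuation 2 ≠ 0)
    (hx : V.valuation x * V.valuation 2 ^ g = V.valuation t)
    (hfe : V.valuation x ^ 2 * V.valuation 2 ^ (g * c) = V.valuation 2 ^ (g * c') * V.valuation y ^ 2)
    (hr : V.valuation r ^ 2 = V.valuation 2 ^ (g * (a + b)))
    (h1 : V.valuation t ^ 2 * V.valuation 2 ^ (2 * u' + (g * a + 2 * u)) = V.valuation 2 ^ (2 * n + 2 * g * u) * V.valuation ζ ^ 2) :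
    V.valuation (x * y * r) * V.valuation 2 ^ (2 * g + 2 * (u + u')) =
      V.valuation 2 ^ (2 * n + g * (u + u')) * (V.valuation ζ * V.valuation ζ) := by
  rw [← pow_left_inj₀ zero_le zero_le (two_ne_zero)]
  rw [map_mul, map_mul]
  rw [← hx, mul_pow, ← pow_mul, mul_assoc, ← pow_add] at h1
  generalize V.valuation x = X at *
  generalize V.valuation y = Y at *
  generalize V.valuation r = R at *
  generalize V.valuation (2 : ℂ) = B at *
  generalize V.valuation ζ = Z at *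
  have h2 := f2_mon h1 h1 (e := 2 * (g * 2 + (2 * u' + (g * a + 2 * u)))) (e' := 2 * (2 * n + 2 * g * u)) (by ring) (by ring)
  have hg1 : g * c + 2 * (g * u) = 2 * g + g * a := by
    have h : g * (c + 2 * u) = g * (2 + a) := by rw [hc]
    linarith
  have hg2 : g * c' + 2 * (g * u') = 2 * g + g * b := by
    have h : g * (c' + 2 * u') = g * (2 + b) := by rw [hc']
    linarith
  have e1 : (X * Y * R * B ^ (2 * g + 2 * (u + u'))) ^ 2 = X ^ 2 * Y ^ 2 * B ^ (g * (a + b) + (2 * g + 2 * (u + u')) * 2) := by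
    rw [mul_pow, mul_pow, mul_pow, hr, ← pow_mul, pow_add, mul_assoc (X ^ 2 * Y ^ 2)]
  have e2 : (B ^ (2 * n + g * (u + u')) * (Z * Z)) ^ 2 = B ^ ((2 * n + g * (u + u')) * 2) * (Z ^ 2 * Z ^ 2) := by
    rw [mul_pow, mul_pow, ← pow_mul]
  rw [e1, e2]
  have hB : B ^ (2 * g + g * a) ≠ 0 := pow_ne_zero _ h20
  apply mul_right_cancel₀ hB
  obtain ⟨ex, hex⟩ : ∃ ex, ex = 2 * (g * 2 + (2 * u' + (g * a + 2 * u))) := ⟨_, rfl⟩
  rw [← hex] at h2
  have k1 : g * (a + b) + (2 * g + 2 * (u + u')) * 2 + (2 * g + g * a) = g * c' + ex + 2 * (g * u') := by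
    rw [hex]
    linarith
  have k2 : (2 * n + g * (u + u')) * 2 + (2 * g + g * a) = 2 * (2 * n + 2 * g * u) + g * c + 2 * (g * u') := by
    linarith
  calc X ^ 2 * Y ^ 2 * B ^ (g * (a + b) + (2 * g + 2 * (u + u')) * 2) * B ^ (2 * g + g * a) =
      X ^ 2 * Y ^ 2 * B ^ (g * c' + ex + 2 * (g * u')) := by
        rw [mul_assoc, ← pow_add, k1]
    _ = X ^ 2 * (B ^ (g * c') * Y ^ 2) * B ^ ex * B ^ (2 * (g * u')) := by
        rw [pow_add, pow_add]
        ac_rfl
    _ = (X ^ 2 * X ^ 2 * B ^ ex) * B ^ (g * c) * B ^ (2 * (g * u')) := by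
        rw [← hfe]
        ac_rfl
    _ = B ^ (2 * (2 * n + 2 * g * u) + g * c + 2 * (g * u')) * (Z ^ 2 * Z ^ 2) := by
        rw [h2, pow_add, pow_add, mul_right_comm _ (Z ^ 2 * Z ^ 2), mul_right_comm _ (Z ^ 2 * Z ^ 2)]
    _ = _ := by
        rw [← k2, pow_add, mul_right_comm]

section
variable {L M : Type} [Field L] [NumberField L] [Field M] [NumberField M] [Algebra L M]
  [IsTotallyReal L] {D : Dat L M} (hD : Od2 D)
include hD

/-- an exceptional prime: `T` is not empty (`d ≠ ± √-7` up to squares) -/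
theorem f4_ne {s : Bool} {d : M} {T : Finset (HeightOneSpectrum (𝓞 M))} {z : HeightOneSpectrum (𝓞 M) → 𝓞 M}
    {ε : (𝓞 L)ˣ} {i j : Bool} (H : DK D s d T z ε i j) (hd : d ≠ 0) (hn : ¬ Nsq D (!s) d)
    (hsq : ¬ IsSquare (-(d * (rs7 D s : M)))) : T.Nonempty := by
  have hR := f3_unr hD H hd hn
  rcases f3_hT hD H hsq with h | h | h
  · exact h
  · exact absurd h hR
  · by_contra hT
    rw [Finset.not_nonempty_iff_eq_empty] at hT
    apply hn
    rw [(DK.nsq' hD H hR).2, hT, Finset.sum_empty, add_zero, if_pos h]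

theorem f4_neg {s : Bool} {d : M} (hsq : ¬ IsSquare (d * (rs7 D (!s) : M))) : ¬ IsSquare (-(d * (rs7 D s : M))) := by
  have e : d * (rs7 D (!s) : M) = -(d * (rs7 D s : M)) := by
    rw [c2_rs7_not]
    have e1 : ((-rs7 D s : 𝓞 M) : M) = -(rs7 D s : M) := map_neg _ _
    rw [e1, mul_neg]
  rwa [← e]

/-- [FIN3] **BSD modulo 2, at most one exceptional prime** -/
theorem modTwo_K1 (Ψ : PsiDat D) {d : M} (hd : d ≠ 0) (hN : ∃ s, Nsq D s d) (hsq : ∀ s, ¬ IsSquare (d * (rs7 D s : M))) {E : WeierstrassCurve M}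
    {C C' : WeierstrassCurve.VariableChange M} (hE : E = C • TTS.Ws d) (hE' : E = C' • Wd d) :
    TRB.ModTwo E := by
  by_cases hN2 : ∀ s, Nsq D s d
  · exact modTwo_K hD Ψ hd hN2 hE hE'
  obtain ⟨s, hs⟩ := hN
  have hn : ¬ Nsq D (!s) d := by
    intro h
    apply hN2
    intro b
    cases s <;> cases b <;> assumption
  obtain ⟨T, z, ε, i, j, H, -⟩ := exists_DK hD hd s
  have hTn := f4_ne hD H hd hn (f4_neg hD (hsq (!s)))
  have hfs : TRB.FiniteSha E ↔ GT D s T z ε i j ≠ 0 := by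
    rw [hE, finiteSha_iff' hD hd hsq C]
    constructor
    · exact fun h => (sel_n hD H hs hn (Or.inl hTn)).1 (h s)
    · intro h b
      by_cases hb : b = s
      · rw [hb]
        exact (sel_n hD H hs hn (Or.inl hTn)).2 h
      · have hb' : b = !s := by
          cases s <;> cases b <;> simp_all
        rw [hb']
        exact (sel_m hD H hn hs hTn).2 h
  obtain ⟨Φ, hΦ⟩ := exists_PhiK hD H Ψ
  obtain ⟨Z, hZd, hZ⟩ := exists_ZK hD H hΦ
  obtain ⟨V, hV, hc⟩ := f3_V s
  obtain ⟨κ, hκ⟩ := IsAlgClosed.exists_pow_nat_eq (E4f tau0 ^ Module.finrank ℚ L) (n := 4) (by norm_num)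
  obtain ⟨ζ, h1, h1'⟩ := val_fin hD Ψ H hs (Or.inl hTn) hV hc hκ hΦ hZd hZ
  have hfe := DK.fe hD H hV hc hΦ hZd hZ
  have ha : V.valuation (2 : ℂ) ≠ 0 := by
    rw [Ne, map_eq_zero]
    exact two_ne_zero
  refine f2_core hD H hd hΦ hZd hZ hE hE' (tor_K' hD hd hsq C) hV hfs (W := V.valuation ζ * V.valuation ζ) ?_ ?_ ?_
  · intro hf
    unfold zl at h1
    rw [if_neg hf] at h1
    rw [v5_unit h1, one_mul]
  · intro hf
    rw [not_not] at hf
    unfold zl at h1
    rw [if_pos hf, sub_zero] at h1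
    exact mul_lt_one_of_lt_of_le h1 h1.le
  · intro Q hQ
    have hu1 : (if Rm (cd D s T z ε) i then (if i then Module.finrank ℚ L else 0) else 2) =
        Module.finrank ℚ L * (if i then 1 else 0) + 2 * (if Rm (cd D s T z ε) i then 0 else 1) := by
      by_cases h : Rm (cd D s T z ε) i
      · rw [if_pos h, if_pos h]
        split_ifs <;> ring
      · have h5 : ¬ (i = true) := fun h6 => h (Or.inl h6)
        rw [if_neg h, if_neg h, if_neg h5]
        ring
    have hu2 : (if Rm (ε : 𝓞 L) j then 0 else 2) = 2 * (if Rm (ε : 𝓞 L) j then 0 else 1) := by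
      split_ifs <;> rfl
    have hu3 : (if Rm (cd D s T z ε) i then 0 else 2 * Module.finrank ℚ L) =
        2 * Module.finrank ℚ L * (if Rm (cd D s T z ε) i then 0 else 1) := by
      split_ifs <;> ring
    rw [hu1, hu2, hu3] at h1'
    have hc1 : ∀ (c : 𝓞 L) (i : Bool), ce c i + 2 * (if Rm c i then 0 else 1) = 2 + (if i then 1 else 0) := by
      intro c i
      unfold ce
      by_cases h : Rm c i
      · rw [if_pos h, if_pos h]
        cases i <;> rfl
      · have h5 : ¬ (i = true) := fun h6 => h (Or.inl h6)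
        rw [if_neg h, if_neg h, if_neg h5]
    have hx := f1_val (L := L) hV hκ (Z 1)
    have hr := f2_sqrt (V := V) hV (N := 7 ^ Module.finrank ℚ L * ∏ P ∈ T, absNorm P.asIdeal)
      ((Odd.pow (by decide)).mul (f2_odd_norm hD H)) (M' := NN (L := L) T i j) rfl
    have hfe' : V.valuation (Z 1 * ((√|(discr L : ℝ)| : ℝ) : ℂ) / ((TRS.Om : ℝ) : ℂ) ^ Module.finrank ℚ L) ^ 2 *
          V.valuation 2 ^ (Module.finrank ℚ L * ce (cd D s T z ε) i) =
        V.valuation 2 ^ (Module.finrank ℚ L * ce (ε : 𝓞 L) j) *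
          V.valuation (conj (Z 1) * ((√|(discr L : ℝ)| : ℝ) : ℂ) / ((TRS.Om : ℝ) : ℂ) ^ Module.finrank ℚ L) ^ 2 := by
      rw [mul_div_assoc, mul_div_assoc, map_mul, map_mul, mul_pow, mul_pow, mul_right_comm, hfe, mul_assoc]
    have h7 := f4_key (hc1 _ i) (hc1 _ j) ha hx hfe' hr h1'
    unfold nu2
    rw [← h7]
    congr 2
    rw [← hQ, two_mul, pow_add]
    ring

end

end TRZ
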