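import Pool.Agent.TRZ.A8b
import Pool.Agent.TRZ.F4

/-! # [ALL2-FE, A8] BSD modulo 2 for the twists with a point of order `4` -/

set_option autoImplicit false
set_option linter.unusedSectionVars false

open NumberField Ideal IsDedekindDomain
open scoped Real Classical ComplexConjugate
open TR TRG TRP TTS TU TT CM27 CMT GE

namespace TRZ

section
variable {L M : Type} [Field L] [NumberField L] [Field M] [NumberField M] [Algebra L M]
  [IsTotallyReal L] {D : Dat L M} (hD : Od2 D)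
include hD

/-- the classes on the exceptional side, `T = ∅` -/
theorem a8_selx {s : Bool} {d : M} {T : Finset (HeightOneSpectrum (𝓞 M))} {z : HeightOneSpectrum (𝓞 M) → 𝓞 M}
    {ε : (𝓞 L)ˣ} {i j : Bool} (H : DK D s d T z ε i j) (hT : T = ∅) (hsq : IsSquare (d * (rs7 D s : M))) {x : M} (hx : x ≠ 0)
    (hloc : ∀ P : HeightOneSpectrum (𝓞 M), LocCond (algebraMap M (P.adicCompletion M) d)
      (algebraMap M (P.adicCompletion M) (rs7 D s : M)) (algebraMap M (P.adicCompletion M) x)) :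
    IsSquare x ∨ IsSquare (x * (-(wB (rs7 D s : M)))) := by
  have hd := H.sg_ne
  have hr0 := c2_rs7_ne (D := D) s
  have hU : ∀ P : HeightOneSpectrum (𝓞 M), p2 D s ∈ P.asIdeal → Ur P d := fun P hP =>
    (sg_ur_dr hD hP).1 (x0_sq (mul_ne_zero hd hr0) (hsq.map (algebraMap M (P.adicCompletion M)))).ur
  have hevδ : ∀ P : HeightOneSpectrum (𝓞 M), IsSquare (P.valuation M (d * (rs7 D s : M))) := by
    intro P
    obtain ⟨b, hb⟩ := hsq
    exact ⟨P.valuation M b, by rw [hb, map_mul]⟩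
  obtain ⟨m, U, y, hUT, hy, hxy⟩ := fs_decomp H hD hx
    (fun P h2 _ => se1_val (sg_r2 D s) P h2 hd (hevδ P) (hloc P))
    fun P hP => TRX.c7_ur_wb (sg_r2 D s) P (fs_wb hD hP) (hU P hP) hx (hloc P)
  rw [hT, Finset.subset_empty] at hUT
  rw [hUT] at hxy
  unfold sgx at hxy
  rw [Finset.prod_empty, mul_one] at hxy
  cases m
  · left
    rw [if_neg (by decide)] at hxy
    have e : ((1 : 𝓞 M) : M) = 1 := map_one _
    rw [hxy, e, one_mul]
    exact ⟨y, sq y⟩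
  · right
    rw [if_pos rfl] at hxy
    have e : ((-(p1 D s) : 𝓞 M) : M) = -(p1 D s : M) := map_neg _ _
    rw [hxy, sg_wB, e]
    exact ⟨(p1 D s : M) * y, by ring⟩

/-- the curves with a point of order `4` have a finite group and no element of order `2` in `Sha` -/
theorem a8_sha {s : Bool} {d : M} (hd : d ≠ 0) (hN : Nsq D s d) (hsq : IsSquare (-(d * (rs7 D s : M))))
    (C : WeierstrassCurve.VariableChange M) : TRB.FiniteSha (C • TTS.Ws d) := by
  obtain ⟨T, z, ε, i, j, H, -⟩ := exists_DK hD hd s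
  obtain ⟨T', z', ε', i', j', H', -⟩ := exists_DK hD hd (!s)
  obtain ⟨hT, hR, hj⟩ := f3_triv hD H hd hsq
  obtain ⟨hT', -, -, -, -, -, -⟩ := DK.other hD H H'
  have e : d * (rs7 D (!s) : M) = -(d * (rs7 D s : M)) := by
    rw [c2_rs7_not]
    have e1 : ((-rs7 D s : 𝓞 M) : M) = -(rs7 D s : M) := map_neg _ _
    rw [e1, mul_neg]
  have e' : -(rs7 D (!s) : M) = (rs7 D s : M) := by
    rw [c2_rs7_not]
    have e1 : ((-rs7 D s : 𝓞 M) : M) = -(rs7 D s : M) := map_neg _ _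
    rw [e1, neg_neg]
  obtain ⟨b, hb⟩ := hsq
  refine a8_finiteSha (sg_r2 D (!s)) hd (b := b) (by rw [e, hb, sq]) (fun x hx hloc => ?_) ?_ C
  · exact a8_selx hD H' (hT'.trans hT) (by rw [e]; exact ⟨b, hb⟩) hx hloc
  · rw [e', H.sel_core hD hN]
    intro w _ _ P hP
    rw [hT] at hP
    exact absurd hP (Finset.notMem_empty P)

/-- the torsion -/
theorem a8_torsion {s : Bool} {d : M} (hd : d ≠ 0) (hN : Nsq D s d) (hsq : IsSquare (-(d * (rs7 D s : M))))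
    (C : WeierstrassCurve.VariableChange M) :
    ∃ m : ℕ, (m = 0 ∨ Odd m) ∧ Nat.card (AddCommGroup.torsion (C • Ws d).toAffine.Point) = 8 * m := by
  have e : d * (rs7 D (!s) : M) = -(d * (rs7 D s : M)) := by
    rw [c2_rs7_not]
    have e1 : ((-rs7 D s : 𝓞 M) : M) = -(rs7 D s : M) := map_neg _ _
    rw [e1, mul_neg]
  obtain ⟨b, hb⟩ := hsq
  refine a8_tor hd (sg_r2 D (!s)) (b := b) (by rw [e, hb, sq]) ?_ ?_ C
  · rintro ⟨c, hc⟩
    apply f3_not_sq hD hN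
    refine ⟨b * c, ?_⟩
    linear_combination -hb + b ^ 2 * hc
  · rintro ⟨c, hc⟩
    obtain ⟨P, hP⟩ := f3_P hD s
    have h1 := c1_val hD hP
    have h2 : IsSquare (P.valuation M ((p2 D s : 𝓞 M) : M)) := by
      rw [sg_wB] at hc
      have h3 : ((p1 D (!s) : 𝓞 M) : M) = ((p2 D s : 𝓞 M) : M) := rfl
      rw [h3] at hc
      exact ⟨P.valuation M c, by rw [← map_mul, ← hc, Valuation.map_neg]⟩
    rw [h1] at h2
    exact TRX2.hr_par_exp h2

/-- the anchor: the exact valuation -/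
theorem a8_anchor (Ψ : PsiDat D) {s : Bool} {d : M} {T : Finset (HeightOneSpectrum (𝓞 M))} {z : HeightOneSpectrum (𝓞 M) → 𝓞 M}
    {ε : (𝓞 L)ˣ} {i j : Bool} (H : DK D s d T z ε i j) (hN : Nsq D s d)
    (hT : T = ∅) (hR : ¬ Rm (cd D s T z ε) i) (hj : j = false) (hRε : Rm (ε : 𝓞 L) j)
    {V : ValuationSubring ℂ} (hV : V.valuation 2 < 1) (hs : V.valuation (c1 s) < 1)
    {κ : ℂ} (hκ : κ ^ 4 = E4f tau0 ^ Module.finrank ℚ L)
    {Φ : Ideal (𝓞 M) →*₀ ℂ} (hΦ : PhiK D s T (kp (cd D s T z ε) i) (kp (ε : 𝓞 L) j) Φ)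
    {Z : ℂ → ℂ} (hZd : Differentiable ℂ Z)
    (hZ : ∀ t : ℂ, 3 / 2 < t.re → Z t = ∑' I : Ideal (𝓞 M), conj (Φ I) * (absNorm I : ℂ) ^ (-t)) :
    V.valuation (Z 1 / (KL L * κ)) * V.valuation 2 ^ 2 = V.valuation 2 ^ Module.finrank ℚ L := by
  obtain ⟨P0⟩ := exists_psiZ hD Ψ s
  have hX : ∀ P ∈ T, LamE D s P ((fun _ => 1 : HeightOneSpectrum (𝓞 M) → (Ideal (𝓞 M) →*₀ ℤ)) P) := by
    intro P hP
    rw [hT] at hP
    exact absurd hP (Finset.notMem_empty P)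
  obtain ⟨Y, hY⟩ := exists_lamT hD s j
  have hY' : LamF D s (FK D s (kp (cd D s T z ε) i) j) Y := by
    rw [kp_one hD hR]
    exact hY
  obtain ⟨Zd, hZd'⟩ := exists_ZY hD P0 H.two hX (Or.inr rfl) hY T
  have h1 := h4_dep hD H hN P0 hX hY' hZd' hΦ hZd hZ
  rw [if_pos hRε, one_mul] at h1
  have hZE : ZE P0 (fun _ => 1) ∅ ∅ Zd := by
    refine ⟨hZd'.diff, fun t ht => ?_⟩
    rw [hZd'.eq t ht, hT]
    refine tsum_congr fun I => ?_
    by_cases hI : I ≤ span {p2 D s}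
    · simp only [(P0.zero_iff I).2 hI, map_zero, zero_mul]
    · obtain ⟨x, hx, -, hYI⟩ := hY.pow I hI
      have h1 : Y I = 1 := by
        rw [hYI, hj]
        show (1 : ℤ) * (if false = true then _ else 1) = 1
        rw [if_neg Bool.false_ne_true, mul_one]
      rw [h1, mul_one]
  have h2 := v5_unit (anchor hD Ψ P0 hV hs hκ hZE)
  rw [h1] at h2
  have e : (4 : ℂ) * Z 1 / (2 ^ Module.finrank ℚ L * (KL L * κ)) * 2 ^ Module.finrank ℚ L = Z 1 / (KL L * κ) * 2 ^ 2 := by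
    have h3 : (2 : ℂ) ^ Module.finrank ℚ L ≠ 0 := pow_ne_zero _ two_ne_zero
    rw [mul_comm ((2 : ℂ) ^ Module.finrank ℚ L) (KL L * κ), ← div_div, div_mul_cancel₀ _ h3]
    ring
  rw [← map_pow, ← map_mul, ← e, map_mul, h2, one_mul, map_pow]

/-- [A8] **BSD modulo 2 for the curves with a point of order `4`** -/
theorem modTwo_K8 (Ψ : PsiDat D) {s : Bool} {d : M} (hd : d ≠ 0) (hN : Nsq D s d) (hsq : IsSquare (-(d * (rs7 D s : M))))
    {E : WeierstrassCurve M} {C C' : WeierstrassCurve.VariableChange M} (hE : E = C • TTS.Ws d) (hE' : E = C' • Wd d) :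
    TRB.ModTwo E := by
  refine ⟨TRB.m1_ell hd hE, ?_⟩
  have hfs : TRB.FiniteSha E := by
    rw [hE]
    exact a8_sha hD hd hN hsq C
  obtain ⟨T, z, ε, i, j, H, -⟩ := exists_DK hD hd s
  obtain ⟨hT, hR, hj⟩ := f3_triv hD H hd hsq
  have hi : i = false := by
    by_contra h
    exact hR (Or.inl (by simpa using h))
  have hRε : Rm (ε : 𝓞 L) j := by
    by_contra h
    have h1 := (DK.nsq hD H h).2.1 hN
    rw [hT, hi, if_neg Bool.false_ne_true, Finset.sum_empty, add_zero] at h1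
    exact zero_ne_one h1
  obtain ⟨Φ, hΦ⟩ := exists_PhiK hD H Ψ
  obtain ⟨Z, hZd, hZ⟩ := exists_ZK hD H hΦ
  obtain ⟨V, hV, hc⟩ := f3_V s
  obtain ⟨κ, hκ⟩ := IsAlgClosed.exists_pow_nat_eq (E4f tau0 ^ Module.finrank ℚ L) (n := 4) (by norm_num)
  have hanc := a8_anchor hD Ψ H hN hT hR hj hRε hV hc hκ hΦ hZd hZ
  have hfe := DK.fe hD H hV hc hΦ hZd hZ
  have hce : ce (cd D s T z ε) i = 0 := by
    unfold ce
    rw [if_neg hR]
  have hce' : ce (ε : 𝓞 L) j = 2 := by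
    unfold ce
    rw [if_pos hRε, hj]
    rfl
  rw [hce, hce', mul_zero, pow_zero, mul_one] at hfe
  have hnr : nr (cd D s T z ε) (ε : 𝓞 L) i j = 1 := by
    unfold nr
    rw [if_neg hR, if_pos hRε]
  have hser := series_K hD H hΦ hZd hZ C'
  rw [← hE'] at hser
  obtain ⟨Q0, hQ0⟩ := rational_K hD H hΦ hZd hZ
  have hx := f1_val (L := L) hV hκ (Z 1)
  have hsqrt := f2_sqrt (V := V) hV (N := 7 ^ Module.finrank ℚ L * ∏ P ∈ T, absNorm P.asIdeal)
      ((Odd.pow (by decide)).mul (f2_odd_norm hD H)) (M' := NN (L := L) T i j) rfl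
  have e0 : Module.finrank ℚ L * ((if i then 1 else 0) + (if j then 1 else 0)) = 0 := by
    rw [hi, hj, if_neg Bool.false_ne_true, add_zero, mul_zero]
  rw [e0, pow_zero] at hsqrt
  obtain ⟨g, hg⟩ : ∃ g, g = Module.finrank ℚ L := ⟨_, rfl⟩
  obtain ⟨N, hN'⟩ : ∃ N : ℕ, N = NN (L := L) T i j := ⟨_, rfl⟩
  have hN0 : N ≠ 0 := by
    rw [hN']
    exact H.NN_pos.ne'
  obtain ⟨qP, hqP, hqP2, hper⟩ := period_K hD H C
  obtain ⟨m, hm, hcard⟩ := a8_torsion hD hd hN hsq C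
  have htam := tam_K hD H C
  rw [← hE] at hper hcard htam
  rw [hnr, hT, Finset.card_empty, zero_add, pow_one] at htam
  rw [hnr] at hqP2
  rw [← hN'] at hper hQ0 hsqrt
  rw [← hg] at hanc hfe hQ0 hx hqP2 hper
  have ha : V.valuation (2 : ℂ) ≠ 0 := by
    rw [Ne, map_eq_zero]
    exact two_ne_zero
  have hr1 : V.valuation ((√(N : ℝ) : ℝ) : ℂ) = 1 := (pow_eq_one_iff_of_nonneg zero_le two_ne_zero).1 hsqrt
  -- the valuation of the rational number
  have hvQ : V.valuation (Q0 : ℂ) * V.valuation 2 ^ (g + 4) = 1 := by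
    have e1 : (Q0 : ℂ) = (Z 1 * ((√|(discr L : ℝ)| : ℝ) : ℂ) / ((TRS.Om : ℝ) : ℂ) ^ g) *
        (conj (Z 1) * ((√|(discr L : ℝ)| : ℝ) : ℂ) / ((TRS.Om : ℝ) : ℂ) ^ g) * ((√(N : ℝ) : ℝ) : ℂ) := by
      rw [← hQ0, two_mul, pow_add]
      ring
    have hfe' : V.valuation (Z 1 * ((√|(discr L : ℝ)| : ℝ) : ℂ) / ((TRS.Om : ℝ) : ℂ) ^ g) ^ 2 =
        V.valuation 2 ^ (g * 2) * V.valuation (conj (Z 1) * ((√|(discr L : ℝ)| : ℝ) : ℂ) / ((TRS.Om : ℝ) : ℂ) ^ g) ^ 2 := by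
      rw [mul_div_assoc, mul_div_assoc, map_mul, map_mul, mul_pow, mul_pow, hfe, mul_assoc]
    rw [e1, map_mul, map_mul, hr1, mul_one]
    rw [← hx] at hanc
    generalize V.valuation (Z 1 * ((√|(discr L : ℝ)| : ℝ) : ℂ) / ((TRS.Om : ℝ) : ℂ) ^ g) = X at *
    generalize V.valuation (conj (Z 1) * ((√|(discr L : ℝ)| : ℝ) : ℂ) / ((TRS.Om : ℝ) : ℂ) ^ g) = Y at *
    generalize V.valuation (2 : ℂ) = B at *
    have hX : X * B ^ 2 = 1 := by
      have hB : B ^ g ≠ 0 := pow_ne_zero _ ha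
      apply mul_right_cancel₀ hB
      rw [one_mul, mul_right_comm]
      exact hanc
    have hXY : X = B ^ g * Y := by
      rw [← pow_left_inj₀ zero_le zero_le two_ne_zero, mul_pow, ← pow_mul]
      exact hfe'
    calc X * Y * B ^ (g + 4) = X * B ^ 2 * (B ^ g * Y * B ^ 2) := by
          rw [pow_add, show (4 : ℕ) = 2 + 2 from rfl, pow_add B 2 2]
          ac_rfl
      _ = 1 := by rw [← hXY, hX, one_mul]
  have hQ00 : Q0 ≠ 0 := by
    rintro rfl
    rw [Rat.cast_zero, map_zero, zero_mul] at hvQ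
    exact zero_ne_one hvQ
  have hvQ' : padicValRat 2 Q0 = -((g : ℤ) + 4) := by
    rw [z2_val hV hQ00, ← zpow_natCast, ← zpow_add₀ ha, ← zpow_zero (V.valuation (2 : ℂ))] at hvQ
    have h5 := (zpow_right_strictAnti₀ (zero_lt_iff.2 ha) hV).injective hvQ
    push_cast at h5
    linarith
  -- the quotient
  have hqP0 : qP ≠ 0 := hqP.ne'
  have hsN0 : √(N : ℝ) ≠ 0 := (Real.sqrt_pos.2 (by exact_mod_cast Nat.pos_of_ne_zero hN0)).ne'
  have hquot : SBSD2.bsdQuotient E (Z 1 * conj (Z (conj 1))) =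
      ((Q0 * (8 * (m : ℚ)) ^ 2 / (qP * 4) : ℚ) : ℂ) := by
    have hper' : SBSD.period E = (qP : ℝ) * √7 ^ g * TRS.Om ^ (2 * g) / √(N : ℝ) := by
      rw [← hper, mul_div_cancel_right₀ _ hsN0]
    have hdiscr := TRB.f6_discr (TRB.ofTR D)
    rw [← hg] at hdiscr
    have hOm : ((TRS.Om : ℝ) : ℂ) ^ g ≠ 0 := by
      apply pow_ne_zero
      exact_mod_cast TRS.Om_pos.ne'
    have h7 : ((√7 : ℝ) : ℂ) ^ g ≠ 0 := by
      apply pow_ne_zero
      rw [Complex.ofReal_ne_zero]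
      exact (Real.sqrt_pos.2 (by norm_num)).ne'
    have hsNC : ((√(N : ℝ) : ℝ) : ℂ) ≠ 0 := by rw [Complex.ofReal_ne_zero]; exact hsN0
    have hqPC : (qP : ℂ) ≠ 0 := by exact_mod_cast hqP0
    have hQ : Z 1 * conj (Z 1) * ((√|(discr L : ℝ)| : ℝ) : ℂ) ^ 2 * ((√(N : ℝ) : ℝ) : ℂ) =
        (Q0 : ℂ) * (((TRS.Om : ℝ) : ℂ) ^ g) ^ 2 := by
      rw [← hQ0, ← pow_mul, mul_comm g 2, div_mul_cancel₀]
      rw [mul_comm 2 g, pow_mul]
      exact pow_ne_zero _ hOm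
    unfold SBSD2.bsdQuotient
    rw [hcard, htam, hper', hdiscr, map_one]
    push_cast
    rw [mul_comm 2 g, pow_mul]
    generalize ((TRS.Om : ℝ) : ℂ) ^ g = A at hQ hOm ⊢
    generalize ((√|(discr L : ℝ)| : ℝ) : ℂ) = Y at hQ ⊢
    generalize ((√7 : ℝ) : ℂ) ^ g = B at h7 ⊢
    generalize ((√(N : ℝ) : ℝ) : ℂ) = W at hQ hsNC ⊢
    field_simp
    linear_combination (m : ℂ) ^ 2 * hQ
  have : Fact (Nat.Prime 2) := ⟨Nat.prime_two⟩
  have h4v : padicValRat 2 (4 : ℚ) = 2 := by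
    rw [show (4 : ℚ) = 2 ^ 2 by norm_num, padicValRat.pow, q1_v2]
    norm_num
  have h8v : padicValRat 2 (8 : ℚ) = 3 := by
    rw [show (8 : ℚ) = 2 ^ 3 by norm_num, padicValRat.pow, q1_v2]
    norm_num
  have hfin : Finite E.toAffine.Point := hfs.1
  have hmne : m ≠ 0 := by
    intro h2
    rw [h2, mul_zero] at hcard
    exact TRB.f6_torsion hcard
  have hm0 : (m : ℚ) ≠ 0 := by exact_mod_cast hmne
  have hmv : padicValRat 2 (m : ℚ) = 0 := q1_odd (hm.resolve_left hmne)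
  have h8Q : (8 : ℚ) ≠ 0 := by norm_num
  have h0 : Q0 * (8 * (m : ℚ)) ^ 2 / (qP * 4) ≠ 0 :=
    div_ne_zero (mul_ne_zero hQ00 (pow_ne_zero _ (mul_ne_zero h8Q hm0))) (mul_ne_zero hqP0 four_ne_zero)
  have hval : padicValRat 2 (Q0 * (8 * (m : ℚ)) ^ 2 / (qP * 4)) = 0 := by
    rw [padicValRat.div (mul_ne_zero hQ00 (pow_ne_zero _ (mul_ne_zero h8Q hm0)))
      (mul_ne_zero hqP0 four_ne_zero), padicValRat.mul hQ00
      (pow_ne_zero _ (mul_ne_zero h8Q hm0)), padicValRat.pow, padicValRat.mul h8Q hm0,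
      padicValRat.mul hqP0 four_ne_zero, h4v, h8v, hmv, hqP2, hvQ']
    push_cast
    ring
  exact ⟨_, hser, _, hquot, by rw [hval], ⟨fun _ => hfs, fun _ => ⟨h0, hval⟩⟩⟩

/-- **BSD modulo 2 for all twists with at most one exceptional prime above `2`** (`modTwo_K1` without the condition on the torsion) -/
theorem modTwo_one (Ψ : PsiDat D) {d : M} (hd : d ≠ 0) (hN : ∃ s, Nsq D s d) {E : WeierstrassCurve M}
    {C C' : WeierstrassCurve.VariableChange M} (hE : E = C • TTS.Ws d) (hE' : E = C' • Wd d) : TRB.ModTwo E := by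
  by_cases hsq : ∀ s, ¬ IsSquare (d * (rs7 D s : M))
  · exact modTwo_K1 hD Ψ hd hN hsq hE hE'
  · push Not at hsq
    obtain ⟨t, ht⟩ := hsq
    obtain ⟨s, hs⟩ := hN
    have hst : s ≠ t := by
      rintro rfl
      exact f3_not_sq hD hs ht
    have ht' : t = !s := by
      cases s <;> cases t <;> simp_all
    subst ht'
    refine modTwo_K8 hD Ψ hd hs ?_ hE hE'
    have e : d * (rs7 D (!s) : M) = -(d * (rs7 D s : M)) := by
      rw [c2_rs7_not]
      have e1 : ((-rs7 D s : 𝓞 M) : M) = -(rs7 D s : M) := map_neg _ _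
      rw [e1, mul_neg]
    rwa [← e]

end

end TRZ
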