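import Pool.Agent.TRZ.Defs2
import Pool.Agent.TRZ.X1
import Pool.Agent.TRX2.CV8

/-! # [ALL2-C] the type of the twist at the primes above `2` -/

set_option autoImplicit false
set_option linter.unusedSectionVars false

open NumberField Ideal IsDedekindDomain
open scoped Real Classical ComplexConjugate
open TR TRG TRP TTS TU TT

namespace TRZ

section
variable {L : Type} [Field L] [NumberField L]

theorem q4_per {x y : 𝓞 L} (h : x - y ∈ span {(8 : 𝓞 L)}) (hx : Q4 x) : Q4 y := by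
  obtain ⟨z, hz⟩ := Ideal.mem_span_singleton'.1 h
  obtain ⟨a, c, ha, hc⟩ := hx
  exact ⟨a, c - 2 * z, ha, by linear_combination hc + hz⟩

theorem q4_per_iff {x y : 𝓞 L} (h : x - y ∈ span {(8 : 𝓞 L)}) : Q4 x ↔ Q4 y := by
  refine ⟨q4_per h, q4_per ?_⟩
  have := neg_mem h
  rwa [neg_sub] at this

theorem q4_mul {x y : 𝓞 L} (hx : Q4 x) (hy : Q4 y) : Q4 (x * y) := by
  obtain ⟨a, c, ha, rfl⟩ := hx
  obtain ⟨a', c', ha', rfl⟩ := hy
  exact ⟨a * a', a ^ 2 * c' + a' ^ 2 * c + 4 * c * c', ha.mul_left ha', by ring⟩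

theorem q4_div {x y : 𝓞 L} (hy : Q4 y) (h : Q4 (x * y)) : Q4 x := by
  obtain ⟨a, c, ha, hxy⟩ := h
  obtain ⟨a', c', ha', rfl⟩ := hy
  obtain ⟨u, v, huv⟩ := ha'
  -- `u a' = 1 - 2 v`
  have h4 : ∃ w : 𝓞 L, (u * a') ^ 2 = 1 + 4 * w := ⟨v ^ 2 - v, by
    have e : u * a' = 1 - v * 2 := by linear_combination huv
    rw [e]
    ring⟩
  obtain ⟨w, hw⟩ := h4
  refine ⟨u * a, u ^ 2 * c - u ^ 2 * c' * x - w * x, ?_, ?_⟩
  · apply IsCoprime.mul_left _ ha
    exact ⟨a', v, by linear_combination huv⟩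
  · linear_combination u ^ 2 * hxy - x * hw

theorem q4_mul_iff {x y : 𝓞 L} (hy : Q4 y) : Q4 (x * y) ↔ Q4 x := ⟨q4_div hy, fun h => q4_mul h hy⟩

theorem q4_five : Q4 (5 : 𝓞 L) := ⟨1, 1, isCoprime_one_left, by norm_num⟩

theorem q4_one : Q4 (1 : 𝓞 L) := ⟨1, 0, isCoprime_one_left, by norm_num⟩

end

section
variable {L M : Type} [Field L] [NumberField L] [Field M] [NumberField M] [Algebra L M]
  [IsTotallyReal L] {D : Dat L M} (hD : Od2 D)
include hD

omit hD in
theorem c1_sq (s : Bool) : p2 D s ^ 2 = p2 D s - 2 := by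
  have h1 := x_mul D s
  have h2 := x_add D s
  linear_combination p2 D s * h2 - h1

theorem c1_p1 (s : Bool) : rd8 D s (-(p1 D s)) - 5 ∈ span {(8 : 𝓞 L)} := by
  apply rd8_uniq hD s
  refine Ideal.mem_span_singleton'.2 ⟨-(p2 D s) ^ 2, ?_⟩
  have h1 := c1_sq (D := D) s
  have h2 := x_add D s
  rw [map_ofNat]
  have h3 : p2 D s ^ 3 = - p2 D s - 2 := by linear_combination (p2 D s + 1) * h1
  linear_combination (-(p2 D s) ^ 2 + 1) * h3 + 2 * h1 + h2

theorem c1_rs7 (s : Bool) : rd8 D s (rs7 D s) - 5 ∈ span {(8 : 𝓞 L)} := by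
  apply rd8_uniq hD s
  refine Ideal.mem_span_singleton'.2 ⟨2, ?_⟩
  have h1 := c1_sq (D := D) s
  have h2 := x_add D s
  rw [map_ofNat]
  have h3 : p2 D s ^ 3 = - p2 D s - 2 := by linear_combination (p2 D s + 1) * h1
  unfold rs7
  linear_combination 2 * h3 - h2

theorem c1_ideal {s : Bool} {P : HeightOneSpectrum (𝓞 M)} (hP : p2 D s ∈ P.asIdeal) : P.asIdeal = span {p2 D s} := by
  have h1 : span {p2 D s} ≤ P.asIdeal := (Ideal.span_singleton_le_iff_mem _).2 hP
  have h2 : span {p2 D s} ≠ ⊥ := by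
    rw [Ne, Ideal.span_singleton_eq_bot]
    exact x1_p2_ne s
  have h3 := (x_prime hD s).isMaximal h2
  exact (h3.eq_of_le P.isPrime.ne_top h1).symm

omit hD in
theorem c1_mem_two {s : Bool} {P : HeightOneSpectrum (𝓞 M)} (hP : p2 D s ∈ P.asIdeal) : (2 : 𝓞 M) ∈ P.asIdeal := by
  rw [← x_mul D s]
  exact Ideal.mul_mem_left _ _ hP

omit hD in
theorem c1_p1_not {s : Bool} {P : HeightOneSpectrum (𝓞 M)} (hP : p2 D s ∈ P.asIdeal) : p1 D s ∉ P.asIdeal := by
  intro h
  apply P.isPrime.ne_top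
  rw [Ideal.eq_top_iff_one, ← x_add D s]
  exact add_mem h hP

theorem c1_p2_not {s : Bool} {P : HeightOneSpectrum (𝓞 M)} (hP : p2 D s ∈ P.asIdeal) : p2 D s ∉ P.asIdeal ^ 2 := by
  rw [c1_ideal hD hP, Ideal.span_singleton_pow]
  intro h
  obtain ⟨c, hc⟩ := Ideal.mem_span_singleton'.1 h
  have h0 : p2 D s ≠ 0 := x1_p2_ne s
  have h1 : c * p2 D s = 1 := mul_right_cancel₀ h0 (by linear_combination hc)
  apply P.isPrime.ne_top
  rw [Ideal.eq_top_iff_one, ← h1]
  exact Ideal.mul_mem_left _ _ hP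

theorem c1_val {s : Bool} {P : HeightOneSpectrum (𝓞 M)} (hP : p2 D s ∈ P.asIdeal) :
    P.valuation M ((p2 D s : 𝓞 M) : M) = WithZero.exp (-1 : ℤ) :=
  (TU.g1_val_exp P).2 ⟨hP, c1_p2_not hD hP⟩

omit hD in
theorem c1_val1 {s : Bool} {P : HeightOneSpectrum (𝓞 M)} (hP : p2 D s ∈ P.asIdeal) :
    P.valuation M ((p1 D s : 𝓞 M) : M) = 1 := (TU.g1_val_one P).2 (c1_p1_not hP)

theorem c1_val2 {s : Bool} {P : HeightOneSpectrum (𝓞 M)} (hP : p2 D s ∈ P.asIdeal) :
    P.valuation M (2 : M) = WithZero.exp (-1 : ℤ) := by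
  have h := congrArg (algebraMap (𝓞 M) M) (x_mul D s)
  rw [map_mul, map_ofNat] at h
  rw [← h, map_mul]
  change P.valuation M ((p1 D s : 𝓞 M) : M) * P.valuation M ((p2 D s : 𝓞 M) : M) = _
  rw [c1_val1 hP, c1_val hD hP, one_mul]

theorem c1_two_not {s : Bool} {P : HeightOneSpectrum (𝓞 M)} (hP : p2 D s ∈ P.asIdeal) : (2 : 𝓞 M) ∉ P.asIdeal ^ 2 := by
  have h : P.valuation M (algebraMap (𝓞 M) M 2) = WithZero.exp (-1 : ℤ) := by
    rw [map_ofNat]
    exact c1_val2 hD hP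
  exact ((TU.g1_val_exp P).1 h).2

/-- a prime above `2` contains `ϖ` or `ϖ'` -/
theorem c1_or (s : Bool) {P : HeightOneSpectrum (𝓞 M)} (hP : (2 : 𝓞 M) ∈ P.asIdeal) :
    p2 D s ∈ P.asIdeal ∨ p2 D (!s) ∈ P.asIdeal := by
  rw [← x_mul D s] at hP
  rcases P.isPrime.mem_or_mem hP with h | h
  · right
    have : p2 D (!s) = p1 D s := by
      unfold p2
      rw [Bool.not_not]
    rw [this]
    exact h
  · exact Or.inl h

/-- the type at `ϖ'` of an element which is odd there -/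
theorem ur_iff_q4 {s : Bool} {P : HeightOneSpectrum (𝓞 M)} (hP : p2 D s ∈ P.asIdeal) {x : 𝓞 M} (hx : x ∉ P.asIdeal) :
    Ur P (x : M) ↔ Q4 (rd8 D s x) := by
  have hPI := c1_ideal hD hP
  have hv2 := c1_val2 hD hP
  have hv4 : P.valuation M (4 : M) = WithZero.exp (-2 : ℤ) := by
    have e : (4 : M) = 2 * 2 := by norm_num
    rw [e, map_mul, hv2, ← WithZero.exp_add]
    norm_num
  have hvx : P.valuation M (x : M) = 1 := (TU.g1_val_one P).2 hx
  constructor
  · rintro ⟨y, t, c, hy, hxy, hu⟩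
    have hvu : P.valuation M ((t ^ 2 + 4 * c : 𝓞 M) : M) = 1 := (TU.g1_val_one P).2 hu
    have hvy : P.valuation M y = 1 := by
      have h1 := congrArg (P.valuation M) hxy
      rw [hvx, map_mul, map_pow, hvu, mul_one] at h1
      exact (pow_eq_one_iff_of_nonneg zero_le two_ne_zero).1 h1.symm
    have hyt : P.valuation M (y * (t : M)) ≤ 1 := by
      rw [map_mul, hvy, one_mul]
      exact P.valuation_le_one t
    obtain ⟨a, ha⟩ := P.exists_valuation_sub_lt_of_integer hyt (Units.mk0 (WithZero.exp (-1 : ℤ)) WithZero.exp_ne_zero)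
    rw [Units.val_mk0] at ha
    have ha2 : P.valuation M ((a : M) - y * (t : M)) ≤ WithZero.exp (-2 : ℤ) := by
      by_cases h0 : (a : M) - y * (t : M) = 0
      · rw [h0, map_zero]
        exact zero_le
      · obtain ⟨n, hn⟩ := TRX2.vexp (P.valuation M) h0
        rw [hn, WithZero.exp_lt_exp] at ha
        rw [hn, WithZero.exp_le_exp]
        omega
    have hxa : P.valuation M (((x - a ^ 2 : 𝓞 M)) : M) ≤ WithZero.exp (-2 : ℤ) := by
      have e : (((x - a ^ 2 : 𝓞 M)) : M) = 4 * (c : M) * y ^ 2 - ((a : M) - y * t) * ((a : M) + y * t) := by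
        have h1 : (((x - a ^ 2 : 𝓞 M)) : M) = (x : M) - (a : M) ^ 2 := by
          rw [← map_pow]
          exact map_sub _ _ _
        have h2 : ((t ^ 2 + 4 * c : 𝓞 M) : M) = (t : M) ^ 2 + 4 * (c : M) := p5_coe t c
        rw [h1, hxy, h2]
        ring
      rw [e]
      refine TRX2.vsub ?_ ?_
      · rw [map_mul, map_mul, hv4, map_pow, hvy, one_pow, mul_one]
        calc WithZero.exp (-2 : ℤ) * P.valuation M (c : M) ≤ WithZero.exp (-2 : ℤ) * 1 :=
              mul_le_mul' le_rfl (P.valuation_le_one c)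
          _ = _ := mul_one _
      · rw [map_mul]
        calc P.valuation M ((a : M) - y * t) * P.valuation M ((a : M) + y * t) ≤ WithZero.exp (-2 : ℤ) * 1 :=
              mul_le_mul' ha2 (((P.valuation M).map_add _ _).trans (max_le (P.valuation_le_one a) hyt))
          _ = _ := mul_one _
    have hmem : x - a ^ 2 ∈ P.asIdeal ^ 2 := by
      have h1 : P.valuation M (algebraMap (𝓞 M) M (x - a ^ 2)) ≤ WithZero.exp (-((2 : ℕ) : ℤ)) := hxa
      rwa [P.valuation_of_algebraMap, P.intValuation_le_pow_iff_mem] at h1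
    rw [hPI, Ideal.span_singleton_pow] at hmem
    have h3 : algebraMap (𝓞 L) (𝓞 M) (rd8 D s x - rd8 D s a ^ 2) ∈ span {p2 D s ^ 2} := by
      have hle : span {p2 D s ^ 3} ≤ span {p2 D s ^ 2} :=
        Ideal.span_singleton_le_span_singleton.2 (pow_dvd_pow _ (by norm_num))
      have e : algebraMap (𝓞 L) (𝓞 M) (rd8 D s x - rd8 D s a ^ 2) = (x - a ^ 2) -
          (x - algebraMap (𝓞 L) (𝓞 M) (rd8 D s x)) +
          (a - algebraMap (𝓞 L) (𝓞 M) (rd8 D s a)) * (a + algebraMap (𝓞 L) (𝓞 M) (rd8 D s a)) := by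
        rw [map_sub, map_pow]
        ring
      rw [e]
      exact add_mem (sub_mem hmem (hle (rd8_cong hD s x))) (Ideal.mul_mem_right _ _ (hle (rd8_cong hD s a)))
    obtain ⟨c', hc'⟩ := x1_four s h3
    refine ⟨rd8 D s a, c', ?_, by linear_combination hc'⟩
    -- `a` is odd
    have ha0 : a ∉ P.asIdeal := by
      intro h
      apply hx
      have h1 : x - a ^ 2 ∈ P.asIdeal := by
        rw [hPI]
        exact (Ideal.span_singleton_le_span_singleton.2 (dvd_pow_self _ two_ne_zero)) hmem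
      have h2 : x = (x - a ^ 2) + a * a := by ring
      rw [h2]
      exact add_mem h1 (Ideal.mul_mem_left _ _ h)
    have h4 : rd8 D s a ∉ span {(2 : 𝓞 L)} := by
      rw [rd8_even hD, ← hPI]
      exact ha0
    have h2ne : span {(2 : 𝓞 L)} ≠ ⊥ := by
      rw [Ne, Ideal.span_singleton_eq_bot]
      exact two_ne_zero
    obtain ⟨u, i, hi, hu⟩ := (hD.two.isMaximal h2ne).exists_inv h4
    obtain ⟨w, hw⟩ := Ideal.mem_span_singleton'.1 hi
    exact ⟨u, w, by rw [hw]; exact hu⟩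
  · rintro ⟨a, c, ha, hac⟩
    obtain ⟨e, he⟩ := Ideal.mem_span_singleton'.1 (rd8_cong hD s x)
    rw [hac] at he
    set A : 𝓞 M := algebraMap (𝓞 L) (𝓞 M) a
    set C : 𝓞 M := algebraMap (𝓞 L) (𝓞 M) c
    have hx1 : (x : M) = (A : M) ^ 2 + 4 * ((C : M) + (e : M) * ((p2 D s : 𝓞 M) : M) ^ 3 / 4) := by
      have h1 : x = A ^ 2 + 4 * C + e * p2 D s ^ 3 := by
        rw [map_add, map_pow, map_mul, map_ofNat] at he
        linear_combination -he
      have h2 := congrArg (algebraMap (𝓞 M) M) h1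
      rw [map_add, map_add, map_mul, map_mul, map_pow, map_pow, map_ofNat] at h2
      exact h2.trans (by ring)
    have h6 := TU.ur_of_val P (x := 1) (t := (A : M)) (c := (C : M) + (e : M) * ((p2 D s : 𝓞 M) : M) ^ 3 / 4) one_ne_zero
      (P.valuation_le_one A) (by
        refine ((P.valuation M).map_add _ _).trans (max_le (P.valuation_le_one C) ?_)
        rw [map_div₀, map_mul, map_pow, c1_val hD hP, hv4, ← WithZero.exp_nsmul]
        rw [mul_div_assoc, ← WithZero.exp_sub]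
        calc P.valuation M (e : M) * WithZero.exp (3 • (-1 : ℤ) - -2) ≤ 1 * 1 := by
              refine mul_le_mul' (P.valuation_le_one e) ?_
              rw [← WithZero.exp_zero, WithZero.exp_le_exp]
              norm_num
          _ = 1 := one_mul 1) (by rw [← hx1]; exact hvx)
    rw [← hx1, one_pow, one_mul] at h6
    exact h6

end

end TRZ
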