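import Pool.Agent.TRZ.C1
import Pool.Agent.TRP.SE4

/-! # [ALL2-C] the decomposition `d √-7 = ε (-ϖ)^i (-ϖ')^j ∏ z_P` and the types at all primes -/

set_option autoImplicit false
set_option linter.unusedSectionVars false

open NumberField Ideal IsDedekindDomain
open scoped Real Classical ComplexConjugate
open TR TRG TRP TTS TU TT

namespace TRZ

section
variable {L M : Type} [Field L] [NumberField L] [Field M] [NumberField M] [Algebra L M]
  [IsTotallyReal L] {D : Dat L M}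

theorem c2_rs7_coe (s : Bool) : (rs7 D s : M) = if s then D.r else -D.r := by
  have h : ((rs7 D s : 𝓞 M) : M) = ((p1 D s : 𝓞 M) : M) - ((p1 D (!s) : 𝓞 M) : M) := map_sub _ _ _
  rw [h, se4_p1, se4_p1]
  cases s
  · simp only [Bool.not_false, if_true, Bool.false_eq_true, if_false]
    unfold wB wbB
    ring
  · simp only [Bool.not_true, if_true, Bool.false_eq_true, if_false]
    unfold wB wbB
    ring

theorem c2_rs7_not (s : Bool) : rs7 D (!s) = -rs7 D s := by
  unfold rs7 p2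
  rw [Bool.not_not]
  ring

theorem c2_p2_not (s : Bool) : p2 D (!s) = p1 D s := by
  unfold p2
  rw [Bool.not_not]

theorem c2_rs7_ne (s : Bool) : (rs7 D s : M) ≠ 0 := by
  have h1 := D.hr
  rw [c2_rs7_coe]
  intro h
  have h2 : D.r = 0 := by
    cases s
    · rwa [if_neg (by decide), neg_eq_zero] at h
    · rwa [if_pos rfl] at h
  rw [h2] at h1
  norm_num at h1

theorem c2_val_rs7 (s : Bool) (v : HeightOneSpectrum (𝓞 M)) (d : M) :
    v.valuation M (d * (rs7 D s : M)) = v.valuation M (d * D.r) := by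
  rw [c2_rs7_coe]
  cases s
  · rw [if_neg (by decide), mul_neg, Valuation.map_neg]
  · rw [if_pos rfl]

/-- `±√-7` is odd at `ϖ'` -/
theorem c2_rs7_mem {s : Bool} {P : HeightOneSpectrum (𝓞 M)} (hP : p2 D s ∈ P.asIdeal) : rs7 D s ∉ P.asIdeal := by
  intro h
  apply c1_p1_not hP
  have e : p1 D s = rs7 D s + p2 D s := by
    unfold rs7
    ring
  rw [e]
  exact add_mem h hP

theorem c2_exp_sq {n : ℤ} : IsSquare (WithZero.exp n : WithZero (Multiplicative ℤ)) ↔ Even n := by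
  constructor
  · rintro ⟨x, hx⟩
    have hx0 : x ≠ 0 := by
      rintro rfl
      rw [zero_mul] at hx
      exact WithZero.exp_ne_zero hx
    obtain ⟨k, hk⟩ : ∃ k : ℤ, x = WithZero.exp k := ⟨WithZero.log x, (WithZero.exp_log hx0).symm⟩
    rw [hk, ← WithZero.exp_add, WithZero.exp_inj] at hx
    exact ⟨k, hx⟩
  · rintro ⟨k, rfl⟩
    exact ⟨WithZero.exp k, WithZero.exp_add _ _⟩

theorem c2_mul_sq {Γ : Type} [CommGroupWithZero Γ] {x y : Γ} (hy : y ≠ 0) : IsSquare (x * y ^ 2) ↔ IsSquare x := by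
  constructor
  · rintro ⟨w, hw⟩
    refine ⟨w / y, ?_⟩
    field_simp
    rw [hw, sq]
  · rintro ⟨w, rfl⟩
    exact ⟨w * y, by rw [sq, mul_mul_mul_comm]⟩

variable {s : Bool} {d : M} {T : Finset (HeightOneSpectrum (𝓞 M))} {z : HeightOneSpectrum (𝓞 M) → 𝓞 M} {ε : (𝓞 L)ˣ} {i j : Bool}
  (H : DK D s d T z ε i j)
include H

theorem DK.z_not {v P : HeightOneSpectrum (𝓞 M)} (hP : P ∈ T) (h : v ≠ P) : z P ∉ v.asIdeal := by
  obtain ⟨k, -, hk⟩ := (H.ng P hP).gen
  intro hz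
  have h1 : P.asIdeal ^ k ≤ v.asIdeal := by
    rw [← hk, Ideal.span_singleton_le_iff_mem]
    exact hz
  have h2 := v.isPrime.le_of_pow_le h1
  exact h (HeightOneSpectrum.ext ((P.isMaximal.eq_of_le v.isPrime.ne_top h2).symm))

theorem DK.prod_not {v : HeightOneSpectrum (𝓞 M)} (h : v ∉ T) : ∏ P ∈ T, z P ∉ v.asIdeal := by
  intro hm
  obtain ⟨P, hP, hz⟩ := (v.isPrime.prod_mem_iff).1 hm
  exact H.z_not hP (fun e => h (by rw [e]; exact hP)) hz

omit H in
theorem c2_unit_not (v : HeightOneSpectrum (𝓞 M)) (u : (𝓞 L)ˣ) : algebraMap (𝓞 L) (𝓞 M) (u : 𝓞 L) ∉ v.asIdeal := by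
  intro h
  apply v.isPrime.ne_top
  exact Ideal.eq_top_of_isUnit_mem _ h (u.isUnit.map _)

theorem DK.two_not {v : HeightOneSpectrum (𝓞 M)} (h2 : (2 : 𝓞 M) ∈ v.asIdeal) : v ∉ T := fun h => H.two v h h2

omit [IsTotallyReal L] H in
theorem c2_val_if {P : HeightOneSpectrum (𝓞 M)} (b : Bool) {x : 𝓞 M} (hx : P.valuation M (x : M) = WithZero.exp (-1 : ℤ)) :
    P.valuation M (((if b then -x else 1 : 𝓞 M)) : M) = if b then WithZero.exp (-1 : ℤ) else 1 := by
  cases b
  · simp only [Bool.false_eq_true, if_false]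
    exact (TU.g1_val_one P).2 (fun h => P.isPrime.ne_top ((Ideal.eq_top_iff_one _).2 h))
  · simp only [if_true]
    obtain ⟨h1, h2⟩ := (TU.g1_val_exp P).1 hx
    exact (TU.g1_val_exp P).2 ⟨neg_mem h1, fun h => h2 (neg_mem_iff.1 h)⟩

omit [IsTotallyReal L] H in
theorem c2_not_if {P : HeightOneSpectrum (𝓞 M)} (b : Bool) {x : 𝓞 M} (hx : x ∉ P.asIdeal) :
    (if b then -x else 1 : 𝓞 M) ∉ P.asIdeal := by
  cases b
  · simp only [Bool.false_eq_true, if_false]
    exact fun h => P.isPrime.ne_top ((Ideal.eq_top_iff_one _).2 h)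
  · simp only [if_true]
    rw [neg_mem_iff]
    exact hx

/-- the valuation of `δ` at `ϖ'` -/
theorem DK.val_p2 {P : HeightOneSpectrum (𝓞 M)} (hP : p2 D s ∈ P.asIdeal) (hD : Od2 D) :
    ∃ y : M, y ≠ 0 ∧ P.valuation M d = (if j then WithZero.exp (-1 : ℤ) else 1) * P.valuation M y ^ 2 := by
  obtain ⟨y, hy, h⟩ := H.eq
  refine ⟨y, hy, ?_⟩
  have h2 := c1_mem_two hP
  have h1 := congrArg (P.valuation M) h
  have hr : P.valuation M (rs7 D s : M) = 1 := (TU.g1_val_one P).2 (c2_rs7_mem hP)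
  rw [map_mul, hr, mul_one, map_mul, map_pow] at h1
  rw [h1]
  congr 1
  have hN : ((algebraMap (𝓞 L) (𝓞 M) (ε : 𝓞 L) * (if i then -(p1 D s) else 1) * (if j then -(p2 D s) else 1) * ∏ P ∈ T, z P : 𝓞 M) : M) =
      ((algebraMap (𝓞 L) (𝓞 M) (ε : 𝓞 L) : 𝓞 M) : M) * (((if i then -(p1 D s) else 1 : 𝓞 M)) : M) * (((if j then -(p2 D s) else 1 : 𝓞 M)) : M) *
      ((∏ P ∈ T, z P : 𝓞 M) : M) := by
    rw [← map_mul, ← map_mul, ← map_mul]
  rw [hN, map_mul, map_mul, map_mul, (TU.g1_val_one P).2 (c2_unit_not P ε), (TU.g1_val_one P).2 (H.prod_not (H.two_not h2)), one_mul, mul_one,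
    (TU.g1_val_one P).2 (c2_not_if i (c1_p1_not hP)), one_mul]
  exact c2_val_if j (c1_val hD hP)

/-- the valuation of `δ` at `ϖ` -/
theorem DK.val_p1 {P : HeightOneSpectrum (𝓞 M)} (hP : p1 D s ∈ P.asIdeal) (hD : Od2 D) :
    ∃ y : M, y ≠ 0 ∧ P.valuation M d = (if i then WithZero.exp (-1 : ℤ) else 1) * P.valuation M y ^ 2 := by
  have hP' : p2 D (!s) ∈ P.asIdeal := by
    rw [c2_p2_not]
    exact hP
  obtain ⟨y, hy, h⟩ := H.eq
  refine ⟨y, hy, ?_⟩
  have h2 := c1_mem_two hP'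
  have h1 := congrArg (P.valuation M) h
  have hr : P.valuation M (rs7 D s : M) = 1 := (TU.g1_val_one P).2 (by
    have h3 := c2_rs7_mem hP'
    rwa [c2_rs7_not, neg_mem_iff] at h3)
  rw [map_mul, hr, mul_one, map_mul, map_pow] at h1
  rw [h1]
  congr 1
  have hN : ((algebraMap (𝓞 L) (𝓞 M) (ε : 𝓞 L) * (if i then -(p1 D s) else 1) * (if j then -(p2 D s) else 1) * ∏ P ∈ T, z P : 𝓞 M) : M) =
      ((algebraMap (𝓞 L) (𝓞 M) (ε : 𝓞 L) : 𝓞 M) : M) * (((if i then -(p1 D s) else 1 : 𝓞 M)) : M) * (((if j then -(p2 D s) else 1 : 𝓞 M)) : M) *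
      ((∏ P ∈ T, z P : 𝓞 M) : M) := by
    rw [← map_mul, ← map_mul, ← map_mul]
  have h4 : p2 D s ∉ P.asIdeal := c1_p1_not hP'
  have h5 := c1_val hD hP'
  rw [c2_p2_not] at h5
  rw [hN, map_mul, map_mul, map_mul, (TU.g1_val_one P).2 (c2_unit_not P ε), (TU.g1_val_one P).2 (H.prod_not (H.two_not h2)), one_mul, mul_one,
    (TU.g1_val_one P).2 (c2_not_if j h4), mul_one]
  exact c2_val_if i h5

omit H in
theorem c2_q4_mul (hD : Od2 D) {x y : 𝓞 M} (hy : Q4 (rd8 D s y)) : Q4 (rd8 D s (x * y)) ↔ Q4 (rd8 D s x) :=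
  (q4_per_iff (rd8_mul hD s x y)).trans (q4_mul_iff hy)

omit H in
theorem c2_q4_one (hD : Od2 D) : Q4 (rd8 D s (1 : 𝓞 M)) := by
  have h := rd8_alg hD s (1 : 𝓞 L)
  rw [map_one] at h
  exact (q4_per_iff h).2 q4_one

omit H in
theorem c2_q4_p1 (hD : Od2 D) (b : Bool) : Q4 (rd8 D s (if b then -(p1 D s) else 1)) := by
  cases b
  · simp only [Bool.false_eq_true, if_false]
    exact c2_q4_one hD
  · simp only [if_true]
    exact (q4_per_iff (c1_p1 hD s)).2 q4_five

omit H in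
theorem c2_q4_rs7 (hD : Od2 D) : Q4 (rd8 D s (rs7 D s)) := (q4_per_iff (c1_rs7 hD s)).2 q4_five

theorem DK.q4_prod (hD : Od2 D) : Q4 (rd8 D s (∏ P ∈ T, z P)) := by
  have key : ∀ U : Finset (HeightOneSpectrum (𝓞 M)), U ⊆ T → Q4 (rd8 D s (∏ P ∈ U, z P)) := by
    intro U
    induction U using Finset.induction_on with
    | empty =>
      intro _
      rw [Finset.prod_empty]
      exact c2_q4_one hD
    | insert P U hPU ih =>
      intro hs
      rw [Finset.prod_insert hPU]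
      refine (c2_q4_mul hD (ih fun x hx => hs (Finset.mem_insert_of_mem hx))).2 ?_
      exact (rd8_et hD s (z P)).1 (H.ng P (hs (Finset.mem_insert_self _ _))).et
  exact key T (Finset.Subset.refl T)

/-- **the type at `ϖ'`** -/
theorem DK.ur_p2 {P : HeightOneSpectrum (𝓞 M)} (hP : p2 D s ∈ P.asIdeal) (hD : Od2 D) : Ur P d ↔ ¬ Rm (ε : 𝓞 L) j := by
  cases j
  · obtain ⟨y, hy, h⟩ := H.eq
    have h2 := c1_mem_two hP
    simp only [Bool.false_eq_true, if_false, mul_one] at h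
    set N : 𝓞 M := algebraMap (𝓞 L) (𝓞 M) (ε : 𝓞 L) * (if i then -(p1 D s) else 1) * ∏ P ∈ T, z P with hN
    have hr := c2_rs7_ne (D := D) s
    have e : (y / (rs7 D s : M)) ^ 2 * ((N * rs7 D s : 𝓞 M) : M) = d := by
      have h3 : ((N * rs7 D s : 𝓞 M) : M) = (N : M) * (rs7 D s : M) := map_mul _ _ _
      rw [h3]
      field_simp
      linear_combination -h
    have hNP : N * rs7 D s ∉ P.asIdeal := by
      intro hm
      rcases P.isPrime.mem_or_mem hm with hm | hm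
      · rcases P.isPrime.mem_or_mem hm with hm | hm
        · rcases P.isPrime.mem_or_mem hm with hm | hm
          · exact c2_unit_not P ε hm
          · exact c2_not_if i (c1_p1_not hP) hm
        · exact H.prod_not (H.two_not h2) hm
      · exact c2_rs7_mem hP hm
    rw [← e, ur_sq_mul (div_ne_zero hy hr), ur_iff_q4 hD hP hNP, c2_q4_mul hD (c2_q4_rs7 hD), hN, c2_q4_mul hD (H.q4_prod hD),
      c2_q4_mul hD (c2_q4_p1 hD i), q4_per_iff (rd8_alg hD s (ε : 𝓞 L))]
    unfold Rm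
    simp
  · obtain ⟨y, hy, h⟩ := H.val_p2 hP hD
    have hR : Rm (ε : 𝓞 L) true := Or.inl rfl
    refine ⟨fun hu => ?_, fun h => absurd hR h⟩
    have h3 := hu.val
    rw [h, if_pos rfl, c2_mul_sq ((P.valuation M).ne_zero_iff.2 hy), c2_exp_sq] at h3
    exact absurd h3 (by decide)

/-- **the type at `ϖ`** -/
theorem DK.ur_p1 {P : HeightOneSpectrum (𝓞 M)} (hP : p1 D s ∈ P.asIdeal) (hD : Od2 D) : Ur P d ↔ ¬ Rm (cd D s T z ε) i := by
  have hP' : p2 D (!s) ∈ P.asIdeal := by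
    rw [c2_p2_not]
    exact hP
  cases i
  · obtain ⟨y, hy, h⟩ := H.eq
    have h2 := c1_mem_two hP'
    simp only [Bool.false_eq_true, if_false, mul_one] at h
    have hr := c2_rs7_ne (D := D) (!s)
    have hj : (if j then -(p2 D s) else 1 : 𝓞 M) = if j then -(p1 D (!s)) else 1 := rfl
    set N : 𝓞 M := -(algebraMap (𝓞 L) (𝓞 M) (ε : 𝓞 L)) * (∏ P ∈ T, z P) * (if j then -(p1 D (!s)) else 1) with hN
    have e : (y / (rs7 D (!s) : M)) ^ 2 * ((N * rs7 D (!s) : 𝓞 M) : M) = d := by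
      have h3 : ((N * rs7 D (!s) : 𝓞 M) : M) = (N : M) * (rs7 D (!s) : M) := map_mul _ _ _
      have h4 : (N : M) = -((algebraMap (𝓞 L) (𝓞 M) (ε : 𝓞 L) * (if j then -(p2 D s) else 1) * ∏ P ∈ T, z P : 𝓞 M) : M) := by
        have h5 : N = -(algebraMap (𝓞 L) (𝓞 M) (ε : 𝓞 L) * (if j then -(p2 D s) else 1) * ∏ P ∈ T, z P) := by
          rw [hN, hj]
          ring
        rw [h5]
        exact map_neg _ _
      have h5 : (rs7 D (!s) : M) = -(rs7 D s : M) := by
        rw [c2_rs7_not]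
        exact map_neg _ _
      rw [h3]
      rw [h5] at hr ⊢
      have hr0 := neg_ne_zero.1 hr
      rw [h4]
      field_simp
      linear_combination -h
    have hNP : N * rs7 D (!s) ∉ P.asIdeal := by
      intro hm
      rcases P.isPrime.mem_or_mem hm with hm | hm
      · rcases P.isPrime.mem_or_mem hm with hm | hm
        · rcases P.isPrime.mem_or_mem hm with hm | hm
          · rw [neg_mem_iff] at hm
            exact c2_unit_not P ε hm
          · exact H.prod_not (H.two_not h2) hm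
        · exact c2_not_if j (c1_p1_not hP') hm
      · exact c2_rs7_mem hP' hm
    rw [← e, ur_sq_mul (div_ne_zero hy hr), ur_iff_q4 hD hP' hNP, c2_q4_mul hD (c2_q4_rs7 hD), hN, c2_q4_mul hD (c2_q4_p1 hD j)]
    unfold Rm cd
    simp
  · obtain ⟨y, hy, h⟩ := H.val_p1 hP hD
    have hR : Rm (cd D s T z ε) true := Or.inl rfl
    refine ⟨fun hu => ?_, fun h => absurd hR h⟩
    have h3 := hu.val
    rw [h, if_pos rfl, c2_mul_sq ((P.valuation M).ne_zero_iff.2 hy), c2_exp_sq] at h3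
    exact absurd h3 (by decide)

/-- **the odd primes** -/
theorem DK.mem_iff {P : HeightOneSpectrum (𝓞 M)} (h2 : (2 : 𝓞 M) ∉ P.asIdeal) : P ∈ T ↔ ¬ IsSquare (P.valuation M (d * D.r)) := by
  obtain ⟨y, hy, h⟩ := H.eq
  have hp1 : p1 D s ∉ P.asIdeal := fun hm => h2 (by
    rw [← x_mul D s]
    exact Ideal.mul_mem_right _ _ hm)
  have hp2 : p2 D s ∉ P.asIdeal := fun hm => h2 (by
    rw [← x_mul D s]
    exact Ideal.mul_mem_left _ _ hm)
  have hN : ((algebraMap (𝓞 L) (𝓞 M) (ε : 𝓞 L) * (if i then -(p1 D s) else 1) * (if j then -(p2 D s) else 1) * ∏ P ∈ T, z P : 𝓞 M) : M) =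
      ((algebraMap (𝓞 L) (𝓞 M) (ε : 𝓞 L) : 𝓞 M) : M) * (((if i then -(p1 D s) else 1 : 𝓞 M)) : M) * (((if j then -(p2 D s) else 1 : 𝓞 M)) : M) *
      ((∏ P ∈ T, z P : 𝓞 M) : M) := by
    rw [← map_mul, ← map_mul, ← map_mul]
  have h1 : P.valuation M (d * D.r) = P.valuation M ((∏ P ∈ T, z P : 𝓞 M) : M) * P.valuation M y ^ 2 := by
    rw [← c2_val_rs7 s, h, map_mul, map_pow, hN, map_mul, map_mul, map_mul, (TU.g1_val_one P).2 (c2_unit_not P ε),
      (TU.g1_val_one P).2 (c2_not_if i hp1), (TU.g1_val_one P).2 (c2_not_if j hp2), one_mul, one_mul, one_mul]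
  rw [h1, c2_mul_sq ((P.valuation M).ne_zero_iff.2 hy)]
  constructor
  · intro hP
    obtain ⟨k, hk, e⟩ := (H.ng P hP).gen
    rw [← Finset.mul_prod_erase _ _ hP]
    have h3 : ((z P * ∏ Q ∈ T.erase P, z Q : 𝓞 M) : M) = (z P : M) * ((∏ Q ∈ T.erase P, z Q : 𝓞 M) : M) := map_mul _ _ _
    have h4 : ∏ Q ∈ T.erase P, z Q ∉ P.asIdeal := by
      intro hm
      obtain ⟨Q, hQ, hz⟩ := (P.isPrime.prod_mem_iff).1 hm
      rw [Finset.mem_erase] at hQ
      exact H.z_not hQ.2 (Ne.symm hQ.1) hz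
    have h5 : P.valuation M (z P : M) = WithZero.exp (-(k : ℤ)) := by
      have h6 : P.valuation M (algebraMap (𝓞 M) M (z P)) = WithZero.exp (-(k : ℤ)) := by
        have hz0 : z P ≠ 0 := by
          intro h0
          rw [h0, Ideal.span_singleton_eq_bot.2 rfl] at e
          exact P.ne_bot ((pow_eq_zero_iff hk.pos.ne').1 e.symm)
        apply le_antisymm
        · rw [P.valuation_of_algebraMap, P.intValuation_le_pow_iff_mem, ← e]
          exact Ideal.mem_span_singleton_self _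
        · by_contra hcon
          rw [not_le] at hcon
          have h7 : P.valuation M (algebraMap (𝓞 M) M (z P)) ≤ WithZero.exp (-((k + 1 : ℕ) : ℤ)) := by
            obtain ⟨n, hn⟩ := TRX2.vexp (P.valuation M) ((map_ne_zero_iff (algebraMap (𝓞 M) M) (IsFractionRing.injective _ _)).2 hz0)
            rw [hn, WithZero.exp_lt_exp] at hcon
            rw [hn, WithZero.exp_le_exp]
            push_cast
            omega
          rw [P.valuation_of_algebraMap, P.intValuation_le_pow_iff_mem, ← Ideal.span_singleton_le_iff_mem, e] at h7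
          exact absurd (Ideal.pow_succ_lt_pow P.ne_bot k) (not_lt_of_ge h7)
      exact h6
    rw [h3, map_mul, h5, (TU.g1_val_one P).2 h4, mul_one, c2_exp_sq, _root_.even_neg, Int.even_coe_nat, Nat.not_even_iff_odd]
    exact hk
  · intro hcon
    by_contra hP
    apply hcon
    rw [(TU.g1_val_one P).2 (H.prod_not hP)]
    exact IsSquare.one

end

end TRZ
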