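import Pool.Agent.TRZ.C3
import Pool.Agent.TRP.Z
import Pool.Agent.TRH.H3
import Pool.Agent.TTS.N1
import Pool.Agent.TR.A7e

/-! # [ALL2-C] the period -/

set_option autoImplicit false
set_option linter.unusedSectionVars false

open NumberField Ideal IsDedekindDomain
open scoped Real Classical ComplexConjugate
open TR TRG TRP TTS TU TT

namespace TRZ

section
variable {F : Type} [Field F] [NumberField F]

theorem c4_norm_eq {v : HeightOneSpectrum (𝓞 F)} {x y : F} (h : v.valuation F x = v.valuation F y) :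
    ‖algebraMap F (v.adicCompletion F) x‖ = ‖algebraMap F (v.adicCompletion F) y‖ := by
  have hx : (Valued.v (algebraMap F (v.adicCompletion F) x) : WithZero (Multiplicative ℤ)) = v.valuation F x :=
    HeightOneSpectrum.valuedAdicCompletion_eq_valuation' v x
  have hy : (Valued.v (algebraMap F (v.adicCompletion F) y) : WithZero (Multiplicative ℤ)) = v.valuation F y :=
    HeightOneSpectrum.valuedAdicCompletion_eq_valuation' v y
  rw [FinitePlace.norm_def, FinitePlace.norm_def, hx, hy, h]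

/-- the Neron factor of the integral model -/
theorem c4_neron_Wc {v : HeightOneSpectrum (𝓞 F)} (hv : (2 : 𝓞 F) ∈ v.asIdeal) {t c : 𝓞 F} (hD : t ^ 2 + 4 * c ∉ v.asIdeal) :
    SBSD.neron (TT.Wc ((t : 𝓞 F) : F) ((c : 𝓞 F) : F)) v = 1 := by
  have h7 : (7 : 𝓞 F) ∉ v.asIdeal := by
    intro h7
    apply v.isPrime.ne_top
    rw [Ideal.eq_top_iff_one]
    have h1 : (1 : 𝓞 F) = 7 - 2 * 3 := by norm_num
    rw [h1]
    exact v.asIdeal.sub_mem h7 (Ideal.mul_mem_right _ _ hv)
  have hu : IsUnit (TT.Wc (algebraMap (𝓞 F) (v.adicCompletionIntegers F) t)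
      (algebraMap (𝓞 F) (v.adicCompletionIntegers F) c)).Δ := by
    rw [TT.Wc_Δ]
    have h1 := CMT.isUnit_completion' F v _ hD
    rw [map_add, map_mul, map_pow, map_ofNat] at h1
    have h2 := CMT.isUnit_completion' F v _ h7
    rw [map_ofNat] at h2
    have h3 : (-343 : v.adicCompletionIntegers F) = -(7 ^ 3) := by norm_num
    rw [h3]
    exact ((h2.pow 3).neg).mul (h1.pow 6)
  have hbase : (TT.Wc ((t : 𝓞 F) : F) ((c : 𝓞 F) : F)).baseChange (v.adicCompletion F) =
      (TT.Wc (algebraMap (𝓞 F) (v.adicCompletionIntegers F) t)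
        (algebraMap (𝓞 F) (v.adicCompletionIntegers F) c)).map
        (algebraMap (v.adicCompletionIntegers F) (v.adicCompletion F)) := by
    rw [WeierstrassCurve.baseChange, TT.Wc_map, TT.Wc_map]
    rfl
  refine SBSD.neron_eq_one_of F v _ fun T hT => ?_
  rw [hbase] at hT
  exact VC63.unit_of_good _ hu T hT

/-- the Neron factor of `Ws δ` at a prime above `2` of good reduction -/
theorem c4_neron_ur {v : HeightOneSpectrum (𝓞 F)} (hv : (2 : 𝓞 F) ∈ v.asIdeal) {δ : F} (hδ : v.valuation F δ = 1)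
    (hU : Ur v δ) : ‖algebraMap F (v.adicCompletion F) 2‖ * SBSD.neron (Ws δ) v = 1 := by
  obtain ⟨x, t, c, hx, hd, hu⟩ := hU
  have hvu : v.valuation F ((t ^ 2 + 4 * c : 𝓞 F) : F) = 1 := (TU.g1_val_one v).2 hu
  have hvx : v.valuation F x = 1 := by
    have h1 := congrArg (v.valuation F) hd
    rw [hδ, map_mul, map_pow, hvu, mul_one] at h1
    exact (pow_eq_one_iff_of_nonneg zero_le two_ne_zero).1 h1.symm
  obtain ⟨C1, hC1, hu1⟩ := Ws_scale (d := ((t ^ 2 + 4 * c : 𝓞 F) : F)) hx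
  have hMδ : (t : F) ^ 2 + 4 * (c : F) = ((t ^ 2 + 4 * c : 𝓞 F) : F) := (p5_coe t c).symm
  obtain ⟨C2, hC2, hu2⟩ := Wc_eq_Ws (t : F) (c : F)
  rw [hMδ] at hC2
  have hne : ((t ^ 2 + 4 * c : 𝓞 F) : F) ≠ 0 := by
    intro h0
    rw [h0, map_zero] at hvu
    exact zero_ne_one hvu
  have hΔ0 : (TT.Wc (t : F) (c : F)).Δ ≠ 0 := by
    rw [TT.Wc_Δ]
    refine mul_ne_zero (by norm_num) (pow_ne_zero _ ?_)
    rw [hMδ]
    exact hne
  have hΔ : (Ws ((t ^ 2 + 4 * c : 𝓞 F) : F)).Δ ≠ 0 := by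
    intro h0
    apply hΔ0
    rw [hC2, WeierstrassCurve.variableChange_Δ, h0, mul_zero]
  have h1 := c4_neron_Wc (v := v) hv hu
  rw [hC2, neron_smul _ hΔ, hu2] at h1
  rw [hd, hC1, neron_smul _ hΔ, hu1]
  have h3 : ‖algebraMap F (v.adicCompletion F) x⁻¹‖ = 1 := by
    have h4 := c4_norm_eq (v := v) (x := x⁻¹) (y := 1) (by rw [map_inv₀, hvx, inv_one, map_one])
    rw [h4, map_one, norm_one]
  rw [h3, one_mul]
  exact h1

end

section
variable {L M : Type} [Field L] [NumberField L] [Field M] [NumberField M] [Algebra L M]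
  [IsTotallyReal L] {D : Dat L M}

theorem c4_norm_p1 (s : Bool) : absNorm (span {p1 D s}) = 2 ^ Module.finrank ℚ L := by
  have h1 : D.NK (p1 D s : M) = c1 s ^ Module.finrank ℚ L := by
    unfold Dat.NK
    rw [← card_real L, ← Finset.card_univ, ← Finset.prod_const]
    exact Finset.prod_congr rfl fun j _ => z_emb D j s
  have h2 := D.absNorm_span (p1 D s)
  have h3 : ‖c1 s‖ ^ 2 = 2 := by
    have h4 : ((‖c1 s‖ ^ 2 : ℝ) : ℂ) = 2 := by
      push_cast
      rw [← Complex.mul_conj', z_conj, z_mul]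
    exact_mod_cast h4
  rw [h1, norm_pow, ← pow_mul, mul_comm, pow_mul, h3] at h2
  exact_mod_cast h2

theorem c4_norm_p2 (s : Bool) : absNorm (span {p2 D s}) = 2 ^ Module.finrank ℚ L := c4_norm_p1 (!s)

theorem c4_norm_if (b : Bool) {x : 𝓞 M} {n : ℕ} (hx : absNorm (span {x}) = n) :
    absNorm (span {(if b then -x else 1 : 𝓞 M)}) = n ^ (if b then 1 else 0) := by
  cases b
  · simp
  · simp [hx, Ideal.span_singleton_neg]

variable {s : Bool} {d : M} {T : Finset (HeightOneSpectrum (𝓞 M))} {z : HeightOneSpectrum (𝓞 M) → 𝓞 M} {ε : (𝓞 L)ˣ} {i j : Bool}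
  (H : DK D s d T z ε i j)
include H

theorem DK.norm_prod : ∃ B : ℕ, Odd B ∧ absNorm (span {∏ P ∈ T, z P}) = (∏ P ∈ T, absNorm P.asIdeal) * B ^ 2 := by
  have key : ∀ U : Finset (HeightOneSpectrum (𝓞 M)), U ⊆ T →
      ∃ B : ℕ, Odd B ∧ absNorm (span {∏ P ∈ U, z P}) = (∏ P ∈ U, absNorm P.asIdeal) * B ^ 2 := by
    intro U
    induction U using Finset.induction_on with
    | empty => exact fun _ => ⟨1, odd_one, by simp⟩
    | insert P U hPU ih =>
      intro hs
      obtain ⟨B, hB, h1⟩ := ih fun x hx => hs (Finset.mem_insert_of_mem hx)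
      have hP := hs (Finset.mem_insert_self P U)
      obtain ⟨k, ⟨l, hl⟩, h3⟩ := (H.ng P hP).gen
      refine ⟨absNorm P.asIdeal ^ l * B, ((TRB.f1_odd_norm (H.two P hP)).pow).mul hB, ?_⟩
      rw [Finset.prod_insert hPU, Finset.prod_insert hPU, ← Ideal.span_singleton_mul_span_singleton,
        map_mul, h1, h3, map_pow, hl]
      ring
  exact key T (Finset.Subset.refl T)

omit H in
theorem c4_norm_rs7 (s : Bool) : absNorm (span {rs7 D s}) = 7 ^ Module.finrank ℚ L := by
  rw [se4_rs7, a7e_absNorm D]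

/-- the integral representative of `d` -/
theorem DK.norm_delta : ∃ B : ℕ, Odd B ∧
    absNorm (span {(algebraMap (𝓞 L) (𝓞 M) (ε : 𝓞 L) * (if i then -(p1 D s) else 1) * (if j then -(p2 D s) else 1) * ∏ P ∈ T, z P) * rs7 D s}) =
      NN (L := L) T i j * B ^ 2 := by
  obtain ⟨B, hB, h1⟩ := H.norm_prod
  refine ⟨B, hB, ?_⟩
  rw [← Ideal.span_singleton_mul_span_singleton, ← Ideal.span_singleton_mul_span_singleton, ← Ideal.span_singleton_mul_span_singleton,
    ← Ideal.span_singleton_mul_span_singleton, map_mul, map_mul, map_mul, map_mul, h1, c4_norm_rs7, c4_norm_if i (c4_norm_p1 s),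
    c4_norm_if j (c4_norm_p2 s), Ideal.span_singleton_eq_top.2 (ε.isUnit.map _)]
  unfold NN
  rw [← Ideal.one_eq_top, map_one, mul_add, pow_add, pow_mul, pow_mul]
  ring

end

end TRZ
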