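import Pool.Agent.TRZ.C4

/-! # [ALL2-C] the period: assembly -/

set_option autoImplicit false
set_option linter.unusedSectionVars false

open NumberField Ideal IsDedekindDomain
open scoped Real Classical ComplexConjugate
open TR TRG TRP TTS TU TT

namespace TRZ

section
variable {L M : Type} [Field L] [NumberField L] [Field M] [NumberField M] [Algebra L M]
  [IsTotallyReal L] {D : Dat L M}

/-- the scaling element -/
noncomputable def uK (D : Dat L M) (s : Bool) (a b : Prop) : 𝓞 M := (if a then 1 else p1 D s) * (if b then 1 else p2 D s)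

theorem uK_norm (s : Bool) (a b : Prop) :
    absNorm (span {uK D s a b}) = 2 ^ (Module.finrank ℚ L * ((if a then 0 else 1) + (if b then 0 else 1))) := by
  unfold uK
  rw [← Ideal.span_singleton_mul_span_singleton, map_mul, mul_add, pow_add]
  congr 1
  · split_ifs
    · simp
    · rw [c4_norm_p1, mul_one]
  · split_ifs
    · simp
    · rw [c4_norm_p2, mul_one]

theorem uK_ne (s : Bool) (a b : Prop) : (uK D s a b : M) ≠ 0 := by
  have h : uK D s a b ≠ 0 := by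
    unfold uK
    apply mul_ne_zero
    · split_ifs
      · exact one_ne_zero
      · have := x1_p2_ne (D := D) (!s)
        rwa [c2_p2_not] at this
    · split_ifs
      · exact one_ne_zero
      · exact x1_p2_ne s
  exact (map_ne_zero_iff (algebraMap (𝓞 M) M) (IsFractionRing.injective _ _)).2 h

theorem uK_val_p2 (hD : Od2 D) {s : Bool} {P : HeightOneSpectrum (𝓞 M)} (hP : p2 D s ∈ P.asIdeal) (a b : Prop) :
    P.valuation M (uK D s a b : M) = if b then 1 else WithZero.exp (-1 : ℤ) := by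
  have e : (uK D s a b : M) = (((if a then 1 else p1 D s : 𝓞 M)) : M) * (((if b then 1 else p2 D s : 𝓞 M)) : M) := map_mul _ _ _
  have h1 : (1 : 𝓞 M) ∉ P.asIdeal := fun h => P.isPrime.ne_top ((Ideal.eq_top_iff_one _).2 h)
  rw [e, map_mul]
  have h2 : P.valuation M (((if a then 1 else p1 D s : 𝓞 M)) : M) = 1 := by
    apply (TU.g1_val_one P).2
    split_ifs
    · exact h1
    · exact c1_p1_not hP
  rw [h2, one_mul]
  split_ifs
  · exact (TU.g1_val_one P).2 h1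
  · exact c1_val hD hP

theorem uK_val_p1 (hD : Od2 D) {s : Bool} {P : HeightOneSpectrum (𝓞 M)} (hP : p1 D s ∈ P.asIdeal) (a b : Prop) :
    P.valuation M (uK D s a b : M) = if a then 1 else WithZero.exp (-1 : ℤ) := by
  have hP' : p2 D (!s) ∈ P.asIdeal := by
    rw [c2_p2_not]
    exact hP
  have e : uK D s a b = uK D (!s) b a := by
    unfold uK
    rw [c2_p2_not, mul_comm]
    rfl
  rw [e]
  exact uK_val_p2 hD hP' b a

variable {s : Bool} {d : M} {T : Finset (HeightOneSpectrum (𝓞 M))} {z : HeightOneSpectrum (𝓞 M) → 𝓞 M} {ε : (𝓞 L)ˣ} {i j : Bool}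
  (H : DK D s d T z ε i j)

/-- the integral representative of `d` -/
noncomputable def dlt (D : Dat L M) (s : Bool) (T : Finset (HeightOneSpectrum (𝓞 M))) (z : HeightOneSpectrum (𝓞 M) → 𝓞 M) (ε : (𝓞 L)ˣ) (i j : Bool) : 𝓞 M :=
  (algebraMap (𝓞 L) (𝓞 M) (ε : 𝓞 L) * (if i then -(p1 D s) else 1) * (if j then -(p2 D s) else 1) * ∏ P ∈ T, z P) * rs7 D s

include H

theorem DK.dlt_eq : ∃ x : M, x ≠ 0 ∧ d = x ^ 2 * (dlt D s T z ε i j : M) := by
  obtain ⟨y, hy, h⟩ := H.eq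
  have hr := c2_rs7_ne (D := D) s
  refine ⟨y / (rs7 D s : M), div_ne_zero hy hr, ?_⟩
  have h3 : (dlt D s T z ε i j : M) = ((algebraMap (𝓞 L) (𝓞 M) (ε : 𝓞 L) * (if i then -(p1 D s) else 1) *
      (if j then -(p2 D s) else 1) * ∏ P ∈ T, z P : 𝓞 M) : M) * (rs7 D s : M) := map_mul _ _ _
  rw [h3]
  field_simp
  linear_combination h

theorem DK.dlt_val_p2 (hD : Od2 D) {P : HeightOneSpectrum (𝓞 M)} (hP : p2 D s ∈ P.asIdeal) :
    P.valuation M (dlt D s T z ε i j : M) = if j then WithZero.exp (-1 : ℤ) else 1 := by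
  have h2 := c1_mem_two hP
  have hN : (dlt D s T z ε i j : M) =
      ((algebraMap (𝓞 L) (𝓞 M) (ε : 𝓞 L) : 𝓞 M) : M) * (((if i then -(p1 D s) else 1 : 𝓞 M)) : M) * (((if j then -(p2 D s) else 1 : 𝓞 M)) : M) *
      ((∏ P ∈ T, z P : 𝓞 M) : M) * (rs7 D s : M) := by
    rw [← map_mul, ← map_mul, ← map_mul, ← map_mul]
    rfl
  rw [hN, map_mul, map_mul, map_mul, map_mul, (TU.g1_val_one P).2 (c2_unit_not P ε), (TU.g1_val_one P).2 (H.prod_not (H.two_not h2)), one_mul, mul_one,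
    (TU.g1_val_one P).2 (c2_not_if i (c1_p1_not hP)), one_mul, (TU.g1_val_one P).2 (c2_rs7_mem hP), mul_one]
  exact c2_val_if j (c1_val hD hP)

theorem DK.dlt_val_p1 (hD : Od2 D) {P : HeightOneSpectrum (𝓞 M)} (hP : p1 D s ∈ P.asIdeal) :
    P.valuation M (dlt D s T z ε i j : M) = if i then WithZero.exp (-1 : ℤ) else 1 := by
  have hP' : p2 D (!s) ∈ P.asIdeal := by
    rw [c2_p2_not]
    exact hP
  have h2 := c1_mem_two hP'
  have h4 : p2 D s ∉ P.asIdeal := c1_p1_not hP'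
  have h5 := c1_val hD hP'
  rw [c2_p2_not] at h5
  have hr : rs7 D s ∉ P.asIdeal := by
    have h3 := c2_rs7_mem hP'
    rwa [c2_rs7_not, neg_mem_iff] at h3
  have hN : (dlt D s T z ε i j : M) =
      ((algebraMap (𝓞 L) (𝓞 M) (ε : 𝓞 L) : 𝓞 M) : M) * (((if i then -(p1 D s) else 1 : 𝓞 M)) : M) * (((if j then -(p2 D s) else 1 : 𝓞 M)) : M) *
      ((∏ P ∈ T, z P : 𝓞 M) : M) * (rs7 D s : M) := by
    rw [← map_mul, ← map_mul, ← map_mul, ← map_mul]
    rfl
  rw [hN, map_mul, map_mul, map_mul, map_mul, (TU.g1_val_one P).2 (c2_unit_not P ε), (TU.g1_val_one P).2 (H.prod_not (H.two_not h2)), one_mul, mul_one,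
    (TU.g1_val_one P).2 (c2_not_if j h4), mul_one, (TU.g1_val_one P).2 hr, mul_one]
  exact c2_val_if i h5

theorem DK.dlt_ne : (dlt D s T z ε i j : M) ≠ 0 := by
  intro h0
  obtain ⟨x, hx, h⟩ := H.dlt_eq
  rw [h0, mul_zero] at h
  exact H.ne h

omit H in
/-- the Neron factor at one prime above `2` -/
theorem c5_neron {P : HeightOneSpectrum (𝓞 M)} (h2 : (2 : 𝓞 M) ∈ P.asIdeal) (h22 : (2 : 𝓞 M) ∉ P.asIdeal ^ 2) {u δ : M} (hu : u ≠ 0) (hδ0 : δ ≠ 0)
    {R : Prop} {b : Bool} (hU : Ur P δ ↔ ¬ R) (hb : b = true → R)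
    (hδ : P.valuation M δ = if b then WithZero.exp (-1 : ℤ) else 1)
    (hv2 : P.valuation M (2 : M) = WithZero.exp (-1 : ℤ))
    (hvu : P.valuation M u = if R then 1 else WithZero.exp (-1 : ℤ)) :
    SBSD.neron ((⟨Units.mk0 u hu, 0, 0, 0⟩ : WeierstrassCurve.VariableChange M) • Ws δ) P = 1 := by
  have hΔ : (Ws δ).Δ ≠ 0 := by
    have hMδ : (0 : M) ^ 2 + 4 * (δ / 4) = δ := by ring
    obtain ⟨C2, hC2, hu2⟩ := Wc_eq_Ws (0 : M) (δ / 4)
    rw [hMδ] at hC2
    intro h0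
    have h1 : (TT.Wc (0 : M) (δ / 4)).Δ ≠ 0 := by
      rw [TT.Wc_Δ]
      refine mul_ne_zero (by norm_num) (pow_ne_zero _ ?_)
      rw [hMδ]
      exact hδ0
    apply h1
    rw [hC2, WeierstrassCurve.variableChange_Δ, h0, mul_zero]
  rw [neron_smul _ hΔ]
  change ‖algebraMap M (P.adicCompletion M) u‖ * _ = 1
  by_cases hR : R
  · rw [if_pos hR] at hvu
    have h1 := c4_norm_eq (v := P) (x := u) (y := 1) (by rw [hvu, map_one])
    rw [h1, map_one, norm_one, one_mul]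
    refine TRX2.neron_ram P h2 h22 ?_ (fun h => hU.1 h hR)
    rw [hδ]
    split_ifs
    · exact Or.inr rfl
    · exact Or.inl rfl
  · rw [if_neg hR] at hvu
    have h1 := c4_norm_eq (v := P) (x := u) (y := 2) (by rw [hvu, hv2])
    rw [h1]
    refine c4_neron_ur h2 ?_ (hU.2 hR)
    rw [hδ, if_neg (fun h => hR (hb h))]

theorem DK.neron_one (hD : Od2 D) {P : HeightOneSpectrum (𝓞 M)} (h2 : (2 : 𝓞 M) ∈ P.asIdeal) :
    SBSD.neron ((⟨Units.mk0 (uK D s (Rm (cd D s T z ε) i) (Rm (ε : 𝓞 L) j) : M) (uK_ne s _ _), 0, 0, 0⟩ : WeierstrassCurve.VariableChange M) •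
      Ws (dlt D s T z ε i j : M)) P = 1 := by
  obtain ⟨x, hx, hd⟩ := H.dlt_eq
  rcases c1_or hD s h2 with h | h
  · refine c5_neron (b := j) (R := Rm (ε : 𝓞 L) j) h2 (c1_two_not hD h) _ H.dlt_ne ?_ (fun h => Or.inl h) (H.dlt_val_p2 hD h) (c1_val2 hD h)
      (uK_val_p2 hD h _ _)
    rw [← H.ur_p2 h hD]
    conv_rhs => rw [hd]
    rw [ur_sq_mul hx]
  · have h1 := h
    rw [c2_p2_not] at h1
    refine c5_neron (b := i) (R := Rm (cd D s T z ε) i) h2 (c1_two_not hD h) _ H.dlt_ne ?_ (fun h => Or.inl h) (H.dlt_val_p1 hD h1) (c1_val2 hD h)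
      (uK_val_p1 hD h1 _ _)
    rw [← H.ur_p1 h1 hD]
    conv_rhs => rw [hd]
    rw [ur_sq_mul hx]

end

end TRZ
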