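import Pool.Agent.TRZ.CLD

/-! # [ALL2-FE, CL1] the class of the curves of the final statement, at most one exceptional prime above `2`: definition -/

set_option autoImplicit false

open NumberField IsDedekindDomain
open scoped Classical

namespace XTB

/-- `E` is an elliptic curve over `K` with `j`-invariant `-3375` without rational points of order `4`, and there is a prime ideal `P` above
`2` such that `E` has bad reduction at `P` or is isomorphic to `X₀(49) : y² + x y = x³ - x² - 2 x - 1` over the completion at `P` -/
structure GenOne {K : Type} [Field K] [NumberField K] (E : WeierstrassCurve K) : Prop where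
  j_eq : ∃ _ : E.IsElliptic, E.j = -3375
  two : ∃ P : HeightOneSpectrum (𝓞 K), (2 : 𝓞 K) ∈ P.asIdeal ∧ (XTS.GoodReduction E P →
    ∃ C : WeierstrassCurve.VariableChange (P.adicCompletion K),
      C • E.map (algebraMap K (P.adicCompletion K)) = ⟨1, -1, 0, -2, -1⟩)
  tors : ¬ ∃ P : E.toAffine.Point, addOrderOf P = 4

end XTB
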