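import Pool.Agent.TRZ.FD14

/-! # [FE-FD15] the exact proportion of the curves with at most one exceptional prime above `2` -/

set_option autoImplicit false

open NumberField Ideal IsDedekindDomain Filter Topology
open scoped Real Classical ComplexConjugate
open TR TRG TTS TU TT XTB TRP

namespace TRZ

section
variable {P : Type}

theorem cnt_mono (B : TRQ.Base P) {x : ℝ} {Q Q' : Finset P → Prop} (h : ∀ S, Q S → Q' S) : cnt B x Q ≤ cnt B x Q' := by
  unfold cnt
  refine Finset.card_le_card fun T hT => ?_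
  rw [Finset.mem_filter] at hT ⊢
  exact ⟨hT.1, h T hT.2⟩

theorem cnt_empty (B : TRQ.Base P) {x : ℝ} {Q Q' : Finset P → Prop} (h : ∀ S, Q S → Q' S ∨ S = ∅) :
    cnt B x Q ≤ cnt B x Q' + 1 := by
  unfold cnt
  refine (Finset.card_le_card (t := ((B.sb x).filter Q') ∪ {∅}) ?_).trans ((Finset.card_union_le _ _).trans ?_)
  · intro T hT
    rw [Finset.mem_filter] at hT
    rw [Finset.mem_union, Finset.mem_filter, Finset.mem_singleton]
    rcases h T hT.2 with h8 | h8
    · exact Or.inl ⟨hT.1, h8⟩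
    · exact Or.inr h8
  · rw [Finset.card_singleton]

end

section
variable {L M : Type} [Field L] [NumberField L] [Field M] [NumberField M] [Algebra L M]
  [IsTotallyReal L] {D : Dat L M} (hD : Od2 D)
variable {z : HeightOneSpectrum (𝓞 M) → 𝓞 M} (hz : ∀ P, (2 : 𝓞 M) ∉ P.asIdeal → NG D true P (z P))

include hD hz in
/-- the local condition at `ϖ'` -/
theorem pm_key1 (f : FI M) (T : Finset (OP M)) :
    ¬ Nsq D true (dl D true z f T) ↔ (pm D (f, csz D true z T)).1 = (false, 0, 0) := by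
  have H := dl_DK' hz f T
  have hd := dl_ne hD hz f T
  unfold pm
  simp only [Prod.mk.injEq]
  rw [← and_assoc, ← rm1 hD]
  constructor
  · intro h
    have h1 : ¬ Rm (ue D f.1 : 𝓞 L) f.2.2 := by
      unfold Nsq at h
      push Not at h
      obtain ⟨P, hP, h2⟩ := h
      rw [← H.ur_p2 hP hD, ← sg_ur_dr hD hP]
      exact (TRX.Sq_of_isSquare P (mul_ne_zero hd (c2_rs7_ne true)) h2).ur
    refine ⟨h1, ?_⟩
    have h2 := (DK.nsq hD H h1).2
    rw [sum_nv hD hz T] at h2
    rw [h2] at h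
    exact (z2_ne _).1 h
  · rintro ⟨h1, h3⟩
    have h2 := (DK.nsq hD H h1).2
    rw [sum_nv hD hz T] at h2
    rw [h2]
    exact (z2_ne _).2 h3

include hD hz in
/-- the local condition at `ϖ` -/
theorem pm_key2 (f : FI M) (T : Finset (OP M)) :
    ¬ Nsq D false (dl D true z f T) ↔ (pm D (f, csz D true z T)).2 = (false, 0, 0) := by
  have H := dl_DK' hz f T
  have hd := dl_ne hD hz f T
  unfold pm
  simp only [Prod.mk.injEq]
  rw [← and_assoc, ← rm2 hD hz]
  constructor
  · intro h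
    have h1 : ¬ Rm (cd D true (mp T) z (ue D f.1)) f.2.1 := by
      unfold Nsq at h
      push Not at h
      obtain ⟨P, hP, h2⟩ := h
      rw [← H.ur_p1 hP hD, ← sg_ur_dr (s := false) hD hP]
      exact (TRX.Sq_of_isSquare P (mul_ne_zero hd (c2_rs7_ne false)) h2).ur
    refine ⟨h1, ?_⟩
    have h2 := (DK.nsq' hD H h1).2
    rw [sum_nu hD hz T] at h2
    have h4 : ¬ Nsq D (!true) (dl D true z f T) := h
    rw [h2] at h4
    exact (z2_ne _).1 h4
  · rintro ⟨h1, h3⟩
    have h2 := (DK.nsq' hD H h1).2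
    rw [sum_nu hD hz T] at h2
    change ¬ Nsq D (!true) (dl D true z f T)
    rw [h2]
    exact (z2_ne _).2 h3

/-- the types with at least one non-exceptional prime above `2` -/
noncomputable def oneS (D : Dat L M) : Finset (FI M × G8 D true) :=
  Finset.univ.filter fun p => ¬ ((pm D p).1 = (false, 0, 0) ∧ (pm D p).2 = (false, 0, 0))

include hD hz in
theorem oneS_iff (f : FI M) (T : Finset (OP M)) :
    (f, csz D true z T) ∈ oneS D ↔ ∃ s, Nsq D s (dl D true z f T) := by
  unfold oneS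
  rw [Finset.mem_filter, and_iff_right (Finset.mem_univ _), ← pm_key1 hD hz, ← pm_key2 hD hz]
  constructor
  · intro h
    by_contra hcon
    push Not at hcon
    exact h ⟨hcon true, hcon false⟩
  · rintro ⟨s, hs⟩ ⟨h1, h2⟩
    cases s
    · exact h2 hs
    · exact h1 hs

include hz in
/-- the squares occur only for the empty set -/
theorem dl_sq_empty {f : FI M} {T : Finset (OP M)} {s : Bool} (h : IsSquare (dl D true z f T * (rs7 D s : M))) : T = ∅ := by
  have H := dl_DK' hz f T
  by_contra hT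
  obtain ⟨v, hv⟩ := Finset.nonempty_iff_ne_empty.2 hT
  have h1 : v.1 ∈ mp T := Finset.mem_map.2 ⟨v, hv, rfl⟩
  have h2 := (H.mem_iff v.2).1 h1
  apply h2
  obtain ⟨y, hy⟩ := h
  refine ⟨v.1.valuation M y, ?_⟩
  rw [← map_mul, ← hy]
  exact (c2_val_rs7 (D := D) s v.1 _).symm

include hD in
theorem bij_sum (F : LQ L → LQ L → ℝ) : ∑ p : FI M × G8 D true, F (pm D p).1 (pm D p).2 = ∑ x : LQ L, ∑ y : LQ L, F x y := by
  rw [← Fintype.sum_prod_type' (f := F)]
  exact Fintype.sum_bijective (pm D) (pm_bij hD) _ _ fun _ => rfl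

variable (hex : ∀ c : G8 D true, ∃ T : Finset (OP M), csz D true z T = c)

include hD hz hex in
/-- the weight of the types with at least one non-exceptional prime -/
theorem sum_one : ∑ p ∈ oneS D, (1 : ℝ) / betaC hD true z p.1 p.2 = WL2 L ^ 2 - 1 := by
  have h0 : ∀ p : FI M × G8 D true, (if p ∈ oneS D then (1 : ℝ) / betaC hD true z p.1 p.2 else 0) =
      (1 : ℝ) / betaC hD true z p.1 p.2 -
        (if (pm D p).1 = (false, 0, 0) then 1 else 0) * (if (pm D p).2 = (false, 0, 0) then 1 else 0) := by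
    intro p
    rw [beta_pm hD hz hex]
    have hp : p ∈ oneS D ↔ ¬ ((pm D p).1 = (false, 0, 0) ∧ (pm D p).2 = (false, 0, 0)) := by
      unfold oneS
      rw [Finset.mem_filter, and_iff_right (Finset.mem_univ _)]
    by_cases h1 : (pm D p).1 = (false, 0, 0)
    · by_cases h2 : (pm D p).2 = (false, 0, 0)
      · rw [if_neg fun h => hp.1 h ⟨h1, h2⟩, if_pos h1, if_pos h2, h1, h2]
        unfold phw
        simp
      · rw [if_pos (hp.2 fun h => h2 h.2), if_neg h2, mul_zero, sub_zero]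
    · rw [if_pos (hp.2 fun h => h1 h.1), if_neg h1, zero_mul, sub_zero]
  have h5 : ∑ p ∈ oneS D, (1 : ℝ) / betaC hD true z p.1 p.2 =
      ∑ p : FI M × G8 D true, if p ∈ oneS D then (1 : ℝ) / betaC hD true z p.1 p.2 else 0 := by
    rw [← Finset.sum_filter, Finset.filter_mem_eq_inter, Finset.univ_inter]
  rw [h5, Finset.sum_congr rfl fun p _ => h0 p, Finset.sum_sub_distrib, sum_all hD hz hex,
    bij_sum hD fun x y => (if x = (false, 0, 0) then (1 : ℝ) else 0) * (if y = (false, 0, 0) then 1 else 0)]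
  have h6 : ∑ x : LQ L, (if x = (false, 0, 0) then (1 : ℝ) else 0) = 1 := by
    rw [Finset.sum_ite_eq' Finset.univ ((false, 0, 0) : LQ L), if_pos (Finset.mem_univ _)]
  have h7 : ∑ x : LQ L, ∑ y : LQ L, (if x = (false, 0, 0) then (1 : ℝ) else 0) * (if y = (false, 0, 0) then 1 else 0) = 1 := by
    rw [← Finset.sum_mul_sum, h6, one_mul]
  rw [h7]

include hD in
/-- **the number of the curves in a union of types**, up to the empty set -/
theorem exists_kapR : ∃ (z : HeightOneSpectrum (𝓞 M) → 𝓞 M) (kap : ℝ), (∀ P, (2 : 𝓞 M) ∉ P.asIdeal → NG D true P (z P)) ∧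
    0 < kap ∧ (∀ c : G8 D true, ∃ T : Finset (OP M), csz D true z T = c) ∧
    ∀ (Q : WeierstrassCurve M → Prop) (A : Finset (FI M × G8 D true)) (R : FI M → Finset (OP M) → Prop),
      (∀ f T, ¬ R f T → T = ∅) →
      (∀ (f : FI M) (T : Finset (OP M)) (C : WeierstrassCurve.VariableChange M),
        Q (C • Ws (dl D true z f T)) ↔ (f, csz D true z T) ∈ A ∧ R f T) →
      (∀ X : ℕ, (cmFamily M X Q).Finite) ∧
      Tendsto (fun X : ℕ => ((cmFamily M X Q).ncard : ℝ) / X) atTop (𝓝 (kap * ∑ p ∈ A, (1 : ℝ) / betaC hD true z p.1 p.2)) := by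
  obtain ⟨z, hz⟩ : ∃ z : HeightOneSpectrum (𝓞 M) → 𝓞 M, ∀ P, (2 : 𝓞 M) ∉ P.asIdeal → NG D true P (z P) := by
    have h : ∀ P : HeightOneSpectrum (𝓞 M), (2 : 𝓞 M) ∉ P.asIdeal → ∃ q, NG D true P q :=
      fun P hP => exists_NG hD true hP
    choose! z hz using h
    exact ⟨z, hz⟩
  obtain ⟨om, hsy, hom, hom0, hps⟩ := exists_om hD true
  obtain ⟨B, hN, hw, hc, hBom⟩ := exists_dsys hD true hz om hsy fun P Q hPQ hP hQ =>
    hom z P Q hPQ hP hQ (hz P hP) (hz Q hQ)
  obtain ⟨kap, hkap, hlim⟩ := sb_cls hD true hz B hN hc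
  refine ⟨z, kap, hz, hkap, fun c => ?_, fun Q A R hR hQ => ?_⟩
  · obtain ⟨R, -, hR⟩ := TRPA.exists_set B ∅ c
    exact ⟨R, by rw [← fd_cs_eq B hc]; exact hR⟩
  · have h1 := fun X => fam_sum hD hz (B := B.toBase) hN X Q A R hQ
    refine ⟨fun X => (h1 X).1, ?_⟩
    rw [Finset.mul_sum]
    have h2 : ∀ p ∈ A, Tendsto (fun X : ℕ => (cnt B.toBase ((X : ℝ) / betaC hD true z p.1 p.2) (fun T =>
        csz D true z T = p.2 ∧ R p.1 T) : ℝ) / X) atTop (𝓝 (kap * (1 / betaC hD true z p.1 p.2))) := by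
      intro p _
      have hb : (0 : ℝ) < betaC hD true z p.1 p.2 := by exact_mod_cast betaC_pos hD p.1 p.2
      have h3 := ((hlim p.2).comp (div_tend (betaC hD true z p.1 p.2) (betaC_pos hD p.1 p.2))).mul_const
        (1 / (betaC hD true z p.1 p.2 : ℝ))
      have h4 : Tendsto (fun X : ℕ => (cnt B.toBase ((X : ℝ) / betaC hD true z p.1 p.2) (fun T =>
          csz D true z T = p.2 ∧ True) : ℝ) / X) atTop (𝓝 (kap * (1 / betaC hD true z p.1 p.2))) := by
        refine h3.congr' ?_
        filter_upwards [eventually_gt_atTop 0] with X hX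
        have hX' : (0 : ℝ) < X := by exact_mod_cast hX
        simp only [Function.comp]
        rw [cnt_eq B.toBase _ (fun S => B.cs S = p.2), cnt_congr B.toBase (Q' := fun T => csz D true z T = p.2 ∧ True)
          (fun T => by rw [fd_cs_eq B hc, and_true])]
        field_simp
      have h5 : Tendsto (fun X : ℕ => (1 : ℝ) / X) atTop (𝓝 0) := tendsto_one_div_atTop_nhds_zero_nat
      have h6 := h4.sub h5
      rw [sub_zero] at h6
      refine tendsto_of_tendsto_of_tendsto_of_le_of_le h6 h4 (fun X => ?_) (fun X => ?_)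
      · rw [← sub_div]
        refine div_le_div_of_nonneg_right ?_ (Nat.cast_nonneg X)
        rw [sub_le_iff_le_add]
        have h7 := cnt_empty B.toBase (x := (X : ℝ) / betaC hD true z p.1 p.2) (Q := fun T => csz D true z T = p.2 ∧ True)
          (Q' := fun T => csz D true z T = p.2 ∧ R p.1 T) (fun T hT => by
            by_cases h8 : R p.1 T
            · exact Or.inl ⟨hT.1, h8⟩
            · exact Or.inr (hR _ _ h8))
        have h8 := (Nat.cast_le (α := ℝ)).2 h7
        rwa [Nat.cast_add, Nat.cast_one] at h8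
      · refine div_le_div_of_nonneg_right ?_ (Nat.cast_nonneg X)
        exact (Nat.cast_le (α := ℝ)).2 (cnt_mono B.toBase fun T hT => ⟨hT.1, trivial⟩)
    refine (tendsto_finsetSum A h2).congr fun X => ?_
    rw [(h1 X).2]
    push_cast
    rw [Finset.sum_div]

include hD in
/-- **[FE] the exact proportion of the curves with at most one exceptional prime among all curves with `j = -3375`** -/
theorem fe_prop {Al : WeierstrassCurve M → Prop}
    (hAl : ∀ d : M, d ≠ 0 → ∀ C : WeierstrassCurve.VariableChange M,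
      Al (C • Ws d) ↔ (∃ s, Nsq D s d) ∧ ∀ s, ¬ IsSquare (d * (rs7 D s : M))) :
    (∀ X : ℕ, (cmFamily M X fun _ => True).Finite) ∧
    Tendsto (fun X : ℕ => ((cmFamily M X Al).ncard : ℝ) / ((cmFamily M X fun _ => True).ncard : ℝ)) atTop
      (𝓝 (1 - 1 / (6 - 2 / 2 ^ Module.finrank ℚ L) ^ 2)) := by
  obtain ⟨z, kap, hz, hkap, hex, H⟩ := exists_kapR hD
  have h1 := H (fun _ => True) Finset.univ (fun _ _ => True) (fun _ _ h => absurd trivial h)
    (fun _ _ _ => ⟨fun _ => ⟨Finset.mem_univ _, trivial⟩, fun _ => trivial⟩)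
  have h2 := H Al (oneS D) (fun f T => ∀ s, ¬ IsSquare (dl D true z f T * (rs7 D s : M)))
    (fun f T h => by
      push Not at h
      obtain ⟨s, hs⟩ := h
      exact dl_sq_empty hz hs)
    (fun f T C => by rw [hAl _ (dl_ne hD hz f T) C, oneS_iff hD hz])
  rw [sum_all hD hz hex] at h1
  rw [sum_one hD hz hex] at h2
  refine ⟨h1.1, ?_⟩
  have hW := WL2_ge (L := L)
  have h3 := h2.2.div h1.2 (by positivity)
  have h4 : kap * (WL2 L ^ 2 - 1) / (kap * WL2 L ^ 2) = 1 - 1 / (6 - 2 / 2 ^ Module.finrank ℚ L) ^ 2 := by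
    have h5 : (6 - 2 / 2 ^ Module.finrank ℚ L : ℝ) = WL2 L := rfl
    rw [h5]
    have hW0 : WL2 L ≠ 0 := by linarith
    field_simp
  rw [h4] at h3
  refine h3.congr' ?_
  filter_upwards [eventually_gt_atTop 0] with X hX
  have hX' : (0 : ℝ) < X := by exact_mod_cast hX
  simp only [Pi.div_apply]
  rw [div_div_div_cancel_right₀ hX'.ne']

end

end TRZ
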