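import Pool.Agent.TRZ.CL2D
import Pool.Agent.TRZ.A8c
import Pool.Agent.TRZ.FD15

/-! # [ALL2-FE, CL2] BSD modulo 2 and the proportion for the curves with at most one exceptional prime above `2` -/

set_option autoImplicit false
set_option linter.unusedSectionVars false

open NumberField Ideal IsDedekindDomain Filter Topology
open scoped Real Classical ComplexConjugate
open TR TRG TRP TTS TU TT XTB

namespace TRZ

section
variable {L M : Type} [Field L] [NumberField L] [Field M] [NumberField M] [Algebra L M]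
  [IsTotallyReal L] {D : Dat L M} (hD : Od2 D)
include hD

/-- [CL2] the class of the curves with at most one exceptional prime above `2` -/
theorem cl2_iff {d : M} (hd : d ≠ 0) (C : WeierstrassCurve.VariableChange M) :
    GenEx (C • Ws d) ↔ ∃ s : Bool, Nsq D s d := by
  have hW : ∀ P : HeightOneSpectrum (𝓞 M), (TT.Wc 1 0 : WeierstrassCurve (P.adicCompletion M)) = ⟨1, -1, 0, -2, -1⟩ := by
    intro P
    ext <;> simp [TT.Wc]
  -- the condition at one prime
  have hone : ∀ {s : Bool} {P : HeightOneSpectrum (𝓞 M)}, p2 D s ∈ P.asIdeal → ((XTS.GoodReduction (C • Ws d) P →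
      ∃ C1 : WeierstrassCurve.VariableChange (P.adicCompletion M),
        C1 • (C • Ws d).map (algebraMap M (P.adicCompletion M)) = ⟨1, -1, 0, -2, -1⟩) ↔ Nsq D s d) := by
    intro s P hP
    have h2 := c1_mem_two hP
    have h1 : Nsq D s d ↔ ¬ IsSquare (algebraMap M (P.adicCompletion M) (d * (rs7 D s : M))) := by
      constructor
      · intro h
        exact h P hP
      · intro h Q hQ
        have hPQ : Q = P := HeightOneSpectrum.ext ((c1_ideal hD hQ).trans (c1_ideal hD hP).symm)
        rw [hPQ]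
        exact h
    rw [h1, cl_loc hD hd hP]
    constructor
    · intro h hU
      obtain ⟨C1, hC1⟩ := h ((good_two h2 hd C).2 hU)
      rw [← hW P] at hC1
      exact (cl_iso hd C P).1 ⟨C1, hC1⟩
    · intro h hg
      rw [← hW P]
      exact (cl_iso hd C P).2 (h ((good_two h2 hd C).1 hg))
  constructor
  · intro h
    obtain ⟨P, h2, hP⟩ := h.two
    rcases c1_or hD true h2 with hP1 | hP1
    · exact ⟨true, (hone hP1).1 hP⟩
    · exact ⟨!true, (hone hP1).1 hP⟩
  · rintro ⟨s, hs⟩
    have hP0 : p2 D s ∈ (bl_V hD (!s)).asIdeal := Ideal.mem_span_singleton_self _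
    exact ⟨nf3_j hd C, ⟨_, c1_mem_two hP0, (hone hP0).2 hs⟩⟩

/-- **BSD modulo 2 for the curves with at most one exceptional prime above `2`** -/
theorem genEx_modTwo {E : WeierstrassCurve M} (hE : GenEx E) : TRB.ModTwo E := by
  obtain ⟨hell, hj⟩ := hE.j_eq
  obtain ⟨d, C, C', hd, hC, hC'⟩ := exists_Ws E hj
  obtain ⟨Ψ⟩ := D.exists_psi
  refine modTwo_one hD Ψ hd ?_ hC hC'
  rw [← cl2_iff hD hd C, ← hC]
  exact hE

/-- the proportion, `Al` the curves with at most one exceptional prime above `2` -/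
theorem fe_prop2 {Al : WeierstrassCurve M → Prop}
    (hAl : ∀ d : M, d ≠ 0 → ∀ C : WeierstrassCurve.VariableChange M, Al (C • Ws d) ↔ ∃ s, Nsq D s d) :
    (∀ X : ℕ, (cmFamily M X fun _ => True).Finite) ∧
    Tendsto (fun X : ℕ => ((cmFamily M X Al).ncard : ℝ) / ((cmFamily M X fun _ => True).ncard : ℝ)) atTop
      (𝓝 (1 - 1 / (6 - 2 / 2 ^ Module.finrank ℚ L) ^ 2)) := by
  obtain ⟨z, kap, hz, hkap, hex, H⟩ := exists_kapR hD
  have h1 := H (fun _ => True) Finset.univ (fun _ _ => True) (fun _ _ h => absurd trivial h)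
    (fun _ _ _ => ⟨fun _ => ⟨Finset.mem_univ _, trivial⟩, fun _ => trivial⟩)
  have h2 := H Al (oneS D) (fun _ _ => True) (fun _ _ h => absurd trivial h)
    (fun f T C => by rw [hAl _ (dl_ne hD hz f T) C, oneS_iff hD hz, and_iff_left trivial])
  rw [sum_all hD hz hex] at h1
  rw [sum_one hD hz hex] at h2
  refine ⟨h1.1, ?_⟩
  have hW := WL2_ge (L := L)
  have h3 := h2.2.div h1.2 (by positivity)
  have h4 : kap * (WL2 L ^ 2 - 1) / (kap * WL2 L ^ 2) = 1 - 1 / (6 - 2 / 2 ^ Module.finrank ℚ L) ^ 2 := by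
    have h5 : (6 - 2 / 2 ^ Module.finrank ℚ L : ℝ) = WL2 L := rfl
    rw [h5]
    have hW0 : WL2 L ≠ 0 := by linarith
    field_simp
  rw [h4] at h3
  refine h3.congr' ?_
  filter_upwards [eventually_gt_atTop 0] with X hX
  have hX' : (0 : ℝ) < X := by exact_mod_cast hX
  simp only [Pi.div_apply]
  rw [div_div_div_cancel_right₀ hX'.ne']

/-- the proportion of the curves with at most one exceptional prime above `2` -/
theorem genEx_prop : (∀ X : ℕ, (cmFamily M X fun _ => True).Finite) ∧
    Tendsto (fun X : ℕ => ((cmFamily M X GenEx).ncard : ℝ) / ((cmFamily M X fun _ => True).ncard : ℝ)) atTop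
      (𝓝 (1 - 1 / (6 - 2 / 2 ^ Module.finrank ℚ L) ^ 2)) :=
  fe_prop2 hD fun _ hd C => cl2_iff hD hd C

end

end TRZ
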