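import Pool.Agent.TRP.FamD
import Pool.Agent.TRZ.CLD

/-! # [ALL2-CRIT] the criterion for the curves of the final statement: definitions -/

set_option autoImplicit false

open NumberField IsDedekindDomain
open scoped Classical

namespace XTB

section
variable {K : Type} [Field K] [NumberField K]

/-- The matrix modulo `2` whose rows and columns are indexed by the `P ∈ T`. Let `[a / P]` be `0` if `a` is a square modulo `P`, otherwise
`1`. The entry for `P ≠ Q` is `[p Q / P] + [(w - 1) / P] [-w / Q]`, that for `P = Q` is the sum of `∑ S ∈ T \ {P}, [p S / P]`,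
`[κ / P]` and `[(w - 1) / P] [-w / P]`. -/
noncomputable def tmat (T : Finset (HeightOneSpectrum (𝓞 K))) (p : HeightOneSpectrum (𝓞 K) → 𝓞 K) (w κ : 𝓞 K) : Matrix T T (ZMod 2) :=
  fun P Q => (if P = Q then ∑ S ∈ T.erase P, edge P (p S) + edge P κ else edge P (p Q)) + edge P (w - 1) * edge Q (-w)

/-- Let `w ^ 2 = w - 2`. `E` is isomorphic to `y² = x³ - 35 d² x - 98 d³` (the quadratic twist of `X₀(49)` by `d`), `T` is a set of prime
ideals which do not divide `2`, `p P` is a generator of an odd power of `P ∈ T` and a square modulo `w ^ 2`, and, up to squares of nonzero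
elements, `d (1 - 2 w)` is the product of the `p P`, `P ∈ T`, and of `κ`, the product of a unit and of powers of `w - 1` and `-w` (the two
prime divisors of `2`) with exponents `0` or `1`. -/
structure Twist (E : WeierstrassCurve K) (w κ : 𝓞 K) (T : Finset (HeightOneSpectrum (𝓞 K)))
    (p : HeightOneSpectrum (𝓞 K) → 𝓞 K) : Prop where
  odd : ∀ P ∈ T, (2 : 𝓞 K) ∉ P.asIdeal
  nrm : ∀ P ∈ T, Normalised w P (p P)
  unit : ∃ (u : (𝓞 K)ˣ) (i j : Bool), κ = u * (if i then w - 1 else 1) * (if j then -w else 1)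
  eq : ∃ (d y : K) (C : WeierstrassCurve.VariableChange K), d ≠ 0 ∧ y ≠ 0 ∧ C • E = ⟨0, 0, 0, -35 * d ^ 2, -98 * d ^ 3⟩ ∧
    d * (1 - 2 * (w : K)) = ((κ * ∏ P ∈ T, p P : 𝓞 K) : K) * y ^ 2

end

end XTB
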