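import Pool.Agent.TRZ.Defs2
import Pool.Agent.TRP.AN
import Pool.Agent.TRP.VAL
import Pool.Agent.TRG.Z2
import Pool.Agent.TRH.H8

/-! # [ALL2-FIN] the numerical part of the final assembly -/

set_option autoImplicit false
set_option linter.unusedSectionVars false

open NumberField Ideal IsDedekindDomain
open scoped Real Classical ComplexConjugate
open TR TRG TRP TTS TU TT CM27 CMT GE

namespace TRZ

/-- equality of valuations for the conjugate valuation ring -/
theorem f1_comap (V : ValuationSubring ℂ) (x y : ℂ) :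
    (V.comap (starRingEnd ℂ)).valuation x = (V.comap (starRingEnd ℂ)).valuation y ↔
      V.valuation (conj x) = V.valuation (conj y) := by
  have h : ∀ a b : ℂ, (V.comap (starRingEnd ℂ)).valuation a ≤ (V.comap (starRingEnd ℂ)).valuation b ↔
      V.valuation (conj a) ≤ V.valuation (conj b) := by
    intro a b
    rw [ValuationSubring.valuation_le_iff, ValuationSubring.valuation_le_iff]
    constructor
    · rintro ⟨c, hc⟩
      refine ⟨⟨conj (c : ℂ), ?_⟩, ?_⟩
      · exact ValuationSubring.mem_comap.1 c.2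
      · rw [← hc, map_mul]
    · rintro ⟨c, hc⟩
      refine ⟨⟨conj (c : ℂ), ?_⟩, ?_⟩
      · rw [ValuationSubring.mem_comap, Complex.conj_conj]
        exact c.2
      · have h1 := congrArg (starRingEnd ℂ) hc
        rw [map_mul, Complex.conj_conj, Complex.conj_conj] at h1
        exact h1
  rw [le_antisymm_iff, h, h, ← le_antisymm_iff]

theorem f1_zl (a : ZMod 2) : conj (zl a) = zl a := by
  unfold zl
  split_ifs
  · exact map_zero _
  · exact map_one _

theorem f1_side {V : ValuationSubring ℂ} (h2 : V.valuation 2 < 1) : ∃ s : Bool, V.valuation (c1 s) < 1 := by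
  by_contra h
  push Not at h
  have h3 := z_mul true
  rw [← z_not] at h3
  rw [← h3, map_mul] at h2
  exact absurd h2 (not_lt.2 (one_le_mul (h _) (h _)))

section
variable {L : Type} [Field L] [NumberField L] [IsTotallyReal L]

theorem f1_val {V : ValuationSubring ℂ} (h2 : V.valuation 2 < 1) {κ : ℂ} (hκ : κ ^ 4 = E4f tau0 ^ Module.finrank ℚ L)
    (z1 : ℂ) :
    V.valuation (z1 * ((√|(discr L : ℝ)| : ℝ) : ℂ) / ((TRS.Om : ℝ) : ℂ) ^ Module.finrank ℚ L) *
        V.valuation 2 ^ Module.finrank ℚ L = V.valuation (z1 / (KL L * κ)) := by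
  have h1 := TRH.h8_val h2 hκ z1 0
  have ha : V.valuation (2 : ℂ) ≠ 0 := by
    rw [Ne, map_eq_zero]
    exact two_ne_zero
  have h3 := va_one (cn_kl (L := L) h2)
  rw [map_div₀, map_div₀, map_mul, map_pow] at h3
  rw [pow_zero, div_one, pow_zero, mul_one, map_div₀ V.valuation z1, map_mul V.valuation ((Cn L : ℝ) : ℂ)] at h1
  have hk : V.valuation (KL L) ≠ 0 := by
    rw [Ne, map_eq_zero]
    exact KL_ne L
  have h4 : V.valuation (Cn L : ℂ) = V.valuation 2 ^ Module.finrank ℚ L * V.valuation (KL L) / V.valuation 2 := by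
    rwa [div_eq_one_iff_eq (div_ne_zero (mul_ne_zero (pow_ne_zero _ ha) hk) ha)] at h3
  rw [h4] at h1
  rw [map_div₀ (V.valuation) z1, map_mul]
  have hκ0 : V.valuation κ ≠ 0 := by
    rw [Ne, map_eq_zero]
    rintro rfl
    rw [zero_pow (by norm_num)] at hκ
    exact pow_ne_zero _ E4f_ne hκ.symm
  have ha' : V.valuation (2 : ℂ) ^ Module.finrank ℚ L ≠ 0 := pow_ne_zero _ ha
  generalize V.valuation (2 : ℂ) ^ Module.finrank ℚ L = A at h1 ha' ⊢
  generalize V.valuation (z1 * ((√|(discr L : ℝ)| : ℝ) : ℂ) / ((TRS.Om : ℝ) : ℂ) ^ Module.finrank ℚ L) = X at h1 ⊢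
  generalize V.valuation (2 : ℂ) = B at h1 ha
  generalize V.valuation (KL L) = K at h1 hk ⊢
  generalize V.valuation κ = K' at h1 hκ0 ⊢
  generalize V.valuation z1 = Z at h1 ⊢
  field_simp at h1 ⊢
  exact h1

end

end TRZ
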