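import Pool.Agent.TRZ.Defs
import Pool.Agent.TRP.FM3

/-! # [ALL2-FD1] all `d ∈ M` up to squares: `d √-7 = u (-ϖ)^i (-ϖ')^j ∏ z P` -/

set_option autoImplicit false

open NumberField Ideal IsDedekindDomain Filter Topology
open scoped Real Classical ComplexConjugate
open TR TRG TTS TU TT XTB TRP

namespace TRZ

section
variable {L M : Type} [Field L] [NumberField L] [Field M] [NumberField M] [Algebra L M]
  [IsTotallyReal L] {D : Dat L M} (hD : Od2 D)

/-- the index set of the part above `2` -/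
abbrev FI (M : Type) [Field M] [NumberField M] : Type := FM1Q M × Bool × Bool

noncomputable instance : Fintype (FI M) := by
  have := fm1_finite_Q (M := M)
  exact Fintype.ofFinite _

/-- the part above `2` -/
noncomputable def kq (D : Dat L M) (s : Bool) (f : FI M) : 𝓞 M :=
  ((Quotient.out f.1 : (𝓞 M)ˣ) : 𝓞 M) * ((if f.2.1 then -p1 D s else 1) * (if f.2.2 then -p2 D s else 1))

/-- `d √-7`, integral -/
noncomputable def dx (D : Dat L M) (s : Bool) (z : HeightOneSpectrum (𝓞 M) → 𝓞 M) (f : FI M) (T : Finset (OP M)) : 𝓞 M :=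
  kq D s f * ∏ v ∈ T, z v.1

/-- `d` -/
noncomputable def dl (D : Dat L M) (s : Bool) (z : HeightOneSpectrum (𝓞 M) → 𝓞 M) (f : FI M) (T : Finset (OP M)) : M :=
  (dx D s z f T : M) / D.r

omit [NumberField M] in
theorem cmul (x y : 𝓞 M) : ((x * y : 𝓞 M) : M) = (x : M) * (y : M) := map_mul (algebraMap (𝓞 M) M) _ _

omit [NumberField M] in
theorem cpow (x : 𝓞 M) (n : ℕ) : ((x ^ n : 𝓞 M) : M) = (x : M) ^ n := map_pow (algebraMap (𝓞 M) M) _ _

omit [NumberField M] in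
theorem cone : ((1 : 𝓞 M) : M) = 1 := map_one (algebraMap (𝓞 M) M)

theorem r_ne (D : Dat L M) : D.r ≠ 0 := by
  rw [← bl_rr_r (D := D)]
  exact RingOfIntegers.coe_ne_zero_iff.2 bl_rr_ne

theorem dl_r (s : Bool) (z : HeightOneSpectrum (𝓞 M) → 𝓞 M) (f : FI M) (T : Finset (OP M)) :
    dl D s z f T * D.r = (dx D s z f T : M) := by
  unfold dl
  exact div_mul_cancel₀ _ (r_ne D)

theorem p1_ne (s : Bool) : p1 D s ≠ 0 := by
  intro h
  have h1 := p12 D s
  rw [h, zero_mul] at h1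
  exact two_ne_zero h1.symm

include hD

/-- the primes above `2` -/
theorem two_iff {P : HeightOneSpectrum (𝓞 M)} : (2 : 𝓞 M) ∈ P.asIdeal ↔ ∃ s, P = Vp hD s := by
  constructor
  · intro h
    rw [← p12 D true] at h
    have key : ∀ s, p1 D s ∈ P.asIdeal → P = Vp hD s := by
      intro s hs
      apply HeightOneSpectrum.ext
      symm
      refine (Vp hD s).isMaximal.eq_of_le P.isPrime.ne_top ?_
      exact (Ideal.span_singleton_le_iff_mem _).2 hs
    rcases P.isPrime.mem_or_mem h with h1 | h1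
    · exact ⟨true, key true h1⟩
    · exact ⟨false, key false h1⟩
  · rintro ⟨s, rfl⟩
    exact Vp_two hD s

theorem Vp_ne (s : Bool) : Vp hD s ≠ Vp hD (!s) := by
  intro h
  have h1 : p1 D s ∈ (Vp hD s).asIdeal := Ideal.mem_span_singleton_self _
  have h2 : p2 D s ∈ (Vp hD s).asIdeal := by
    rw [h]
    exact Ideal.mem_span_singleton_self _
  apply (Vp hD s).isPrime.ne_top
  rw [Ideal.eq_top_iff_one, ← p12_add D s]
  exact add_mem h1 h2

theorem val_p1 (s : Bool) (P : HeightOneSpectrum (𝓞 M)) :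
    IsSquare (P.valuation M ((-p1 D s : 𝓞 M) : M)) ↔ P ≠ Vp hD s := by
  refine ad1_val (k := 1) odd_one ?_
  rw [pow_one, Ideal.span_singleton_neg]
  rfl

theorem val_p2 (s : Bool) (P : HeightOneSpectrum (𝓞 M)) :
    IsSquare (P.valuation M ((-p2 D s : 𝓞 M) : M)) ↔ P ≠ Vp hD (!s) :=
  val_p1 hD (!s) P

omit hD in
theorem sq_mul_iff {P : HeightOneSpectrum (𝓞 M)} {x y : M} (hx : x ≠ 0) (hy : y ≠ 0) :
    IsSquare (P.valuation M (x * y)) ↔ (IsSquare (P.valuation M x) ↔ IsSquare (P.valuation M y)) := by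
  rw [map_mul]
  exact ad1_sq_mul ((Valuation.ne_zero_iff _).2 hx) ((Valuation.ne_zero_iff _).2 hy)

omit hD in
theorem val_unit (P : HeightOneSpectrum (𝓞 M)) (u : (𝓞 M)ˣ) : P.valuation M ((u : 𝓞 M) : M) = 1 := by
  rw [P.valuation_eq_one_iff_notMem (K := M)]
  intro h
  exact P.isPrime.ne_top (Ideal.eq_top_of_isUnit_mem _ h u.isUnit)

omit hD in
theorem unit_ne (u : (𝓞 M)ˣ) : ((u : 𝓞 M) : M) ≠ 0 := RingOfIntegers.coe_ne_zero_iff.2 u.ne_zero

theorem kq_ne (s : Bool) (f : FI M) : kq D s f ≠ 0 := by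
  unfold kq
  refine mul_ne_zero (Units.ne_zero _) (mul_ne_zero ?_ ?_)
  · split_ifs
    · exact neg_ne_zero.2 (p1_ne s)
    · exact one_ne_zero
  · split_ifs
    · exact neg_ne_zero.2 (p1_ne (!s))
    · exact one_ne_zero

theorem val_kq (s : Bool) (f : FI M) (P : HeightOneSpectrum (𝓞 M)) :
    IsSquare (P.valuation M (kq D s f : M)) ↔ ((f.2.1 = true → P ≠ Vp hD s) ↔ (f.2.2 = true → P ≠ Vp hD (!s))) := by
  have h1 : ((kq D s f : 𝓞 M) : M) = (((Quotient.out f.1 : (𝓞 M)ˣ) : 𝓞 M) : M) *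
      (((if f.2.1 then -p1 D s else 1 : 𝓞 M) : M) * ((if f.2.2 then -p2 D s else 1 : 𝓞 M) : M)) := by
    unfold kq
    rw [cmul, cmul]
  have h2 : ((if f.2.1 then -p1 D s else 1 : 𝓞 M) : M) ≠ 0 := by
    rw [RingOfIntegers.coe_ne_zero_iff]
    split_ifs
    · exact neg_ne_zero.2 (p1_ne s)
    · exact one_ne_zero
  have h3 : ((if f.2.2 then -p2 D s else 1 : 𝓞 M) : M) ≠ 0 := by
    rw [RingOfIntegers.coe_ne_zero_iff]
    split_ifs
    · exact neg_ne_zero.2 (p1_ne (!s))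
    · exact one_ne_zero
  have one_sq : IsSquare (P.valuation M ((1 : 𝓞 M) : M)) := by
    rw [show ((1 : 𝓞 M) : M) = 1 from map_one (algebraMap (𝓞 M) M), map_one]
    exact ⟨1, (mul_one _).symm⟩
  have h4 : IsSquare (P.valuation M ((if f.2.1 then -p1 D s else 1 : 𝓞 M) : M)) ↔ (f.2.1 = true → P ≠ Vp hD s) := by
    by_cases h : f.2.1 = true
    · rw [if_pos h, val_p1 hD]
      exact ⟨fun h1 _ => h1, fun h1 => h1 h⟩
    · rw [if_neg h]
      exact iff_of_true one_sq fun h1 => absurd h1 h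
  have h5 : IsSquare (P.valuation M ((if f.2.2 then -p2 D s else 1 : 𝓞 M) : M)) ↔ (f.2.2 = true → P ≠ Vp hD (!s)) := by
    by_cases h : f.2.2 = true
    · rw [if_pos h, val_p2 hD]
      exact ⟨fun h1 _ => h1, fun h1 => h1 h⟩
    · rw [if_neg h]
      exact iff_of_true one_sq fun h1 => absurd h1 h
  rw [h1, sq_mul_iff (unit_ne _) (mul_ne_zero h2 h3), val_unit, sq_mul_iff h2 h3, h4, h5]
  have h6 : IsSquare (1 : WithZero (Multiplicative ℤ)) := ⟨1, (mul_one _).symm⟩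
  exact ⟨fun h => h.1 h6, fun h => iff_of_true h6 h⟩

variable {s : Bool} {z : HeightOneSpectrum (𝓞 M) → 𝓞 M} (hz : ∀ P, (2 : 𝓞 M) ∉ P.asIdeal → NG D s P (z P))
include hz

omit hD in
theorem z_ne (v : OP M) : z v.1 ≠ 0 := by
  obtain ⟨k, -, hk⟩ := (hz v.1 v.2).gen
  exact ad1_span_ne hk

omit hD in
theorem zT_ne (T : Finset (OP M)) : (((∏ v ∈ T, z v.1 : 𝓞 M)) : M) ≠ 0 :=
  RingOfIntegers.coe_ne_zero_iff.2 (Finset.prod_ne_zero_iff.2 fun v _ => z_ne hz v)

omit hD in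
theorem val_zT (T : Finset (OP M)) (P : HeightOneSpectrum (𝓞 M)) :
    IsSquare (P.valuation M (((∏ v ∈ T, z v.1 : 𝓞 M)) : M)) ↔ ∀ v ∈ T, P ≠ v.1 := by
  induction T using Finset.induction_on with
  | empty =>
    rw [Finset.prod_empty, show ((1 : 𝓞 M) : M) = 1 from map_one (algebraMap (𝓞 M) M), map_one]
    exact iff_of_true ⟨1, (mul_one _).symm⟩ fun v hv => absurd hv (Finset.notMem_empty v)
  | insert v U hv ih =>
    obtain ⟨k, hk1, hk2⟩ := (hz v.1 v.2).gen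
    have hzv : ((z v.1 : 𝓞 M) : M) ≠ 0 := RingOfIntegers.coe_ne_zero_iff.2 (z_ne hz v)
    rw [Finset.prod_insert hv, show ((z v.1 * ∏ v' ∈ U, z v'.1 : 𝓞 M) : M) =
      ((z v.1 : 𝓞 M) : M) * ((∏ v' ∈ U, z v'.1 : 𝓞 M) : M) from map_mul (algebraMap (𝓞 M) M) _ _,
      sq_mul_iff hzv (zT_ne hz U), ad1_val hk1 hk2, ih]
    constructor
    · intro h w hw
      rcases Finset.mem_insert.1 hw with rfl | hw
      · intro h1
        apply hv
        have h2 : ¬ ∀ v ∈ U, P ≠ v.1 := fun h3 => absurd h1 (h.2 h3)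
        push Not at h2
        obtain ⟨u, hu, h3⟩ := h2
        have : w = u := Subtype.ext (h1.symm.trans h3)
        exact this ▸ hu
      · by_cases h4 : P = v.1
        · intro h1
          exact hv (Subtype.ext (h4.symm.trans h1) ▸ hw)
        · exact h.1 h4 w hw
    · intro h
      exact iff_of_true (h v (Finset.mem_insert_self _ _)) fun w hw => h w (Finset.mem_insert_of_mem hw)

theorem dx_ne (f : FI M) (T : Finset (OP M)) : dx D s z f T ≠ 0 :=
  mul_ne_zero (kq_ne hD s f) (Finset.prod_ne_zero_iff.2 fun v _ => z_ne hz v)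

theorem dl_ne (f : FI M) (T : Finset (OP M)) : dl D s z f T ≠ 0 :=
  div_ne_zero (RingOfIntegers.coe_ne_zero_iff.2 (dx_ne hD hz f T)) (r_ne D)

/-- the odd valuations of `d √-7` -/
theorem val_odd (f : FI M) (T : Finset (OP M)) (v : OP M) :
    IsSquare (v.1.valuation M (dl D s z f T * D.r)) ↔ v ∉ T := by
  rw [dl_r, show ((dx D s z f T : 𝓞 M) : M) = ((kq D s f : 𝓞 M) : M) * ((∏ v' ∈ T, z v'.1 : 𝓞 M) : M) from
    map_mul (algebraMap (𝓞 M) M) _ _, sq_mul_iff (RingOfIntegers.coe_ne_zero_iff.2 (kq_ne hD s f)) (zT_ne hz T),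
    val_kq hD, val_zT hz]
  have h1 : ∀ s, v.1 ≠ Vp hD s := fun s h => v.2 (h ▸ Vp_two hD s)
  constructor
  · intro h hv
    exact h.1 (iff_of_true (fun _ => h1 _) fun _ => h1 _) v hv rfl
  · intro h
    refine iff_of_true (iff_of_true (fun _ => h1 _) fun _ => h1 _) fun w hw h2 => h ?_
    exact Subtype.ext h2 ▸ hw

/-- **every `d` has the form** -/
theorem exists_dl {d : M} (hd : d ≠ 0) {T : Finset (OP M)}
    (hT : ∀ v : OP M, v ∈ T ↔ ¬ IsSquare (v.1.valuation M (d * D.r))) :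
    ∃ (f : FI M) (y : M), y ≠ 0 ∧ d = y ^ 2 * dl D s z f T := by
  obtain ⟨i, hi⟩ : ∃ i : Bool, i = true ↔ ¬ IsSquare ((Vp hD s).valuation M (d * D.r)) :=
    ⟨decide (¬ IsSquare ((Vp hD s).valuation M (d * D.r))), decide_eq_true_iff⟩
  obtain ⟨j, hj⟩ : ∃ j : Bool, j = true ↔ ¬ IsSquare ((Vp hD (!s)).valuation M (d * D.r)) :=
    ⟨decide (¬ IsSquare ((Vp hD (!s)).valuation M (d * D.r))), decide_eq_true_iff⟩
  have hdr : d * D.r ≠ 0 := mul_ne_zero hd (r_ne D)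
  have hf0 := dx_ne hD hz ((1 : FM1Q M), i, j) T
  have hf1 : ((dx D s z ((1 : FM1Q M), i, j) T : 𝓞 M) : M) ≠ 0 := RingOfIntegers.coe_ne_zero_iff.2 hf0
  obtain ⟨u, y, hy, h1⟩ := b3_even D.hodd (d * D.r * (dx D s z ((1 : FM1Q M), i, j) T : M)) (mul_ne_zero hdr hf1) (by
    intro P
    rw [sq_mul_iff hdr hf1]
    by_cases h2 : (2 : 𝓞 M) ∈ P.asIdeal
    · rw [show ((dx D s z ((1 : FM1Q M), i, j) T : 𝓞 M) : M) =
        ((kq D s ((1 : FM1Q M), i, j) : 𝓞 M) : M) * ((∏ v' ∈ T, z v'.1 : 𝓞 M) : M) from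
        map_mul (algebraMap (𝓞 M) M) _ _, sq_mul_iff (RingOfIntegers.coe_ne_zero_iff.2 (kq_ne hD s _)) (zT_ne hz T),
        val_kq hD, val_zT hz]
      have h3 : ∀ v ∈ T, P ≠ v.1 := fun v _ h => v.2 (h ▸ h2)
      obtain ⟨t, rfl⟩ := (two_iff hD).1 h2
      have h4 : t = s ∨ t = !s := by cases t <;> cases s <;> simp
      rcases h4 with rfl | rfl
      · have h5 := Vp_ne hD t
        have h6 : IsSquare ((Vp hD t).valuation M (d * D.r)) ↔ ¬ i = true := by rw [hi, not_not]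
        rw [h6]
        simp only [h5, ne_eq, not_true_eq_false, not_false_eq_true, implies_true, iff_true]
        exact ⟨fun h => iff_of_true h h3, fun h => h.2 h3⟩
      · have h5 := (Vp_ne hD s).symm
        have h6 : IsSquare ((Vp hD (!s)).valuation M (d * D.r)) ↔ ¬ j = true := by rw [hj, not_not]
        rw [h6]
        simp only [h5, ne_eq, not_true_eq_false, not_false_eq_true, implies_true, true_iff]
        exact ⟨fun h => iff_of_true h h3, fun h => h.2 h3⟩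
    · have h3 := val_odd hD hz ((1 : FM1Q M), i, j) T ⟨P, h2⟩
      rw [dl_r] at h3
      rw [h3]
      have h4 := hT ⟨P, h2⟩
      constructor
      · exact fun h h5 => (h4.1 h5) h
      · exact fun h => by
          by_contra h5
          exact h (h4.2 h5))
  refine ⟨(QuotientGroup.mk u, i, j), ?_⟩
  obtain ⟨w, hw⟩ : ∃ w : (𝓞 M)ˣ, (Quotient.out (QuotientGroup.mk u : FM1Q M) : (𝓞 M)ˣ) = u * w ^ 2 := by
    have h2 : (QuotientGroup.mk (Quotient.out (QuotientGroup.mk u : FM1Q M)) : FM1Q M) = QuotientGroup.mk u :=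
      Quotient.out_eq _
    rw [eq_comm, QuotientGroup.eq] at h2
    obtain ⟨w, hw⟩ := h2
    refine ⟨w, ?_⟩
    have hw' : w ^ 2 = u⁻¹ * (Quotient.out (QuotientGroup.mk u : FM1Q M) : (𝓞 M)ˣ) := hw
    rw [hw', mul_inv_cancel_left]
  obtain ⟨w₁, hw₁⟩ : ∃ w : (𝓞 M)ˣ, (Quotient.out (1 : FM1Q M) : (𝓞 M)ˣ) = w ^ 2 := by
    have h2 : (QuotientGroup.mk (Quotient.out (1 : FM1Q M)) : FM1Q M) = 1 := Quotient.out_eq _
    rw [QuotientGroup.eq_one_iff] at h2
    obtain ⟨w, hw⟩ := h2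
    exact ⟨w, hw.symm⟩
  set A : M := (((if i then -p1 D s else 1 : 𝓞 M) : M) * ((if j then -p2 D s else 1 : 𝓞 M) : M)) *
    ((∏ v' ∈ T, z v'.1 : 𝓞 M) : M) with hA
  have e1 : ((dx D s z ((1 : FM1Q M), i, j) T : 𝓞 M) : M) = ((w₁ : 𝓞 M) : M) ^ 2 * A := by
    unfold dx kq
    rw [hw₁, hA, cmul, cmul, cmul, Units.val_pow_eq_pow_val, cpow]
    ring
  have e2 : ((dx D s z ((QuotientGroup.mk u : FM1Q M), i, j) T : 𝓞 M) : M) =
      ((u : 𝓞 M) : M) * ((w : 𝓞 M) : M) ^ 2 * A := by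
    unfold dx kq
    rw [hw, hA, cmul, cmul, cmul, Units.val_mul, cmul, Units.val_pow_eq_pow_val, cpow]
    ring
  have hA0 : A ≠ 0 := by
    intro h
    apply hf1
    rw [e1, h, mul_zero]
  have hw0 := unit_ne w
  have hw10 := unit_ne w₁
  refine ⟨y / (((w₁ : 𝓞 M) : M) * A * ((w : 𝓞 M) : M)), div_ne_zero hy (mul_ne_zero (mul_ne_zero hw10 hA0) hw0), ?_⟩
  unfold dl
  rw [e2]
  rw [e1] at h1
  have hr := r_ne D
  rw [eq_comm, div_pow, div_mul_div_comm, div_eq_iff (mul_ne_zero (pow_ne_zero 2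
    (mul_ne_zero (mul_ne_zero hw10 hA0) hw0)) hr)]
  linear_combination -(A * ((w : 𝓞 M) : M) ^ 2) * h1

/-- **uniqueness** -/
theorem dl_inj {f f' : FI M} {T T' : Finset (OP M)} {y : M} (hy : y ≠ 0)
    (h : dl D s z f T = y ^ 2 * dl D s z f' T') : f = f' ∧ T = T' := by
  have hsq : ∀ P : HeightOneSpectrum (𝓞 M), IsSquare (P.valuation M (dl D s z f T * D.r)) ↔
      IsSquare (P.valuation M (dl D s z f' T' * D.r)) := by
    intro P
    have h1 : dl D s z f T * D.r = y ^ 2 * (dl D s z f' T' * D.r) := by rw [h]; ring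
    rw [h1, sq_mul_iff (pow_ne_zero 2 hy) (mul_ne_zero (dl_ne hD hz f' T') (r_ne D))]
    have h2 : IsSquare (P.valuation M (y ^ 2)) := ⟨P.valuation M y, by rw [map_pow, sq]⟩
    exact ⟨fun h3 => h3.1 h2, fun h3 => iff_of_true h2 h3⟩
  have hTT : T = T' := by
    ext v
    have h1 := val_odd hD hz f T v
    have h2 := val_odd hD hz f' T' v
    have h3 := hsq v.1
    rw [h1, h2] at h3
    exact not_iff_not.1 h3
  subst hTT
  refine ⟨?_, rfl⟩
  have hzT := zT_ne hz T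
  have hk := RingOfIntegers.coe_ne_zero_iff.2 (kq_ne hD s f)
  have hk' := RingOfIntegers.coe_ne_zero_iff.2 (kq_ne hD s f')
  have e : ((kq D s f : 𝓞 M) : M) = y ^ 2 * ((kq D s f' : 𝓞 M) : M) := by
    have h1 := congrArg (· * D.r) h
    simp only [dl_r, mul_assoc] at h1
    rw [show ((dx D s z f T : 𝓞 M) : M) = ((kq D s f : 𝓞 M) : M) * ((∏ v' ∈ T, z v'.1 : 𝓞 M) : M) from
      map_mul (algebraMap (𝓞 M) M) _ _, show ((dx D s z f' T : 𝓞 M) : M) = ((kq D s f' : 𝓞 M) : M) *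
      ((∏ v' ∈ T, z v'.1 : 𝓞 M) : M) from map_mul (algebraMap (𝓞 M) M) _ _, ← mul_assoc] at h1
    exact mul_right_cancel₀ hzT h1
  have hsq2 : ∀ P : HeightOneSpectrum (𝓞 M), IsSquare (P.valuation M (kq D s f : M)) ↔
      IsSquare (P.valuation M (kq D s f' : M)) := by
    intro P
    rw [e, sq_mul_iff (pow_ne_zero 2 hy) hk']
    have h2 : IsSquare (P.valuation M (y ^ 2)) := ⟨P.valuation M y, by rw [map_pow, sq]⟩
    exact ⟨fun h3 => h3.1 h2, fun h3 => iff_of_true h2 h3⟩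
  have h1 := hsq2 (Vp hD s)
  have h2 := hsq2 (Vp hD (!s))
  rw [val_kq hD, val_kq hD] at h1 h2
  have h5 := Vp_ne hD s
  have h6 := h5.symm
  simp only [h5, h6, ne_eq, not_true_eq_false, not_false_eq_true, implies_true, iff_true, true_iff] at h1 h2
  obtain ⟨q, i, j⟩ := f
  obtain ⟨q', i', j'⟩ := f'
  simp only at h1 h2
  have hi : i = i' := by
    cases i <;> cases i' <;> simp_all
  have hj : j = j' := by
    cases j <;> cases j' <;> simp_all
  subst hi
  subst hj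
  refine Prod.ext ?_ rfl
  change q = q'
  set A : M := (((if i then -p1 D s else 1 : 𝓞 M) : M) * ((if j then -p2 D s else 1 : 𝓞 M) : M)) with hA
  have e1 : ∀ q : FM1Q M, ((kq D s (q, i, j) : 𝓞 M) : M) = (((Quotient.out q : (𝓞 M)ˣ) : 𝓞 M) : M) * A := by
    intro q
    unfold kq
    rw [cmul, cmul]
  have hA0 : A ≠ 0 := by
    intro h3
    apply hk
    change ((kq D s (q, i, j) : 𝓞 M) : M) = 0
    rw [e1, h3, mul_zero]
  rw [e1, e1] at e
  clear_value A
  have e2 : (((Quotient.out q : (𝓞 M)ˣ) : 𝓞 M) : M) = y ^ 2 * (((Quotient.out q' : (𝓞 M)ˣ) : 𝓞 M) : M) := by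
    rw [← mul_assoc] at e
    exact mul_right_cancel₀ hA0 e
  -- `y` is integral and a unit
  have hq' := unit_ne (Quotient.out q' : (𝓞 M)ˣ)
  have hyu : y ^ 2 = (((Quotient.out q * (Quotient.out q')⁻¹ : (𝓞 M)ˣ) : 𝓞 M) : M) := by
    rw [Units.val_mul, cmul, e2, mul_assoc, ← cmul, Units.mul_inv, cone, mul_one]
  obtain ⟨y', hy'⟩ : ∃ y' : 𝓞 M, (y' : M) = y := by
    have h3 : IsIntegral ℤ y := by
      refine IsIntegral.of_pow (n := 2) (by norm_num) ?_
      rw [hyu]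
      exact RingOfIntegers.isIntegral_coe _
    exact ⟨⟨y, h3⟩, rfl⟩
  have h3 : y' ^ 2 = ((Quotient.out q * (Quotient.out q')⁻¹ : (𝓞 M)ˣ) : 𝓞 M) := by
    apply RingOfIntegers.coe_injective
    refine (cpow _ _).trans ?_
    rw [hy']
    exact hyu
  have hu : IsUnit y' := by
    have h4 : IsUnit (y' ^ 2) := by
      rw [h3]
      exact Units.isUnit _
    exact (isUnit_pow_iff (by norm_num)).1 h4
  obtain ⟨w, rfl⟩ := hu
  have h4 : w ^ 2 = Quotient.out q * (Quotient.out q')⁻¹ := by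
    apply Units.ext
    rw [Units.val_pow_eq_pow_val]
    exact h3
  have h5 : (QuotientGroup.mk (Quotient.out q * (Quotient.out q')⁻¹) : FM1Q M) = 1 := by
    rw [QuotientGroup.eq_one_iff]
    exact ⟨w, h4⟩
  have h6 : (QuotientGroup.mk (Quotient.out q) : FM1Q M) * (QuotientGroup.mk (Quotient.out q') : FM1Q M)⁻¹ = 1 := by
    rw [← QuotientGroup.mk_inv, ← QuotientGroup.mk_mul]
    exact h5
  have h7 : (QuotientGroup.mk (Quotient.out q) : FM1Q M) = q := Quotient.out_eq _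
  have h8 : (QuotientGroup.mk (Quotient.out q') : FM1Q M) = q' := Quotient.out_eq _
  rw [h7, h8] at h6
  exact mul_inv_eq_one.1 h6

end

end TRZ
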