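import Pool.Agent.TRZ.FD9
import Pool.Agent.TRP.AD4

/-! # [ALL2-FD10] the row sums and the column sums are not identically zero for the allowed types -/

set_option autoImplicit false

open NumberField Ideal IsDedekindDomain
open scoped Real Classical ComplexConjugate
open TR TRG TTS TU TT TRP

namespace TRZ

section
variable {L M : Type} [Field L] [NumberField L] [Field M] [NumberField M] [Algebra L M]
  [IsTotallyReal L] {D : Dat L M} (hD : Od2 D)

theorem zmod2 (x : ZMod 2) : ∃ m : Bool, x = if m then 1 else 0 := by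
  fin_cases x
  · exact ⟨false, rfl⟩
  · exact ⟨true, rfl⟩

variable {z : HeightOneSpectrum (𝓞 M) → 𝓞 M} (hz : ∀ P, (2 : 𝓞 M) ∉ P.asIdeal → NG D true P (z P))

include hD hz in
theorem chi_z {k : 𝓞 M} (hk : K8 k) (v : OP M) : chi D true k (c8 D true (z v.1)) = s01 (TT.qr v.1 k) :=
  chi_NG hk v.2 (hz v.1 v.2)

include hD hz in
theorem nv_z (v : OP M) : nv D true z v.1 = s01 (TT.qr v.1 (-p2 D true)) :=
  (nu_eq hD (s := false) v.2 (hz v.1 v.2)).symm

include hD hz in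
theorem sum_nv (T : Finset (OP M)) : ∑ P ∈ mp T, nv D true z P = chi D true (-p2 D true) (csz D true z T) := by
  unfold csz
  rw [Finset.sum_map, map_sum]
  refine Finset.sum_congr rfl fun v _ => ?_
  rw [chi_z hD hz (K8.w2 hD true)]
  exact nv_z hD hz v

include hD hz in
theorem sum_nu (T : Finset (OP M)) : ∑ P ∈ mp T, nu D true P = chi D true (-p1 D true) (csz D true z T) := by
  unfold csz
  rw [Finset.sum_map, map_sum]
  refine Finset.sum_congr rfl fun v _ => ?_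
  rw [chi_z hD hz (K8.w1 hD true)]
  rfl

theorem kq_nm {s : Bool} {f : FI M} (hk : K8 (kq D s f)) {P : HeightOneSpectrum (𝓞 M)} (h2 : (2 : 𝓞 M) ∉ P.asIdeal)
    {q : 𝓞 M} (hq : NG D s P q) : kq D s f ∉ P.asIdeal := by
  intro h
  obtain ⟨a, b, hab⟩ := hk.cop q (ng_odd h2 hq)
  obtain ⟨n, hn, hq'⟩ := hq.gen
  apply P.isPrime.ne_top
  rw [Ideal.eq_top_iff_one, ← hab]
  refine add_mem (Ideal.mul_mem_left _ _ h) (Ideal.mul_mem_left _ _ ?_)
  have h1 : q ∈ P.asIdeal ^ n := by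
    rw [← hq']
    exact Ideal.mem_span_singleton_self _
  exact Ideal.pow_le_self hn.pos.ne' h1

include hD in
theorem p1_nm {P : HeightOneSpectrum (𝓞 M)} (h2 : (2 : 𝓞 M) ∉ P.asIdeal) (t : Bool) : -p1 D t ∉ P.asIdeal := by
  rw [neg_mem_iff]
  intro h
  apply h2
  rw [← p12 D t]
  exact Ideal.mul_mem_right _ _ h

include hD hz in
/-- **the row sums** -/
theorem rho_ne (f : FI M) (T : Finset (OP M)) (hN : Nsq D true (dl D true z f T)) :
    TRPA.rhoW (chi D true (kq D true f)) (chi D true (-p1 D true)) (chi D true (-p2 D true)) (csz D true z T) ≠ 0 := by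
  obtain ⟨ε, hε, H⟩ := dl_DK hz f T
  obtain ⟨m, hm⟩ := zmod2 (∑ P ∈ mp T, nv D true z P)
  have hK := nsq_K hD H hN hm
  have e : algebraMap (𝓞 L) (𝓞 M) (ε : 𝓞 L) * ((if f.2.1 then -(p1 D true) else 1) *
      (if f.2.2 then -(p2 D true) else 1)) = kq D true f := by
    unfold kq
    rw [hε]
  rw [e] at hK
  obtain ⟨P, hP, hq⟩ := exists_nonres hK {Vp hD true, Vp hD false}
  have h2 : (2 : 𝓞 M) ∉ P.asIdeal := by
    intro h
    obtain ⟨t, rfl⟩ := (two_iff hD).1 h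
    apply hP
    cases t <;> simp
  intro h0
  have h1 := DFunLike.congr_fun h0 (c8 D true (z P))
  rw [TRPA.rhoW_apply, ← sum_nv hD hz T, hm, chi_z hD hz (K8.wk hD true f) ⟨P, h2⟩,
    chi_z hD hz (K8.w1 hD true) ⟨P, h2⟩, AddMonoidHom.zero_apply] at h1
  change s01 (TT.qr P (kq D true f)) + (if m then 1 else 0) * s01 (TT.qr P (-p1 D true)) = 0 at h1
  have hk1 := qr_pm (kq_nm (K8.wk hD true f) h2 (hz P h2))
  have hk2 := qr_pm (p1_nm hD h2 true)
  rw [qr_mul P h2] at hq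
  cases m
  · simp only [Bool.false_eq_true, if_false, zero_mul, add_zero] at h1
    have h3 : TT.qr P (1 : 𝓞 M) = 1 := by
      have h := qr_sq P (a := (1 : 𝓞 M)) (fun h => P.isPrime.ne_top ((Ideal.eq_top_iff_one _).2 h))
      rwa [one_pow] at h
    rw [if_neg (by simp), h3, mul_one] at hq
    rw [hq] at h1
    exact absurd h1 (by decide)
  · simp only [if_true, one_mul] at h1
    rw [← s01_mul hk1 hk2] at h1
    rw [if_pos rfl] at hq
    rw [hq] at h1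
    exact absurd h1 (by decide)

variable (B : TRPA.DSys (OP M) (G8 D true)) {om : G8 D true →+ G8 D true →+ ZMod 2} (hBo : B.om = om)
  (hom : ∀ (z : HeightOneSpectrum (𝓞 M) → 𝓞 M) (P Q : HeightOneSpectrum (𝓞 M)), P ≠ Q → (2 : 𝓞 M) ∉ P.asIdeal →
      (2 : 𝓞 M) ∉ Q.asIdeal → NG D true P (z P) → NG D true Q (z Q) →
      TRG.aM z P Q + TRG.aM z Q P = om (c8 D true (z P)) (c8 D true (z Q)))
  (hom0 : ∀ (R : HeightOneSpectrum (𝓞 M)) (q : 𝓞 M), R.asIdeal = span {D.rr} → NG D true R q →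
      ∀ g, om g g = om g (c8 D true q))

include hD hom hom0 in
/-- the diagonal of `om` -/
theorem om_self {R : HeightOneSpectrum (𝓞 M)} (hR : R.asIdeal = span {D.rr}) {P : HeightOneSpectrum (𝓞 M)}
    (h2 : (2 : 𝓞 M) ∉ P.asIdeal) (hPR : P ≠ R) {q : 𝓞 M} (hq : NG D true P q) :
    om (c8 D true q) (c8 D true q) = s01 (TT.qr P (-1)) := by
  have hR2 := bl_R_two hR
  have ngr : ∀ t, NG D t R (rs7 D t) := fun t =>
    ⟨⟨1, odd_one, by rw [pow_one, hR, rs7_span]⟩, rs7_et t⟩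
  have hr := ngr true
  have hr' := ngr false
  rw [hom0 R _ hR hr]
  set z₁ : HeightOneSpectrum (𝓞 M) → 𝓞 M := fun Q => if Q = R then rs7 D true else q with hz₁
  have e1 : z₁ P = q := if_neg hPR
  have e2 : z₁ R = rs7 D true := if_pos rfl
  have h1 := hom z₁ P R hPR h2 hR2 (by rw [e1]; exact hq) (by rw [e2]; exact hr)
  rw [e1, e2] at h1
  rw [← h1]
  unfold TRG.aM
  rw [e1, e2, ← NG.transpose hD hPR h2 hR2 hq hr']
  have hnm : ∀ t, rs7 D t ∉ P.asIdeal := by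
    intro t h
    have h3 : span {rs7 D t} ≤ P.asIdeal := (Ideal.span_singleton_le_iff_mem _).2 h
    rw [rs7_span, ← hR] at h3
    exact hPR (HeightOneSpectrum.ext (R.isMaximal.eq_of_le P.isPrime.ne_top h3)).symm
  have h3 : s01 (TT.qr P (rs7 D true)) + s01 (TT.qr P (rs7 D false)) = s01 (TT.qr P (-1)) := by
    rw [← s01_mul (qr_pm (hnm true)) (qr_pm (hnm false)), ← qr_mul P h2]
    have e3 : rs7 D true * rs7 D false = (-1) * rs7 D true ^ 2 := by
      rw [bl_rs7_true, bl_rs7_false]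
      ring
    rw [e3, qr_mul P h2, qr_sq P (hnm true), mul_one]
  exact h3

include hD hz hBo hom hom0 in
/-- **the column sums** -/
theorem gam_ne (f : FI M) (T : Finset (OP M)) (hN : Nsq D false (dl D true z f T)) :
    B.gamW (chi D true (kq D true f)) (chi D true (-p1 D true)) (chi D true (-p2 D true)) (csz D true z T) ≠ 0 := by
  have hd := dl_ne hD hz f T
  obtain ⟨ε, hε, H⟩ := dl_DK hz f T
  obtain ⟨T', z', ε', i', j', H', hz'⟩ := exists_DK hD hd false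
  obtain ⟨hT, hi, hj, -⟩ := DK.other hD H H'
  subst hT
  subst hi
  subst hj
  obtain ⟨R, hR⟩ := se4_R D
  obtain ⟨m, hm⟩ := zmod2 (∑ P ∈ mp T, nv D false z' P)
  have hK := nsq_K hD H' hN hm
  obtain ⟨P, hP, hq⟩ := exists_nonres hK (mp T ∪ {R, Vp hD true, Vp hD false})
  rw [Finset.mem_union, not_or] at hP
  have h2 : (2 : 𝓞 M) ∉ P.asIdeal := by
    intro h
    obtain ⟨t, rfl⟩ := (two_iff hD).1 h
    apply hP.2
    cases t <;> simp
  have hPR : P ≠ R := by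
    rintro rfl
    apply hP.2
    simp
  intro h0
  have h1 := DFunLike.congr_fun h0 (c8 D true (z P))
  have hmu : chi D true (-p1 D true) (csz D true z T) = if m then 1 else 0 := by
    rw [← sum_nu hD hz T, ← hm]
    exact Finset.sum_congr rfl fun Q hQ => nu_eq hD (H.two Q hQ) (H'.ng Q hQ)
  rw [TRPA.gamW_apply, hBo, hmu, chi_z hD hz (K8.wk hD true f) ⟨P, h2⟩, chi_z hD hz (K8.w2 hD true) ⟨P, h2⟩,
    om_self hD hom hom0 hR h2 hPR (hz P h2), AddMonoidHom.zero_apply] at h1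
  -- the relation
  have hex : ∀ Q : HeightOneSpectrum (𝓞 M), ∃ (u : (𝓞 M)ˣ) (g : 𝓞 M), Q ∈ mp T → z Q * z' Q = (u : 𝓞 M) * g ^ 2 := by
    intro Q
    by_cases hQ : Q ∈ mp T
    · obtain ⟨u, g, h⟩ := gen_gen D.hodd (H.ng Q hQ).gen (H'.ng Q hQ).gen
      exact ⟨u, g, fun _ => h⟩
    · exact ⟨1, 1, fun h => absurd h hQ⟩
  choose u g hu using hex
  obtain ⟨Y, hY⟩ := sm_rel hD hd H H' hu
  have hεu : IsUnit (algebraMap (𝓞 L) (𝓞 M) (ε : 𝓞 L)) := ε.isUnit.map _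
  have hεu' : IsUnit (algebraMap (𝓞 L) (𝓞 M) (ε' : 𝓞 L)) := ε'.isUnit.map _
  have hnm : ∀ {x : 𝓞 M}, IsUnit x → x ∉ P.asIdeal := fun hx h =>
    P.isPrime.ne_top (Ideal.eq_top_of_isUnit_mem _ h hx)
  have hYn : Y ∉ P.asIdeal := by
    intro h
    have h3 : -(algebraMap (𝓞 L) (𝓞 M) (ε : 𝓞 L) * algebraMap (𝓞 L) (𝓞 M) (ε' : 𝓞 L)) *
        ∏ Q ∈ mp T, ((u Q : (𝓞 M)ˣ) : 𝓞 M) ∈ P.asIdeal := by
      rw [hY, sq]
      exact Ideal.mul_mem_left _ _ h
    refine hnm ?_ h3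
    refine (hεu.mul hεu').neg.mul ?_
    rw [← Units.coe_prod]
    exact Units.isUnit _
  have h3 := qr_sq P hYn
  rw [← hY, show -(algebraMap (𝓞 L) (𝓞 M) (ε : 𝓞 L) * algebraMap (𝓞 L) (𝓞 M) (ε' : 𝓞 L)) *
    ∏ Q ∈ mp T, ((u Q : (𝓞 M)ˣ) : 𝓞 M) =
    algebraMap (𝓞 L) (𝓞 M) (ε : 𝓞 L) * algebraMap (𝓞 L) (𝓞 M) (ε' : 𝓞 L) * (-1) *
      ∏ Q ∈ mp T, ((u Q : (𝓞 M)ˣ) : 𝓞 M) by ring, qr_mul P h2, qr_mul P h2, qr_mul P h2, qr_prod h2] at h3
  have h4 : ∀ Q ∈ mp T, (TT.qr P ((u Q : (𝓞 M)ˣ) : 𝓞 M) = 1 ∨ TT.qr P ((u Q : (𝓞 M)ˣ) : 𝓞 M) = -1) ∧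
      s01 (TT.qr P ((u Q : (𝓞 M)ˣ) : 𝓞 M)) = om (c8 D true (z Q)) (c8 D true (z P)) := by
    intro Q hQ
    have hPQ : P ≠ Q := fun h => hP.1 (h ▸ hQ)
    refine ⟨qr_pm (unit_nm _), ?_⟩
    have gnm : ∀ {q : 𝓞 M}, (∃ k, Odd k ∧ span {q} = Q.asIdeal ^ k) → q ∉ P.asIdeal := by
      rintro q ⟨k, -, hk⟩ h
      have h5 : Q.asIdeal ^ k ≤ P.asIdeal := by
        rw [← hk]
        exact (Ideal.span_singleton_le_iff_mem _).2 h
      have h6 := P.isPrime.le_of_pow_le h5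
      exact hPQ (HeightOneSpectrum.ext (Q.isMaximal.eq_of_le P.isPrime.ne_top h6)).symm
    have hz1 := gnm (H.ng Q hQ).gen
    have hz2 := gnm (H'.ng Q hQ).gen
    have h5 := hu Q hQ
    have hg : g Q ∉ P.asIdeal := by
      intro h
      rcases P.isPrime.mem_or_mem (show z Q * z' Q ∈ P.asIdeal by
        rw [h5, sq]
        exact Ideal.mul_mem_left _ _ (Ideal.mul_mem_left _ _ h)) with h | h
      · exact hz1 h
      · exact hz2 h
    have h6 : TT.qr P ((u Q : (𝓞 M)ˣ) : 𝓞 M) = TT.qr P (z Q) * TT.qr P (z' Q) := by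
      rw [← qr_mul P h2, h5, qr_mul P h2, qr_sq P hg, mul_one]
    rw [h6, s01_mul (qr_pm hz1) (qr_pm hz2), NG.transpose hD hPQ h2 (H.two Q hQ) (hz P h2) (H'.ng Q hQ),
      ← hom z Q P hPQ.symm (H.two Q hQ) h2 (H.ng Q hQ) (hz P h2), add_comm]
    rfl
  obtain ⟨h7, h8⟩ := s01_prod (mp T) (fun Q => TT.qr P ((u Q : (𝓞 M)ˣ) : 𝓞 M)) fun Q hQ => (h4 Q hQ).1
  have hpm := qr_pm (hnm hεu)
  have hpm' := qr_pm (hnm hεu')
  have hneg : IsUnit (-1 : 𝓞 M) := isUnit_one.neg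
  have hpmn := qr_pm (hnm hneg)
  have h9 := congrArg s01 h3
  have pm_mul : ∀ {a b : ℤ}, (a = 1 ∨ a = -1) → (b = 1 ∨ b = -1) → (a * b = 1 ∨ a * b = -1) := by
    rintro a b (rfl | rfl) (rfl | rfl) <;> norm_num
  rw [s01_mul (pm_mul (pm_mul hpm hpm') hpmn) h7, s01_mul (pm_mul hpm hpm') hpmn, s01_mul hpm hpm', h8,
    Finset.sum_congr rfl fun Q hQ => (h4 Q hQ).2] at h9
  have h10 : s01 1 = 0 := by decide
  rw [h10] at h9
  have h11 : om (csz D true z T) (c8 D true (z P)) = ∑ Q ∈ mp T, om (c8 D true (z Q)) (c8 D true (z P)) := by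
    unfold csz
    rw [Finset.sum_map, map_sum, AddMonoidHom.finsetSum_apply]
    rfl
  rw [h11] at h1
  -- `kq`
  have e : kq D true f = algebraMap (𝓞 L) (𝓞 M) (ε : 𝓞 L) * ((if f.2.1 then -(p1 D true) else 1) *
      (if f.2.2 then -(p2 D true) else 1)) := by
    unfold kq
    rw [hε]
  have hWn : ((if f.2.1 then -(p1 D true) else 1) * (if f.2.2 then -(p2 D true) else 1) : 𝓞 M) ∉ P.asIdeal := by
    intro h
    apply kq_nm (K8.wk hD true f) h2 (hz P h2)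
    rw [e]
    exact Ideal.mul_mem_left _ _ h
  have hpw := qr_pm hWn
  change s01 (TT.qr P (kq D true f)) + _ + _ + (if m then 1 else 0) * s01 (TT.qr P (-p2 D true)) = 0 at h1
  rw [e, qr_mul P h2, s01_mul hpm hpw] at h1
  have hWW : ((if f.2.2 then -(p1 D false) else 1) * (if f.2.1 then -(p2 D false) else 1) : 𝓞 M) =
      (if f.2.1 then -(p1 D true) else 1) * (if f.2.2 then -(p2 D true) else 1) := mul_comm _ _
  rw [hWW, qr_mul P h2, qr_mul P h2] at hq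
  have hq' := congrArg s01 hq
  have h12 : (if m then -(p1 D false) else 1 : 𝓞 M) ∉ P.asIdeal := by
    split_ifs
    · exact p1_nm hD h2 false
    · exact fun h => P.isPrime.ne_top ((Ideal.eq_top_iff_one _).2 h)
  rw [s01_mul (pm_mul hpm' hpw) (qr_pm h12), s01_mul hpm' hpw] at hq'
  have h13 : s01 (TT.qr P (if m then -(p1 D false) else 1 : 𝓞 M)) = (if m then 1 else 0) * s01 (TT.qr P (-p2 D true)) := by
    cases m
    · have h3 : TT.qr P (1 : 𝓞 M) = 1 := by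
        have h := qr_sq P (a := (1 : 𝓞 M)) (fun h => P.isPrime.ne_top ((Ideal.eq_top_iff_one _).2 h))
        rwa [one_pow] at h
      rw [if_neg (by simp), h3, if_neg (by simp), zero_mul, h10]
    · rw [if_pos rfl, if_pos rfl, one_mul]
      rfl
  rw [h13] at hq'
  have h14 : s01 (-1) = 1 := by decide
  rw [h14] at hq'
  have h15 : (2 : ZMod 2) = 0 := by decide
  have h16 : (0 : ZMod 2) = 1 := by
    linear_combination h1 + h9 + hq' - h15 * (s01 (TT.qr P (algebraMap (𝓞 L) (𝓞 M) (ε : 𝓞 L))) +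
      s01 (TT.qr P (algebraMap (𝓞 L) (𝓞 M) (ε' : 𝓞 L))) +
      s01 (TT.qr P ((if f.2.1 then -(p1 D true) else 1) * (if f.2.2 then -(p2 D true) else 1))) +
      s01 (TT.qr P (-1)) + ∑ Q ∈ mp T, om (c8 D true (z Q)) (c8 D true (z P)) +
      (if m then 1 else 0) * s01 (TT.qr P (-p2 D true)))
  exact absurd h16 (by decide)

end

end TRZ
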