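import Pool.Agent.TRZ.FD10
import Pool.Agent.TRP.FM3

/-! # [ALL2-FD11] the density theorem for all allowed dyadic types -/

set_option autoImplicit false

open NumberField Ideal IsDedekindDomain Filter Topology
open scoped Real Classical ComplexConjugate
open TR TRG TTS TU TT XTB TRP

namespace TRZ

/-- mixtures -/
theorem mix {ι : Type} (s : Finset ι) (a b : ι → ℕ → ℝ) {c : ℝ}
    (h : ∀ i ∈ s, Tendsto (fun X => a i X / b i X) atTop (𝓝 c)) (hb : ∀ i ∈ s, ∀ᶠ X in atTop, 0 < b i X)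
    (hs : s.Nonempty) : Tendsto (fun X => (∑ i ∈ s, a i X) / ∑ i ∈ s, b i X) atTop (𝓝 c) := by
  rw [Metric.tendsto_atTop]
  intro ε hε
  have h1 : ∀ᶠ X in atTop, ∀ i ∈ s, 0 < b i X ∧ dist (a i X / b i X) c < ε / 2 := by
    rw [Filter.eventually_all_finset]
    intro i hi
    filter_upwards [hb i hi, (Metric.tendsto_nhds.1 (h i hi)) (ε / 2) (half_pos hε)] with X h1 h2
    exact ⟨h1, h2⟩
  obtain ⟨N, hN⟩ := Filter.eventually_atTop.1 h1
  refine ⟨N, fun X hX => ?_⟩
  have h2 := hN X hX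
  have hB : 0 < ∑ i ∈ s, b i X := Finset.sum_pos (fun i hi => (h2 i hi).1) hs
  rw [Real.dist_eq]
  have e : (∑ i ∈ s, a i X) / (∑ i ∈ s, b i X) - c = (∑ i ∈ s, (a i X - c * b i X)) / ∑ i ∈ s, b i X := by
    rw [Finset.sum_sub_distrib, ← Finset.mul_sum]
    field_simp
  rw [e, abs_div, abs_of_pos hB, div_lt_iff₀ hB]
  calc |∑ i ∈ s, (a i X - c * b i X)| ≤ ∑ i ∈ s, |a i X - c * b i X| := Finset.abs_sum_le_sum_abs _ _
    _ ≤ ∑ i ∈ s, ε / 2 * b i X := by
        refine Finset.sum_le_sum fun i hi => ?_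
        obtain ⟨h3, h4⟩ := h2 i hi
        rw [Real.dist_eq] at h4
        have e1 : a i X - c * b i X = (a i X / b i X - c) * b i X := by
          field_simp
        rw [e1, abs_mul, abs_of_pos h3]
        exact mul_le_mul_of_nonneg_right h4.le h3.le
    _ = ε / 2 * ∑ i ∈ s, b i X := by rw [Finset.mul_sum]
    _ < ε * ∑ i ∈ s, b i X := mul_lt_mul_of_pos_right (by linarith) hB

section
variable {P : Type}

/-- the number of the sets with norm at most `x` and property `Q` -/
noncomputable def cnt (B : TRQ.Base P) (x : ℝ) (Q : Finset P → Prop) : ℕ := ((B.sb x).filter Q).card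

theorem cnt_eq (B : TRQ.Base P) (x : ℝ) (Q : Finset P → Prop) [h : DecidablePred Q] :
    ((B.sb x).filter Q).card = cnt B x Q := card_dec _ _ _ _

theorem cnt_congr (B : TRQ.Base P) {x : ℝ} {Q Q' : Finset P → Prop} (h : ∀ S, Q S ↔ Q' S) : cnt B x Q = cnt B x Q' := by
  rw [show Q = Q' from funext fun S => propext (h S)]

variable {G : Type} [AddCommGroup G] [Fintype G]

theorem main_cnt (B : TRPA.DSys P G) {ka μ μ' : G →+ ZMod 2} {c₀ : G}
    (hρ : TRPA.rhoW ka μ μ' c₀ ≠ 0) (hγ : B.gamW ka μ μ' c₀ ≠ 0) (hψ : ∃ g, B.om g g ≠ 0) :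
    Tendsto (fun X : ℝ => (cnt B.toBase X (fun S => B.cs S = c₀ ∧ B.NS ka μ μ' S) : ℝ) /
      (cnt B.toBase X (fun S => B.cs S = c₀) : ℝ)) atTop (𝓝 TRP.cinf) := by
  refine (TRPA.main_dirW B (F₀ := ∅) (F₁ := ∅) (Finset.Subset.refl _) hρ hγ hψ).congr fun X => ?_
  rw [cnt_eq, cnt_eq]
  congr 2
  · apply cnt_congr
    intro S
    rw [TRPA.GW_iff, Finset.inter_empty]
    exact ⟨fun h => h.2, fun h => ⟨rfl, h⟩⟩
  · apply cnt_congr
    intro S
    rw [Finset.inter_empty]
    exact ⟨fun h => h.2, fun h => ⟨rfl, h⟩⟩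

theorem cls_tend (B : TRPA.DSys P G) (c₀ : G) :
    Tendsto (fun X : ℝ => (cnt B.toBase X (fun S => B.cs S = c₀) : ℝ)) atTop atTop := by
  obtain ⟨κ, X₀, hκ, h2⟩ := TRPA.class_ge B c₀
  have h3 : Tendsto (fun X : ℝ => κ * ((B.sb X).card : ℝ)) atTop atTop :=
    (tendsto_card_sb B.toMSys).const_mul_atTop hκ
  refine tendsto_atTop_mono' _ ?_ h3
  filter_upwards [eventually_ge_atTop X₀] with X hX
  refine (h2 _ hX).trans (le_of_eq ?_)
  rw [cnt_eq]

end

section
variable {L M : Type} [Field L] [NumberField L] [Field M] [NumberField M] [Algebra L M]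
  [IsTotallyReal L] {D : Dat L M} (hD : Od2 D)

noncomputable instance g8fin (s : Bool) : Fintype (G8 D s) := Fintype.ofFinite _

variable {z : HeightOneSpectrum (𝓞 M) → 𝓞 M} (hz : ∀ P, (2 : 𝓞 M) ∉ P.asIdeal → NG D true P (z P))

/-- the allowed pairs -/
noncomputable def alS (D : Dat L M) (z : HeightOneSpectrum (𝓞 M) → 𝓞 M) : Finset (FI M × G8 D true) :=
  Finset.univ.filter fun p => AL D true z p.1 p.2

include hD hz in
/-- the number of the curves in a set of pairs, `Q` -/
theorem fam_sum {B : TRQ.Base (OP M)} (hB : B.N = fun v => absNorm v.1.asIdeal) (X : ℕ)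
    (Q : WeierstrassCurve M → Prop) (A : Finset (FI M × G8 D true)) (F : FI M → Finset (OP M) → Prop)
    (hF : ∀ (f : FI M) (T : Finset (OP M)) (C : WeierstrassCurve.VariableChange M),
      Q (C • Ws (dl D true z f T)) ↔ (f, csz D true z T) ∈ A ∧ F f T) :
    (cmFamily M X Q).Finite ∧ (cmFamily M X Q).ncard =
      ∑ p ∈ A, cnt B ((X : ℝ) / betaC hD true z p.1 p.2) (fun T => csz D true z T = p.2 ∧ F p.1 T) := by
  obtain ⟨F', hF'⟩ : ∃ F' : FI M → Finset (OP M) → Prop, ∀ f T, F' f T ↔ (f, csz D true z T) ∈ A ∧ F f T :=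
    ⟨fun f T => (f, csz D true z T) ∈ A ∧ F f T, fun _ _ => Iff.rfl⟩
  obtain ⟨h1, h2⟩ := fam_card hD hz hB X Q F' fun f T C => (hF f T C).trans (hF' f T).symm
  refine ⟨h1, h2.trans ?_⟩
  have hkey : ∀ f : FI M, ((B.sb (X : ℝ)).filter fun T => B.nS T * beta hD (dl D true z f T) ≤ X ∧
      F' f T).card =
      ∑ c : G8 D true, if (f, c) ∈ A then cnt B ((X : ℝ) / betaC hD true z f c) (fun T =>
        csz D true z T = c ∧ F f T) else 0 := by
    intro f
    rw [Finset.card_eq_sum_card_fiberwise (f := fun T => csz D true z T) (t := Finset.univ) (fun _ _ => Finset.mem_univ _)]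
    refine Finset.sum_congr rfl fun c _ => ?_
    by_cases hc : (f, c) ∈ A
    · rw [if_pos hc, ← cnt_eq B _ (fun T => csz D true z T = c ∧ F f T)]
      congr 1
      ext T
      rw [Finset.mem_filter, Finset.mem_filter, Finset.mem_filter, B.mem_sb, B.mem_sb, betaC_eq hD hz, hF']
      constructor
      · rintro ⟨⟨h3, h4, h5, h6⟩, h7⟩
        have h7' : csz D true z T = c := h7
        rw [h7'] at h4
        have hb : (0 : ℝ) < betaC hD true z f c := by exact_mod_cast betaC_pos hD f c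
        refine ⟨?_, h7', h6⟩
        rw [le_div_iff₀ hb]
        exact_mod_cast h4
      · rintro ⟨h3, h4, h5⟩
        have hb : (0 : ℝ) < betaC hD true z f c := by exact_mod_cast betaC_pos hD f c
        have hb1 : (1 : ℝ) ≤ betaC hD true z f c := by exact_mod_cast betaC_pos hD f c
        have h3' := h3
        rw [le_div_iff₀ hb] at h3
        rw [h4]
        refine ⟨⟨?_, by exact_mod_cast h3, hc, h5⟩, rfl⟩
        have h6 : (0 : ℝ) ≤ B.nS T := Nat.cast_nonneg _
        nlinarith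
    · rw [if_neg hc, Finset.card_eq_zero, Finset.filter_eq_empty_iff]
      intro T hT h7
      rw [Finset.mem_filter, hF'] at hT
      have h7' : csz D true z T = c := h7
      rw [h7'] at hT
      exact hc hT.2.2.1
  rw [Finset.sum_congr rfl fun f _ => hkey f]
  rw [← Fintype.sum_prod_type' (f := fun (f : FI M) (c : G8 D true) => if (f, c) ∈ A then
    cnt B ((X : ℝ) / betaC hD true z f c) (fun T => csz D true z T = c ∧ F f T) else 0)]
  rw [← Finset.sum_filter]
  congr 1
  ext p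
  simp

include hD hz in
/-- an allowed pair: odd valuations at both primes above `2` -/
theorem al_ne : (alS D z).Nonempty := by
  refine ⟨(((1 : FM1Q M), true, true), csz D true z ∅), ?_⟩
  unfold alS
  rw [Finset.mem_filter]
  refine ⟨Finset.mem_univ _, ?_⟩
  rw [AL_iff hD hz]
  intro t P hP hsq
  set f : FI M := ((1 : FM1Q M), true, true) with hf
  have hr0 : ((rs7 D t : 𝓞 M) : M) ≠ 0 := by
    rw [Ne, RingOfIntegers.coe_eq_zero_iff]
    intro h
    have h3 := rs7_sq (D := D) t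
    rw [h] at h3
    have h4 : (7 : 𝓞 M) = 0 := by linear_combination h3
    norm_num at h4
  have hd := dl_ne hD hz f ∅
  have h1 := (TRX.Sq_of_isSquare P (mul_ne_zero hd hr0) hsq).ur.val
  have e : P.valuation M (dl D true z f ∅ * ((rs7 D t : 𝓞 M) : M)) = P.valuation M ((kq D true f : 𝓞 M) : M) := by
    have h2 : dl D true z f ∅ * D.r = ((kq D true f : 𝓞 M) : M) := by
      rw [dl_r]
      unfold dx
      rw [Finset.prod_empty, mul_one]
    cases t
    · rw [bl_rs7_false, show ((-D.rr : 𝓞 M) : M) = -((D.rr : 𝓞 M) : M) from map_neg (algebraMap (𝓞 M) M) _,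
        mul_neg, Valuation.map_neg, bl_rr_r, h2]
    · rw [bl_rs7_true, bl_rr_r, h2]
  rw [e, val_kq hD] at h1
  have h2 : (2 : 𝓞 M) ∈ P.asIdeal := by
    rw [← p12 D t]
    exact Ideal.mul_mem_left _ _ hP
  obtain ⟨t', rfl⟩ := (two_iff hD).1 h2
  have h5 := Vp_ne hD true
  have h6 := h5.symm
  cases t'
  · simp only [Bool.not_true] at h5 h6 h1
    simp only [hf, true_imp_iff] at h1
    tauto
  · simp only [Bool.not_true] at h5 h6 h1
    simp only [hf, true_imp_iff] at h1
    tauto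

variable (B : TRPA.DSys (OP M) (G8 D true)) (hN : B.N = fun v => absNorm v.1.asIdeal)
  (hw : B.w = fun u v => TRG.aM z u.1 v.1) (hc : B.c = fun v => c8 D true (z v.1))

include hc in
omit [IsTotallyReal L] in
theorem fd_cs_eq (T : Finset (OP M)) : B.cs T = csz D true z T := by
  unfold TRPA.DSys.cs csz
  rw [hc]

theorem div_tend (b : ℕ) (hb : 0 < b) : Tendsto (fun X : ℕ => (X : ℝ) / b) atTop atTop :=
  tendsto_natCast_atTop_atTop.atTop_div_const (by exact_mod_cast hb)

include hD hc in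
/-- the number of the sets of one class -/
theorem tend_cls (p : FI M × G8 D true) :
    Tendsto (fun X : ℕ => (cnt B.toBase ((X : ℝ) / betaC hD true z p.1 p.2) (fun T =>
      csz D true z T = p.2 ∧ True) : ℝ)) atTop atTop := by
  refine ((cls_tend B p.2).comp (div_tend (betaC hD true z p.1 p.2) (betaC_pos hD p.1 p.2))).congr fun X => ?_
  simp only [Function.comp]
  congr 1
  apply cnt_congr
  intro T
  rw [fd_cs_eq B hc, and_true]

include hD hz hc in
/-- **the density for one allowed pair** -/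
theorem ratio_cls {om : G8 D true →+ G8 D true →+ ZMod 2} (hBo : B.om = om)
    (hom : ∀ (z : HeightOneSpectrum (𝓞 M) → 𝓞 M) (P Q : HeightOneSpectrum (𝓞 M)), P ≠ Q → (2 : 𝓞 M) ∉ P.asIdeal →
      (2 : 𝓞 M) ∉ Q.asIdeal → NG D true P (z P) → NG D true Q (z Q) →
      TRG.aM z P Q + TRG.aM z Q P = om (c8 D true (z P)) (c8 D true (z Q)))
    (hom0 : ∀ (R : HeightOneSpectrum (𝓞 M)) (q : 𝓞 M), R.asIdeal = span {D.rr} → NG D true R q →
      ∀ g, om g g = om g (c8 D true q)) (hps : ∃ g, om g g ≠ 0) {p : FI M × G8 D true} (hp : p ∈ alS D z) :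
    Tendsto (fun X : ℕ => (cnt B.toBase ((X : ℝ) / betaC hD true z p.1 p.2) (fun T => csz D true z T = p.2 ∧
        B.NS (chi D true (kq D true p.1)) (chi D true (-p1 D true)) (chi D true (-p2 D true)) T) : ℝ) /
      (cnt B.toBase ((X : ℝ) / betaC hD true z p.1 p.2) (fun T => csz D true z T = p.2 ∧ True) : ℝ))
      atTop (𝓝 TRP.cinf) := by
  unfold alS at hp
  rw [Finset.mem_filter] at hp
  obtain ⟨T₀, hT₀, hN₀⟩ := hp.2
  have hρ := rho_ne hD hz p.1 T₀ (hN₀ true)
  have hγ := gam_ne hD hz B hBo hom hom0 p.1 T₀ (hN₀ false)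
  rw [hT₀] at hρ hγ
  have h1 := (main_cnt B hρ hγ (by rw [hBo]; exact hps)).comp
    (div_tend (betaC hD true z p.1 p.2) (betaC_pos hD p.1 p.2))
  refine h1.congr fun X => ?_
  simp only [Function.comp]
  congr 2
  · apply cnt_congr
    intro T
    rw [fd_cs_eq B hc]
  · apply cnt_congr
    intro T
    rw [fd_cs_eq B hc, and_true]

end

section
variable {L M : Type} [Field L] [NumberField L] [Field M] [NumberField M] [Algebra L M]
  [IsTotallyReal L] {D : Dat L M} (hD : Od2 D)

include hD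

/-- **[ALL2] the density theorem** -/
theorem all2_density {Al : WeierstrassCurve M → Prop}
    (hAl : ∀ d : M, d ≠ 0 → ∀ C : WeierstrassCurve.VariableChange M, Al (C • Ws d) ↔ ∀ t, Nsq D t d) :
    (∀ X : ℕ, (cmFamily M X Al).Finite) ∧
    Tendsto (fun X : ℕ => (cmFamily M X Al).ncard) atTop atTop ∧
    Tendsto (fun X : ℕ => ((cmFamily M X fun E => Al E ∧ TRB.FiniteSha E).ncard : ℝ) /
      ((cmFamily M X Al).ncard : ℝ)) atTop (𝓝 (∏' k : ℕ, (1 - 1 / 2 ^ (k + 1)))) := by
  obtain ⟨z, hz⟩ : ∃ z : HeightOneSpectrum (𝓞 M) → 𝓞 M, ∀ P, (2 : 𝓞 M) ∉ P.asIdeal → NG D true P (z P) := by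
    have h : ∀ P : HeightOneSpectrum (𝓞 M), (2 : 𝓞 M) ∉ P.asIdeal → ∃ q, NG D true P q :=
      fun P hP => exists_NG hD true hP
    choose! z hz using h
    exact ⟨z, hz⟩
  obtain ⟨om, hsy, hom, hom0, hps⟩ := exists_om hD true
  obtain ⟨B, hN, hw, hc, hBom⟩ := exists_dsys hD true hz om hsy fun P Q hPQ hP hQ =>
    hom z P Q hPQ hP hQ (hz P hP) (hz Q hQ)
  have hal : ∀ (f : FI M) (T : Finset (OP M)) (C : WeierstrassCurve.VariableChange M),
      Al (C • Ws (dl D true z f T)) ↔ (f, csz D true z T) ∈ alS D z := by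
    intro f T C
    rw [hAl _ (dl_ne hD hz f T) C, ← AL_iff hD hz]
    unfold alS
    rw [Finset.mem_filter]
    exact ⟨fun h => ⟨Finset.mem_univ _, h⟩, fun h => h.2⟩
  have h1 := fun X => fam_sum hD hz (B := B.toBase) hN X Al (alS D z) (fun _ _ => True)
    (fun f T C => by rw [hal, and_true])
  have h2 := fun X => fam_sum hD hz (B := B.toBase) hN X (fun E => Al E ∧ TRB.FiniteSha E) (alS D z)
    (fun f T => B.NS (chi D true (kq D true f)) (chi D true (-p1 D true)) (chi D true (-p2 D true)) T)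
    (fun f T C => by
      rw [hal]
      refine and_congr_right fun h => ?_
      have h3 := (hal f T C).2 h
      rw [hAl _ (dl_ne hD hz f T) C] at h3
      exact sha_iff hD hz B hw hc f T h3 C)
  have hne := al_ne hD hz
  have htend : ∀ p ∈ alS D z, Tendsto (fun X : ℕ => (cnt B.toBase ((X : ℝ) / betaC hD true z p.1 p.2) (fun T =>
      csz D true z T = p.2 ∧ True) : ℝ)) atTop atTop := fun p _ => tend_cls hD B hc p
  refine ⟨fun X => (h1 X).1, ?_, ?_⟩
  · obtain ⟨p, hp⟩ := hne
    have h3 : Tendsto (fun X : ℕ => ((cmFamily M X Al).ncard : ℝ)) atTop atTop := by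
      refine tendsto_atTop_mono (fun X => ?_) (htend p hp)
      rw [(h1 X).2]
      push_cast
      exact Finset.single_le_sum (f := fun p : FI M × G8 D true => (cnt B.toBase ((X : ℝ) / betaC hD true z p.1 p.2)
        (fun T => csz D true z T = p.2 ∧ True) : ℝ)) (fun _ _ => Nat.cast_nonneg _) hp
    exact tendsto_natCast_atTop_iff.1 h3
  · have h3 := mix (alS D z) (fun p X => (cnt B.toBase ((X : ℝ) / betaC hD true z p.1 p.2) (fun T => csz D true z T = p.2 ∧
        B.NS (chi D true (kq D true p.1)) (chi D true (-p1 D true)) (chi D true (-p2 D true)) T) : ℝ))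
      (fun p X => (cnt B.toBase ((X : ℝ) / betaC hD true z p.1 p.2) (fun T => csz D true z T = p.2 ∧ True) : ℝ))
      (fun p hp => ratio_cls hD hz B hc hBom hom hom0 hps hp)
      (fun p hp => (htend p hp).eventually_gt_atTop 0) hne
    refine (h3.congr fun X => ?_).trans_eq rfl
    rw [(h1 X).2, (h2 X).2]
    push_cast
    rfl

end

end TRZ
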