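import Pool.Agent.TRZ.FD10
import Pool.Agent.TRZ.SG2

/-! # [ALL2-FD12] the pairs `(f, c)` are the pairs of the local classes at the two primes above `2` -/

set_option autoImplicit false

open NumberField Ideal IsDedekindDomain Filter Topology
open scoped Real Classical ComplexConjugate
open TR TRG TTS TU TT XTB TRP

namespace TRZ

section
variable {L M : Type} [Field L] [NumberField L] [Field M] [NumberField M] [Algebra L M]
  [IsTotallyReal L] {D : Dat L M} (hD : Od2 D)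

/-- the residue field of `2` -/
abbrev RF (L : Type) [Field L] [NumberField L] : Type := 𝓞 L ⧸ span {(2 : 𝓞 L)}

/-- the class modulo `4` of an odd element: `β` for `a² (1 + 2 β)` -/
noncomputable def bcl (x : 𝓞 L) : RF L :=
  if h : ∃ β : 𝓞 L, Cl β x then Ideal.Quotient.mk (span {(2 : 𝓞 L)}) h.choose else 0

include hD in
theorem bcl_eq {x β : 𝓞 L} (h : Cl β x) : bcl x = Ideal.Quotient.mk (span {(2 : 𝓞 L)}) β := by
  have h' : ∃ β : 𝓞 L, Cl β x := ⟨β, h⟩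
  unfold bcl
  rw [dif_pos h']
  exact (Ideal.Quotient.eq).2 (cl_uniq hD h'.choose_spec h)

include hD in
theorem bcl_mul {x y : 𝓞 L} (hx : x ∉ span {(2 : 𝓞 L)}) (hy : y ∉ span {(2 : 𝓞 L)}) : bcl (x * y) = bcl x + bcl y := by
  obtain ⟨β, hβ⟩ := exists_cl hD hx
  obtain ⟨γ, hγ⟩ := exists_cl hD hy
  rw [bcl_eq hD hβ, bcl_eq hD hγ, bcl_eq hD (cl_mul hβ hγ), map_add]

include hD in
theorem bcl_per {x : 𝓞 L} (hx : x ∉ span {(2 : 𝓞 L)}) (c : 𝓞 L) : bcl (x + 4 * c) = bcl x := by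
  obtain ⟨β, hβ⟩ := exists_cl hD hx
  rw [bcl_eq hD hβ, bcl_eq hD (cl_add hβ c)]

include hD in
theorem bcl_zero {x : 𝓞 L} (hx : x ∉ span {(2 : 𝓞 L)}) : bcl x = 0 ↔ Q4 x := by
  obtain ⟨β, hβ⟩ := exists_cl hD hx
  rw [bcl_eq hD hβ, Ideal.Quotient.eq_zero_iff_mem]
  constructor
  · intro h
    obtain ⟨s, c, hs, h1⟩ := cl_congr (by rw [sub_zero]; exact h : β - 0 ∈ span {(2 : 𝓞 L)}) hβ
    exact ⟨s, c, hs, by rw [h1]; ring⟩
  · rintro ⟨s, c, hs, h1⟩
    have h2 : Cl (0 : 𝓞 L) x := ⟨s, c, hs, by rw [h1]; ring⟩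
    have h3 := cl_uniq hD hβ h2
    rwa [sub_zero] at h3

theorem rf_two (x : RF L) : x + x = 0 := by
  obtain ⟨y, rfl⟩ := Ideal.Quotient.mk_surjective x
  rw [← map_add, Ideal.Quotient.eq_zero_iff_mem, ← two_mul]
  exact Ideal.mul_mem_right _ _ (Ideal.mem_span_singleton_self _)

theorem nm2_iff (h2 : (span {(2 : 𝓞 L)}).IsPrime) {x y : 𝓞 L} (hx : x ∉ span {(2 : 𝓞 L)}) (hy : y ∉ span {(2 : 𝓞 L)}) :
    x * y ∉ span {(2 : 𝓞 L)} := fun h => (h2.mem_or_mem h).elim hx hy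

theorem unit_nm2 (h2 : (span {(2 : 𝓞 L)}).IsPrime) (u : (𝓞 L)ˣ) : (u : 𝓞 L) ∉ span {(2 : 𝓞 L)} := fun h =>
  h2.ne_top (Ideal.eq_top_of_isUnit_mem _ h u.isUnit)

/-! ### the units -/

/-- the unit of `L` -/
noncomputable def ue (D : Dat L M) (q : FM1Q M) : (𝓞 L)ˣ := (D.unit_real (Quotient.out q : (𝓞 M)ˣ)).choose

theorem ue_spec (q : FM1Q M) : algebraMap (𝓞 L) (𝓞 M) (ue D q : 𝓞 L) = ((Quotient.out q : (𝓞 M)ˣ) : 𝓞 M) :=
  (D.unit_real (Quotient.out q : (𝓞 M)ˣ)).choose_spec.symm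

/-- the class of a unit -/
noncomputable def wu (D : Dat L M) (q : FM1Q M) : RF L := bcl (ue D q : 𝓞 L)

theorem algL_inj : Function.Injective (algebraMap (𝓞 L) (𝓞 M)) := RingOfIntegers.algebraMap.injective L M

include hD in
theorem wu_inj : Function.Injective (wu D) := by
  intro q q' h
  unfold wu at h
  have h1 : bcl ((ue D q : 𝓞 L) * (ue D q' : 𝓞 L)) = 0 := by
    rw [bcl_mul hD (unit_nm2 hD.two _) (unit_nm2 hD.two _), h, rf_two]
  rw [bcl_zero hD (nm2_iff hD.two (unit_nm2 hD.two _) (unit_nm2 hD.two _)), ← Units.val_mul] at h1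
  obtain ⟨w, hw⟩ := q4_unit hD h1
  have h2 : (Quotient.out q : (𝓞 M)ˣ) * (Quotient.out q' : (𝓞 M)ˣ) = (Units.map (algebraMap (𝓞 L) (𝓞 M)).toMonoidHom w) ^ 2 := by
    apply Units.ext
    rw [Units.val_mul, ← ue_spec (D := D) q, ← ue_spec (D := D) q', ← map_mul, ← Units.val_mul, hw,
      Units.val_pow_eq_pow_val, Units.val_pow_eq_pow_val, map_pow]
    rfl
  have h5 : (QuotientGroup.mk ((Quotient.out q : (𝓞 M)ˣ) * (Quotient.out q' : (𝓞 M)ˣ)⁻¹) : FM1Q M) = 1 := by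
    rw [QuotientGroup.eq_one_iff]
    refine ⟨Units.map (algebraMap (𝓞 L) (𝓞 M)).toMonoidHom w * (Quotient.out q' : (𝓞 M)ˣ)⁻¹, ?_⟩
    rw [powMonoidHom_apply, mul_pow, ← h2, sq, mul_assoc, mul_inv_cancel_left]
  have h7 : (QuotientGroup.mk (Quotient.out q) : FM1Q M) = q := Quotient.out_eq _
  have h8 : (QuotientGroup.mk (Quotient.out q') : FM1Q M) = q' := Quotient.out_eq _
  have h6 : (QuotientGroup.mk (Quotient.out q) : FM1Q M) * (QuotientGroup.mk (Quotient.out q') : FM1Q M)⁻¹ = 1 := by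
    rw [← QuotientGroup.mk_inv, ← QuotientGroup.mk_mul]
    exact h5
  rw [h7, h8] at h6
  exact mul_inv_eq_one.1 h6

include hD in
theorem wu_surj : Function.Surjective (wu D) := by
  intro b
  obtain ⟨β, rfl⟩ := Ideal.Quotient.mk_surjective b
  have h1 : (1 + 2 * β) ∉ span {(2 : 𝓞 L)} := by
    intro h
    apply hD.two.ne_top
    rw [Ideal.eq_top_iff_one]
    have e : (1 : 𝓞 L) = (1 + 2 * β) - 2 * β := by ring
    rw [e]
    exact sub_mem h (Ideal.mul_mem_right _ _ (Ideal.mem_span_singleton_self _))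
  have hxm : algebraMap (𝓞 L) (𝓞 M) (1 + 2 * β) ∉ span {p2 D true} := by
    rw [← rd8_even hD true]
    intro h
    apply h1
    obtain ⟨e, he⟩ := Ideal.mem_span_singleton'.1 (rd8_alg hD true (1 + 2 * β))
    have e1 : 1 + 2 * β = rd8 D true (algebraMap (𝓞 L) (𝓞 M) (1 + 2 * β)) - 2 * (4 * e) := by linear_combination he
    rw [e1]
    exact sub_mem h (Ideal.mul_mem_right _ _ (Ideal.mem_span_singleton_self _))
  obtain ⟨u, hu⟩ := exists_et hD true hxm
  rw [← map_mul] at hu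
  have h2 : Q4 (rd8 D true (algebraMap (𝓞 L) (𝓞 M) ((u : 𝓞 L) * (1 + 2 * β)))) := (rd8_et hD true _).1 hu
  have h3 : bcl ((u : 𝓞 L) * (1 + 2 * β)) = 0 := by
    rw [bcl_zero hD (nm2_iff hD.two (unit_nm2 hD.two _) h1)]
    obtain ⟨a, c, ha, h4⟩ := h2
    obtain ⟨e, he⟩ := Ideal.mem_span_singleton'.1 (rd8_alg hD true ((u : 𝓞 L) * (1 + 2 * β)))
    exact ⟨a, c - 2 * e, ha, by linear_combination h4 + he⟩
  rw [bcl_mul hD (unit_nm2 hD.two _) h1, bcl_eq hD (cl_one β)] at h3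
  refine ⟨QuotientGroup.mk (Units.map (algebraMap (𝓞 L) (𝓞 M)).toMonoidHom u), ?_⟩
  set q : FM1Q M := QuotientGroup.mk (Units.map (algebraMap (𝓞 L) (𝓞 M)).toMonoidHom u) with hq
  have h5 : (QuotientGroup.mk (Quotient.out q) : FM1Q M) = q := Quotient.out_eq _
  rw [hq, QuotientGroup.eq] at h5
  obtain ⟨v, hv⟩ := h5
  obtain ⟨v', hv'⟩ := D.unit_real v
  -- `out q v² = u`
  have h6 : (ue D q : 𝓞 L) * (v' : 𝓞 L) ^ 2 = (u : 𝓞 L) := by
    apply algL_inj (L := L) (M := M)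
    rw [map_mul, map_pow, ue_spec, ← hv']
    have h7 : (Quotient.out q : (𝓞 M)ˣ) * v ^ 2 = Units.map (algebraMap (𝓞 L) (𝓞 M)).toMonoidHom u := by
      have h8 : v ^ 2 = (Quotient.out q : (𝓞 M)ˣ)⁻¹ * Units.map (algebraMap (𝓞 L) (𝓞 M)).toMonoidHom u := hv
      rw [h8, mul_inv_cancel_left]
    have h9 := congrArg (fun x : (𝓞 M)ˣ => (x : 𝓞 M)) h7
    simp only [Units.val_mul, Units.val_pow_eq_pow_val] at h9
    exact h9
  have h7 : bcl (u : 𝓞 L) = wu D q := by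
    unfold wu
    rw [← h6, sq, bcl_mul hD (unit_nm2 hD.two _) (nm2_iff hD.two (unit_nm2 hD.two _) (unit_nm2 hD.two _)),
      bcl_mul hD (unit_nm2 hD.two _) (unit_nm2 hD.two _), rf_two, add_zero]
  rw [← h7]
  calc bcl (u : 𝓞 L) = bcl (u : 𝓞 L) + (Ideal.Quotient.mk (span {(2 : 𝓞 L)}) β + Ideal.Quotient.mk (span {(2 : 𝓞 L)}) β) := by
        rw [rf_two, add_zero]
    _ = (bcl (u : 𝓞 L) + Ideal.Quotient.mk (span {(2 : 𝓞 L)}) β) + Ideal.Quotient.mk (span {(2 : 𝓞 L)}) β :=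
        (add_assoc _ _ _).symm
    _ = Ideal.Quotient.mk (span {(2 : 𝓞 L)}) β := by rw [h3, zero_add]

/-! ### the classes -/

include hD in
theorem one_nm2 : (1 : 𝓞 L) ∉ span {(2 : 𝓞 L)} := unit_nm2 hD.two 1

include hD in
theorem t8_five : t8 (5 : 𝓞 L) = -1 := by
  have h := t8_four hD (x := (1 : 𝓞 L)) (y := 1) (c := 1) (by rw [mul_one, sub_self]; exact Submodule.zero_mem _) (one_nm2 hD)
  have h1 : t8 (1 : 𝓞 L) = 1 := x1_t8_one
  have h2 : Algebra.trace ℤ (𝓞 L) 1 = Module.finrank ℚ L := by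
    have h3 := Algebra.trace_algebraMap (R := ℤ) (S := 𝓞 L) 1
    rw [map_one, RingOfIntegers.rank L] at h3
    rw [h3]
    simp
  have h3 : ¬ (2 : ℤ) ∣ Algebra.trace ℤ (𝓞 L) 1 := by
    rw [h2]
    have := hD.odd
    obtain ⟨k, hk⟩ := this
    rw [hk]
    push_cast
    omega
  rw [h1, if_neg h3, one_mul] at h
  rw [← h]
  congr 1
  norm_num

include hD in
theorem exists_crt (y₁ y₂ : 𝓞 L) : ∃ (x : 𝓞 M) (e₁ e₂ : 𝓞 L), rd8 D false x = y₁ + 8 * e₁ ∧ rd8 D true x = y₂ + 8 * e₂ := by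
  have hc : IsCoprime (p1 D true ^ 3) (p2 D true ^ 3) := by
    have h1 : IsCoprime (p1 D true) (p2 D true) := ⟨1, 1, by rw [one_mul, one_mul]; exact p12_add D true⟩
    exact h1.pow
  obtain ⟨a, b, hab⟩ := hc
  set x : 𝓞 M := algebraMap (𝓞 L) (𝓞 M) y₂ * (a * p1 D true ^ 3) + algebraMap (𝓞 L) (𝓞 M) y₁ * (b * p2 D true ^ 3) with hx
  have h1 : x - algebraMap (𝓞 L) (𝓞 M) y₂ ∈ span {p2 D true ^ 3} := by
    refine Ideal.mem_span_singleton'.2 ⟨(algebraMap (𝓞 L) (𝓞 M) y₁ - algebraMap (𝓞 L) (𝓞 M) y₂) * b, ?_⟩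
    rw [hx]
    linear_combination (-algebraMap (𝓞 L) (𝓞 M) y₂) * hab
  have h2 : x - algebraMap (𝓞 L) (𝓞 M) y₁ ∈ span {p2 D false ^ 3} := by
    refine Ideal.mem_span_singleton'.2 ⟨(algebraMap (𝓞 L) (𝓞 M) y₂ - algebraMap (𝓞 L) (𝓞 M) y₁) * a, ?_⟩
    rw [show p2 D false = p1 D true from rfl, hx]
    linear_combination (-algebraMap (𝓞 L) (𝓞 M) y₁) * hab
  obtain ⟨e₂, he₂⟩ := Ideal.mem_span_singleton'.1 (rd8_uniq hD true h1)
  obtain ⟨e₁, he₁⟩ := Ideal.mem_span_singleton'.1 (rd8_uniq hD false h2)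
  exact ⟨x, e₁, e₂, by linear_combination -he₁, by linear_combination -he₂⟩

/-- the class modulo `4` at the other prime -/
noncomputable def kg (c : G8 D true) : RF L := bcl (rd8 D false (a2_surj c).choose)

include hD in
theorem bcl_rd8 {s : Bool} {x y : 𝓞 M} (hx : IsCoprime x 2) (hy : IsCoprime y 2) :
    bcl (rd8 D s (x * y)) = bcl (rd8 D s x) + bcl (rd8 D s y) := by
  obtain ⟨e, he⟩ := Ideal.mem_span_singleton'.1 (rd8_mul hD s x y)
  have h1 : rd8 D s (x * y) = rd8 D s x * rd8 D s y + 4 * (2 * e) := by linear_combination -he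
  rw [h1, bcl_per hD (nm2_iff hD.two (rd8_nm hD hx) (rd8_nm hD hy)), bcl_mul hD (rd8_nm hD hx) (rd8_nm hD hy)]

include hD in
theorem t8_rd8 {s : Bool} (x y : 𝓞 M) : t8 (rd8 D s (x * y)) = t8 (rd8 D s x) * t8 (rd8 D s y) := by
  obtain ⟨e, he⟩ := Ideal.mem_span_singleton'.1 (rd8_mul hD s x y)
  have h1 : rd8 D s (x * y) = rd8 D s x * rd8 D s y + 8 * e := by linear_combination -he
  rw [h1, t8_per hD, t8_mul hD]

include hD in
theorem kg_c8 {x : 𝓞 M} (hx : Et D true x) (hx2 : IsCoprime x 2) : kg (c8 D true x) = bcl (rd8 D false x) := by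
  obtain ⟨h1, h2, h3⟩ := (a2_surj (c8 D true x)).choose_spec
  unfold kg
  set y := (a2_surj (c8 D true x)).choose with hy
  have h4 := c8_inj h1 h2 hx hx2 h3
  obtain ⟨t, c, ht, h5⟩ := q8_eq h2 hx2 h4
  obtain ⟨e, he⟩ := rd8_per hD false (t ^ 2 * x) c
  have ht2 : IsCoprime (t ^ 2) 2 := IsCoprime.pow_left ht
  rw [h5, he, show rd8 D false (t ^ 2 * x) + 8 * e = rd8 D false (t ^ 2 * x) + 4 * (2 * e) by ring,
    bcl_per hD (rd8_nm hD (ht2.mul_left hx2)), bcl_rd8 hD ht2 hx2, sq, bcl_rd8 hD ht ht, rf_two, zero_add]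

include hD in
theorem ag_c8 {x : 𝓞 M} (hx : Et D true x) (hx2 : IsCoprime x 2) :
    chi D true (-p2 D true) (c8 D true x) = s01 (t8 (rd8 D true x)) := by
  rw [chi_c8 (K8.w2 hD true) hx hx2]
  congr 1
  exact rec_unif hD hx2 false

include hD in
theorem bg_c8 {x : 𝓞 M} (hx : Et D true x) (hx2 : IsCoprime x 2) :
    chi D true (-p1 D true) (c8 D true x) = s01 (t8 (rd8 D false x)) := by
  rw [chi_c8 (K8.w1 hD true) hx hx2]
  congr 1
  exact rec_unif hD hx2 true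

include hD in
theorem t8_pm {s : Bool} {x : 𝓞 M} (hx : IsCoprime x 2) : t8 (rd8 D s x) = 1 ∨ t8 (rd8 D s x) = -1 := by
  rcases t8_val hD (rd8 D s x) with h | h
  · exact absurd ((t8_zero hD _).1 h) (rd8_nm hD hx)
  · exact h

theorem s01_inj {a b : ℤ} (ha : a = 1 ∨ a = -1) (hb : b = 1 ∨ b = -1) (h : s01 a = s01 b) : a = b := by
  rcases ha with rfl | rfl <;> rcases hb with rfl | rfl
  · rfl
  · exact absurd h (by decide)
  · exact absurd h (by decide)
  · rfl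

/-- the three invariants of a class -/
noncomputable def g3 (D : Dat L M) (c : G8 D true) : ZMod 2 × ZMod 2 × RF L :=
  (chi D true (-p2 D true) c, chi D true (-p1 D true) c, kg c)

include hD in
theorem g3_inj : Function.Injective (g3 D) := by
  intro c c' h
  obtain ⟨x, hx, hx2, rfl⟩ := a2_surj c
  obtain ⟨x', hx', hx2', rfl⟩ := a2_surj c'
  have h1 : chi D true (-p2 D true) (c8 D true x) = chi D true (-p2 D true) (c8 D true x') := congrArg Prod.fst h
  have h2 : chi D true (-p1 D true) (c8 D true x) = chi D true (-p1 D true) (c8 D true x') :=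
    congrArg (fun p => p.2.1) h
  have h3 : kg (c8 D true x) = kg (c8 D true x') := congrArg (fun p => p.2.2) h
  rw [ag_c8 hD hx hx2, ag_c8 hD hx' hx2'] at h1
  rw [bg_c8 hD hx hx2, bg_c8 hD hx' hx2'] at h2
  rw [kg_c8 hD hx hx2, kg_c8 hD hx' hx2'] at h3
  have h4 := s01_inj (t8_pm hD hx2) (t8_pm hD hx2') h1
  have h5 := s01_inj (t8_pm hD hx2) (t8_pm hD hx2') h2
  have hy := hx.mul' hx'
  have hy2 := hx2.mul_left hx2'
  have h6 : ∀ s, t8 (rd8 D s (x * x')) = 1 := by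
    intro s
    rw [t8_rd8 hD]
    cases s
    · rw [h5]
      rcases t8_pm hD (s := false) hx2' with h | h <;> rw [h] <;> norm_num
    · rw [h4]
      rcases t8_pm hD (s := true) hx2' with h | h <;> rw [h] <;> norm_num
  have hyf : Et D false (x * x') := by
    rw [rd8_et hD]
    have h7 : bcl (rd8 D false (x * x')) = 0 := by rw [bcl_rd8 hD hx2 hx2', h3, rf_two]
    exact (bcl_zero hD (rd8_nm hD hy2)).1 h7
  have h7 : c8 D true (x * x') = 0 := by
    rw [ad1_c8_zero hy hy2, q8_eq_one_iff hy2]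
    intro P h2P
    obtain ⟨t, rfl⟩ := (two_iff hD).1 h2P
    cases t
    · exact (sg_t8 hD (s := true) (Ideal.mem_span_singleton_self _) hy).2 (h6 true)
    · exact (sg_t8 hD (s := false) (Ideal.mem_span_singleton_self _) hyf).2 (h6 false)
  rw [a2_mul hx hx2 hx' hx2'] at h7
  calc c8 D true x = c8 D true x + (c8 D true x' + c8 D true x') := by rw [ad1_two, add_zero]
    _ = (c8 D true x + c8 D true x') + c8 D true x' := (add_assoc _ _ _).symm
    _ = c8 D true x' := by rw [h7, zero_add]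

include hD in
theorem g3_surj : Function.Surjective (g3 D) := by
  rintro ⟨a, b, k⟩
  obtain ⟨β, rfl⟩ := Ideal.Quotient.mk_surjective k
  have hm : (1 + 2 * β) ∉ span {(2 : 𝓞 L)} := by
    intro h
    apply one_nm2 hD
    have e : (1 : 𝓞 L) = (1 + 2 * β) - 2 * β := by ring
    rw [e]
    exact sub_mem h (Ideal.mul_mem_right _ _ (Ideal.mem_span_singleton_self _))
  have h5 : (5 : 𝓞 L) ∉ span {(2 : 𝓞 L)} := by
    intro h
    apply one_nm2 hD
    have e : (1 : 𝓞 L) = 5 - 2 * 2 := by norm_num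
    rw [e]
    exact sub_mem h (Ideal.mul_mem_right _ _ (Ideal.mem_span_singleton_self _))
  have h15 : ∀ m : Bool, (if m then (5 : 𝓞 L) else 1) ∉ span {(2 : 𝓞 L)} := by
    intro m
    cases m
    · exact one_nm2 hD
    · exact h5
  have hs15 : ∀ m : Bool, s01 (t8 (if m then (5 : 𝓞 L) else 1)) = if m then 1 else 0 := by
    intro m
    cases m
    · simp only [Bool.false_eq_true, if_false]
      rw [x1_t8_one]
      decide
    · simp only [if_true]
      rw [t8_five hD]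
      decide
  obtain ⟨m, hmm⟩ := zmod2 (b + s01 (t8 (1 + 2 * β)))
  obtain ⟨n, hn⟩ := zmod2 a
  obtain ⟨x, e₁, e₂, hx1, hx2⟩ := exists_crt hD ((1 + 2 * β) * (if m then 5 else 1)) (if n then 5 else 1)
  have hy1 := nm2_iff hD.two hm (h15 m)
  have hy2 := h15 n
  have hr1 : rd8 D false x ∉ span {(2 : 𝓞 L)} := by
    rw [hx1]
    intro h
    apply hy1
    have e : (1 + 2 * β) * (if m then 5 else 1) = ((1 + 2 * β) * (if m then 5 else 1) + 8 * e₁) - 2 * (4 * e₁) := by ring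
    rw [e]
    exact sub_mem h (Ideal.mul_mem_right _ _ (Ideal.mem_span_singleton_self _))
  have hr2 : rd8 D true x ∉ span {(2 : 𝓞 L)} := by
    rw [hx2]
    intro h
    apply hy2
    have e : (if n then (5 : 𝓞 L) else 1) = ((if n then 5 else 1) + 8 * e₂) - 2 * (4 * e₂) := by ring
    rw [e]
    exact sub_mem h (Ideal.mul_mem_right _ _ (Ideal.mem_span_singleton_self _))
  have hcp : ∀ s, rd8 D s x ∉ span {(2 : 𝓞 L)} → IsCoprime x (p2 D s) := by
    intro s h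
    rw [rd8_even hD s] at h
    obtain ⟨y, i, hi, hyi⟩ := (Vp hD (!s)).isMaximal.exists_inv (x := x) h
    obtain ⟨c, hc⟩ := Ideal.mem_span_singleton'.1 (show i ∈ span {p2 D s} from hi)
    exact ⟨y, c, by rw [hc]; exact hyi⟩
  have hxo : IsCoprime x 2 := by
    rw [← p12 D true]
    exact (hcp false hr1).mul_right (hcp true hr2)
  have hEt : Et D true x := by
    rw [rd8_et hD, hx2]
    cases n
    · exact ⟨1, 2 * e₂, isCoprime_one_left, by simp only [Bool.false_eq_true, if_false]; ring⟩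
    · exact ⟨1, 1 + 2 * e₂, isCoprime_one_left, by simp only [if_true]; ring⟩
  refine ⟨c8 D true x, ?_⟩
  unfold g3
  rw [ag_c8 hD hEt hxo, bg_c8 hD hEt hxo, kg_c8 hD hEt hxo, hx1, hx2, t8_per hD, t8_per hD, hs15, ← hn]
  have hpm : t8 (1 + 2 * β) = 1 ∨ t8 (1 + 2 * β) = -1 := by
    rcases t8_val hD (1 + 2 * β) with h | h
    · exact absurd ((t8_zero hD _).1 h) hm
    · exact h
  have hpm' : t8 (if m then (5 : 𝓞 L) else 1) = 1 ∨ t8 (if m then (5 : 𝓞 L) else 1) = -1 := by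
    rcases t8_val hD (if m then (5 : 𝓞 L) else 1) with h | h
    · exact absurd ((t8_zero hD _).1 h) (h15 m)
    · exact h
  have hb5 : bcl (if m then (5 : 𝓞 L) else 1) = 0 := by
    rw [bcl_zero hD (h15 m)]
    cases m
    · exact ⟨1, 0, isCoprime_one_left, by simp⟩
    · exact ⟨1, 1, isCoprime_one_left, by simp only [if_true]; norm_num⟩
  rw [show (1 + 2 * β) * (if m then 5 else 1) + 8 * e₁ = (1 + 2 * β) * (if m then 5 else 1) + 4 * (2 * e₁) by ring,
    bcl_per hD hy1, bcl_mul hD hm (h15 m), hb5, add_zero, bcl_eq hD (cl_one β)]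
  rw [t8_mul hD, s01_mul hpm hpm', hs15, ← hmm]
  have h0 : s01 (t8 (1 + 2 * β)) + (b + s01 (t8 (1 + 2 * β))) = b := by
    have h2 : ∀ u v : ZMod 2, u + (v + u) = v := by decide
    exact h2 _ _
  rw [h0]

end

end TRZ
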