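import Pool.Agent.TRZ.FD12
import Pool.Agent.TRZ.FD11
import Pool.Agent.TRZ.SG4
import Pool.Agent.TRZ.C4

/-! # [ALL2-FD13] the local types of the pairs, the sum of the weights -/

set_option autoImplicit false

open NumberField Ideal IsDedekindDomain Filter Topology
open scoped Real Classical ComplexConjugate
open TR TRG TTS TU TT XTB TRP

namespace TRZ

section
variable {L M : Type} [Field L] [NumberField L] [Field M] [NumberField M] [Algebra L M]
  [IsTotallyReal L] {D : Dat L M} (hD : Od2 D)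

noncomputable instance rfFin : Fintype (RF L) :=
  @Fintype.ofFinite _ (Ideal.finiteQuotientOfFreeOfNeBot _ (by
    rw [Ne, Ideal.span_singleton_eq_bot]
    exact two_ne_zero))

/-- the local classes at a prime above `2`: the parity of the valuation, the class modulo `4`, the last invariant -/
abbrev LQ (L : Type) [Field L] [NumberField L] : Type := Bool × RF L × ZMod 2

/-- the pair of the local classes: at `ϖ'` and at `ϖ` -/
noncomputable def pm (D : Dat L M) (p : FI M × G8 D true) : LQ L × LQ L :=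
  ((p.1.2.2, wu D p.1.1, (if p.1.2.1 then 1 else 0) + chi D true (-p2 D true) p.2),
    (p.1.2.1, bcl (-1 : 𝓞 L) + wu D p.1.1 + kg p.2, (if p.1.2.2 then 1 else 0) + chi D true (-p1 D true) p.2))

include hD in
theorem pm_bij : Function.Bijective (pm D) := by
  constructor
  · rintro ⟨⟨q, i, j⟩, c⟩ ⟨⟨q', i', j'⟩, c'⟩ h
    unfold pm at h
    simp only [Prod.mk.injEq] at h
    obtain ⟨⟨h1, h2, h3⟩, h4, h5, h6⟩ := h
    subst h1
    subst h4
    have h7 := wu_inj hD h2
    subst h7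
    have h8 : g3 D c = g3 D c' := by
      unfold g3
      rw [add_left_cancel h3, add_left_cancel h6, add_left_cancel h5]
    rw [g3_inj hD h8]
  · rintro ⟨⟨j, w, s⟩, i, v, t⟩
    obtain ⟨q, hq⟩ := wu_surj hD w
    obtain ⟨c, hc⟩ := g3_surj hD (s - (if i then 1 else 0), t - (if j then 1 else 0), v - (bcl (-1 : 𝓞 L) + w))
    unfold g3 at hc
    simp only [Prod.mk.injEq] at hc
    obtain ⟨h1, h2, h3⟩ := hc
    refine ⟨((q, i, j), c), ?_⟩
    unfold pm
    simp only [Prod.mk.injEq, true_and]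
    rw [hq, h1, h2, h3]
    refine ⟨⟨rfl, ?_⟩, ?_, ?_⟩
    · exact add_sub_cancel _ _
    · exact add_sub_cancel _ _
    · exact add_sub_cancel _ _

variable {z : HeightOneSpectrum (𝓞 M) → 𝓞 M} (hz : ∀ P, (2 : 𝓞 M) ∉ P.asIdeal → NG D true P (z P))

include hz in
theorem dl_DK' (f : FI M) (T : Finset (OP M)) : DK D true (dl D true z f T) (mp T) z (ue D f.1) f.2.1 f.2.2 := by
  obtain ⟨ε, hε, H⟩ := dl_DK hz f T
  have h : ε = ue D f.1 := by
    apply Units.ext
    apply algL_inj (L := L) (M := M)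
    rw [hε, ue_spec]
  rwa [h] at H

include hD in
theorem rm1 (f : FI M) : ¬ Rm (ue D f.1 : 𝓞 L) f.2.2 ↔ f.2.2 = false ∧ wu D f.1 = 0 := by
  unfold Rm wu
  rw [bcl_zero hD (unit_nm2 hD.two _)]
  push Not
  rw [ne_eq, Bool.not_eq_true]

include hD hz in
theorem rm2 (f : FI M) (T : Finset (OP M)) : ¬ Rm (cd D true (mp T) z (ue D f.1)) f.2.1 ↔
    f.2.1 = false ∧ bcl (-1 : 𝓞 L) + wu D f.1 + kg (csz D true z T) = 0 := by
  have h1 : ∏ P ∈ mp T, z P = ∏ v ∈ T, z v.1 := by
    rw [Finset.prod_map]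
    rfl
  obtain ⟨h2, h3, h4⟩ := zT_cls hD hz T
  have hu : IsCoprime (-(algebraMap (𝓞 L) (𝓞 M) (ue D f.1 : 𝓞 L))) 2 := by
    rw [ue_spec]
    exact (cop_unit _ 2).neg_left
  have h5 : cd D true (mp T) z (ue D f.1) = rd8 D false (-(algebraMap (𝓞 L) (𝓞 M) (ue D f.1 : 𝓞 L)) * ∏ v ∈ T, z v.1) := by
    unfold cd
    rw [h1]
    rfl
  have h6 : bcl (cd D true (mp T) z (ue D f.1)) = bcl (-1 : 𝓞 L) + wu D f.1 + kg (csz D true z T) := by
    rw [h5, bcl_rd8 hD hu h3, ← h4, kg_c8 hD h2 h3]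
    congr 1
    obtain ⟨e, he⟩ := Ideal.mem_span_singleton'.1 (rd8_alg hD false (-(ue D f.1 : 𝓞 L)))
    have h7 : -(algebraMap (𝓞 L) (𝓞 M) (ue D f.1 : 𝓞 L)) = algebraMap (𝓞 L) (𝓞 M) (-(ue D f.1 : 𝓞 L)) := (map_neg _ _).symm
    have hm : (-1 : 𝓞 L) ∉ span {(2 : 𝓞 L)} := by
      rw [neg_mem_iff]
      exact one_nm2 hD
    have h8 : rd8 D false (algebraMap (𝓞 L) (𝓞 M) (-(ue D f.1 : 𝓞 L))) = (-1) * (ue D f.1 : 𝓞 L) + 4 * (2 * e) := by
      linear_combination -he
    rw [h7, h8, bcl_per hD (nm2_iff hD.two hm (unit_nm2 hD.two _)), bcl_mul hD hm (unit_nm2 hD.two _)]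
    rfl
  have h9 : cd D true (mp T) z (ue D f.1) ∉ span {(2 : 𝓞 L)} := by
    rw [h5]
    exact rd8_nm hD (hu.mul_left h3)
  unfold Rm
  rw [← h6, bcl_zero hD h9]
  push Not
  rw [ne_eq, Bool.not_eq_true]

theorem z2_ne (x : ZMod 2) : x ≠ 1 ↔ x = 0 := by
  revert x
  decide

include hD hz in
/-- the two local conditions -/
theorem pm_nsq (f : FI M) (T : Finset (OP M)) :
    (∀ t, Nsq D t (dl D true z f T)) ↔ (pm D (f, csz D true z T)).1 ≠ (false, 0, 0) ∧
      (pm D (f, csz D true z T)).2 ≠ (false, 0, 0) := by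
  have H := dl_DK' hz f T
  have hd := dl_ne hD hz f T
  have key1 : ¬ Nsq D true (dl D true z f T) ↔ (pm D (f, csz D true z T)).1 = (false, 0, 0) := by
    unfold pm
    simp only [Prod.mk.injEq]
    rw [← and_assoc, ← rm1 hD]
    constructor
    · intro h
      have h1 : ¬ Rm (ue D f.1 : 𝓞 L) f.2.2 := by
        unfold Nsq at h
        push Not at h
        obtain ⟨P, hP, h2⟩ := h
        rw [← H.ur_p2 hP hD, ← sg_ur_dr hD hP]
        exact (TRX.Sq_of_isSquare P (mul_ne_zero hd (c2_rs7_ne true)) h2).ur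
      refine ⟨h1, ?_⟩
      have h2 := (DK.nsq hD H h1).2
      rw [sum_nv hD hz T] at h2
      rw [h2] at h
      exact (z2_ne _).1 h
    · rintro ⟨h1, h3⟩
      have h2 := (DK.nsq hD H h1).2
      rw [sum_nv hD hz T] at h2
      rw [h2]
      exact (z2_ne _).2 h3
  have key2 : ¬ Nsq D false (dl D true z f T) ↔ (pm D (f, csz D true z T)).2 = (false, 0, 0) := by
    unfold pm
    simp only [Prod.mk.injEq]
    rw [← and_assoc, ← rm2 hD hz]
    constructor
    · intro h
      have h1 : ¬ Rm (cd D true (mp T) z (ue D f.1)) f.2.1 := by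
        unfold Nsq at h
        push Not at h
        obtain ⟨P, hP, h2⟩ := h
        rw [← H.ur_p1 hP hD, ← sg_ur_dr (s := false) hD hP]
        exact (TRX.Sq_of_isSquare P (mul_ne_zero hd (c2_rs7_ne false)) h2).ur
      refine ⟨h1, ?_⟩
      have h2 := (DK.nsq' hD H h1).2
      rw [sum_nu hD hz T] at h2
      have h4 : ¬ Nsq D (!true) (dl D true z f T) := h
      rw [h2] at h4
      exact (z2_ne _).1 h4
    · rintro ⟨h1, h3⟩
      have h2 := (DK.nsq' hD H h1).2
      rw [sum_nu hD hz T] at h2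
      change ¬ Nsq D (!true) (dl D true z f T)
      rw [h2]
      exact (z2_ne _).2 h3
  constructor
  · intro h
    exact ⟨fun h1 => key1.2 h1 (h true), fun h1 => key2.2 h1 (h false)⟩
  · rintro ⟨h1, h2⟩ t
    cases t
    · by_contra h
      exact h2 (key2.1 h)
    · by_contra h
      exact h1 (key1.1 h)

/-- the weight of a local class -/
noncomputable def phw (L : Type) [Field L] [NumberField L] (x : LQ L) : ℝ :=
  if x.1 = false ∧ x.2.1 = 0 then 1 else 1 / 2 ^ Module.finrank ℚ L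

include hD hz in
theorem pm_beta (f : FI M) (T : Finset (OP M)) :
    (1 : ℝ) / beta hD (dl D true z f T) = phw L (pm D (f, csz D true z T)).1 * phw L (pm D (f, csz D true z T)).2 := by
  have H := dl_DK' hz f T
  have e1 : Ur (Vp hD false) (dl D true z f T) ↔ f.2.2 = false ∧ wu D f.1 = 0 := by
    rw [← rm1 hD]
    exact H.ur_p2 (Ideal.mem_span_singleton_self _) hD
  have e2 : Ur (Vp hD true) (dl D true z f T) ↔ f.2.1 = false ∧ bcl (-1 : 𝓞 L) + wu D f.1 + kg (csz D true z T) = 0 := by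
    rw [← rm2 hD hz]
    exact H.ur_p1 (Ideal.mem_span_singleton_self _) hD
  have hn : ∀ t, (absNorm (Vp hD t).asIdeal : ℝ) = 2 ^ Module.finrank ℚ L := by
    intro t
    have h := c4_norm_p1 (D := D) t
    have h1 : absNorm (Vp hD t).asIdeal = 2 ^ Module.finrank ℚ L := h
    rw [h1]
    push_cast
    rfl
  have hb : ∀ t, (1 : ℝ) / (be (Vp hD t) (dl D true z f T) : ℝ) = if Ur (Vp hD t) (dl D true z f T) then 1
      else 1 / 2 ^ Module.finrank ℚ L := by
    intro t
    unfold be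
    split_ifs
    · simp
    · rw [hn]
  unfold beta
  push_cast
  rw [← one_div_mul_one_div, hb, hb, mul_comm]
  unfold phw pm
  congr 1
  · by_cases h : Ur (Vp hD false) (dl D true z f T)
    · rw [if_pos h, if_pos (e1.1 h)]
    · rw [if_neg h, if_neg fun h1 => h (e1.2 h1)]
  · by_cases h : Ur (Vp hD true) (dl D true z f T)
    · rw [if_pos h, if_pos (e2.1 h)]
    · rw [if_neg h, if_neg fun h1 => h (e2.2 h1)]

end

end TRZ
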