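import Pool.Agent.TRZ.FESN3
import Pool.Agent.TRZ.FD8
import Pool.Agent.TRPD.D6

/-! # [ALL2-FE, FX-f] finiteness of `Ш`, exactly one exceptional prime: `δ` a local square at `ϖ'`, `-δ` no local square at `ϖ` -/

set_option autoImplicit false
set_option linter.unusedSectionVars false

open NumberField Ideal IsDedekindDomain
open scoped Real Classical ComplexConjugate
open TR TRG TTS TU TT TRP

namespace TRPA

variable {P G : Type} [AddCommGroup G]

/-- `KB` in terms of the rows -/
theorem KB_map (B : DSys P G) (ν : G →+ ZMod 2) (T : Finset P) {K : Type} [DecidableEq K] (φ : P ↪ K)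
    {a : K → K → ZMod 2} {nu : K → ZMod 2} (ha : ∀ x y, a (φ x) (φ y) = B.w x y) (hn : ∀ x, nu (φ x) = ν (B.c x)) :
    B.KB ν T ↔ ∀ (w : K → ZMod 2) (m : ZMod 2), (∀ Q ∈ T.map φ, TRZ.fnrow a (fun _ => 0) nu (T.map φ) w m Q = 0) →
      ((∀ Q ∈ T.map φ, w Q = 0) ∧ m = 0) ∨ ((∀ Q ∈ T.map φ, w Q = 1) ∧ m = 0) := by
  have hrow : ∀ (w : K → ZMod 2) (m : ZMod 2), ∀ u ∈ T, TRZ.fnrow a (fun _ => 0) nu (T.map φ) w m (φ u) =
      ∑ v ∈ T, B.w u v * (w (φ u) + w (φ v)) + m * ν (B.c u) := by
    intro w m u hu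
    unfold TRZ.fnrow
    have e1 : ∑ v ∈ T, B.w u v * (w (φ u) + w (φ v)) = ∑ v ∈ T.erase u, B.w u v * (w (φ u) + w (φ v)) := by
      rw [← Finset.add_sum_erase T _ hu, CharTwo.add_self_eq_zero, mul_zero, zero_add]
    rw [e1, ← Finset.map_erase, Finset.sum_map, Finset.sum_map, zero_add, hn, Finset.mul_sum, ← Finset.sum_add_distrib, mul_comm (ν (B.c u))]
    congr 1
    refine Finset.sum_congr rfl fun v _ => ?_
    rw [ha]
    ring
  constructor
  · intro h w m hw
    obtain ⟨hm, hc⟩ := h (fun v => w (φ v)) m fun u hu => by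
      rw [← hrow w m u hu]
      exact hw _ (Finset.mem_map_of_mem φ hu)
    rcases Finset.eq_empty_or_nonempty T with rfl | ⟨u0, hu0⟩
    · exact Or.inl ⟨fun Q hQ => absurd hQ (by simp), hm⟩
    · have hw0 : ∀ Q ∈ T.map φ, w Q = w (φ u0) := by
        intro Q hQ
        obtain ⟨v, hv, rfl⟩ := Finset.mem_map.1 hQ
        exact hc v hv u0 hu0
      rcases (by decide : ∀ x : ZMod 2, x = 0 ∨ x = 1) (w (φ u0)) with h0 | h0
      · exact Or.inl ⟨fun Q hQ => by rw [hw0 Q hQ, h0], hm⟩
      · exact Or.inr ⟨fun Q hQ => by rw [hw0 Q hQ, h0], hm⟩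
  · intro h x t hx
    obtain ⟨w, hw⟩ : ∃ w : K → ZMod 2, ∀ v, w (φ v) = x v := ⟨Function.extend φ x 0, fun v => φ.injective.extend_apply x 0 v⟩
    have h1 := h w t fun Q hQ => by
      obtain ⟨u, hu, rfl⟩ := Finset.mem_map.1 hQ
      rw [hrow w t u hu, ← hx u hu]
      congr 1
      refine Finset.sum_congr rfl fun v _ => ?_
      rw [hw, hw]
    rcases h1 with ⟨h2, h3⟩ | ⟨h2, h3⟩
    · refine ⟨h3, fun u hu v hv => ?_⟩
      rw [← hw, ← hw, h2 _ (Finset.mem_map_of_mem φ hu), h2 _ (Finset.mem_map_of_mem φ hv)]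
    · refine ⟨h3, fun u hu v hv => ?_⟩
      rw [← hw, ← hw, h2 _ (Finset.mem_map_of_mem φ hu), h2 _ (Finset.mem_map_of_mem φ hv)]

end TRPA

namespace TRZ

section
variable {L M : Type} [Field L] [NumberField L] [Field M] [NumberField M] [Algebra L M]
  [IsTotallyReal L] {D : Dat L M} (hD : Od2 D)

include hD in
/-- the Selmer group on the exceptional side in terms of the vectors, without the condition at `ϖ` -/
theorem sel_x' {s : Bool} {d : M} {T : Finset (HeightOneSpectrum (𝓞 M))} {z : HeightOneSpectrum (𝓞 M) → 𝓞 M} {ε : (𝓞 L)ˣ} {i j : Bool}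
    (H : DK D s d T z ε i j) (h1 : ¬ Nsq D s d) (h2 : Nsq D (!s) d) :
    Sel d (rs7 D s : M) ↔ ∀ (w : HeightOneSpectrum (𝓞 M) → ZMod 2) (m : ZMod 2),
      (∀ P ∈ T, fnrow (aM z) (fun P => if i then nu D s P else 0) (nu D s) T w m P = 0) →
      ((∀ P ∈ T, w P = 0) ∧ m = 0) ∨ ((∀ P ∈ T, w P = 1) ∧ m = if i then 1 else 0) := by
  have hU := fs_ur hD H.sg_ne h1
  rw [DK.sel_core_x H hD hU]
  have hrow : ∀ (w : HeightOneSpectrum (𝓞 M) → ZMod 2) (m : ZMod 2), ∀ P ∈ T,
      fnrow (aM z) (fun P => if TT.qr P (algebraMap (𝓞 L) (𝓞 M) (ε : 𝓞 L) * (if i then -(p1 D s) else 1) *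
        (if j then -(p2 D s) else 1)) = -1 then 1 else 0) (nu D s) T w m P =
      fnrow (aM z) (fun P => if i then nu D s P else 0) (nu D s) T w m P := by
    intro w m P hP
    unfold fnrow
    beta_reduce
    rw [fs_kap H hD hU hP]
  constructor
  · intro h w m hw
    refine h w m (fun P hP => by rw [hrow w m P hP]; exact hw P hP) ?_
    by_cases hR : Rm (cd D s T z ε) i
    · exact Or.inl hR
    · right
      have hi : i = false := by
        by_contra h3
        exact hR (Or.inl (by simpa using h3))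
      have hj : ¬ Rm (ε : 𝓞 L) j := by
        obtain ⟨Q, hQ, -⟩ : ∃ Q : HeightOneSpectrum (𝓞 M), p2 D s ∈ Q.asIdeal ∧
            IsSquare (algebraMap M (Q.adicCompletion M) (d * (rs7 D s : M))) := by
          unfold Nsq at h1
          push Not at h1
          exact h1
        exact (H.ur_p2 hQ hD).1 (hU Q hQ)
      have hj0 : j = false := by
        by_contra h3
        exact hj (Or.inl (by simpa using h3))
      have hn : ∑ P ∈ T, nu D s P = 1 := by
        have h3 := (DK.nsq' hD H hR).2.1 h2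
        rw [hj0, if_neg (by decide), zero_add] at h3
        exact h3
      have hbal : ∀ P ∈ T, ∑ Q ∈ T.erase P, aM z P Q = ∑ Q ∈ T.erase P, aM z Q P := by
        intro P hP
        have h3 := DK.kap hD H hP
        rw [s2_bt hR, fs_kap H hD hU hP, hi, hj0, if_neg (by decide), if_neg (by decide), add_zero, add_zero] at h3
        exact h3
      have h4 := fn_sum (aM z) (nu D s) hbal w m
      rw [hn, one_mul] at h4
      rw [← h4]
      refine Finset.sum_eq_zero fun P hP => ?_
      have h5 := hw P hP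
      rw [hi] at h5
      exact h5
  · intro h w m hw _
    exact h w m fun P hP => by rw [← hrow w m P hP]; exact hw P hP

variable {z : HeightOneSpectrum (𝓞 M) → 𝓞 M} (hz : ∀ P, (2 : 𝓞 M) ∉ P.asIdeal → NG D true P (z P))
variable (B : TRPA.DSys (OP M) (G8 D true)) (hw : B.w = fun u v => aM z u.1 v.1)
  (hc : B.c = fun v => c8 D true (z v.1))

include hD hz hw hc in
/-- [FX-f] **the criterion**, the exceptional prime `ϖ'` -/
theorem sha_beta (f : FI M) (T : Finset (OP M)) (h1 : ¬ Nsq D true (dl D true z f T)) (h2 : Nsq D false (dl D true z f T))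
    (hsq : ∀ s, ¬ IsSquare (dl D true z f T * (rs7 D s : M))) (C : WeierstrassCurve.VariableChange M) :
    TRB.FiniteSha (C • TTS.Ws (dl D true z f T)) ↔
      (if f.2.1 = true then B.NS (chi D true (-p1 D true)) 0 0 T else B.KB (chi D true (-p1 D true)) T) := by
  have hd := dl_ne hD hz f T
  obtain ⟨ε, hε, H⟩ := dl_DK hz f T
  obtain ⟨T', z', ε', i', j', H', -⟩ := exists_DK hD hd false
  obtain ⟨hT, hi, hj, -⟩ := DK.other hD H H'
  subst hT
  subst hi
  subst hj
  have hU := fs_ur hD hd h1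
  have hne : (mp T).Nonempty ∨ f.2.1 = true := by
    by_contra hcon
    push Not at hcon
    obtain ⟨h3, h4⟩ := hcon
    rw [ne_eq, Bool.not_eq_true] at h4
    obtain ⟨y, -, hy⟩ := fs_delta H hD hU
    apply hsq true
    rw [hy, h4, h3]
    refine ⟨y, ?_⟩
    unfold sgx
    rw [if_neg (by decide), Finset.prod_empty, one_mul]
    have e : ((1 : 𝓞 M) : M) = 1 := map_one _
    rw [e, one_mul, sq]
  have h3 := sel_m' hD H' h1 h2 hne
  have h4 := sel_n hD H' h2 h1 hne
  have h5 : TRB.FiniteSha (C • TTS.Ws (dl D true z f T)) ↔ Sel (dl D true z f T) (rs7 D true : M) := by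
    rw [finiteSha_iff' hD hd hsq C]
    constructor
    · intro h
      exact h true
    · intro h s
      cases s
      · exact h4.2 (h3.1 h)
      · exact h
  rw [h5, sel_x' hD H h1 h2]
  have hnu : ∀ v : OP M, nu D true v.1 = chi D true (-p1 D true) (B.c v) := by
    intro v
    rw [hc]
    exact (chi_NG (K8.w1 hD true) v.2 (hz v.1 v.2)).symm
  by_cases hf : f.2.1 = true
  · rw [if_pos hf, hf]
    have hmain := fn_main (aM z) (e := nu D true) (nu := nu D true) (T := mp T) (R := True) (i := true)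
      (fun P _ => (if_pos rfl).symm) (fun _ => trivial) (fun h => absurd trivial h) (fun h => absurd trivial h) (Or.inr rfl)
    have hNS := TRPA.NS_map B (chi D true (-p1 D true)) 0 0 T ⟨Subtype.val, Subtype.val_injective⟩
      (a := aM z) (b := nu D true) (u := fun _ => 0) (v := fun _ => 0) (fun x y => by rw [hw]; rfl) hnu
      (fun _ => rfl) (fun _ => rfl)
    have h0 : Matrix.vecMulVec (fun _ : (mp T : Finset (HeightOneSpectrum (𝓞 M))) => (0 : ZMod 2))
        (fun _ : (mp T : Finset (HeightOneSpectrum (𝓞 M))) => (0 : ZMod 2)) = 0 := by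
      ext P Q
      rw [Matrix.vecMulVec_apply, zero_mul, Matrix.zero_apply]
    rw [h0, add_zero] at hNS
    rw [← hNS]
    rw [if_pos rfl] at hmain
    refine Iff.trans ?_ hmain
    constructor
    · intro h w m hr _
      exact h w m hr
    · intro h w m hr
      exact h w m hr (Or.inl trivial)
  · rw [if_neg hf]
    rw [Bool.not_eq_true] at hf
    rw [hf, TRPA.KB_map B (chi D true (-p1 D true)) T ⟨Subtype.val, Subtype.val_injective⟩
      (a := aM z) (nu := nu D true) (fun x y => by rw [hw]; rfl) hnu]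
    exact Iff.rfl

end

end TRZ
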