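import Pool.Agent.TRZ.FESN3
import Pool.Agent.TRZ.FD8
import Pool.Agent.TRPD.D6

/-! # [FX] finiteness of `Ш` of the curves of the family with an exceptional prime on the side `false`, in terms of the matrices of the density theorem -/

set_option autoImplicit false
set_option linter.unusedSectionVars false

open NumberField Ideal IsDedekindDomain
open scoped Real Classical ComplexConjugate
open TR TRG TTS TU TT TRP

namespace TRPA

variable {P G : Type} [AddCommGroup G]

/-- `KB` in terms of the rows of the Laplacian -/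
theorem KB_mapA (B : DSys P G) (ν : G →+ ZMod 2) (T : Finset P) {K : Type} [DecidableEq K] (φ : P ↪ K)
    {a : K → K → ZMod 2} {b : K → ZMod 2} (ha : ∀ x y, a (φ x) (φ y) = B.w x y) (hb : ∀ x, b (φ x) = ν (B.c x)) :
    B.KB ν T ↔ ∀ (w : K → ZMod 2) (m : ZMod 2), (∀ P ∈ T.map φ, TRZ.fnrow a (fun _ => 0) b (T.map φ) w m P = 0) →
      ((∀ P ∈ T.map φ, w P = 0) ∧ m = 0) ∨ ((∀ P ∈ T.map φ, w P = 1) ∧ m = 0) := by
  have hrow : ∀ (w : K → ZMod 2) (m : ZMod 2) (u : P), u ∈ T → TRZ.fnrow a (fun _ => 0) b (T.map φ) w m (φ u) =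
      ∑ v ∈ T, B.w u v * (w (φ u) + w (φ v)) + m * ν (B.c u) := by
    intro w m u hu
    unfold TRZ.fnrow
    rw [← Finset.map_erase, Finset.sum_map, Finset.sum_map, hb, zero_add, mul_comm (ν (B.c u)) m, ← Finset.add_sum_erase T _ hu,
      CharTwo.add_self_eq_zero, mul_zero, zero_add]
    congr 1
    rw [Finset.mul_sum, ← Finset.sum_add_distrib]
    refine Finset.sum_congr rfl fun v _ => ?_
    rw [ha]
    ring
  constructor
  · intro h w m hr
    have h1 := h (fun v => w (φ v)) m fun u hu => by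
      rw [← hrow w m u hu]
      exact hr _ (Finset.mem_map_of_mem φ hu)
    rcases T.eq_empty_or_nonempty with hT | ⟨j, hj⟩
    · subst hT
      refine Or.inl ⟨fun P hP => ?_, h1.1⟩
      rw [Finset.map_empty] at hP
      exact absurd hP (Finset.notMem_empty _)
    · rcases (by decide : ∀ x : ZMod 2, x = 0 ∨ x = 1) (w (φ j)) with h0 | h0
      · refine Or.inl ⟨fun P hP => ?_, h1.1⟩
        obtain ⟨v, hv, rfl⟩ := Finset.mem_map.1 hP
        rw [← h0]
        exact h1.2 v hv j hj
      · refine Or.inr ⟨fun P hP => ?_, h1.1⟩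
        obtain ⟨v, hv, rfl⟩ := Finset.mem_map.1 hP
        rw [← h0]
        exact h1.2 v hv j hj
  · intro h x t hx
    obtain ⟨w, hw⟩ : ∃ w : K → ZMod 2, w = fun k => if hk : ∃ v, φ v = k then x hk.choose else 0 := ⟨_, rfl⟩
    have hwx : ∀ v, w (φ v) = x v := by
      intro v
      have hk : ∃ v', φ v' = φ v := ⟨v, rfl⟩
      rw [hw]
      beta_reduce
      rw [dif_pos hk]
      exact congrArg x (φ.injective hk.choose_spec)
    have h1 := h w t fun P hP => by
      obtain ⟨u, hu, rfl⟩ := Finset.mem_map.1 hP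
      rw [hrow w t u hu, ← hx u hu]
      congr 1
      exact Finset.sum_congr rfl fun v _ => by rw [hwx, hwx]
    rcases h1 with ⟨h2, h3⟩ | ⟨h2, h3⟩
    · refine ⟨h3, fun u hu v hv => ?_⟩
      rw [← hwx u, ← hwx v, h2 _ (Finset.mem_map_of_mem φ hu), h2 _ (Finset.mem_map_of_mem φ hv)]
    · refine ⟨h3, fun u hu v hv => ?_⟩
      rw [← hwx u, ← hwx v, h2 _ (Finset.mem_map_of_mem φ hu), h2 _ (Finset.mem_map_of_mem φ hv)]

end TRPA

namespace TRZ

section
variable {L M : Type} [Field L] [NumberField L] [Field M] [NumberField M] [Algebra L M]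
  [IsTotallyReal L] {D : Dat L M} (hD : Od2 D)
include hD

/-- no prime, `j = false`: the Selmer group on the exceptional side is not minimal -/
theorem sha_a_empty {s : Bool} {d : M} {T : Finset (HeightOneSpectrum (𝓞 M))} {z : HeightOneSpectrum (𝓞 M) → 𝓞 M} {ε : (𝓞 L)ˣ} {i j : Bool}
    (H : DK D s d T z ε i j) (hn : ¬ Nsq D (!s) d) (hN : Nsq D s d) (hT : T = ∅) (hj : j = false) :
    ¬ Sel d (rs7 D (!s) : M) := by
  have hd := H.sg_ne
  have hU' := fs_ur hD hd hn
  have hP0 : p1 D s ∈ (bl_V hD s).asIdeal := Ideal.mem_span_singleton_self _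
  have hU1 : Ur (bl_V hD s) d := hU' _ (by
    rw [c2_p2_not]
    exact hP0)
  have hRi : ¬ Rm (cd D s T z ε) i := (H.ur_p1 hP0 hD).1 hU1
  have hi : i = false := by
    cases i
    · rfl
    · exact absurd (Or.inl rfl) hRi
  obtain ⟨T', z', ε', i', j', H', -⟩ := exists_DK hD hd (!s)
  obtain ⟨hT', hi1, hj1, -, hR, -⟩ := DK.other hD H H'
  subst hT'
  subst hi1
  subst hj1
  have hRR : Rm (cd D (!s) T' z' ε') i' := by
    by_contra hR'
    have hRj : ¬ Rm (ε : 𝓞 L) i' := fun h => hR' (hR.1 h)
    have h1 := (DK.nsq hD H hRj).2.1 hN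
    rw [hi, if_neg (by decide), zero_add, hT, Finset.sum_empty] at h1
    exact zero_ne_one h1
  rw [DK.sel_core_x H' hD hU']
  intro h
  have h1 := h (fun _ => 0) 1 (fun P hP => by
    rw [hT] at hP
    exact absurd hP (Finset.notMem_empty _)) (Or.inl hRR)
  rcases h1 with h1 | h1
  · exact one_ne_zero h1.2
  · have h2 := h1.2
    rw [hj, if_neg (by decide)] at h2
    exact one_ne_zero h2

variable {z : HeightOneSpectrum (𝓞 M) → 𝓞 M} (hz : ∀ P, (2 : 𝓞 M) ∉ P.asIdeal → NG D true P (z P))
variable (B : TRPA.DSys (OP M) (G8 D true)) (hw : B.w = fun u v => TRG.aM z v.1 u.1) (hc : B.c = fun v => c8 D true (z v.1))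
include hz hc

theorem sha_a_nv (v : OP M) : nv D true z v.1 = chi D true (-p2 D true) (B.c v) := by
  rw [hc]
  beta_reduce
  rw [chi_NG (K8.w2 hD true) v.2 (hz v.1 v.2)]
  exact (nu_eq hD (s := false) v.2 (hz v.1 v.2)).symm

include hw

/-- the matrix invariant of the exceptional case and the matrices of the density theorem -/
theorem sha_a_GT (T : Finset (OP M)) {ε : (𝓞 L)ˣ} {i j : Bool} (hRi : ¬ Rm (cd D true (mp T) z ε) i) (hT : T.Nonempty ∨ j = true) :
    GT D true (mp T) z ε i j ≠ 0 ↔ (if j = true then B.NS (chi D true (-p2 D true)) 0 0 T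
      else B.KB (chi D true (-p2 D true)) T) := by
  unfold GT
  rw [if_neg hRi]
  cases j
  · rw [if_neg (by decide), if_neg (by decide)]
    have hT' : (mp T).Nonempty := (Finset.map_nonempty).2 (hT.resolve_right (by decide))
    rw [← fn_cof (fun P Q => aM z Q P) (nu := nv D true z) hT' (R := True) (fun h => absurd trivial h) (fun h => absurd trivial h),
      TRPA.KB_mapA B (chi D true (-p2 D true)) T ⟨Subtype.val, Subtype.val_injective⟩ (a := fun P Q => aM z Q P) (b := nv D true z)
        (fun u v => by rw [hw]; rfl) (fun v => sha_a_nv hD hz B hc v)]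
    constructor
    · intro h w m hr
      exact h w m hr (Or.inl trivial)
    · intro h w m hr _
      exact h w m hr
  · rw [if_pos rfl, if_pos rfl]
    have h := TRPA.NS_map B (chi D true (-p2 D true)) 0 0 T ⟨Subtype.val, Subtype.val_injective⟩ (a := fun P Q => aM z Q P) (b := nv D true z)
      (u := fun _ => 0) (v := fun _ => 0) (fun u v => by rw [hw]; rfl) (fun v => sha_a_nv hD hz B hc v) (fun _ => rfl) (fun _ => rfl)
    have h0 : Matrix.vecMulVec (fun _ : (mp T : Finset (HeightOneSpectrum (𝓞 M))) => (0 : ZMod 2))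
        (fun _ : (mp T : Finset (HeightOneSpectrum (𝓞 M))) => (0 : ZMod 2)) = 0 := by
      ext P Q
      rw [Matrix.vecMulVec_apply, zero_mul, Matrix.zero_apply]
    rw [← h]
    change _ ↔ (Pool.Agent.TRG.lap (fun P Q => aM z Q P) (nv D true z) (mp T) +
      Matrix.vecMulVec (fun _ : (mp T : Finset (HeightOneSpectrum (𝓞 M))) => (0 : ZMod 2)) (fun _ => (0 : ZMod 2))).det ≠ 0
    rw [h0, add_zero]
    rfl

/-- [FX] **the criterion, exceptional prime on the side `false`** -/
theorem sha_alpha (f : FI M) (T : Finset (OP M)) (h1 : Nsq D true (dl D true z f T)) (h2 : ¬ Nsq D false (dl D true z f T))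
    (hsq : ∀ s, ¬ IsSquare (dl D true z f T * (rs7 D s : M))) (C : WeierstrassCurve.VariableChange M) :
    TRB.FiniteSha (C • TTS.Ws (dl D true z f T)) ↔ (if f.2.2 = true then B.NS (chi D true (-p2 D true)) 0 0 T
      else B.KB (chi D true (-p2 D true)) T) := by
  have hd := dl_ne hD hz f T
  obtain ⟨ε, -, H⟩ := dl_DK hz f T
  rw [finiteSha_iff' hD hd hsq C]
  by_cases hT : T.Nonempty ∨ f.2.2 = true
  · have hT' : (mp T).Nonempty ∨ f.2.2 = true := hT.imp (Finset.map_nonempty).2 id
    have hP0 : p1 D true ∈ (bl_V hD true).asIdeal := Ideal.mem_span_singleton_self _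
    have hU1 : Ur (bl_V hD true) (dl D true z f T) := fs_ur hD hd (s := false) h2 _ (by
      have h := c2_p2_not (D := D) true
      rw [Bool.not_true] at h
      rw [h]
      exact hP0)
    have hRi : ¬ Rm (cd D true (mp T) z ε) f.2.1 := (H.ur_p1 hP0 hD).1 hU1
    rw [← sha_a_GT hD hz B hw hc T (ε := ε) (i := f.2.1) (j := f.2.2) hRi hT]
    have k1 := sel_n hD H h1 h2 hT'
    have k2 := sel_m' hD H h2 h1 hT'
    constructor
    · intro h
      exact k1.1 (h true)
    · intro h s
      cases s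
      · exact k2.2 h
      · exact k1.2 h
  · push Not at hT
    obtain ⟨hT0, hj⟩ := hT
    have hj' : f.2.2 = false := by
      cases h : f.2.2
      · rfl
      · exact absurd h hj
    subst hT0
    have hm : mp (∅ : Finset (OP M)) = ∅ := Finset.map_empty _
    have k := sha_a_empty hD H h2 h1 hm hj'
    rw [if_neg hj]
    constructor
    · intro h
      exact absurd (h false) k
    · intro h
      have h3 := h (fun _ => 0) 1 (fun u hu => absurd hu (Finset.notMem_empty _))
      exact absurd h3.1 one_ne_zero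

end

end TRZ
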