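import Pool.Agent.TRZ.FD15

/-! # [FX-h] the column sums if `-δ` is a local square at `ϖ` -/

set_option autoImplicit false

open NumberField Ideal IsDedekindDomain
open scoped Real Classical ComplexConjugate
open TR TRG TTS TU TT TRP

namespace TRZ

section
variable {L M : Type} [Field L] [NumberField L] [Field M] [NumberField M] [Algebra L M]
  [IsTotallyReal L] {D : Dat L M} (hD : Od2 D)

include hD in
/-- a unit of `L` which is a square modulo `4` has only trivial symbols -/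
theorem qr_q4 {ε : (𝓞 L)ˣ} (hε : Q4 (ε : 𝓞 L)) {P : HeightOneSpectrum (𝓞 M)} (h2 : (2 : 𝓞 M) ∉ P.asIdeal)
    {q : 𝓞 M} (hq : NG D true P q) : TT.qr P (algebraMap (𝓞 L) (𝓞 M) (ε : 𝓞 L)) = 1 := by
  obtain ⟨A, hA⟩ : IsUnit (algebraMap (𝓞 L) (𝓞 M) (ε : 𝓞 L)) := ε.isUnit.map _
  have hqo := ng_odd h2 hq
  have h4 : ∀ s : Bool, Q4 (rd8 D s (algebraMap (𝓞 L) (𝓞 M) (ε : 𝓞 L))) := by
    intro s
    obtain ⟨e, he⟩ := Ideal.mem_span_singleton'.1 (rd8_alg hD s (ε : 𝓞 L))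
    obtain ⟨a, c, ha, hc⟩ := hε
    exact ⟨a, c + 2 * e, ha, by linear_combination -he + hc⟩
  rw [← sy_gen hq.gen, ← hA, sy_rs_unit, rs_tau hD (cop_unit _ _) hqo (cop_unit _ _) true, hA]
  unfold tau
  rw [tp_q4 hD (h4 true) (rd8_nm hD hqo), tp_q4 hD (h4 (!true)) (rd8_nm hD hqo), mul_one]

variable {z : HeightOneSpectrum (𝓞 M) → 𝓞 M} (hz : ∀ P, (2 : 𝓞 M) ∉ P.asIdeal → NG D true P (z P))

include hD hz in
/-- homomorphisms which agree at almost all primes are equal -/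
theorem hom_ext_z {F : Finset (OP M)} {χ χ' : G8 D true →+ ZMod 2}
    (h : ∀ v : OP M, v ∉ F → χ (c8 D true (z v.1)) = χ' (c8 D true (z v.1))) : χ = χ' := by
  obtain ⟨om, hsy, hom, hom0, hps⟩ := exists_om hD true
  obtain ⟨B, hN, hw, hc, hBom⟩ := exists_dsys hD true hz om hsy fun P Q hPQ hP hQ =>
    hom z P Q hPQ hP hQ (hz P hP) (hz Q hQ)
  refine DFunLike.ext _ _ fun g => ?_
  obtain ⟨R, hR1, hR2⟩ := TRPA.exists_set B F g
  rw [← hR2, fd_cs_eq B hc]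
  unfold csz
  rw [map_sum, map_sum]
  exact Finset.sum_congr rfl fun v hv => h v fun hF => Finset.disjoint_left.1 hR1 hv hF

variable (B : TRPA.DSys (OP M) (G8 D true)) {om : G8 D true →+ G8 D true →+ ZMod 2} (hBo : B.om = om)
  (hom : ∀ (z : HeightOneSpectrum (𝓞 M) → 𝓞 M) (P Q : HeightOneSpectrum (𝓞 M)), P ≠ Q → (2 : 𝓞 M) ∉ P.asIdeal →
      (2 : 𝓞 M) ∉ Q.asIdeal → NG D true P (z P) → NG D true Q (z Q) →
      TRG.aM z P Q + TRG.aM z Q P = om (c8 D true (z P)) (c8 D true (z Q)))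
  (hom0 : ∀ (R : HeightOneSpectrum (𝓞 M)) (q : 𝓞 M), R.asIdeal = span {D.rr} → NG D true R q →
      ∀ g, om g g = om g (c8 D true q))

include hD hz hBo hom hom0 in
/-- [FX-h] **the column sums in the exceptional case** -/
theorem gam_alpha (f : FI M) (T : Finset (OP M)) (h : ¬ Nsq D false (dl D true z f T)) :
    chi D true (kq D true f) + B.om (csz D true z T) + B.psi = (if f.2.2 then chi D true (-p2 D true) else 0) := by
  have hd := dl_ne hD hz f T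
  obtain ⟨ε, hε, H⟩ := dl_DK hz f T
  obtain ⟨T', z', ε', i', j', H', hz'⟩ := exists_DK hD hd false
  obtain ⟨hT, hi, hj, hRm, -⟩ := DK.other hD H H'
  subst hT
  subst hi
  subst hj
  obtain ⟨R, hR⟩ := se4_R D
  -- the exceptional case
  have hR1 : ¬ Rm (cd D true (mp T) z ε) f.2.1 := by
    have h' := h
    unfold Nsq at h'
    push Not at h'
    obtain ⟨P, hP, h2⟩ := h'
    rw [← H.ur_p1 hP hD, ← sg_ur_dr (s := false) hD hP]
    exact (TRX.Sq_of_isSquare P (mul_ne_zero hd (c2_rs7_ne false)) h2).ur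
  have hR2 : ¬ Rm (ε' : 𝓞 L) f.2.1 := fun h1 => hR1 (hRm.1 h1)
  unfold Rm at hR2
  push Not at hR2
  obtain ⟨hi0, hq4⟩ := hR2
  have hi0' : f.2.1 = false := by
    rwa [ne_eq, Bool.not_eq_true] at hi0
  have h2R : (2 : 𝓞 M) ∉ R.asIdeal := bl_R_two hR
  refine hom_ext_z hD hz (F := T ∪ {⟨R, h2R⟩}) fun v hv => ?_
  rw [Finset.mem_union, not_or, Finset.mem_singleton] at hv
  obtain ⟨P, h2⟩ := v
  have hPR : P ≠ R := fun h => hv.2 (Subtype.ext h)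
  have hPT : P ∉ mp T := by
    intro h1
    obtain ⟨w, hw, hw'⟩ := Finset.mem_map.1 h1
    apply hv.1
    have : w = ⟨P, h2⟩ := Subtype.ext hw'
    exact this ▸ hw
  change _ = _
  -- the relation
  have hex : ∀ Q : HeightOneSpectrum (𝓞 M), ∃ (u : (𝓞 M)ˣ) (g : 𝓞 M), Q ∈ mp T → z Q * z' Q = (u : 𝓞 M) * g ^ 2 := by
    intro Q
    by_cases hQ : Q ∈ mp T
    · obtain ⟨u, g, h⟩ := gen_gen D.hodd (H.ng Q hQ).gen (H'.ng Q hQ).gen
      exact ⟨u, g, fun _ => h⟩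
    · exact ⟨1, 1, fun h => absurd h hQ⟩
  choose u g hu using hex
  obtain ⟨Y, hY⟩ := sm_rel hD hd H H' hu
  have hεu : IsUnit (algebraMap (𝓞 L) (𝓞 M) (ε : 𝓞 L)) := ε.isUnit.map _
  have hεu' : IsUnit (algebraMap (𝓞 L) (𝓞 M) (ε' : 𝓞 L)) := ε'.isUnit.map _
  have hnm : ∀ {x : 𝓞 M}, IsUnit x → x ∉ P.asIdeal := fun hx h =>
    P.isPrime.ne_top (Ideal.eq_top_of_isUnit_mem _ h hx)
  have hYn : Y ∉ P.asIdeal := by
    intro h
    have h3 : -(algebraMap (𝓞 L) (𝓞 M) (ε : 𝓞 L) * algebraMap (𝓞 L) (𝓞 M) (ε' : 𝓞 L)) *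
        ∏ Q ∈ mp T, ((u Q : (𝓞 M)ˣ) : 𝓞 M) ∈ P.asIdeal := by
      rw [hY, sq]
      exact Ideal.mul_mem_left _ _ h
    refine hnm ?_ h3
    refine (hεu.mul hεu').neg.mul ?_
    rw [← Units.coe_prod]
    exact Units.isUnit _
  have h3 := qr_sq P hYn
  rw [← hY, show -(algebraMap (𝓞 L) (𝓞 M) (ε : 𝓞 L) * algebraMap (𝓞 L) (𝓞 M) (ε' : 𝓞 L)) *
    ∏ Q ∈ mp T, ((u Q : (𝓞 M)ˣ) : 𝓞 M) =
    algebraMap (𝓞 L) (𝓞 M) (ε : 𝓞 L) * algebraMap (𝓞 L) (𝓞 M) (ε' : 𝓞 L) * (-1) *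
      ∏ Q ∈ mp T, ((u Q : (𝓞 M)ˣ) : 𝓞 M) by ring, qr_mul P h2, qr_mul P h2, qr_mul P h2, qr_prod h2,
    qr_q4 hD hq4 h2 (hz P h2), mul_one] at h3
  have h4 : ∀ Q ∈ mp T, (TT.qr P ((u Q : (𝓞 M)ˣ) : 𝓞 M) = 1 ∨ TT.qr P ((u Q : (𝓞 M)ˣ) : 𝓞 M) = -1) ∧
      s01 (TT.qr P ((u Q : (𝓞 M)ˣ) : 𝓞 M)) = om (c8 D true (z Q)) (c8 D true (z P)) := by
    intro Q hQ
    have hPQ : P ≠ Q := fun h => hPT (h ▸ hQ)
    refine ⟨qr_pm (unit_nm _), ?_⟩
    have gnm : ∀ {q : 𝓞 M}, (∃ k, Odd k ∧ span {q} = Q.asIdeal ^ k) → q ∉ P.asIdeal := by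
      rintro q ⟨k, -, hk⟩ h
      have h5 : Q.asIdeal ^ k ≤ P.asIdeal := by
        rw [← hk]
        exact (Ideal.span_singleton_le_iff_mem _).2 h
      have h6 := P.isPrime.le_of_pow_le h5
      exact hPQ (HeightOneSpectrum.ext (Q.isMaximal.eq_of_le P.isPrime.ne_top h6)).symm
    have hz1 := gnm (H.ng Q hQ).gen
    have hz2 := gnm (H'.ng Q hQ).gen
    have h5 := hu Q hQ
    have hg : g Q ∉ P.asIdeal := by
      intro h
      rcases P.isPrime.mem_or_mem (show z Q * z' Q ∈ P.asIdeal by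
        rw [h5, sq]
        exact Ideal.mul_mem_left _ _ (Ideal.mul_mem_left _ _ h)) with h | h
      · exact hz1 h
      · exact hz2 h
    have h6 : TT.qr P ((u Q : (𝓞 M)ˣ) : 𝓞 M) = TT.qr P (z Q) * TT.qr P (z' Q) := by
      rw [← qr_mul P h2, h5, qr_mul P h2, qr_sq P hg, mul_one]
    rw [h6, s01_mul (qr_pm hz1) (qr_pm hz2), NG.transpose hD hPQ h2 (H.two Q hQ) (hz P h2) (H'.ng Q hQ),
      ← hom z Q P hPQ.symm (H.two Q hQ) h2 (H.ng Q hQ) (hz P h2), add_comm]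
    rfl
  obtain ⟨h7, h8⟩ := s01_prod (mp T) (fun Q => TT.qr P ((u Q : (𝓞 M)ˣ) : 𝓞 M)) fun Q hQ => (h4 Q hQ).1
  have hpm := qr_pm (hnm hεu)
  have hneg : IsUnit (-1 : 𝓞 M) := isUnit_one.neg
  have hpmn := qr_pm (hnm hneg)
  have h9 := congrArg s01 h3
  have pm_mul : ∀ {a b : ℤ}, (a = 1 ∨ a = -1) → (b = 1 ∨ b = -1) → (a * b = 1 ∨ a * b = -1) := by
    rintro a b (rfl | rfl) (rfl | rfl) <;> norm_num
  rw [s01_mul (pm_mul hpm hpmn) h7, s01_mul hpm hpmn, h8,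
    Finset.sum_congr rfl fun Q hQ => (h4 Q hQ).2] at h9
  have h10 : s01 1 = 0 := by decide
  rw [h10] at h9
  have h11 : om (csz D true z T) (c8 D true (z P)) = ∑ Q ∈ mp T, om (c8 D true (z Q)) (c8 D true (z P)) := by
    unfold csz
    rw [Finset.sum_map, map_sum, AddMonoidHom.finsetSum_apply]
    rfl
  have hpsi : B.psi (c8 D true (z P)) = s01 (TT.qr P (-1)) := by
    have h12 := om_self hD hom hom0 hR h2 hPR (hz P h2)
    rw [← hBo] at h12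
    exact h12
  rw [AddMonoidHom.add_apply, AddMonoidHom.add_apply, hpsi, hBo, h11, chi_z hD hz (K8.wk hD true f) ⟨P, h2⟩]
  change s01 (TT.qr P (kq D true f)) + _ + _ = _
  have e : kq D true f = algebraMap (𝓞 L) (𝓞 M) (ε : 𝓞 L) * (if f.2.2 then -(p2 D true) else 1) := by
    unfold kq
    rw [hε, hi0', if_neg (by simp), one_mul]
  have hWn : (if f.2.2 then -(p2 D true) else 1 : 𝓞 M) ∉ P.asIdeal := by
    intro h
    apply kq_nm (K8.wk hD true f) h2 (hz P h2)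
    rw [e]
    exact Ideal.mul_mem_left _ _ h
  have hpw := qr_pm hWn
  rw [e, qr_mul P h2, s01_mul hpm hpw]
  have h13 : (if f.2.2 then chi D true (-p2 D true) else 0 : G8 D true →+ ZMod 2) (c8 D true (z P)) =
      s01 (TT.qr P (if f.2.2 then -(p2 D true) else 1 : 𝓞 M)) := by
    cases f.2.2
    · have h3 : TT.qr P (1 : 𝓞 M) = 1 := by
        have h := qr_sq P (a := (1 : 𝓞 M)) (fun h => P.isPrime.ne_top ((Ideal.eq_top_iff_one _).2 h))
        rwa [one_pow] at h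
      rw [if_neg (by simp), if_neg (by simp), h3, h10, AddMonoidHom.zero_apply]
    · rw [if_pos rfl, if_pos rfl]
      exact chi_z hD hz (K8.w2 hD true) ⟨P, h2⟩
  rw [h13]
  linear_combination h9

end

end TRZ
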