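import Pool.Agent.TRZ.FD15
import Pool.Agent.TRZ.FD16
import Pool.Agent.TRZ.FD16a
import Pool.Agent.TRZ.FD17
import Pool.Agent.TRPD.D9
import Pool.Agent.TRPD.D10

/-! # [FE-FD18] the density of the finite groups among the curves with at most one exceptional prime above `2` -/

set_option autoImplicit false

open NumberField Ideal IsDedekindDomain Filter Topology
open scoped Real Classical ComplexConjugate
open TR TRG TTS TU TT XTB TRP

namespace TRZ

/-- dropping at most one element does not change the limit -/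
theorem ratio_adj {a b a' b' : ℕ → ℕ} {c : ℝ} (h : Tendsto (fun n => (a n : ℝ) / b n) atTop (𝓝 c))
    (hb : Tendsto (fun n => (b n : ℝ)) atTop atTop) (ha1 : ∀ n, a' n ≤ a n) (ha2 : ∀ n, a n ≤ a' n + 1)
    (hb1 : ∀ n, b' n ≤ b n) (hb2 : ∀ n, b n ≤ b' n + 1) :
    Tendsto (fun n => (a' n : ℝ) / b' n) atTop (𝓝 c) := by
  have key : ∀ (u u' : ℕ → ℕ) (l : ℝ), Tendsto (fun n => (u n : ℝ) / b n) atTop (𝓝 l) → (∀ n, u' n ≤ u n) →
      (∀ n, u n ≤ u' n + 1) → Tendsto (fun n => (u' n : ℝ) / b n) atTop (𝓝 l) := by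
    intro u u' l hl h1 h2
    have h3 : Tendsto (fun n => (u n : ℝ) / b n - 1 / b n) atTop (𝓝 (l - 0)) :=
      hl.sub (tendsto_const_nhds.div_atTop hb)
    rw [sub_zero] at h3
    refine tendsto_of_tendsto_of_tendsto_of_le_of_le h3 hl (fun n => ?_) (fun n => ?_)
    · rw [← sub_div]
      refine div_le_div_of_nonneg_right ?_ (Nat.cast_nonneg _)
      rw [sub_le_iff_le_add]
      have h4 := (Nat.cast_le (α := ℝ)).2 (h2 n)
      rwa [Nat.cast_add, Nat.cast_one] at h4
    · exact div_le_div_of_nonneg_right ((Nat.cast_le (α := ℝ)).2 (h1 n)) (Nat.cast_nonneg _)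
  have h1 := key a a' c h ha1 ha2
  have h2 : Tendsto (fun n => (b n : ℝ) / b n) atTop (𝓝 1) := by
    refine tendsto_const_nhds.congr' ?_
    filter_upwards [hb.eventually_gt_atTop 0] with n hn
    rw [div_self hn.ne']
  have h3 := h1.div (key b b' 1 h2 hb1 hb2) one_ne_zero
  rw [div_one] at h3
  refine h3.congr' ?_
  filter_upwards [hb.eventually_gt_atTop 0] with n hn
  simp only [Pi.div_apply]
  rw [div_div_div_cancel_right₀ hn.ne']

section
variable {P G : Type} [AddCommGroup G] [Fintype G]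

theorem main_cnt0 (B : TRPA.DSys P G) {ν : G →+ ZMod 2} {c₀ : G} (hν : ν ≠ 0) (hγ : ν + B.om c₀ + B.psi ≠ 0)
    (hψ : ∃ g, B.om g g ≠ 0) :
    Tendsto (fun X : ℝ => (cnt B.toBase X (fun S => B.cs S = c₀ ∧ B.NS ν 0 0 S) : ℝ) /
      (cnt B.toBase X (fun S => B.cs S = c₀) : ℝ)) atTop (𝓝 TRP.cinf) := by
  refine main_cnt B ?_ ?_ hψ
  · intro h
    apply hν
    refine DFunLike.ext _ _ fun g => ?_
    have h1 := DFunLike.congr_fun h g
    rw [TRPA.rhoW_apply, AddMonoidHom.zero_apply, zero_mul, add_zero] at h1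
    exact h1
  · intro h
    apply hγ
    refine DFunLike.ext _ _ fun g => ?_
    have h1 := DFunLike.congr_fun h g
    rw [TRPA.gamW_apply, AddMonoidHom.zero_apply, zero_mul, add_zero] at h1
    exact h1

theorem main_cntK (B : TRPA.DSys P G) {ν : G →+ ZMod 2} {c₀ : G} (hν : ν ≠ 0) (hγ : ν c₀ = 0 → B.om c₀ + B.psi ≠ 0)
    (hψ : ∃ g, B.om g g ≠ 0) :
    Tendsto (fun X : ℝ => (cnt B.toBase X (fun S => B.cs S = c₀ ∧ B.KB ν S) : ℝ) /
      (cnt B.toBase X (fun S => B.cs S = c₀) : ℝ)) atTop (𝓝 TRP.cinf) := by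
  refine (TRPA.main_KB B hν hγ hψ).congr fun X => ?_
  rw [cnt_eq, cnt_eq]

end

section
variable {L M : Type} [Field L] [NumberField L] [Field M] [NumberField M] [Algebra L M]
  [IsTotallyReal L] {D : Dat L M} (hD : Od2 D)
variable {z : HeightOneSpectrum (𝓞 M) → 𝓞 M} (hz : ∀ P, (2 : 𝓞 M) ∉ P.asIdeal → NG D true P (z P))

include hD hz in
theorem chi_val {k : 𝓞 M} (hk : K8 k) (T : Finset (OP M)) : chi D true k (csz D true z T) = ∑ v ∈ T, s01 (TT.qr v.1 k) := by
  unfold csz
  rw [map_sum]
  exact Finset.sum_congr rfl fun v _ => chi_z hD hz hk v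

variable (hex : ∀ c : G8 D true, ∃ T : Finset (OP M), csz D true z T = c)

include hD hz hex in
theorem chi_ext {k k' : 𝓞 M} (hk : K8 k) (hk' : K8 k') (h : ∀ v : OP M, TT.qr v.1 k = TT.qr v.1 k') :
    chi D true k = chi D true k' := by
  refine DFunLike.ext _ _ fun c => ?_
  obtain ⟨T, rfl⟩ := hex c
  rw [chi_val hD hz hk, chi_val hD hz hk']
  exact Finset.sum_congr rfl fun v _ => by rw [h v]

include hD hz in
theorem chi_p_ne (t : Bool) : chi D true (-p1 D t) ≠ 0 := by
  have hns : ¬ IsSquare ((-p1 D t : 𝓞 M) : M) := by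
    rintro ⟨y, hy⟩
    have h1 := (val_p1 hD t (Vp hD t)).1
    rw [hy, map_mul] at h1
    exact h1 ⟨_, rfl⟩ rfl
  obtain ⟨P, hP, hq⟩ := exists_nonres hns {Vp hD true, Vp hD false}
  have h2 : (2 : 𝓞 M) ∉ P.asIdeal := by
    intro h
    obtain ⟨t, rfl⟩ := (two_iff hD).1 h
    apply hP
    cases t <;> simp
  intro h
  have h1 := DFunLike.congr_fun h (c8 D true (z P))
  rw [chi_z hD hz (K8.w1 hD t) ⟨P, h2⟩, hq, AddMonoidHom.zero_apply] at h1
  exact absurd h1 (by decide)

include hD hz hex in
/-- the class `κ` if `ϖ'` is exceptional -/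
theorem kq_beta {p : FI M × G8 D true} (h : (pm D p).1 = (false, 0, 0)) :
    chi D true (kq D true p.1) = if p.1.2.1 then chi D true (-p1 D true) else 0 := by
  unfold pm at h
  simp only [Prod.mk.injEq] at h
  obtain ⟨h1, h2, -⟩ := h
  unfold wu at h2
  rw [bcl_zero hD (unit_nm2 hD.two _)] at h2
  obtain ⟨w, hw⟩ := q4_unit hD h2
  have hq : ∀ v : OP M, TT.qr v.1 ((Quotient.out p.1.1 : (𝓞 M)ˣ) : 𝓞 M) = 1 := by
    intro v
    rw [← ue_spec (D := D), hw, Units.val_pow_eq_pow_val, map_pow]
    refine qr_sq v.1 fun h3 => v.1.isPrime.ne_top (Ideal.eq_top_of_isUnit_mem _ h3 (w.isUnit.map _))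
  have hk : ∀ v : OP M, TT.qr v.1 (kq D true p.1) = TT.qr v.1 (if p.1.2.1 then -p1 D true else 1) := by
    intro v
    unfold kq
    rw [qr_mul v.1 v.2, hq, one_mul, h1]
    simp only [Bool.false_eq_true, if_false, mul_one]
  have hK : K8 (if p.1.2.1 then -p1 D true else 1 : 𝓞 M) := by
    split_ifs
    · exact K8.w1 hD true
    · exact K8.one
  rw [chi_ext hD hz hex (K8.wk hD true p.1) hK hk]
  split_ifs
  · rfl
  · refine DFunLike.ext _ _ fun c => ?_
    obtain ⟨T, rfl⟩ := hex c
    rw [chi_val hD hz K8.one, AddMonoidHom.zero_apply]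
    refine Finset.sum_eq_zero fun v _ => ?_
    have h3 : TT.qr v.1 (1 : 𝓞 M) = 1 := by
      have h4 := qr_sq v.1 (a := (1 : 𝓞 M)) (fun h => v.1.isPrime.ne_top ((Ideal.eq_top_iff_one _).2 h))
      rwa [one_pow] at h4
    rw [h3]
    decide

/-- the condition on the set of the primes, in all types with at least one non-exceptional prime -/
def GP (B B' : TRPA.DSys (OP M) (G8 D true)) (p : FI M × G8 D true) (T : Finset (OP M)) : Prop :=
  if (pm D p).1 = (false, 0, 0) then
    (if p.1.2.1 = true then B.NS (chi D true (-p1 D true)) 0 0 T else B.KB (chi D true (-p1 D true)) T)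
  else if (pm D p).2 = (false, 0, 0) then
    (if p.1.2.2 = true then B'.NS (chi D true (-p2 D true)) 0 0 T else B'.KB (chi D true (-p2 D true)) T)
  else B.NS (chi D true (kq D true p.1)) (chi D true (-p1 D true)) (chi D true (-p2 D true)) T

variable (B B' : TRPA.DSys (OP M) (G8 D true)) (hw : B.w = fun u v => TRG.aM z u.1 v.1)
  (hc : B.c = fun v => c8 D true (z v.1)) (hw' : B'.w = fun u v => TRG.aM z v.1 u.1)
  (hc' : B'.c = fun v => c8 D true (z v.1)) (hb' : B'.toBase = B.toBase)
  {om : G8 D true →+ G8 D true →+ ZMod 2} (hBo : B.om = om) (hBo' : B'.om = B.om)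

include hD hz hw hc hw' hc' in
/-- **the criterion** for all types -/
theorem sha_GP {f : FI M} {T : Finset (OP M)} (hN : ∃ s, Nsq D s (dl D true z f T))
    (hsq : ∀ s, ¬ IsSquare (dl D true z f T * (rs7 D s : M))) (C : WeierstrassCurve.VariableChange M) :
    TRB.FiniteSha (C • TTS.Ws (dl D true z f T)) ↔ GP B B' (f, csz D true z T) T := by
  unfold GP
  by_cases h1 : (pm D (f, csz D true z T)).1 = (false, 0, 0)
  · rw [if_pos h1]
    have h2 := (pm_key1 hD hz f T).2 h1
    have h3 : Nsq D false (dl D true z f T) := by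
      obtain ⟨s, hs⟩ := hN
      cases s
      · exact hs
      · exact absurd hs h2
    exact sha_beta hD hz B hw hc f T h2 h3 hsq C
  · rw [if_neg h1]
    have h2 : Nsq D true (dl D true z f T) := by
      by_contra h
      exact h1 ((pm_key1 hD hz f T).1 h)
    by_cases h3 : (pm D (f, csz D true z T)).2 = (false, 0, 0)
    · rw [if_pos h3]
      exact sha_alpha hD hz B' hw' hc' f T h2 ((pm_key2 hD hz f T).2 h3) hsq C
    · rw [if_neg h3]
      have h4 : Nsq D false (dl D true z f T) := by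
        by_contra h
        exact h3 ((pm_key2 hD hz f T).1 h)
      exact sha_iff hD hz B hw hc f T (fun t => by cases t; exacts [h4, h2]) C

variable (hom : ∀ (z : HeightOneSpectrum (𝓞 M) → 𝓞 M) (P Q : HeightOneSpectrum (𝓞 M)), P ≠ Q → (2 : 𝓞 M) ∉ P.asIdeal →
      (2 : 𝓞 M) ∉ Q.asIdeal → NG D true P (z P) → NG D true Q (z Q) →
      TRG.aM z P Q + TRG.aM z Q P = om (c8 D true (z P)) (c8 D true (z Q)))
  (hom0 : ∀ (R : HeightOneSpectrum (𝓞 M)) (q : 𝓞 M), R.asIdeal = span {D.rr} → NG D true R q →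
      ∀ g, om g g = om g (c8 D true q)) (hps : ∃ g, om g g ≠ 0)

include hD hz hex hc hc' hb' hBo hBo' hom hom0 hps in
/-- **the density for one type** -/
theorem ratio_GP {p : FI M × G8 D true} (hp : p ∈ oneS D) :
    Tendsto (fun X : ℝ => (cnt B.toBase X (fun T => B.cs T = p.2 ∧ GP B B' p T) : ℝ) /
      (cnt B.toBase X (fun T => B.cs T = p.2) : ℝ)) atTop (𝓝 TRP.cinf) := by
  obtain ⟨f, c⟩ := p
  obtain ⟨T₀, hT₀⟩ := hex c
  have hψ : ∃ g, B.om g g ≠ 0 := by rw [hBo]; exact hps
  have hψ' : ∃ g, B'.om g g ≠ 0 := by rw [hBo']; exact hψ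
  have hone : ¬ ((pm D (f, c)).1 = (false, 0, 0) ∧ (pm D (f, c)).2 = (false, 0, 0)) := by
    unfold oneS at hp
    exact (Finset.mem_filter.1 hp).2
  have hcs : ∀ T, B'.cs T = B.cs T := by
    intro T
    unfold TRPA.DSys.cs
    rw [hc, hc']
  have hk1 := pm_key1 hD hz f T₀
  have hk2 := pm_key2 hD hz f T₀
  rw [hT₀] at hk1 hk2
  unfold GP
  by_cases h1 : (pm D (f, c)).1 = (false, 0, 0)
  · simp only [if_pos h1]
    have h2 : ¬ (pm D (f, c)).2 = (false, 0, 0) := fun h => hone ⟨h1, h⟩
    have h3 : Nsq D false (dl D true z f T₀) := by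
      by_contra h
      exact h2 (hk2.1 h)
    have hγ := gam_ne hD hz B hBo hom hom0 f T₀ h3
    rw [hT₀, kq_beta hD hz hex h1] at hγ
    have hν := chi_p_ne hD hz true
    by_cases hi : f.2.1 = true
    · simp only [if_pos hi]
      rw [if_pos hi] at hγ
      refine main_cnt0 B hν ?_ hψ
      intro h0
      rcases (by decide : ∀ a : ZMod 2, a = 0 ∨ a = 1) (chi D true (-p1 D true) c) with h4 | h4
      · apply hγ
        refine DFunLike.ext _ _ fun g => ?_
        have h5 := DFunLike.congr_fun h0 g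
        rw [TRPA.gamW_apply, h4, zero_mul, add_zero]
        exact h5
      · have h5 : chi D true (-p1 D true) c + B.om c c + B.om c c = 0 := DFunLike.congr_fun h0 c
        rw [add_assoc, TRPA.z2, add_zero, h4] at h5
        exact one_ne_zero h5
    · simp only [if_neg hi]
      rw [if_neg hi] at hγ
      refine main_cntK B hν (fun h4 h0 => hγ ?_) hψ
      refine DFunLike.ext _ _ fun g => ?_
      have h5 := DFunLike.congr_fun h0 g
      rw [TRPA.gamW_apply, h4, zero_mul, add_zero, AddMonoidHom.zero_apply, zero_add]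
      exact h5
  · simp only [if_neg h1]
    have hN1 : Nsq D true (dl D true z f T₀) := by
      by_contra h
      exact h1 (hk1.1 h)
    by_cases h2 : (pm D (f, c)).2 = (false, 0, 0)
    · simp only [if_pos h2]
      have hν := chi_p_ne hD hz false
      have hga := gam_alpha hD hz B hBo hom hom0 f T₀ (hk2.2 h2)
      have hρ := rho_ne hD hz f T₀ hN1
      rw [hT₀] at hga hρ
      have hgc : chi D true (kq D true f) c + B.om c c + B.om c c = (if f.2.2 then chi D true (-p2 D true) else 0) c :=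
        DFunLike.congr_fun hga c
      rw [add_assoc, TRPA.z2, add_zero] at hgc
      by_cases hj : f.2.2 = true
      · simp only [if_pos hj]
        rw [if_pos hj] at hga hgc
        have hkn : chi D true (kq D true f) ≠ 0 := by
          intro h0
          apply hρ
          rw [h0, AddMonoidHom.zero_apply] at hgc
          refine DFunLike.ext _ _ fun g => ?_
          rw [TRPA.rhoW_apply, h0, ← hgc, zero_mul, AddMonoidHom.zero_apply, add_zero]
        have h5 := main_cnt0 B' (ν := chi D true (-p2 D true)) (c₀ := c) hν (by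
          intro h0
          apply hkn
          refine DFunLike.ext _ _ fun g => ?_
          have h6 : chi D true (-p2 D true) g + B'.om c g + B'.om g g = 0 := DFunLike.congr_fun h0 g
          have h7 : chi D true (kq D true f) g + B.om c g + B.om g g = chi D true (-p2 D true) g := DFunLike.congr_fun hga g
          rw [hBo'] at h6
          rw [AddMonoidHom.zero_apply]
          have e1 := TRPA.z2 (B.om c g)
          have e2 := TRPA.z2 (B.om g g)
          linear_combination h6 + h7 - e1 - e2) hψ'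
        rw [hb'] at h5
        refine h5.congr fun X => ?_
        congr 2
        · exact cnt_congr _ fun T => by rw [hcs]
        · exact cnt_congr _ fun T => by rw [hcs]
      · simp only [if_neg hj]
        rw [if_neg hj] at hga hgc
        have h5 := main_cntK B' (ν := chi D true (-p2 D true)) (c₀ := c) hν (by
          intro h4 h0
          apply hρ
          refine DFunLike.ext _ _ fun g => ?_
          have h6 : B'.om c g + B'.om g g = 0 := DFunLike.congr_fun h0 g
          have h7 : chi D true (kq D true f) g + B.om c g + B.om g g = 0 := DFunLike.congr_fun hga g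
          rw [hBo'] at h6
          rw [TRPA.rhoW_apply, h4, zero_mul, add_zero, AddMonoidHom.zero_apply]
          linear_combination h7 - h6) hψ'
        rw [hb'] at h5
        refine h5.congr fun X => ?_
        congr 2
        · exact cnt_congr _ fun T => by rw [hcs]
        · exact cnt_congr _ fun T => by rw [hcs]
    · simp only [if_neg h2]
      have hN2 : Nsq D false (dl D true z f T₀) := by
        by_contra h
        exact h2 (hk2.1 h)
      have hρ := rho_ne hD hz f T₀ hN1
      have hγ := gam_ne hD hz B hBo hom hom0 f T₀ hN2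
      rw [hT₀] at hρ hγ
      exact main_cnt B hρ hγ hψ

end

section
variable {L M : Type} [Field L] [NumberField L] [Field M] [NumberField M] [Algebra L M]
  [IsTotallyReal L] {D : Dat L M} (hD : Od2 D)

include hD

/-- **[FE] the density theorem for the curves with at most one exceptional prime** -/
theorem fe_density {Al : WeierstrassCurve M → Prop}
    (hAl : ∀ d : M, d ≠ 0 → ∀ C : WeierstrassCurve.VariableChange M,
      Al (C • Ws d) ↔ (∃ s, Nsq D s d) ∧ ∀ s, ¬ IsSquare (d * (rs7 D s : M))) :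
    (∀ X : ℕ, (cmFamily M X Al).Finite) ∧
    Tendsto (fun X : ℕ => (cmFamily M X Al).ncard) atTop atTop ∧
    Tendsto (fun X : ℕ => ((cmFamily M X fun E => Al E ∧ TRB.FiniteSha E).ncard : ℝ) /
      ((cmFamily M X Al).ncard : ℝ)) atTop (𝓝 (∏' k : ℕ, (1 - 1 / 2 ^ (k + 1)))) := by
  obtain ⟨z, hz⟩ : ∃ z : HeightOneSpectrum (𝓞 M) → 𝓞 M, ∀ P, (2 : 𝓞 M) ∉ P.asIdeal → NG D true P (z P) := by
    have h : ∀ P : HeightOneSpectrum (𝓞 M), (2 : 𝓞 M) ∉ P.asIdeal → ∃ q, NG D true P q :=
      fun P hP => exists_NG hD true hP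
    choose! z hz using h
    exact ⟨z, hz⟩
  obtain ⟨om, hsy, hom, hom0, hps⟩ := exists_om hD true
  obtain ⟨B, hN, hw, hc, hBom⟩ := exists_dsys hD true hz om hsy fun P Q hPQ hP hQ =>
    hom z P Q hPQ hP hQ (hz P hP) (hz Q hQ)
  obtain ⟨B', hb', hw1, hc1, hom1⟩ := TRPA.exists_tr B
  have hw' : B'.w = fun u v => TRG.aM z v.1 u.1 := by
    funext u v
    rw [hw1, hw]
  have hc' : B'.c = fun v => c8 D true (z v.1) := by rw [hc1, hc]
  have hex : ∀ c : G8 D true, ∃ T : Finset (OP M), csz D true z T = c := by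
    intro c
    obtain ⟨R, -, hR⟩ := TRPA.exists_set B ∅ c
    exact ⟨R, by rw [← fd_cs_eq B hc]; exact hR⟩
  obtain ⟨Rr, hRr⟩ : ∃ Rr : FI M → Finset (OP M) → Prop, ∀ f T, Rr f T ↔ ∀ s, ¬ IsSquare (dl D true z f T * (rs7 D s : M)) :=
    ⟨fun f T => ∀ s, ¬ IsSquare (dl D true z f T * (rs7 D s : M)), fun _ _ => Iff.rfl⟩
  have hR0 : ∀ f T, ¬ Rr f T → T = ∅ := by
    intro f T h
    rw [hRr] at h
    push Not at h
    obtain ⟨s, hs⟩ := h
    exact dl_sq_empty hz hs
  have hal : ∀ (f : FI M) (T : Finset (OP M)) (C : WeierstrassCurve.VariableChange M),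
      Al (C • Ws (dl D true z f T)) ↔ (f, csz D true z T) ∈ oneS D ∧ Rr f T := by
    intro f T C
    rw [hAl _ (dl_ne hD hz f T) C, oneS_iff hD hz, hRr]
  have h1 := fun X => fam_sum hD hz (B := B.toBase) hN X Al (oneS D) Rr hal
  have h2 := fun X => fam_sum hD hz (B := B.toBase) hN X (fun E => Al E ∧ TRB.FiniteSha E) (oneS D)
    (fun f T => Rr f T ∧ GP B B' (f, csz D true z T) T)
    (fun f T C => by
      rw [hal, and_assoc]
      refine and_congr_right fun h => and_congr_right fun h' => ?_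
      exact sha_GP hD hz B B' hw hc hw' hc' ((oneS_iff hD hz f T).1 h) ((hRr f T).1 h') C)
  have hne : (oneS D).Nonempty := by
    obtain ⟨p, hp⟩ := al_ne hD hz
    refine ⟨p, ?_⟩
    have h3 := (al_pm hD hz hex p).1 hp
    unfold oneS
    exact Finset.mem_filter.2 ⟨Finset.mem_univ _, fun h => h3.1 h.1⟩
  have htend0 : ∀ p : FI M × G8 D true, Tendsto (fun X : ℕ => (cnt B.toBase ((X : ℝ) / betaC hD true z p.1 p.2) (fun T =>
      csz D true z T = p.2) : ℝ)) atTop atTop := by
    intro p
    refine (tend_cls hD B hc p).congr fun X => ?_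
    rw [cnt_congr B.toBase (Q := fun T => csz D true z T = p.2 ∧ True) (Q' := fun T => csz D true z T = p.2)
      fun T => and_iff_left trivial]
  have hle : ∀ (p : FI M × G8 D true) (x : ℝ), cnt B.toBase x (fun T => csz D true z T = p.2) ≤
      cnt B.toBase x (fun T => csz D true z T = p.2 ∧ Rr p.1 T) + 1 := fun p x =>
    cnt_empty B.toBase fun T hT => by
      by_cases h8 : Rr p.1 T
      · exact Or.inl ⟨hT, h8⟩
      · exact Or.inr (hR0 _ _ h8)
  have htend : ∀ p ∈ oneS D, Tendsto (fun X : ℕ => (cnt B.toBase ((X : ℝ) / betaC hD true z p.1 p.2) (fun T =>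
      csz D true z T = p.2 ∧ Rr p.1 T) : ℝ)) atTop atTop := by
    intro p _
    have h3 := tendsto_atTop_add_const_right atTop (-1 : ℝ) (htend0 p)
    refine tendsto_atTop_mono (fun X => ?_) h3
    have h4 := (Nat.cast_le (α := ℝ)).2 (hle p ((X : ℝ) / betaC hD true z p.1 p.2))
    rw [Nat.cast_add, Nat.cast_one] at h4
    linarith
  refine ⟨fun X => (h1 X).1, ?_, ?_⟩
  · obtain ⟨p, hp⟩ := hne
    have h3 : Tendsto (fun X : ℕ => ((cmFamily M X Al).ncard : ℝ)) atTop atTop := by
      refine tendsto_atTop_mono (fun X => ?_) (htend p hp)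
      rw [(h1 X).2]
      push_cast
      exact Finset.single_le_sum (f := fun p : FI M × G8 D true => (cnt B.toBase ((X : ℝ) / betaC hD true z p.1 p.2)
        (fun T => csz D true z T = p.2 ∧ Rr p.1 T) : ℝ)) (fun _ _ => Nat.cast_nonneg _) hp
    exact tendsto_natCast_atTop_iff.1 h3
  · have h3 := mix (oneS D) (fun p X => (cnt B.toBase ((X : ℝ) / betaC hD true z p.1 p.2) (fun T => csz D true z T = p.2 ∧
        (Rr p.1 T ∧ GP B B' (p.1, csz D true z T) T)) : ℝ))
      (fun p X => (cnt B.toBase ((X : ℝ) / betaC hD true z p.1 p.2) (fun T => csz D true z T = p.2 ∧ Rr p.1 T) : ℝ))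
      (fun p hp => by
        have h4 := (ratio_GP hD hz hex B B' hc hc' hb' hBom hom1 hom hom0 hps hp).comp
          (div_tend (betaC hD true z p.1 p.2) (betaC_pos hD p.1 p.2))
        refine ratio_adj (a := fun X : ℕ => cnt B.toBase ((X : ℝ) / betaC hD true z p.1 p.2) (fun T => csz D true z T = p.2 ∧ GP B B' p T))
          (b := fun X : ℕ => cnt B.toBase ((X : ℝ) / betaC hD true z p.1 p.2) (fun T => csz D true z T = p.2))
          (h4.congr fun X => ?_) (htend0 p) (fun X => ?_) (fun X => ?_) (fun X => ?_) (fun X => hle p _)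
        · simp only [Function.comp]
          congr 2
          · exact cnt_congr _ fun T => by rw [fd_cs_eq B hc]
          · exact cnt_congr _ fun T => by rw [fd_cs_eq B hc]
        · refine cnt_mono _ fun T hT => ⟨hT.1, ?_⟩
          have h5 := hT.2.2
          rw [hT.1] at h5
          exact h5
        · refine cnt_empty _ fun T hT => ?_
          by_cases h8 : Rr p.1 T
          · refine Or.inl ⟨hT.1, h8, ?_⟩
            rw [hT.1]
            exact hT.2
          · exact Or.inr (hR0 _ _ h8)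
        · exact cnt_mono _ fun T hT => hT.1)
      (fun p hp => (htend p hp).eventually_gt_atTop 0) hne
    refine (h3.congr fun X => ?_).trans_eq rfl
    rw [(h1 X).2, (h2 X).2]
    push_cast
    rfl

end

end TRZ
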