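import Pool.Agent.TRZ.FD18
import Pool.Agent.TRZ.CL1

/-! # [FE-FD19] the density of the finite groups among the curves with at most one exceptional prime above `2`, without
the condition on the torsion -/

set_option autoImplicit false

open NumberField Ideal IsDedekindDomain Filter Topology
open scoped Real Classical ComplexConjugate
open TR TRG TTS TU TT XTB TRP

namespace TRZ

/-- adding a bounded number of elements does not change the limit -/
theorem ratio_K {a b a' b' : ℕ → ℕ} {c : ℝ} {K : ℕ} (h : Tendsto (fun n => (a n : ℝ) / b n) atTop (𝓝 c))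
    (hb : Tendsto (fun n => (b n : ℝ)) atTop atTop) (ha1 : ∀ n, a n ≤ a' n) (ha2 : ∀ n, a' n ≤ a n + K)
    (hb1 : ∀ n, b n ≤ b' n) (hb2 : ∀ n, b' n ≤ b n + K) :
    Tendsto (fun n => (a' n : ℝ) / b' n) atTop (𝓝 c) := by
  have key : ∀ (u u' : ℕ → ℕ) (l : ℝ), Tendsto (fun n => (u n : ℝ) / b n) atTop (𝓝 l) → (∀ n, u n ≤ u' n) →
      (∀ n, u' n ≤ u n + K) → Tendsto (fun n => (u' n : ℝ) / b n) atTop (𝓝 l) := by
    intro u u' l hl h1 h2
    have h3 : Tendsto (fun n => (u n : ℝ) / b n + K / b n) atTop (𝓝 (l + 0)) :=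
      hl.add (tendsto_const_nhds.div_atTop hb)
    rw [add_zero] at h3
    refine tendsto_of_tendsto_of_tendsto_of_le_of_le hl h3 (fun n => ?_) (fun n => ?_)
    · exact div_le_div_of_nonneg_right ((Nat.cast_le (α := ℝ)).2 (h1 n)) (Nat.cast_nonneg _)
    · show (u' n : ℝ) / b n ≤ (u n : ℝ) / b n + K / b n
      rw [← add_div]
      refine div_le_div_of_nonneg_right ?_ (Nat.cast_nonneg _)
      have h4 := (Nat.cast_le (α := ℝ)).2 (h2 n)
      rwa [Nat.cast_add] at h4
  have h1 := key a a' c h ha1 ha2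
  have h2 : Tendsto (fun n => (b n : ℝ) / b n) atTop (𝓝 1) := by
    refine tendsto_const_nhds.congr' ?_
    filter_upwards [hb.eventually_gt_atTop 0] with n hn
    rw [div_self hn.ne']
  have h3 := h1.div (key b b' 1 h2 hb1 hb2) one_ne_zero
  rw [div_one] at h3
  refine h3.congr' ?_
  filter_upwards [hb.eventually_gt_atTop 0] with n hn
  simp only [Pi.div_apply]
  rw [div_div_div_cancel_right₀ hn.ne']

section
variable {P : Type}

theorem cnt_one (B : TRQ.Base P) {x : ℝ} {Q : Finset P → Prop} (h : ∀ S, Q S → S = ∅) : cnt B x Q ≤ 1 := by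
  unfold cnt
  refine (Finset.card_le_card (t := {∅}) fun T hT => ?_).trans (Finset.card_singleton _).le
  rw [Finset.mem_filter] at hT
  rw [Finset.mem_singleton]
  exact h T hT.2

end

section
variable {K : Type} [Field K] [NumberField K]

theorem fam_mono {Q Q' : WeierstrassCurve K → Prop} (h : ∀ E, Q E → Q' E) (X : ℕ) : cmFamily K X Q ⊆ cmFamily K X Q' := by
  rintro c ⟨E, h1, h2, h3, h4⟩
  exact ⟨E, h1, h2, h3, h E h4⟩

theorem fam_union {Q Q' R : WeierstrassCurve K → Prop} (h : ∀ E, Q E → Q' E ∨ R E) (X : ℕ) :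
    cmFamily K X Q ⊆ cmFamily K X Q' ∪ cmFamily K X R := by
  rintro c ⟨E, h1, h2, h3, h4⟩
  rcases h E h4 with h5 | h5
  · exact Or.inl ⟨E, h1, h2, h3, h5⟩
  · exact Or.inr ⟨E, h1, h2, h3, h5⟩

end

section
variable {L M : Type} [Field L] [NumberField L] [Field M] [NumberField M] [Algebra L M]
  [IsTotallyReal L] {D : Dat L M} (hD : Od2 D)

include hD

/-- **[FE] the density theorem for all curves with at most one exceptional prime** -/
theorem fe_density2 {Al : WeierstrassCurve M → Prop}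
    (hAl : ∀ d : M, d ≠ 0 → ∀ C : WeierstrassCurve.VariableChange M, Al (C • Ws d) ↔ ∃ s, Nsq D s d) :
    (∀ X : ℕ, (cmFamily M X Al).Finite) ∧
    Tendsto (fun X : ℕ => (cmFamily M X Al).ncard) atTop atTop ∧
    Tendsto (fun X : ℕ => ((cmFamily M X fun E => Al E ∧ TRB.FiniteSha E).ncard : ℝ) /
      ((cmFamily M X Al).ncard : ℝ)) atTop (𝓝 (∏' k : ℕ, (1 - 1 / 2 ^ (k + 1)))) := by
  obtain ⟨z, hz⟩ : ∃ z : HeightOneSpectrum (𝓞 M) → 𝓞 M, ∀ P, (2 : 𝓞 M) ∉ P.asIdeal → NG D true P (z P) := by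
    have h : ∀ P : HeightOneSpectrum (𝓞 M), (2 : 𝓞 M) ∉ P.asIdeal → ∃ q, NG D true P q :=
      fun P hP => exists_NG hD true hP
    choose! z hz using h
    exact ⟨z, hz⟩
  obtain ⟨om, hsy, hom, hom0, hps⟩ := exists_om hD true
  obtain ⟨B, hN, -, -, -⟩ := exists_dsys hD true hz om hsy fun P Q hPQ hP hQ =>
    hom z P Q hPQ hP hQ (hz P hP) (hz Q hQ)
  have h1 := fe_density hD (Al := fun E => Al E ∧ GenOne E) (fun d hd C => by
    rw [hAl d hd C, cl1_iff hD hd C]
    exact ⟨fun h => h.2, fun h => ⟨h.1, h⟩⟩)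
  have hfin := fun X => fam_sum hD hz (B := B.toBase) hN X Al (oneS D) (fun _ _ => True) (fun f T C => by
    rw [hAl _ (dl_ne hD hz f T) C, oneS_iff hD hz, and_iff_left trivial])
  have hexc := fun X => fam_sum hD hz (B := B.toBase) hN X (fun E => Al E ∧ ¬ GenOne E) (oneS D)
    (fun f T => ¬ ∀ s, ¬ IsSquare (dl D true z f T * (rs7 D s : M))) (fun f T C => by
      rw [hAl _ (dl_ne hD hz f T) C, cl1_iff hD (dl_ne hD hz f T) C, oneS_iff hD hz]
      tauto)
  have hle : ∀ X, (cmFamily M X fun E => Al E ∧ ¬ GenOne E).ncard ≤ (oneS D).card := by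
    intro X
    rw [(hexc X).2, Finset.card_eq_sum_ones]
    refine Finset.sum_le_sum fun p _ => ?_
    refine cnt_one _ fun T hT => ?_
    have h3 := hT.2
    push Not at h3
    obtain ⟨s, hs⟩ := h3
    exact dl_sq_empty hz hs
  have hb1 : ∀ X, (cmFamily M X fun E => Al E ∧ GenOne E).ncard ≤ (cmFamily M X Al).ncard := fun X =>
    Set.ncard_le_ncard (fam_mono (fun E hE => hE.1) X) (hfin X).1
  have hb2 : ∀ X, (cmFamily M X Al).ncard ≤ (cmFamily M X fun E => Al E ∧ GenOne E).ncard + (oneS D).card := fun X =>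
    (Set.ncard_le_ncard (fam_union (fun E hE => by
      by_cases h3 : GenOne E
      · exact Or.inl ⟨hE, h3⟩
      · exact Or.inr ⟨hE, h3⟩) X) ((h1.1 X).union (hexc X).1)).trans
      ((Set.ncard_union_le _ _).trans (Nat.add_le_add_left (hle X) _))
  have ha1 : ∀ X, (cmFamily M X fun E => (Al E ∧ GenOne E) ∧ TRB.FiniteSha E).ncard ≤
      (cmFamily M X fun E => Al E ∧ TRB.FiniteSha E).ncard := fun X =>
    Set.ncard_le_ncard (fam_mono (fun E hE => ⟨hE.1.1, hE.2⟩) X) ((hfin X).1.subset (fam_mono (fun E hE => hE.1) X))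
  have ha2 : ∀ X, (cmFamily M X fun E => Al E ∧ TRB.FiniteSha E).ncard ≤
      (cmFamily M X fun E => (Al E ∧ GenOne E) ∧ TRB.FiniteSha E).ncard + (oneS D).card := fun X =>
    (Set.ncard_le_ncard (fam_union (fun E hE => by
      by_cases h3 : GenOne E
      · exact Or.inl ⟨⟨hE.1, h3⟩, hE.2⟩
      · exact Or.inr ⟨hE.1, h3⟩) X)
      (((h1.1 X).subset (fam_mono (fun E hE => hE.1) X)).union (hexc X).1)).trans
      ((Set.ncard_union_le _ _).trans (Nat.add_le_add_left (hle X) _))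
  refine ⟨fun X => (hfin X).1, tendsto_atTop_mono hb1 h1.2.1, ?_⟩
  exact ratio_K h1.2.2 (tendsto_natCast_atTop_atTop.comp h1.2.1) ha1 ha2 hb1 hb2

end

end TRZ
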