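import Pool.Agent.TRZ.Defs
import Pool.Agent.TRQ.M3
import Pool.Agent.TRP.NM

/-! # [ALL2-FD3] an element with only trivial symbols is a square -/

set_option autoImplicit false

open NumberField Ideal IsDedekindDomain Filter Topology
open scoped Real Classical

namespace TRZ

section
variable {M : Type} [Field M] [NumberField M]

/-- **a nonsquare is a nonresidue modulo a prime outside of a given finite set** -/
theorem exists_nonres {a : 𝓞 M} (ha : ¬ IsSquare (a : M)) (F : Finset (HeightOneSpectrum (𝓞 M))) :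
    ∃ P : HeightOneSpectrum (𝓞 M), P ∉ F ∧ TT.qr P a = -1 := by
  obtain ⟨C, hC, H⟩ := TRQ.m3_good M TRQ.mertAll (ι := Unit) (fun _ => a) (by
    intro s hs
    have h1 : s = {()} := by
      ext x
      simp only [Finset.mem_singleton, iff_true]
      obtain ⟨y, hy⟩ := hs
      exact hy
    rw [h1, Finset.prod_singleton]
    exact ha) (fun _ => -1) (fun _ => Or.inr rfl) F
  by_contra hcon
  push Not at hcon
  have h0 : ∀ N : ℕ, (TRN.prb M N).filter (fun P => P ∉ F ∧ ∀ i : Unit, TT.qr P a = -1) = ∅ := by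
    intro N
    rw [Finset.filter_eq_empty_iff]
    rintro P - ⟨h1, h2⟩
    exact hcon P h1 (h2 ())
  obtain ⟨N, hN⟩ : ∃ N : ℕ, 1 ≤ N ∧ 2 * C + 1 ≤ Real.log N := by
    have h1 : Tendsto (fun N : ℕ => Real.log N) atTop atTop := Real.tendsto_log_atTop.comp tendsto_natCast_atTop_atTop
    obtain ⟨N, h2, h3⟩ := ((eventually_ge_atTop 1).and (h1.eventually_ge_atTop (2 * C + 1))).exists
    exact ⟨N, h2, h3⟩
  have h1 := H N hN.1
  rw [h0 N, Finset.sum_empty, zero_sub, abs_neg, Fintype.card_unit, pow_one] at h1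
  have h2 := (le_abs_self _).trans h1
  linarith [hN.2]

end

end TRZ
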