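import Pool.Agent.TRZ.FD2
import Pool.Agent.TRZ.Defs2
import Pool.Agent.TRP.AD1

/-! # [ALL2-FD4] local constancy: the behaviour of `dl f T` at the primes above `2` depends only on `f` and the class of `T` -/

set_option autoImplicit false

open NumberField Ideal IsDedekindDomain Filter Topology
open scoped Real Classical ComplexConjugate
open TR TRG TTS TU TT XTB TRP

namespace TRZ

section
variable {L M : Type} [Field L] [NumberField L] [Field M] [NumberField M] [Algebra L M]
  [IsTotallyReal L] {D : Dat L M} (hD : Od2 D)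

/-- the class of a set of primes -/
noncomputable def csz (D : Dat L M) (s : Bool) (z : HeightOneSpectrum (𝓞 M) → 𝓞 M) (T : Finset (OP M)) : G8 D s :=
  ∑ v ∈ T, c8 D s (z v.1)

variable {s : Bool} {z : HeightOneSpectrum (𝓞 M) → 𝓞 M} (hz : ∀ P, (2 : 𝓞 M) ∉ P.asIdeal → NG D s P (z P))

include hD hz in
theorem zT_cls (T : Finset (OP M)) : Et D s (∏ v ∈ T, z v.1) ∧ IsCoprime (∏ v ∈ T, z v.1) 2 ∧
    c8 D s (∏ v ∈ T, z v.1) = csz D s z T := by
  set emb : OP M ↪ HeightOneSpectrum (𝓞 M) := ⟨Subtype.val, Subtype.val_injective⟩ with hemb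
  have h := ad1_prod (D := D) (s := s) (z := z) (T.map emb) (by
    intro P hP
    obtain ⟨v, -, rfl⟩ := Finset.mem_map.1 hP
    exact (hz v.1 v.2).et) (by
    intro P hP
    obtain ⟨v, -, rfl⟩ := Finset.mem_map.1 hP
    exact ng_odd v.2 (hz v.1 v.2))
  rw [Finset.prod_map, Finset.sum_map] at h
  exact h

include hD hz in
/-- sets of the same class -/
theorem cls_loc {T T' : Finset (OP M)} (h : csz D s z T = csz D s z T') {P : HeightOneSpectrum (𝓞 M)}
    (h2 : (2 : 𝓞 M) ∈ P.asIdeal) :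
    IsSquare (algebraMap M (P.adicCompletion M) (((∏ v ∈ T, z v.1) * ∏ v ∈ T', z v.1 : 𝓞 M) : M)) := by
  obtain ⟨h1, h2', h3⟩ := zT_cls hD hz T
  obtain ⟨h4, h5, h6⟩ := zT_cls hD hz T'
  have h7 : c8 D s ((∏ v ∈ T, z v.1) * ∏ v ∈ T', z v.1) = 0 := by
    rw [c8_mul hD h1 h2' h4 h5, h3, h6, h, ad1_two]
  rw [ad1_c8_zero (h1.mul' h4) (h2'.mul_left h5)] at h7
  exact (q8_eq_one_iff (h2'.mul_left h5)).1 h7 P h2

include hD hz in
/-- `dl f T dl f T'` is a local square -/
theorem dl_loc (f : FI M) {T T' : Finset (OP M)} (h : csz D s z T = csz D s z T') {P : HeightOneSpectrum (𝓞 M)}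
    (h2 : (2 : 𝓞 M) ∈ P.asIdeal) :
    IsSquare (algebraMap M (P.adicCompletion M) (dl D s z f T * dl D s z f T')) := by
  have e : dl D s z f T * dl D s z f T' = ((kq D s f : M) / D.r) ^ 2 *
      (((∏ v ∈ T, z v.1) * ∏ v ∈ T', z v.1 : 𝓞 M) : M) := by
    unfold dl dx
    rw [cmul, cmul, cmul]
    ring
  rw [e, map_mul, map_pow]
  exact (IsSquare.sq _).mul (cls_loc hD hz h h2)

include hD hz in
theorem dl_ur (f : FI M) {T T' : Finset (OP M)} (h : csz D s z T = csz D s z T') {P : HeightOneSpectrum (𝓞 M)}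
    (h2 : (2 : 𝓞 M) ∈ P.asIdeal) (hU : Ur P (dl D s z f T)) : Ur P (dl D s z f T') := by
  have h1 := (TRX.Sq_of_isSquare P (mul_ne_zero (dl_ne hD hz f T) (dl_ne hD hz f T')) (dl_loc hD hz f h h2)).ur
  have h3 := h1.mul hU
  rw [show dl D s z f T * dl D s z f T' * dl D s z f T = dl D s z f T ^ 2 * dl D s z f T' by ring,
    ur_sq_mul (dl_ne hD hz f T)] at h3
  exact h3

include hD hz in
theorem dl_be (f : FI M) {T T' : Finset (OP M)} (h : csz D s z T = csz D s z T') {P : HeightOneSpectrum (𝓞 M)}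
    (h2 : (2 : 𝓞 M) ∈ P.asIdeal) : be P (dl D s z f T) = be P (dl D s z f T') := by
  unfold be
  by_cases h3 : Ur P (dl D s z f T)
  · rw [if_pos h3, if_pos (dl_ur hD hz f h h2 h3)]
  · rw [if_neg h3, if_neg fun h4 => h3 (dl_ur hD hz f h.symm h2 h4)]

include hz in
theorem dl_beta (f : FI M) {T T' : Finset (OP M)} (h : csz D s z T = csz D s z T') :
    beta hD (dl D s z f T) = beta hD (dl D s z f T') := by
  unfold beta
  rw [dl_be hD hz f h (Vp_two hD true), dl_be hD hz f h (Vp_two hD false)]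

include hD hz in
theorem dl_sq (f : FI M) {T T' : Finset (OP M)} (h : csz D s z T = csz D s z T') {P : HeightOneSpectrum (𝓞 M)}
    (h2 : (2 : 𝓞 M) ∈ P.asIdeal) (e : M)
    (hS : IsSquare (algebraMap M (P.adicCompletion M) (dl D s z f T * e))) :
    IsSquare (algebraMap M (P.adicCompletion M) (dl D s z f T' * e)) := by
  have h1 := (dl_loc hD hz f h h2).mul hS
  have h3 : algebraMap M (P.adicCompletion M) (dl D s z f T) ≠ 0 := by
    rw [Ne, map_eq_zero]
    exact dl_ne hD hz f T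
  have h4 : algebraMap M (P.adicCompletion M) (dl D s z f T' * e) =
      algebraMap M (P.adicCompletion M) (dl D s z f T * dl D s z f T') *
        algebraMap M (P.adicCompletion M) (dl D s z f T * e) *
        ((algebraMap M (P.adicCompletion M) (dl D s z f T))⁻¹) ^ 2 := by
    simp only [map_mul]
    field_simp
  rw [h4]
  exact h1.mul (IsSquare.sq _)

include hD hz in
theorem dl_nsq (f : FI M) {T T' : Finset (OP M)} (h : csz D s z T = csz D s z T') (t : Bool)
    (hN : Nsq D t (dl D s z f T)) : Nsq D t (dl D s z f T') := by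
  intro P hP hS
  have h2 : (2 : 𝓞 M) ∈ P.asIdeal := by
    rw [← p12 D t]
    exact Ideal.mul_mem_left _ _ hP
  exact hN P hP (dl_sq hD hz f h.symm h2 _ hS)

/-- the allowed pairs `(f, c₀)` -/
def AL (D : Dat L M) (s : Bool) (z : HeightOneSpectrum (𝓞 M) → 𝓞 M) (f : FI M) (c₀ : G8 D s) : Prop :=
  ∃ T : Finset (OP M), csz D s z T = c₀ ∧ ∀ t, Nsq D t (dl D s z f T)

/-- `beta` as a function of `(f, c₀)` -/
noncomputable def betaC (hD : Od2 D) (s : Bool) (z : HeightOneSpectrum (𝓞 M) → 𝓞 M) (f : FI M) (c₀ : G8 D s) : ℕ :=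
  if h : ∃ T : Finset (OP M), csz D s z T = c₀ then beta hD (dl D s z f h.choose) else 1

theorem betaC_pos (f : FI M) (c₀ : G8 D s) : 0 < betaC hD s z f c₀ := by
  unfold betaC
  split_ifs
  · exact beta_pos _ _
  · exact Nat.one_pos

include hz in
theorem betaC_eq (f : FI M) (T : Finset (OP M)) : beta hD (dl D s z f T) = betaC hD s z f (csz D s z T) := by
  have h : ∃ T' : Finset (OP M), csz D s z T' = csz D s z T := ⟨T, rfl⟩
  unfold betaC
  rw [dif_pos h]
  exact dl_beta hD hz f h.choose_spec.symm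

include hD hz in
theorem AL_iff (f : FI M) (T : Finset (OP M)) : AL D s z f (csz D s z T) ↔ ∀ t, Nsq D t (dl D s z f T) := by
  constructor
  · rintro ⟨T', h1, h2⟩ t
    exact dl_nsq hD hz f h1 t (h2 t)
  · intro h
    exact ⟨T, rfl, h⟩

end

end TRZ
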