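import Pool.Agent.TRZ.R5
import Pool.Agent.TRZ.R6c
import Pool.Agent.TRZ.SEL2
import Pool.Agent.TRP.SE
import Pool.Agent.TRP.G3a
import Pool.Agent.TRZ.FD4

/-! # [ALL2-FD5] the symbols of units and of the uniformisers as homomorphisms of the class group -/

set_option autoImplicit false

open NumberField Ideal IsDedekindDomain
open scoped Real Classical ComplexConjugate
open TR TRG TTS TU TT TRP

namespace TRZ

section
variable {L M : Type} [Field L] [NumberField L] [Field M] [NumberField M] [Algebra L M]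
  [IsTotallyReal L] {D : Dat L M} (hD : Od2 D)

/-- homomorphisms of the class group from functions modulo `8` -/
theorem exists_hom {ψ : 𝓞 M → ℤ} (h1 : ∀ x, IsCoprime x 2 → ψ x = 1 ∨ ψ x = -1)
    (hm : ∀ x y, IsCoprime x 2 → IsCoprime y 2 → ψ (x * y) = ψ x * ψ y)
    (h8 : ∀ x c, IsCoprime x 2 → ψ (x + 8 * c) = ψ x) (s : Bool) :
    ∃ χ : G8 D s →+ ZMod 2, ∀ x, Et D s x → IsCoprime x 2 → χ (c8 D s x) = s01 (ψ x) := by
  have hc : ∀ x y : 𝓞 M, IsCoprime x 2 → IsCoprime y 2 → q8 x = q8 y → ψ x = ψ y := by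
    intro x y hx hy h
    obtain ⟨t, c, ht, hxt⟩ := q8_eq hx hy h
    rw [hxt, h8 _ _ ((IsCoprime.pow_left ht).mul_left hy), hm _ _ (IsCoprime.pow_left ht) hy, sq, hm _ _ ht ht]
    rcases h1 t ht with h2 | h2 <;> rw [h2] <;> norm_num
  choose Y hY1 hY2 hY3 using fun g : G8 D s => a2_surj g
  refine ⟨AddMonoidHom.mk' (fun g => s01 (ψ (Y g))) ?_, ?_⟩
  · intro g g'
    rw [← s01_mul (h1 _ (hY2 g)) (h1 _ (hY2 g')), ← hm _ _ (hY2 g) (hY2 g')]
    congr 1
    apply hc _ _ (hY2 _) ((hY2 g).mul_left (hY2 g'))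
    apply c8_inj (D := D) (s := s) (hY1 _) (hY2 _) ((hY1 g).mul' (hY1 g')) ((hY2 g).mul_left (hY2 g'))
    rw [hY3, a2_mul (hY1 g) (hY2 g) (hY1 g') (hY2 g'), hY3, hY3]
  · intro x hx hx2
    change s01 (ψ (Y (c8 D s x))) = _
    congr 1
    apply hc _ _ (hY2 _) hx2
    exact c8_inj (D := D) (s := s) (hY1 _) (hY2 _) hx hx2 (hY3 _)

/-- the symbol of `k` is a function modulo `8` -/
structure K8 (k : 𝓞 M) : Prop where
  cop : ∀ x : 𝓞 M, IsCoprime x 2 → IsCoprime k x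
  per : ∀ x c : 𝓞 M, IsCoprime x 2 → sy k (span {x + 8 * c}) = sy k (span {x})

omit [NumberField L] [Algebra L M] [IsTotallyReal L] in
theorem cop8 {x : 𝓞 M} (hx : IsCoprime x 2) (c : 𝓞 M) : IsCoprime (x + 8 * c) 2 := by
  have h : IsCoprime (x + 2 * (4 * c)) 2 := hx.add_mul_left_left (4 * c)
  rwa [show x + 2 * (4 * c) = x + 8 * c by ring] at h

omit [NumberField L] [Algebra L M] [IsTotallyReal L] in
theorem cop2s {x : 𝓞 M} (hx : IsCoprime x 2) : IsCoprime (span {(2 : 𝓞 M)}) (span {x}) := r1_cop.2 hx.symm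

omit [NumberField L] [Algebra L M] [IsTotallyReal L] in
theorem K8.mul {k k' : 𝓞 M} (h : K8 k) (h' : K8 k') : K8 (k * k') where
  cop := fun x hx => (h.cop x hx).mul_left (h'.cop x hx)
  per := fun x c hx => by
    rw [r1_sy_mul_left (r2_span_ne (cop8 hx c)) (cop2s (cop8 hx c)), r1_sy_mul_left (r2_span_ne hx) (cop2s hx),
      h.per x c hx, h'.per x c hx]

omit [NumberField L] [Algebra L M] [IsTotallyReal L] in
theorem K8.one : K8 (1 : 𝓞 M) where
  cop := fun _ _ => isCoprime_one_left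
  per := fun x c hx => by
    have h : ∀ y : 𝓞 M, IsCoprime y 2 → sy (1 : 𝓞 M) (span {y}) = 1 := by
      intro y hy
      have h1 := r1_sy_sq (a := (1 : 𝓞 M)) (r2_span_ne hy) (r1_cop.2 isCoprime_one_left)
      rwa [one_pow] at h1
    rw [h _ (cop8 hx c), h _ hx]

include hD in
theorem rd8_per (s : Bool) (x c : 𝓞 M) : ∃ e : 𝓞 L, rd8 D s (x + 8 * c) = rd8 D s x + 8 * e := by
  have h1 := rd8_cong hD s x
  have h2 : (x + 8 * c) - algebraMap (𝓞 L) (𝓞 M) (rd8 D s x) ∈ span {p2 D s ^ 3} := by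
    have e : (x + 8 * c) - algebraMap (𝓞 L) (𝓞 M) (rd8 D s x) =
        (x - algebraMap (𝓞 L) (𝓞 M) (rd8 D s x)) + p2 D s ^ 3 * (p1 D s ^ 3 * c) := by
      have h3 : (8 : 𝓞 M) = p1 D s ^ 3 * p2 D s ^ 3 := by
        rw [← mul_pow, p12 D s]
        norm_num
      rw [h3]
      ring
    rw [e]
    exact add_mem h1 (Ideal.mul_mem_right _ _ (Ideal.mem_span_singleton_self _))
  obtain ⟨e, he⟩ := Ideal.mem_span_singleton'.1 (rd8_uniq hD s h2)
  exact ⟨e, by linear_combination -he⟩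

include hD in
theorem K8.w1 (s : Bool) : K8 (-p1 D s) where
  cop := fun x hx => by
    have h1 : IsCoprime (p1 D s) x := by
      have h2 : IsCoprime (2 : 𝓞 M) x := hx.symm
      rw [← p12 D s] at h2
      exact h2.of_mul_left_left
    exact h1.neg_left
  per := fun x c hx => by
    rw [rec_unif hD (cop8 hx c) s, rec_unif hD hx s]
    obtain ⟨e, he⟩ := rd8_per hD (!s) x c
    rw [he, t8_per hD]

include hD in
theorem K8.w2 (s : Bool) : K8 (-p2 D s) := K8.w1 hD (!s)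

omit [NumberField L] [Algebra L M] [IsTotallyReal L] in
theorem sy_rs_unit (u : (𝓞 M)ˣ) (x : 𝓞 M) : sy (u : 𝓞 M) (span {x}) = rs (u : 𝓞 M) x := by
  unfold rs
  rw [Ideal.span_singleton_eq_top.2 u.isUnit, ← Ideal.one_eq_top, r1_sy_one, mul_one]

omit [NumberField L] [Algebra L M] [IsTotallyReal L] in
theorem cop_unit (u : (𝓞 M)ˣ) (x : 𝓞 M) : IsCoprime (u : 𝓞 M) x := by
  refine ⟨((u⁻¹ : (𝓞 M)ˣ) : 𝓞 M), 0, ?_⟩
  rw [Units.inv_mul, zero_mul, add_zero]

include hD in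
theorem K8.unit (u : (𝓞 M)ˣ) : K8 (u : 𝓞 M) where
  cop := fun x _ => cop_unit u x
  per := fun x c hx => by
    rw [sy_rs_unit, sy_rs_unit, rec_odd hD (cop_unit u 2) (cop8 hx c) (cop_unit u _) true,
      rec_odd hD (cop_unit u 2) hx (cop_unit u _) true]
    have key : ∀ s : Bool, tp (rd8 D s (u : 𝓞 M)) (rd8 D s (x + 8 * c)) = tp (rd8 D s (u : 𝓞 M)) (rd8 D s x) := by
      intro s
      obtain ⟨e, he⟩ := rd8_per hD s x c
      rw [he, tp_comm hD, show rd8 D s x + 8 * e = rd8 D s x + 4 * (2 * e) by ring, tp_per hD, tp_comm hD]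
    rw [key, key]

include hD in
theorem K8.wk (s : Bool) (f : FI M) : K8 (kq D s f) := by
  refine (K8.unit hD _).mul (K8.mul ?_ ?_)
  · split_ifs
    · exact K8.w1 hD s
    · exact K8.one
  · split_ifs
    · exact K8.w2 hD s
    · exact K8.one

/-- the homomorphism -/
theorem K8.exists_chi {k : 𝓞 M} (h : K8 k) (s : Bool) : ∃ χ : G8 D s →+ ZMod 2,
    ∀ x, Et D s x → IsCoprime x 2 → χ (c8 D s x) = s01 (sy k (span {x})) :=
  exists_hom (fun x hx => r1_sy_sgn (r2_span_ne hx) (r1_cop.2 (h.cop x hx)))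
    (fun x y hx hy => by
      rw [← Ideal.span_singleton_mul_span_singleton, r1_sy_mul_right _ (r2_span_ne hx) (r2_span_ne hy)])
    h.per s

/-- the symbol homomorphism of `k` -/
noncomputable def chi (D : Dat L M) (s : Bool) (k : 𝓞 M) : G8 D s →+ ZMod 2 :=
  if h : K8 k then (h.exists_chi (D := D) s).choose else 0

theorem chi_c8 {k : 𝓞 M} (h : K8 k) {s : Bool} {x : 𝓞 M} (hx : Et D s x) (hx2 : IsCoprime x 2) :
    chi D s k (c8 D s x) = s01 (sy k (span {x})) := by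
  unfold chi
  rw [dif_pos h]
  exact (h.exists_chi (D := D) s).choose_spec x hx hx2

omit [NumberField L] [Algebra L M] [IsTotallyReal L] in
theorem sy_gen {P : HeightOneSpectrum (𝓞 M)} {q : 𝓞 M} (hq : ∃ n : ℕ, Odd n ∧ span {q} = P.asIdeal ^ n) (k : 𝓞 M) :
    sy k (span {q}) = TT.qr P k := by
  obtain ⟨n, hn, h⟩ := hq
  rw [h, r1_sy_pow_right _ P.ne_bot, r1_sy_prime, r1_pow_odd ?_ hn]
  rcases qr_cases P k with h | h | h
  · exact Or.inl h
  · exact Or.inr (Or.inl h)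
  · exact Or.inr (Or.inr h)

theorem chi_NG {k : 𝓞 M} (h : K8 k) {s : Bool} {P : HeightOneSpectrum (𝓞 M)} (h2 : (2 : 𝓞 M) ∉ P.asIdeal) {q : 𝓞 M}
    (hq : NG D s P q) : chi D s k (c8 D s q) = if TT.qr P k = -1 then 1 else 0 := by
  rw [chi_c8 h hq.et (ng_odd h2 hq), sy_gen hq.gen]
  rfl

end

end TRZ
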