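import Pool.Agent.TRZ.FD5

/-! # [ALL2-FD6] the two normalisations: the matrices are transposed (all types) -/

set_option autoImplicit false

open NumberField Ideal IsDedekindDomain
open scoped Real Classical ComplexConjugate
open TR TRG TTS TU TT TRP

namespace TRZ

section
variable {M : Type} [Field M] [NumberField M]

/-- an integral element which is a square -/
theorem int_sq {x : 𝓞 M} {y : M} (h : (x : M) = y ^ 2) : ∃ y' : 𝓞 M, (y' : M) = y ∧ x = y' ^ 2 := by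
  have h3 : IsIntegral ℤ y := by
    refine IsIntegral.of_pow (n := 2) (by norm_num) ?_
    rw [← h]
    exact RingOfIntegers.isIntegral_coe _
  refine ⟨⟨y, h3⟩, rfl, ?_⟩
  apply RingOfIntegers.coe_injective
  exact h.trans (cpow (⟨y, h3⟩ : 𝓞 M) 2).symm

/-- even valuations -/
theorem even_int (hodd : Odd (classNumber M)) {x : 𝓞 M} (hx : x ≠ 0)
    (h : ∀ v : HeightOneSpectrum (𝓞 M), IsSquare (v.valuation M (x : M))) :
    ∃ (u : (𝓞 M)ˣ) (g : 𝓞 M), x = (u : 𝓞 M) * g ^ 2 := by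
  obtain ⟨u, s, hs, hxs⟩ := b3_even hodd (x : M) (RingOfIntegers.coe_ne_zero_iff.2 hx) h
  have h1 : (((u⁻¹ : (𝓞 M)ˣ) : 𝓞 M) * x : 𝓞 M) = (s : M) ^ 2 := by
    rw [cmul, hxs, ← mul_assoc, ← cmul, Units.inv_mul, cone, one_mul]
  obtain ⟨g, -, hg⟩ := int_sq h1
  refine ⟨u, g, ?_⟩
  rw [← hg, ← mul_assoc, Units.mul_inv, one_mul]

/-- two generators of odd powers of the same prime -/
theorem gen_gen (hodd : Odd (classNumber M)) {P : HeightOneSpectrum (𝓞 M)} {z z' : 𝓞 M}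
    (hz : ∃ k, Odd k ∧ span {z} = P.asIdeal ^ k) (hz' : ∃ k, Odd k ∧ span {z'} = P.asIdeal ^ k) :
    ∃ (u : (𝓞 M)ˣ) (g : 𝓞 M), z * z' = (u : 𝓞 M) * g ^ 2 := by
  obtain ⟨k, hk, h1⟩ := hz
  obtain ⟨k', hk', h1'⟩ := hz'
  have h0 := ad1_span_ne h1
  have h0' := ad1_span_ne h1'
  refine even_int hodd (mul_ne_zero h0 h0') fun v => ?_
  rw [cmul, sq_mul_iff (RingOfIntegers.coe_ne_zero_iff.2 h0) (RingOfIntegers.coe_ne_zero_iff.2 h0'),
    ad1_val hk h1, ad1_val hk' h1']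

theorem s01_prod {ι : Type} (T : Finset ι) (F : ι → ℤ) (h : ∀ i ∈ T, F i = 1 ∨ F i = -1) :
    (∏ i ∈ T, F i = 1 ∨ ∏ i ∈ T, F i = -1) ∧ s01 (∏ i ∈ T, F i) = ∑ i ∈ T, s01 (F i) := by
  induction T using Finset.induction_on with
  | empty => exact ⟨Or.inl Finset.prod_empty, by rw [Finset.prod_empty, Finset.sum_empty]; decide⟩
  | insert i T hi ih =>
    obtain ⟨h1, h2⟩ := ih fun j hj => h j (Finset.mem_insert_of_mem hj)
    have h3 := h i (Finset.mem_insert_self i T)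
    rw [Finset.prod_insert hi, Finset.sum_insert hi, s01_mul h3 h1, h2]
    refine ⟨?_, rfl⟩
    rcases h3 with h3 | h3 <;> rcases h1 with h1 | h1 <;> rw [h3, h1] <;> norm_num

theorem qr_pm {P : HeightOneSpectrum (𝓞 M)} {a : 𝓞 M} (h : a ∉ P.asIdeal) : TT.qr P a = 1 ∨ TT.qr P a = -1 := by
  rcases qr_cases P a with h1 | h1
  · exact absurd ((qr_eq_zero P).1 h1) h
  · exact h1

theorem unit_nm {P : HeightOneSpectrum (𝓞 M)} (u : (𝓞 M)ˣ) : (u : 𝓞 M) ∉ P.asIdeal := fun h =>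
  P.isPrime.ne_top (Ideal.eq_top_of_isUnit_mem _ h u.isUnit)

theorem qr_prod {P : HeightOneSpectrum (𝓞 M)} (h2 : (2 : 𝓞 M) ∉ P.asIdeal) {ι : Type} (T : Finset ι) (F : ι → 𝓞 M) :
    TT.qr P (∏ i ∈ T, F i) = ∏ i ∈ T, TT.qr P (F i) := by
  induction T using Finset.induction_on with
  | empty =>
    rw [Finset.prod_empty, Finset.prod_empty]
    have h := qr_sq P (a := (1 : 𝓞 M)) (fun h => P.isPrime.ne_top ((Ideal.eq_top_iff_one _).2 h))
    rwa [one_pow] at h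
  | insert i T hi ih => rw [Finset.prod_insert hi, Finset.prod_insert hi, qr_mul P h2, ih]

end

section
variable {L M : Type} [Field L] [NumberField L] [Field M] [NumberField M] [Algebra L M]
  [IsTotallyReal L] {D : Dat L M} (hD : Od2 D)

include hD in
theorem rd8_nm {s : Bool} {x : 𝓞 M} (hx : IsCoprime x 2) : rd8 D s x ∉ span {(2 : 𝓞 L)} := by
  intro h
  rw [rd8_even hD s] at h
  obtain ⟨a, ha⟩ := Ideal.mem_span_singleton'.1 h
  have h1 : p2 D s ∈ (Vp hD (!s)).asIdeal := Ideal.mem_span_singleton_self _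
  have h3 : x ∈ (Vp hD (!s)).asIdeal := by
    rw [← ha]
    exact Ideal.mul_mem_left _ _ h1
  obtain ⟨b, c, hbc⟩ := hx
  apply (Vp hD (!s)).isPrime.ne_top
  rw [Ideal.eq_top_iff_one, ← hbc]
  exact add_mem (Ideal.mul_mem_left _ _ h3) (Ideal.mul_mem_left _ _ (Vp_two hD (!s)))

/-- the symbol at the prime `p2 D s` of odd elements -/
noncomputable def tau (D : Dat L M) (s : Bool) (x y : 𝓞 M) : ℤ := tp (rd8 D s x) (rd8 D s y)

include hD in
theorem tau_pm {s : Bool} {x y : 𝓞 M} (hx : IsCoprime x 2) (hy : IsCoprime y 2) : tau D s x y = 1 ∨ tau D s x y = -1 :=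
  t1_tp_pm hD.two (rd8_nm hD hx) (rd8_nm hD hy)

include hD in
theorem tau_comm (s : Bool) (x y : 𝓞 M) : tau D s x y = tau D s y x := tp_comm hD _ _

include hD in
theorem tau_mul {s : Bool} {x x' y : 𝓞 M} (hy : IsCoprime y 2) : tau D s (x * x') y = tau D s x y * tau D s x' y := by
  unfold tau
  obtain ⟨e, he⟩ := Ideal.mem_span_singleton'.1 (rd8_mul hD s x x')
  have h1 : rd8 D s (x * x') = rd8 D s x * rd8 D s x' + 4 * (2 * e) := by linear_combination -he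
  rw [h1, tp_per hD, tp_mul hD _ _ _ (rd8_nm hD hy)]

include hD in
theorem tau_self {s : Bool} {x : 𝓞 M} (hx : IsCoprime x 2) : tau D s x x = tau D s (-1) x := by
  unfold tau
  rw [tp_self hD (rd8_nm hD hx)]
  obtain ⟨e, he⟩ := Ideal.mem_span_singleton'.1 (rd8_alg hD s (-1 : 𝓞 L))
  have h1 : rd8 D s (-1 : 𝓞 M) = -1 + 4 * (2 * e) := by
    rw [map_neg, map_one] at he
    linear_combination -he
  rw [h1, tp_per hD, tp_comm hD]

include hD in
theorem tau_et {s : Bool} {x y : 𝓞 M} (hx : Et D s x) (hy : IsCoprime y 2) : tau D s x y = 1 := by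
  unfold tau
  exact tp_q4 hD ((rd8_et hD s x).1 hx) (rd8_nm hD hy)

include hD in
theorem rs_tau {a b : 𝓞 M} (ha : IsCoprime a 2) (hb : IsCoprime b 2) (hab : IsCoprime a b) (s : Bool) :
    rs a b = tau D s a b * tau D (!s) a b := rec_odd hD ha hb hab s

include hD in
/-- `z z' = u g²` with normalised `z`, `z'`: `-u` is a square modulo `P` -/
theorem qr_unit_self {s : Bool} {P : HeightOneSpectrum (𝓞 M)} (h2 : (2 : 𝓞 M) ∉ P.asIdeal) {z z' : 𝓞 M}
    (hz : NG D s P z) (hz' : NG D (!s) P z') {u : (𝓞 M)ˣ} {g : 𝓞 M} (h : z * z' = (u : 𝓞 M) * g ^ 2) :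
    TT.qr P (-(u : 𝓞 M)) = 1 := by
  have hzo := ng_odd h2 hz
  have hzo' := ng_odd h2 hz'
  have hg : IsCoprime g 2 := by
    have h1 : IsCoprime ((u : 𝓞 M) * g ^ 2) 2 := by
      rw [← h]
      exact hzo.mul_left hzo'
    exact (IsCoprime.pow_left_iff (by norm_num)).1 (h1.of_mul_left_right)
  have hu : ((-u : (𝓞 M)ˣ) : 𝓞 M) = -(u : 𝓞 M) := Units.val_neg u
  rw [← sy_gen hz.gen, ← hu, sy_rs_unit, rs_tau hD (cop_unit _ _) hzo (cop_unit _ _) s, hu,
    tau_comm hD s, tau_et hD hz.et (by rw [← hu]; exact cop_unit _ _), one_mul]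
  have h1 : tau D (!s) (-(u : 𝓞 M) * g ^ 2) z = 1 := by
    have e : -(u : 𝓞 M) * g ^ 2 = (-1) * (z * z') := by linear_combination h
    rw [e, tau_mul hD hzo, tau_mul hD hzo, tau_self hD hzo, tau_et hD hz'.et hzo, mul_one]
    have h3 : IsCoprime (-1 : 𝓞 M) 2 := isCoprime_one_left.neg_left
    rcases tau_pm hD (s := !s) h3 hzo with h4 | h4 <;> rw [h4] <;> norm_num
  rw [tau_mul hD hzo, sq, tau_mul hD hzo] at h1
  rcases tau_pm hD (s := !s) hg hzo with h4 | h4 <;> rw [h4] at h1 <;> simpa using h1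

end

end TRZ
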