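import Pool.Agent.TRZ.FD8
import Pool.Agent.TRZ.FD3

/-! # [ALL2-FD9] the row sums and the column sums are not identically zero for the allowed types -/

set_option autoImplicit false

open NumberField Ideal IsDedekindDomain
open scoped Real Classical ComplexConjugate
open TR TRG TTS TU TT TRP

namespace TRZ

section
variable {L M : Type} [Field L] [NumberField L] [Field M] [NumberField M] [Algebra L M]
  [IsTotallyReal L] {D : Dat L M} (hD : Od2 D)

theorem one_sq (P : HeightOneSpectrum (𝓞 M)) : IsSquare (P.valuation M ((1 : 𝓞 M) : M)) := by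
  rw [cone, map_one]
  exact ⟨1, (mul_one _).symm⟩

theorem ite_ne (b t : Bool) : ((if b then -p1 D t else 1 : 𝓞 M) : M) ≠ 0 := by
  rw [RingOfIntegers.coe_ne_zero_iff]
  split_ifs
  · exact neg_ne_zero.2 (p1_ne t)
  · exact one_ne_zero

include hD in
theorem ite_val (b t : Bool) (P : HeightOneSpectrum (𝓞 M)) :
    IsSquare (P.valuation M ((if b then -p1 D t else 1 : 𝓞 M) : M)) ↔ (b = true → P ≠ Vp hD t) := by
  by_cases h : b = true
  · rw [if_pos h, val_p1 hD]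
    exact ⟨fun h1 _ => h1, fun h1 => h1 h⟩
  · rw [if_neg h]
    exact iff_of_true (one_sq P) fun h1 => absurd h1 h

include hD in
/-- the square class `κ (-ϖ)^m`, `m = ∑ ν'` -/
theorem nsq_K {s : Bool} {d : M} {T : Finset (HeightOneSpectrum (𝓞 M))} {z : HeightOneSpectrum (𝓞 M) → 𝓞 M}
    {ε : (𝓞 L)ˣ} {i j : Bool} (H : DK D s d T z ε i j) (hN : Nsq D s d) {m : Bool}
    (hm : ∑ P ∈ T, nv D s z P = if m then 1 else 0) :
    ¬ IsSquare ((algebraMap (𝓞 L) (𝓞 M) (ε : 𝓞 L) * ((if i then -(p1 D s) else 1) * (if j then -(p2 D s) else 1)) *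
      (if m then -(p1 D s) else 1) : 𝓞 M) : M) := by
  intro hsq
  have hA : IsUnit (algebraMap (𝓞 L) (𝓞 M) (ε : 𝓞 L)) := ε.isUnit.map _
  obtain ⟨A, hA'⟩ := hA
  have hvA : ∀ P : HeightOneSpectrum (𝓞 M), IsSquare (P.valuation M ((algebraMap (𝓞 L) (𝓞 M) (ε : 𝓞 L) : 𝓞 M) : M)) := by
    intro P
    rw [← hA', val_unit]
    exact ⟨1, (mul_one _).symm⟩
  have hA0 : ((algebraMap (𝓞 L) (𝓞 M) (ε : 𝓞 L) : 𝓞 M) : M) ≠ 0 := by
    rw [← hA']
    exact unit_ne A
  have hw1 := ite_ne (D := D) i s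
  have hw2 : ((if j then -p2 D s else 1 : 𝓞 M) : M) ≠ 0 := ite_ne (D := D) j (!s)
  have hwm := ite_ne (D := D) m s
  have hval : ∀ P : HeightOneSpectrum (𝓞 M), (((i = true → P ≠ Vp hD s) ↔ (j = true → P ≠ Vp hD (!s))) ↔
      (m = true → P ≠ Vp hD s)) := by
    intro P
    have h1 : IsSquare (P.valuation M ((algebraMap (𝓞 L) (𝓞 M) (ε : 𝓞 L) * ((if i then -(p1 D s) else 1) *
        (if j then -(p2 D s) else 1)) * (if m then -(p1 D s) else 1) : 𝓞 M) : M)) := by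
      obtain ⟨y, hy⟩ := hsq
      exact ⟨P.valuation M y, by rw [hy, map_mul]⟩
    rw [cmul, cmul, cmul, sq_mul_iff (mul_ne_zero hA0 (mul_ne_zero hw1 hw2)) hwm, sq_mul_iff hA0 (mul_ne_zero hw1 hw2),
      sq_mul_iff hw1 hw2, ite_val hD, ite_val hD,
      show IsSquare (P.valuation M ((if j then -p2 D s else 1 : 𝓞 M) : M)) ↔ _ from ite_val hD j (!s) P] at h1
    have h2 := hvA P
    tauto
  have h5 := Vp_ne hD s
  have h6 := h5.symm
  have h1 := hval (Vp hD s)
  have h2 := hval (Vp hD (!s))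
  simp only [h5, h6, ne_eq, not_true_eq_false, not_false_eq_true, implies_true, iff_true, true_iff] at h1 h2
  have hj : j = false := by cases j <;> simp_all
  have him : i = m := by cases i <;> cases m <;> simp_all
  subst hj
  subst him
  -- `ε` is a square
  obtain ⟨y, hy⟩ := hsq
  have h3 : ∃ y₁ : M, ((algebraMap (𝓞 L) (𝓞 M) (ε : 𝓞 L) : 𝓞 M) : M) = y₁ ^ 2 := by
    refine ⟨y / ((if i then -p1 D s else 1 : 𝓞 M) : M), ?_⟩
    rw [div_pow, eq_div_iff (pow_ne_zero 2 hw1), sq y, ← hy]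
    simp only [Bool.false_eq_true, if_false, mul_one, cmul]
    ring
  obtain ⟨y₁, hy₁⟩ := h3
  obtain ⟨Y, -, hY⟩ := int_sq hy₁
  have hYu : IsUnit Y := by
    have h4 : IsUnit (Y ^ 2) := by
      rw [← hY, ← hA']
      exact A.isUnit
    exact (isUnit_pow_iff (by norm_num)).1 h4
  obtain ⟨w, hw⟩ := D.unit_real hYu.unit
  have hw' : Y = algebraMap (𝓞 L) (𝓞 M) (w : 𝓞 L) := hw
  have h7 : (ε : 𝓞 L) = (w : 𝓞 L) ^ 2 := by
    have h8 : Function.Injective (algebraMap (𝓞 L) (𝓞 M)) := RingOfIntegers.algebraMap.injective L M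
    apply h8
    rw [hY, hw', map_pow]
  have hR : ¬ Rm (ε : 𝓞 L) false := by
    unfold Rm
    push Not
    refine ⟨by simp, ⟨w, 0, ?_, by rw [h7]; ring⟩⟩
    exact ⟨((w⁻¹ : (𝓞 L)ˣ) : 𝓞 L), 0, by rw [Units.inv_mul, zero_mul, add_zero]⟩
  have h9 := (DK.nsq hD H hR).2.1 hN
  rw [hm] at h9
  cases i
  · simp at h9
  · simp only [if_true] at h9
    exact absurd h9 (by decide)

end

end TRZ
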