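import Pool.Agent.TRZ.FEDefs

set_option autoImplicit false
set_option linter.unusedSectionVars false

open NumberField Ideal IsDedekindDomain
open scoped Real Classical ComplexConjugate nonZeroDivisors
open TR TRG TRP

/-! # [ALL2-FA1] the partial Fourier transform of the dual weight -/

namespace TRZ

section
variable {L : Type} [Field L] [NumberField L]

theorem fa_mem_dual {I : Ideal (𝓞 L)} (hI : I ≠ ⊥) (x : L) :
    x ∈ FractionalIdeal.dual ℤ ℚ (I : FractionalIdeal (𝓞 L)⁰ L) ↔ x ∈ dualL I := by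
  rw [FractionalIdeal.mem_dual (by rwa [Ne, FractionalIdeal.coeIdeal_eq_zero]), mem_dualL]
  constructor
  · intro h a ha
    obtain ⟨n, hn⟩ := h (a : L) ((FractionalIdeal.mem_coeIdeal _).2 ⟨a, ha, rfl⟩)
    exact ⟨n, hn.symm⟩
  · intro h y hy
    obtain ⟨a, ha, rfl⟩ := (FractionalIdeal.mem_coeIdeal _).1 hy
    obtain ⟨n, hn⟩ := h a ha
    exact ⟨n, hn.symm⟩

/-- the double dual -/
theorem fa_dual_dual {n : ℕ} (hn : 0 < n) (x : L)
    (h : ∀ α ∈ dualL (span {((n : ℕ) : 𝓞 L)}), ∃ k : ℤ, Algebra.trace ℚ L (α * x) = k) :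
    ∃ c : 𝓞 L, x = (n : L) * (c : L) := by
  have hI : span {((n : ℕ) : 𝓞 L)} ≠ ⊥ := nat_ne hn
  have hI' : ((span {((n : ℕ) : 𝓞 L)} : Ideal (𝓞 L)) : FractionalIdeal (𝓞 L)⁰ L) ≠ 0 := by
    rwa [Ne, FractionalIdeal.coeIdeal_eq_zero]
  have h1 : x ∈ FractionalIdeal.dual ℤ ℚ (FractionalIdeal.dual ℤ ℚ
      ((span {((n : ℕ) : 𝓞 L)} : Ideal (𝓞 L)) : FractionalIdeal (𝓞 L)⁰ L)) := by
    rw [FractionalIdeal.mem_dual (FractionalIdeal.dual_ne_zero _ _ hI')]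
    intro α hα
    obtain ⟨k, hk⟩ := h α ((fa_mem_dual hI α).1 hα)
    refine ⟨k, ?_⟩
    rw [mul_comm] at hk
    exact hk.symm
  rw [FractionalIdeal.dual_dual] at h1
  obtain ⟨a, ha, rfl⟩ := (FractionalIdeal.mem_coeIdeal _).1 h1
  obtain ⟨c, rfl⟩ := Ideal.mem_span_singleton'.1 ha
  refine ⟨c, ?_⟩
  show ((c * (n : 𝓞 L) : 𝓞 L) : L) = _
  push_cast
  ring

/-- the ideal of the `a` with `a / m` in the dual lattice of `n` -/
noncomputable def faI (L : Type) [Field L] [NumberField L] (n m : ℕ) : Ideal (𝓞 L) where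
  carrier := {a : 𝓞 L | (a : L) / (m : L) ∈ dualL (span {((n : ℕ) : 𝓞 L)})}
  zero_mem' := by
    intro x _
    refine ⟨0, ?_⟩
    have h : (((0 : 𝓞 L) : 𝓞 L) : L) = 0 := rfl
    rw [h, zero_div, zero_mul]
    simp
  add_mem' := by
    intro a b ha hb x hx
    obtain ⟨n, hn⟩ := ha x hx
    obtain ⟨k, hk⟩ := hb x hx
    refine ⟨n + k, ?_⟩
    have h : ((a + b : 𝓞 L) : L) = (a : L) + (b : L) := rfl
    rw [h, add_div, add_mul, map_add, hn, hk]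
    push_cast
    rfl
  smul_mem' := by
    intro c a ha x hx
    obtain ⟨k, hk⟩ := ha (c * x) (Ideal.mul_mem_left _ _ hx)
    refine ⟨k, ?_⟩
    rw [← hk]
    congr 1
    have h : ((c • a : 𝓞 L) : L) = (c : L) * (a : L) := rfl
    have h' : ((c * x : 𝓞 L) : L) = (c : L) * (x : L) := rfl
    rw [h, h']
    ring

theorem mem_faI {n m : ℕ} {a : 𝓞 L} : a ∈ faI L n m ↔ (a : L) / (m : L) ∈ dualL (span {((n : ℕ) : 𝓞 L)}) := Iff.rfl

theorem fa_le {n m : ℕ} (hm : 0 < m) : span {((m : ℕ) : 𝓞 L)} ≤ faI L n m := by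
  intro a ha
  obtain ⟨c, rfl⟩ := Ideal.mem_span_singleton'.1 ha
  rw [mem_faI, mem_dualL]
  intro b _
  have h0 : (m : L) ≠ 0 := by exact_mod_cast hm.ne'
  have e : ((c * (m : 𝓞 L) : 𝓞 L) : L) / (m : L) * (b : L) = ((c * b : 𝓞 L) : L) := by
    push_cast
    field_simp
  refine ⟨Algebra.trace ℤ (𝓞 L) (c * b), ?_⟩
  rw [e]
  exact (Algebra.coe_trace_int _).symm

/-- the number of the classes -/
theorem fa_card {n m : ℕ} (hn : 0 < n) (hm : 0 < m)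
    (hint : ∀ ν : L, ν ∈ dualL (span {((n : ℕ) : 𝓞 L)}) → ∃ a : 𝓞 L, (a : L) = (m : L) * ν) :
    Nat.card {q : 𝓞 L ⧸ span {((m : ℕ) : 𝓞 L)} // (Quotient.out q : 𝓞 L) ∈ faI L n m} =
      n ^ Module.finrank ℚ L * (discr L).natAbs := by
  have h0 : (m : L) ≠ 0 := by exact_mod_cast hm.ne'
  have hI : span {((n : ℕ) : 𝓞 L)} ≠ ⊥ := nat_ne hn
  have hmI : span {((m : ℕ) : 𝓞 L)} ≠ ⊥ := nat_ne hm
  have hI' : ((span {((n : ℕ) : 𝓞 L)} : Ideal (𝓞 L)) : FractionalIdeal (𝓞 L)⁰ L) ≠ 0 := by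
    rwa [Ne, FractionalIdeal.coeIdeal_eq_zero]
  have hd : ((differentIdeal ℤ (𝓞 L) : FractionalIdeal (𝓞 L)⁰ L)) ≠ 0 := by
    rw [coeIdeal_differentIdeal ℤ ℚ]
    exact inv_ne_zero (FractionalIdeal.dual_ne_zero _ _ one_ne_zero)
  have e1 : ((faI L n m : Ideal (𝓞 L)) : FractionalIdeal (𝓞 L)⁰ L) =
      FractionalIdeal.spanSingleton (𝓞 L)⁰ (m : L) * FractionalIdeal.dual ℤ ℚ
        ((span {((n : ℕ) : 𝓞 L)} : Ideal (𝓞 L)) : FractionalIdeal (𝓞 L)⁰ L) := by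
    ext x
    rw [FractionalIdeal.mem_coeIdeal, FractionalIdeal.mem_singleton_mul]
    constructor
    · rintro ⟨a, ha, rfl⟩
      refine ⟨(a : L) / (m : L), (fa_mem_dual hI _).2 ha, ?_⟩
      show (a : L) = _
      field_simp
    · rintro ⟨y, hy, rfl⟩
      obtain ⟨a, ha⟩ := hint y ((fa_mem_dual hI _).1 hy)
      refine ⟨a, ?_, ha⟩
      rw [mem_faI, ha, mul_div_cancel_left₀ _ h0]
      exact (fa_mem_dual hI _).1 hy
  have e2 : faI L n m * (span {((n : ℕ) : 𝓞 L)} * differentIdeal ℤ (𝓞 L)) = span {((m : ℕ) : 𝓞 L)} := by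
    apply FractionalIdeal.coeIdeal_injective (K := L)
    show ((faI L n m * (span {((n : ℕ) : 𝓞 L)} * differentIdeal ℤ (𝓞 L)) : Ideal (𝓞 L)) : FractionalIdeal (𝓞 L)⁰ L) =
      ((span {((m : ℕ) : 𝓞 L)} : Ideal (𝓞 L)) : FractionalIdeal (𝓞 L)⁰ L)
    have h1 : (FractionalIdeal.dual ℤ ℚ (1 : FractionalIdeal (𝓞 L)⁰ L)) ≠ 0 :=
      FractionalIdeal.dual_ne_zero _ _ one_ne_zero
    have e3 : FractionalIdeal.spanSingleton (𝓞 L)⁰ (m : L) =
        ((span {((m : ℕ) : 𝓞 L)} : Ideal (𝓞 L)) : FractionalIdeal (𝓞 L)⁰ L) := by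
      rw [FractionalIdeal.coeIdeal_span_singleton]
      congr 1
    rw [FractionalIdeal.coeIdeal_mul, FractionalIdeal.coeIdeal_mul, e1,
      FractionalIdeal.dual_eq_mul_inv, coeIdeal_differentIdeal ℤ ℚ, e3]
    set A := ((span {((m : ℕ) : 𝓞 L)} : Ideal (𝓞 L)) : FractionalIdeal (𝓞 L)⁰ L)
    set B := ((span {((n : ℕ) : 𝓞 L)} : Ideal (𝓞 L)) : FractionalIdeal (𝓞 L)⁰ L)
    set E := (FractionalIdeal.dual ℤ ℚ (1 : FractionalIdeal (𝓞 L)⁰ L))
    calc A * (E * B⁻¹) * (B * E⁻¹) = A * (E * E⁻¹) * (B * B⁻¹) := by ring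
      _ = A := by rw [mul_inv_cancel₀ h1, mul_inv_cancel₀ hI', mul_one, mul_one]
  have h4 := g4_count (faI L n m) (span {((m : ℕ) : 𝓞 L)}) (fa_le hm)
  have e5 := congrArg absNorm e2
  rw [map_mul, map_mul, absNorm_differentIdeal (K := L)] at e5
  have h5 : ∀ I : Ideal (𝓞 L), Nat.card (𝓞 L ⧸ I) = absNorm I := fun I => by
    rw [absNorm_apply, Submodule.cardQuot_apply]
  rw [h5, h5, ← e5] at h4
  have h6 : absNorm (faI L n m) ≠ 0 := by
    intro h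
    rw [h, zero_mul] at e5
    exact hmI (absNorm_eq_zero_iff.1 e5.symm)
  have h7 : absNorm (span {((n : ℕ) : 𝓞 L)}) = n ^ Module.finrank ℚ L := by
    rw [absNorm_span_singleton]
    have : ((n : ℕ) : 𝓞 L) = algebraMap ℤ (𝓞 L) ((n : ℕ) : ℤ) := by simp
    rw [this, Algebra.norm_algebraMap, RingOfIntegers.rank, Int.natAbs_pow, Int.natAbs_natCast]
  rw [h7] at h4
  exact (Nat.eq_of_mul_eq_mul_left (Nat.pos_of_ne_zero h6) h4).symm

theorem fa_trR_add (x y : L) : trR (x + y) = trR x + trR y := by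
  unfold trR
  rw [map_add]
  push_cast
  rfl

theorem fa_ee_add (x y : L) : ee (trR (x + y)) = ee (trR x) * ee (trR y) := by
  rw [fa_trR_add, Complex.ofReal_add, v1_ee_add]

/-- the sum over the dual lattice -/
theorem fa_sum {n m : ℕ} (hn : 0 < n) (hm : 0 < m)
    (hint : ∀ ν : L, ν ∈ dualL (span {((n : ℕ) : 𝓞 L)}) → ∃ a : 𝓞 L, (a : L) = (m : L) * ν)
    {ν' : L} (hν' : ν' ∈ dualL (span {((m : ℕ) : 𝓞 L)})) (b : 𝓞 L) :
    (∑ᶠ q : 𝓞 L ⧸ span {((m : ℕ) : 𝓞 L)}, if (Quotient.out q : 𝓞 L) ∈ faI L n m then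
      ee (trR (((Quotient.out q : 𝓞 L) : L) * (ν' - (b : L) / (m : L)))) else 0) =
      if ∃ c : 𝓞 L, (m : L) * ν' - (b : L) = (n : L) * (c : L) then
        (n : ℂ) ^ Module.finrank ℚ L * (|discr L| : ℤ) else 0 := by
  have h0 : (m : L) ≠ 0 := by exact_mod_cast hm.ne'
  have hfin : Finite (𝓞 L ⧸ span {((m : ℕ) : 𝓞 L)}) := nat_fin hm
  have h1 := g4_sum (faI L n m) (span {((m : ℕ) : 𝓞 L)}) (fa_le hm)
    (fun a => ee (trR ((a : L) * (ν' - (b : L) / (m : L))))) (by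
      intro a _ c _
      have e : ((a + c : 𝓞 L) : L) * (ν' - (b : L) / (m : L)) = (a : L) * (ν' - (b : L) / (m : L)) +
          (c : L) * (ν' - (b : L) / (m : L)) := by
        push_cast
        ring
      rw [e, fa_ee_add]) (by
      intro a ha
      rw [g4_ee_tr]
      obtain ⟨k, hk⟩ := hν' a ha
      obtain ⟨c, rfl⟩ := Ideal.mem_span_singleton'.1 ha
      refine ⟨k - Algebra.trace ℤ (𝓞 L) (c * b), ?_⟩
      have e : ((c * (m : 𝓞 L) : 𝓞 L) : L) * (ν' - (b : L) / (m : L)) =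
          ν' * ((c * (m : 𝓞 L) : 𝓞 L) : L) - ((c * b : 𝓞 L) : L) := by
        push_cast
        field_simp
      rw [e, map_sub, hk, ← Algebra.coe_trace_int]
      push_cast
      rfl)
  rw [h1, fa_card hn hm hint]
  have h2 : (∀ a ∈ faI L n m, ee (trR ((a : L) * (ν' - (b : L) / (m : L)))) = 1) ↔
      ∃ c : 𝓞 L, (m : L) * ν' - (b : L) = (n : L) * (c : L) := by
    constructor
    · intro h
      refine fa_dual_dual hn _ fun α hα => ?_
      obtain ⟨a, ha⟩ := hint α hα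
      have h3 : a ∈ faI L n m := by
        rw [mem_faI, ha, mul_div_cancel_left₀ _ h0]
        exact hα
      have h4 := h a h3
      rw [g4_ee_tr] at h4
      obtain ⟨k, hk⟩ := h4
      refine ⟨k, ?_⟩
      rw [← hk, ha]
      congr 1
      field_simp
    · rintro ⟨c, hc⟩ a ha
      rw [g4_ee_tr]
      obtain ⟨k, hk⟩ := ha (c * (n : 𝓞 L)) (Ideal.mem_span_singleton'.2 ⟨c, rfl⟩)
      refine ⟨k, ?_⟩
      rw [← hk]
      congr 1
      have e : ν' - (b : L) / (m : L) = ((m : L) * ν' - (b : L)) / (m : L) := by field_simp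
      rw [e, hc]
      push_cast
      ring
  by_cases h3 : ∃ c : 𝓞 L, (m : L) * ν' - (b : L) = (n : L) * (c : L)
  · rw [if_pos h3, if_pos (h2.2 h3)]
    push_cast
    rw [← Int.natCast_natAbs, Int.cast_natCast]
  · rw [if_neg h3, if_neg fun h => h3 (h2.1 h)]

/-- the transform of the dual weight -/
theorem fa_main {n m : ℕ} {w w' : 𝓞 L × 𝓞 L → ℤ} {C : ℂ} (h : FEp n m w w' C) {b' : 𝓞 L} {ν' : L}
    (hν' : ν' ∈ dualL (span {((m : ℕ) : 𝓞 L)}))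
    (hb' : (b' : L) / (m : L) ∈ dualL (span {((n : ℕ) : 𝓞 L)})) :
    chatw m w' b' ν' = C * ((n : ℂ) ^ Module.finrank ℚ L * (|discr L| : ℤ)) *
      ∑ᶠ p : (𝓞 L ⧸ span {((n : ℕ) : 𝓞 L)}) × (𝓞 L ⧸ span {((n : ℕ) : 𝓞 L)}),
        if ∃ c : 𝓞 L, (m : L) * ν' - ((Quotient.out p.2 : 𝓞 L) : L) = (n : L) * (c : L) then
          (w ((Quotient.out p.1 : 𝓞 L), (Quotient.out p.2 : 𝓞 L)) : ℂ) *
            ee (trR ((b' : L) / (m : L) * ((Quotient.out p.1 : 𝓞 L) : L))) else 0 := by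
  have hn := h.ow.pos
  have hm := h.ow'.pos
  have h0 : (m : L) ≠ 0 := by exact_mod_cast hm.ne'
  have hfin : Finite (𝓞 L ⧸ span {((m : ℕ) : 𝓞 L)}) := nat_fin hm
  have := Fintype.ofFinite (𝓞 L ⧸ span {((m : ℕ) : 𝓞 L)})
  have hfin' : Finite (𝓞 L ⧸ span {((n : ℕ) : 𝓞 L)}) := nat_fin hn
  have := Fintype.ofFinite (𝓞 L ⧸ span {((n : ℕ) : 𝓞 L)})
  have h1 : ∀ q : 𝓞 L ⧸ span {((m : ℕ) : 𝓞 L)},
      (w' ((Quotient.out q : 𝓞 L), b') : ℂ) * ee (trR (ν' * ((Quotient.out q : 𝓞 L) : L))) =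
      C * ∑ p : (𝓞 L ⧸ span {((n : ℕ) : 𝓞 L)}) × (𝓞 L ⧸ span {((n : ℕ) : 𝓞 L)}),
        ((w ((Quotient.out p.1 : 𝓞 L), (Quotient.out p.2 : 𝓞 L)) : ℂ) *
            ee (trR ((b' : L) / (m : L) * ((Quotient.out p.1 : 𝓞 L) : L)))) *
          (if (Quotient.out q : 𝓞 L) ∈ faI L n m then
            ee (trR (((Quotient.out q : 𝓞 L) : L) * (ν' - ((Quotient.out p.2 : 𝓞 L) : L) / (m : L)))) else 0) := by
    intro q
    rw [h.eq]
    by_cases hq : (Quotient.out q : 𝓞 L) ∈ faI L n m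
    · have hD : inD n m ((Quotient.out q : 𝓞 L), b') := ⟨hq, hb'⟩
      rw [if_pos hD]
      simp only [if_pos hq]
      unfold ft2
      rw [finsum_eq_sum_of_fintype, mul_assoc, Finset.sum_mul]
      congr 1
      refine Finset.sum_congr rfl fun p _ => ?_
      rw [mul_assoc, mul_assoc, ← fa_ee_add, ← fa_ee_add]
      congr 4
      unfold sB
      push_cast
      field_simp
      ring
    · have hD : ¬ inD n m ((Quotient.out q : 𝓞 L), b') := fun h => hq h.1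
      rw [if_neg hD]
      simp only [if_neg hq, mul_zero, Finset.sum_const_zero, zero_mul]
  rw [chatw_eq]
  simp only [h1]
  rw [← Finset.mul_sum, Finset.sum_comm, finsum_eq_sum_of_fintype, mul_assoc]
  congr 1
  rw [Finset.mul_sum]
  refine Finset.sum_congr rfl fun p _ => ?_
  rw [← Finset.mul_sum]
  have h2 := fa_sum hn hm h.int hν' (Quotient.out p.2 : 𝓞 L)
  rw [finsum_eq_sum_of_fintype] at h2
  rw [h2]
  by_cases h3 : ∃ c : 𝓞 L, (m : L) * ν' - ((Quotient.out p.2 : 𝓞 L) : L) = (n : L) * (c : L)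
  · rw [if_pos h3, if_pos h3]
    ring
  · rw [if_neg h3, if_neg h3, mul_zero, mul_zero]

/-- [FA1] the partial transform of `w'`. PROOF. `w'(a', b') = C ∑_{(a, b)} w(a, b) e(tr (a b' - b a')/m)`; the sum over `a'` (in `m dual(n)` modulo `m`, `n^g |D|` classes) gives `b ≡ m ν'` modulo `n`. -/
theorem chatw_FE {n m : ℕ} {w w' : 𝓞 L × 𝓞 L → ℤ} {C : ℂ} (h : FEp n m w w' C) {b b' : 𝓞 L} {ν' : L}
    (hν' : ν' ∈ dualL (span {((m : ℕ) : 𝓞 L)})) (hb : (b : L) = (m : L) * ν')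
    (hb' : (b' : L) / (m : L) ∈ dualL (span {((n : ℕ) : 𝓞 L)})) :
    chatw m w' b' ν' = C * ((n : ℂ) ^ Module.finrank ℚ L * (|discr L| : ℤ)) * chatw n w b ((b' : L) / (m : L)) := by
  have hn := h.ow.pos
  have hfin' : Finite (𝓞 L ⧸ span {((n : ℕ) : 𝓞 L)}) := nat_fin hn
  have := Fintype.ofFinite (𝓞 L ⧸ span {((n : ℕ) : 𝓞 L)})
  rw [fa_main h hν' hb', finsum_eq_sum_of_fintype, chatw_eq]
  congr 1
  rw [Fintype.sum_prod_type]
  refine Finset.sum_congr rfl fun q _ => ?_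
  have h1 : ∀ p : 𝓞 L ⧸ span {((n : ℕ) : 𝓞 L)},
      (∃ c : 𝓞 L, (m : L) * ν' - ((Quotient.out p : 𝓞 L) : L) = (n : L) * (c : L)) ↔ p = Ideal.Quotient.mk _ b := by
    intro p
    rw [← hb]
    constructor
    · rintro ⟨c, hc⟩
      have h2 : b - (Quotient.out p : 𝓞 L) = (n : 𝓞 L) * c := by
        apply RingOfIntegers.ext
        push_cast
        exact hc
      have h3 : Ideal.Quotient.mk (span {((n : ℕ) : 𝓞 L)}) (Quotient.out p : 𝓞 L) = p := Quotient.out_eq p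
      rw [← h3, eq_comm, Ideal.Quotient.eq, h2]
      exact Ideal.mem_span_singleton'.2 ⟨c, mul_comm _ _⟩
    · rintro rfl
      have h3 : Ideal.Quotient.mk (span {((n : ℕ) : 𝓞 L)}) (Quotient.out (Ideal.Quotient.mk (span {((n : ℕ) : 𝓞 L)}) b) : 𝓞 L) =
        Ideal.Quotient.mk _ b := Quotient.out_eq _
      obtain ⟨c, hc⟩ := Ideal.mem_span_singleton'.1 ((Ideal.Quotient.eq).1 h3.symm)
      refine ⟨c, ?_⟩
      have h4 := congrArg (fun z : 𝓞 L => (z : L)) hc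
      push_cast at h4
      rw [← h4]
      ring
  simp only [h1]
  rw [Finset.sum_ite_eq' Finset.univ (Ideal.Quotient.mk (span {((n : ℕ) : 𝓞 L)}) b), if_pos (Finset.mem_univ _)]
  congr 2
  refine h.ow.congr ?_ ?_
  · rw [sub_self]
    exact Ideal.zero_mem _
  · rw [← Ideal.Quotient.eq]
    exact Quotient.out_eq _

/-- [FA1] -/
theorem chatw_FE0 {n m : ℕ} {w w' : 𝓞 L × 𝓞 L → ℤ} {C : ℂ} (h : FEp n m w w' C) {b' : 𝓞 L} {ν' : L}
    (hν' : ν' ∈ dualL (span {((m : ℕ) : 𝓞 L)}))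
    (h0 : ¬ ((b' : L) / (m : L) ∈ dualL (span {((n : ℕ) : 𝓞 L)}) ∧ ∃ b : 𝓞 L, (b : L) = (m : L) * ν')) :
    chatw m w' b' ν' = 0 := by
  by_cases hb' : (b' : L) / (m : L) ∈ dualL (span {((n : ℕ) : 𝓞 L)})
  · rw [fa_main h hν' hb']
    have h1 : ∀ p : 𝓞 L ⧸ span {((n : ℕ) : 𝓞 L)},
        ¬ ∃ c : 𝓞 L, (m : L) * ν' - ((Quotient.out p : 𝓞 L) : L) = (n : L) * (c : L) := by
      rintro p ⟨c, hc⟩
      refine h0 ⟨hb', (Quotient.out p : 𝓞 L) + (n : 𝓞 L) * c, ?_⟩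
      push_cast
      rw [← hc]
      ring
    simp only [if_neg (h1 _), finsum_zero, mul_zero]
  · unfold chatw
    have h1 : ∀ q : 𝓞 L ⧸ span {((m : ℕ) : 𝓞 L)}, (w' ((Quotient.out q : 𝓞 L), b') : ℂ) = 0 := by
      intro q
      rw [h.eq, if_neg]
      exact fun h => hb' h.2
    simp only [h1, zero_mul, finsum_zero]

end
end TRZ
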