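import Pool.Agent.TRZ.FEA1

set_option autoImplicit false
set_option linter.unusedSectionVars false

open NumberField Ideal IsDedekindDomain
open scoped Real Classical ComplexConjugate nonZeroDivisors
open TR TRG TRP

/-! # [ALL2-FA2] the symmetry of the expansions -/

namespace TRZ

section
variable {L : Type} [Field L] [NumberField L]

theorem fa2_norm_unit (u : (𝓞 L)ˣ) : Algebra.norm ℤ (u : 𝓞 L) = 1 ∨ Algebra.norm ℤ (u : 𝓞 L) = -1 :=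
  Int.isUnit_iff.1 (u.isUnit.map (Algebra.norm ℤ))

theorem fa2_norm_inv (u : (𝓞 L)ˣ) : Algebra.norm ℤ ((u⁻¹ : (𝓞 L)ˣ) : 𝓞 L) = Algebra.norm ℤ (u : 𝓞 L) := by
  have h1 : Algebra.norm ℤ ((u⁻¹ : (𝓞 L)ˣ) : 𝓞 L) * Algebra.norm ℤ (u : 𝓞 L) = 1 := by
    rw [← map_mul, Units.inv_mul, map_one]
  rcases fa2_norm_unit u with h | h
  · rw [h, mul_one] at h1
    rw [h1, h]
  · rw [h] at h1
    rw [h]
    linarith

theorem fa2_dual_mul {I : Ideal (𝓞 L)} {ν : L} (h : ν ∈ dualL I) (a : 𝓞 L) : (a : L) * ν ∈ dualL I := by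
  intro x hx
  obtain ⟨k, hk⟩ := h (a * x) (Ideal.mul_mem_left _ _ hx)
  refine ⟨k, ?_⟩
  rw [← hk]
  congr 1
  have e : ((a * x : 𝓞 L) : L) = (a : L) * (x : L) := rfl
  rw [e]
  ring

/-- the transform and the units -/
theorem chatw_unit {n : ℕ} {w : 𝓞 L × 𝓞 L → ℤ} (h : OW n w) (u : (𝓞 L)ˣ) (b : 𝓞 L) {ν : L}
    (hν : ν ∈ dualL (span {((n : ℕ) : 𝓞 L)})) :
    chatw n w ((u : 𝓞 L) * b) ((((u⁻¹ : (𝓞 L)ˣ) : 𝓞 L) : L) * ν) = (Algebra.norm ℤ (u : 𝓞 L) : ℂ) * chatw n w b ν := by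
  have := nat_fin (L := L) h.pos
  have := Fintype.ofFinite (𝓞 L ⧸ span {((n : ℕ) : 𝓞 L)})
  rw [chatw_eq, chatw_eq, Finset.mul_sum]
  let e : (𝓞 L ⧸ span {((n : ℕ) : 𝓞 L)}) ≃ (𝓞 L ⧸ span {((n : ℕ) : 𝓞 L)}) :=
    Units.mulLeft (u.map (Ideal.Quotient.mk (span {((n : ℕ) : 𝓞 L)})).toMonoidHom)
  have he : ∀ q, e q = Ideal.Quotient.mk (span {((n : ℕ) : 𝓞 L)}) (u : 𝓞 L) * q := fun q => rfl
  rw [← e.sum_comp fun q => (w ((Quotient.out q : 𝓞 L), (u : 𝓞 L) * b) : ℂ) *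
    ee (trR ((((u⁻¹ : (𝓞 L)ˣ) : 𝓞 L) : L) * ν * ((Quotient.out q : 𝓞 L) : L)))]
  refine Finset.sum_congr rfl fun q _ => ?_
  have hq : (Quotient.out (e q) : 𝓞 L) - (u : 𝓞 L) * (Quotient.out q : 𝓞 L) ∈ span {((n : ℕ) : 𝓞 L)} := by
    rw [← Ideal.Quotient.eq, e3_mk_out, map_mul, e3_mk_out, he]
  have h1 : w ((Quotient.out (e q) : 𝓞 L), (u : 𝓞 L) * b) = Algebra.norm ℤ (u : 𝓞 L) * w ((Quotient.out q : 𝓞 L), b) := by
    rw [← h.unit]
    refine h.congr hq ?_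
    show (u : 𝓞 L) * b - (u : 𝓞 L) * b ∈ _
    rw [sub_self]
    exact Ideal.zero_mem _
  have h2 : ee (trR ((((u⁻¹ : (𝓞 L)ˣ) : 𝓞 L) : L) * ν * ((Quotient.out (e q) : 𝓞 L) : L))) =
      ee (trR (ν * ((Quotient.out q : 𝓞 L) : L))) := by
    have e1 : (((u⁻¹ : (𝓞 L)ˣ) : 𝓞 L) : L) * ((u : 𝓞 L) : L) = 1 := by
      have h3 : ((((u⁻¹ : (𝓞 L)ˣ) : 𝓞 L) * (u : 𝓞 L) : 𝓞 L) : L) = 1 := by
        rw [Units.inv_mul]
        rfl
      exact h3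
    have e2 : (((u⁻¹ : (𝓞 L)ˣ) : 𝓞 L) : L) * ν * ((Quotient.out (e q) : 𝓞 L) : L) =
        ν * ((Quotient.out q : 𝓞 L) : L) + (((u⁻¹ : (𝓞 L)ˣ) : 𝓞 L) : L) * ν *
          (((Quotient.out (e q) : 𝓞 L) - (u : 𝓞 L) * (Quotient.out q : 𝓞 L) : 𝓞 L) : L) := by
      have e3 : (((Quotient.out (e q) : 𝓞 L) - (u : 𝓞 L) * (Quotient.out q : 𝓞 L) : 𝓞 L) : L) =
        ((Quotient.out (e q) : 𝓞 L) : L) - ((u : 𝓞 L) : L) * ((Quotient.out q : 𝓞 L) : L) := rfl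
      rw [e3]
      linear_combination (ν * ((Quotient.out q : 𝓞 L) : L)) * e1
    rw [e2, fa_ee_add]
    have h4 : ee (trR ((((u⁻¹ : (𝓞 L)ˣ) : 𝓞 L) : L) * ν *
          (((Quotient.out (e q) : 𝓞 L) - (u : 𝓞 L) * (Quotient.out q : 𝓞 L) : 𝓞 L) : L))) = 1 := by
      rw [g4_ee_tr]
      exact fa2_dual_mul hν _ _ hq
    rw [h4, mul_one]
  rw [h1, h2]
  push_cast
  ring

end

section
variable {L : Type} [Field L] [NumberField L] [IsTotallyReal L]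

/-- the comparison of the terms -/
theorem fa2_term {n m : ℕ} {w w' : 𝓞 L × 𝓞 L → ℤ} {C : ℂ} (h : FEp n m w w' C) (x : HIndw L n) (y : HIndw L m)
    (u : (𝓞 L)ˣ) (h1 : ((y.1.1 : 𝓞 L) : L) = ((u : 𝓞 L) : L) * ((m : L) * x.2.1))
    (h2 : y.2.1 = (((u⁻¹ : (𝓞 L)ˣ) : 𝓞 L) : L) * (((x.1.1 : 𝓞 L) : L) / (m : L))) (τ : ℂ) :
    qtermw m w' y τ = C * ((n : ℂ) ^ Module.finrank ℚ L * (|discr L| : ℤ)) * qtermw n w x τ := by
  have hm := h.ow'.pos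
  have h0 : (m : L) ≠ 0 := by exact_mod_cast hm.ne'
  have e1 : (((u⁻¹ : (𝓞 L)ˣ) : 𝓞 L) : L) * ((u : 𝓞 L) : L) = 1 := by
    have h3 : ((((u⁻¹ : (𝓞 L)ˣ) : 𝓞 L) * (u : 𝓞 L) : 𝓞 L) : L) = 1 := by
      rw [Units.inv_mul]
      rfl
    exact h3
  have hprod : y.2.1 * ((y.1.1 : 𝓞 L) : L) = x.2.1 * ((x.1.1 : 𝓞 L) : L) := by
    rw [h1, h2]
    field_simp
    linear_combination (x.2.1 * ((x.1.1 : 𝓞 L) : L)) * e1
  unfold qtermw
  rw [hprod]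
  by_cases hpos : ∀ j : L →+* ℝ, 0 < j (x.2.1 * ((x.1.1 : 𝓞 L) : L))
  · rw [if_pos hpos, if_pos hpos]
    -- the transforms
    have hb : (((((u⁻¹ : (𝓞 L)ˣ) : 𝓞 L) * x.1.1 : 𝓞 L)) : L) = (m : L) * y.2.1 := by
      have e3 : (((((u⁻¹ : (𝓞 L)ˣ) : 𝓞 L) * x.1.1 : 𝓞 L)) : L) = (((u⁻¹ : (𝓞 L)ˣ) : 𝓞 L) : L) * ((x.1.1 : 𝓞 L) : L) := rfl
      rw [e3, h2]
      field_simp
    have e4 : ((y.1.1 : 𝓞 L) : L) / (m : L) = ((u : 𝓞 L) : L) * x.2.1 := by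
      rw [h1]
      field_simp
    have hb' : ((y.1.1 : 𝓞 L) : L) / (m : L) ∈ dualL (span {((n : ℕ) : 𝓞 L)}) := by
      rw [e4]
      exact fa2_dual_mul x.2.2.1 _
    have h3 := chatw_FE h y.2.2.1 hb hb'
    have h4 := chatw_unit h.ow u⁻¹ x.1.1 x.2.2.1
    rw [inv_inv, fa2_norm_inv] at h4
    rw [h3, e4, h4]
    -- the signs
    have h5 : sN y.1.1 = (Algebra.norm ℤ (u : 𝓞 L) : ℂ) * sN x.1.1 := by
      have h6 : 0 < Algebra.norm ℤ y.1.1 * Algebra.norm ℤ x.1.1 * Algebra.norm ℤ (u : 𝓞 L) := by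
        have h7 : ((Algebra.norm ℤ y.1.1 * Algebra.norm ℤ x.1.1 * Algebra.norm ℤ (u : 𝓞 L) : ℤ) : ℝ) =
            ∏ j : L →+* ℝ, (j (((u : 𝓞 L) : L)) ^ 2 * (m : ℝ) * j (x.2.1 * ((x.1.1 : 𝓞 L) : L))) := by
          push_cast
          rw [normZ_eq, normZ_eq, normZ_eq, ← Finset.prod_mul_distrib, ← Finset.prod_mul_distrib]
          refine Finset.prod_congr rfl fun j _ => ?_
          rw [h1, map_mul, map_mul, map_mul, map_natCast]
          ring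
        have h8 : (0 : ℝ) < ((Algebra.norm ℤ y.1.1 * Algebra.norm ℤ x.1.1 * Algebra.norm ℤ (u : 𝓞 L) : ℤ) : ℝ) := by
          rw [h7]
          refine Finset.prod_pos fun j _ => ?_
          have h9 : j (((u : 𝓞 L) : L)) ≠ 0 := by
            rw [map_ne_zero]
            intro h
            rw [h, mul_zero] at e1
            exact zero_ne_one e1
          have h10 : (0 : ℝ) < (m : ℝ) := by exact_mod_cast hm
          have := hpos j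
          positivity
        exact_mod_cast h8
      unfold sN
      generalize Algebra.norm ℤ y.1.1 = A at h6 ⊢
      generalize Algebra.norm ℤ x.1.1 = B at h6 ⊢
      rcases fa2_norm_unit u with h7 | h7
      · rw [h7, mul_one] at h6
        rw [h7, Int.cast_one, one_mul]
        rcases lt_trichotomy B 0 with h8 | h8 | h8
        · have h9 : A < 0 := by nlinarith
          rw [sign_neg h8, sign_neg h9]
        · rw [h8, mul_zero] at h6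
          exact absurd h6 (lt_irrefl _)
        · have h9 : 0 < A := by nlinarith
          rw [sign_pos h8, sign_pos h9]
      · rw [h7] at h6
        rw [h7]
        rcases lt_trichotomy B 0 with h8 | h8 | h8
        · have h9 : 0 < A := by nlinarith
          rw [sign_neg h8, sign_pos h9]
          simp
        · rw [h8, mul_zero, zero_mul] at h6
          exact absurd h6 (lt_irrefl _)
        · have h9 : A < 0 := by nlinarith
          rw [sign_pos h8, sign_neg h9]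
          simp
    have h6 : (Algebra.norm ℤ (u : 𝓞 L) : ℂ) * (Algebra.norm ℤ (u : 𝓞 L) : ℂ) = 1 := by
      rcases fa2_norm_unit u with h7 | h7
      · rw [h7]
        norm_num
      · rw [h7]
        norm_num
    rw [h5]
    linear_combination (C * ((n : ℂ) ^ Module.finrank ℚ L * (|discr L| : ℤ)) * chatw n w x.1.1 x.2.1 * sN x.1.1 *
      ee (trR (x.2.1 * ((x.1.1 : 𝓞 L) : L)) * τ)) * h6
  · rw [if_neg hpos, if_neg hpos, mul_zero]

theorem fa2_div_mem {m : ℕ} (hm : 0 < m) (b : 𝓞 L) : (b : L) / (m : L) ∈ dualL (span {((m : ℕ) : 𝓞 L)}) := by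
  have h0 : (m : L) ≠ 0 := by exact_mod_cast hm.ne'
  intro x hx
  obtain ⟨c, rfl⟩ := Ideal.mem_span_singleton'.1 hx
  refine ⟨Algebra.trace ℤ (𝓞 L) (b * c), ?_⟩
  rw [Algebra.coe_trace_int]
  congr 1
  push_cast
  field_simp

theorem fa2_unit_inv (u : (𝓞 L)ˣ) : (((u⁻¹ : (𝓞 L)ˣ) : 𝓞 L) : L) * ((u : 𝓞 L) : L) = 1 := by
  have h3 : ((((u⁻¹ : (𝓞 L)ˣ) : 𝓞 L) * (u : 𝓞 L) : 𝓞 L) : L) = 1 := by
    rw [Units.inv_mul]
    rfl
  exact h3

/-- [FA2] the sums of the expansions. PROOF. `(b', ν') ↦ (b, ν) = (m ν', b'/m)`; in terms of the pairs `(b, b')` of nonzero elements modulo the units acting by `(u b, u⁻¹ b')`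
both sides are the same sum: on the right `b ∈ R1`, on the left `b' ∈ R1`; `sN b = sN b'` if `b b'` is totally positive. (`htermw`/`qtermw` are invariant: `chatw n w (u b) (u⁻¹ ν) = N(u) chatw n w b ν`.) -/
theorem qsum_FE {n m : ℕ} {w w' : 𝓞 L × 𝓞 L → ℤ} {C : ℂ} (h : FEp n m w w' C) {τ : ℂ} (hτ : 0 < τ.im) :
    ∑' x : HIndw L m, qtermw m w' x τ =
      C * ((n : ℂ) ^ Module.finrank ℚ L * (|discr L| : ℤ)) * ∑' x : HIndw L n, qtermw n w x τ := by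
  have hm := h.ow'.pos
  have h0 : (m : L) ≠ 0 := by exact_mod_cast hm.ne'
  -- the map
  have hex : ∀ x : HIndw L n, ∃ (y : HIndw L m) (u : (𝓞 L)ˣ), ((y.1.1 : 𝓞 L) : L) = ((u : 𝓞 L) : L) * ((m : L) * x.2.1) ∧
      y.2.1 = (((u⁻¹ : (𝓞 L)ˣ) : 𝓞 L) : L) * (((x.1.1 : 𝓞 L) : L) / (m : L)) := by
    intro x
    obtain ⟨c, hc⟩ := h.int x.2.1 x.2.2.1
    have hc0 : c ≠ 0 := by
      rintro rfl
      have h1 : (m : L) * x.2.1 = 0 := by
        rw [← hc]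
        rfl
      exact (mul_ne_zero h0 x.2.2.2) h1
    obtain ⟨u, hu, -⟩ := e1_unit c hc0
    have hb0 : ((x.1.1 : 𝓞 L) : L) ≠ 0 := by
      intro h1
      exact x.1.2.1 (RingOfIntegers.ext h1)
    refine ⟨(⟨(u : 𝓞 L) * c, hu⟩, ⟨(((u⁻¹ : (𝓞 L)ˣ) : 𝓞 L) : L) * (((x.1.1 : 𝓞 L) : L) / (m : L)),
      fa2_dual_mul (fa2_div_mem hm _) _, mul_ne_zero ?_ (div_ne_zero hb0 h0)⟩), u, ?_, rfl⟩
    · intro h1
      have h2 := fa2_unit_inv u
      rw [h1, zero_mul] at h2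
      exact zero_ne_one h2
    · rw [← hc]
      rfl
  choose F U hF1 hF2 using hex
  have hinj : Function.Injective F := by
    intro x x' hxx
    have h1 := hF1 x
    have h2 := hF2 x
    rw [hxx] at h1 h2
    have h1' := hF1 x'
    have h2' := hF2 x'
    rw [h1'] at h1
    rw [h2'] at h2
    have e1 := fa2_unit_inv (U x)
    have e1' := fa2_unit_inv (U x')
    -- `b' = U' U⁻¹ b`
    have h3 : (((U x' * (U x)⁻¹ : (𝓞 L)ˣ) : 𝓞 L)) * x.1.1 = x'.1.1 := by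
      apply RingOfIntegers.ext
      have e3 : (((((U x' * (U x)⁻¹ : (𝓞 L)ˣ) : 𝓞 L)) * x.1.1 : 𝓞 L) : L) =
        ((U x' : 𝓞 L) : L) * ((((U x)⁻¹ : (𝓞 L)ˣ) : 𝓞 L) : L) * ((x.1.1 : 𝓞 L) : L) := by
        rw [Units.val_mul]
        rfl
      rw [e3]
      have h4 : ((((U x')⁻¹ : (𝓞 L)ˣ) : 𝓞 L) : L) * ((x'.1.1 : 𝓞 L) : L) =
          ((((U x)⁻¹ : (𝓞 L)ˣ) : 𝓞 L) : L) * ((x.1.1 : 𝓞 L) : L) := by
        have h5 := h2
        field_simp at h5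
        exact h5
      linear_combination (-((U x' : 𝓞 L) : L)) * h4 + ((x'.1.1 : 𝓞 L) : L) * e1'
    have h4 : U x' * (U x)⁻¹ = 1 := by
      obtain ⟨v, -, hv⟩ := e1_unit x.1.1 x.1.2.1
      have h5 := hv (U x' * (U x)⁻¹) (by
        show (((U x' * (U x)⁻¹ : (𝓞 L)ˣ) : 𝓞 L)) * x.1.1 ∈ R1 L
        rw [h3]
        exact x'.1.2)
      have h6 := hv 1 (by
        show ((1 : (𝓞 L)ˣ) : 𝓞 L) * x.1.1 ∈ R1 L
        rw [Units.val_one, one_mul]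
        exact x.1.2)
      rw [h5, h6]
    have h5 : U x' = U x := mul_inv_eq_one.1 h4
    rw [h4, Units.val_one, one_mul] at h3
    rw [h5] at h1
    have h6 : ((U x : 𝓞 L) : L) ≠ 0 := by
      intro h7
      rw [h7, mul_zero] at e1
      exact zero_ne_one e1
    have h7 := mul_left_cancel₀ h0 (mul_left_cancel₀ h6 h1)
    exact Prod.ext (Subtype.ext h3) (Subtype.ext h7.symm)
  have hsupp : Function.support (fun y : HIndw L m => qtermw m w' y τ) ⊆ Set.range F := by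
    intro y hy
    by_contra hr
    apply hy
    show qtermw m w' y τ = 0
    unfold qtermw
    rw [chatw_FE0 h y.2.2.1, zero_mul, zero_mul, ite_self]
    rintro ⟨hb', b, hb⟩
    apply hr
    have hb0 : b ≠ 0 := by
      rintro rfl
      have h1 : (m : L) * y.2.1 = 0 := by
        rw [← hb]
        rfl
      exact (mul_ne_zero h0 y.2.2.2) h1
    obtain ⟨v, hv, -⟩ := e1_unit b hb0
    have hy0 : ((y.1.1 : 𝓞 L) : L) ≠ 0 := by
      intro h1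
      exact y.1.2.1 (RingOfIntegers.ext h1)
    have ev := fa2_unit_inv v
    obtain ⟨x, hx1, hx2⟩ : ∃ x : HIndw L n, x.1.1 = (v : 𝓞 L) * b ∧ x.2.1 = (((v⁻¹ : (𝓞 L)ˣ) : 𝓞 L) : L) * (((y.1.1 : 𝓞 L) : L) / (m : L)) := by
      refine ⟨(⟨(v : 𝓞 L) * b, hv⟩, ⟨(((v⁻¹ : (𝓞 L)ˣ) : 𝓞 L) : L) * (((y.1.1 : 𝓞 L) : L) / (m : L)),
        fa2_dual_mul hb' _, mul_ne_zero ?_ (div_ne_zero hy0 h0)⟩), rfl, rfl⟩
      intro h1
      rw [h1, zero_mul] at ev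
      exact zero_ne_one ev
    have h1 := hF1 x
    have h2 := hF2 x
    have eu := fa2_unit_inv (U x)
    have h3 : (((U x * v⁻¹ : (𝓞 L)ˣ) : 𝓞 L)) * y.1.1 = (F x).1.1 := by
      apply RingOfIntegers.ext
      have e3 : (((((U x * v⁻¹ : (𝓞 L)ˣ) : 𝓞 L)) * y.1.1 : 𝓞 L) : L) =
        ((U x : 𝓞 L) : L) * (((v⁻¹ : (𝓞 L)ˣ) : 𝓞 L) : L) * ((y.1.1 : 𝓞 L) : L) := by
        rw [Units.val_mul]
        rfl
      rw [e3, h1, hx2]
      field_simp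
    have h4 : U x * v⁻¹ = 1 := by
      obtain ⟨t, -, ht⟩ := e1_unit y.1.1 y.1.2.1
      have h5 := ht (U x * v⁻¹) (by
        show (((U x * v⁻¹ : (𝓞 L)ˣ) : 𝓞 L)) * y.1.1 ∈ R1 L
        rw [h3]
        exact (F x).1.2)
      have h6 := ht 1 (by
        show ((1 : (𝓞 L)ˣ) : 𝓞 L) * y.1.1 ∈ R1 L
        rw [Units.val_one, one_mul]
        exact y.1.2)
      rw [h5, h6]
    have h5 : U x = v := mul_inv_eq_one.1 h4
    rw [h4, Units.val_one, one_mul] at h3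
    refine ⟨x, Prod.ext (Subtype.ext h3.symm) (Subtype.ext ?_)⟩
    rw [h2, h5, hx1]
    have e3 : (((v : 𝓞 L) * b : 𝓞 L) : L) = ((v : 𝓞 L) : L) * (b : L) := rfl
    rw [e3, hb]
    field_simp
    linear_combination (y.2.1) * ev
  rw [← hinj.tsum_eq hsupp, ← tsum_mul_left]
  exact tsum_congr fun x => fa2_term h x (F x) (U x) (hF1 x) (hF2 x) τ

end

end TRZ
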