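import Pool.Agent.TRZ.FEDefs

/-! # [FE-B1] the dual lattices modulo each other over any number field -/

set_option autoImplicit false

open NumberField Ideal IsDedekindDomain
open scoped Real Classical ComplexConjugate nonZeroDivisors
open TR TRG TRP

namespace TRZ

section
variable {M : Type} [Field M] [NumberField M] {𝔣 : Ideal (𝓞 M)} {W : 𝓞 M → ℤ}

omit [NumberField M] in
theorem PQ.one (h : PQ 𝔣 W) : W 1 = 1 := by
  have h1 := h.mul 1 1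
  rw [mul_one] at h1
  rcases h.val 1 with h2 | h2 | h2
  · obtain ⟨P, -, h3⟩ := (h.zero 1).1 h2
    exact absurd ((Ideal.eq_top_iff_one _).2 h3) P.isPrime.ne_top
  · exact h2
  · rw [h2] at h1
    norm_num at h1

theorem feb_mem_dual {I : Ideal (𝓞 M)} (hI : I ≠ ⊥) (x : M) :
    x ∈ FractionalIdeal.dual ℤ ℚ (I : FractionalIdeal (𝓞 M)⁰ M) ↔ x ∈ dualL I := by
  rw [FractionalIdeal.mem_dual (by rwa [Ne, FractionalIdeal.coeIdeal_eq_zero]), mem_dualL]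
  constructor
  · intro h a ha
    obtain ⟨n, hn⟩ := h (a : M) ((FractionalIdeal.mem_coeIdeal _).2 ⟨a, ha, rfl⟩)
    exact ⟨n, hn.symm⟩
  · intro h y hy
    obtain ⟨a, ha, rfl⟩ := (FractionalIdeal.mem_coeIdeal _).1 hy
    obtain ⟨n, hn⟩ := h a ha
    exact ⟨n, hn.symm⟩

/-- the different -/
noncomputable abbrev dfM (M : Type) [Field M] [NumberField M] : Ideal (𝓞 M) := differentIdeal ℤ (𝓞 M)

theorem dfM_ne : dfM M ≠ ⊥ := differentIdeal_ne_bot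

/-- the dual lattice is the inverse of `𝔞 𝔡` -/
theorem feb_dual {𝔞 : Ideal (𝓞 M)} (h : 𝔞 ≠ ⊥) {z : M} :
    z ∈ dualL 𝔞 ↔ ∀ y ∈ 𝔞 * dfM M, ∃ c : 𝓞 M, z * (y : M) = c := by
  have h1 : FractionalIdeal.dual ℤ ℚ (𝔞 : FractionalIdeal (𝓞 M)⁰ M) =
      ((𝔞 * dfM M : Ideal (𝓞 M)) : FractionalIdeal (𝓞 M)⁰ M)⁻¹ := by
    rw [FractionalIdeal.dual_eq_mul_inv, FractionalIdeal.coeIdeal_mul, coeIdeal_differentIdeal ℤ ℚ, mul_inv, inv_inv,
      mul_comm]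
  have h2 : ((𝔞 * dfM M : Ideal (𝓞 M)) : FractionalIdeal (𝓞 M)⁰ M) ≠ 0 := by
    rw [Ne, FractionalIdeal.coeIdeal_eq_zero]
    exact mul_ne_zero h dfM_ne
  rw [← feb_mem_dual h, h1, FractionalIdeal.mem_inv_iff h2]
  constructor
  · intro h3 y hy
    obtain ⟨c, hc⟩ := (FractionalIdeal.mem_one_iff _).1 (h3 (y : M) ((FractionalIdeal.mem_coeIdeal _).2 ⟨y, hy, rfl⟩))
    exact ⟨c, hc.symm⟩
  · intro h3 x hx
    obtain ⟨y, hy, rfl⟩ := (FractionalIdeal.mem_coeIdeal _).1 hx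
    obtain ⟨c, hc⟩ := h3 y hy
    exact (FractionalIdeal.mem_one_iff _).2 ⟨c, hc.symm⟩

theorem feb_mono {I J : Ideal (𝓞 M)} (h : I ≤ J) {z : M} (hz : z ∈ dualL J) : z ∈ dualL I :=
  fun a ha => hz a (h ha)

theorem feb_mul {I : Ideal (𝓞 M)} {z : M} (h : z ∈ dualL I) (x : 𝓞 M) : z * (x : M) ∈ dualL I := by
  intro a ha
  obtain ⟨k, hk⟩ := h (x * a) (Ideal.mul_mem_left _ _ ha)
  refine ⟨k, ?_⟩
  rw [← hk, mul_assoc]
  rfl

/-- the ideal `z J` for `z J ⊆ 𝓞` -/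
def zI (z : M) (J : Ideal (𝓞 M)) : Ideal (𝓞 M) where
  carrier := {x | ∃ y ∈ J, (x : M) = z * (y : M)}
  zero_mem' := ⟨0, J.zero_mem, by
    rw [show (((0 : 𝓞 M) : 𝓞 M) : M) = 0 from map_zero _, mul_zero]⟩
  add_mem' := by
    rintro a b ⟨y, hy, ha⟩ ⟨y', hy', hb⟩
    refine ⟨y + y', J.add_mem hy hy', ?_⟩
    rw [show ((a + b : 𝓞 M) : M) = (a : M) + (b : M) from map_add _ _ _,
      show ((y + y' : 𝓞 M) : M) = (y : M) + (y' : M) from map_add _ _ _, ha, hb, mul_add]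
  smul_mem' := by
    rintro c a ⟨y, hy, ha⟩
    refine ⟨c * y, J.mul_mem_left c hy, ?_⟩
    rw [show ((c • a : 𝓞 M) : M) = (c : M) * (a : M) from map_mul _ _ _,
      show ((c * y : 𝓞 M) : M) = (c : M) * (y : M) from map_mul _ _ _, ha]
    ring

/-- an element which multiplies a nonzero ideal into itself is integral -/
theorem feb_int {P : Ideal (𝓞 M)} (hP : P ≠ ⊥) {x : M} (h : ∀ p ∈ P, ∃ q ∈ P, x * (p : M) = (q : M)) : ∃ c : 𝓞 M, x = c := by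
  have hP' : (P : FractionalIdeal (𝓞 M)⁰ M) ≠ 0 := by
    rwa [Ne, FractionalIdeal.coeIdeal_eq_zero]
  have h1 : x ∈ (P : FractionalIdeal (𝓞 M)⁰ M) / (P : FractionalIdeal (𝓞 M)⁰ M) := by
    rw [FractionalIdeal.mem_div_iff_of_ne_zero hP']
    intro y hy
    obtain ⟨p, hp, rfl⟩ := (FractionalIdeal.mem_coeIdeal _).1 hy
    obtain ⟨q, hq, e⟩ := h p hp
    exact (FractionalIdeal.mem_coeIdeal _).2 ⟨q, hq, e.symm⟩
  rw [div_self hP'] at h1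
  obtain ⟨c, hc⟩ := (FractionalIdeal.mem_one_iff _).1 h1
  exact ⟨c, hc.symm⟩

/-- **the key relation**: `z₀ 𝔣 𝔯 𝔡 + 𝔣 = 𝓞` -/
theorem PZ.key {z₀ : M} (hf : 𝔣 ≠ ⊥) (hz : PZ 𝔣 z₀) {𝔯 : Ideal (𝓞 M)} (hc : IsCoprime 𝔯 𝔣) :
    ∃ y ∈ 𝔣 * 𝔯 * dfM M, ∃ f ∈ 𝔣, z₀ * (y : M) + (f : M) = 1 := by
  have hz' := (feb_dual hf).1 hz.mem
  have hfr : 𝔣 * 𝔯 ≤ 𝔣 := Ideal.mul_le_left
  by_contra hcon
  push Not at hcon
  have htop : zI z₀ (𝔣 * 𝔯 * dfM M) ⊔ 𝔣 ≠ ⊤ := by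
    intro h1
    have h2 : (1 : 𝓞 M) ∈ zI z₀ (𝔣 * 𝔯 * dfM M) ⊔ 𝔣 := by
      rw [h1]
      exact Submodule.mem_top
    obtain ⟨x, ⟨y, hy, hxy⟩, f, hf', hxf⟩ := Submodule.mem_sup.1 h2
    refine hcon y hy f hf' ?_
    have h3 := congrArg (fun a : 𝓞 M => (a : M)) hxf
    rw [← hxy]
    have h4 : ((x + f : 𝓞 M) : M) = (x : M) + (f : M) := map_add _ _ _
    have h5 : ((1 : 𝓞 M) : M) = 1 := map_one _
    rw [← h4, ← h5]
    exact h3
  obtain ⟨P, hPm, hP⟩ := Ideal.exists_le_maximal _ htop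
  have hfP : 𝔣 ≤ P := le_sup_right.trans hP
  have hP0 : P ≠ ⊥ := fun h => hf (le_bot_iff.1 (h ▸ hfP))
  obtain ⟨𝔤, hg⟩ := Ideal.dvd_iff_le.2 hfP
  have hg0 : 𝔤 ≠ ⊥ := by
    rintro rfl
    rw [Ideal.mul_bot] at hg
    exact hf hg
  refine hz.prim ⟨P, hPm.isPrime, hP0⟩ 𝔤 hg ((feb_dual hg0).2 fun w hw => ?_)
  -- `𝔯 + P = 1`
  obtain ⟨r, hr', f, hf', hrf⟩ := Ideal.isCoprime_iff_exists.1 hc
  have e1 : z₀ * (w : M) = z₀ * ((r * w : 𝓞 M) : M) + z₀ * ((f * w : 𝓞 M) : M) := by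
    rw [show ((r * w : 𝓞 M) : M) = (r : M) * (w : M) from map_mul _ _ _,
      show ((f * w : 𝓞 M) : M) = (f : M) * (w : M) from map_mul _ _ _]
    have h3 : (r : M) + (f : M) = 1 := by
      have h4 := congrArg (fun a : 𝓞 M => (a : M)) hrf
      rw [show (1 : M) = ((1 : 𝓞 M) : M) from (map_one _).symm, ← h4]
      exact (map_add _ _ _).symm
    linear_combination (-(z₀ * (w : M))) * h3
  obtain ⟨c2, hc2⟩ : ∃ c : 𝓞 M, z₀ * ((f * w : 𝓞 M) : M) = c := by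
    exact hz' _ (Ideal.mul_mem_mul hf' (Ideal.mul_le_right hw))
  obtain ⟨c1, hc1⟩ : ∃ c : 𝓞 M, z₀ * ((r * w : 𝓞 M) : M) = c := by
    refine feb_int hP0 fun p hp => ?_
    have h5 : r * (p * w) ∈ 𝔣 * 𝔯 * dfM M := by
      have h6 : r * (p * w) ∈ 𝔯 * (P * (𝔤 * dfM M)) := Ideal.mul_mem_mul hr' (Ideal.mul_mem_mul hp hw)
      have h7 : 𝔯 * (P * (𝔤 * dfM M)) = 𝔣 * 𝔯 * dfM M := by
        rw [hg]
        ring
      rwa [h7] at h6
    obtain ⟨c, hc'⟩ := hz' _ (Ideal.mul_mono_left hfr h5)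
    refine ⟨c, hP (Ideal.mem_sup_left ⟨_, h5, hc'.symm⟩), ?_⟩
    rw [← hc', show ((r * (p * w) : 𝓞 M) : M) = (r : M) * ((p : M) * (w : M)) by
        rw [← map_mul, ← map_mul],
      show ((r * w : 𝓞 M) : M) = (r : M) * (w : M) from map_mul _ _ _]
    ring
  refine ⟨c1 + c2, ?_⟩
  rw [e1, hc1, hc2]
  exact (map_add _ _ _).symm

/-- the relation for `𝔯 = 𝓞` -/
theorem PZ.key1 {z₀ : M} (hf : 𝔣 ≠ ⊥) (hz : PZ 𝔣 z₀) :
    ∃ y ∈ 𝔣 * dfM M, ∃ f ∈ 𝔣, z₀ * (y : M) + (f : M) = 1 := by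
  obtain ⟨y, hy, f, hf', h⟩ := hz.key hf (𝔯 := ⊤) (Ideal.isCoprime_iff_sup_eq.2 (top_sup_eq _))
  rw [Ideal.mul_top] at hy
  exact ⟨y, hy, f, hf', h⟩

theorem PZ.ne_bot {z₀ : M} (hz : PZ 𝔣 z₀) : 𝔣 ≠ ⊥ := by
  rintro rfl
  obtain ⟨P, hP⟩ := Ideal.exists_maximal (𝓞 M)
  have hP0 : P ≠ ⊥ := Ring.ne_bot_of_isMaximal_of_not_isField hP (RingOfIntegers.not_isField M)
  refine hz.prim ⟨P, hP.isPrime, hP0⟩ ⊥ (Ideal.mul_bot _).symm ?_
  intro a ha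
  rw [Ideal.mem_bot] at ha
  refine ⟨0, ?_⟩
  rw [ha, show ((0 : 𝓞 M) : M) = 0 from map_zero _, mul_zero, map_zero]
  rfl

/-- [FB] PROOF. `𝔯 (dual of 𝔣 𝔯) = dual of 𝔣 = 𝓞 z₀ + dual of 𝓞` -/
theorem PZ.exists_t {z₀ : M} (hz : PZ 𝔣 z₀) {𝔯 : Ideal (𝓞 M)} (hr : 𝔯 ≠ ⊥) (hc : IsCoprime 𝔯 𝔣) {z : M}
    (hz' : z ∈ dualL (𝔣 * 𝔯)) : ∃ t : 𝓞 M, z - (t : M) * z₀ ∈ dualL 𝔯 := by
  have hf := hz.ne_bot
  obtain ⟨y, hy, f, hf', h⟩ := hz.key hf hc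
  have hfr : 𝔣 * 𝔯 ≠ ⊥ := mul_ne_zero hf hr
  have h1 := (feb_dual hfr).1 hz'
  obtain ⟨t, ht⟩ := h1 y hy
  refine ⟨t, (feb_dual hr).2 fun w hw => ?_⟩
  have h2 : f * w ∈ 𝔣 * 𝔯 * dfM M := by
    rw [mul_assoc]
    exact Ideal.mul_mem_mul hf' hw
  obtain ⟨c, hc'⟩ := h1 _ h2
  refine ⟨c, ?_⟩
  rw [← hc', ← ht, show ((f * w : 𝓞 M) : M) = (f : M) * (w : M) from map_mul _ _ _]
  linear_combination (-(z * (w : M))) * h

/-- `c z₀ ∈` dual of `𝓞` iff `c ∈ 𝔣` -/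
theorem PZ.mem_iff {z₀ : M} (hf : 𝔣 ≠ ⊥) (hz : PZ 𝔣 z₀) (c : 𝓞 M) : z₀ * (c : M) ∈ dualL (⊤ : Ideal (𝓞 M)) ↔ c ∈ 𝔣 := by
  constructor
  · intro h
    obtain ⟨y, hy, f, hf', hyf⟩ := hz.key1 hf
    have h1 := (feb_dual top_ne_bot).1 h
    rw [Ideal.top_mul] at h1
    have key : ∀ w ∈ 𝔣 * dfM M, ∃ q ∈ 𝔣, z₀ * (c : M) * (w : M) = (q : M) := by
      intro w hw
      refine Submodule.mul_induction_on hw ?_ ?_
      · intro a ha d hd
        obtain ⟨e, he⟩ := h1 d hd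
        refine ⟨a * e, Ideal.mul_mem_right _ _ ha, ?_⟩
        rw [show ((a * d : 𝓞 M) : M) = (a : M) * (d : M) from map_mul _ _ _,
          show ((a * e : 𝓞 M) : M) = (a : M) * (e : M) from map_mul _ _ _, ← he]
        ring
      · rintro a b ⟨q, hq, ha⟩ ⟨q', hq', hb⟩
        refine ⟨q + q', 𝔣.add_mem hq hq', ?_⟩
        rw [show ((a + b : 𝓞 M) : M) = (a : M) + (b : M) from map_add _ _ _,
          show ((q + q' : 𝓞 M) : M) = (q : M) + (q' : M) from map_add _ _ _, ← ha, ← hb]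
        ring
    obtain ⟨q, hq, e⟩ := key y hy
    have h2 : c = q + c * f := by
      apply RingOfIntegers.ext
      rw [show ((q + c * f : 𝓞 M) : M) = (q : M) + (c : M) * (f : M) by rw [← map_mul, ← map_add], ← e]
      linear_combination (-(c : M)) * hyf
    rw [h2]
    exact 𝔣.add_mem hq (Ideal.mul_mem_left _ _ hf')
  · intro h a _
    obtain ⟨n, hn⟩ := hz.mem (c * a) (Ideal.mul_mem_right _ _ h)
    refine ⟨n, ?_⟩
    rw [← hn, mul_assoc]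
    rfl

/-- [FB] PROOF. the dual lattice of `𝔣` modulo that of `𝓞` is isomorphic to `𝓞/𝔣` (cyclic) -/
theorem exists_PZ (hf : 𝔣 ≠ ⊥) : ∃ z₀ : M, PZ 𝔣 z₀ := by
  by_cases htop : 𝔣 = ⊤
  · subst htop
    refine ⟨1, one_ne_zero, ?_, ?_⟩
    · intro a _
      refine ⟨Algebra.trace ℤ (𝓞 M) a, ?_⟩
      rw [one_mul]
      exact (Algebra.coe_trace_int a).symm
    · intro P 𝔤 h
      exfalso
      apply P.isPrime.ne_top
      rw [Ideal.eq_top_iff_one]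
      have h1 : (1 : 𝓞 M) ∈ P.asIdeal * 𝔤 := by
        rw [← h]
        exact Submodule.mem_top
      exact Ideal.mul_le_left h1
  · have hJ0 : 𝔣 * dfM M ≠ ⊥ := mul_ne_zero hf dfM_ne
    obtain ⟨α, hα, hα0⟩ := Submodule.exists_mem_ne_zero_of_ne_bot hJ0
    obtain ⟨J, hJ⟩ := Ideal.dvd_iff_le.2 ((Ideal.span_singleton_le_iff_mem _).2 hα)
    have hJ1 : J ≠ ⊥ := by
      rintro rfl
      rw [Ideal.mul_bot, Ideal.span_singleton_eq_bot] at hJ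
      exact hα0 hJ
    obtain ⟨a, ha⟩ := IsDedekindDomain.exists_sup_span_eq (I := J * 𝔣) (J := J) Ideal.mul_le_left (mul_ne_zero hJ1 hf)
    have haJ : a ∈ J := by
      rw [← ha]
      exact Ideal.mem_sup_right (Ideal.mem_span_singleton_self a)
    have ha0 : a ≠ 0 := by
      rintro rfl
      rw [Ideal.span_singleton_eq_bot.2 rfl, sup_bot_eq] at ha
      apply htop
      have h1 : J * 𝔣 = J * ⊤ := by rw [ha, Ideal.mul_top]
      exact mul_left_cancel₀ hJ1 h1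
    have hαM : (α : M) ≠ 0 := RingOfIntegers.coe_ne_zero_iff.2 hα0
    have haM : (a : M) ≠ 0 := RingOfIntegers.coe_ne_zero_iff.2 ha0
    refine ⟨(a : M) / (α : M), div_ne_zero haM hαM, ?_, ?_⟩
    · rw [feb_dual hf]
      intro y hy
      have h1 : y * a ∈ span {α} := by
        rw [hJ]
        exact Ideal.mul_mem_mul hy haJ
      obtain ⟨c, hc⟩ := Ideal.mem_span_singleton'.1 h1
      refine ⟨c, ?_⟩
      have h2 : (c : M) * (α : M) = (y : M) * (a : M) := by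
        rw [← map_mul, ← map_mul, hc]
      field_simp
      linear_combination -h2
    · intro P 𝔤 hPg hmem
      have hg0 : 𝔤 ≠ ⊥ := by
        rintro rfl
        rw [Ideal.mul_bot] at hPg
        exact hf hPg
      have h1 := (feb_dual hg0).1 hmem
      -- `a 𝔤 𝔡 ⊆ (α) = J P 𝔤 𝔡`, so `a ∈ J P`
      have h2 : span {a} * (𝔤 * dfM M) ≤ span {α} := by
        rw [Ideal.span_singleton_mul_le_iff]
        intro y hy
        obtain ⟨c, hc⟩ := h1 y hy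
        rw [Ideal.mem_span_singleton']
        refine ⟨c, RingOfIntegers.ext ?_⟩
        rw [show ((c * α : 𝓞 M) : M) = (c : M) * (α : M) from map_mul _ _ _,
          show ((a * y : 𝓞 M) : M) = (a : M) * (y : M) from map_mul _ _ _, ← hc]
        field_simp
      have h3 : span {α} = (J * P.asIdeal) * (𝔤 * dfM M) := by
        rw [hJ, hPg]
        ring
      rw [h3] at h2
      have hgd : 𝔤 * dfM M ≠ 0 := mul_ne_zero hg0 dfM_ne
      have h4 : span {a} ≤ J * P.asIdeal := by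
        rw [← Ideal.dvd_iff_le] at h2 ⊢
        exact (mul_dvd_mul_iff_right hgd).1 h2
      have h5 : J ≤ J * P.asIdeal := by
        conv_lhs => rw [← ha]
        refine sup_le ?_ h4
        rw [hPg]
        exact Ideal.mul_mono_right Ideal.mul_le_left
      have h6 : J * P.asIdeal ∣ J * ⊤ := by
        rw [Ideal.mul_top, Ideal.dvd_iff_le]
        exact h5
      have h7 : P.asIdeal ∣ ⊤ := (mul_dvd_mul_iff_left hJ1).1 h6
      exact P.isPrime.ne_top (top_le_iff.1 (Ideal.dvd_iff_le.1 h7))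

end

end TRZ
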