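import Pool.Agent.TRZ.FEDefs
import Pool.Agent.TT.H1
import Pool.Agent.TR.G4

set_option autoImplicit false
set_option linter.unusedSectionVars false

open NumberField Ideal IsDedekindDomain
open scoped Real Classical ComplexConjugate
open TR TRG TRP

/-! # [ALL2-FC] the trace pairing and the Fourier transform of the weight `uW` -/

namespace TRZ

/-! ### additive characters of a number field -/
section
variable {K : Type} [Field K] [NumberField K]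

theorem fec_add (z z' : K) : ee (trR (z + z')) = ee (trR z) * ee (trR z') := by
  have h3 : trR (z + z') = trR z + trR z' := by
    rw [trR, map_add, Rat.cast_add]
    rfl
  rw [h3]
  exact g4_ee_add _ _

theorem fec_zadd (z : K) (a b : 𝓞 K) :
    ee (trR (z * ((a + b : 𝓞 K) : K))) = ee (trR (z * (a : K))) * ee (trR (z * (b : K))) := by
  rw [← fec_add, ← mul_add]
  rfl

theorem fec_one {I : Ideal (𝓞 K)} {z : K} (hz : z ∈ dualL I) {a : 𝓞 K} (ha : a ∈ I) : ee (trR (z * (a : K))) = 1 :=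
  (g4_ee_tr _).2 (hz a ha)

theorem fec_dual_iff {I : Ideal (𝓞 K)} {z : K} : z ∈ dualL I ↔ ∀ a ∈ I, ee (trR (z * (a : K))) = 1 := by
  rw [mem_dualL]
  exact forall₂_congr (fun a _ => (g4_ee_tr _).symm)

theorem fec_mono {I J : Ideal (𝓞 K)} (h : I ≤ J) {z : K} (hz : z ∈ dualL J) : z ∈ dualL I :=
  fun a ha => hz a (h ha)

theorem fec_smul {I : Ideal (𝓞 K)} {z : K} (hz : z ∈ dualL I) (u : 𝓞 K) : (u : K) * z ∈ dualL I := by
  intro a ha
  obtain ⟨n, hn⟩ := hz (u * a) (I.mul_mem_left u ha)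
  refine ⟨n, ?_⟩
  rw [← hn]
  congr 1
  have e : ((u * a : 𝓞 K) : K) = (u : K) * (a : K) := rfl
  rw [e]
  ring

/-- the sum of a periodic function times a character over `𝓞/J`, for `I ∣ J` -/
theorem fec_sum {I J : Ideal (𝓞 K)} (hJI : J ≤ I) (hJ : J ≠ ⊥) (u : 𝓞 K → ℂ) (hu : ∀ x, ∀ y ∈ I, u (x + y) = u x) {z : K} (hz : z ∈ dualL J) :
    (∑ᶠ q : 𝓞 K ⧸ J, u (Quotient.out q : 𝓞 K) * ee (trR (z * ((Quotient.out q : 𝓞 K) : K)))) =
      if z ∈ dualL I then ((absNorm J : ℂ) / (absNorm I : ℂ)) *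
        ∑ᶠ q : 𝓞 K ⧸ I, u (Quotient.out q : 𝓞 K) * ee (trR (z * ((Quotient.out q : 𝓞 K) : K))) else 0 := by
  have hI : I ≠ ⊥ := fun h => hJ (le_bot_iff.mp (h ▸ hJI))
  have hfJ : Finite (𝓞 K ⧸ J) := Ideal.finiteQuotientOfFreeOfNeBot _ hJ
  have hfI : Finite (𝓞 K ⧸ I) := Ideal.finiteQuotientOfFreeOfNeBot _ hI
  have := Fintype.ofFinite (𝓞 K ⧸ J)
  have := Fintype.ofFinite (𝓞 K ⧸ I)
  have hout : ∀ (J' : Ideal (𝓞 K)) (a : 𝓞 K), (Quotient.out (Ideal.Quotient.mk J' a) : 𝓞 K) - a ∈ J' := fun J' a => by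
    rw [← Ideal.Quotient.eq]
    exact Quotient.out_eq _
  set G : 𝓞 K → ℂ := fun x => u x * ee (trR (z * (x : K))) with hG
  have hGJ : ∀ x, ∀ y ∈ J, G (x + y) = G x := by
    intro x y hy
    simp only [hG]
    rw [hu x y (hJI hy), fec_zadd, fec_one hz hy, mul_one]
  have hGo : ∀ a : 𝓞 K, G (Quotient.out (Ideal.Quotient.mk J a) : 𝓞 K) = G a := by
    intro a
    have h1 := hGJ a _ (hout J a)
    rwa [add_sub_cancel] at h1
  rw [finsum_eq_sum_of_fintype]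
  change ∑ q : 𝓞 K ⧸ J, G (Quotient.out q : 𝓞 K) = _
  split_ifs with hzI
  · have hGI : ∀ x, ∀ y ∈ I, G (x + y) = G x := by
      intro x y hy
      simp only [hG]
      rw [hu x y hy, fec_zadd, fec_one hzI hy, mul_one]
    have hGoI : ∀ a : 𝓞 K, G (Quotient.out (Ideal.Quotient.mk I a) : 𝓞 K) = G a := by
      intro a
      have h1 := hGI a _ (hout I a)
      rwa [add_sub_cancel] at h1
    rw [finsum_eq_sum_of_fintype]
    change _ = _ * ∑ q : 𝓞 K ⧸ I, G (Quotient.out q : 𝓞 K)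
    set φ : (𝓞 K ⧸ J) →+ (𝓞 K ⧸ I) := (Ideal.Quotient.factor hJI).toAddMonoidHom with hφ
    have hφm : ∀ a : 𝓞 K, φ (Ideal.Quotient.mk J a) = Ideal.Quotient.mk I a := fun a => rfl
    have hφs : Function.Surjective φ := Ideal.Quotient.factor_surjective hJI
    have hfib : ∀ q : 𝓞 K ⧸ J, G (Quotient.out q : 𝓞 K) = G (Quotient.out (φ q) : 𝓞 K) := by
      intro q
      obtain ⟨a, rfl⟩ := Ideal.Quotient.mk_surjective q
      rw [hGo, hφm, hGoI]
    have hcard : ∀ b : 𝓞 K ⧸ I, ((Finset.univ.filter fun q : 𝓞 K ⧸ J => φ q = b).card : ℂ) = (absNorm J : ℂ) / (absNorm I : ℂ) := by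
      have h1 : ∀ b : 𝓞 K ⧸ I, (Finset.univ.filter fun q : 𝓞 K ⧸ J => φ q = b).card =
          (Finset.univ.filter fun q : 𝓞 K ⧸ J => φ q = 0).card := by
        intro b
        obtain ⟨q₀, rfl⟩ := hφs b
        refine Finset.card_bij' (fun q _ => q - q₀) (fun q _ => q + q₀) ?_ ?_ ?_ ?_
        · intro q hq
          rw [Finset.mem_filter] at hq ⊢
          exact ⟨Finset.mem_univ _, by rw [map_sub, hq.2, sub_self]⟩
        · intro q hq
          rw [Finset.mem_filter] at hq ⊢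
          exact ⟨Finset.mem_univ _, by rw [map_add, hq.2, zero_add]⟩
        · intro q _
          exact sub_add_cancel _ _
        · intro q _
          exact add_sub_cancel_right _ _
      have h2 : Fintype.card (𝓞 K ⧸ J) = Fintype.card (𝓞 K ⧸ I) * (Finset.univ.filter fun q : 𝓞 K ⧸ J => φ q = 0).card := by
        rw [← Finset.card_univ, Finset.card_eq_sum_card_fiberwise (f := φ) (t := Finset.univ) (fun q _ => Finset.mem_univ _),
          Finset.sum_congr rfl (fun b _ => h1 b), Finset.sum_const, Finset.card_univ, smul_eq_mul]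
      have h3 : absNorm J = Fintype.card (𝓞 K ⧸ J) := by
        rw [absNorm_apply, Submodule.cardQuot_apply, Nat.card_eq_fintype_card]
      have h4 : absNorm I = Fintype.card (𝓞 K ⧸ I) := by
        rw [absNorm_apply, Submodule.cardQuot_apply, Nat.card_eq_fintype_card]
      intro b
      rw [h1 b, h3, h4, h2]
      have h5 : ((Fintype.card (𝓞 K ⧸ I) : ℕ) : ℂ) ≠ 0 := by
        exact_mod_cast Fintype.card_ne_zero
      push_cast
      field_simp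
    calc ∑ q : 𝓞 K ⧸ J, G (Quotient.out q : 𝓞 K) = ∑ q : 𝓞 K ⧸ J, G (Quotient.out (φ q) : 𝓞 K) :=
          Finset.sum_congr rfl (fun q _ => hfib q)
      _ = ∑ b : 𝓞 K ⧸ I, ∑ q ∈ Finset.univ.filter (fun q : 𝓞 K ⧸ J => φ q = b), G (Quotient.out (φ q) : 𝓞 K) :=
          (Finset.sum_fiberwise _ _ _).symm
      _ = ∑ b : 𝓞 K ⧸ I, ((absNorm J : ℂ) / (absNorm I : ℂ)) * G (Quotient.out b : 𝓞 K) := by
          refine Finset.sum_congr rfl (fun b _ => ?_)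
          rw [← hcard b, Finset.sum_congr rfl (g := fun _ => G (Quotient.out b : 𝓞 K))
            (fun q hq => by rw [(Finset.mem_filter.mp hq).2]), Finset.sum_const, nsmul_eq_mul]
      _ = _ := by rw [Finset.mul_sum]
  · rw [fec_dual_iff] at hzI
    push Not at hzI
    obtain ⟨a₀, ha₀, hne⟩ := hzI
    have hshift : ∀ q : 𝓞 K ⧸ J, G (Quotient.out (q + Ideal.Quotient.mk J a₀) : 𝓞 K) = G (Quotient.out q : 𝓞 K) * ee (trR (z * (a₀ : K))) := by
      intro q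
      obtain ⟨a, rfl⟩ := Ideal.Quotient.mk_surjective q
      rw [← map_add, hGo, hGo]
      simp only [hG]
      rw [hu a a₀ ha₀, fec_zadd]
      ring
    have h8 : ∑ q : 𝓞 K ⧸ J, G (Quotient.out q : 𝓞 K) = (∑ q : 𝓞 K ⧸ J, G (Quotient.out q : 𝓞 K)) * ee (trR (z * (a₀ : K))) := by
      rw [Finset.sum_mul, ← Finset.sum_congr rfl (fun q _ => hshift q)]
      exact (Equiv.sum_comp (Equiv.addRight (Ideal.Quotient.mk J a₀)) (fun q => G (Quotient.out q : 𝓞 K))).symm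
    have h9 : (∑ q : 𝓞 K ⧸ J, G (Quotient.out q : 𝓞 K)) * (ee (trR (z * (a₀ : K))) - 1) = 0 := by
      rw [mul_sub, mul_one, ← h8, sub_self]
    rcases mul_eq_zero.1 h9 with h10 | h10
    · exact h10
    · exact absurd (sub_eq_zero.1 h10) hne

end

section
variable {L M : Type} [Field L] [NumberField L] [Field M] [NumberField M] [Algebra L M] [IsTotallyReal L] {D : Dat L M}

omit [IsTotallyReal L] in
theorem fec_r (D : Dat L M) : D.r ≠ 0 := by
  intro h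
  have h1 := D.hr
  rw [h] at h1
  norm_num at h1

theorem fec_tr (D : Dat L M) (z : M) : Algebra.trace L M z = 2 * D.ca z := by
  rw [Algebra.trace_eq_matrix_trace (TT.h1_basis D), Matrix.trace_fin_two]
  simp only [Algebra.leftMulMatrix_eq_repr_mul]
  rw [TT.h1_basis_zero, TT.h1_basis_one, mul_one, TT.h1_repr, TT.h1_repr, (D.ca_cb_mul z D.r).2, D.ca_cb_r.1, D.ca_cb_r.2]
  simp only [Matrix.cons_val_zero, Matrix.cons_val_one]
  ring

theorem fec_tr' (D : Dat L M) (z : M) : algebraMap L M (Algebra.trace L M z) = z + D.cj z := by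
  rw [fec_tr D, D.cj_apply, map_mul, map_ofNat]
  linear_combination -(D.eq_ca_cb z)

theorem fec_z1 (x : 𝓞 L × 𝓞 L) : ((z1_m D x : 𝓞 M) : M) = algebraMap L M (x.1 : L) + algebraMap L M (x.2 : L) * ((D.r - 7) / 2) := rfl

/-- the trace of `M/L` of the pairing -/
theorem fec_rel {m : ℕ} (hm : 0 < m) (x y : 𝓞 L × 𝓞 L) :
    Algebra.trace L M (zD D m y * ((z1_m D x : 𝓞 M) : M)) = ((sB x y : 𝓞 L) : L) / (m : L) := by
  have hm' : (m : M) ≠ 0 := by exact_mod_cast hm.ne'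
  have hr := fec_r D
  apply (algebraMap L M).injective
  rw [fec_tr' D]
  have e1 : ((sB x y : 𝓞 L) : L) = (x.1 : L) * (y.2 : L) - (x.2 : L) * (y.1 : L) := rfl
  rw [map_mul, zD, map_div₀, map_neg, map_mul, D.cj_r, D.cj_cj, map_natCast, map_div₀, map_natCast, e1, map_sub, map_mul, map_mul,
    fec_z1, fec_z1]
  have hc : ∀ v : 𝓞 L × 𝓞 L, D.cj (algebraMap L M (v.1 : L) + algebraMap L M (v.2 : L) * ((D.r - 7) / 2)) =
      algebraMap L M (v.1 : L) + algebraMap L M (v.2 : L) * ((-D.r - 7) / 2) := by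
    intro v
    rw [map_add, map_mul, AlgHom.commutes, AlgHom.commutes, map_div₀, map_sub, D.cj_r, map_ofNat, map_ofNat]
  rw [hc, hc]
  field_simp
  ring

/-- [FC] `Tr_{M/L} (x conj(y)/(-√-7)) = B(x, y)` for `x₁ + x₂ ω`, `y₁ + y₂ ω` -/
theorem zD_trace {m : ℕ} (hm : 0 < m) (x y : 𝓞 L × 𝓞 L) :
    trR (((sB x y : 𝓞 L) : L) / (m : L)) = trR (zD D m y * ((z1_m D x : 𝓞 M) : M)) := by
  rw [trR, trR, ← fec_rel (D := D) hm, Algebra.trace_trace]

theorem fec_surj (D : Dat L M) (c : 𝓞 M) : ∃ x : 𝓞 L × 𝓞 L, z1_m D x = c := by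
  obtain ⟨a, b, h⟩ := D.om_repr c
  exact ⟨(a, b), h.symm⟩

/-- rational version -/
theorem fec_traceQ {m : ℕ} (hm : 0 < m) (x y : 𝓞 L × 𝓞 L) :
    Algebra.trace ℚ M (zD D m y * ((z1_m D x : 𝓞 M) : M)) = Algebra.trace ℚ L (((sB x y : 𝓞 L) : L) / (m : L)) := by
  rw [← Algebra.trace_trace (S := L), fec_rel hm]

theorem inD_iff {n m : ℕ} (hm : 0 < m) (y : 𝓞 L × 𝓞 L) : inD n m y ↔ zD D m y ∈ dualL (span {((n : ℕ) : 𝓞 M)}) := by
  have hsm : ∀ x : 𝓞 L × 𝓞 L, z1_m D (((n : ℕ) : 𝓞 L) • x) = z1_m D x * ((n : ℕ) : 𝓞 M) := by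
    intro x
    rw [z1_m_smul, map_natCast, mul_comm]
  constructor
  · rintro ⟨h1, h2⟩ a ha
    obtain ⟨c, rfl⟩ := Ideal.mem_span_singleton'.mp ha
    obtain ⟨x, rfl⟩ := fec_surj D c
    rw [← hsm, fec_traceQ hm]
    obtain ⟨k1, hk1⟩ := h1 (x.2 * ((n : ℕ) : 𝓞 L)) (Ideal.mem_span_singleton'.mpr ⟨_, rfl⟩)
    obtain ⟨k2, hk2⟩ := h2 (x.1 * ((n : ℕ) : 𝓞 L)) (Ideal.mem_span_singleton'.mpr ⟨_, rfl⟩)
    refine ⟨k2 - k1, ?_⟩
    push_cast
    rw [← hk1, ← hk2, ← map_sub]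
    congr 1
    have e : ((sB (((n : ℕ) : 𝓞 L) • x) y : 𝓞 L) : L) = ((((n : ℕ) : 𝓞 L) : L) * (x.1 : L)) * (y.2 : L) - ((((n : ℕ) : 𝓞 L) : L) * (x.2 : L)) * (y.1 : L) := rfl
    have e1 : ((x.1 * ((n : ℕ) : 𝓞 L) : 𝓞 L) : L) = (x.1 : L) * (((n : ℕ) : 𝓞 L) : L) := rfl
    have e2 : ((x.2 * ((n : ℕ) : 𝓞 L) : 𝓞 L) : L) = (x.2 : L) * (((n : ℕ) : 𝓞 L) : L) := rfl
    rw [e, e1, e2]
    ring
  · intro h
    have key : ∀ x : 𝓞 L × 𝓞 L, ∃ k : ℤ, Algebra.trace ℚ L (((sB (((n : ℕ) : 𝓞 L) • x) y : 𝓞 L) : L) / (m : L)) = k := by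
      intro x
      rw [← fec_traceQ (D := D) hm, hsm]
      exact h _ (Ideal.mem_span_singleton'.mpr ⟨_, rfl⟩)
    constructor
    · intro a ha
      obtain ⟨c, rfl⟩ := Ideal.mem_span_singleton'.mp ha
      obtain ⟨k, hk⟩ := key (0, c)
      refine ⟨-k, ?_⟩
      rw [Int.cast_neg, ← hk, ← map_neg]
      congr 1
      have e : ((sB (((n : ℕ) : 𝓞 L) • ((0 : 𝓞 L), c)) y : 𝓞 L) : L) = ((((n : ℕ) : 𝓞 L) : L) * ((0 : 𝓞 L) : L)) * (y.2 : L) - ((((n : ℕ) : 𝓞 L) : L) * (c : L)) * (y.1 : L) := rfl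
      have e1 : ((c * ((n : ℕ) : 𝓞 L) : 𝓞 L) : L) = (c : L) * (((n : ℕ) : 𝓞 L) : L) := rfl
      have e0 : ((0 : 𝓞 L) : L) = 0 := rfl
      rw [e, e1, e0]
      ring
    · intro a ha
      obtain ⟨c, rfl⟩ := Ideal.mem_span_singleton'.mp ha
      obtain ⟨k, hk⟩ := key (c, 0)
      refine ⟨k, ?_⟩
      rw [← hk]
      congr 1
      have e : ((sB (((n : ℕ) : 𝓞 L) • (c, (0 : 𝓞 L))) y : 𝓞 L) : L) = ((((n : ℕ) : 𝓞 L) : L) * (c : L)) * (y.2 : L) - ((((n : ℕ) : 𝓞 L) : L) * ((0 : 𝓞 L) : L)) * (y.1 : L) := rfl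
      have e1 : ((c * ((n : ℕ) : 𝓞 L) : 𝓞 L) : L) = (c : L) * (((n : ℕ) : 𝓞 L) : L) := rfl
      have e0 : ((0 : 𝓞 L) : L) = 0 := rfl
      rw [e, e1, e0]
      ring

end

end TRZ
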