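import Pool.Agent.TRZ.FEDefs

set_option autoImplicit false
set_option linter.unusedSectionVars false

open NumberField Ideal IsDedekindDomain
open scoped Real Classical ComplexConjugate nonZeroDivisors
open TR TRG TRP

/-! # [ALL2-FDa] the value at `1` of the series of a Hecke character -/

namespace TRZ

section
variable {M : Type} [Field M] [NumberField M]

theorem fea_pow (J : Ideal (𝓞 M)) : ∃ x : 𝓞 M, J ^ classNumber M = span {x} := by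
  by_cases hJ : J = ⊥
  · refine ⟨0, ?_⟩
    have h1 : classNumber M ≠ 0 := (classNumber_pos M).ne'
    rw [hJ, ← Ideal.zero_eq_bot, zero_pow h1, Ideal.span_singleton_zero, Ideal.zero_eq_bot]
  · have h1 : ClassGroup.mk0 (⟨J, mem_nonZeroDivisors_of_ne_zero hJ⟩ ^ classNumber M : (Ideal (𝓞 M))⁰) = 1 := by
      rw [map_pow, classNumber]
      exact pow_card_eq_one
    rw [ClassGroup.mk0_eq_one_iff] at h1
    obtain ⟨x, hx⟩ := h1.principal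
    exact ⟨x, hx⟩

theorem fea_one {𝔣 : Ideal (𝓞 M)} {W : 𝓞 M → ℤ} (h : PQ 𝔣 W) : W 1 = 1 := by
  have h1 : W 1 = W 1 * W 1 := by
    conv_lhs => rw [← mul_one (1 : 𝓞 M), h.mul]
  rcases h.val 1 with h2 | h2 | h2
  · exfalso
    obtain ⟨P, -, hP⟩ := (h.zero 1).1 h2
    exact P.isPrime.ne_top ((Ideal.eq_top_iff_one _).2 hP)
  · exact h2
  · rw [h2] at h1
    norm_num at h1

end

section
variable {L M : Type} [Field L] [NumberField L] [Field M] [NumberField M] [Algebra L M] [IsTotallyReal L] {D : Dat L M}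

theorem fea_NK_zero (D : Dat L M) : D.NK ((0 : 𝓞 M) : M) = 0 := by
  have h1 := D.absNorm_span (0 : 𝓞 M)
  rw [Ideal.span_singleton_eq_bot.2 rfl, Ideal.absNorm_bot, Nat.cast_zero] at h1
  have h3 := pow_eq_zero_iff two_ne_zero |>.1 h1.symm
  exact norm_eq_zero.1 h3

section
variable {𝔣 : Ideal (𝓞 M)} {W : 𝓞 M → ℤ} {Φ : Ideal (𝓞 M) →*₀ ℂ} (H : HC D 𝔣 W Φ)
include H

theorem HC.fea_prime {P : HeightOneSpectrum (𝓞 M)} (hP : 𝔣 ≤ P.asIdeal) : Φ P.asIdeal = 0 := by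
  obtain ⟨x, hx⟩ := fea_pow P.asIdeal
  have hn : classNumber M ≠ 0 := (classNumber_pos M).ne'
  have hx0 : x ≠ 0 := by
    rintro rfl
    rw [Ideal.span_singleton_eq_bot.2 rfl] at hx
    exact P.ne_bot (pow_eq_zero_iff hn |>.1 hx)
  have hxP : x ∈ P.asIdeal := by
    have h1 : x ∈ P.asIdeal ^ classNumber M := by
      rw [hx]
      exact Ideal.mem_span_singleton_self _
    exact Ideal.pow_le_self hn h1
  have h2 : W x = 0 := (H.pq.zero x).2 ⟨P, hP, hxP⟩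
  have h3 : Φ P.asIdeal ^ classNumber M = 0 := by
    rw [← map_pow, hx, H.span_eq x hx0, h2]
    simp
  exact pow_eq_zero_iff hn |>.1 h3

theorem HC.fea_zero {I : Ideal (𝓞 M)} (hI : ¬ IsCoprime I 𝔣) : Φ I = 0 := by
  by_cases hI0 : I = ⊥
  · rw [hI0, ← Ideal.zero_eq_bot, map_zero]
  have h1 : I ⊔ 𝔣 ≠ ⊤ := fun h => hI (Ideal.isCoprime_iff_sup_eq.2 h)
  obtain ⟨m, hm, hle⟩ := Ideal.exists_le_maximal _ h1
  have hm0 : m ≠ ⊥ := by
    rintro rfl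
    exact hI0 (le_bot_iff.1 (le_sup_left.trans hle))
  have h2 : Φ m = 0 := H.fea_prime (P := ⟨m, hm.isPrime, hm0⟩) (le_sup_right.trans hle)
  obtain ⟨J, hJ⟩ := Ideal.dvd_iff_le.2 (le_sup_left.trans hle : I ≤ m)
  rw [hJ, map_mul, h2, zero_mul]

theorem HC.fea_norm_le (I : Ideal (𝓞 M)) : ‖Φ I‖ ^ 2 ≤ absNorm I := by
  by_cases hI : IsCoprime I 𝔣
  · exact (H.norm_eq I hI).le
  · rw [H.fea_zero hI, norm_zero, zero_pow two_ne_zero]
    exact Nat.cast_nonneg _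

/-- the values at the elements of `L × L` -/
theorem HC.hch : HCh D Φ (fun x => W (z1_m D x)) where
  span_eq x := by
    by_cases hx : z1_m D x = 0
    · rw [hx, Ideal.span_singleton_eq_bot.2 rfl, ← Ideal.zero_eq_bot, map_zero, fea_NK_zero, mul_zero]
    · rw [H.span_eq _ hx, mul_comm]
  norm_le := H.fea_norm_le

theorem HC.fea_unit (u : (𝓞 L)ˣ) : W (algebraMap (𝓞 L) (𝓞 M) (u : 𝓞 L)) = Algebra.norm ℤ (u : 𝓞 L) := by
  have h1 : (algebraMap (𝓞 L) (𝓞 M) (u : 𝓞 L)) ≠ 0 := (u.isUnit.map (algebraMap (𝓞 L) (𝓞 M))).ne_zero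
  have h2 := H.span_eq _ h1
  rw [Ideal.span_singleton_eq_top.2 (u.isUnit.map (algebraMap (𝓞 L) (𝓞 M))), ← Ideal.one_eq_top, map_one,
    NK_unit] at h2
  have h3 : (1 : ℤ) = Algebra.norm ℤ (u : 𝓞 L) * W (algebraMap (𝓞 L) (𝓞 M) (u : 𝓞 L)) := by exact_mod_cast h2
  rcases Int.isUnit_iff.1 (u.isUnit.map (Algebra.norm ℤ)) with h4 | h4
  · rw [h4, one_mul] at h3
    rw [h4, ← h3]
  · rw [h4] at h3
    rw [h4]
    linarith

/-- the weight `uW` -/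
theorem HC.fea_ow {n : ℕ} (hn0 : 0 < n) {𝔯 : Ideal (𝓞 M)} (hn : ((n : ℕ) : 𝓞 M) ∈ 𝔣 * 𝔯) : OW n (uW D W 𝔯) where
  pos := hn0
  per x y := by
    have h1 : z1_m D (x + (n : 𝓞 L) • y) = z1_m D x + ((n : ℕ) : 𝓞 M) * z1_m D y := by
      rw [← TT.a1_omMap, ← TT.a1_omMap, ← TT.a1_omMap, map_add, map_smul, Algebra.smul_def, map_natCast]
    have hr : ((n : ℕ) : 𝓞 M) * z1_m D y ∈ 𝔯 := 𝔯.mul_mem_right _ (Ideal.mul_le_right hn)
    have hf : ((n : ℕ) : 𝓞 M) * z1_m D y ∈ 𝔣 := 𝔣.mul_mem_right _ (Ideal.mul_le_left hn)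
    have h2 : x + (n : 𝓞 L) • y ∈ D.Lb 𝔯 ↔ x ∈ D.Lb 𝔯 := by
      rw [D.mem_Lb, D.mem_Lb]
      show z1_m D (x + (n : 𝓞 L) • y) ∈ 𝔯 ↔ z1_m D x ∈ 𝔯
      rw [h1]
      exact Ideal.add_mem_iff_left _ hr
    unfold uW
    simp only [h2, h1, H.pq.per _ _ hf]
  unit u x := by
    have h1 := z1_m_smul D (u : 𝓞 L) x
    have hu : IsUnit (algebraMap (𝓞 L) (𝓞 M) (u : 𝓞 L)) := u.isUnit.map _
    have h3 : (u : 𝓞 L) • x ∈ D.Lb 𝔯 ↔ x ∈ D.Lb 𝔯 := by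
      rw [D.mem_Lb, D.mem_Lb]
      show z1_m D ((u : 𝓞 L) • x) ∈ 𝔯 ↔ z1_m D x ∈ 𝔯
      rw [h1]
      exact Ideal.unit_mul_mem_iff_mem _ hu
    unfold uW
    simp only [h3, h1, H.pq.mul, H.fea_unit]
    split_ifs
    · rfl
    · ring

/-- [FDa] the value (from `value_one'`, `w = 1`, `g = 1`) -/
theorem HC.value (hg : Odd (Module.finrank ℚ L)) (r : ClassGroup (𝓞 M) → Ideal (𝓞 M)) (hr : ∀ k, r k ≠ ⊥) (hrc : ∀ k, IsCoprime (r k) 𝔣)
    (hb : Function.Bijective fun k => ClassGroup.mk0 ⟨r k, mem_nonZeroDivisors_of_ne_zero (hr k)⟩)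
    {n : ClassGroup (𝓞 M) → ℕ} (hn0 : ∀ k, 0 < n k) (hn : ∀ k, ((n k : ℕ) : 𝓞 M) ∈ 𝔣 * r k) {Z : ℂ → ℂ} (hZd : Differentiable ℂ Z)
    (hZ : ∀ t : ℂ, 3 / 2 < t.re → Z t = ∑' I : Ideal (𝓞 M), conj (Φ I) * (absNorm I : ℂ) ^ (-t)) :
    Z 1 = ∑ k, Φ (r k) * Ec (n k) (uW D W (r k)) tau0 0 := by
  have hrn : ∀ k, Φ (r k) * conj (Φ (r k)) = (absNorm (r k) : ℂ) := by
    intro k
    rw [Complex.mul_conj, Complex.normSq_eq_norm_sq, H.norm_eq (r k) (hrc k)]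
    push_cast
    rfl
  have e : ∀ k, (fun x => if x ∈ D.Lb (r k) then W (z1_m D x) * (1 : ℤ) else 0) = uW D W (r k) := by
    intro k
    funext x
    unfold uW
    rw [mul_one]
  have h1 := value_one' H.hch hg (w := fun _ => 1) (B := 1) (fun I => by simp) r hr hrn hb (g := fun _ _ => 1)
    (fun k I x hx hI => rfl) (n := n) (fun k => by
      show OW (n k) (fun x => if x ∈ D.Lb (r k) then W (z1_m D x) * (1 : ℤ) else 0)
      rw [e k]
      exact H.fea_ow (hn0 k) (hn k)) hZd (fun s hs => by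
      rw [hZ s hs]
      exact tsum_congr fun I => by simp)
  rw [h1]
  exact Finset.sum_congr rfl fun k _ => by
    show Φ (r k) * Ec (n k) (fun x => if x ∈ D.Lb (r k) then W (z1_m D x) * (1 : ℤ) else 0) tau0 0 = _
    rw [e k]

end

end

end TRZ
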