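import Pool.Agent.TRZ.FEA1
import Pool.Agent.TR.A7e

set_option autoImplicit false
set_option linter.unusedSectionVars false

open NumberField Ideal IsDedekindDomain
open scoped Real Classical ComplexConjugate nonZeroDivisors
open TR TRG TRP

/-! # [ALL2-FDb] the ideals `rhoI` -/

namespace TRZ

section
variable {M : Type} [Field M] [NumberField M]

/-- the dual lattice is the inverse of `𝔞 𝔡` -/
theorem fb_dual {𝔞 : Ideal (𝓞 M)} (h : 𝔞 ≠ ⊥) {z : M} :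
    z ∈ dualL 𝔞 ↔ ∀ y ∈ 𝔞 * differentIdeal ℤ (𝓞 M), ∃ c : 𝓞 M, z * (y : M) = c := by
  have hd : differentIdeal ℤ (𝓞 M) ≠ ⊥ := differentIdeal_ne_bot
  have h1 : FractionalIdeal.dual ℤ ℚ (𝔞 : FractionalIdeal (𝓞 M)⁰ M) =
      ((𝔞 * differentIdeal ℤ (𝓞 M) : Ideal (𝓞 M)) : FractionalIdeal (𝓞 M)⁰ M)⁻¹ := by
    rw [FractionalIdeal.dual_eq_mul_inv, FractionalIdeal.coeIdeal_mul, coeIdeal_differentIdeal ℤ ℚ, mul_inv, inv_inv,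
      mul_comm]
  have h2 : ((𝔞 * differentIdeal ℤ (𝓞 M) : Ideal (𝓞 M)) : FractionalIdeal (𝓞 M)⁰ M) ≠ 0 := by
    rw [Ne, FractionalIdeal.coeIdeal_eq_zero]
    exact mul_ne_zero h hd
  rw [← fa_mem_dual h, h1, FractionalIdeal.mem_inv_iff h2]
  constructor
  · intro h3 y hy
    obtain ⟨c, hc⟩ := (FractionalIdeal.mem_one_iff _).1 (h3 (y : M) ((FractionalIdeal.mem_coeIdeal _).2 ⟨y, hy, rfl⟩))
    exact ⟨c, hc.symm⟩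
  · intro h3 x hx
    obtain ⟨y, hy, rfl⟩ := (FractionalIdeal.mem_coeIdeal _).1 hx
    obtain ⟨c, hc⟩ := h3 y hy
    exact (FractionalIdeal.mem_one_iff _).2 ⟨c, hc.symm⟩

end

section
variable {L M : Type} [Field L] [NumberField L] [Field M] [NumberField M] [Algebra L M] [IsTotallyReal L] {D : Dat L M}

theorem fb_r_ne (D : Dat L M) : D.r ≠ 0 := by
  intro h
  have h1 := D.hr
  rw [h] at h1
  norm_num at h1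

/-- the different of `M` -/
theorem fb_different (D : Dat L M) : differentIdeal ℤ (𝓞 M) =
    span {D.rr} * (differentIdeal ℤ (𝓞 L)).map (algebraMap (𝓞 L) (𝓞 M)) := by
  rw [← a7e_different D]
  exact differentIdeal_eq_differentIdeal_mul_differentIdeal ℤ (𝓞 L) (𝓞 M)

/-- the dual lattice of `𝔞` in terms of the different of `L` -/
theorem fb_dual' (D : Dat L M) {𝔞 : Ideal (𝓞 M)} (h : 𝔞 ≠ ⊥) {z : M} : z ∈ dualL 𝔞 ↔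
    ∀ y ∈ 𝔞 * (differentIdeal ℤ (𝓞 L)).map (algebraMap (𝓞 L) (𝓞 M)), ∃ c : 𝓞 M, z * D.r * (y : M) = c := by
  rw [fb_dual h, fb_different D]
  have e : 𝔞 * (span {D.rr} * (differentIdeal ℤ (𝓞 L)).map (algebraMap (𝓞 L) (𝓞 M))) =
      span {D.rr} * (𝔞 * (differentIdeal ℤ (𝓞 L)).map (algebraMap (𝓞 L) (𝓞 M))) := by
    rw [← mul_assoc, mul_comm 𝔞, mul_assoc]
  rw [e]
  constructor
  · intro h1 y hy
    obtain ⟨c, hc⟩ := h1 (D.rr * y) (Ideal.mul_mem_mul (mem_span_singleton_self _) hy)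
    refine ⟨c, ?_⟩
    rw [← hc]
    have e1 : ((D.rr * y : 𝓞 M) : M) = D.r * (y : M) := by
      rw [← a7e_coe_rr D]
      rfl
    rw [e1]
    ring
  · intro h1 x hx
    obtain ⟨y, hy, rfl⟩ := Ideal.mem_span_singleton_mul.1 hx
    obtain ⟨c, hc⟩ := h1 y hy
    refine ⟨c, ?_⟩
    rw [← hc]
    have e1 : ((D.rr * y : 𝓞 M) : M) = D.r * (y : M) := by
      rw [← a7e_coe_rr D]
      rfl
    rw [e1]
    ring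

theorem mem_rhoI {m : ℕ} (hm : 0 < m) {𝔞 : Ideal (𝓞 M)} (h : 𝔞 ≠ ⊥) {a : 𝓞 M} : a ∈ rhoI D m 𝔞 ↔
    ∀ y ∈ 𝔞 * (differentIdeal ℤ (𝓞 L)).map (algebraMap (𝓞 L) (𝓞 M)), a * y ∈ span {((m : ℕ) : 𝓞 M)} := by
  have h0 : (m : M) ≠ 0 := by exact_mod_cast hm.ne'
  have hr := fb_r_ne D
  change (a : M) / ((m : M) * D.r) ∈ dualL 𝔞 ↔ _
  rw [fb_dual' D h]
  refine forall₂_congr fun y _ => ?_
  rw [Ideal.mem_span_singleton']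
  refine exists_congr fun c => ?_
  have e : (a : M) / ((m : M) * D.r) * D.r * (y : M) = ((a * y : 𝓞 M) : M) / (m : M) := by
    push_cast
    field_simp
  rw [e, div_eq_iff h0]
  constructor
  · intro h1
    apply RingOfIntegers.ext
    rw [h1]
    push_cast
    rfl
  · intro h1
    rw [← h1]
    push_cast
    rfl

/-- `rhoI` is the quotient of `m` by `𝔞 𝔡_L` -/
theorem rhoI_eq' {m : ℕ} (hm : 0 < m) {𝔞 𝔟 : Ideal (𝓞 M)} (ha : 𝔞 ≠ ⊥)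
    (h : 𝔟 * 𝔞 * (differentIdeal ℤ (𝓞 L)).map (algebraMap (𝓞 L) (𝓞 M)) = span {((m : ℕ) : 𝓞 M)}) : rhoI D m 𝔞 = 𝔟 := by
  set 𝔠 : Ideal (𝓞 M) := 𝔞 * (differentIdeal ℤ (𝓞 L)).map (algebraMap (𝓞 L) (𝓞 M)) with h𝔠
  have h' : 𝔟 * 𝔠 = span {((m : ℕ) : 𝓞 M)} := by rw [h𝔠, ← mul_assoc, h]
  have hc : 𝔠 ≠ 0 := by
    intro h1
    rw [h1, mul_zero] at h'
    exact nat_ne hm h'.symm
  ext a
  rw [mem_rhoI hm ha, ← h𝔠, ← h']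
  constructor
  · intro h1
    have h2 : span {a} * 𝔠 ≤ 𝔟 * 𝔠 := by
      rw [Ideal.span_singleton_mul_le_iff]
      exact h1
    have h3 : 𝔟 * 𝔠 ∣ span {a} * 𝔠 := Ideal.dvd_iff_le.2 h2
    have h4 : 𝔟 ∣ span {a} := (mul_dvd_mul_iff_right hc).1 h3
    exact (Ideal.dvd_span_singleton).1 h4
  · intro h1 y hy
    exact Ideal.mul_mem_mul h1 hy

theorem rhoI_eq {m : ℕ} (hm : 0 < m) {𝔞 : Ideal (𝓞 M)} (ha : 𝔞 ≠ ⊥)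
    (h : ∃ 𝔟 : Ideal (𝓞 M), 𝔟 * 𝔞 * (differentIdeal ℤ (𝓞 L)).map (algebraMap (𝓞 L) (𝓞 M)) = span {((m : ℕ) : 𝓞 M)}) :
    rhoI D m 𝔞 * 𝔞 * (differentIdeal ℤ (𝓞 L)).map (algebraMap (𝓞 L) (𝓞 M)) = span {((m : ℕ) : 𝓞 M)} := by
  obtain ⟨𝔟, h⟩ := h
  rw [rhoI_eq' hm ha h, h]

/-- `m √-7 z` is integral if `z` is in the dual lattice and `𝔞 𝔡_L` divides `m` -/
theorem dual_exists {m : ℕ} (D : Dat L M) {𝔞 : Ideal (𝓞 M)} (ha : 𝔞 ≠ ⊥)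
    (h : ∃ 𝔟 : Ideal (𝓞 M), 𝔟 * 𝔞 * (differentIdeal ℤ (𝓞 L)).map (algebraMap (𝓞 L) (𝓞 M)) = span {((m : ℕ) : 𝓞 M)})
    {z : M} (hz : z ∈ dualL 𝔞) : ∃ a : 𝓞 M, (a : M) = (m : M) * D.r * z := by
  obtain ⟨𝔟, h⟩ := h
  have h1 : ((m : ℕ) : 𝓞 M) ∈ 𝔞 * (differentIdeal ℤ (𝓞 L)).map (algebraMap (𝓞 L) (𝓞 M)) := by
    rw [mul_assoc] at h
    have h3 : ∀ 𝔠 : Ideal (𝓞 M), 𝔟 * 𝔠 = span {((m : ℕ) : 𝓞 M)} → ((m : ℕ) : 𝓞 M) ∈ 𝔠 := by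
      intro 𝔠 hc
      have h2 : ((m : ℕ) : 𝓞 M) ∈ 𝔟 * 𝔠 := by
        rw [hc]
        exact mem_span_singleton_self _
      exact (Ideal.mul_le_right : 𝔟 * 𝔠 ≤ 𝔠) h2
    exact h3 _ h
  obtain ⟨c, hc⟩ := (fb_dual' D ha).1 hz _ h1
  refine ⟨c, ?_⟩
  rw [← hc]
  push_cast
  ring

/-- the same for elements of the ideal: `z = a/(m √-7)`, `a ∈ rhoI` -/
theorem dual_exists' {m : ℕ} (hm : 0 < m) {𝔞 : Ideal (𝓞 M)} (ha : 𝔞 ≠ ⊥)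
    (h : ∃ 𝔟 : Ideal (𝓞 M), 𝔟 * 𝔞 * (differentIdeal ℤ (𝓞 L)).map (algebraMap (𝓞 L) (𝓞 M)) = span {((m : ℕ) : 𝓞 M)})
    {z : M} (hz : z ∈ dualL 𝔞) : ∃ a ∈ rhoI D m 𝔞, z = (a : M) / ((m : M) * D.r) := by
  obtain ⟨a, ha'⟩ := dual_exists D ha h hz
  have h0 : (m : M) ≠ 0 := by exact_mod_cast hm.ne'
  have hr := fb_r_ne D
  have h1 : z = (a : M) / ((m : M) * D.r) := by
    rw [ha']
    field_simp
  refine ⟨a, ?_, h1⟩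
  change (a : M) / ((m : M) * D.r) ∈ dualL 𝔞
  rw [← h1]
  exact hz

/-- [FDb] the ideals `rhoI` = `m (𝔞 𝔡_L)⁻¹` -/
theorem rhoI_mul {m : ℕ} (hm : 0 < m) {𝔞 𝔯 : Ideal (𝓞 M)} (ha : 𝔞 ≠ ⊥) (hr : 𝔯 ≠ ⊥) (h : ∃ 𝔟 : Ideal (𝓞 M), 𝔟 * (𝔞 * 𝔯) * (differentIdeal ℤ (𝓞 L)).map (algebraMap (𝓞 L) (𝓞 M)) = span {((m : ℕ) : 𝓞 M)}) :
    rhoI D m (𝔞 * 𝔯) * 𝔯 = rhoI D m 𝔞 := by
  obtain ⟨𝔟, h⟩ := h
  have h1 : 𝔟 * 𝔯 * 𝔞 * (differentIdeal ℤ (𝓞 L)).map (algebraMap (𝓞 L) (𝓞 M)) = span {((m : ℕ) : 𝓞 M)} := by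
    rw [← h]
    ring
  rw [rhoI_eq' hm (mul_ne_zero ha hr) h, rhoI_eq' hm ha h1]

/-- [FDb] -/
theorem rhoI_scale {m m' : ℕ} (hm : 0 < m) (hm' : 0 < m') {𝔞 : Ideal (𝓞 M)} (ha : 𝔞 ≠ ⊥)
    (h : ∃ 𝔟 : Ideal (𝓞 M), 𝔟 * 𝔞 * (differentIdeal ℤ (𝓞 L)).map (algebraMap (𝓞 L) (𝓞 M)) = span {((m : ℕ) : 𝓞 M)}) :
    rhoI D (m * m') 𝔞 = span {((m' : ℕ) : 𝓞 M)} * rhoI D m 𝔞 := by
  obtain ⟨𝔟, h⟩ := h
  have h1 : span {((m' : ℕ) : 𝓞 M)} * 𝔟 * 𝔞 * (differentIdeal ℤ (𝓞 L)).map (algebraMap (𝓞 L) (𝓞 M)) =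
      span {((m * m' : ℕ) : 𝓞 M)} := by
    rw [mul_assoc, mul_assoc, ← mul_assoc 𝔟, h, Ideal.span_singleton_mul_span_singleton, Nat.cast_mul, mul_comm]
  rw [rhoI_eq' (Nat.mul_pos hm hm') ha h1, rhoI_eq' hm ha h]

/-- [FDb] -/
theorem rhoI_norm {m : ℕ} (hm : 0 < m) {𝔞 : Ideal (𝓞 M)} (ha : 𝔞 ≠ ⊥)
    (h : ∃ 𝔟 : Ideal (𝓞 M), 𝔟 * 𝔞 * (differentIdeal ℤ (𝓞 L)).map (algebraMap (𝓞 L) (𝓞 M)) = span {((m : ℕ) : 𝓞 M)}) :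
    (absNorm (rhoI D m 𝔞) : ℂ) * ((absNorm 𝔞 : ℂ) * (discr L : ℂ) ^ 2) = (m : ℂ) ^ (2 * Module.finrank ℚ L) := by
  have h1 := congrArg absNorm (rhoI_eq (D := D) hm ha h)
  have h2 : Module.finrank ℚ M = 2 * Module.finrank ℚ L := by
    rw [← Module.finrank_mul_finrank ℚ L M, D.finrank_eq_two, mul_comm]
  have h3 : absNorm (span {((m : ℕ) : 𝓞 M)}) = m ^ (2 * Module.finrank ℚ L) := by
    rw [absNorm_span_singleton, ← h2]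
    have h4 : Algebra.norm ℤ ((m : ℕ) : 𝓞 M) = (m : ℤ) ^ Module.finrank ℚ M := by
      rw [Algebra.norm_natCast, RingOfIntegers.rank]
    rw [h4, Int.natAbs_pow, Int.natAbs_natCast]
  rw [map_mul, map_mul, h3, Ideal.absNorm_algebraMap, absNorm_differentIdeal L (𝓞 L)] at h1
  have h6 : Module.finrank (𝓞 L) (𝓞 M) = 2 := by
    rw [← D.finrank_eq_two]
    exact (IsFractionRing.finrank_eq (𝓞 L) L (𝓞 M) M).symm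
  rw [h6] at h1
  have h7 : ((discr L : ℂ)) ^ 2 = (((discr L).natAbs ^ 2 : ℕ) : ℂ) := by
    have h8 : (((discr L).natAbs ^ 2 : ℕ) : ℤ) = discr L ^ 2 := by
      push_cast
      exact sq_abs _
    rw [← Int.cast_natCast, h8]
    push_cast
    rfl
  rw [h7, ← Nat.cast_mul, ← Nat.cast_mul, ← mul_assoc, h1]
  push_cast
  rfl

/-- [FDb] every level can be enlarged: `FEp`, `DW` for `m` in the form of `HC.exists_dw` satisfy the divisibility of `rhoI_mul`; recorded here as: `dual(n) m ⊆ 𝓞 L`, `n ∈ 𝔣 𝔯` imply it -/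
theorem div_of_int {n m : ℕ} (hn0 : 0 < n) (hm : 0 < m) {𝔞 : Ideal (𝓞 M)} (ha : 𝔞 ≠ ⊥) (hn : ((n : ℕ) : 𝓞 M) ∈ 𝔞)
    (hi : ∀ ν : L, ν ∈ dualL (span {((n : ℕ) : 𝓞 L)}) → ∃ a : 𝓞 L, (a : L) = (m : L) * ν) :
    ∃ 𝔟 : Ideal (𝓞 M), 𝔟 * 𝔞 * (differentIdeal ℤ (𝓞 L)).map (algebraMap (𝓞 L) (𝓞 M)) = span {((m : ℕ) : 𝓞 M)} := by
  have hI : span {((n : ℕ) : 𝓞 L)} ≠ ⊥ := nat_ne hn0
  have hd : differentIdeal ℤ (𝓞 L) ≠ ⊥ := differentIdeal_ne_bot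
  set 𝔤 : Ideal (𝓞 L) := span {((n : ℕ) : 𝓞 L)} * differentIdeal ℤ (𝓞 L) with h𝔤
  have h2 : (𝔤 : FractionalIdeal (𝓞 L)⁰ L) ≠ 0 := by
    rw [Ne, FractionalIdeal.coeIdeal_eq_zero]
    exact mul_ne_zero hI hd
  -- `m` is in `n 𝔡`
  have h1 : ((m : ℕ) : 𝓞 L) ∈ 𝔤 := by
    have h3 : FractionalIdeal.spanSingleton (𝓞 L)⁰ (m : L) * (𝔤 : FractionalIdeal (𝓞 L)⁰ L)⁻¹ ≤ 1 := by
      rw [FractionalIdeal.spanSingleton_mul_le_iff]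
      intro ν hν
      rw [FractionalIdeal.mem_inv_iff h2] at hν
      have h4 : ν ∈ dualL (span {((n : ℕ) : 𝓞 L)}) := by
        rw [fb_dual hI]
        intro y hy
        obtain ⟨c, hc⟩ := (FractionalIdeal.mem_one_iff _).1 (hν (y : L) ((FractionalIdeal.mem_coeIdeal _).2 ⟨y, hy, rfl⟩))
        exact ⟨c, hc.symm⟩
      obtain ⟨a, ha⟩ := hi ν h4
      exact (FractionalIdeal.mem_one_iff _).2 ⟨a, ha⟩
    have h5 : FractionalIdeal.spanSingleton (𝓞 L)⁰ (m : L) ≤ (𝔤 : FractionalIdeal (𝓞 L)⁰ L) := by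
      have h6 := mul_le_mul_left h3 (𝔤 : FractionalIdeal (𝓞 L)⁰ L)
      rwa [mul_assoc, inv_mul_cancel₀ h2, mul_one, one_mul] at h6
    have h7 := h5 (FractionalIdeal.mem_spanSingleton_self _ _)
    obtain ⟨a, ha', h8⟩ := (FractionalIdeal.mem_coeIdeal _).1 h7
    have h9 : a = ((m : ℕ) : 𝓞 L) := by
      apply RingOfIntegers.ext
      rw [show ((a : 𝓞 L) : L) = algebraMap (𝓞 L) L a from rfl, h8]
      push_cast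
      rfl
    rwa [h9] at ha'
  have h3 : 𝔞 * (differentIdeal ℤ (𝓞 L)).map (algebraMap (𝓞 L) (𝓞 M)) ∣ span {((m : ℕ) : 𝓞 M)} := by
    have h4 : 𝔤 ∣ span {((m : ℕ) : 𝓞 L)} := Ideal.dvd_span_singleton.2 h1
    have h5 : 𝔤.map (algebraMap (𝓞 L) (𝓞 M)) ∣ (span {((m : ℕ) : 𝓞 L)}).map (algebraMap (𝓞 L) (𝓞 M)) := by
      obtain ⟨𝔧, h6⟩ := h4
      exact ⟨𝔧.map (algebraMap (𝓞 L) (𝓞 M)), by rw [h6, Ideal.map_mul]⟩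
    rw [Ideal.map_span, Set.image_singleton, map_natCast, h𝔤, Ideal.map_mul, Ideal.map_span, Set.image_singleton,
      map_natCast] at h5
    have h6 : 𝔞 ∣ span {((n : ℕ) : 𝓞 M)} := Ideal.dvd_span_singleton.2 hn
    exact (mul_dvd_mul_right h6 _).trans h5
  obtain ⟨𝔟, h4⟩ := h3
  refine ⟨𝔟, ?_⟩
  rw [h4]
  ring

end

end TRZ
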