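import Pool.Agent.TRZ.FEB1
import Pool.Agent.TRZ.FEDb
import Pool.Agent.TRP.X
import Pool.Agent.TR.U6

/-! # [FE-Dc] the key identity -/

set_option autoImplicit false
set_option linter.unusedSectionVars false

open NumberField Ideal IsDedekindDomain
open scoped Real Classical ComplexConjugate
open TR TRG TRP

namespace TRZ

section
variable {M : Type} [Field M] [NumberField M] {𝔣 : Ideal (𝓞 M)}

theorem fdc_mul (x y : 𝓞 M) : ((x * y : 𝓞 M) : M) = (x : M) * (y : M) := map_mul (algebraMap (𝓞 M) M) _ _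
theorem fdc_sub (x y : 𝓞 M) : ((x - y : 𝓞 M) : M) = (x : M) - (y : M) := map_sub (algebraMap (𝓞 M) M) _ _
theorem fdc_one : ((1 : 𝓞 M) : M) = 1 := map_one (algebraMap (𝓞 M) M)
theorem fdc_nat (n : ℕ) : (((n : ℕ) : 𝓞 M) : M) = (n : M) := map_natCast (algebraMap (𝓞 M) M) n

/-- the dual of `𝓞` is the intersection of the duals of two coprime ideals -/
theorem fdc_dual {𝔯 : Ideal (𝓞 M)} (hc : IsCoprime 𝔯 𝔣) {z : M} (h1 : z ∈ dualL 𝔯) (h2 : z ∈ dualL 𝔣) : z ∈ dualL (⊤ : Ideal (𝓞 M)) := by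
  obtain ⟨r, hr, f, hf, hrf⟩ := Ideal.isCoprime_iff_exists.1 hc
  intro a _
  obtain ⟨k, hk⟩ := h1 (r * a) (𝔯.mul_mem_right _ hr)
  obtain ⟨l, hl⟩ := h2 (f * a) (𝔣.mul_mem_right _ hf)
  refine ⟨k + l, ?_⟩
  push_cast
  rw [← hk, ← hl, ← map_add]
  congr 1
  have h4 : (r : M) + (f : M) = 1 := by
    have h5 := congrArg (fun x : 𝓞 M => (x : M)) hrf
    rw [show (1 : M) = ((1 : 𝓞 M) : M) from (map_one _).symm, ← h5]
    exact (map_add _ _ _).symm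
  rw [show ((r * a : 𝓞 M) : M) = (r : M) * (a : M) from map_mul _ _ _,
    show ((f * a : 𝓞 M) : M) = (f : M) * (a : M) from map_mul _ _ _]
  linear_combination (-(z * (a : M))) * h4

/-- `PZ.key` with `y ≠ 0` -/
theorem PZ.key2 {z₀ : M} (hz : PZ 𝔣 z₀) {𝔯 : Ideal (𝓞 M)} (hr : 𝔯 ≠ ⊥) (hc : IsCoprime 𝔯 𝔣) :
    ∃ y ∈ 𝔣 * 𝔯 * dfM M, y ≠ 0 ∧ ∃ f ∈ 𝔣, z₀ * (y : M) + (f : M) = 1 := by
  have hf := hz.ne_bot
  obtain ⟨y, hy, f, hf', h⟩ := hz.key hf hc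
  by_cases h0 : y = 0
  · have hf1 : (1 : 𝓞 M) ∈ 𝔣 := by
      have h1 : f = 1 := by
        apply RingOfIntegers.ext
        rw [h0, show ((0 : 𝓞 M) : M) = 0 from map_zero _, mul_zero, zero_add] at h
        rw [h]
        exact (map_one _).symm
      rwa [h1] at hf'
    have hJ : 𝔣 * 𝔯 * dfM M ≠ ⊥ := mul_ne_zero (mul_ne_zero hf hr) dfM_ne
    obtain ⟨w, hw, hw0⟩ := Submodule.exists_mem_ne_zero_of_ne_bot hJ
    obtain ⟨c, hc'⟩ := (feb_dual hf).1 hz.mem w (Ideal.mul_mono_left Ideal.mul_le_left hw)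
    refine ⟨w, hw, hw0, 1 - c, ?_, ?_⟩
    · rw [(Ideal.eq_top_iff_one _).2 hf1]
      exact Submodule.mem_top
    · rw [hc', fdc_sub, fdc_one]
      ring
  · exact ⟨y, hy, h0, f, hf', h⟩

end

section
variable {L M : Type} [Field L] [NumberField L] [Field M] [NumberField M] [Algebra L M] [IsTotallyReal L] {D : Dat L M}
variable {𝔣 : Ideal (𝓞 M)} {W : 𝓞 M → ℤ} {Φ : Ideal (𝓞 M) →*₀ ℂ} (H : HC D 𝔣 W Φ)
include H

/-- [FDc] **the key identity** -/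
theorem HC.key {z₀ : M} (hz : PZ 𝔣 z₀) {m₀ : ℕ} (hm₀ : 0 < m₀) {a₀ : 𝓞 M} (ha₀ : z₀ = -(a₀ : M) / ((m₀ : M) * D.r)) {J₀ : Ideal (𝓞 M)}
    (hJ₀ : J₀ * rhoI D m₀ 𝔣 = span {a₀}) (hd₀ : ∃ 𝔟 : Ideal (𝓞 M), 𝔟 * 𝔣 * (differentIdeal ℤ (𝓞 L)).map (algebraMap (𝓞 L) (𝓞 M)) = span {((m₀ : ℕ) : 𝓞 M)})
    {𝔯 : Ideal (𝓞 M)} (hr : 𝔯 ≠ ⊥) (hc : IsCoprime 𝔯 𝔣) {m : ℕ} (hm : 0 < m)
    (hd : ∃ 𝔟 : Ideal (𝓞 M), 𝔟 * (𝔣 * 𝔯) * (differentIdeal ℤ (𝓞 L)).map (algebraMap (𝓞 L) (𝓞 M)) = span {((m : ℕ) : 𝓞 M)})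
    {y : 𝓞 L × 𝓞 L} (hy : y ≠ 0) {J' : Ideal (𝓞 M)} (hJ' : J' * rhoI D m (𝔣 * 𝔯) = span {D.cjO (z1_m D y)})
    {t : 𝓞 M} (ht : zD D m y - (t : M) * z₀ ∈ dualL 𝔯) :
    Φ J' * D.NK z₀ = (W t : ℂ) * D.NK (zD D m y) * Φ 𝔯 * Φ J₀ := by
  have hf := hz.ne_bot
  have hfr : 𝔣 * 𝔯 ≠ ⊥ := mul_ne_zero hf hr
  have hm0M : (m₀ : M) ≠ 0 := by exact_mod_cast hm₀.ne'
  have hmM : (m : M) ≠ 0 := by exact_mod_cast hm.ne'
  have hrM : D.r ≠ 0 := fb_r_ne D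
  set b : 𝓞 M := D.cjO (z1_m D y) with hb
  have hbz : zD D m y = -(b : M) / ((m : M) * D.r) := rfl
  set z : M := zD D m y with hzdef
  set 𝔡 : Ideal (𝓞 M) := (differentIdeal ℤ (𝓞 L)).map (algebraMap (𝓞 L) (𝓞 M)) with h𝔡
  have hρ₀ : rhoI D m₀ 𝔣 * 𝔣 * 𝔡 = span {((m₀ : ℕ) : 𝓞 M)} := rhoI_eq hm₀ hf hd₀
  have hρ : rhoI D m (𝔣 * 𝔯) * (𝔣 * 𝔯) * 𝔡 = span {((m : ℕ) : 𝓞 M)} := rhoI_eq hm hfr hd
  -- `z` is in the dual lattice of `𝔣 𝔯`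
  have hbρ : b ∈ rhoI D m (𝔣 * 𝔯) := by
    have h1 : span {b} ≤ rhoI D m (𝔣 * 𝔯) := by
      rw [← hJ']
      exact Ideal.mul_le_right
    exact h1 (Ideal.mem_span_singleton_self b)
  have hzmem : z ∈ dualL (𝔣 * 𝔯) := by
    rw [hbz, neg_div]
    exact AddSubgroup.neg_mem _ hbρ
  have hb0 : b ≠ 0 := by
    intro h0
    have h1 : D.cjO b = 0 := by rw [h0, map_zero]
    rw [hb, u6_cjO_cjO D] at h1
    exact z1_m_ne D hy h1
  have hbM : (b : M) ≠ 0 := RingOfIntegers.coe_ne_zero_iff.2 hb0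
  obtain ⟨w, hw, hw0, f, hf', hwf⟩ := hz.key2 hr hc
  have hwM : (w : M) ≠ 0 := RingOfIntegers.coe_ne_zero_iff.2 hw0
  -- `c = z₀ w = 1 - f`, `e = z w`
  obtain ⟨e, he⟩ := (feb_dual hfr).1 hzmem w hw
  have hc1 : z₀ * (w : M) = ((1 - f : 𝓞 M) : M) := by
    rw [fdc_sub, fdc_one]
    linear_combination hwf
  have hz0 : z ≠ 0 := by
    rw [hbz]
    exact div_ne_zero (neg_ne_zero.2 hbM) (mul_ne_zero hmM hrM)
  have hc0 : (1 - f : 𝓞 M) ≠ 0 := by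
    intro h0
    rw [h0, show ((0 : 𝓞 M) : M) = 0 from map_zero _] at hc1
    exact mul_ne_zero hz.ne hwM hc1
  have he0 : e ≠ 0 := by
    intro h0
    rw [h0, show ((0 : 𝓞 M) : M) = 0 from map_zero _] at he
    exact mul_ne_zero hz0 hwM he
  -- `W e = W t`
  have het : e - t ∈ 𝔣 := by
    rw [← hz.mem_iff hf]
    refine fdc_dual hc ?_ (feb_mul hz.mem _)
    have h1 : z - (e : M) * z₀ ∈ dualL 𝔯 := by
      have h2 : z - (e : M) * z₀ = z * (f : M) := by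
        rw [← he]
        linear_combination (-z) * hwf
      rw [h2]
      refine fun a ha => ?_
      obtain ⟨k, hk⟩ := hzmem (f * a) (Ideal.mul_mem_mul hf' ha)
      refine ⟨k, ?_⟩
      rw [← hk, mul_assoc]
      rfl
    have h3 : z₀ * ((e - t : 𝓞 M) : M) = (z - (t : M) * z₀) - (z - (e : M) * z₀) := by
      rw [show ((e - t : 𝓞 M) : M) = (e : M) - (t : M) from map_sub _ _ _]
      ring
    rw [h3]
    exact AddSubgroup.sub_mem _ ht h1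
  have hWe : W e = W t := by
    have h1 := H.pq.per t _ het
    rwa [add_sub_cancel] at h1
  have hWc : W (1 - f) = 1 := by
    have h1 := H.pq.per 1 (-f) (𝔣.neg_mem hf')
    rw [← sub_eq_add_neg] at h1
    rw [h1, H.pq.one]
  -- the ideals
  have hideal : span {(1 - f : 𝓞 M)} * J' = span {e} * (𝔯 * J₀) := by
    have e1 : (1 - f) * b * ((m₀ : ℕ) : 𝓞 M) = e * a₀ * ((m : ℕ) : 𝓞 M) := by
      apply RingOfIntegers.ext
      have h1 : ((((1 - f) * b * ((m₀ : ℕ) : 𝓞 M) : 𝓞 M)) : M) = ((1 - f : 𝓞 M) : M) * (b : M) * (m₀ : M) := by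
        rw [fdc_mul, fdc_mul, fdc_nat]
      have h2 : (((e * a₀ * ((m : ℕ) : 𝓞 M) : 𝓞 M)) : M) = (e : M) * (a₀ : M) * (m : M) := by
        rw [fdc_mul, fdc_mul, fdc_nat]
      rw [h1, h2, ← hc1, ← he, ha₀, hbz]
      field_simp
    have h1 : span {(1 - f : 𝓞 M)} * J' * (span {((m : ℕ) : 𝓞 M)} * span {((m₀ : ℕ) : 𝓞 M)}) =
        span {e} * (𝔯 * J₀) * (span {((m : ℕ) : 𝓞 M)} * span {((m₀ : ℕ) : 𝓞 M)}) := by
      have h2 : J' * span {((m : ℕ) : 𝓞 M)} = span {b} * (𝔣 * 𝔯 * 𝔡) := by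
        rw [← hρ, ← hJ']
        ring
      have h3 : J₀ * span {((m₀ : ℕ) : 𝓞 M)} = span {a₀} * (𝔣 * 𝔡) := by
        rw [← hρ₀, ← hJ₀]
        ring
      calc span {(1 - f : 𝓞 M)} * J' * (span {((m : ℕ) : 𝓞 M)} * span {((m₀ : ℕ) : 𝓞 M)})
          = span {(1 - f : 𝓞 M)} * (J' * span {((m : ℕ) : 𝓞 M)}) * span {((m₀ : ℕ) : 𝓞 M)} := by ring
        _ = (span {(1 - f : 𝓞 M)} * span {b} * span {((m₀ : ℕ) : 𝓞 M)}) * (𝔣 * 𝔯 * 𝔡) := by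
          rw [h2]
          ring
        _ = (span {e} * span {a₀} * span {((m : ℕ) : 𝓞 M)}) * (𝔣 * 𝔯 * 𝔡) := by
          rw [Ideal.span_singleton_mul_span_singleton, Ideal.span_singleton_mul_span_singleton, e1,
            ← Ideal.span_singleton_mul_span_singleton, ← Ideal.span_singleton_mul_span_singleton]
        _ = span {e} * 𝔯 * (span {a₀} * (𝔣 * 𝔡)) * span {((m : ℕ) : 𝓞 M)} := by ring
        _ = span {e} * (𝔯 * J₀) * (span {((m : ℕ) : 𝓞 M)} * span {((m₀ : ℕ) : 𝓞 M)}) := by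
          rw [← h3]
          ring
    refine mul_right_cancel₀ (mul_ne_zero ?_ ?_) h1
    · rw [Ne, Ideal.zero_eq_bot, Ideal.span_singleton_eq_bot]
      exact_mod_cast hm.ne'
    · rw [Ne, Ideal.zero_eq_bot, Ideal.span_singleton_eq_bot]
      exact_mod_cast hm₀.ne'
  have h1 := congrArg Φ hideal
  rw [map_mul, map_mul, map_mul, H.span_eq _ hc0, H.span_eq _ he0, hWc, hWe, ← hc1, ← he, D.NK_mul, D.NK_mul] at h1
  have hNK : D.NK (w : M) ≠ 0 := x_NK_ne D hw0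
  refine mul_left_cancel₀ hNK ?_
  push_cast at h1
  linear_combination h1

end

end TRZ
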