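import Pool.Agent.TRZ.FEDa
import Pool.Agent.TRZ.FEDc

set_option autoImplicit false
set_option linter.unusedSectionVars false

open NumberField Ideal IsDedekindDomain
open scoped Real Classical ComplexConjugate nonZeroDivisors
open TR TRG TRP

/-! # [ALL2-FDd] the dual series -/

namespace TRZ

section
variable {L M : Type} [Field L] [NumberField L] [Field M] [NumberField M] [Algebra L M] [IsTotallyReal L] {D : Dat L M}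

/-- a series over the ideals as a sum of series over the lattices of the classes -/
theorem fed_decomp {F : Ideal (𝓞 M) → ℂ} (hsum : Summable F) (h0 : F ⊥ = 0) (r : ClassGroup (𝓞 M) → Ideal (𝓞 M)) (hr : ∀ k, r k ≠ ⊥)
    (hb : Function.Bijective fun k => ClassGroup.mk0 ⟨r k, mem_nonZeroDivisors_of_ne_zero (hr k)⟩)
    {G : ClassGroup (𝓞 M) → 𝓞 L × 𝓞 L → ℂ}
    (hG : ∀ k I (x : 𝓞 L × 𝓞 L), x ∈ D.Lb (r k) → x ≠ 0 → r k * I = span {z1_m D x} → F I = G k x)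
    (hG0 : ∀ k (x : 𝓞 L × 𝓞 L), x ∉ D.Lb (r k) → G k x = 0) :
    ∑' I : Ideal (𝓞 M), F I = ∑ k, ∑' x : {x : 𝓞 L × 𝓞 L // x ∈ RR L}, G k x.1 := by
  -- the bijection
  let Z : Type := Σ k : ClassGroup (𝓞 M), {x : 𝓞 L × 𝓞 L // x ∈ D.Lb (r k) ∧ x ∈ RR L}
  have hex : ∀ z : Z, ∃ I : Ideal (𝓞 M), r z.1 * I = span {z1_m D z.2.1} :=
    fun z => z1_dvd z.2.2.1
  choose Φ hΦ using hex
  have hx0 : ∀ z : Z, z.2.1 ≠ 0 := fun z => RR_ne_zero z.2.2.2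
  have hΦ0 : ∀ z : Z, Φ z ≠ ⊥ := by
    intro z h0
    have h1 := hΦ z
    rw [h0, Ideal.mul_bot] at h1
    exact z1_m_ne D (hx0 z) (Ideal.span_singleton_eq_bot.mp h1.symm)
  have hcls : ∀ (k : ClassGroup (𝓞 M)) (I : Ideal (𝓞 M)) (hI : I ≠ ⊥),
      (r k * I).IsPrincipal ↔
        ClassGroup.mk0 ⟨r k, mem_nonZeroDivisors_of_ne_zero (hr k)⟩ *
          ClassGroup.mk0 ⟨I, mem_nonZeroDivisors_of_ne_zero hI⟩ = 1 := by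
    intro k I hI
    rw [← map_mul, ← ClassGroup.mk0_eq_one_iff (mul_mem (mem_nonZeroDivisors_of_ne_zero (hr k))
      (mem_nonZeroDivisors_of_ne_zero hI))]
    rfl
  have hinj : Function.Injective fun z : Z => (⟨Φ z, hΦ0 z⟩ : {I : Ideal (𝓞 M) // I ≠ ⊥}) := by
    rintro ⟨k, x⟩ ⟨k', x'⟩ h
    have h1 : Φ ⟨k, x⟩ = Φ ⟨k', x'⟩ := congrArg Subtype.val h
    have h2 := hΦ ⟨k, x⟩
    have h3 := hΦ ⟨k', x'⟩
    rw [← h1] at h3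
    have h4 := (hcls k _ (hΦ0 ⟨k, x⟩)).mp ⟨⟨_, h2⟩⟩
    have h5 := (hcls k' _ (hΦ0 ⟨k, x⟩)).mp ⟨⟨_, h3⟩⟩
    have h6 : k = k' := hb.1 (mul_right_cancel (h4.trans h5.symm))
    subst h6
    have h7 : x.1 = x'.1 := z1_same x.2.2 x'.2.2 (h2.symm.trans h3)
    rw [Subtype.ext h7]
  have hsurj : Function.Surjective
      fun z : Z => (⟨Φ z, hΦ0 z⟩ : {I : Ideal (𝓞 M) // I ≠ ⊥}) := by
    rintro ⟨I, hI⟩
    obtain ⟨k, hk⟩ := hb.2 (ClassGroup.mk0 ⟨I, mem_nonZeroDivisors_of_ne_zero hI⟩)⁻¹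
    have h1 : (r k * I).IsPrincipal := by
      rw [hcls k I hI]
      have h2 : ClassGroup.mk0 ⟨r k, mem_nonZeroDivisors_of_ne_zero (hr k)⟩ =
          (ClassGroup.mk0 ⟨I, mem_nonZeroDivisors_of_ne_zero hI⟩)⁻¹ := hk
      rw [h2, inv_mul_cancel]
    obtain ⟨x, hxL, hxR, hx⟩ := z1_ex (D := D) (hr k) hI h1
    refine ⟨⟨k, ⟨x, hxL, hxR⟩⟩, ?_⟩
    apply Subtype.ext
    exact mul_left_cancel₀ (hr k) ((hΦ ⟨k, ⟨x, hxL, hxR⟩⟩).trans hx.symm)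
  let e : Z ≃ {I : Ideal (𝓞 M) // I ≠ ⊥} := Equiv.ofBijective _ ⟨hinj, hsurj⟩
  have hsupp : ∑' I : Ideal (𝓞 M), F I = ∑' I : {I : Ideal (𝓞 M) // I ≠ ⊥}, F I.1 := by
    symm
    apply tsum_subtype_eq_of_support_subset (s := {I : Ideal (𝓞 M) | I ≠ ⊥})
    intro I hI
    by_contra h1
    have h2 : I = ⊥ := not_not.mp h1
    apply hI
    rw [h2, h0]
  have hFe : ∀ z : Z, F (e z).1 = G z.1 z.2.1 := by
    intro z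
    exact hG z.1 (Φ z) z.2.1 z.2.2.1 (hx0 z) (hΦ z)
  have hse : Summable fun z : Z => F (e z).1 :=
    (e.summable_iff (f := fun I : {I : Ideal (𝓞 M) // I ≠ ⊥} => F I.1)).mpr
      (hsum.subtype _)
  rw [hsupp, ← e.tsum_eq (fun I : {I : Ideal (𝓞 M) // I ≠ ⊥} => F I.1), hse.tsum_sigma,
    tsum_fintype]
  refine Finset.sum_congr rfl fun k _ => ?_
  have hRR : ∑' x : {x : 𝓞 L × 𝓞 L // x ∈ RR L}, G k x.1 =
      ∑' x : {x : 𝓞 L × 𝓞 L // x ∈ D.Lb (r k) ∧ x ∈ RR L}, G k x.1 := by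
    have h2 := tsum_subtype (RR L) (fun x : 𝓞 L × 𝓞 L => G k x)
    have h1 := tsum_subtype ({x : 𝓞 L × 𝓞 L | x ∈ D.Lb (r k) ∧ x ∈ RR L}) (fun x : 𝓞 L × 𝓞 L => G k x)
    refine h2.trans (Eq.trans ?_ h1.symm)
    refine tsum_congr fun x => ?_
    by_cases hx : x ∈ RR L
    · rw [Set.indicator_of_mem hx]
      by_cases hL : x ∈ D.Lb (r k)
      · rw [Set.indicator_of_mem (show x ∈ {x : 𝓞 L × 𝓞 L | x ∈ D.Lb (r k) ∧ x ∈ RR L} from ⟨hL, hx⟩)]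
      · rw [Set.indicator_of_notMem (fun h => hL h.1)]
        exact hG0 k x hL
    · rw [Set.indicator_of_notMem hx, Set.indicator_of_notMem (fun h => hx h.2)]
  rw [hRR]
  exact tsum_congr fun x => hFe ⟨k, x⟩

/-! ## the norm `NK` -/

theorem fed_NK_div (D : Dat L M) (x y : M) : D.NK (x / y) = D.NK x / D.NK y := by
  unfold Dat.NK
  rw [← Finset.prod_div_distrib]
  exact Finset.prod_congr rfl fun j _ => map_div₀ _ _ _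

theorem fed_NK_nat (D : Dat L M) (m : ℕ) : D.NK (m : M) = (m : ℂ) ^ Module.finrank ℚ L := by
  unfold Dat.NK
  rw [Finset.prod_congr rfl fun j _ => map_natCast (D.emb j) m, Finset.prod_const, Finset.card_univ, card_real]

theorem fed_NK_neg (D : Dat L M) (hg : Odd (Module.finrank ℚ L)) (x : M) : D.NK (-x) = -D.NK x := by
  unfold Dat.NK
  rw [Finset.prod_congr rfl fun j _ => map_neg (D.emb j) x, Finset.prod_neg, Finset.card_univ, card_real, hg.neg_one_pow, neg_one_mul]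

theorem fed_NK_cj (D : Dat L M) (x : M) : D.NK (D.cj x) = conj (D.NK x) := by
  unfold Dat.NK
  rw [map_prod]
  exact Finset.prod_congr rfl fun j _ => D.emb_cj j x

theorem fed_NK_r (D : Dat L M) : conj (D.NK D.r) * D.NK D.r = 7 ^ Module.finrank ℚ L := by
  rw [← fed_NK_cj, ← D.NK_mul, D.cj_r]
  have h1 : -D.r * D.r = ((7 : ℕ) : M) := by
    have := D.hr
    push_cast
    linear_combination -this
  rw [h1, fed_NK_nat]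
  norm_num

theorem fed_NK_zD (D : Dat L M) (hg : Odd (Module.finrank ℚ L)) (m : ℕ) (y : 𝓞 L × 𝓞 L) :
    D.NK (zD D m y) = -(conj (D.NK ((z1_m D y : 𝓞 M) : M))) / ((m : ℂ) ^ Module.finrank ℚ L * D.NK D.r) := by
  unfold zD
  rw [fed_NK_div, fed_NK_neg D hg, fed_NK_cj, D.NK_mul, fed_NK_nat]

theorem fed_NK_ne (D : Dat L M) {x : M} (hx : x ≠ 0) : D.NK x ≠ 0 := by
  unfold Dat.NK
  exact Finset.prod_ne_zero_iff.2 fun j _ => (map_ne_zero _).2 hx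

/-! ## the ideals `rhoI` -/

theorem fed_mem (m : ℕ) {𝔞 : Ideal (𝓞 M)} (x : 𝓞 L × 𝓞 L) :
    x ∈ D.Lb ((rhoI D m 𝔞).map D.cjO) ↔ zD D m x ∈ dualL 𝔞 := by
  rw [D.mem_Lb, u6_map_eq_comap, Ideal.mem_comap]
  show (((D.cjO (z1_m D x) : 𝓞 M) : M) / ((m : M) * D.r) ∈ dualL 𝔞) ↔ _
  unfold zD
  rw [D.coe_cjO, neg_div]
  constructor
  · intro h y hy
    obtain ⟨n, hn⟩ := h y hy
    refine ⟨-n, ?_⟩
    rw [neg_mul, map_neg, hn]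
    push_cast
    rfl
  · intro h y hy
    obtain ⟨n, hn⟩ := h y hy
    refine ⟨-n, ?_⟩
    rw [neg_mul, map_neg] at hn
    push_cast
    linear_combination -hn

theorem fed_ne {m : ℕ} (hm : 0 < m) {𝔞 : Ideal (𝓞 M)} (ha : 𝔞 ≠ ⊥)
    (h : ∃ 𝔟 : Ideal (𝓞 M), 𝔟 * 𝔞 * (differentIdeal ℤ (𝓞 L)).map (algebraMap (𝓞 L) (𝓞 M)) = span {((m : ℕ) : 𝓞 M)}) :
    rhoI D m 𝔞 ≠ ⊥ := by
  intro h1
  have h2 := rhoI_norm (D := D) hm ha h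
  rw [h1, Ideal.absNorm_bot, Nat.cast_zero, zero_mul] at h2
  have h3 : (m : ℂ) ≠ 0 := by exact_mod_cast hm.ne'
  exact pow_ne_zero _ h3 h2.symm

/-- the classes of the conjugates of the ideals `rhoI` -/
theorem fed_bij {𝔣 : Ideal (𝓞 M)} (hf : 𝔣 ≠ ⊥) {m₀ : ℕ} (hm₀ : 0 < m₀)
    (hd₀ : ∃ 𝔟 : Ideal (𝓞 M), 𝔟 * 𝔣 * (differentIdeal ℤ (𝓞 L)).map (algebraMap (𝓞 L) (𝓞 M)) = span {((m₀ : ℕ) : 𝓞 M)})
    (r : ClassGroup (𝓞 M) → Ideal (𝓞 M)) (hr : ∀ k, r k ≠ ⊥)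
    (hb : Function.Bijective fun k => ClassGroup.mk0 ⟨r k, mem_nonZeroDivisors_of_ne_zero (hr k)⟩)
    {m : ClassGroup (𝓞 M) → ℕ} (hm : ∀ k, 0 < m k)
    (hd : ∀ k, ∃ 𝔟 : Ideal (𝓞 M), 𝔟 * (𝔣 * r k) * (differentIdeal ℤ (𝓞 L)).map (algebraMap (𝓞 L) (𝓞 M)) = span {((m k : ℕ) : 𝓞 M)})
    (h0 : ∀ k, (rhoI D (m k) (𝔣 * r k)).map D.cjO ≠ ⊥) :
    Function.Bijective fun k => ClassGroup.mk0 ⟨(rhoI D (m k) (𝔣 * r k)).map D.cjO, mem_nonZeroDivisors_of_ne_zero (h0 k)⟩ := by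
  have hd' : ∀ k, ∃ 𝔟 : Ideal (𝓞 M), 𝔟 * 𝔣 * (differentIdeal ℤ (𝓞 L)).map (algebraMap (𝓞 L) (𝓞 M)) = span {((m k : ℕ) : 𝓞 M)} := by
    intro k
    obtain ⟨b, hb⟩ := hd k
    exact ⟨b * r k, by rw [← hb]; ring⟩
  have h1 : ∀ k, rhoI D (m k) (𝔣 * r k) * r k = rhoI D (m k) 𝔣 := fun k => rhoI_mul (hm k) hf (hr k) (hd k)
  have h2 : ∀ k, span {((m₀ : ℕ) : 𝓞 M)} * rhoI D (m k) 𝔣 = span {((m k : ℕ) : 𝓞 M)} * rhoI D m₀ 𝔣 := by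
    intro k
    rw [← rhoI_scale (hm k) hm₀ hf (hd' k), ← rhoI_scale hm₀ (hm k) hf hd₀, mul_comm]
  refine Finite.injective_iff_bijective.1 ?_
  intro k k' hkk
  apply hb.1
  have h3 := ClassGroup.mk0_eq_mk0_iff.1 hkk
  obtain ⟨x, y, hx, hy, hxy⟩ := h3
  have hxy' : span {x} * (rhoI D (m k) (𝔣 * r k)).map D.cjO = span {y} * (rhoI D (m k') (𝔣 * r k')).map D.cjO := hxy
  have h4 := congrArg (Ideal.map D.cjO) hxy'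
  rw [Ideal.map_mul, Ideal.map_mul, Ideal.map_span, Ideal.map_span, Set.image_singleton, Set.image_singleton,
    u6_map_map, u6_map_map] at h4
  have hcj : ∀ x : 𝓞 M, x ≠ 0 → D.cjO x ≠ 0 := by
    intro x hx h
    apply hx
    have h5 := congrArg D.cjO h
    rwa [u6_cjO_cjO, map_zero] at h5
  have hmn : ∀ k, ((m k : ℕ) : 𝓞 M) ≠ 0 := fun k => Nat.cast_ne_zero.2 (hm k).ne'
  refine ClassGroup.mk0_eq_mk0_iff.2 ⟨D.cjO y * ((m k' : ℕ) : 𝓞 M), D.cjO x * ((m k : ℕ) : 𝓞 M),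
    mul_ne_zero (hcj y hy) (hmn k'), mul_ne_zero (hcj x hx) (hmn k), ?_⟩
  show span {D.cjO y * ((m k' : ℕ) : 𝓞 M)} * r k = span {D.cjO x * ((m k : ℕ) : 𝓞 M)} * r k'
  have hA0 : span {((m₀ : ℕ) : 𝓞 M)} ≠ (0 : Ideal (𝓞 M)) := by
    rw [Ne, Ideal.zero_eq_bot, Ideal.span_singleton_eq_bot]
    exact Nat.cast_ne_zero.2 hm₀.ne'
  have hne : rhoI D (m k') (𝔣 * r k') ≠ (0 : Ideal (𝓞 M)) := fed_ne (hm k') (mul_ne_zero hf (hr k')) (hd k')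
  have hne2 : rhoI D m₀ 𝔣 ≠ (0 : Ideal (𝓞 M)) := fed_ne hm₀ hf hd₀
  have hne1 : rhoI D (m k) (𝔣 * r k) ≠ (0 : Ideal (𝓞 M)) := fed_ne (hm k) (mul_ne_zero hf (hr k)) (hd k)
  have hyne : span {D.cjO y} ≠ (0 : Ideal (𝓞 M)) := by
    rw [Ne, Ideal.zero_eq_bot, Ideal.span_singleton_eq_bot]
    exact hcj y hy
  -- multiply with `ρ_k ρ_k' m₀`
  rw [← Ideal.span_singleton_mul_span_singleton, ← Ideal.span_singleton_mul_span_singleton]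
  refine mul_left_cancel₀ hA0 (mul_left_cancel₀ hne (mul_left_cancel₀ hne1 ?_))
  have e1 := h2 k
  have e2 := h2 k'
  rw [← h1 k] at e1
  rw [← h1 k'] at e2
  calc rhoI D (m k) (𝔣 * r k) * (rhoI D (m k') (𝔣 * r k') * (span {((m₀ : ℕ) : 𝓞 M)} *
        (span {D.cjO y} * span {((m k' : ℕ) : 𝓞 M)} * r k)))
      = (span {((m₀ : ℕ) : 𝓞 M)} * (rhoI D (m k) (𝔣 * r k) * r k)) * span {((m k' : ℕ) : 𝓞 M)} *
          (span {D.cjO y} * rhoI D (m k') (𝔣 * r k')) := by ring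
    _ = (span {((m k' : ℕ) : 𝓞 M)} * rhoI D m₀ 𝔣) * span {((m k : ℕ) : 𝓞 M)} *
          (span {D.cjO x} * rhoI D (m k) (𝔣 * r k)) := by rw [e1, h4]; ring
    _ = _ := by rw [← e2]; ring

section
variable {𝔣 : Ideal (𝓞 M)} {W : 𝓞 M → ℤ} {Φ : Ideal (𝓞 M) →*₀ ℂ} (H : HC D 𝔣 W Φ)
include H

/-- the term of the dual series -/
theorem HC.fed_term {z₀ : M} (hz : PZ 𝔣 z₀) {m₀ : ℕ} (hm₀ : 0 < m₀) {a₀ : 𝓞 M} (ha₀ : z₀ = -(a₀ : M) / ((m₀ : M) * D.r)) {J₀ : Ideal (𝓞 M)}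
    (hJ₀ : J₀ * rhoI D m₀ 𝔣 = span {a₀}) (hd₀ : ∃ 𝔟 : Ideal (𝓞 M), 𝔟 * 𝔣 * (differentIdeal ℤ (𝓞 L)).map (algebraMap (𝓞 L) (𝓞 M)) = span {((m₀ : ℕ) : 𝓞 M)})
    (hg : Odd (Module.finrank ℚ L)) {𝔯 : Ideal (𝓞 M)} (hr : 𝔯 ≠ ⊥) (hc : IsCoprime 𝔯 𝔣) {m : ℕ} (hm : 0 < m)
    (hd : ∃ 𝔟 : Ideal (𝓞 M), 𝔟 * (𝔣 * 𝔯) * (differentIdeal ℤ (𝓞 L)).map (algebraMap (𝓞 L) (𝓞 M)) = span {((m : ℕ) : 𝓞 M)})
    {v : 𝓞 L × 𝓞 L → ℤ} (hv : DW D 𝔣 𝔯 W z₀ m v) {y : 𝓞 L × 𝓞 L} (hy : y ≠ 0) (hyL : y ∈ D.Lb ((rhoI D m (𝔣 * 𝔯)).map D.cjO))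
    {I : Ideal (𝓞 M)} (hI : (rhoI D m (𝔣 * 𝔯)).map D.cjO * I = span {z1_m D y}) (hJ : Φ J₀ ≠ 0) (s : ℂ) :
    -(D.NK z₀ * (absNorm 𝔣 : ℂ) * (discr L : ℂ) ^ 2 * 7 ^ Module.finrank ℚ L / (Φ J₀ * conj (D.NK D.r))) *
        (Φ (I.map D.cjO) * (absNorm I : ℂ) ^ (-(1 + s))) =
      Φ 𝔯 * ((m : ℂ) ^ Module.finrank ℚ L / (absNorm 𝔯 : ℂ)) * (absNorm (rhoI D m (𝔣 * 𝔯)) : ℂ) ^ s *
        ((v y : ℂ) * KK y tau0 s) := by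
  obtain ⟨t, ht, hvt⟩ := hv.eq y ((fed_mem m y).1 hyL)
  have hJ' : I.map D.cjO * rhoI D m (𝔣 * 𝔯) = span {D.cjO (z1_m D y)} := by
    have h1 := congrArg (Ideal.map D.cjO) hI
    rw [Ideal.map_mul, u6_map_map, Ideal.map_span, Set.image_singleton] at h1
    rw [mul_comm, h1]
  have key := H.key hz hm₀ ha₀ hJ₀ hd₀ hr hc hm hd hy hJ' ht
  have hf0 : 𝔣 ≠ ⊥ := H.pq.ne
  set w : ℂ := D.NK ((z1_m D y : 𝓞 M) : M) with hw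
  have hz1 : z1_m D y ≠ 0 := z1_m_ne D hy
  have hw1 : w ≠ 0 := fed_NK_ne D (fun h => hz1 (RingOfIntegers.ext h))
  have hwp : 0 < ‖w‖ := norm_pos_iff.mpr hw1
  have hρ := fed_ne (D := D) hm (mul_ne_zero hf0 hr) hd
  have hnorm := rhoI_norm (D := D) hm (mul_ne_zero hf0 hr) hd
  have hN : (absNorm (rhoI D m (𝔣 * 𝔯)) : ℝ) * (absNorm I : ℝ) = ‖w‖ ^ 2 := by
    rw [← D.absNorm_span, ← hI, map_mul, u6_absNorm]
    push_cast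
    rfl
  have hρ0 : (absNorm (rhoI D m (𝔣 * 𝔯)) : ℝ) ≠ 0 := by
    have := (Ideal.absNorm_eq_zero_iff (I := rhoI D m (𝔣 * 𝔯))).not.mpr hρ
    exact_mod_cast this
  have hI0' : (absNorm I : ℝ) ≠ 0 := by
    intro h0
    rw [h0, mul_zero] at hN
    exact (pow_ne_zero 2 hwp.ne') hN.symm
  have hρc : (absNorm (rhoI D m (𝔣 * 𝔯)) : ℂ) ≠ 0 := by exact_mod_cast hρ0
  have htm : KK y tau0 s = w⁻¹ * ((‖w‖ : ℝ) : ℂ) ^ (-2 * s) := z1_KK D y s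
  -- powers
  have hpow : (absNorm (rhoI D m (𝔣 * 𝔯)) : ℂ) ^ (-(1 + s)) * (absNorm I : ℂ) ^ (-(1 + s)) =
      ((‖w‖ : ℝ) : ℂ) ^ (-2 * s) * (((‖w‖ : ℝ) : ℂ) ^ 2)⁻¹ := by
    rw [← Complex.natCast_mul_natCast_cpow]
    have h2 : ((absNorm (rhoI D m (𝔣 * 𝔯)) : ℂ) * (absNorm I : ℂ)) = ((‖w‖ : ℝ) : ℂ) * ((‖w‖ : ℝ) : ℂ) := by
      have h3 : ((absNorm (rhoI D m (𝔣 * 𝔯)) : ℂ) * (absNorm I : ℂ)) = (((absNorm (rhoI D m (𝔣 * 𝔯)) : ℝ) * (absNorm I : ℝ) : ℝ) : ℂ) := by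
        push_cast
        rfl
      rw [h3, hN, sq]
      push_cast
      rfl
    have hwc : ((‖w‖ : ℝ) : ℂ) ≠ 0 := by exact_mod_cast hwp.ne'
    rw [h2, Complex.mul_cpow_ofReal_nonneg hwp.le hwp.le, ← Complex.cpow_add _ _ hwc,
      show -(1 + s) + -(1 + s) = -2 * s + (-2 : ℂ) by ring, Complex.cpow_add _ _ hwc,
      Complex.cpow_neg]
    norm_cast
  have hpJ : (absNorm (rhoI D m (𝔣 * 𝔯)) : ℂ) ^ (-(1 + s)) *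
      ((absNorm (rhoI D m (𝔣 * 𝔯)) : ℂ) * (absNorm (rhoI D m (𝔣 * 𝔯)) : ℂ) ^ s) = 1 := by
    have h2 : (absNorm (rhoI D m (𝔣 * 𝔯)) : ℂ) * (absNorm (rhoI D m (𝔣 * 𝔯)) : ℂ) ^ s =
        (absNorm (rhoI D m (𝔣 * 𝔯)) : ℂ) ^ (1 + s) := by
      rw [Complex.cpow_add _ _ hρc, Complex.cpow_one]
    rw [h2, ← Complex.cpow_add _ _ hρc]
    simp
  have hww : conj w * w = ((‖w‖ : ℝ) : ℂ) ^ 2 := by
    rw [mul_comm, Complex.mul_conj, Complex.normSq_eq_norm_sq]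
    push_cast
    rfl
  have hw2 : ((‖w‖ : ℝ) : ℂ) ^ 2 ≠ 0 := by
    have : ((‖w‖ : ℝ) : ℂ) ≠ 0 := by exact_mod_cast hwp.ne'
    exact pow_ne_zero 2 this
  have hz0 : D.NK z₀ ≠ 0 := fed_NK_ne D hz.ne
  have hr7 := fed_NK_r D
  have hr0 : D.NK D.r ≠ 0 := fed_NK_ne D (fb_r_ne D)
  have hrc0 : conj (D.NK D.r) ≠ 0 := (map_ne_zero _).2 hr0
  have hm0 : (m : ℂ) ≠ 0 := by exact_mod_cast hm.ne'
  have hmg : (m : ℂ) ^ Module.finrank ℚ L ≠ 0 := pow_ne_zero _ hm0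
  have hr0' : (absNorm 𝔯 : ℂ) ≠ 0 := by
    have := (Ideal.absNorm_eq_zero_iff (I := 𝔯)).not.mpr hr
    exact_mod_cast this
  rw [fed_NK_zD D hg, ← hw] at key
  rw [map_mul, mul_comm 2, pow_mul] at hnorm
  push_cast at hnorm
  have hΦJ : Φ (I.map D.cjO) = (W t : ℂ) * (-(conj w) / ((m : ℂ) ^ Module.finrank ℚ L * D.NK D.r)) * Φ 𝔯 * Φ J₀ / D.NK z₀ := by
    rw [eq_div_iff hz0]
    exact key
  rw [hΦJ, hvt, htm]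
  have hcw : conj w ≠ 0 := (map_ne_zero _).2 hw1
  generalize (absNorm (rhoI D m (𝔣 * 𝔯)) : ℂ) ^ (-(1 + s)) = T at hpow hpJ
  generalize (absNorm (rhoI D m (𝔣 * 𝔯)) : ℂ) ^ s = S at hpJ ⊢
  generalize (absNorm (rhoI D m (𝔣 * 𝔯)) : ℂ) = R at hpJ hnorm ⊢
  generalize (absNorm I : ℂ) ^ (-(1 + s)) = Q at hpow ⊢
  generalize ((‖w‖ : ℝ) : ℂ) ^ (-2 * s) = U at hpow ⊢
  generalize (m : ℂ) ^ Module.finrank ℚ L = m' at hnorm hmg ⊢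
  have hQ : Q = U * (conj w * w)⁻¹ * (R * S) := by
    rw [hww]
    calc Q = (T * (R * S)) * Q := by rw [hpJ, one_mul]
      _ = (T * Q) * (R * S) := by ring
      _ = _ := by rw [hpow]
  rw [← hr7, hQ]
  generalize conj w = cw at hcw ⊢
  generalize conj (D.NK D.r) = cr at hrc0 ⊢
  generalize D.NK D.r = r' at hr0 ⊢
  generalize D.NK z₀ = z' at hz0 ⊢
  field_simp
  linear_combination ((W t : ℂ) * Φ 𝔯 * U * S) * hnorm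

/-- `Φ(J₀)` is not `0` -/
theorem HC.fed_J_ne {z₀ : M} (hz : PZ 𝔣 z₀) {m₀ : ℕ} (hm₀ : 0 < m₀) {a₀ : 𝓞 M} (ha₀ : z₀ = -(a₀ : M) / ((m₀ : M) * D.r)) {J₀ : Ideal (𝓞 M)}
    (hJ₀ : J₀ * rhoI D m₀ 𝔣 = span {a₀}) (hd₀ : ∃ 𝔟 : Ideal (𝓞 M), 𝔟 * 𝔣 * (differentIdeal ℤ (𝓞 L)).map (algebraMap (𝓞 L) (𝓞 M)) = span {((m₀ : ℕ) : 𝓞 M)})
    (r : ClassGroup (𝓞 M) → Ideal (𝓞 M)) (hr : ∀ k, r k ≠ ⊥) (hrc : ∀ k, IsCoprime (r k) 𝔣)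
    (hb : Function.Bijective fun k => ClassGroup.mk0 ⟨r k, mem_nonZeroDivisors_of_ne_zero (hr k)⟩)
    {m : ClassGroup (𝓞 M) → ℕ} (hm : ∀ k, 0 < m k)
    (hd : ∀ k, ∃ 𝔟 : Ideal (𝓞 M), 𝔟 * (𝔣 * r k) * (differentIdeal ℤ (𝓞 L)).map (algebraMap (𝓞 L) (𝓞 M)) = span {((m k : ℕ) : 𝓞 M)})
    {v : ClassGroup (𝓞 M) → 𝓞 L × 𝓞 L → ℤ} (hv : ∀ k, DW D 𝔣 (r k) W z₀ (m k) (v k)) : Φ J₀ ≠ 0 := by
  have hf0 : 𝔣 ≠ ⊥ := H.pq.ne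
  have h0 : ∀ k, (rhoI D (m k) (𝔣 * r k)).map D.cjO ≠ ⊥ := by
    intro k h
    have h1 := u6_absNorm D (rhoI D (m k) (𝔣 * r k))
    rw [h, Ideal.absNorm_bot] at h1
    exact fed_ne (hm k) (mul_ne_zero hf0 (hr k)) (hd k) (Ideal.absNorm_eq_zero_iff.1 h1.symm)
  obtain ⟨k, hk⟩ := (fed_bij hf0 hm₀ hd₀ r hr hb hm hd h0).2 1
  have hk' := (ClassGroup.mk0_eq_one_iff _).1 hk
  have h1 : ((rhoI D (m k) (𝔣 * r k)).map D.cjO * ⊤).IsPrincipal := by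
    rw [Ideal.mul_top]
    exact hk'
  obtain ⟨y, hyL, hyR, hy⟩ := z1_ex (D := D) (h0 k) (top_ne_bot) h1
  obtain ⟨t, ht, -⟩ := (hv k).eq y ((fed_mem (m k) y).1 hyL)
  have hJ' : (⊤ : Ideal (𝓞 M)) * rhoI D (m k) (𝔣 * r k) = span {D.cjO (z1_m D y)} := by
    have h2 := congrArg (Ideal.map D.cjO) hy
    rw [Ideal.mul_top, u6_map_map, Ideal.map_span, Set.image_singleton] at h2
    rw [Ideal.top_mul, h2]
  have key := H.key hz hm₀ ha₀ hJ₀ hd₀ (hr k) (hrc k) (hm k) (hd k) (RR_ne_zero hyR) hJ' ht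
  intro hJ
  rw [hJ, mul_zero, ← Ideal.one_eq_top, map_one, one_mul] at key
  exact fed_NK_ne D hz.ne key

/-- [FDd] **the dual series** (port of `decompW'`: the classes `conj(ρ_k)`; `I = conj J'`). `A = -NK(z₀) N(𝔣) D² 7^g / (Φ(J₀) conj NK(√-7))` -/
theorem HC.dual_series {z₀ : M} (hz : PZ 𝔣 z₀) {m₀ : ℕ} (hm₀ : 0 < m₀) {a₀ : 𝓞 M} (ha₀ : z₀ = -(a₀ : M) / ((m₀ : M) * D.r)) {J₀ : Ideal (𝓞 M)}
    (hJ₀ : J₀ * rhoI D m₀ 𝔣 = span {a₀}) (hd₀ : ∃ 𝔟 : Ideal (𝓞 M), 𝔟 * 𝔣 * (differentIdeal ℤ (𝓞 L)).map (algebraMap (𝓞 L) (𝓞 M)) = span {((m₀ : ℕ) : 𝓞 M)})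
    (hg : Odd (Module.finrank ℚ L)) (r : ClassGroup (𝓞 M) → Ideal (𝓞 M)) (hr : ∀ k, r k ≠ ⊥) (hrc : ∀ k, IsCoprime (r k) 𝔣)
    (hb : Function.Bijective fun k => ClassGroup.mk0 ⟨r k, mem_nonZeroDivisors_of_ne_zero (hr k)⟩)
    {m : ClassGroup (𝓞 M) → ℕ} (hm : ∀ k, 0 < m k)
    (hd : ∀ k, ∃ 𝔟 : Ideal (𝓞 M), 𝔟 * (𝔣 * r k) * (differentIdeal ℤ (𝓞 L)).map (algebraMap (𝓞 L) (𝓞 M)) = span {((m k : ℕ) : 𝓞 M)})
    {v : ClassGroup (𝓞 M) → 𝓞 L × 𝓞 L → ℤ} (hv : ∀ k, DW D 𝔣 (r k) W z₀ (m k) (v k)) {s : ℂ} (hs : 1 / 2 < s.re) :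
    ∑ k, Φ (r k) * ((m k : ℂ) ^ Module.finrank ℚ L / (absNorm (r k) : ℂ)) * (absNorm (rhoI D (m k) (𝔣 * r k)) : ℂ) ^ s * Ew (v k) tau0 s =
      -(D.NK z₀ * (absNorm 𝔣 : ℂ) * (discr L : ℂ) ^ 2 * 7 ^ Module.finrank ℚ L / (Φ J₀ * conj (D.NK D.r))) *
        ∑' J : Ideal (𝓞 M), Φ J * (absNorm J : ℂ) ^ (-(1 + s)) := by
  have hf0 : 𝔣 ≠ ⊥ := H.pq.ne
  have hJ := H.fed_J_ne hz hm₀ ha₀ hJ₀ hd₀ r hr hrc hb hm hd hv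
  have h0 : ∀ k, (rhoI D (m k) (𝔣 * r k)).map D.cjO ≠ ⊥ := by
    intro k h
    have h1 := u6_absNorm D (rhoI D (m k) (𝔣 * r k))
    rw [h, Ideal.absNorm_bot] at h1
    exact fed_ne (hm k) (mul_ne_zero hf0 (hr k)) (hd k) (Ideal.absNorm_eq_zero_iff.1 h1.symm)
  set C : ℂ := -(D.NK z₀ * (absNorm 𝔣 : ℂ) * (discr L : ℂ) ^ 2 * 7 ^ Module.finrank ℚ L / (Φ J₀ * conj (D.NK D.r))) with hC
  -- the conjugation of the ideals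
  let ec : Ideal (𝓞 M) ≃ Ideal (𝓞 M) :=
    { toFun := fun J => J.map D.cjO, invFun := fun J => J.map D.cjO, left_inv := u6_map_map D, right_inv := u6_map_map D }
  have hs1 : 3 / 2 < (1 + s).re := by
    rw [Complex.add_re, Complex.one_re]
    linarith
  have hsum0 : Summable fun J : Ideal (𝓞 M) => Φ J * (absNorm J : ℂ) ^ (-(1 + s)) := by
    refine Summable.of_norm ((summable_psi' H.hch hs1).norm.congr fun I => ?_)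
    rw [norm_mul, norm_mul, RCLike.norm_conj]
  have hec : ∀ J : Ideal (𝓞 M), Φ (ec J) * (absNorm (ec J) : ℂ) ^ (-(1 + s)) = Φ (J.map D.cjO) * (absNorm J : ℂ) ^ (-(1 + s)) := by
    intro J
    show Φ (J.map D.cjO) * (absNorm (J.map D.cjO) : ℂ) ^ (-(1 + s)) = _
    rw [u6_absNorm]
  have h1 : ∑' J : Ideal (𝓞 M), Φ J * (absNorm J : ℂ) ^ (-(1 + s)) = ∑' J : Ideal (𝓞 M), Φ (J.map D.cjO) * (absNorm J : ℂ) ^ (-(1 + s)) := by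
    rw [← ec.tsum_eq (fun J : Ideal (𝓞 M) => Φ J * (absNorm J : ℂ) ^ (-(1 + s)))]
    exact tsum_congr hec
  have hsum1 : Summable fun J : Ideal (𝓞 M) => Φ (J.map D.cjO) * (absNorm J : ℂ) ^ (-(1 + s)) :=
    ((ec.summable_iff (f := fun J : Ideal (𝓞 M) => Φ J * (absNorm J : ℂ) ^ (-(1 + s)))).2 hsum0).congr hec
  rw [h1, ← tsum_mul_left, fed_decomp (D := D) (hsum1.mul_left C) (by
      show C * (Φ ((⊥ : Ideal (𝓞 M)).map D.cjO) * _) = 0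
      rw [Ideal.map_bot, ← Ideal.zero_eq_bot, map_zero, zero_mul, mul_zero])
    (fun k => (rhoI D (m k) (𝔣 * r k)).map D.cjO) h0 (fed_bij hf0 hm₀ hd₀ r hr hb hm hd h0)
    (G := fun k x => Φ (r k) * ((m k : ℂ) ^ Module.finrank ℚ L / (absNorm (r k) : ℂ)) * (absNorm (rhoI D (m k) (𝔣 * r k)) : ℂ) ^ s *
        ((v k x : ℂ) * KK x tau0 s))
    (fun k I x hxL hx hI => H.fed_term hz hm₀ ha₀ hJ₀ hd₀ hg (hr k) (hrc k) (hm k) (hd k) (hv k) hx hxL hI hJ s)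
    (fun k x hx => by
      have h2 : v k x = 0 := (hv k).out x (fun h => hx ((fed_mem (m k) x).2 h))
      show _ * ((v k x : ℂ) * KK x tau0 s) = 0
      rw [h2, Int.cast_zero, zero_mul, mul_zero])]
  refine Finset.sum_congr rfl fun k _ => ?_
  rw [tsum_mul_left]
  rfl

end

end

end TRZ
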