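import Pool.Agent.TRP.A7
import Pool.Agent.TRZ.Defs2
import Pool.Agent.TRZ.Defs3

/-! # [ALL2-FE] the functional equation at `s = 1`: definitions -/

set_option autoImplicit false

open NumberField Ideal IsDedekindDomain
open scoped Real Classical ComplexConjugate
open TR TRG TRP

namespace TRZ

section
variable {L : Type} [Field L] [NumberField L]

/-- the symplectic form -/
def sB (x y : 𝓞 L × 𝓞 L) : 𝓞 L := x.1 * y.2 - x.2 * y.1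

/-- the Fourier transform in both coordinates, modulo `n`, with the character `e(tr(B(x, y))/m)` -/
noncomputable def ft2 (n : ℕ) (w : 𝓞 L × 𝓞 L → ℤ) (m : ℕ) (y : 𝓞 L × 𝓞 L) : ℂ :=
  ∑ᶠ p : (𝓞 L ⧸ span {((n : ℕ) : 𝓞 L)}) × (𝓞 L ⧸ span {((n : ℕ) : 𝓞 L)}),
    (w ((Quotient.out p.1 : 𝓞 L), (Quotient.out p.2 : 𝓞 L)) : ℂ) *
      ee (trR (((sB ((Quotient.out p.1 : 𝓞 L), (Quotient.out p.2 : 𝓞 L)) y : 𝓞 L) : L) / (m : L)))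

/-- `y / m` is in the dual lattice of `n 𝓞 × n 𝓞` -/
def inD (n m : ℕ) (y : 𝓞 L × 𝓞 L) : Prop :=
  ((y.1 : L) / (m : L) ∈ dualL (span {((n : ℕ) : 𝓞 L)})) ∧ ((y.2 : L) / (m : L) ∈ dualL (span {((n : ℕ) : 𝓞 L)}))

/-- `w'` (of level `m`) is `C` times the Fourier transform of `w` (of level `n`) -/
structure FEp (n m : ℕ) (w w' : 𝓞 L × 𝓞 L → ℤ) (C : ℂ) : Prop where
  ow : OW n w
  ow' : OW m w'
  dvd : n ∣ m
  int : ∀ ν : L, ν ∈ dualL (span {((n : ℕ) : 𝓞 L)}) → ∃ a : 𝓞 L, (a : L) = (m : L) * ν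
  eq : ∀ y : 𝓞 L × 𝓞 L, (w' y : ℂ) = if inD n m y then C * ft2 n w m y else 0

end

section
variable {M : Type} [Field M] [NumberField M]

/-- a primitive quadratic character modulo `𝔣` -/
structure PQ (𝔣 : Ideal (𝓞 M)) (W : 𝓞 M → ℤ) : Prop where
  ne : 𝔣 ≠ ⊥
  mul : ∀ x y, W (x * y) = W x * W y
  per : ∀ x, ∀ y ∈ 𝔣, W (x + y) = W x
  val : ∀ x, W x = 0 ∨ W x = 1 ∨ W x = -1
  zero : ∀ x, W x = 0 ↔ ∃ P : HeightOneSpectrum (𝓞 M), 𝔣 ≤ P.asIdeal ∧ x ∈ P.asIdeal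
  prim : ∀ (P : HeightOneSpectrum (𝓞 M)) (𝔤 : Ideal (𝓞 M)), 𝔣 = P.asIdeal * 𝔤 → ∃ x, x - 1 ∈ 𝔤 ∧ W x = -1

/-- the Gauss sum over `𝔯 / 𝔣 𝔯`, for `z` in the dual lattice of `𝔣 𝔯` -/
noncomputable def gs (𝔣 𝔯 : Ideal (𝓞 M)) (W : 𝓞 M → ℤ) (z : M) : ℂ :=
  ∑ᶠ q : 𝓞 M ⧸ (𝔣 * 𝔯), (if (Quotient.out q : 𝓞 M) ∈ 𝔯 then (W (Quotient.out q : 𝓞 M) : ℂ) else 0) *
    ee (trR (z * ((Quotient.out q : 𝓞 M) : M)))

/-- `z₀` generates the dual lattice of `𝔣` modulo that of `𝓞` -/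
structure PZ (𝔣 : Ideal (𝓞 M)) (z₀ : M) : Prop where
  ne : z₀ ≠ 0
  mem : z₀ ∈ dualL 𝔣
  prim : ∀ (P : HeightOneSpectrum (𝓞 M)) (𝔤 : Ideal (𝓞 M)), 𝔣 = P.asIdeal * 𝔤 → z₀ ∉ dualL 𝔤

end

section
variable {L M : Type} [Field L] [NumberField L] [Field M] [NumberField M] [Algebra L M] [IsTotallyReal L]

/-- a Hecke character of type `NK` with the primitive quadratic character `W` modulo `𝔣` -/
structure HC (D : Dat L M) (𝔣 : Ideal (𝓞 M)) (W : 𝓞 M → ℤ) (Φ : Ideal (𝓞 M) →*₀ ℂ) : Prop where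
  pq : PQ 𝔣 W
  span_eq : ∀ x : 𝓞 M, x ≠ 0 → Φ (span {x}) = D.NK (x : M) * (W x : ℂ)
  norm_eq : ∀ I : Ideal (𝓞 M), IsCoprime I 𝔣 → ‖Φ I‖ ^ 2 = absNorm I

/-- the point of the dual lattice which belongs to `y`: `tr (B(x, y))/m = Tr (x₁ + x₂ ω) z` -/
noncomputable def zD (D : Dat L M) (m : ℕ) (y : 𝓞 L × 𝓞 L) : M := -(D.cj ((z1_m D y : 𝓞 M) : M)) / ((m : M) * D.r)

/-- the weight of the ideal `𝔯` -/
noncomputable def uW (D : Dat L M) (W : 𝓞 M → ℤ) (𝔯 : Ideal (𝓞 M)) (x : 𝓞 L × 𝓞 L) : ℤ :=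
  if x ∈ D.Lb 𝔯 then W (z1_m D x) else 0

/-- the dual weight: `W(t)`, `z_y ≡ t z₀` modulo the dual lattice of `𝔯` -/
structure DW (D : Dat L M) (𝔣 𝔯 : Ideal (𝓞 M)) (W : 𝓞 M → ℤ) (z₀ : M) (m : ℕ) (v : 𝓞 L × 𝓞 L → ℤ) : Prop where
  out : ∀ y, zD D m y ∉ dualL (𝔣 * 𝔯) → v y = 0
  eq : ∀ y, zD D m y ∈ dualL (𝔣 * 𝔯) → ∃ t : 𝓞 M, zD D m y - (t : M) * z₀ ∈ dualL 𝔯 ∧ v y = W t

/-- the ideal `{a | a/(m √-7) ∈ dual lattice of 𝔞}` -/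
noncomputable def rhoI (D : Dat L M) (m : ℕ) (𝔞 : Ideal (𝓞 M)) : Ideal (𝓞 M) where
  carrier := {a : 𝓞 M | (a : M) / ((m : M) * D.r) ∈ dualL 𝔞}
  zero_mem' := by
    intro x _
    refine ⟨0, ?_⟩
    have h : (((0 : 𝓞 M) : 𝓞 M) : M) = 0 := rfl
    rw [h, zero_div, zero_mul]
    simp
  add_mem' := by
    intro a b ha hb x hx
    obtain ⟨n, hn⟩ := ha x hx
    obtain ⟨k, hk⟩ := hb x hx
    refine ⟨n + k, ?_⟩
    have h : ((a + b : 𝓞 M) : M) = (a : M) + (b : M) := rfl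
    rw [h, add_div, add_mul, map_add, hn, hk]
    push_cast
    rfl
  smul_mem' := by
    intro c a ha x hx
    obtain ⟨n, hn⟩ := ha (c * x) (Ideal.mul_mem_left _ _ hx)
    refine ⟨n, ?_⟩
    rw [← hn]
    congr 1
    have h : ((c • a : 𝓞 M) : M) = (c : M) * (a : M) := rfl
    have h' : ((c * x : 𝓞 M) : M) = (c : M) * (x : M) := rfl
    rw [h, h']
    ring

/-- the sign character of the curve -/
noncomputable def WK (D : Dat L M) (s : Bool) (T : Finset (HeightOneSpectrum (𝓞 M))) (f f' : 𝓞 L → ℤ) (x : 𝓞 M) : ℤ :=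
  (∏ P ∈ T, TT.qr P x) * f (rd8 D (!s) x) * f' (rd8 D s x)

/-- the exponent of the conductor -/
noncomputable def ce (c : 𝓞 L) (i : Bool) : ℕ := if Rm c i then (if i then 3 else 2) else 0

/-- the conductor -/
noncomputable def fK (D : Dat L M) (s : Bool) (T : Finset (HeightOneSpectrum (𝓞 M))) (c c' : 𝓞 L) (i j : Bool) : Ideal (𝓞 M) :=
  (∏ P ∈ T, P.asIdeal) * span {p1 D s} ^ ce c i * span {p2 D s} ^ ce c' j

end

end TRZ
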