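import Pool.Agent.TRZ.SEL1
import Pool.Agent.TRZ.FESN1

/-! # [ALL2-FE, SN] the Selmer group on the exceptional side: the classes -/

set_option autoImplicit false
set_option linter.unusedSectionVars false

open NumberField Ideal IsDedekindDomain
open scoped Real Classical ComplexConjugate
open TR TRG TRP TTS TU TT

namespace TRZ

open WithZero TRX2

section
variable {L M : Type} [Field L] [NumberField L] [Field M] [NumberField M] [Algebra L M]
  [IsTotallyReal L] {D : Dat L M} {s : Bool} {d : M} {T : Finset (HeightOneSpectrum (𝓞 M))}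
  {z : HeightOneSpectrum (𝓞 M) → 𝓞 M} {ε : (𝓞 L)ˣ} {i j : Bool}

theorem fs_wb (hD : Od2 D) {P : HeightOneSpectrum (𝓞 M)} (hP : p2 D s ∈ P.asIdeal) : P.valuation M (wbB (rs7 D s : M)) < 1 := by
  rw [sg_wbB, c1_val hD hP, ← exp_zero, exp_lt_exp]
  norm_num

theorem fs_wb' {P : HeightOneSpectrum (𝓞 M)} (hb : P.valuation M (wbB (rs7 D s : M)) < 1) : p2 D s ∈ P.asIdeal := by
  rw [sg_wbB] at hb
  rw [← P.valuation_lt_one_iff_mem (K := M)]
  exact hb

/-- an element with even valuations which is unramified at `ϖ'` is a square -/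
theorem fs_square {x : M} (hx : x ≠ 0)
    (hev : ∀ P : HeightOneSpectrum (𝓞 M), p2 D s ∉ P.asIdeal → IsSquare (P.valuation M x))
    (hur : ∀ P : HeightOneSpectrum (𝓞 M), p2 D s ∈ P.asIdeal → Ur P x) : ∃ y : M, y ≠ 0 ∧ x = y ^ 2 := by
  obtain ⟨D', hD'⟩ := sg_dat D s
  obtain ⟨y, hy, hxy⟩ := s4_split (D := D') hx one_ne_zero (fun P => by
    rw [map_one]
    refine ⟨fun _ => ⟨1, (one_mul 1).symm⟩, fun _ => ?_⟩
    by_cases hP : p2 D s ∈ P.asIdeal
    · exact (hur P hP).val
    · exact hev P hP) (fun P hb => by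
    rw [hD'] at hb
    exact s4_wb_ur (sg_r2 D s) hb (hur P (fs_wb' hb))) (fun P _ => ⟨1, 0, by rw [map_zero]; exact zero_le, by ring⟩)
  exact ⟨y, hy, by rw [hxy, one_mul]⟩

variable (H : DK D s d T z ε i j)
include H

/-- **the decomposition of the unramified classes** -/
theorem fs_decomp (hD : Od2 D) {x : M} (hx : x ≠ 0)
    (hev : ∀ P : HeightOneSpectrum (𝓞 M), (2 : 𝓞 M) ∉ P.asIdeal → P ∉ T → IsSquare (P.valuation M x))
    (hur : ∀ P : HeightOneSpectrum (𝓞 M), p2 D s ∈ P.asIdeal → Ur P x) :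
    ∃ (m : Bool) (U : Finset (HeightOneSpectrum (𝓞 M))) (y : M), U ⊆ T ∧ y ≠ 0 ∧ x = (sgx D s z m U : M) * y ^ 2 := by
  obtain ⟨D', hD'⟩ := sg_dat D s
  obtain ⟨U, hUd⟩ : ∃ U : Finset (HeightOneSpectrum (𝓞 M)), U = T.filter (fun P => ¬ IsSquare (P.valuation M x)) := ⟨_, rfl⟩
  have hU : U ⊆ T := by
    rw [hUd]
    exact Finset.filter_subset _ _
  obtain ⟨m, hm⟩ : ∃ m : Bool, m = decide (∃ P : HeightOneSpectrum (𝓞 M), p1 D s ∈ P.asIdeal ∧ ¬ IsSquare (P.valuation M x)) := ⟨_, rfl⟩
  have hv : ∀ P : HeightOneSpectrum (𝓞 M), IsSquare (P.valuation M x) ↔ IsSquare (P.valuation M (sgx D s z m U : M)) := by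
    intro P
    by_cases h2 : (2 : 𝓞 M) ∈ P.asIdeal
    · rcases c1_or hD s h2 with hP | hP
      · have h3 : P ∉ U := fun h => H.two P (hU h) h2
        rw [(sgx_val H hU m (c1_p1_not hP) h3).2]
        exact ⟨fun _ => ⟨1, (one_mul 1).symm⟩, fun _ => (hur P hP).val⟩
      · have hP1 : p1 D s ∈ P.asIdeal := by
          rw [c2_p2_not] at hP
          exact hP
        rw [sgx_p1 H hD hU m hP1]
        by_cases hPx : IsSquare (P.valuation M x)
        · have hm' : m = false := by
            rw [hm, decide_eq_false_iff_not]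
            rintro ⟨Q, hQ, hQx⟩
            have hQP : Q = P := by
              have hQ' : p2 D (!s) ∈ Q.asIdeal := by
                rw [c2_p2_not]
                exact hQ
              exact HeightOneSpectrum.ext ((c1_ideal hD hQ').trans (c1_ideal hD hP).symm)
            rw [hQP] at hQx
            exact hQx hPx
          rw [hm', if_neg (by decide)]
          exact ⟨fun _ => ⟨1, (one_mul 1).symm⟩, fun _ => hPx⟩
        · have hm' : m = true := by
            rw [hm, decide_eq_true_iff]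
            exact ⟨P, hP1, hPx⟩
          rw [hm', if_pos rfl]
          exact ⟨fun h => absurd h hPx, fun h => absurd h hr_par_exp⟩
    · have hp1 : p1 D s ∉ P.asIdeal := fun h => h2 (by
        rw [← x_mul D s]
        exact Ideal.mul_mem_right _ _ h)
      by_cases hPU : P ∈ U
      · have h3 := sgx_odd H hU m hPU
        have h4 : ¬ IsSquare (P.valuation M x) := by
          rw [hUd] at hPU
          exact (Finset.mem_filter.1 hPU).2
        exact ⟨fun h => absurd h h4, fun h => absurd h h3⟩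
      · rw [(sgx_val H hU m hp1 hPU).2]
        refine ⟨fun _ => ⟨1, (one_mul 1).symm⟩, fun _ => ?_⟩
        by_cases hPT : P ∈ T
        · by_contra hcon
          apply hPU
          rw [hUd]
          exact Finset.mem_filter.2 ⟨hPT, hcon⟩
        · exact hev P h2 hPT
  have hz' : WBc D'.r x := by
    intro P hb
    rw [hD'] at hb
    exact s4_wb_ur (sg_r2 D s) hb (hur P (fs_wb' hb))
  have hw' : WBc D'.r (sgx D s z m U : M) := by
    intro P hb
    rw [hD'] at hb
    exact s4_wb_ur (sg_r2 D s) hb (sg_et_ur hD (fs_wb' hb) (sgx_et H hD hU m))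
  obtain ⟨y, hy, hxy⟩ := s4_split (D := D') hx (sgx_ne H hU m) hv hz' hw'
  exact ⟨m, U, y, hU, hy, hxy⟩

/-- `δ` unramified at `ϖ'` -/
theorem fs_delta (hD : Od2 D) (hU : ∀ P : HeightOneSpectrum (𝓞 M), p2 D s ∈ P.asIdeal → Ur P d) :
    ∃ y : M, y ≠ 0 ∧ d * (rs7 D s : M) = (sgx D s z i T : M) * y ^ 2 := by
  obtain ⟨y, hy, hδ⟩ := H.eq
  have hx0 := sgx_ne H (Finset.Subset.refl T) i
  obtain ⟨A, hA⟩ : ∃ A : 𝓞 M, A = algebraMap (𝓞 L) (𝓞 M) (ε : 𝓞 L) * (if j then -(p2 D s) else 1) := ⟨_, rfl⟩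
  have e1 : d * (rs7 D s : M) = (A : M) * ((sgx D s z i T : 𝓞 M) : M) * y ^ 2 := by
    rw [hδ, hA, sgx_coe H]
    simp only [map_mul]
    ring
  have hAn : ∀ P : HeightOneSpectrum (𝓞 M), p2 D s ∉ P.asIdeal → A ∉ P.asIdeal := by
    intro P hP h
    rw [hA] at h
    rcases P.isPrime.mem_or_mem h with h | h
    · exact c2_unit_not P ε h
    · exact c2_not_if j hP h
  have hA0 : (A : M) ≠ 0 := by
    intro h
    rw [h, zero_mul, zero_mul] at e1
    exact sg_dr H.sg_ne s e1
  obtain ⟨t, ht, hAt⟩ := fs_square (s := s) hA0 (fun P hP => by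
    rw [(TU.g1_val_one P).2 (hAn P hP)]
    exact ⟨1, (one_mul 1).symm⟩) (fun P hP => by
    have h1 := ((sg_ur_dr hD hP).2 (hU P hP)).mul (sg_et_ur hD hP (sgx_et H hD (Finset.Subset.refl T) i))
    have e2 : d * (rs7 D s : M) * ((sgx D s z i T : 𝓞 M) : M) = (((sgx D s z i T : 𝓞 M) : M) * y) ^ 2 * (A : M) := by
      rw [e1]
      ring
    rwa [e2, ur_sq_mul (mul_ne_zero hx0 hy)] at h1)
  refine ⟨t * y, mul_ne_zero ht hy, ?_⟩
  rw [e1, hAt]
  ring

/-- the diagonal -/
theorem fs_kap (hD : Od2 D) (hU : ∀ P : HeightOneSpectrum (𝓞 M), p2 D s ∈ P.asIdeal → Ur P d) {P : HeightOneSpectrum (𝓞 M)} (hP : P ∈ T) :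
    (if TT.qr P (algebraMap (𝓞 L) (𝓞 M) (ε : 𝓞 L) * (if i then -(p1 D s) else 1) *
      (if j then -(p2 D s) else 1)) = -1 then (1 : ZMod 2) else 0) = if i then nu D s P else 0 := by
  obtain ⟨y, -, hy⟩ := fs_delta H hD hU
  have h1 := (sgx_row H (Finset.Subset.refl T) i hP).1 (Or.inr (by
    rw [hy]
    refine ⟨algebraMap M _ (((sgx D s z i T : 𝓞 M) : M) * y), ?_⟩
    rw [← map_mul]
    congr 1
    ring))
  rw [if_pos hP, one_mul] at h1
  have h2 : ∑ Q ∈ T.erase P, aM z P Q * (if Q ∈ T then 1 else 0) = ∑ Q ∈ T.erase P, aM z P Q := by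
    refine Finset.sum_congr rfl fun Q hQ => ?_
    rw [if_pos (Finset.mem_of_mem_erase hQ), mul_one]
  rw [h2, add_assoc (if TT.qr P _ = -1 then (1 : ZMod 2) else 0), CharTwo.add_self_eq_zero, add_zero] at h1
  rw [CharTwo.add_eq_zero.1 h1]
  cases i
  · rw [if_neg (by decide), if_neg (by decide), mul_zero]
  · rw [if_pos rfl, if_pos rfl, mul_one]

/-- **the Selmer group in terms of vectors**, `d` unramified at `ϖ'` (all types at `ϖ`; `δ` may be a square at `ϖ'`) -/
theorem DK.sel_core_x (hD : Od2 D) (hU : ∀ P : HeightOneSpectrum (𝓞 M), p2 D s ∈ P.asIdeal → Ur P d) :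
    Sel d (rs7 D s : M) ↔ ∀ (w : HeightOneSpectrum (𝓞 M) → ZMod 2) (m : ZMod 2),
    (∀ P ∈ T, fnrow (aM z) (fun P => if TT.qr P (algebraMap (𝓞 L) (𝓞 M) (ε : 𝓞 L) * (if i then -(p1 D s) else 1) *
      (if j then -(p2 D s) else 1)) = -1 then 1 else 0) (nu D s) T w m P = 0) → (Rm (cd D s T z ε) i ∨ m = 0) →
      ((∀ P ∈ T, w P = 0) ∧ m = 0) ∨ ((∀ P ∈ T, w P = 1) ∧ m = if i then 1 else 0) := by
  have hd := H.sg_ne
  have hr0 := c2_rs7_ne (D := D) s
  obtain ⟨y1, hy1, hδ⟩ := fs_delta H hD hU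
  have hx0 := sgx_ne H (Finset.Subset.refl T) i
  have hT1 : ∀ P ∈ T, ¬ IsSquare (P.valuation M ((sgx D s z i T : 𝓞 M) : M)) := fun P hP => sgx_odd H (Finset.Subset.refl T) i hP
  have hodd : ∀ {P : HeightOneSpectrum (𝓞 M)} {x : M}, x ≠ 0 → ¬ IsSquare (P.valuation M ((sgx D s z i T : 𝓞 M) : M)) →
      IsSquare (x * (d * (rs7 D s : M))) → ¬ IsSquare (P.valuation M x) := by
    intro P x hx h1 ⟨b, hb⟩ h2
    apply h1
    have h3 : IsSquare (P.valuation M (x * (d * (rs7 D s : M)))) := ⟨P.valuation M b, by rw [hb, map_mul]⟩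
    rw [hδ, map_mul, map_mul, map_pow, ← mul_assoc, c2_mul_sq ((Valuation.ne_zero_iff _).2 hy1)] at h3
    rw [hr_par_mul ((Valuation.ne_zero_iff _).2 hx) ((Valuation.ne_zero_iff _).2 hx0)] at h3
    exact h3.1 h2
  constructor
  · intro hsel w m hw hcond
    obtain ⟨U, hUd⟩ : ∃ U : Finset (HeightOneSpectrum (𝓞 M)), U = T.filter (fun Q => w Q = 1) := ⟨_, rfl⟩
    have hUT : U ⊆ T := by
      rw [hUd]
      exact Finset.filter_subset _ _
    have hwU : ∀ Q ∈ T, w Q = if Q ∈ U then 1 else 0 := by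
      intro Q hQ
      by_cases h1 : w Q = 1
      · rw [if_pos (by rw [hUd]; exact Finset.mem_filter.2 ⟨hQ, h1⟩), h1]
      · rw [if_neg (by rw [hUd]; exact fun h => h1 (Finset.mem_filter.1 h).2)]
        exact (s8_zmod (w Q)).resolve_right h1
    obtain ⟨n, hm'⟩ : ∃ n : Bool, (if n then (1 : ZMod 2) else 0) = m := by
      rcases s8_zmod m with h | h
      · exact ⟨false, by rw [h]; rfl⟩
      · exact ⟨true, by rw [h]; rfl⟩
    have hxn := sgx_ne H hUT n
    have hT : ∀ P ∈ T, IsSquare (algebraMap M (P.adicCompletion M) (sgx D s z n U : M)) ∨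
        IsSquare (algebraMap M (P.adicCompletion M) ((sgx D s z n U : M) * (d * (rs7 D s : M)))) := by
      intro P hP
      rw [sgx_row H hUT n hP, hm']
      have h1 := hw P hP
      unfold fnrow at h1
      rw [hwU P hP] at h1
      refine Eq.trans ?_ h1
      congr 2
      refine Finset.sum_congr rfl fun Q hQ => ?_
      rw [hwU Q (Finset.mem_of_mem_erase hQ)]
    have hne : ∀ P : HeightOneSpectrum (𝓞 M), (2 : 𝓞 M) ∉ P.asIdeal → p1 D s ∉ P.asIdeal := fun P h2 h => h2 (by
      rw [← x_mul D s]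
      exact Ideal.mul_mem_right _ _ h)
    -- all places `≠ ϖ`
    have hloc : ∀ P : HeightOneSpectrum (𝓞 M), p1 D s ∉ P.asIdeal →
        LocCond (algebraMap M (P.adicCompletion M) d) (algebraMap M (P.adicCompletion M) (rs7 D s : M))
          (algebraMap M (P.adicCompletion M) (sgx D s z n U : M)) := by
      intro P hP1
      have hchar : CharZero (P.adicCompletion M) :=
        charZero_of_injective_algebraMap (algebraMap M (P.adicCompletion M)).injective
      by_cases h2 : (2 : 𝓞 M) ∈ P.asIdeal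
      · rcases c1_or hD s h2 with hP | hP
        · exact TRX.locCond_wb (sg_r2 D s) P (fs_wb hD hP) (hU P hP) (sg_et_ur hD hP (sgx_et H hD hUT n))
        · rw [c2_p2_not] at hP
          exact absurd hP hP1
      · by_cases hPT : P ∈ T
        · refine sg_loc_of (sg_r2c D s P) (by rw [← map_mul]; exact (map_ne_zero _).2 (sg_dr hd s)) ?_
          rw [← map_mul, ← map_mul]
          exact hT P hPT
        · refine se1_locCond (sg_r2 D s) P h2 hd hxn ?_ ?_
          · by_contra hcon
            rw [c2_val_rs7] at hcon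
            exact hPT ((H.mem_iff h2).2 hcon)
          · rw [(sgx_val H hUT n hP1 (fun h => hPT (hUT h))).2]
            exact ⟨1, (one_mul 1).symm⟩
    -- the place `ϖ`
    have hlocp : ∀ P : HeightOneSpectrum (𝓞 M), p1 D s ∈ P.asIdeal →
        LocCond (algebraMap M (P.adicCompletion M) d) (algebraMap M (P.adicCompletion M) (rs7 D s : M))
          (algebraMap M (P.adicCompletion M) (sgx D s z n U : M)) := by
      intro P hP
      by_cases hR : Rm (cd D s T z ε) i
      · have hU' : ¬ Ur P d := fun h => (H.ur_p1 hP hD).1 h hR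
        have htc : IsTotallyComplex M := D.isTotallyComplex
        have hP' : p2 D (!s) ∈ P.asIdeal := by
          rw [c2_p2_not]
          exact hP
        refine sg_loc_p1 hD hP hd hU' hxn ?_
        refine hrec D.hodd (c1_mem_two hP') (c1_val2 hD hP') hxn (sg_dr hd s) (fun h => hU' ((sg_ur_neg hD hP).1 h)) ?_
        intro v hv
        have hv1 : p1 D s ∉ v.asIdeal := by
          intro h
          apply hv
          have hQ' : p2 D (!s) ∈ v.asIdeal := by
            rw [c2_p2_not]
            exact h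
          exact HeightOneSpectrum.ext ((c1_ideal hD hQ').trans (c1_ideal hD hP').symm)
        have hchar : CharZero (v.adicCompletion M) :=
          charZero_of_injective_algebraMap (algebraMap M (v.adicCompletion M)).injective
        obtain ⟨u, t, hut⟩ := sg_nm (sg_r2c D s v) (hloc v hv1)
        exact ⟨u, t, by rw [hut, map_mul]⟩
      · have hUr : Ur P d := (H.ur_p1 hP hD).2 hR
        rw [sg_loc_p1u hD hP hUr hxn, sgx_p1 H hD hUT n hP]
        have h1 := hcond.resolve_left hR
        rw [← hm'] at h1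
        cases n
        · exact ⟨1, (one_mul 1).symm⟩
        · rw [if_pos rfl] at h1
          exact absurd h1 one_ne_zero
    have hP0 : p1 D s ∈ (bl_V hD s).asIdeal := Ideal.mem_span_singleton_self _
    rcases hsel _ hxn (fun P => by
      by_cases hP : p1 D s ∈ P.asIdeal
      · exact hlocp P hP
      · exact hloc P hP) with h | h
    · left
      constructor
      · intro P hP
        rw [hwU P hP]
        by_cases hPU : P ∈ U
        · exfalso
          apply sgx_odd H hUT n hPU
          obtain ⟨b, hb⟩ := h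
          exact ⟨P.valuation M b, by rw [hb, map_mul]⟩
        · rw [if_neg hPU]
      · rw [← hm']
        cases n
        · rfl
        · exfalso
          obtain ⟨b, hb⟩ := h
          have h1 : IsSquare ((bl_V hD s).valuation M ((sgx D s z true U : 𝓞 M) : M)) := ⟨(bl_V hD s).valuation M b, by rw [hb, map_mul]⟩
          rw [sgx_p1 H hD hUT true hP0, if_pos rfl] at h1
          exact hr_par_exp h1
    · right
      constructor
      · intro P hP
        rw [hwU P hP]
        by_cases hPU : P ∈ U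
        · rw [if_pos hPU]
        · exfalso
          refine hodd hxn (hT1 P hP) h ?_
          have hp1 := hne P (H.two P hP)
          rw [(sgx_val H hUT n hp1 hPU).2]
          exact ⟨1, (one_mul 1).symm⟩
      · rw [← hm']
        have h1 : IsSquare ((bl_V hD s).valuation M ((sgx D s z n U : 𝓞 M) : M)) ↔ IsSquare ((bl_V hD s).valuation M ((sgx D s z i T : 𝓞 M) : M)) := by
          rw [← hr_par_mul ((Valuation.ne_zero_iff _).2 hxn) ((Valuation.ne_zero_iff _).2 hx0), ← c2_mul_sq ((Valuation.ne_zero_iff ((bl_V hD s).valuation M)).2 hy1)]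
          obtain ⟨b, hb⟩ := h
          refine ⟨(bl_V hD s).valuation M b, ?_⟩
          rw [← map_mul ((bl_V hD s).valuation M) b b, ← hb, hδ, map_mul, map_mul, map_pow, mul_assoc]
        rw [sgx_p1 H hD hUT n hP0, sgx_p1 H hD (Finset.Subset.refl T) i hP0] at h1
        cases n <;> cases i
        · rfl
        · exfalso
          exact hr_par_exp (h1.1 ⟨1, (one_mul 1).symm⟩)
        · exfalso
          exact hr_par_exp (h1.2 ⟨1, (one_mul 1).symm⟩)
        · rfl
  · intro hw0 x hx hloc
    have hδ0 : d * (rs7 D s : M) ≠ 0 := sg_dr hd s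
    have hevδ : ∀ P : HeightOneSpectrum (𝓞 M), (2 : 𝓞 M) ∉ P.asIdeal → P ∉ T → IsSquare (P.valuation M (d * (rs7 D s : M))) := by
      intro P h2 hPT
      by_contra hcon
      rw [c2_val_rs7] at hcon
      exact hPT ((H.mem_iff h2).2 hcon)
    have hevx : ∀ P : HeightOneSpectrum (𝓞 M), (2 : 𝓞 M) ∉ P.asIdeal → P ∉ T → IsSquare (P.valuation M x) :=
      fun P h2 hPT => se1_val (sg_r2 D s) P h2 hd (hevδ P h2 hPT) (hloc P)
    have hTx : ∀ P ∈ T, IsSquare (algebraMap M (P.adicCompletion M) x) ∨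
        IsSquare (algebraMap M (P.adicCompletion M) (x * (d * (rs7 D s : M)))) := by
      intro P hP
      refine se1_odd (sg_r2 D s) P (H.two P hP) hd ?_ (hloc P)
      rw [c2_val_rs7]
      exact (H.mem_iff (H.two P hP)).1 hP
    obtain ⟨m, U, y, hUT, hy, hxy⟩ := fs_decomp H hD hx hevx fun P hP =>
      TRX.c7_ur_wb (sg_r2 D s) P (fs_wb hD hP) (hU P hP) hx (hloc P)
    have hrows : ∀ P ∈ T, fnrow (aM z) (fun P => if TT.qr P (algebraMap (𝓞 L) (𝓞 M) (ε : 𝓞 L) * (if i then -(p1 D s) else 1) *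
        (if j then -(p2 D s) else 1)) = -1 then 1 else 0) (nu D s) T (fun Q => if Q ∈ U then 1 else 0) (if m then 1 else 0) P = 0 := by
      intro P hP
      have h1 := hTx P hP
      have e : x * (d * (rs7 D s : M)) = (sgx D s z m U : M) * (d * (rs7 D s : M)) * y ^ 2 := by
        rw [hxy]
        ring
      rw [e, hxy, s5_sq hy, s5_sq hy, sgx_row H hUT m hP] at h1
      exact h1
    have hcond : Rm (cd D s T z ε) i ∨ (if m then (1 : ZMod 2) else 0) = 0 := by
      by_cases hR : Rm (cd D s T z ε) i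
      · exact Or.inl hR
      · right
        have hP : p1 D s ∈ (bl_V hD s).asIdeal := Ideal.mem_span_singleton_self _
        have h1 := (sg_loc_p1u hD hP ((H.ur_p1 hP hD).2 hR) hx).1 (hloc _)
        rw [hxy, map_mul, map_pow, c2_mul_sq ((Valuation.ne_zero_iff _).2 hy), sgx_p1 H hD hUT m hP] at h1
        cases m
        · rfl
        · exact absurd h1 hr_par_exp
    rcases hw0 _ _ hrows hcond with ⟨h1, h2⟩ | ⟨h1, h2⟩
    · left
      have hU0 : U = ∅ := by
        rw [Finset.eq_empty_iff_forall_notMem]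
        intro Q hQ
        have h3 := h1 Q (hUT hQ)
        rw [if_pos hQ] at h3
        exact one_ne_zero h3
      have hm0 : m = false := by
        cases m
        · rfl
        · exact absurd h2 one_ne_zero
      rw [hxy, hU0, hm0]
      refine ⟨y, ?_⟩
      unfold sgx
      rw [if_neg (by decide), Finset.prod_empty, one_mul]
      have e : ((1 : 𝓞 M) : M) = 1 := map_one _
      rw [e, one_mul, sq]
    · right
      have hU1 : U = T := by
        refine Finset.Subset.antisymm hUT fun Q hQ => ?_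
        by_contra hcon
        have h3 := h1 Q hQ
        rw [if_neg hcon] at h3
        exact zero_ne_one h3
      have hm1 : m = i := by
        cases m <;> cases i
        · rfl
        · exact absurd h2 zero_ne_one
        · exact absurd h2 one_ne_zero
        · rfl
      rw [hxy, hU1, hm1, hδ]
      exact ⟨(sgx D s z i T : M) * y * y1, by ring⟩

end

end TRZ
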