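import Pool.Agent.TRZ.FG1
import Pool.Agent.TRZ.C2
import Pool.Agent.TRZ.T1

/-! # [ALL2-FE, FG] the character of the curve -/

set_option autoImplicit false
set_option linter.unusedSectionVars false

open NumberField Ideal IsDedekindDomain
open scoped Real Classical ComplexConjugate
open TR TRG TRP TTS TU TT

namespace TRZ

section
variable {L M : Type} [Field L] [NumberField L] [Field M] [NumberField M] [Algebra L M]
  [IsTotallyReal L] {D : Dat L M}

theorem fg_ce {c : 𝓞 L} {i : Bool} (h : Rm c i) : ce c i = (if i then 3 else 2) ∧ ce c i ≠ 0 := by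
  unfold ce
  rw [if_pos h]
  cases i <;> simp

theorem fg_p1 (D : Dat L M) (s : Bool) : p1 D s = p2 D (!s) := by
  unfold p2
  rw [Bool.not_not]

theorem fg_cop12 (s : Bool) : IsCoprime (span {p1 D s}) (span {p2 D s}) := by
  rw [Ideal.isCoprime_span_singleton_iff]
  exact ⟨1, 1, by rw [one_mul, one_mul, x_add]⟩

/-- products of odd primes are coprime to `2` -/
theorem fg_cop2 {T : Finset (HeightOneSpectrum (𝓞 M))} (h2 : ∀ P ∈ T, (2 : 𝓞 M) ∉ P.asIdeal) :
    IsCoprime (∏ P ∈ T, P.asIdeal) (span {(2 : 𝓞 M)}) := by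
  refine IsCoprime.prod_left fun P hP => ?_
  rw [Ideal.isCoprime_iff_sup_eq]
  have h1 := P.isMaximal.1.2 (P.asIdeal ⊔ span {(2 : 𝓞 M)})
  apply h1
  refine lt_of_le_of_ne le_sup_left fun h => h2 P hP ?_
  rw [h]
  exact Ideal.mem_sup_right (Ideal.mem_span_singleton_self _)

theorem fg_copp {I : Ideal (𝓞 M)} (h : IsCoprime I (span {(2 : 𝓞 M)})) (s : Bool) (a : ℕ) : IsCoprime I (span {p1 D s} ^ a) := by
  apply IsCoprime.pow_right
  rw [← x_mul D s, ← Ideal.span_singleton_mul_span_singleton] at h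
  exact h.of_mul_right_left

variable (hD : Od2 D)
include hD

theorem fg_side (s : Bool) {c : 𝓞 L} (hc : c ∉ span {(2 : 𝓞 L)}) (i : Bool) :
    PQ (span {p2 D s} ^ ce c i) (fun x => kp c i (rd8 D s x)) := by
  by_cases h : Rm c i
  · rw [(fg_ce h).1]
    exact fg_p2 hD s (kp_kp hD hc h)
  · have e : ce c i = 0 := by
      unfold ce
      rw [if_neg h]
    rw [e, pow_zero, Ideal.one_eq_top, kp_one hD h]
    exact fg_top

section
variable {s : Bool} {d : M} {T : Finset (HeightOneSpectrum (𝓞 M))} {z : HeightOneSpectrum (𝓞 M) → 𝓞 M} {ε : (𝓞 L)ˣ} {i j : Bool}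
  (H : DK D s d T z ε i j)
include H

omit H in
theorem fg_unit (ε : (𝓞 L)ˣ) : (ε : 𝓞 L) ∉ span {(2 : 𝓞 L)} := fun h =>
  hD.two.ne_top (Ideal.eq_top_of_isUnit_mem _ h ε.isUnit)

theorem DK.fg_cd : cd D s T z ε ∉ span {(2 : 𝓞 L)} := by
  unfold cd
  rw [rd8_even hD (!s)]
  have hpr := x_prime hD (!s)
  let v : HeightOneSpectrum (𝓞 M) := ⟨span {p2 D (!s)}, hpr, by
    rw [Ne, Ideal.span_singleton_eq_bot]
    exact x1_p2_ne (!s)⟩
  have h2 : (2 : 𝓞 M) ∈ v.asIdeal := c1_mem_two (Ideal.mem_span_singleton_self _)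
  intro hmem
  rcases hpr.mem_or_mem hmem with h | h
  · rw [neg_mem_iff] at h
    exact c2_unit_not v ε h
  · exact H.prod_not (v := v) (H.two_not h2) h

/-- [FG] -/
theorem DK.pq : PQ (fK D s T (cd D s T z ε) (ε : 𝓞 L) i j) (WK D s T (kp (cd D s T z ε) i) (kp (ε : 𝓞 L) j)) := by
  have h2 := fg_cop2 H.two
  have hA := fg_side hD (!s) (H.fg_cd hD) i
  rw [← fg_p1] at hA
  have hB := fg_side hD s (fg_unit hD ε) j
  have hc1 := fg_copp (D := D) h2 s (ce (cd D s T z ε) i)
  have hc2 := fg_copp (D := D) h2 (!s) (ce (ε : 𝓞 L) j)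
  rw [show p1 D (!s) = p2 D s from rfl] at hc2
  exact ((fg_prod H.two).prod hA hc1).prod hB (IsCoprime.mul_left hc2 (fg_cop12 (D := D) s).pow)

theorem DK.hc {Φ : Ideal (𝓞 M) →*₀ ℂ} (hΦ : PhiK D s T (kp (cd D s T z ε) i) (kp (ε : 𝓞 L) j) Φ) :
    HC D (fK D s T (cd D s T z ε) (ε : 𝓞 L) i j) (WK D s T (kp (cd D s T z ε) i) (kp (ε : 𝓞 L) j)) Φ where
  pq := DK.pq hD H
  span_eq := hΦ.span_eq
  norm_eq I hI := by
    have hno : ∀ Q : Ideal (𝓞 M), Q ≠ ⊤ → fK D s T (cd D s T z ε) (ε : 𝓞 L) i j ≤ Q → ¬ I ≤ Q := by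
      intro Q hQ h1 h3
      rw [Ideal.isCoprime_iff_sup_eq] at hI
      exact hQ (top_le_iff.1 (hI ▸ sup_le h3 h1))
    by_cases h0 : I = ⊥
    · rw [h0, ← Ideal.zero_eq_bot, map_zero, norm_zero, map_zero]
      norm_num
    refine hΦ.norm_eq I h0 ?_ ?_ ?_
    · intro P hP
      refine hno _ P.isPrime.ne_top ?_
      unfold fK
      refine Ideal.mul_le_left.trans (Ideal.mul_le_left.trans ?_)
      rw [← Finset.mul_prod_erase T _ hP]
      exact Ideal.mul_le_left
    · by_cases h : Rm (cd D s T z ε) i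
      · right
        have hp := x_prime hD (!s)
        rw [← fg_p1] at hp
        refine hno _ hp.ne_top ?_
        unfold fK
        exact Ideal.mul_le_left.trans (Ideal.mul_le_right.trans (Ideal.pow_le_self (fg_ce h).2))
      · left
        exact kp_one hD h
    · by_cases h : Rm (ε : 𝓞 L) j
      · right
        refine hno _ (x_prime hD s).ne_top ?_
        unfold fK
        exact Ideal.mul_le_right.trans (Ideal.pow_le_self (fg_ce h).2)
      · left
        exact kp_one hD h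

end

end

end TRZ
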