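import Pool.Agent.TRZ.FEDefs
import Pool.Agent.TRZ.X1

/-! # [ALL2-FE, FG1] primitive quadratic characters: products, the building blocks -/

set_option autoImplicit false
set_option linter.unusedSectionVars false

open NumberField Ideal IsDedekindDomain
open scoped Real Classical ComplexConjugate
open TR TRG TRP TTS TU TT

namespace TRZ

section
variable {M : Type} [Field M] [NumberField M]

theorem PQ.fg_one {𝔣 : Ideal (𝓞 M)} {W : 𝓞 M → ℤ} (h : PQ 𝔣 W) : W 1 = 1 := by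
  have h1 := h.mul 1 1
  rw [mul_one] at h1
  have h2 : W 1 ≠ 0 := by
    intro h0
    obtain ⟨P, -, hP⟩ := (h.zero 1).1 h0
    exact P.isPrime.ne_top ((Ideal.eq_top_iff_one _).2 hP)
  rcases h.val 1 with h3 | h3 | h3
  · exact absurd h3 h2
  · exact h3
  · rw [h3] at h1
    norm_num at h1

theorem PQ.fg_congr {𝔣 : Ideal (𝓞 M)} {W : 𝓞 M → ℤ} (h : PQ 𝔣 W) {x y : 𝓞 M} (hxy : x - y ∈ 𝔣) : W x = W y := by
  have h1 := h.per y (x - y) hxy
  rwa [add_sub_cancel] at h1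

theorem fg_cases {a b : ℤ} (ha : a = 0 ∨ a = 1 ∨ a = -1) (hb : b = 0 ∨ b = 1 ∨ b = -1) :
    a * b = 0 ∨ a * b = 1 ∨ a * b = -1 := by
  rcases ha with rfl | rfl | rfl <;> rcases hb with rfl | rfl | rfl <;> simp

theorem fg_crt {I J : Ideal (𝓞 M)} (h : IsCoprime I J) (a b : 𝓞 M) : ∃ x : 𝓞 M, x - a ∈ I ∧ x - b ∈ J := by
  obtain ⟨u, hu, v, hv, huv⟩ := Ideal.isCoprime_iff_exists.1 h
  refine ⟨a * v + b * u, ?_, ?_⟩
  · have e : a * v + b * u - a = (b - a) * u := by linear_combination a * huv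
    rw [e]
    exact Ideal.mul_mem_left _ _ hu
  · have e : a * v + b * u - b = (a - b) * v := by linear_combination b * huv
    rw [e]
    exact Ideal.mul_mem_left _ _ hv

/-- one half of the primitivity of a product -/
theorem PQ.fg_prim {𝔣 𝔣' : Ideal (𝓞 M)} {W W' : 𝓞 M → ℤ} (h : PQ 𝔣 W) (h' : PQ 𝔣' W') (hc : IsCoprime 𝔣 𝔣')
    {P : HeightOneSpectrum (𝓞 M)} {𝔤 : Ideal (𝓞 M)} (hP : 𝔣 ≤ P.asIdeal) (hg : 𝔣 * 𝔣' = P.asIdeal * 𝔤) :
    ∃ x, x - 1 ∈ 𝔤 ∧ W x * W' x = -1 := by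
  obtain ⟨𝔤₁, hg1⟩ := Ideal.dvd_iff_le.2 hP
  have h1 : 𝔤 = 𝔤₁ * 𝔣' := by
    rw [hg1, mul_assoc] at hg
    exact (mul_left_cancel₀ P.ne_bot hg).symm
  obtain ⟨x₁, hx1, hx2⟩ := h.prim P 𝔤₁ hg1
  obtain ⟨x, hx, hx'⟩ := fg_crt hc x₁ 1
  refine ⟨x, ?_, ?_⟩
  · have hc1 : IsCoprime 𝔤₁ 𝔣' := by
      rw [hg1] at hc
      exact hc.of_mul_left_right
    rw [h1, Ideal.mul_eq_inf_of_isCoprime hc1]
    refine ⟨?_, hx'⟩
    have e : x - 1 = (x - x₁) + (x₁ - 1) := by ring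
    rw [e]
    refine add_mem ?_ hx1
    rw [hg1] at hx
    exact Ideal.mul_le_right hx
  · rw [h.fg_congr hx, h'.fg_congr hx', hx2, h'.fg_one]
    norm_num

/-- the product of two primitive quadratic characters with coprime moduli -/
theorem PQ.prod {𝔣 𝔣' : Ideal (𝓞 M)} {W W' : 𝓞 M → ℤ} (h : PQ 𝔣 W) (h' : PQ 𝔣' W') (hc : IsCoprime 𝔣 𝔣') :
    PQ (𝔣 * 𝔣') (fun x => W x * W' x) where
  ne := mul_ne_zero h.ne h'.ne
  mul x y := by
    show W (x * y) * W' (x * y) = W x * W' x * (W y * W' y)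
    rw [h.mul, h'.mul]
    ring
  per x y hy := by
    have h1 : y ∈ 𝔣 := Ideal.mul_le_left hy
    have h2 : y ∈ 𝔣' := Ideal.mul_le_right hy
    show W (x + y) * W' (x + y) = W x * W' x
    rw [h.per x y h1, h'.per x y h2]
  val x := fg_cases (h.val x) (h'.val x)
  zero x := by
    show W x * W' x = 0 ↔ _
    rw [mul_eq_zero, h.zero, h'.zero]
    constructor
    · rintro (⟨P, h1, h2⟩ | ⟨P, h1, h2⟩)
      · exact ⟨P, Ideal.mul_le_left.trans h1, h2⟩
      · exact ⟨P, Ideal.mul_le_right.trans h1, h2⟩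
    · rintro ⟨P, h1, h2⟩
      rcases P.isPrime.mul_le.1 h1 with h3 | h3
      · exact Or.inl ⟨P, h3, h2⟩
      · exact Or.inr ⟨P, h3, h2⟩
  prim P 𝔤 hg := by
    have h1 : 𝔣 * 𝔣' ≤ P.asIdeal := by
      rw [hg]
      exact Ideal.mul_le_left
    rcases P.isPrime.mul_le.1 h1 with h3 | h3
    · exact h.fg_prim h' hc h3 hg
    · rw [mul_comm] at hg
      obtain ⟨x, hx, hx'⟩ := h'.fg_prim h hc.symm h3 hg
      exact ⟨x, hx, by rw [mul_comm]; exact hx'⟩

/-- the trivial character -/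
theorem fg_top : PQ (⊤ : Ideal (𝓞 M)) (fun _ => 1) where
  ne := top_ne_bot
  mul _ _ := by norm_num
  per _ _ _ := rfl
  val _ := Or.inr (Or.inl rfl)
  zero x := by
    constructor
    · intro h
      exact absurd h one_ne_zero
    · rintro ⟨P, hP, -⟩
      exact absurd (top_le_iff.1 hP) P.isPrime.ne_top
  prim P 𝔤 hg := by
    exfalso
    apply P.isPrime.ne_top
    rw [eq_top_iff, hg]
    exact Ideal.mul_le_left

/-- the quadratic residue symbol -/
theorem fg_qr {P : HeightOneSpectrum (𝓞 M)} (h2 : (2 : 𝓞 M) ∉ P.asIdeal) : PQ P.asIdeal (TT.qr P) where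
  ne := P.ne_bot
  mul := TT.qr_mul P h2
  per x y hy := qr_congr P (by rwa [add_sub_cancel_left])
  val := qr_cases P
  zero x := by
    rw [qr_eq_zero]
    constructor
    · exact fun h => ⟨P, le_rfl, h⟩
    · rintro ⟨Q, hQ, hx⟩
      rwa [P.isMaximal.eq_of_le Q.isPrime.ne_top hQ]
  prim Q 𝔤 hg := by
    have hQ : P.asIdeal ≤ Q.asIdeal := by
      rw [hg]
      exact Ideal.mul_le_left
    have h1 := P.isMaximal.eq_of_le Q.isPrime.ne_top hQ
    have h3 : 𝔤 = ⊤ := by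
      rw [h1] at hg
      have h4 : Q.asIdeal * 1 = Q.asIdeal * 𝔤 := by rw [mul_one]; exact hg
      have h5 := mul_left_cancel₀ Q.ne_bot h4
      rw [← h5, Ideal.one_eq_top]
    obtain ⟨x, hx⟩ := exists_qr_neg P h2
    refine ⟨x, ?_, hx⟩
    rw [h3]
    exact Submodule.mem_top

/-- products over a finite set of odd primes -/
theorem fg_prod {T : Finset (HeightOneSpectrum (𝓞 M))} (h2 : ∀ P ∈ T, (2 : 𝓞 M) ∉ P.asIdeal) :
    PQ (∏ P ∈ T, P.asIdeal) (fun x => ∏ P ∈ T, TT.qr P x) := by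
  induction T using Finset.induction_on with
  | empty =>
    simp only [Finset.prod_empty]
    rw [Ideal.one_eq_top]
    exact fg_top (M := M)
  | insert P S hP ih =>
    simp only [Finset.prod_insert hP]
    refine (fg_qr (h2 P (Finset.mem_insert_self _ _))).prod (ih fun Q hQ => h2 Q (Finset.mem_insert_of_mem hQ)) ?_
    refine IsCoprime.prod_right fun Q hQ => ?_
    rw [Ideal.isCoprime_iff_sup_eq]
    refine P.isMaximal.coprime_of_ne Q.isMaximal fun h => hP ?_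
    have e : P = Q := HeightOneSpectrum.ext h
    rw [e]
    exact hQ

end

section
variable {L M : Type} [Field L] [NumberField L] [Field M] [NumberField M] [Algebra L M]
  [IsTotallyReal L] {D : Dat L M} (hD : Od2 D)
include hD

/-- the residue modulo `2^k` -/
theorem fg_rd (s : Bool) {k : ℕ} (h2 : 2 ≤ k) (h3 : k ≤ 3) {x y : 𝓞 M} (h : x - y ∈ span {p2 D s ^ k}) :
    ∃ c : 𝓞 L, rd8 D s x = rd8 D s y + 2 ^ k * c := by
  have hle : span {p2 D s ^ 3} ≤ span {p2 D s ^ k} :=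
    Ideal.span_singleton_le_span_singleton.2 (pow_dvd_pow _ h3)
  have h1 := hle (rd8_cong hD s x)
  have h4 := hle (rd8_cong hD s y)
  have e : algebraMap (𝓞 L) (𝓞 M) (rd8 D s x - rd8 D s y) = (x - y) - (x - algebraMap (𝓞 L) (𝓞 M) (rd8 D s x)) +
      (y - algebraMap (𝓞 L) (𝓞 M) (rd8 D s y)) := by
    rw [map_sub]
    ring
  have h5 : algebraMap (𝓞 L) (𝓞 M) (rd8 D s x - rd8 D s y) ∈ span {p2 D s ^ k} := by
    rw [e]
    exact add_mem (sub_mem h h1) h4
  have hk : k = 2 ∨ k = 3 := by omega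
  rcases hk with rfl | rfl
  · obtain ⟨c, hc⟩ := x1_four s h5
    exact ⟨c, by linear_combination hc⟩
  · obtain ⟨c, hc⟩ := Ideal.mem_span_singleton'.1 (x1_eight s h5)
    exact ⟨c, by linear_combination -hc⟩

/-- the character at a prime above `2` -/
theorem fg_p2 (s : Bool) {k : ℕ} {κ : 𝓞 L → ℤ} (hk : Kp k κ) : PQ (span {p2 D s} ^ k) (fun x => κ (rd8 D s x)) := by
  have hp := x_prime hD s
  have hk0 : k ≠ 0 := by
    have := hk.two_le
    omega
  have hPeq : ∀ P : HeightOneSpectrum (𝓞 M), span {p2 D s} ^ k ≤ P.asIdeal → P.asIdeal = span {p2 D s} := by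
    intro P hP
    have h1 : span {p2 D s} ≤ P.asIdeal := P.isPrime.le_of_pow_le hP
    have h2 : (span {p2 D s}).IsMaximal := by
      refine hp.isMaximal ?_
      rw [Ne, Ideal.span_singleton_eq_bot]
      exact x1_p2_ne s
    exact (h2.eq_of_le P.isPrime.ne_top h1).symm
  refine ⟨?_, ?_, ?_, fun x => hk.val _, ?_, ?_⟩
  · apply pow_ne_zero
    rw [Ideal.zero_eq_bot, Ne, Ideal.span_singleton_eq_bot]
    exact x1_p2_ne s
  · intro x y
    show κ (rd8 D s (x * y)) = κ (rd8 D s x) * κ (rd8 D s y)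
    rw [x1_kp_per hk (rd8_mul hD s x y), hk.mul]
  · intro x y hy
    show κ (rd8 D s (x + y)) = κ (rd8 D s x)
    rw [Ideal.span_singleton_pow] at hy
    obtain ⟨c, hc⟩ := fg_rd hD s hk.two_le hk.le_three (x := x + y) (y := x) (by rwa [add_sub_cancel_left])
    rw [hc, hk.per]
  · intro x
    show κ (rd8 D s x) = 0 ↔ _
    rw [hk.zero, rd8_even hD]
    constructor
    · intro h
      refine ⟨⟨span {p2 D s}, hp, ?_⟩, Ideal.pow_le_self hk0, h⟩
      rw [Ne, Ideal.span_singleton_eq_bot]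
      exact x1_p2_ne s
    · rintro ⟨P, hP, hx⟩
      rwa [hPeq P hP] at hx
  · intro P 𝔤 hg
    have hle : span {p2 D s} ^ k ≤ P.asIdeal := by
      rw [hg]
      exact Ideal.mul_le_left
    have hPe := hPeq P hle
    have h𝔤 : 𝔤 = span {p2 D s ^ (k - 1)} := by
      have h1 : span {p2 D s} * 𝔤 = span {p2 D s} * span {p2 D s} ^ (k - 1) := by
        rw [← pow_succ', Nat.sub_add_cancel (by have := hk.two_le; omega), hg, hPe]
      have h2 := mul_left_cancel₀ (by rw [Ne, Ideal.zero_eq_bot, Ideal.span_singleton_eq_bot]; exact x1_p2_ne s) h1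
      rw [h2, Ideal.span_singleton_pow]
    obtain ⟨y, hy⟩ := hk.prim
    refine ⟨algebraMap (𝓞 L) (𝓞 M) (1 + 2 ^ (k - 1) * y), ?_, ?_⟩
    · rw [h𝔤, map_add, map_one, add_sub_cancel_left, map_mul, map_pow, map_ofNat, ← x_mul D s, mul_pow, Ideal.mem_span_singleton]
      refine Dvd.dvd.mul_right ?_ _
      exact Dvd.intro_left _ rfl
    · show κ (rd8 D s (algebraMap (𝓞 L) (𝓞 M) (1 + 2 ^ (k - 1) * y))) = -1
      rw [x1_kp_per hk (rd8_alg hD s _), hy]

end

end TRZ
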