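import Pool.Agent.TRP.GE

/-! # [ALL2-G] the Galois action on the values of the Eisenstein series with an odd periodic weight, any level `n > 2` (port of `TRP.GE`) -/

set_option autoImplicit false
set_option linter.unusedSectionVars false

open NumberField Ideal
open scoped Real Classical Topology Matrix
open TR TRS TRG TRH TRP

namespace TRZ

section
variable {N : ℕ} [NeZero N]

theorem two_pB {v : Fin 2 → ZMod N} (hv : (2 : ZMod N) • v ≠ 0) (B : GN N) : 2 * pB v B ∉ per.lattice := by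
  have h1 : 2 * pB v B = zv N (fun i => 2 * liftV (v ᵥ* (B⁻¹).val) i) := by
    unfold pB zv
    push_cast
    ring
  rw [h1, zv_mem (NeZero.pos N)]
  rintro ⟨h0, h1⟩
  refine vB_ne hv B ?_
  rw [Matrix.smul_vecMul]
  have h2 : ∀ i, (N : ℤ) ∣ 2 * liftV (v ᵥ* (B⁻¹).val) i := by
    intro i
    fin_cases i
    · exact h0
    · exact h1
  funext i
  have h3 := (ZMod.intCast_zmod_eq_zero_iff_dvd _ N).2 (h2 i)
  rw [Int.cast_mul, Int.cast_ofNat, congrFun (liftV_cast (v ᵥ* (B⁻¹).val)) i] at h3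
  rw [Pi.smul_apply, smul_eq_mul, h3, Pi.zero_apply]

theorem YY_ne {v : Fin 2 → ZMod N} (hv : (2 : ZMod N) • v ≠ 0) (B : GN N) : YY (pB v B) ≠ 0 := by
  have hv1 : v ≠ 0 := by
    rintro rfl
    exact hv (smul_zero _)
  unfold YY
  intro h
  have h1 : per.derivWeierstrassP (pB v B) = 0 := by
    rcases mul_eq_zero.1 h with h2 | h2
    · norm_num at h2
    · exact h2
  exact two_pB hv B ((WP63.dwp_eq_zero_iff per (pB_mem hv1 B)).1 h1)

omit [NeZero N] in
theorem two_ne (hN : 2 < N) : (2 : ZMod N) ≠ 0 := by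
  intro h
  have h1 : ((2 : ℕ) : ZMod N) = 0 := by exact_mod_cast h
  rw [ZMod.natCast_eq_zero_iff] at h1
  have := Nat.le_of_dvd (by norm_num) h1
  omega

omit [NeZero N] in
theorem v0_two (hN : 2 < N) : (2 : ZMod N) • v0 N ≠ 0 := by
  intro h
  have h1 := congrFun h 0
  simp only [v0, Pi.smul_apply, Matrix.cons_val_zero, smul_eq_mul, mul_one, Pi.zero_apply] at h1
  exact two_ne hN h1

omit [NeZero N] in
theorem v1_two (hN : 2 < N) : (2 : ZMod N) • v1 N ≠ 0 := by
  intro h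
  have h1 := congrFun h 1
  simp only [v1, Pi.smul_apply, Matrix.cons_val_one, smul_eq_mul, mul_one, Pi.zero_apply, Matrix.cons_val_fin_one] at h1
  exact two_ne hN h1

theorem zZ_sep (hN2 : 2 < N) {B B' : GN N} (h : ∀ i, zZ i B = zZ i B') :
    B' = B ∨ B' = -B := by
  have hN : 1 < N := by omega
  obtain ⟨a0, a1, a2, a3, a4⟩ := zZ_val hN B
  obtain ⟨b0, b1, b2, b3, b4⟩ := zZ_val hN B'
  have h0 := h 0
  have h1 := h 1
  have h2 := h 2
  have h3 := h 3
  have h4 := h 4
  rw [a0, b0] at h0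
  rw [a1, b1] at h1
  rw [a2, b2] at h2
  rw [a3, b3] at h3
  rw [a4, b4] at h4
  have hNc : (N : ℂ) ≠ 0 := by exact_mod_cast NeZero.ne N
  have hY0 := YY_ne (v0_two hN2) B
  have hY1 := YY_ne (v1_two hN2) B
  have hY0' := YY_ne (v0_two hN2) B'
  have hY1' := YY_ne (v1_two hN2) B'
  have m0 := pB_mem (v0_ne hN) B
  have m1 := pB_mem (v1_ne hN) B
  have m0' := pB_mem (v0_ne hN) B'
  have m1' := pB_mem (v1_ne hN) B'
  set Y0 := YY (pB (v0 N) B)
  set Y1 := YY (pB (v1 N) B)
  set Y0' := YY (pB (v0 N) B')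
  set Y1' := YY (pB (v1 N) B')
  have g0 : Y0 * Y0 = Y0' * Y0' := by
    field_simp at h0
    linear_combination -h0
  have g1 : Y0 * Y1 = Y0' * Y1' := by
    field_simp at h1
    linear_combination -h1
  have g2 : Y1 * Y1 = Y1' * Y1' := by
    field_simp at h2
    linear_combination -h2
  have g3 : XX (pB (v0 N) B) = XX (pB (v0 N) B') := by
    have e1 : Y0 * Y0 * XX (pB (v0 N) B) = Y0 * Y0 * XX (pB (v0 N) B') := by
      have e2 : Y0 * Y0 * XX (pB (v0 N) B) = Y0' * Y0' * XX (pB (v0 N) B') := by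
        field_simp at h3
        linear_combination h3
      rw [e2, g0]
    exact mul_left_cancel₀ (mul_ne_zero hY0 hY0) e1
  have g4 : XX (pB (v1 N) B) = XX (pB (v1 N) B') := by
    have e1 : Y1 * Y1 * XX (pB (v1 N) B) = Y1 * Y1 * XX (pB (v1 N) B') := by
      have e2 : Y1 * Y1 * XX (pB (v1 N) B) = Y1' * Y1' * XX (pB (v1 N) B') := by
        field_simp at h4
        linear_combination h4
      rw [e2, g2]
    exact mul_left_cancel₀ (mul_ne_zero hY1 hY1) e1
  obtain ⟨e, he, f0, f1⟩ : ∃ e : ℤ, (e = 1 ∨ e = -1) ∧ Y0 = e * Y0' ∧ Y1 = e * Y1' := by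
    rcases mul_self_eq_mul_self_iff.1 g0 with k0 | k0
    · refine ⟨1, Or.inl rfl, by push_cast; rw [k0, one_mul], ?_⟩
      rw [k0] at g1
      push_cast
      rw [one_mul]
      exact mul_left_cancel₀ hY0' g1
    · refine ⟨-1, Or.inr rfl, by push_cast; rw [k0]; ring, ?_⟩
      rw [k0] at g1
      push_cast
      have : Y0' * -Y1 = Y0' * Y1' := by linear_combination g1
      have := mul_left_cancel₀ hY0' this
      rw [← this]
      ring
  have c0 := vec_sign (pt_sign m0 m0' g3 he f0)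
  have c1 := vec_sign (pt_sign m1 m1' g4 he f1)
  have key : (B⁻¹).val = (e : ZMod N) • (B'⁻¹).val := by
    ext i j
    fin_cases i
    · have := congrFun c0 j
      simpa [v0, Matrix.vecMul, dotProduct] using this
    · have := congrFun c1 j
      simpa [v1, Matrix.vecMul, dotProduct] using this
  rcases he with rfl | rfl
  · left
    have h5 : B⁻¹ = B'⁻¹ := Units.ext (by rw [key]; simp)
    exact (inv_injective h5).symm
  · right
    have h5 : B⁻¹ = -B'⁻¹ := Units.ext (by rw [key, Units.val_neg]; simp)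
    have h6 : B = -B' := by
      have h7 := congrArg (fun x => x⁻¹) h5
      simpa using h7
    rw [h6, neg_neg]

end

section
variable {N : ℕ} [NeZero N] {σ : ℂ ≃+* ℂ} {a b a' b' : ℤ} {ρ : GN N} (G : GalD N σ a b a' b' ρ)
  (hN2 : 2 < N) {k : ℕ} {f : GN N → ℂ → ℂ} (hf : Fam N (4 * k) f)
include hf

include G hN2 in
/-- MAIN THEOREM on values of families: the Galois action -/
theorem gal_value (B : GN N) :
    σ (f B tau0 / varpi ^ (4 * k)) = f (ρ * B) tau0 / varpi ^ (4 * k) := by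
  have key := separation (fun i B => zZ i (ρ * B))
    (fun B => σ (f B tau0 / varpi ^ (4 * k)) - f (ρ * B) tau0 / varpi ^ (4 * k)) ?_ ?_ B
  · exact sub_eq_zero.1 key
  · intro B B' h
    have hneg : ∀ C : GN N, f (-C) tau0 = f C tau0 := by
      intro C
      rw [hf.neg_apply C tau0_im]
      have : ((-1 : ℂ)) ^ (4 * k) = 1 := by
        rw [pow_mul]
        norm_num
      rw [this, one_mul]
    rcases zZ_sep hN2 h with h1 | h1
    · have h2 : B' = B := mul_left_cancel h1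
      rw [h2]
    · have h2 : B' = -B := by
        apply mul_left_cancel (a := ρ)
        rw [h1, mul_neg]
      have h3 : ρ * B' = -(ρ * B) := h1
      show σ (f B tau0 / varpi ^ (4 * k)) - f (ρ * B) tau0 / varpi ^ (4 * k) =
        σ (f B' tau0 / varpi ^ (4 * k)) - f (ρ * B') tau0 / varpi ^ (4 * k)
      rw [h3, hneg, h2, hneg]
  · intro e
    obtain ⟨q, hq⟩ := trace_mono hf e
    have h1 : ∑ B : GN N, f (ρ * B) tau0 / varpi ^ (4 * k) * ∏ i, zZ i (ρ * B) ^ e i = (q : ℂ) := by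
      rw [← hq]
      exact Fintype.sum_equiv (Equiv.mulLeft ρ) _ _ fun B => rfl
    have h2 : ∑ B : GN N, σ (f B tau0 / varpi ^ (4 * k)) * ∏ i, zZ i (ρ * B) ^ e i = (q : ℂ) := by
      have h3 := congrArg σ hq
      rw [map_sum, map_ratCast] at h3
      rw [← h3]
      refine Finset.sum_congr rfl fun B _ => ?_
      rw [map_mul, map_prod]
      congr 1
      refine Finset.prod_congr rfl fun i _ => ?_
      rw [map_pow, G.zZ_gal (by omega : 1 < N)]
    simp only [sub_mul]
    rw [Finset.sum_sub_distrib, h1, h2, sub_self]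

omit hf in
include G hN2 in
/-- the action on the roots of unity -/
theorem gal_cyc : σ (ee (1 / N)) = ee (((a ^ 2 - 7 * a * b + 14 * b ^ 2 : ℤ) : ℂ) / N) := by
  have h := gal_value G hN2 (k := 0) (det_fam N) 1
  simp only [mul_zero, pow_zero, div_one] at h
  have hNc : (N : ℂ) ≠ 0 := by exact_mod_cast NeZero.ne N
  have hper : ∀ x y : ℤ, (x : ZMod N) = (y : ZMod N) → ee ((x : ℂ) / N) = ee ((y : ℂ) / N) := by
    intro x y hxy
    obtain ⟨c, hc⟩ : (N : ℤ) ∣ x - y := by
      rw [← ZMod.intCast_zmod_eq_zero_iff_dvd, Int.cast_sub, hxy, sub_self]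
    have hx : (x : ℂ) / N = (y : ℂ) / N + c := by
      have : (x : ℂ) = y + N * c := by
        have h1 : x = y + N * c := by linarith
        exact_mod_cast congrArg (fun z : ℤ => (z : ℂ)) h1
      rw [this]
      field_simp
    rw [hx, v1_ee_add]
    have h2 : ee (c : ℂ) = 1 := by
      unfold ee
      rw [Complex.exp_eq_one_iff]
      exact ⟨c, by ring⟩
    rw [h2, mul_one]
  have e1 : ((((Matrix.GeneralLinearGroup.det (1 : GN N))⁻¹ : (ZMod N)ˣ) : ZMod N).val : ℂ) =
      (((1 : ZMod N).val : ℤ) : ℂ) := by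
    rw [map_one, inv_one, Units.val_one]
    push_cast
    rfl
  have e2 : ((((Matrix.GeneralLinearGroup.det (ρ * 1))⁻¹ : (ZMod N)ˣ) : ZMod N)) =
      ((a ^ 2 - 7 * a * b + 14 * b ^ 2 : ℤ) : ZMod N) := by
    rw [mul_one, ← map_inv]
    have h3 : ((Matrix.GeneralLinearGroup.det (ρ⁻¹) : (ZMod N)ˣ) : ZMod N) = (ρ⁻¹).val.det := rfl
    rw [h3, G.hρ', Matrix.det_fin_two]
    simp only [Matrix.map_apply, Mab, Matrix.of_apply, Matrix.cons_val_zero, Matrix.cons_val_one,
      Matrix.cons_val', Matrix.cons_val_fin_one]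
    push_cast
    ring
  rw [e1] at h
  have e3 : ee ((((1 : ZMod N).val : ℤ) : ℂ) / N) = ee (((1 : ℤ) : ℂ) / N) := by
    apply hper
    push_cast
    rw [ZMod.natCast_zmod_val]
  rw [e3, Int.cast_one] at h
  rw [h]
  have e4 : ((((((Matrix.GeneralLinearGroup.det (ρ * 1))⁻¹ : (ZMod N)ˣ) : ZMod N).val : ℕ)) : ℂ) =
      ((((((Matrix.GeneralLinearGroup.det (ρ * 1))⁻¹ : (ZMod N)ˣ) : ZMod N).val : ℤ)) : ℂ) := by
    push_cast
    rfl
  rw [e4]
  apply hper
  rw [Int.cast_natCast, ZMod.natCast_zmod_val, e2]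

end

section
variable {N : ℕ} [NeZero N]

/-- the vanishing principle -/
theorem ct_zero (hN2 : 2 < N) {k : ℕ} (hk : 1 ≤ k) (d : GN N → ℂ)
    (hneg : ∀ B, d (-B) = (-1) ^ k * d B)
    (hK : ∀ (m j : ℕ) (H : GN N → ℂ → ℂ) (h : GN N → ℕ → ℂ), k + m = 4 * j → FamA N m H h →
      ∑ B, d B * H B (-1 / tau0) = tau0 ^ (4 * j) * ∑ B, d B * H B tau0) (B : GN N) : d B = 0 := by
  have hN : 1 < N := by omega
  have ht0 : tau0 ≠ 0 := a2_ne tau0_im
  -- the linear relation
  have hlin : ∀ (m j : ℕ) (H : GN N → ℂ → ℂ), k + m = 4 * j → Fam N m H →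
      ∑ B, (d ((Sm N)⁻¹ * B) - tau0 ^ k * d B) * H B tau0 = 0 := by
    intro m j H hkm hH
    obtain ⟨h, hh⟩ := hH
    have h1 := hK m j H h hkm hh
    have h2 : ∑ B, d B * H B (-1 / tau0) = tau0 ^ m * ∑ B, d ((Sm N)⁻¹ * B) * H B tau0 := by
      rw [Finset.mul_sum]
      refine Fintype.sum_equiv (Equiv.mulLeft (Sm N)) _ _ fun B => ?_
      change _ = tau0 ^ m * (d ((Sm N)⁻¹ * (Sm N * B)) * H (Sm N * B) tau0)
      rw [hh.S B _ tau0_im, inv_mul_cancel_left]
      ring
    rw [h2, ← hkm, pow_add, mul_comm (tau0 ^ k), mul_assoc] at h1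
    have h3 := mul_left_cancel₀ (pow_ne_zero m ht0) h1
    simp only [sub_mul]
    rw [Finset.sum_sub_distrib, h3, Finset.mul_sum, ← Finset.sum_sub_distrib]
    refine Finset.sum_eq_zero fun B _ => ?_
    ring
  -- separation
  have hvp := varpi_ne
  have he : ∀ B : GN N, eB 3 (v0 N) B tau0 ≠ 0 := by
    intro B h0
    have h1 := e3_val (v0_ne hN) B
    rw [h0, zero_div] at h1
    have h2 := YY_ne (v0_two hN2) B
    have hNc : (N : ℂ) ≠ 0 := by exact_mod_cast NeZero.ne N
    refine (neg_ne_zero.2 (div_ne_zero h2 ?_)) h1.symm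
    exact mul_ne_zero (by norm_num) (pow_ne_zero _ hNc)
  have hH : ∀ e : Fin 5 → ℕ, Fam N (3 * k + 4 * ∑ i, wZ i * e i)
      (fun B τ => eB 3 (v0 N) B τ ^ k * ∏ i, Zf N i B τ ^ e i) := fun e =>
    ((eB_fam (N := N) (le_refl 3) (v0 N)).pow k).mul (prod_fam e Finset.univ)
  have hc : ∀ B : GN N, (d ((Sm N)⁻¹ * B) - tau0 ^ k * d B) * eB 3 (v0 N) B tau0 ^ k = 0 := by
    refine separation (fun i B => zZ i B) _ ?_ ?_
    · intro B B' h
      rcases zZ_sep hN2 h with h1 | h1
      · rw [h1]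
      · rw [h1, (eB_fam (N := N) (le_refl 3) (v0 N)).neg_apply B tau0_im, hneg, mul_neg, hneg]
        have h3 : ((-1 : ℂ) ^ 3) = -1 := by norm_num
        rw [h3]
        have h4 : ((-1 : ℂ) ^ k) * ((-1) ^ k) = 1 := by
          rw [← mul_pow]
          norm_num
        have h5 : (-1 * eB 3 (v0 N) B tau0) ^ k = (-1) ^ k * eB 3 (v0 N) B tau0 ^ k := mul_pow _ _ _
        rw [h5]
        linear_combination (-(d ((Sm N)⁻¹ * B) - tau0 ^ k * d B) * eB 3 (v0 N) B tau0 ^ k) * h4
    · intro e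
      have h1 := hlin _ (k + ∑ i, wZ i * e i) _ (by ring) (hH e)
      have h2 : ∀ B : GN N, ∏ i, zZ i B ^ e i =
          (∏ i, Zf N i B tau0 ^ e i) / varpi ^ (∑ i, 4 * wZ i * e i) := by
        intro B
        unfold zZ
        simp only [div_pow]
        rw [Finset.prod_div_distrib, ← Finset.prod_pow_eq_pow_sum]
        congr 1
        refine Finset.prod_congr rfl fun i _ => ?_
        rw [← pow_mul]
      calc _ = ∑ B, (d ((Sm N)⁻¹ * B) - tau0 ^ k * d B) *
            (eB 3 (v0 N) B tau0 ^ k * ∏ i, Zf N i B tau0 ^ e i) / varpi ^ (∑ i, 4 * wZ i * e i) := by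
            refine Finset.sum_congr rfl fun B _ => ?_
            rw [h2]
            ring
        _ = 0 := by rw [← Finset.sum_div, h1, zero_div]
  have hrel : ∀ B : GN N, d ((Sm N)⁻¹ * B) = tau0 ^ k * d B := by
    intro B
    rcases mul_eq_zero.1 (hc B) with h | h
    · exact sub_eq_zero.1 h
    · exact absurd h (pow_ne_zero _ (he B))
  have h2 : d (-B) = (tau0 ^ k) ^ 2 * d B := by
    have e : (-B) = (Sm N)⁻¹ * ((Sm N)⁻¹ * B) := by
      rw [eq_inv_mul_iff_mul_eq, eq_inv_mul_iff_mul_eq, ← mul_assoc]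
      have h := a2_Sm_sq N (-B)
      rw [neg_neg] at h
      rw [mul_assoc]
      exact h
    rw [e, hrel, hrel]
    ring
  rw [hneg] at h2
  have h3 : ((tau0 ^ k) ^ 2 - (-1) ^ k) * d B = 0 := by
    rw [sub_mul, h2, sub_self]
  exact (mul_eq_zero.1 h3).resolve_left (sub_ne_zero.2 (ct_tau0 hk))

/-- **the constant terms**: a family of modular forms of positive weight whose nonconstant coefficients are
permuted by the Galois group is a family -/
theorem famA_of_nonconst (hN2 : 2 < N) {k : ℕ} (hk : 1 ≤ k) {f : GN N → ℂ → ℂ}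
    {a : GN N → ℕ → ℂ}
    (hT : ∀ B (τ : ℂ), 0 < τ.im → f B (τ + 1) = f (Tm N * B) τ)
    (hS : ∀ B (τ : ℂ), 0 < τ.im → f B (-1 / τ) = τ ^ k * f (Sm N * B) τ)
    (hexp : ∀ B, Ex N (a B) (f B)) (halg : ∀ B n, n ≠ 0 → IsAlgebraic ℚ (a B n))
    (hgal : ∀ (σ : ℂ ≃+* ℂ) (s : ℤ) (u : (ZMod N)ˣ), (u : ZMod N) = s →
      σ (ee (1 / N)) = ee (s / N) → ∀ B n, n ≠ 0 → σ (a B n) = a (DG u⁻¹ * B) n) : FamA N k f a := by
  refine ⟨hT, hS, fun B n => ?_, fun B τ hτ => hexp B τ hτ, fun σ s u hu hs B n => ?_⟩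
  · -- algebraicity
    by_cases hn : n = 0
    · subst hn
      let A := algebraicClosure ℚ ℂ
      by_contra hc
      have hmem : ∀ x : ℂ, x ∈ A ↔ IsAlgebraic ℚ x := fun x => mem_algebraicClosure_iff
      let W : Submodule A ℂ := Submodule.span A {(1 : ℂ)}
      have hW : ∀ x : ℂ, x ∈ W ↔ IsAlgebraic ℚ x := by
        intro x
        rw [← hmem]
        change x ∈ Submodule.span A {(1 : ℂ)} ↔ _
        rw [Submodule.mem_span_singleton]
        constructor
        · rintro ⟨c, rfl⟩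
          have : c • (1 : ℂ) = (c : ℂ) := by
            rw [Algebra.smul_def, mul_one]
            rfl
          rw [this]
          exact c.2
        · intro hx
          refine ⟨⟨x, hx⟩, ?_⟩
          rw [Algebra.smul_def, mul_one]
          rfl
      have hne : W.mkQ (a B 0) ≠ 0 := by
        intro h0
        apply hc
        rw [← hW]
        rwa [Submodule.mkQ_apply, Submodule.Quotient.mk_eq_zero] at h0
      obtain ⟨φ, hφ⟩ : ∃ φ : Module.Dual A (ℂ ⧸ W), φ (W.mkQ (a B 0)) ≠ 0 := by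
        by_contra hcon
        push Not at hcon
        exact hne ((Module.forall_dual_apply_eq_zero_iff A _).1 hcon)
      let δ : ℂ →+ ℂ := ((algebraMap A ℂ : A →+* ℂ) : A →+ ℂ).comp
        ((φ.comp W.mkQ : ℂ →ₗ[A] A) : ℂ →+ A)
      have hδ : ∀ x : ℂ, δ x = ((φ (W.mkQ x) : A) : ℂ) := fun x => rfl
      have hδ0 : ∀ x : ℂ, IsAlgebraic ℚ x → δ x = 0 := by
        intro x hx
        rw [hδ]
        have : W.mkQ x = 0 := by
          rw [Submodule.mkQ_apply, Submodule.Quotient.mk_eq_zero]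
          exact (hW x).2 hx
        rw [this, map_zero]
        rfl
      have hδm : ∀ x y : ℂ, IsAlgebraic ℚ y → δ (x * y) = δ x * y := by
        intro x y hy
        have e : x * y = (⟨y, (hmem y).2 hy⟩ : A) • x := by
          rw [Algebra.smul_def, mul_comm]
          rfl
        rw [hδ, hδ, e, map_smul, map_smul, smul_eq_mul]
        rw [mul_comm]
        rfl
      have key := ct_zero hN2 hk (fun B => δ (a B 0)) (fun B => by
        have h1 := ct_neg hS hexp B
        have h2 : ((-1 : ℂ) ^ k) = (((-1 : ℤ) ^ k : ℤ) : ℂ) := by push_cast; rfl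
        show δ (a (-B) 0) = _
        rw [h1, h2, ct_int]) (fun m j H h hkm hH => by
        refine ct_sum hT hS hexp δ (fun B => δ (a B 0)) hkm hH fun n => ?_
        rw [map_sum]
        refine Finset.sum_congr rfl fun B _ => ?_
        rw [map_sum, Finset.sum_eq_single (0, n)]
        · exact hδm _ _ (hH.alg B n)
        · rintro ⟨i, l⟩ hq hne
          have hi : i ≠ 0 := by
            rintro rfl
            apply hne
            rw [Finset.HasAntidiagonal.mem_antidiagonal] at hq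
            simp only [zero_add] at hq
            rw [hq]
          exact hδ0 _ ((halg B i hi).mul (hH.alg B l))
        · intro h0
          exact absurd (by simp) h0) B
      rw [hδ] at key
      exact hφ (by exact_mod_cast key)
    · exact halg B n hn
  · by_cases hn : n = 0
    · subst hn
      let δ : ℂ →+ ℂ := ((σ : ℂ →+* ℂ) : ℂ →+ ℂ) - AddMonoidHom.id ℂ
      have hδ : ∀ x : ℂ, δ x = σ x - x := fun x => rfl
      have key := ct_zero hN2 hk (fun B => σ (a ((DG u⁻¹)⁻¹ * B) 0) - a B 0) (fun B => by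
        show σ (a ((DG u⁻¹)⁻¹ * -B) 0) - a (-B) 0 = _
        rw [mul_neg, ct_neg hS hexp, ct_neg hS hexp, map_mul, map_pow, map_neg, map_one]
        ring) (fun m j H h hkm hH => by
        refine ct_sum hT hS hexp δ (fun B => σ (a ((DG u⁻¹)⁻¹ * B) 0) - a B 0) hkm hH fun n => ?_
        rw [hδ, map_sum]
        have e1 : ∑ B : GN N, ∑ q ∈ Finset.HasAntidiagonal.antidiagonal n, a B q.1 * h B q.2 =
            ∑ B : GN N, ∑ q ∈ Finset.HasAntidiagonal.antidiagonal n,
              a (DG u⁻¹ * B) q.1 * h (DG u⁻¹ * B) q.2 :=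
          (Fintype.sum_equiv (Equiv.mulLeft (DG u⁻¹)) _ _ fun B => rfl).symm
        have e2 : ∑ B, (σ (a ((DG u⁻¹)⁻¹ * B) 0) - a B 0) * h B n =
            ∑ B, (σ (a B 0) - a (DG u⁻¹ * B) 0) * h (DG u⁻¹ * B) n := by
          refine (Fintype.sum_equiv (Equiv.mulLeft (DG u⁻¹)) _ _ fun B => ?_).symm
          change _ = (σ (a ((DG u⁻¹)⁻¹ * (DG u⁻¹ * B)) 0) - a (DG u⁻¹ * B) 0) * h (DG u⁻¹ * B) n
          rw [inv_mul_cancel_left]
        rw [e2]
        conv_lhs => rw [e1]
        rw [← Finset.sum_sub_distrib]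
        refine Finset.sum_congr rfl fun B _ => ?_
        rw [map_sum, ← Finset.sum_sub_distrib, Finset.sum_eq_single (0, n)]
        · simp only [map_mul, hH.gal σ s u hu hs]
          ring
        · rintro ⟨i, l⟩ hq hne
          have hi : i ≠ 0 := by
            rintro rfl
            apply hne
            rw [Finset.HasAntidiagonal.mem_antidiagonal] at hq
            simp only [zero_add] at hq
            rw [hq]
          simp only [map_mul, hH.gal σ s u hu hs, hgal σ s u hu hs B i hi, sub_self]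
        · intro h0
          exact absurd (by simp) h0) (DG u⁻¹ * B)
      simp only [inv_mul_cancel_left] at key
      exact sub_eq_zero.1 key
    · exact hgal σ s u hu hs B n hn

end

section
variable {L M : Type} [Field L] [NumberField L] [Field M] [NumberField M] [Algebra L M]
  [IsTotallyReal L] (D : Dat L M) (hg' : Odd (Module.finrank ℚ L)) {n : ℕ} {w : 𝓞 L × 𝓞 L → ℤ} (h : OW n w)

include D hg' h in
/-- the family -/
theorem GEf_fam [NeZero n] (hn2 : 2 < n) :
    FamA n (Module.finrank ℚ L)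
      (fun B τ => GEf n (fun x => w (actR (lift B) x)) τ)
      (fun B m => ae n (fun x => w (actR (lift B) x)) m) := by
  refine famA_of_nonconst hn2 Module.finrank_pos ?_ ?_ ?_ ?_ ?_
  · intro B τ hτ
    have hB := OW_act h (lift B)
    rw [GEf_T D hg' hB hτ, ge_step h (Tm n) B (lift_Tm n)]
  · intro B τ hτ
    have hB := OW_act h (lift B)
    rw [GEf_S D hg' hB hτ, ge_step h (Sm n) B (lift_Sm n)]
  · intro B
    exact ae_exp (OW_act h (lift B))
  · intro B m hm
    exact ae_alg (OW_act h (lift B)) hm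
  · intro σ s u hu hσ B m hm
    have hB := OW_act h (lift B)
    obtain ⟨t, ht⟩ : ∃ t : ℤ, ((u⁻¹ : (ZMod n)ˣ) : ZMod n) = t :=
      ⟨(((u⁻¹ : (ZMod n)ˣ) : ZMod n).val : ℤ), by
        rw [Int.cast_natCast, ZMod.natCast_zmod_val]⟩
    have hst : ((n : ℕ) : ℤ) ∣ s * t - 1 := by
      rw [← ZMod.intCast_zmod_eq_zero_iff_dvd, Int.cast_sub, Int.cast_mul, ← hu, ← ht, Int.cast_one,
        Units.mul_inv, sub_self]
    have h1 := ae_gal hB hst σ hσ hm
    have hDG := fun i j => lift_DG (N := n) u⁻¹ ht i j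
    rw [h1, ge_step h (DG u⁻¹) B hDG]

include D hg' h in
/-- the values are algebraic -/
theorem ale_alg (hn2 : 2 < n) : IsAlgebraic ℚ (ale n w) := by
  have : NeZero n := ⟨by omega⟩
  set g := Module.finrank ℚ L with hg
  have hfam : Fam n g (fun B τ => GEf n (fun x => w (actR (lift B) x)) τ) :=
    ⟨_, GEf_fam D hg' h hn2⟩
  have h1 := hfam.pow 4
  rw [mul_comm g 4] at h1
  have h2 := value_alg h1 1
  rw [GEf_lift_one D hg' h] at h2
  have h3 : ale n w ^ 4 = (105 : ℚ) ^ g * (GEf n w tau0 ^ 4 / E4f tau0 ^ g) := by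
    rw [ale_eq, ← hg, div_pow, ← pow_mul, mul_comm g 4, pow_mul, varpi_four, div_pow]
    have : E4f tau0 ^ g ≠ 0 := pow_ne_zero _ E4f_ne
    push_cast
    field_simp
  have h4 : IsAlgebraic ℚ (((105 : ℚ) : ℂ) ^ g) := (isAlgebraic_algebraMap (R := ℚ) (A := ℂ) 105).pow g
  have h5 : IsAlgebraic ℚ (ale n w ^ 4) := by
    rw [h3]
    exact h4.mul h2
  exact h5.of_pow (by norm_num)

include D hg' h in
/-- the Galois action -/
theorem ale_gal {σ : ℂ ≃+* ℂ} {a b a' b' : ℤ} {ρ : GN n} (G : GalD n σ a b a' b' ρ)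
    (hn2 : 2 < n) : σ (ale n w) = ale n (fun x => w (actR (Mab a' b') x)) := by
  have : NeZero n := ⟨by omega⟩
  set g := Module.finrank ℚ L with hg
  have hfam : Fam n g (fun B τ => GEf n (fun x => w (actR (lift B) x)) τ) :=
    ⟨_, GEf_fam D hg' h hn2⟩
  have h1 := hfam.mul ((eB_fam (N := n) (le_refl 3) (v0 n)).pow g)
  have hw : g + 3 * g = 4 * g := by
    ring
  rw [hw] at h1
  have h2 := gal_value G hn2 h1 1
  rw [mul_one, GEf_lift_one D hg' h, GEf_lift D hg' h ρ (lift_val ρ G.hρ)] at h2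
  have hv := varpi_ne
  have hv3 := e3_val (v0_ne (by omega : 1 < n)) (1 : GN n)
  have hv3' := e3_val (v0_ne (by omega : 1 < n)) ρ
  have hY := (G.pB_gal (v0 n) (v0_ne (by omega : 1 < n)) 1).2
  rw [mul_one] at hY
  have e1 : ∀ (x y : ℂ), x * y ^ g / varpi ^ (4 * g) = (x / varpi ^ g) * (y / varpi ^ 3) ^ g := by
    intro x y
    have : varpi ^ (4 * g) = varpi ^ g * (varpi ^ 3) ^ g := by
      rw [← pow_mul, ← pow_add]
      congr 1
      ring
    rw [this, div_pow]
    rw [div_mul_div_comm]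
  rw [e1, e1, map_mul, map_pow, hv3, hv3'] at h2
  have e2 : σ (-(YY (pB (v0 n) 1) / (8 * ((n : ℕ) : ℂ) ^ 3))) =
      -(YY (pB (v0 n) ρ) / (8 * ((n : ℕ) : ℂ) ^ 3)) := by
    rw [map_neg, map_div₀, map_mul, map_pow, map_ofNat, map_natCast, hY]
  rw [e2] at h2
  have hne : (-(YY (pB (v0 n) ρ) / (8 * ((n : ℕ) : ℂ) ^ 3))) ^ g ≠ 0 := by
    refine pow_ne_zero _ (neg_ne_zero.2 (div_ne_zero (YY_ne (v0_two hn2) ρ) ?_))
    refine mul_ne_zero (by norm_num) (pow_ne_zero _ ?_)
    exact_mod_cast NeZero.ne n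
  have h3 := mul_right_cancel₀ hne h2
  rw [ale_eq, ale_eq]
  exact h3

include D hg' in
/-- the action of `Aut(ℂ / ℚ(√-7))` on the values: multiplication by `a + b ω` on the weights -/
theorem galois_E {n : ℕ} (hn2 : 2 < n) (σ : ℂ ≃+* ℂ)
    (hσ : σ (Complex.I * (√7 : ℝ)) = Complex.I * (√7 : ℝ)) :
    ∃ a b : ℤ, IsCoprime (a ^ 2 - 7 * a * b + 14 * b ^ 2) ((n : ℕ) : ℤ) ∧
      σ (ee (1 / ((n : ℕ) : ℂ))) = ee (((a ^ 2 - 7 * a * b + 14 * b ^ 2 : ℤ) : ℂ) / ((n : ℕ) : ℂ)) ∧
      ∀ w w' : 𝓞 L × 𝓞 L → ℤ, OW n w → OW n w' →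
        (∀ x : 𝓞 L × 𝓞 L, w x = w' (actR (Mab a b) x)) →
        σ (ale n w) = ale n w' := by
  have : NeZero n := ⟨by omega⟩
  obtain ⟨a, b, a', b', ρ, G⟩ := exists_GalD σ hσ n
  have hm := ga_mat G
  have h00 := hm 0 0
  have h01 := hm 0 1
  have h10 := hm 1 0
  have h11 := hm 1 1
  refine ⟨a, b, ?_, gal_cyc G hn2, ?_⟩
  · -- the determinant
    have h1 : ((n : ℕ) : ℤ) ∣ (Mab a' b').det * (Mab a b).det - 1 := by
      rw [← Matrix.det_mul, Matrix.det_fin_two]
      have e : (Mab a' b' * Mab a b) 0 0 * (Mab a' b' * Mab a b) 1 1 -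
          (Mab a' b' * Mab a b) 0 1 * (Mab a' b' * Mab a b) 1 0 - 1 =
          ((Mab a' b' * Mab a b) 0 0 - (1 : Matrix (Fin 2) (Fin 2) ℤ) 0 0) * (Mab a' b' * Mab a b) 1 1 +
          ((Mab a' b' * Mab a b) 1 1 - (1 : Matrix (Fin 2) (Fin 2) ℤ) 1 1) -
          ((Mab a' b' * Mab a b) 0 1 - (1 : Matrix (Fin 2) (Fin 2) ℤ) 0 1) * (Mab a' b' * Mab a b) 1 0 := by
        rw [Matrix.one_apply_eq, Matrix.one_apply_eq, Matrix.one_apply_ne (by decide)]
        ring
      rw [e]
      exact dvd_sub (dvd_add (h00.mul_right _) h11) (h01.mul_right _)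
    have h2 : (Mab a b).det = a ^ 2 - 7 * a * b + 14 * b ^ 2 := by
      rw [Matrix.det_fin_two]
      simp [Mab]
      ring
    rw [h2] at h1
    obtain ⟨c, hc'⟩ := h1
    exact ⟨(Mab a' b').det, -c, by linear_combination hc'⟩
  · intro w w' hw hw' hrel
    have h1 := ale_gal D hg' hw G hn2
    have e1 : (fun x => w (actR (Mab a' b') x)) = w' := by
      have e2 : (fun x => w (actR (Mab a' b') x)) = fun x => w' (actR (Mab a' b' * Mab a b) x) := by
        funext x
        rw [hrel, TRH.actR_mul]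
      rw [e2, OW_act_congr hw' (B := 1) hm]
      funext x
      rw [TRH.actR_one]
    rw [e1] at h1
    exact h1

end

end TRZ
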