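import Pool.Agent.TRZ.X1
import Pool.Agent.TRZ.T1
import Pool.Agent.TRZ.R6a
import Pool.Agent.TRZ.R6b
import Pool.Agent.TRP.G1

/-! # [ALL2-H1] the Hecke character of the curve -/

set_option autoImplicit false
set_option linter.unusedSectionVars false

open NumberField Ideal IsDedekindDomain
open scoped Real Classical ComplexConjugate
open TR TRG TRP TTS TU TT

namespace TRZ

section
variable {L M : Type} [Field L] [NumberField L] [Field M] [NumberField M] [Algebra L M]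
  [IsTotallyReal L] {D : Dat L M}

/-! ### functions on `𝓞 L`, trivial or primitive -/

/-- trivial or a primitive quadratic character -/
def Gd (f : 𝓞 L → ℤ) : Prop := (∃ k, Kp k f) ∨ f = fun _ => 1

theorem Gd.mul {f : 𝓞 L → ℤ} (h : Gd f) (x y : 𝓞 L) : f (x * y) = f x * f y := by
  rcases h with ⟨k, hk⟩ | rfl
  · exact hk.mul x y
  · exact (mul_one _).symm

theorem Gd.per {f : 𝓞 L → ℤ} (h : Gd f) {x y : 𝓞 L} (hxy : x - y ∈ span {(8 : 𝓞 L)}) : f x = f y := by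
  rcases h with ⟨k, hk⟩ | rfl
  · exact x1_kp_per hk hxy
  · rfl

theorem Gd.val {f : 𝓞 L → ℤ} (h : Gd f) (x : 𝓞 L) : f x = 0 ∨ f x = 1 ∨ f x = -1 := by
  rcases h with ⟨k, hk⟩ | rfl
  · exact hk.val x
  · exact Or.inr (Or.inl rfl)

theorem h1_pow_odd {m : ℤ} (h : m = 0 ∨ m = 1 ∨ m = -1) {n : ℕ} (hn : Odd n) : m ^ n = m := r1_pow_odd h hn

theorem h1_cases {a b : ℤ} (ha : a = 0 ∨ a = 1 ∨ a = -1) (hb : b = 0 ∨ b = 1 ∨ b = -1) :
    a * b = 0 ∨ a * b = 1 ∨ a * b = -1 := by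
  rcases ha with rfl | rfl | rfl <;> rcases hb with rfl | rfl | rfl <;> simp

theorem h1_p2_not (D : Dat L M) (s : Bool) : p2 D (!s) = p1 D s := by
  unfold p2
  rw [Bool.not_not]

/-- the sign of `x` -/
noncomputable def kS (D : Dat L M) (s : Bool) (T : Finset (HeightOneSpectrum (𝓞 M))) (f f' : 𝓞 L → ℤ) (x : 𝓞 M) : ℤ :=
  (∏ P ∈ T, TT.qr P x) * f (rd8 D (!s) x) * f' (rd8 D s x)

/-- the value on principal ideals -/
noncomputable def kW (D : Dat L M) (s : Bool) (T : Finset (HeightOneSpectrum (𝓞 M))) (f f' : 𝓞 L → ℤ) (x : 𝓞 M) : ℂ :=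
  D.NK (x : M) * ((kS D s T f f' x : ℤ) : ℂ)

theorem kS_cases (D : Dat L M) (s : Bool) (T : Finset (HeightOneSpectrum (𝓞 M))) {f f' : 𝓞 L → ℤ} (hf : Gd f) (hf' : Gd f') (x : 𝓞 M) :
    kS D s T f f' x = 0 ∨ kS D s T f f' x = 1 ∨ kS D s T f f' x = -1 :=
  h1_cases (h1_cases (x_prod_cases T x) (hf.val _)) (hf'.val _)

variable (hD : Od2 D)
include hD

theorem h1_kp {c : 𝓞 L} (hc : c ∉ span {(2 : 𝓞 L)}) (i : Bool) : Gd (kp c i) := by
  by_cases h : Rm c i
  · exact Or.inl ⟨_, kp_kp hD hc h⟩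
  · exact Or.inr (kp_one hD h)

theorem h1_rd (s : Bool) {f : 𝓞 L → ℤ} (h : Gd f) (x y : 𝓞 M) :
    f (rd8 D s (x * y)) = f (rd8 D s x) * f (rd8 D s y) := by
  rw [h.per (rd8_mul hD s x y), h.mul]

theorem kS_mul {s : Bool} {T : Finset (HeightOneSpectrum (𝓞 M))} (h2 : ∀ P ∈ T, (2 : 𝓞 M) ∉ P.asIdeal) {f f' : 𝓞 L → ℤ}
    (hf : Gd f) (hf' : Gd f') (x y : 𝓞 M) : kS D s T f f' (x * y) = kS D s T f f' x * kS D s T f f' y := by
  unfold kS
  rw [h1_rd hD (!s) hf, h1_rd hD s hf', Finset.prod_congr rfl fun P hP => TT.qr_mul P (h2 P hP) x y,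
    Finset.prod_mul_distrib]
  ring

theorem kW_mul {s : Bool} {T : Finset (HeightOneSpectrum (𝓞 M))} (h2 : ∀ P ∈ T, (2 : 𝓞 M) ∉ P.asIdeal) {f f' : 𝓞 L → ℤ}
    (hf : Gd f) (hf' : Gd f') (x y : 𝓞 M) : kW D s T f f' (x * y) = kW D s T f f' x * kW D s T f f' y := by
  unfold kW
  rw [kS_mul hD h2 hf hf', show ((x * y : 𝓞 M) : M) = (x : M) * (y : M) from map_mul _ _ _, D.NK_mul]
  push_cast
  ring

/-- an element of an odd prime power outside the primes above `2` -/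
theorem h1_ng_not (s : Bool) {P : HeightOneSpectrum (𝓞 M)} (h2 : (2 : 𝓞 M) ∉ P.asIdeal) {q : 𝓞 M}
    {s' : Bool} (hq : NG D s' P q) : q ∉ span {p2 D s} := by
  intro hmem
  obtain ⟨k, -, hk⟩ := hq.gen
  have hpr := x_prime hD s
  have h1 : P.asIdeal ^ k ≤ span {p2 D s} := by
    rw [← hk, Ideal.span_singleton_le_iff_mem]
    exact hmem
  have h3 : P.asIdeal ≤ span {p2 D s} := hpr.le_of_pow_le h1
  have h4 : P.asIdeal = span {p2 D s} := P.isMaximal.eq_of_le hpr.ne_top h3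
  apply h2
  rw [h4]
  refine Ideal.mem_span_singleton'.2 ⟨p1 D s, ?_⟩
  exact p12 D s

theorem h1_unit_not {ε : (𝓞 L)ˣ} : (ε : 𝓞 L) ∉ span {(2 : 𝓞 L)} := fun h =>
  hD.two.ne_top (Ideal.eq_top_of_isUnit_mem _ h ε.isUnit)

section
variable {s : Bool} {d : M} {T : Finset (HeightOneSpectrum (𝓞 M))} {z : HeightOneSpectrum (𝓞 M) → 𝓞 M} {ε : (𝓞 L)ˣ} {i j : Bool}
  (H : DK D s d T z ε i j)
include H

theorem DK.cd_not : cd D s T z ε ∉ span {(2 : 𝓞 L)} := by
  unfold cd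
  rw [rd8_even hD (!s)]
  intro hmem
  have hpr := x_prime hD (!s)
  rcases hpr.mem_or_mem hmem with h | h
  · rw [neg_mem_iff] at h
    exact hpr.ne_top (Ideal.eq_top_of_isUnit_mem _ h (ε.isUnit.map _))
  · have h1 : ∀ S ⊆ T, ∏ P ∈ S, z P ∉ span {p2 D (!s)} := by
      intro S
      induction S using Finset.induction_on with
      | empty =>
        intro _ h2
        rw [Finset.prod_empty] at h2
        exact hpr.ne_top ((Ideal.eq_top_iff_one _).2 h2)
      | insert P S hP ih =>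
        intro hS h2
        rw [Finset.prod_insert hP] at h2
        have hPT : P ∈ T := hS (Finset.mem_insert_self _ _)
        rcases hpr.mem_or_mem h2 with h3 | h3
        · exact h1_ng_not hD (!s) (H.two P hPT) (H.ng P hPT) h3
        · exact ih (fun Q hQ => hS (Finset.mem_insert_of_mem hQ)) h3
    exact h1 T (Finset.Subset.refl T) h

theorem DK.gd : Gd (kp (cd D s T z ε) i) ∧ Gd (kp (ε : 𝓞 L) j) :=
  ⟨h1_kp hD (H.cd_not hD) i, h1_kp hD (h1_unit_not hD) j⟩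

theorem DK.kW_unit (u : (𝓞 M)ˣ) : kW D s T (kp (cd D s T z ε) i) (kp (ε : 𝓞 L) j) (u : 𝓞 M) = 1 := DK.unit hD H u

theorem DK.kW_gen {x y : 𝓞 M} (h : span {x} = span {y}) :
    kW D s T (kp (cd D s T z ε) i) (kp (ε : 𝓞 L) j) x = kW D s T (kp (cd D s T z ε) i) (kp (ε : 𝓞 L) j) y := by
  rw [Ideal.span_singleton_eq_span_singleton] at h
  obtain ⟨u, hu⟩ := h
  rw [← hu, kW_mul hD H.two (H.gd hD).1 (H.gd hD).2, H.kW_unit hD, mul_one]

theorem DK.kW_one : kW D s T (kp (cd D s T z ε) i) (kp (ε : 𝓞 L) j) 1 = 1 := H.kW_unit hD 1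

theorem DK.kW_pow (x : 𝓞 M) (n : ℕ) : kW D s T (kp (cd D s T z ε) i) (kp (ε : 𝓞 L) j) (x ^ n) =
    kW D s T (kp (cd D s T z ε) i) (kp (ε : 𝓞 L) j) x ^ n := by
  induction n with
  | zero => rw [pow_zero, pow_zero, H.kW_one hD]
  | succ n ih => rw [pow_succ, kW_mul hD H.two (H.gd hD).1 (H.gd hD).2, ih, pow_succ]

theorem DK.kW_root {J : Ideal (𝓞 M)} {x : 𝓞 M}
    (h : J ^ classNumber M = span {x}) : ∃ β : R7, toC β ^ classNumber M = kW D s T (kp (cd D s T z ε) i) (kp (ε : 𝓞 L) j) x := by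
  obtain ⟨β, hβ⟩ := x_root D h
  refine ⟨β * ((kS D s T (kp (cd D s T z ε) i) (kp (ε : 𝓞 L) j) x : ℤ) : R7), ?_⟩
  rw [map_mul, map_intCast, mul_pow, hβ, ← Int.cast_pow, r1_pow_odd (kS_cases D s T (H.gd hD).1 (H.gd hD).2 x) D.hodd]
  rfl

/-- [H1] (compare `exists_PhiT`; `DK.unit`) -/
theorem exists_PhiK (Ψ : PsiDat D) :
    ∃ Φ : Ideal (𝓞 M) →*₀ ℂ, PhiK D s T (kp (cd D s T z ε) i) (kp (ε : 𝓞 L) j) Φ := by
  have _ := Ψ
  have hodd := D.hodd
  have hf := (H.gd hD).1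
  have hf' := (H.gd hD).2
  set f := kp (cd D s T z ε) i with hfd
  set f' := kp (ε : 𝓞 L) j with hfd'
  choose g hg using fun J : Ideal (𝓞 M) => r2_class_gen J
  choose b hb using fun J : Ideal (𝓞 M) => H.kW_root hD (hg J)
  have key : ∀ (J : Ideal (𝓞 M)) (β : R7) (x : 𝓞 M), J ^ classNumber M = span {x} →
      toC β ^ classNumber M = kW D s T f f' x → b J = β := by
    intro J β x hJx hβ
    apply x_odd_inj hodd
    rw [hb J, hβ]
    exact H.kW_gen hD (by rw [← hg J, hJx])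
  let Φ : Ideal (𝓞 M) →*₀ ℂ :=
    { toFun := fun J => if J = ⊥ then 0 else toC (b J)
      map_zero' := if_pos rfl
      map_one' := by
        have h1 : (1 : Ideal (𝓞 M)) ≠ ⊥ := by
          rw [Ideal.one_eq_top]
          exact top_ne_bot
        rw [if_neg h1, key 1 1 1 (by rw [one_pow, Ideal.one_eq_top, Ideal.span_singleton_one])
          (by rw [map_one, one_pow, H.kW_one hD]), map_one]
      map_mul' := by
        intro J K
        by_cases hJ : J = ⊥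
        · rw [hJ, Ideal.bot_mul, if_pos rfl, zero_mul]
        by_cases hK : K = ⊥
        · rw [hK, Ideal.mul_bot, if_pos rfl, mul_zero]
        rw [if_neg hJ, if_neg hK, if_neg (by rw [Ideal.mul_eq_bot]; exact not_or.2 ⟨hJ, hK⟩), ← map_mul]
        congr 1
        apply key _ _ (g J * g K)
        · rw [mul_pow, hg J, hg K, Ideal.span_singleton_mul_span_singleton]
        · rw [map_mul, mul_pow, hb J, hb K, kW_mul hD H.two hf hf'] }
  have hΦ : ∀ J, J ≠ ⊥ → Φ J = toC (b J) := fun J hJ => if_neg hJ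
  obtain ⟨N, hN1, -⟩ := D.exists_relNorm
  refine ⟨Φ, ?_, ?_, ?_⟩
  · intro x hx
    obtain ⟨γ, -, hγ⟩ := hN1 x
    rw [hΦ _ (by rwa [Ne, Ideal.span_singleton_eq_bot])]
    have h1 : b (span {x}) = γ * ((kS D s T f f' x : ℤ) : R7) := by
      apply key _ _ (x ^ classNumber M)
      · rw [Ideal.span_singleton_pow]
      · rw [H.kW_pow hD, map_mul, map_intCast, hγ]
        rfl
    rw [h1, map_mul, map_intCast, hγ]
    rfl
  · intro J
    by_cases hJ : J = ⊥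
    · exact ⟨0, by rw [hJ, map_zero]; exact map_zero Φ⟩
    · exact ⟨b J, hΦ J hJ⟩
  · intro J hJ hJT h1T h2T
    rw [hΦ J hJ]
    have h1 := D.absNorm_span (g J)
    have hnz : ∀ (s : Bool) {h : 𝓞 L → ℤ}, Gd h → ((h = fun _ => 1) ∨ ¬ J ≤ span {p2 D s}) → h (rd8 D s (g J)) ≠ 0 := by
      intro s h hh hor h0
      rcases hor with rfl | hor
      · exact one_ne_zero h0
      · rcases hh with ⟨k, hk⟩ | rfl
        · rw [hk.zero, rd8_even hD s, ← Ideal.span_singleton_le_iff_mem, ← hg J] at h0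
          exact hor ((x_prime hD s).le_of_pow_le h0)
        · exact one_ne_zero h0
    have h2 : ‖((kS D s T f f' (g J) : ℤ) : ℂ)‖ = 1 := by
      have h3 : kS D s T f f' (g J) ≠ 0 := by
        unfold kS
        refine mul_ne_zero (mul_ne_zero ?_ ?_) (hnz s hf' h2T)
        · rw [Finset.prod_ne_zero_iff]
          intro P hP h0
          rw [TT.qr_eq_zero, ← Ideal.span_singleton_le_iff_mem, ← hg J] at h0
          exact hJT P hP (P.isPrime.le_of_pow_le h0)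
        · refine hnz (!s) hf ?_
          rw [h1_p2_not]
          exact h1T
      rcases kS_cases D s T hf hf' (g J) with h | h | h
      · exact absurd h h3
      · rw [h]; simp
      · rw [h]; simp
    have h3 : ‖toC (b J)‖ ^ classNumber M = ‖D.NK ((g J : 𝓞 M) : M)‖ := by
      rw [← norm_pow, hb J]
      unfold kW
      rw [norm_mul, h2, mul_one]
    rw [← hg J, ← h3, ← pow_mul, mul_comm (classNumber M), pow_mul, map_pow, Nat.cast_pow] at h1
    exact ((pow_left_inj₀ (by positivity) (by positivity) (classNumber_pos M).ne').1 h1).symm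

omit H in
/-- the character depends on the class only -/
theorem h1_kp_congr {c c' : 𝓞 L} {i : Bool}
    (hR : Rm c i ↔ Rm c' i) (h : Q4 (c * c')) : kp c i = kp c' i := by
  by_cases hr : Rm c i
  · unfold kp
    rw [if_pos hr, if_pos (hR.1 hr)]
    funext x
    unfold kc
    congr 1
    by_cases hx : x ∈ span {(2 : 𝓞 L)}
    · rw [tp_zero hD (Or.inl hx), tp_zero hD (Or.inl hx)]
    · have h1 : tp x c * tp x c' = 1 := by
        rw [tp_comm hD x c, tp_comm hD x c', ← tp_mul hD c c' x hx, tp_q4 hD h hx]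
      rcases Int.isUnit_iff.1 (IsUnit.of_mul_eq_one _ h1) with h2 | h2
      · rw [h2] at h1 ⊢
        linarith
      · rw [h2] at h1 ⊢
        linarith
  · rw [kp_one hD hr, kp_one hD (fun h1 => hr (hR.2 h1))]

/-- [H1] the same character with respect to `!s` -/
theorem PhiK.other {z' : HeightOneSpectrum (𝓞 M) → 𝓞 M} {T' : Finset (HeightOneSpectrum (𝓞 M))} {ε' : (𝓞 L)ˣ} {i' j' : Bool} (H' : DK D (!s) d T' z' ε' i' j')
    {Φ : Ideal (𝓞 M) →*₀ ℂ} (hΦ : PhiK D s T (kp (cd D s T z ε) i) (kp (ε : 𝓞 L) j) Φ) :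
    PhiK D (!s) T' (kp (cd D (!s) T' z' ε') i') (kp (ε' : 𝓞 L) j') Φ := by
  obtain ⟨hT, hi, hj, hR1, hR2, hQ1, hQ2⟩ := DK.other hD H H'
  subst hT hi hj
  have e1 : kp (ε' : 𝓞 L) j' = kp (cd D s T' z ε) j' := h1_kp_congr hD hR1 hQ1
  have e2 : kp (cd D (!s) T' z' ε') i' = kp (ε : 𝓞 L) i' :=
    (h1_kp_congr hD hR2 hQ2).symm
  rw [e1, e2]
  refine ⟨?_, hΦ.val, ?_⟩
  · intro x hx
    rw [hΦ.span_eq x hx, Bool.not_not]
    push_cast
    ring
  · intro I hI hIT h1 h2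
    refine hΦ.norm_eq I hI hIT ?_ ?_
    · rw [← h1_p2_not D s]
      exact h2
    · rw [show p2 D s = p1 D (!s) from rfl]
      exact h1

/-- [H1] agreement with `ψ₀ X_T Y` (compare `twist_eq_T`) -/
theorem PhiK.twist {P0 : PsiZ D s} {X : HeightOneSpectrum (𝓞 M) → (Ideal (𝓞 M) →*₀ ℤ)} (hX : ∀ P ∈ T, LamE D s P (X P))
    {Y : Ideal (𝓞 M) →*₀ ℤ} (hY : LamF D s (FK D s (kp (cd D s T z ε) i) j) Y)
    {Φ : Ideal (𝓞 M) →*₀ ℂ} (hΦ : PhiK D s T (kp (cd D s T z ε) i) (kp (ε : 𝓞 L) j) Φ)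
    {I : Ideal (𝓞 M)} (hI : ¬ I ≤ span {p2 D s}) :
    P0.psi I * ((twP T T X I * Y I : ℤ) : ℂ) = Φ I := by
  have hodd := D.hodd
  obtain ⟨x, hx, hIx, hpx⟩ := psiZ_unique hD P0 hI
  have hx0 := x_et_ne hD hx
  have hIbot : I ≠ ⊥ := by
    rintro rfl
    exact hI bot_le
  have htw : twP T T X I = ∏ P ∈ T, TT.qr P x := by
    rw [twP_apply, if_neg hIbot, one_mul]
    refine Finset.prod_congr rfl fun P hP => ?_
    rw [if_pos hP, pow_one]
    exact (hX P hP).eq_of hD (H.two P hP) hI hx hIx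
  have hYI : Y I = FK D s (kp (cd D s T z ε) i) j x := by
    rw [← h1_pow_odd (hY.val I) hodd, ← map_pow, hIx, hY.span_eq x hx]
  -- at `ϖ'`
  have hj : kp (ε : 𝓞 L) j (rd8 D s x) = te j (rd8 D s x) := by
    obtain ⟨a, c, ha, hac⟩ := (rd8_et hD s x).1 hx
    have hQ : Q4 (rd8 D s x) := ⟨a, c, ha, hac⟩
    by_cases hr : Rm (ε : 𝓞 L) j
    · unfold kp kc
      rw [if_pos hr, tp_q4 hD hQ (h1_unit_not hD), one_mul]
    · rw [kp_one hD hr]
      have hj0 : j = false := by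
        by_contra hcon
        exact hr (Or.inl (by simpa using hcon))
      rw [hj0]
      rfl
  have hS : kS D s T (kp (cd D s T z ε) i) (kp (ε : 𝓞 L) j) x = twP T T X I * Y I := by
    rw [htw, hYI]
    unfold kS FK
    rw [hj]
    ring
  obtain ⟨β, hβ⟩ := P0.val I
  obtain ⟨γ, hγ⟩ := hΦ.val I
  have hint : ∀ n : ℤ, toC ((n : ℤ) : R7) = (n : ℂ) := fun n => map_intCast toC n
  rw [hβ, hγ, ← hint, ← map_mul]
  congr 1
  apply x_odd_inj hodd
  have h1 : Φ I ^ classNumber M = D.NK (x : M) * ((kS D s T (kp (cd D s T z ε) i) (kp (ε : 𝓞 L) j) x : ℤ) : ℂ) := by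
    rw [← map_pow, hIx, hΦ.span_eq x hx0]
    rfl
  rw [map_mul, hint, mul_pow, ← hβ, ← hγ, hpx, h1, ← hS, ← Int.cast_pow,
    r1_pow_odd (kS_cases D s T (H.gd hD).1 (H.gd hD).2 x) hodd]

end

end

end TRZ
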