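import Pool.Agent.TRZ.X1
import Pool.Agent.TRZ.Defs2
import Pool.Agent.TRP.G2
import Pool.Agent.TRP.VAL0
import Pool.Agent.TRX.W1
import Pool.Agent.TRG.AS6

/-! # [ALL2-H2b] local facts at the primes above `2` -/

set_option autoImplicit false
set_option linter.unusedSectionVars false

open NumberField Ideal IsDedekindDomain
open scoped Real Classical ComplexConjugate
open TR TRG TRP TTS TU TT

namespace TRZ

section
variable {F : Type} [Field F] [NumberField F] {P : HeightOneSpectrum (𝓞 F)}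

/-- the converse of `x0_sq` -/
theorem h2_sq_complete {d : F} (h : Sq P d) : IsSquare (algebraMap F (P.adicCompletion F) d) := by
  obtain ⟨y, hy, hlt⟩ := h
  set i := algebraMap F (P.adicCompletion F) with hi
  have hval : ∀ x : F, (Valued.v (i x) : WithZero (Multiplicative ℤ)) = P.valuation F x :=
    fun x => HeightOneSpectrum.valuedAdicCompletion_eq_valuation' P x
  have h4 : (4 : F) ≠ 0 := by norm_num
  have hv4 : P.valuation F (4 : F) ≠ 0 := (Valuation.ne_zero_iff _).2 h4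
  have hx : Valued.v (i ((d * y ^ 2 - 1) / 4)) < (1 : WithZero (Multiplicative ℤ)) := by
    rw [hval, map_div₀]
    rw [div_lt_one₀ (zero_lt_iff.2 hv4)]
    exact hlt
  obtain ⟨r, hr⟩ := TRX.w1_hensel P _ hx
  have hyi : i y ≠ 0 := (map_ne_zero i).2 hy
  refine ⟨r / i y, ?_⟩
  have e : (1 : P.adicCompletion F) + 4 * i ((d * y ^ 2 - 1) / 4) = i (d * y ^ 2) := by
    have e1 : (1 : P.adicCompletion F) = i 1 := (map_one i).symm
    have e4 : (4 : P.adicCompletion F) = i 4 := (map_ofNat i 4).symm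
    rw [e1, e4, ← map_mul, ← map_add]
    congr 1
    field_simp
    ring
  rw [e, map_mul, map_pow] at hr
  rw [div_mul_div_comm, ← hr]
  field_simp

/-- the symbol at an odd prime -/
theorem h2_sg_odd (h2 : (2 : 𝓞 F) ∉ P.asIdeal) {a : 𝓞 F} (ha : a ∉ P.asIdeal) : sg P (a : F) = TT.qr P a := by
  have h4 : (4 : 𝓞 F) ∉ P.asIdeal := by
    intro h
    have e : (4 : 𝓞 F) = 2 * 2 := by norm_num
    rw [e] at h
    rcases P.isPrime.mem_or_mem h with h | h <;> exact h2 h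
  have h5 : (0 : 𝓞 F) ^ 2 + 4 * a ∉ P.asIdeal := by
    intro h
    rw [zero_pow two_ne_zero, zero_add] at h
    rcases P.isPrime.mem_or_mem h with h | h
    · exact h4 h
    · exact ha h
  have e1 : sg P (a : F) = sg P ((2 : F) ^ 2 * (a : F)) := (sg_sq_mul two_ne_zero).symm
  have e2 : (2 : F) ^ 2 * (a : F) = ((0 ^ 2 + 4 * a : 𝓞 F) : F) := by
    rw [g1_add, g1_mul, g1_pow, g1_four, g1_zero]
    ring
  rw [e1, e2, sg_int h5, chd_eq_qr h2 h5]
  have e3 : (0 : 𝓞 F) ^ 2 + 4 * a = 2 ^ 2 * a := by ring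
  rw [e3, TT.qr_mul P h2, TT.qr_sq P h2, one_mul]

theorem h2_ur_odd (h2 : (2 : 𝓞 F) ∉ P.asIdeal) {a : 𝓞 F} (ha : a ∉ P.asIdeal) : Ur P (a : F) := by
  have ha0 : (a : F) ≠ 0 := g2_coe_ne ha
  rw [ur_iff_val h2 ha0, (g1_val_one P).2 ha]
  exact ⟨1, (mul_one _).symm⟩

end

section
variable {L M : Type} [Field L] [NumberField L] [Field M] [NumberField M] [Algebra L M]
  [IsTotallyReal L] {D : Dat L M}

theorem h2_mem {s : Bool} {P : HeightOneSpectrum (𝓞 M)} (hP : P.asIdeal = span {p2 D s}) : p2 D s ∈ P.asIdeal := by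
  rw [hP]
  exact Ideal.mem_span_singleton_self _

theorem h2_two {s : Bool} {P : HeightOneSpectrum (𝓞 M)} (hP : P.asIdeal = span {p2 D s}) : (2 : 𝓞 M) ∈ P.asIdeal := by
  rw [← x_mul D s]
  exact Ideal.mul_mem_left _ _ (h2_mem hP)

theorem h2_p1 {s : Bool} {P : HeightOneSpectrum (𝓞 M)} (hP : P.asIdeal = span {p2 D s}) : p1 D s ∉ P.asIdeal := by
  intro h
  apply P.isPrime.ne_top
  rw [Ideal.eq_top_iff_one, ← x_add D s]
  exact add_mem h (h2_mem hP)

theorem h2_two_sq {s : Bool} {P : HeightOneSpectrum (𝓞 M)} (hP : P.asIdeal = span {p2 D s}) :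
    (2 : 𝓞 M) ∉ P.asIdeal ^ 2 := by
  rw [hP, Ideal.span_singleton_pow, Ideal.mem_span_singleton, ← x_mul D s]
  rintro ⟨c, hc⟩
  apply h2_p1 hP
  have h1 : p1 D s = p2 D s * c := by
    have h2 : p2 D s * p1 D s = p2 D s * (p2 D s * c) := by linear_combination hc
    exact mul_left_cancel₀ (x1_p2_ne s) h2
  rw [h1]
  exact Ideal.mul_mem_right _ _ (h2_mem hP)

/-- the prime `ϖ'` -/
theorem h2_exists (hD : Od2 D) (s : Bool) : ∃ P : HeightOneSpectrum (𝓞 M), P.asIdeal = span {p2 D s} :=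
  ⟨⟨span {p2 D s}, x_prime hD s, by
    rw [Ne, Ideal.span_singleton_eq_bot]
    exact x1_p2_ne s⟩, rfl⟩

theorem h2_eq (hD : Od2 D) {s : Bool} {P : HeightOneSpectrum (𝓞 M)} (h : p2 D s ∈ P.asIdeal) :
    P.asIdeal = span {p2 D s} := by
  obtain ⟨Q, hQ⟩ := h2_exists hD s
  rw [← hQ]
  refine (Q.isMaximal.eq_of_le P.isPrime.ne_top ?_).symm
  rw [hQ]
  exact (Ideal.span_singleton_le_iff_mem _).2 h

theorem h2_cases (hD : Od2 D) (s : Bool) {P : HeightOneSpectrum (𝓞 M)} (h : (2 : 𝓞 M) ∈ P.asIdeal) :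
    P.asIdeal = span {p2 D s} ∨ P.asIdeal = span {p2 D (!s)} := by
  rw [← x_mul D s] at h
  rcases P.isPrime.mem_or_mem h with h | h
  · right
    apply h2_eq hD
    rwa [bl_not]
  · left
    exact h2_eq hD h

/-- a normalised element is unramified at `ϖ'` -/
theorem h2_et_ur {s : Bool} {P : HeightOneSpectrum (𝓞 M)} (hP : P.asIdeal = span {p2 D s}) {x : 𝓞 M} (hx : Et D s x)
    (hxP : x ∉ P.asIdeal) : Ur P (x : M) := by
  obtain ⟨a, c, ha, hac⟩ := hx
  have hp1 := h2_p1 hP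
  have hp1v : P.valuation M ((p1 D s : 𝓞 M) : M) = 1 := (g1_val_one P).2 hp1
  have hp10 : ((p1 D s : 𝓞 M) : M) ≠ 0 := g2_coe_ne hp1
  have h12 : ((p1 D s : 𝓞 M) : M) * ((p2 D s : 𝓞 M) : M) = 2 := by
    rw [← g1_mul, x_mul, g1_two]
  have e : (x : M) = 1 ^ 2 * ((a : M) ^ 2 + 4 * ((c : M) / ((p1 D s : 𝓞 M) : M) ^ 2)) := by
    rw [hac, g1_add, g1_pow, g1_mul, g1_pow]
    have e4 : (4 : M) = (((p1 D s : 𝓞 M) : M) * ((p2 D s : 𝓞 M) : M)) ^ 2 := by rw [h12]; norm_num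
    rw [e4]
    field_simp
  have hv : P.valuation M ((a : M) ^ 2 + 4 * ((c : M) / ((p1 D s : 𝓞 M) : M) ^ 2)) = 1 := by
    rw [one_pow, one_mul] at e
    rw [← e]
    exact (g1_val_one P).2 hxP
  rw [e]
  refine ur_of_val P one_ne_zero (P.valuation_le_one (K := M) a) ?_ hv
  rw [map_div₀, map_pow, hp1v, one_pow, div_one]
  exact P.valuation_le_one (K := M) c

/-- an unramified element is normalised up to squares -/
theorem h2_ur_et (hD : Od2 D) {s : Bool} {P : HeightOneSpectrum (𝓞 M)} (hP : P.asIdeal = span {p2 D s}) {x : 𝓞 M}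
    (hx : x ∉ P.asIdeal) (h : Ur P (x : M)) : Et D s x := by
  obtain ⟨y, t, c, hy, hxy, htc⟩ := h
  have hvx : P.valuation M (x : M) = 1 := (g1_val_one P).2 hx
  have hvt : P.valuation M ((t ^ 2 + 4 * c : 𝓞 M) : M) = 1 := (g1_val_one P).2 htc
  have hvy : P.valuation M y ≤ 1 := by
    rw [hxy, map_mul, map_pow, hvt, mul_one] at hvx
    exact (pow_le_one_iff two_ne_zero).1 hvx.le
  obtain ⟨a, m, hm, ham⟩ := exists_frac P hvy
  have key : x * m ^ 2 = a ^ 2 * (t ^ 2 + 4 * c) := by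
    apply RingOfIntegers.ext
    rw [g1_mul, g1_pow, g1_mul (a ^ 2), g1_pow, ← ham, hxy]
    ring
  have hmax := P.isMaximal
  -- an inverse of `m` modulo `ϖ'²`
  have hcop : ∀ {b : 𝓞 M}, b ∉ P.asIdeal → IsCoprime b (p2 D s) := by
    intro b hb
    obtain ⟨u, i, hi, hui⟩ := hmax.exists_inv hb
    rw [hP, Ideal.mem_span_singleton] at hi
    obtain ⟨w, hw⟩ := hi
    exact ⟨u, w, by rw [← hui, hw]; ring⟩
  obtain ⟨u, v, huv⟩ := (hcop hm).pow_right (n := 2)
  refine bl_et.2 ⟨u * a * t, ?_, ?_⟩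
  · apply hcop
    intro h1
    have h3 : x * (u * m) ^ 2 ∈ P.asIdeal := by
      have e : x * (u * m) ^ 2 = (u * a * t) * (u * a * t) + 4 * (u * a) ^ 2 * c := by
        linear_combination u ^ 2 * key
      rw [e]
      refine add_mem (Ideal.mul_mem_left _ _ h1) ?_
      have e4 : (4 : 𝓞 M) * (u * a) ^ 2 * c = 2 * (2 * (u * a) ^ 2 * c) := by ring
      rw [e4]
      exact Ideal.mul_mem_right _ _ (h2_two hP)
    have h4 : u * m - 1 ∈ P.asIdeal := by
      have e : u * m - 1 = -(v * p2 D s) * p2 D s := by linear_combination huv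
      rw [e]
      exact Ideal.mul_mem_left _ _ (h2_mem hP)
    apply hx
    have e : x = x * (u * m) ^ 2 - x * (u * m + 1) * (u * m - 1) := by ring
    rw [e]
    exact sub_mem h3 (Ideal.mul_mem_left _ _ h4)
  · refine ⟨x * v * (1 + u * m) + (u * a) ^ 2 * p1 D s ^ 2 * c, ?_⟩
    have h12 := x_mul D s
    linear_combination (x * (1 + u * m)) * (-huv) + u ^ 2 * key -
      ((u * a) ^ 2 * c * (p1 D s * p2 D s + 2)) * h12

/-- there is no primitive third root of unity in `𝓞 L / 2` -/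
theorem h2_no_cube (hD : Od2 D) (b : 𝓞 L) : b ^ 2 + b + 1 ∉ span {(2 : 𝓞 L)} := by
  intro h
  have hmax : (span {(2 : 𝓞 L)}).IsMaximal := by
    refine hD.two.isMaximal ?_
    rw [Ne, Ideal.span_singleton_eq_bot]
    exact two_ne_zero
  let _ : Field (𝓞 L ⧸ span {(2 : 𝓞 L)}) := Ideal.Quotient.field _
  have hc : Nat.card (𝓞 L ⧸ span {(2 : 𝓞 L)}) = 2 ^ Module.finrank ℚ L := card_two
  have hfin : Finite (𝓞 L ⧸ span {(2 : 𝓞 L)}) := Nat.finite_of_card_ne_zero (by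
    rw [hc]
    exact pow_ne_zero _ two_ne_zero)
  let _ : Fintype (𝓞 L ⧸ span {(2 : 𝓞 L)}) := Fintype.ofFinite _
  rw [Nat.card_eq_fintype_card] at hc
  set x : 𝓞 L ⧸ span {(2 : 𝓞 L)} := Ideal.Quotient.mk _ b with hx
  have h0 : x ^ 2 + x + 1 = 0 := by
    have h1 := (Ideal.Quotient.eq_zero_iff_mem (I := span {(2 : 𝓞 L)})).2 h
    rw [map_add, map_add, map_pow, map_one] at h1
    exact h1
  have h2 : (2 : 𝓞 L ⧸ span {(2 : 𝓞 L)}) = 0 := by
    have h1 := (Ideal.Quotient.eq_zero_iff_mem (I := span {(2 : 𝓞 L)})).2 (Ideal.mem_span_singleton_self (2 : 𝓞 L))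
    rw [map_ofNat] at h1
    exact h1
  have h3 : x ^ 3 = 1 := by linear_combination (x - 1) * h0
  obtain ⟨m, hm⟩ := hD.odd
  have h4 : 2 ^ Module.finrank ℚ L % 3 = 2 := by
    rw [hm, pow_succ, pow_mul, Nat.mul_mod, Nat.pow_mod]
    norm_num
  obtain ⟨n, hn⟩ : ∃ n, 2 ^ Module.finrank ℚ L = 3 * n + 2 := ⟨2 ^ Module.finrank ℚ L / 3, by omega⟩
  have h5 := FiniteField.pow_card x
  rw [hc, hn, pow_add, pow_mul, h3, one_pow, one_mul] at h5
  have h6 : (1 : 𝓞 L ⧸ span {(2 : 𝓞 L)}) = 0 := by linear_combination h0 - h5 - x * h2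
  exact one_ne_zero h6

/-- `√-7` is the unramified nonsquare at `ϖ'` -/
theorem h2_sg_rs7 (hD : Od2 D) {s : Bool} {P : HeightOneSpectrum (𝓞 M)} (hP : P.asIdeal = span {p2 D s}) :
    Ur P ((rs7 D s : 𝓞 M) : M) ∧ sg P ((rs7 D s : 𝓞 M) : M) = -1 := by
  have hp1 := h2_p1 hP
  have hp10 : ((p1 D s : 𝓞 M) : M) ≠ 0 := g2_coe_ne hp1
  have h12 := x_mul D s
  have hadd := x_add D s
  have e0 : p1 D s ^ 2 * rs7 D s = p1 D s ^ 2 + 4 * (-p1 D s) := by
    unfold rs7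
    linear_combination p1 D s ^ 2 * hadd + (-2 * p1 D s) * h12
  have hnot : p1 D s ^ 2 + 4 * (-p1 D s) ∉ P.asIdeal := by
    intro h
    have h1 : p1 D s ^ 2 ∈ P.asIdeal := by
      have e : p1 D s ^ 2 = (p1 D s ^ 2 + 4 * (-p1 D s)) + 2 * (2 * p1 D s) := by ring
      rw [e]
      exact add_mem h (Ideal.mul_mem_right _ _ (h2_two hP))
    exact hp1 (P.isPrime.mem_of_pow_mem _ h1)
  have e1 : ((rs7 D s : 𝓞 M) : M) = (1 / ((p1 D s : 𝓞 M) : M)) ^ 2 * ((p1 D s ^ 2 + 4 * (-p1 D s) : 𝓞 M) : M) := by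
    rw [← e0, g1_mul, g1_pow]
    field_simp
  constructor
  · exact ⟨_, _, _, one_div_ne_zero hp10, e1, hnot⟩
  · rw [e1, sg_sq_mul (one_div_ne_zero hp10), sg_int hnot]
    unfold TT.chd
    rw [if_neg]
    rintro ⟨b, hb⟩
    -- reduction to `𝓞 L / 2`
    have hb0 := x1_cong1 hD s b
    set b0 := rd8 D s b with hb0d
    have h1 : algebraMap (𝓞 L) (𝓞 M) (b0 ^ 2 + b0 + 1) ∈ span {p2 D s} := by
      rw [hP] at hb
      have h2' : (2 : 𝓞 M) ∈ span {p2 D s} := by rw [← hP]; exact h2_two hP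
      have hp : p2 D s ∈ span {p2 D s} := Ideal.mem_span_singleton_self _
      have e : algebraMap (𝓞 L) (𝓞 M) (b0 ^ 2 + b0 + 1) =
          (b ^ 2 - p1 D s * b - -p1 D s) - (b - algebraMap (𝓞 L) (𝓞 M) b0) * (b + algebraMap (𝓞 L) (𝓞 M) b0 + 1)
            + 2 * b - p2 D s * b + p2 D s := by
        rw [map_add, map_add, map_pow, map_one]
        linear_combination (b - 1) * hadd
      rw [e]
      exact add_mem (sub_mem (add_mem (sub_mem hb (Ideal.mul_mem_right _ _ hb0)) (Ideal.mul_mem_right _ _ h2'))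
        (Ideal.mul_mem_right _ _ hp)) hp
    exact h2_no_cube hD b0 (x_two h1)

end

end TRZ
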