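import Pool.Agent.TRZ.T1
import Pool.Agent.TRZ.R5
import Pool.Agent.TRZ.R6c
import Pool.Agent.TRZ.H1
import Pool.Agent.TRZ.H2b1

/-! # [ALL2-H2b] the values of the Hecke character at the primes -/

set_option autoImplicit false
set_option linter.unusedSectionVars false

open NumberField Ideal IsDedekindDomain
open scoped Real Classical ComplexConjugate
open TR TRG TRP TTS TU TT

namespace TRZ

section
variable {L M : Type} [Field L] [NumberField L] [Field M] [NumberField M] [Algebra L M]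
  [IsTotallyReal L] {D : Dat L M} (hD : Od2 D)

section
variable {s : Bool} {T : Finset (HeightOneSpectrum (𝓞 M))} {f f' : 𝓞 L → ℤ} {Φ : Ideal (𝓞 M) →*₀ ℂ}

theorem PhiK.h2_zero (hΦ : PhiK D s T f f' Φ) {I : Ideal (𝓞 M)} {P : HeightOneSpectrum (𝓞 M)} (hP : P ∈ T)
    (hI : I ≤ P.asIdeal) : Φ I = 0 := by
  by_cases hI0 : I = ⊥
  · rw [hI0, ← Ideal.zero_eq_bot, map_zero]
  obtain ⟨x, hx0, hx⟩ := g2_gen hI0
  have h1 : x ∈ P.asIdeal := by
    rw [← Ideal.span_singleton_le_iff_mem, ← hx]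
    exact (Ideal.pow_le_self (classNumber_pos M).ne').trans hI
  have h2 : Φ I ^ classNumber M = 0 := by
    rw [← map_pow, hx, hΦ.span_eq x hx0, Finset.prod_eq_zero hP ((TT.qr_eq_zero P).2 h1), zero_mul, zero_mul,
      Int.cast_zero, mul_zero]
  exact pow_eq_zero_iff (classNumber_pos M).ne' |>.1 h2

include hD in
/-- the character vanishes at `ϖ'` if it is ramified there -/
theorem PhiK.h2_zero2 (hΦ : PhiK D s T f f' Φ) (hf : ∀ x, x ∈ span {(2 : 𝓞 L)} → f' x = 0) {I : Ideal (𝓞 M)}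
    (hI : I ≤ span {p2 D s}) : Φ I = 0 := by
  by_cases hI0 : I = ⊥
  · rw [hI0, ← Ideal.zero_eq_bot, map_zero]
  obtain ⟨x, hx0, hx⟩ := g2_gen hI0
  have h1 : x ∈ span {p2 D s} := by
    rw [← Ideal.span_singleton_le_iff_mem, ← hx]
    exact (Ideal.pow_le_self (classNumber_pos M).ne').trans hI
  have h2 : Φ I ^ classNumber M = 0 := by
    rw [← map_pow, hx, hΦ.span_eq x hx0, hf _ ((rd8_even hD s x).2 h1), mul_zero,
      Int.cast_zero, mul_zero]
  exact pow_eq_zero_iff (classNumber_pos M).ne' |>.1 h2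

include hD in
/-- the character vanishes at `ϖ` if it is ramified there -/
theorem PhiK.h2_zero1 (hΦ : PhiK D s T f f' Φ) (hf : ∀ x, x ∈ span {(2 : 𝓞 L)} → f x = 0) {I : Ideal (𝓞 M)}
    (hI : I ≤ span {p1 D s}) : Φ I = 0 := by
  by_cases hI0 : I = ⊥
  · rw [hI0, ← Ideal.zero_eq_bot, map_zero]
  obtain ⟨x, hx0, hx⟩ := g2_gen hI0
  have h1 : x ∈ span {p2 D (!s)} := by
    rw [bl_not, ← Ideal.span_singleton_le_iff_mem, ← hx]
    exact (Ideal.pow_le_self (classNumber_pos M).ne').trans hI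
  have h2 : Φ I ^ classNumber M = 0 := by
    rw [← map_pow, hx, hΦ.span_eq x hx0, hf _ ((rd8_even hD (!s) x).2 h1), mul_zero, zero_mul,
      Int.cast_zero, mul_zero]
  exact pow_eq_zero_iff (classNumber_pos M).ne' |>.1 h2

include hD in
/-- the trivial bound -/
theorem PhiK.h2_norm_le (hΦ : PhiK D s T f f' Φ) (hf : (∀ x, x ∈ span {(2 : 𝓞 L)} → f x = 0) ∨ f = fun _ => 1)
    (hf' : (∀ x, x ∈ span {(2 : 𝓞 L)} → f' x = 0) ∨ f' = fun _ => 1) (I : Ideal (𝓞 M)) : ‖Φ I‖ ^ 2 ≤ absNorm I := by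
  have hz : Φ I = 0 → ‖Φ I‖ ^ 2 ≤ absNorm I := by
    intro h
    rw [h, norm_zero, zero_pow two_ne_zero]
    exact Nat.cast_nonneg _
  by_cases hI0 : I = ⊥
  · apply hz
    rw [hI0, ← Ideal.zero_eq_bot, map_zero]
  by_cases h : ∀ P ∈ T, ¬ I ≤ P.asIdeal
  · by_cases h1 : (f = fun _ => 1) ∨ ¬ I ≤ span {p1 D s}
    · by_cases h2 : (f' = fun _ => 1) ∨ ¬ I ≤ span {p2 D s}
      · exact (hΦ.norm_eq I hI0 h h1 h2).le
      · rw [not_or, not_not] at h2
        exact hz (hΦ.h2_zero2 hD (hf'.resolve_right h2.1) h2.2)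
    · rw [not_or, not_not] at h1
      exact hz (hΦ.h2_zero1 hD (hf.resolve_right h1.1) h1.2)
  · push Not at h
    obtain ⟨P, hP, hIP⟩ := h
    exact hz (hΦ.h2_zero hP hIP)

end

theorem h2_psi (Ψ : PsiDat D) {R : HeightOneSpectrum (𝓞 M)} (hR : R.asIdeal = span {D.rr}) (x : 𝓞 M) :
    Ψ.psi (span {x}) = (TT.qr R x : ℂ) * D.NK (x : M) := by
  obtain ⟨⟨a, b⟩, hab⟩ := D.z0_bij.2 x
  have hab' : x = algebraMap (𝓞 L) (𝓞 M) a + algebraMap (𝓞 L) (𝓞 M) b * D.om := hab.symm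
  rw [hab', Ψ.span_eq, ← chi_eq_qr_rr D R hR a b]

theorem h2_rs7_not (s : Bool) : rs7 D (!s) = -rs7 D s := by
  unfold rs7
  rw [bl_not, show p2 D s = p1 D (!s) from rfl]
  ring

theorem h2_rs7_notMem {s : Bool} {P : HeightOneSpectrum (𝓞 M)} (h7 : (7 : 𝓞 M) ∉ P.asIdeal) : rs7 D s ∉ P.asIdeal := by
  intro h
  apply h7
  have h1 : (7 : 𝓞 M) = -(rs7 D s * rs7 D s) := by
    have h2 := x_mul D s
    have h3 := x_add D s
    unfold rs7
    linear_combination (-4 : 𝓞 M) * h2 + (p1 D s + p2 D s + 1) * h3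
  rw [h1]
  exact neg_mem (Ideal.mul_mem_left _ _ h)

section
variable {s : Bool} {d : M} {T : Finset (HeightOneSpectrum (𝓞 M))} {z : HeightOneSpectrum (𝓞 M) → 𝓞 M} {ε : (𝓞 L)ˣ} {i j : Bool}
  (H : DK D s d T z ε i j)

/-- the unit `ε` is no element of a prime -/
theorem h2_eps (ε : (𝓞 L)ˣ) (P : HeightOneSpectrum (𝓞 M)) : algebraMap (𝓞 L) (𝓞 M) (ε : 𝓞 L) ∉ P.asIdeal := fun h =>
  P.isPrime.ne_top (Ideal.eq_top_of_isUnit_mem _ h (ε.isUnit.map _))

theorem h2_eps2 (hD : Od2 D) (ε : (𝓞 L)ˣ) : (ε : 𝓞 L) ∉ span {(2 : 𝓞 L)} := fun h =>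
  hD.two.ne_top (Ideal.eq_top_of_isUnit_mem _ h ε.isUnit)

include H

theorem DK.h2_z {P Q : HeightOneSpectrum (𝓞 M)} (hQ : Q ∈ T) (hPQ : P ≠ Q) : z Q ∉ P.asIdeal := by
  intro h
  obtain ⟨k, hk, hkQ⟩ := (H.ng Q hQ).gen
  have h1 : Q.asIdeal ^ k ≤ P.asIdeal := by
    rw [← hkQ]
    exact (Ideal.span_singleton_le_iff_mem _).2 h
  have h2 := P.isPrime.le_of_pow_le h1
  exact hPQ (HeightOneSpectrum.ext (Q.isMaximal.eq_of_le P.isPrime.ne_top h2)).symm

theorem DK.h2_prod {P : HeightOneSpectrum (𝓞 M)} (hP : P ∉ T) : ∏ Q ∈ T, z Q ∉ P.asIdeal := by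
  intro h
  obtain ⟨Q, hQ, hQz⟩ := (P.isPrime.prod_mem_iff).1 h
  have hne : P ≠ Q := by
    rintro rfl
    exact hP hQ
  exact H.h2_z hQ hne hQz

theorem DK.h2_z0 {Q : HeightOneSpectrum (𝓞 M)} (hQ : Q ∈ T) : z Q ≠ 0 := by
  intro h
  obtain ⟨k, hk, hkQ⟩ := (H.ng Q hQ).gen
  rw [h, Ideal.span_singleton_eq_bot.2 rfl] at hkQ
  exact pow_ne_zero _ Q.ne_bot hkQ.symm

theorem DK.h2_ne : d ≠ 0 := by
  rintro rfl
  obtain ⟨y, hy, h⟩ := H.eq
  rw [zero_mul] at h
  have h1 := (mul_eq_zero.1 h.symm).resolve_right (pow_ne_zero _ hy)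
  have hp1 : p1 D s ≠ 0 := by
    have := x1_p2_ne (D := D) (!s)
    rwa [bl_not] at this
  have hp2 := x1_p2_ne (D := D) s
  have h2 : (algebraMap (𝓞 L) (𝓞 M) (ε : 𝓞 L) * (if i then -(p1 D s) else 1) *
    (if j then -(p2 D s) else 1) * ∏ P ∈ T, z P : 𝓞 M) = 0 := by exact_mod_cast h1
  refine absurd h2 (mul_ne_zero (mul_ne_zero (mul_ne_zero (ε.isUnit.map _).ne_zero ?_) ?_) ?_)
  · split_ifs
    · exact neg_ne_zero.2 hp1
    · exact one_ne_zero
  · split_ifs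
    · exact neg_ne_zero.2 hp2
    · exact one_ne_zero
  · exact Finset.prod_ne_zero_iff.2 fun Q hQ => H.h2_z0 hQ

theorem DK.h2_T {P : HeightOneSpectrum (𝓞 M)} (h2 : (2 : 𝓞 M) ∈ P.asIdeal) : P ∉ T := fun h => H.two P h h2

/-- the unramified part at `ϖ'` -/
theorem DK.h2_w {P : HeightOneSpectrum (𝓞 M)} (hP : P.asIdeal = span {p2 D s}) :
    Et D s ((if i then -(p1 D s) else 1) * ∏ P ∈ T, z P) ∧
      (if i then -(p1 D s) else 1) * ∏ P ∈ T, z P ∉ P.asIdeal := by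
  constructor
  · refine bl_et_mul ?_ (bl_et_prod T fun Q hQ => (H.ng Q hQ).et)
    split_ifs
    · refine ⟨1, 1, isCoprime_one_left, ?_⟩
      have h1 := x_mul D s
      have h2 := x_add D s
      linear_combination (-1 - p2 D s) * h2 + h1
    · exact bl_et_one
  · intro h
    rcases P.isPrime.mem_or_mem h with h | h
    · split_ifs at h
      · exact h2_p1 hP ((neg_mem_iff).1 h)
      · exact P.isPrime.ne_top ((Ideal.eq_top_iff_one _).2 h)
    · exact H.h2_prod (H.h2_T (h2_two hP)) h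

/-- `d` is unramified at `ϖ'` if and only if the class `(j, ε)` is unramified -/
theorem DK.h2_ur (hD : Od2 D) {P : HeightOneSpectrum (𝓞 M)} (hP : P.asIdeal = span {p2 D s}) :
    Ur P d ↔ ¬ Rm (ε : 𝓞 L) j := by
  obtain ⟨y, hy, hd⟩ := H.eq
  obtain ⟨hw1, hw2⟩ := H.h2_w hP
  have hwU := h2_et_ur hP hw1 hw2
  set w : 𝓞 M := (if i then -(p1 D s) else 1) * ∏ P ∈ T, z P with hw
  have hw0 : (w : M) ≠ 0 := g2_coe_ne hw2
  obtain ⟨hrU, -⟩ := h2_sg_rs7 hD hP
  have hr0 : ((rs7 D s : 𝓞 M) : M) ≠ 0 := hrU.ne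
  set e : 𝓞 M := algebraMap (𝓞 L) (𝓞 M) (ε : 𝓞 L) with he
  have heP : e ∉ P.asIdeal := h2_eps ε P
  have hdr : Ur P d ↔ Ur P (d * ((rs7 D s : 𝓞 M) : M)) := by
    constructor
    · exact fun h => h.mul hrU
    · intro h
      have h1 := h.mul hrU
      have e1 : d * ((rs7 D s : 𝓞 M) : M) * ((rs7 D s : 𝓞 M) : M) = ((rs7 D s : 𝓞 M) : M) ^ 2 * d := by ring
      rwa [e1, ur_sq_mul hr0] at h1
  rw [hdr]
  by_cases hj : j = true
  · rw [if_pos hj] at hd
    have h1 : Od P (d * ((rs7 D s : 𝓞 M) : M)) := by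
      refine ⟨y, e * w * (-(p2 D s)), hy, ?_, ?_, ?_⟩
      · rw [hd, hw]
        simp only [g1_mul]
        ring
      · exact Ideal.mul_mem_left _ _ (neg_mem (h2_mem hP))
      · have h3 : P.valuation M ((e * w * (-(p2 D s)) : 𝓞 M) : M) = WithZero.exp (-1) := by
          have h4 : P.valuation M ((-(p2 D s) : 𝓞 M) : M) = WithZero.exp (-1) := by
            rw [g1_val_exp]
            refine ⟨neg_mem (h2_mem hP), ?_⟩
            rw [neg_mem_iff, hP, Ideal.span_singleton_pow, Ideal.mem_span_singleton]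
            rintro ⟨c, hc⟩
            apply P.isPrime.ne_top
            rw [hP, Ideal.span_singleton_eq_top]
            refine IsUnit.of_mul_eq_one c ?_
            have h5 : p2 D s * (p2 D s * c) = p2 D s * 1 := by linear_combination -hc
            exact mul_left_cancel₀ (x1_p2_ne s) h5
          rw [g1_mul, g1_mul, map_mul, map_mul, (g1_val_one P).2 heP, (g1_val_one P).2 hw2, h4]
          simp
        exact ((g1_val_exp P).1 h3).2
    constructor
    · intro h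
      exact absurd h.val h1.val
    · intro h
      exact absurd (Or.inl hj) h
  · have hjf : j = false := by simpa using hj
    rw [if_neg hj] at hd
    have e1 : d * ((rs7 D s : 𝓞 M) : M) = y ^ 2 * ((e : M) * (w : M)) := by
      rw [hd, hw]
      simp only [g1_mul, mul_one]
      ring
    have h1 : Ur P (d * ((rs7 D s : 𝓞 M) : M)) ↔ Ur P (e : M) := by
      rw [e1, ur_sq_mul hy]
      constructor
      · intro h
        have h3 := h.mul hwU
        have e3 : (e : M) * (w : M) * (w : M) = (w : M) ^ 2 * (e : M) := by ring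
        rwa [e3, ur_sq_mul hw0] at h3
      · exact fun h => h.mul hwU
    rw [h1]
    unfold Rm
    rw [not_or, not_not, hjf]
    constructor
    · intro h
      refine ⟨by simp, ?_⟩
      have h3 := h2_ur_et hD hP heP h
      obtain ⟨a, c, ha, hac⟩ := (rd8_et hD s e).1 h3
      obtain ⟨c', hc'⟩ := Ideal.mem_span_singleton'.1 (rd8_alg hD s (ε : 𝓞 L))
      refine ⟨a, c - 2 * c', ha, ?_⟩
      rw [he] at hac
      linear_combination hac + hc'
    · rintro ⟨-, a, c, ha, hac⟩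
      refine ⟨1, algebraMap (𝓞 L) (𝓞 M) a, algebraMap (𝓞 L) (𝓞 M) c, one_ne_zero, ?_, ?_⟩
      · rw [one_pow, one_mul]
        congr 1
        rw [he, hac, map_add, map_pow, map_mul, map_ofNat]
      · have e3 : algebraMap (𝓞 L) (𝓞 M) a ^ 2 + 4 * algebraMap (𝓞 L) (𝓞 M) c = e := by
          rw [he, hac, map_add, map_pow, map_mul, map_ofNat]
        rw [e3]
        exact heP

end

end

end TRZ
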