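import Pool.Agent.TRZ.H2b2
import Pool.Agent.TRZ.C2
import Pool.Agent.TRP.U
import Pool.Agent.TRP.VAL

/-! # [ALL2-H2b] the Hecke character at the primes not above `7` -/

set_option autoImplicit false
set_option linter.unusedSectionVars false

open NumberField Ideal IsDedekindDomain
open scoped Real Classical ComplexConjugate
open TR TRG TRP TTS TU TT

namespace TRZ

section
variable {L M : Type} [Field L] [NumberField L] [Field M] [NumberField M] [Algebra L M]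
  [IsTotallyReal L] {D : Dat L M} (hD : Od2 D)
include hD

theorem h2_kp_cases {c : 𝓞 L} (hc : c ∉ span {(2 : 𝓞 L)}) (i : Bool) {x : 𝓞 L} (hx : x ∉ span {(2 : 𝓞 L)}) :
    kp c i x = 1 ∨ kp c i x = -1 := by
  by_cases h : Rm c i
  · have h1 := kp_kp hD hc h
    rcases h1.val x with h2 | h2 | h2
    · exact absurd ((h1.zero x).1 h2) hx
    · exact Or.inl h2
    · exact Or.inr h2
  · left
    rw [kp_one hD h]

section
variable {s : Bool} {d : M} {T : Finset (HeightOneSpectrum (𝓞 M))} {z : HeightOneSpectrum (𝓞 M) → 𝓞 M} {ε : (𝓞 L)ˣ} {i j : Bool}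
  (H : DK D s d T z ε i j)
include H

theorem DK.h2_cd : cd D s T z ε ∉ span {(2 : 𝓞 L)} := by
  intro h
  unfold cd at h
  rw [rd8_even hD (!s)] at h
  obtain ⟨Q, hQ⟩ := h2_exists hD (!s)
  rw [← hQ] at h
  rcases Q.isPrime.mem_or_mem h with h | h
  · exact h2_eps ε Q (neg_mem_iff.1 h)
  · exact H.h2_prod (H.h2_T (h2_two hQ)) h

theorem DK.h2_sgn (hj : ¬ Rm (ε : 𝓞 L) j) {P : HeightOneSpectrum (𝓞 M)} (hP : P.asIdeal = span {p2 D s}) :
    sg P d = (∏ Q ∈ T, TT.qr Q (p2 D s)) * kp (cd D s T z ε) i (rd8 D (!s) (p2 D s)) := by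
  have hu : Ur P d := (H.h2_ur hD hP).2 hj
  obtain ⟨hrU, hrs⟩ := h2_sg_rs7 hD hP
  have h1 : sg P (d * ((rs7 D s : 𝓞 M) : M)) = -sg P d := by
    rw [sg_mul hu hrU, hrs]
    ring
  have hcase : ∀ {a : M}, Ur P a → sg P a = 1 ∨ sg P a = -1 := by
    intro a ha
    unfold sg
    rw [if_pos ha]
    split_ifs
    · exact Or.inl rfl
    · exact Or.inr rfl
  have h2 : Nsq D s d ↔ sg P d = 1 := by
    constructor
    · intro h
      have h3 := h P (h2_mem hP)
      rcases hcase hu with h4 | h4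
      · exact h4
      · exfalso
        apply h3
        apply h2_sq_complete
        rw [← sg_eq_one_iff, h1, h4]
        norm_num
    · intro h Q hQ hsq
      have hQP : Q = P := HeightOneSpectrum.ext (by rw [h2_eq hD hQ, hP])
      rw [hQP] at hsq
      have h3 := x0_sq (mul_ne_zero H.h2_ne hrU.ne) hsq
      rw [← sg_eq_one_iff, h1, h] at h3
      norm_num at h3
  have h3 := (H.nsq hD hj).1
  have h4 : (∏ Q ∈ T, TT.qr Q (p2 D s)) * kp (cd D s T z ε) i (rd8 D (!s) (p2 D s)) = 1 ∨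
      (∏ Q ∈ T, TT.qr Q (p2 D s)) * kp (cd D s T z ε) i (rd8 D (!s) (p2 D s)) = -1 := by
    have h5 : (∏ Q ∈ T, TT.qr Q (p2 D s)) = 1 ∨ (∏ Q ∈ T, TT.qr Q (p2 D s)) = -1 := by
      refine Finset.prod_induction (fun Q => TT.qr Q (p2 D s)) (fun x => x = 1 ∨ x = -1) ?_ (Or.inl rfl) ?_
      · rintro a b (h | h) (h' | h') <;> rw [h, h'] <;> norm_num
      · intro Q hQ
        rcases TT.qr_cases Q (p2 D s) with h | h | h
        · exfalso
          apply H.two Q hQ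
          rw [← x_mul D s]
          exact Ideal.mul_mem_left _ _ ((TT.qr_eq_zero Q).1 h)
        · exact Or.inl h
        · exact Or.inr h
    have h6 : rd8 D (!s) (p2 D s) ∉ span {(2 : 𝓞 L)} := by
      rw [rd8_even hD (!s)]
      intro h
      obtain ⟨Q, hQ⟩ := h2_exists hD (!s)
      rw [← hQ] at h
      exact h2_p1 hQ h
    rcases h5 with h5 | h5 <;> rcases h2_kp_cases hD (H.h2_cd hD) i h6 with h7 | h7 <;> rw [h5, h7] <;> norm_num
  rcases hcase hu with h5 | h5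
  · rw [h5]
    exact (h3.1 (h2.2 h5)).symm
  · rw [h5]
    rcases h4 with h6 | h6
    · exfalso
      have h7 := h2.1 (h3.2 h6)
      rw [h5] at h7
      norm_num at h7
    · exact h6.symm

/-- the value at `ϖ'` -/
theorem DK.h2_at2 (Ψ : PsiDat D) {Φ : Ideal (𝓞 M) →*₀ ℂ} (hΦ : PhiK D s T (kp (cd D s T z ε) i) (kp (ε : 𝓞 L) j) Φ)
    {P : HeightOneSpectrum (𝓞 M)} (hP : P.asIdeal = span {p2 D s}) :
    Φ P.asIdeal = (sg P d : ℂ) * Ψ.psi P.asIdeal := by
  by_cases hj : Rm (ε : 𝓞 L) j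
  · have hu : ¬ Ur P d := fun h => (H.h2_ur hD hP).1 h hj
    have h1 : sg P d = 0 := by
      unfold sg
      rw [if_neg hu]
    have h2 := hΦ.h2_zero2 hD (fun x hx => ((kp_kp hD (h2_eps2 hD ε) hj).zero x).2 hx) hP.le
    rw [h1, h2, Int.cast_zero, zero_mul]
  · obtain ⟨R, hR⟩ := g2_exists_R D
    rw [H.h2_sgn hD hj hP, hP, h2_psi Ψ hR, va_qr_R hR, hΦ.span_eq _ (x1_p2_ne s), kp_one hD hj]
    push_cast
    ring

/-- the value at the primes not above `14` -/
theorem DK.h2_atodd (Ψ : PsiDat D) {Φ : Ideal (𝓞 M) →*₀ ℂ} (hΦ : PhiK D s T (kp (cd D s T z ε) i) (kp (ε : 𝓞 L) j) Φ)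
    {P : HeightOneSpectrum (𝓞 M)} (h2 : (2 : 𝓞 M) ∉ P.asIdeal) (h7 : (7 : 𝓞 M) ∉ P.asIdeal) :
    Φ P.asIdeal = (sg P d : ℂ) * Ψ.psi P.asIdeal := by
  obtain ⟨R, hR⟩ := g2_exists_R D
  have h2R := x_two_R hR
  have hPR : P ≠ R := by
    rintro rfl
    exact h7 ((D.above_seven.2.1 P).2 hR)
  by_cases hPT : P ∈ T
  · have h1 := (H.mem_iff h2).1 hPT
    rw [g2_sq_mul H.h2_ne g2_r_ne, iff_true_right (g2_ne_R hR hPR)] at h1
    have h3 : sg P d = 0 := by
      unfold sg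
      rw [if_neg fun h : Ur P d => h1 h.val]
    rw [hΦ.h2_zero hPT le_rfl, h3, Int.cast_zero, zero_mul]
  obtain ⟨x, hx⟩ := exists_NG hD s h2
  obtain ⟨k, hk, hkx⟩ := hx.gen
  have hx0 : x ≠ 0 := by
    rintro rfl
    rw [Ideal.span_singleton_eq_bot.2 rfl] at hkx
    exact pow_ne_zero _ P.ne_bot hkx.symm
  have hxR : x ∉ R.asIdeal := by
    intro h
    have h3 : P.asIdeal ^ k ≤ R.asIdeal := by
      rw [← hkx]
      exact (Ideal.span_singleton_le_iff_mem _).2 h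
    have h4 := R.isPrime.le_of_pow_le h3
    exact hPR (HeightOneSpectrum.ext (P.isMaximal.eq_of_le R.isPrime.ne_top h4))
  have hpr := H.prime hD h2 hPT hx
  set a : 𝓞 M := algebraMap (𝓞 L) (𝓞 M) (ε : 𝓞 L) * (if i then -(p1 D s) else 1) *
    (if j then -(p2 D s) else 1) * ∏ Q ∈ T, z Q with ha
  have hp1 : p1 D s ∉ P.asIdeal := by
    intro h
    apply h2
    rw [← x_mul D s]
    exact Ideal.mul_mem_right _ _ h
  have hp2 : p2 D s ∉ P.asIdeal := by
    intro h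
    apply h2
    rw [← x_mul D s]
    exact Ideal.mul_mem_left _ _ h
  have haP : a ∉ P.asIdeal := by
    intro h
    rw [ha] at h
    rcases P.isPrime.mem_or_mem h with h | h
    · rcases P.isPrime.mem_or_mem h with h | h
      · rcases P.isPrime.mem_or_mem h with h | h
        · exact h2_eps ε P h
        · split_ifs at h
          · exact hp1 (neg_mem_iff.1 h)
          · exact P.isPrime.ne_top ((Ideal.eq_top_iff_one _).2 h)
      · split_ifs at h
        · exact hp2 (neg_mem_iff.1 h)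
        · exact P.isPrime.ne_top ((Ideal.eq_top_iff_one _).2 h)
    · exact H.h2_prod hPT h
  have hr7 : rs7 D s ∉ P.asIdeal := h2_rs7_notMem h7
  have hr0 : ((rs7 D s : 𝓞 M) : M) ≠ 0 := g2_coe_ne hr7
  have hsg : sg P d = TT.qr P (-a) * TT.qr R x := by
    obtain ⟨y, hy, hd⟩ := H.eq
    have e1 : d = (y / ((rs7 D s : 𝓞 M) : M)) ^ 2 * (((-a) * rs7 D (!s) : 𝓞 M) : M) := by
      have e2 : (((-a) * rs7 D (!s) : 𝓞 M) : M) = (a : M) * ((rs7 D s : 𝓞 M) : M) := by
        rw [h2_rs7_not, ← g1_mul]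
        congr 1
        ring
      rw [e2]
      field_simp
      linear_combination hd
    have haP' : (-a) * rs7 D (!s) ∉ P.asIdeal := by
      intro h
      rcases P.isPrime.mem_or_mem h with h | h
      · exact haP (neg_mem_iff.1 h)
      · exact h2_rs7_notMem h7 h
    rw [e1, sg_sq_mul (div_ne_zero hy hr0), h2_sg_odd h2 haP', TT.qr_mul P h2,
      NG.transpose hD hPR h2 h2R hx (va_NG_R hD hR (!s))]
  have hqq : TT.qr R x * TT.qr R x = 1 := by
    rcases TT.qr_cases R x with h | h | h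
    · exact absurd ((TT.qr_eq_zero R).1 h) hxR
    · rw [h]; norm_num
    · rw [h]; norm_num
  have h1 : Φ P.asIdeal ^ k = D.NK (x : M) * (TT.qr P (-a) : ℂ) := by
    rw [← map_pow, ← hkx, hΦ.span_eq x hx0, hpr]
  have h3 : Ψ.psi P.asIdeal ^ k = (TT.qr R x : ℂ) * D.NK (x : M) := by
    rw [← map_pow, ← hkx, h2_psi Ψ hR]
  have hsc : sg P d = 0 ∨ sg P d = 1 ∨ sg P d = -1 := by
    unfold TU.sg
    split_ifs <;> simp
  obtain ⟨β, hβ⟩ := hΦ.val P.asIdeal
  obtain ⟨γ, hγ⟩ := Ψ.val P.asIdeal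
  have hint : ∀ n : ℤ, toC ((n : ℤ) : R7) = (n : ℂ) := fun n => map_intCast toC n
  rw [hβ, hγ, ← hint, ← map_mul]
  congr 1
  apply x_odd_inj hk
  have e1 : ((TU.sg P d : ℤ) : ℂ) ^ k = (TU.sg P d : ℂ) := by
    rw [← Int.cast_pow, r1_pow_odd hsc hk]
  rw [map_mul, hint, mul_pow, ← hβ, ← hγ, h1, h3, e1, hsg]
  have e2 : ((TT.qr R x : ℤ) : ℂ) * ((TT.qr R x : ℤ) : ℂ) = 1 := by exact_mod_cast hqq
  push_cast
  linear_combination (-(D.NK (x : M) * (TT.qr P (-a) : ℂ))) * e2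

end

end

end TRZ
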