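import Pool.Agent.TRZ.G
import Pool.Agent.TRZ.H2a
import Pool.Agent.TRZ.Defs3
import Pool.Agent.TRP.G3b

/-! # [ALL2-H3a] rationality of the value for a general sign function (port of `TRP.rational_T`) -/

set_option autoImplicit false
set_option linter.unusedSectionVars false

open NumberField Ideal IsDedekindDomain
open scoped Real Classical ComplexConjugate
open TR TRG TRP TTS TU TT
open TRH (CC CC_id CC_cj omMap_Mab al_cj)

namespace TRZ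

section
variable {L M : Type} [Field L] [NumberField L] [Field M] [NumberField M] [Algebra L M]
  [IsTotallyReal L]

/-- a quadratic sign function modulo `m` -/
structure Sg (D : Dat L M) (η : 𝓞 M → ℤ) (m : ℕ) : Prop where
  pos : 0 < m
  mul : ∀ x y, η (x * y) = η x * η y
  per : ∀ x y, η (x + (m : 𝓞 M) * y) = η x
  unit : ∀ u : (𝓞 L)ˣ, η (algebraMap (𝓞 L) (𝓞 M) (u : 𝓞 L)) = Algebra.norm ℤ (u : 𝓞 L)

theorem Sg.one {D : Dat L M} {η : 𝓞 M → ℤ} {m : ℕ} (h : Sg D η m) : η 1 = 1 := by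
  have h1 := h.unit 1
  rwa [Units.val_one, map_one, map_one] at h1

theorem Sg.sq {D : Dat L M} {η : 𝓞 M → ℤ} {m : ℕ} (h : Sg D η m) {x y w : 𝓞 M}
    (e : x * y + (m : 𝓞 M) * w = 1) : η x * η x = 1 := by
  have h1 : η x * η y = 1 := by
    rw [← h.mul, ← h.one, ← h.per (x * y) w, e]
  rcases Int.isUnit_iff.1 (IsUnit.of_mul_eq_one _ h1) with h2 | h2 <;> rw [h2] <;> norm_num

theorem Sg.int_sq {D : Dat L M} {η : 𝓞 M → ℤ} {m n : ℕ} (h : Sg D η m) (hmn : m ∣ n) {t : ℤ}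
    (ht : IsCoprime t (n : ℤ)) {x y : 𝓞 M} (hx : x * y = (t : 𝓞 M)) : η x * η x = 1 := by
  obtain ⟨u, w, huw⟩ := ht
  obtain ⟨k, hk⟩ := hmn
  refine h.sq (y := (u : 𝓞 M) * y) (w := (w : 𝓞 M) * (k : 𝓞 M)) ?_
  have h1 := congrArg (fun z : ℤ => (z : 𝓞 M)) huw
  rw [hk] at h1
  push_cast at h1
  linear_combination (u : 𝓞 M) * hx + h1

/-- the weight -/
noncomputable def h3w (D : Dat L M) (η : 𝓞 M → ℤ) (c : 𝓞 M →+* 𝓞 M) (J : Ideal (𝓞 M)) (x : 𝓞 L × 𝓞 L) : ℤ :=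
  if x ∈ D.Lb J then η (c (D.omMap x)) else 0

theorem h3_OW (D : Dat L M) {η : 𝓞 M → ℤ} {m : ℕ} (hη : Sg D η m) {c : 𝓞 M →+* 𝓞 M} (hc : CC D c) {J : Ideal (𝓞 M)} {n : ℕ}
    (hn : 0 < n) (hmn : m ∣ n) (hJn : absNorm J ∣ n) : OW n (h3w D η c J) where
  pos := hn
  per x y := by
    have h1 : D.omMap (x + (n : 𝓞 L) • y) = D.omMap x + ((n : ℕ) : 𝓞 M) * D.omMap y := by
      rw [map_add, map_smul, Algebra.smul_def, map_natCast]
    have h3 : x + (n : 𝓞 L) • y ∈ D.Lb J ↔ x ∈ D.Lb J := by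
      show D.omMap (x + (n : 𝓞 L) • y) ∈ J ↔ D.omMap x ∈ J
      rw [h1]
      refine J.add_mem_iff_left ?_
      obtain ⟨k, hk⟩ := hJn
      rw [hk, Nat.cast_mul, mul_assoc]
      exact J.mul_mem_right _ (absNorm_mem J)
    have h4 : η (c (D.omMap (x + (n : 𝓞 L) • y))) = η (c (D.omMap x)) := by
      obtain ⟨k, hk⟩ := hmn
      rw [h1, map_add, map_mul, map_natCast, hk, Nat.cast_mul, mul_assoc, hη.per]
    unfold h3w
    simp only [h3, h4]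
  unit u x := by
    have h1 : D.omMap ((u : 𝓞 L) • x) = algebraMap (𝓞 L) (𝓞 M) u * D.omMap x := by
      rw [map_smul, Algebra.smul_def]
    have hu' : IsUnit (algebraMap (𝓞 L) (𝓞 M) (u : 𝓞 L)) := u.isUnit.map _
    obtain ⟨v, hv⟩ := hu'
    have h3 : (u : 𝓞 L) • x ∈ D.Lb J ↔ x ∈ D.Lb J := by
      show D.omMap ((u : 𝓞 L) • x) ∈ J ↔ D.omMap x ∈ J
      rw [h1, ← hv]
      constructor
      · intro h2
        have h4 := J.mul_mem_left (((v⁻¹ : (𝓞 M)ˣ)) : 𝓞 M) h2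
        rwa [← mul_assoc, Units.inv_mul, one_mul] at h4
      · intro h2
        exact J.mul_mem_left _ h2
    have h4 : η (c (D.omMap ((u : 𝓞 L) • x))) = Algebra.norm ℤ (u : 𝓞 L) * η (c (D.omMap x)) := by
      rw [h1, map_mul, hc.alg, hη.mul, hη.unit]
    unfold h3w
    simp only [h3, h4]
    split_ifs
    · rfl
    · rw [mul_zero]

/-- the factor -/
noncomputable def h3e (D : Dat L M) (η : 𝓞 M → ℤ) (c : 𝓞 M →+* 𝓞 M) (a b : ℤ) : ℤ :=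
  η (c ((a : 𝓞 M) + (b : 𝓞 M) * D.om))

theorem h3e_sq (D : Dat L M) {η : 𝓞 M → ℤ} {m : ℕ} (hη : Sg D η m) (c : 𝓞 M →+* 𝓞 M) {n : ℕ} (hmn : m ∣ n) {a b : ℤ}
    (hs : IsCoprime (a ^ 2 - 7 * a * b + 14 * b ^ 2) (n : ℤ)) : h3e D η c a b * h3e D η c a b = 1 := by
  have h1 := congrArg c (al_cj D a b)
  rw [map_mul, map_intCast] at h1
  exact hη.int_sq hmn hs h1

theorem h3e_mul (D : Dat L M) {η : 𝓞 M → ℤ} {m : ℕ} (hη : Sg D η m) (a b : ℤ) :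
    h3e D η (RingHom.id _) a b * h3e D η D.cjO a b = η ((a ^ 2 - 7 * a * b + 14 * b ^ 2 : ℤ) : 𝓞 M) := by
  unfold h3e
  rw [RingHom.id_apply, ← hη.mul, al_cj]

/-- the weight under the multiplication by `a + b ω` -/
theorem h3_Mab (D : Dat L M) {η : 𝓞 M → ℤ} {m : ℕ} (hη : Sg D η m) (c : 𝓞 M →+* 𝓞 M)
    {J : Ideal (𝓞 M)} {n : ℕ} (hmn : m ∣ n) (hJn : absNorm J ∣ n) {a b : ℤ}
    (hs : IsCoprime (a ^ 2 - 7 * a * b + 14 * b ^ 2) (n : ℤ)) (x : 𝓞 L × 𝓞 L) :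
    h3w D η c J x = h3e D η c a b * h3w D η c J (TRS.actR (TRS.Mab a b) x) := by
  have h1 : TRS.actR (TRS.Mab a b) x ∈ D.Lb J ↔ x ∈ D.Lb J := by
    show D.omMap (TRS.actR (TRS.Mab a b) x) ∈ J ↔ D.omMap x ∈ J
    rw [omMap_Mab]
    constructor
    · intro h2
      obtain ⟨u, w, huw⟩ := hs
      have h3 : ((n : ℕ) : 𝓞 M) * D.omMap x ∈ J := by
        obtain ⟨k, hk⟩ := hJn
        rw [hk, Nat.cast_mul, mul_assoc]
        exact J.mul_mem_right _ (absNorm_mem J)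
      have h4 := J.mul_mem_left ((u : 𝓞 M) * D.cjO ((a : 𝓞 M) + (b : 𝓞 M) * D.om)) h2
      have h5 := J.mul_mem_left (w : 𝓞 M) h3
      have h6 := J.add_mem h4 h5
      have h7 : (u : 𝓞 M) * D.cjO ((a : 𝓞 M) + (b : 𝓞 M) * D.om) *
          (((a : 𝓞 M) + (b : 𝓞 M) * D.om) * D.omMap x) + (w : 𝓞 M) * (((n : ℕ) : 𝓞 M) * D.omMap x) =
          D.omMap x := by
        have h8 := congrArg (fun z : ℤ => (z : 𝓞 M)) huw
        have h9 := al_cj D a b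
        push_cast at h8 h9
        linear_combination ((u : 𝓞 M) * D.omMap x) * h9 + D.omMap x * h8
      rwa [h7] at h6
    · exact fun h2 => J.mul_mem_left _ h2
  unfold h3w
  simp only [h1]
  by_cases hx : x ∈ D.Lb J
  · rw [if_pos hx, if_pos hx]
    have h3 : η (c (D.omMap (TRS.actR (TRS.Mab a b) x))) = h3e D η c a b * η (c (D.omMap x)) := by
      unfold h3e
      rw [omMap_Mab, map_mul, hη.mul]
    rw [h3, ← mul_assoc, h3e_sq D hη c hmn hs, one_mul]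
  · rw [if_neg hx, if_neg hx, mul_zero]

/-- the data of the character -/
structure ChB (D : Dat L M) (η : 𝓞 M → ℤ) (m : ℕ) (Φ : Ideal (𝓞 M) →*₀ ℂ) : Prop where
  span_eq : ∀ x : 𝓞 M, x ≠ 0 → Φ (span {x}) = D.NK (x : M) * ((η x : ℤ) : ℂ)
  val : ∀ I, ∃ β : R7, Φ I = toC β
  norm_eq : ∀ I, I ≠ ⊥ → (absNorm I).Coprime (14 * m) → ‖Φ I‖ ^ 2 = absNorm I
  norm_le : ∀ I, ‖Φ I‖ ^ 2 ≤ absNorm I

/-- the data of a character -/
structure ChS (D : Dat L M) (η : 𝓞 M → ℤ) (m : ℕ) (c : 𝓞 M →+* 𝓞 M) (Φ : Ideal (𝓞 M) →*₀ ℂ) : Prop where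
  span_eq : ∀ x : 𝓞 M, x ≠ 0 → Φ (span {x}) = D.NK (x : M) * ((η (c x) : ℤ) : ℂ)
  fix : ∀ σ : ℂ ≃+* ℂ, σ (Complex.I * (√7 : ℝ)) = Complex.I * (√7 : ℝ) → ∀ I, σ (Φ I) = Φ I
  alg : ∀ I, IsAlgebraic ℚ (Φ I)
  norm_eq : ∀ I, I ≠ ⊥ → (absNorm I).Coprime (14 * m) → ‖Φ I‖ ^ 2 = absNorm I
  norm_le : ∀ I, ‖Φ I‖ ^ 2 ≤ absNorm I

theorem ChS_id {D : Dat L M} {η : 𝓞 M → ℤ} {m : ℕ} {Φ : Ideal (𝓞 M) →*₀ ℂ} (h : ChB D η m Φ) :
    ChS D η m (RingHom.id _) Φ where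
  span_eq x hx := h.span_eq x hx
  fix σ hσ I := by
    obtain ⟨β, hβ⟩ := h.val I
    rw [hβ, TRS.zr2_sigma_toC σ hσ]
  alg I := by
    obtain ⟨β, hβ⟩ := h.val I
    rw [hβ]
    exact g3_alg_toC β
  norm_eq := h.norm_eq
  norm_le := h.norm_le

theorem ChS_cj {D : Dat L M} {η : 𝓞 M → ℤ} {m : ℕ} {Φ : Ideal (𝓞 M) →*₀ ℂ} (h : ChB D η m Φ) :
    ChS D η m D.cjO (phiC D Φ) where
  span_eq x hx := by
    have h0 : D.cjO x ≠ 0 := by
      intro h1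
      apply hx
      have h2 := a3_cjO_cjO D x
      have h3 : D.cjO (D.cjO x) = 0 := by rw [h1, map_zero]
      exact h2.symm.trans h3
    have h1 := h.span_eq _ h0
    rw [phiC_apply, Ideal.map_span, Set.image_singleton, h1, map_mul, g3_NK_cj, Complex.conj_conj]
    congr 1
    exact map_intCast (starRingEnd ℂ) _
  fix σ hσ I := by
    obtain ⟨β, hβ⟩ := h.val (I.map D.cjO)
    rw [phiC_apply, hβ, ← toC_star, TRS.zr2_sigma_toC σ hσ]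
  alg I := by
    obtain ⟨β, hβ⟩ := h.val (I.map D.cjO)
    rw [phiC_apply, hβ, ← toC_star]
    exact g3_alg_toC _
  norm_eq I hI hT := by
    have h1 : absNorm (I.map D.cjO) = absNorm I := a3_absNorm D I
    rw [phiC_apply, RCLike.norm_conj, h.norm_eq _ ?_ (by rwa [h1]), h1]
    intro h0
    rw [h0, absNorm_bot] at h1
    exact hI (absNorm_eq_zero_iff.1 h1.symm)
  norm_le I := by
    have h1 : absNorm (I.map D.cjO) = absNorm I := a3_absNorm D I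
    rw [phiC_apply, RCLike.norm_conj, ← h1]
    exact h.norm_le _

/-- the class sum -/
theorem h3_value (D : Dat L M) (hg' : Odd (Module.finrank ℚ L)) {η : 𝓞 M → ℤ} {m : ℕ} (hη : Sg D η m)
    {c : 𝓞 M →+* 𝓞 M} (hc : CC D c) {Φ : Ideal (𝓞 M) →*₀ ℂ} (H : ChS D η m c Φ)
    (r : GoodReps M m) {n : ℕ} (hn : 0 < n) (hmn : m ∣ n) (hrn : ∀ k, absNorm (r.r k) ∣ n)
    {Z : ℂ → ℂ} (hZ : Differentiable ℂ Z)
    (hZs : ∀ s : ℂ, 3 / 2 < s.re → Z s = ∑' I : Ideal (𝓞 M), conj (Φ I) * (absNorm I : ℂ) ^ (-s)) :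
    Z 1 * (((√|(discr L : ℝ)| : ℝ) : ℂ) / ((TRS.Om : ℝ) : ℂ) ^ Module.finrank ℚ L) =
      ∑ k, Φ (r.r k) * ale n (h3w D η c (r.r k)) := by
  have hH : HCh D Φ (fun x => η (c (D.omMap x))) := by
    refine ⟨fun x => ?_, H.norm_le⟩
    by_cases hx : x = 0
    · have h1 : z1_m D x = 0 := by rw [hx, z1_m_zero]
      have h2 : Φ (⊥ : Ideal (𝓞 M)) = 0 := map_zero Φ
      have h3 : D.NK (((0 : 𝓞 M)) : M) = 0 := by
        have h4 := g3_NK_alg D 0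
        rw [map_zero] at h4
        rw [h4, Algebra.norm_zero, Int.cast_zero]
      rw [h1, Ideal.span_singleton_eq_bot.2 rfl, h2, h3, mul_zero]
    · rw [H.span_eq _ (z1_m_ne D hx), mul_comm]
      rfl
  have hrn' : ∀ k, Φ (r.r k) * conj (Φ (r.r k)) = (absNorm (r.r k) : ℂ) := by
    intro k
    have h1 := H.norm_eq (r.r k) (r.ne k) (r.cop k)
    rw [Complex.mul_conj, Complex.normSq_eq_norm_sq, h1]
    push_cast
    rfl
  have hw : ∀ k, (fun x => if x ∈ D.Lb (r.r k) then η (c (D.omMap x)) * 1 else 0) =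
      h3w D η c (r.r k) := by
    intro k
    funext x
    unfold h3w
    rw [mul_one]
  have hv := value_one' hH hg' (w := fun _ => 1) (B := 1) (fun I => by simp) r.r r.ne hrn' r.bij
    (g := fun _ _ => 1) (fun _ _ _ _ _ => rfl) (n := fun _ => n)
    (fun k => by
      rw [hw k]
      exact h3_OW D hη hc hn hmn (hrn k)) hZ
    (fun s hs => by
      rw [hZs s hs]
      refine tsum_congr fun I => ?_
      rw [Int.cast_one, mul_one])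
  rw [hv, Finset.sum_mul]
  refine Finset.sum_congr rfl fun k _ => ?_
  rw [hw k]
  unfold ale
  ring

/-- the Galois action on the class sum -/
theorem h3_gal (D : Dat L M) (hg' : Odd (Module.finrank ℚ L)) {η : 𝓞 M → ℤ} {m : ℕ} (hη : Sg D η m)
    {n : ℕ} (hn : 0 < n) (hmn : m ∣ n) {r : ClassGroup (𝓞 M) → Ideal (𝓞 M)}
    (hrn : ∀ k, absNorm (r k) ∣ n)
    {Psi : ClassGroup (𝓞 M) → ℂ} {σ : ℂ ≃+* ℂ} (hPsi : ∀ k, σ (Psi k) = Psi k) {a b : ℤ}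
    (hs : IsCoprime (a ^ 2 - 7 * a * b + 14 * b ^ 2) ((n : ℕ) : ℤ))
    (hact : ∀ w w' : 𝓞 L × 𝓞 L → ℤ, OW n w → OW n w' →
        (∀ x : 𝓞 L × 𝓞 L, w x = w' (TRS.actR (TRS.Mab a b) x)) →
        σ (ale n w) = ale n w')
    {c : 𝓞 M →+* 𝓞 M} (hc : CC D c) :
    σ (∑ k, Psi k * ale n (h3w D η c (r k))) =
      (h3e D η c a b : ℂ) * ∑ k, Psi k * ale n (h3w D η c (r k)) := by
  rw [map_sum, Finset.mul_sum]
  refine Finset.sum_congr rfl fun k _ => ?_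
  have hPF := h3_OW D hη hc hn hmn (hrn k)
  rw [map_mul, hPsi, hact _ (fun x => h3e D η c a b * h3w D η c (r k) x) hPF (OW_smul hPF _)
    (fun x => h3_Mab D hη c hmn (hrn k) hs x), ale_smul D hg' hPF]
  ring

/-- rationality for a general sign function -/
theorem h3_rational (D : Dat L M) (hg' : Odd (Module.finrank ℚ L)) {η : 𝓞 M → ℤ} {m : ℕ} (hη : Sg D η m)
    {Φ : Ideal (𝓞 M) →*₀ ℂ} (hΦ : ChB D η m Φ) {N : ℕ}
    (hN : ∀ (σ : ℂ ≃+* ℂ), σ (Complex.I * (√7 : ℝ)) = Complex.I * (√7 : ℝ) → ∀ t : ℤ, IsCoprime t ((m : ℕ) : ℤ) →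
      σ (ee (1 / (m : ℂ))) = ee ((t : ℂ) / (m : ℂ)) → σ ((√(N : ℝ) : ℝ) : ℂ) = ((η (t : 𝓞 M) : ℤ) : ℂ) * ((√(N : ℝ) : ℝ) : ℂ))
    {Z : ℂ → ℂ} (hZd : Differentiable ℂ Z)
    (hZ : ∀ t : ℂ, 3 / 2 < t.re → Z t = ∑' I : Ideal (𝓞 M), conj (Φ I) * (absNorm I : ℂ) ^ (-t)) :
    ∃ Q : ℚ, Z 1 * conj (Z 1) * ((√|(discr L : ℝ)| : ℝ) : ℂ) ^ 2 *
        ((√(N : ℝ) : ℝ) : ℂ) / ((TRS.Om : ℝ) : ℂ) ^ (2 * Module.finrank ℚ L) = Q := by
  obtain ⟨r⟩ := exists_goodReps M D.hodd hη.pos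
  have hrpos : 0 < ∏ k, absNorm (r.r k) := Finset.prod_pos fun k _ => absNorm_pos (r.ne k)
  obtain ⟨n, hn⟩ : ∃ n, n = 3 * (m * ∏ k, absNorm (r.r k)) := ⟨_, rfl⟩
  have hn2 : 2 < n := by
    have h1 : 0 < m * ∏ k, absNorm (r.r k) := Nat.mul_pos hη.pos hrpos
    omega
  have hn0 : 0 < n := by omega
  have hmn : m ∣ n := by
    rw [hn]
    exact Dvd.dvd.mul_left (Dvd.intro _ rfl) _
  have hrn : ∀ k, absNorm (r.r k) ∣ n := by
    intro k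
    rw [hn]
    exact Dvd.dvd.mul_left (Dvd.dvd.mul_left (Finset.dvd_prod_of_mem (fun k => absNorm (r.r k)) (Finset.mem_univ k)) _) _
  have hA := h3_value D hg' hη (CC_id D) (ChS_id hΦ) r hn0 hmn hrn hZd hZ
  obtain ⟨hd', hZ'⟩ := g3_conj D hZd hZ
  have hB := h3_value D hg' hη (CC_cj D) (ChS_cj hΦ) r hn0 hmn hrn hd' hZ'
  simp only [map_one] at hB
  set W : ℂ := ((√|(discr L : ℝ)| : ℝ) : ℂ) / ((TRS.Om : ℝ) : ℂ) ^ Module.finrank ℚ L with hW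
  set q : ℂ := ((√(N : ℝ) : ℝ) : ℂ) with hq
  set Ya : ℂ := ∑ k, Φ (r.r k) * ale n (h3w D η (RingHom.id _) (r.r k)) with hYa
  set Yb : ℂ := ∑ k, phiC D Φ (r.r k) * ale n (h3w D η D.cjO (r.r k)) with hYb
  have hform : Z 1 * conj (Z 1) * ((√|(discr L : ℝ)| : ℝ) : ℂ) ^ 2 * q /
      ((TRS.Om : ℝ) : ℂ) ^ (2 * Module.finrank ℚ L) = Ya * Yb * q := by
    rw [← hA, ← hB, hW, mul_comm 2 (Module.finrank ℚ L), pow_mul]
    ring
  have halg : ∀ (c : 𝓞 M →+* 𝓞 M) (Φ' : Ideal (𝓞 M) →*₀ ℂ), CC D c → ChS D η m c Φ' →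
      IsAlgebraic ℚ (∑ k, Φ' (r.r k) * ale n (h3w D η c (r.r k))) := by
    intro c Φ' hc hΦ'
    refine Finset.sum_induction _ (IsAlgebraic ℚ) (fun _ _ => IsAlgebraic.add)
      isAlgebraic_zero fun k _ => ?_
    exact (hΦ'.alg _).mul (TRZ.ale_alg D hg' (h3_OW D hη hc hn0 hmn (hrn k)) hn2)
  refine TRS.rational_of_fixed _ ?_ ?_ fun σ hσ => ?_
  · rw [hform]
    refine ((halg _ _ (CC_id D) (ChS_id hΦ)).mul (halg _ _ (CC_cj D) (ChS_cj hΦ))).mul ?_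
    refine ⟨Polynomial.X ^ 2 - Polynomial.C (N : ℚ), ?_, ?_⟩
    · exact (Polynomial.monic_X_pow_sub_C _ (by norm_num)).ne_zero
    · simp only [map_sub, map_pow, Polynomial.aeval_X, Polynomial.aeval_C]
      rw [hq, ← Complex.ofReal_pow, Real.sq_sqrt (Nat.cast_nonneg _)]
      simp
  · have h6 : Z 1 * conj (Z 1) * ((√|(discr L : ℝ)| : ℝ) : ℂ) ^ 2 * q /
        ((TRS.Om : ℝ) : ℂ) ^ (2 * Module.finrank ℚ L) =
        ((Complex.normSq (Z 1) * √|(discr L : ℝ)| ^ 2 * √(N : ℝ) /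
          TRS.Om ^ (2 * Module.finrank ℚ L) : ℝ) : ℂ) := by
      rw [Complex.mul_conj]
      push_cast
      rfl
    rw [h6]
    exact Complex.ofReal_im _
  · rw [hform]
    obtain ⟨a, b, hs, hee, hact⟩ := TRZ.galois_E D hg' hn2 σ hσ
    have hsm : IsCoprime (a ^ 2 - 7 * a * b + 14 * b ^ 2) ((m : ℕ) : ℤ) := by
      obtain ⟨k, hk⟩ := hmn
      rw [hk, Nat.cast_mul] at hs
      exact hs.of_mul_right_left
    have heem : σ (ee (1 / (m : ℂ))) = ee (((a ^ 2 - 7 * a * b + 14 * b ^ 2 : ℤ) : ℂ) / (m : ℂ)) := by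
      obtain ⟨k, hk⟩ := hmn
      have hk0 : (k : ℂ) ≠ 0 := by
        rw [Nat.cast_ne_zero]
        rintro rfl
        omega
      have hm0 : (m : ℂ) ≠ 0 := Nat.cast_ne_zero.2 hη.pos.ne'
      have h1 := TRS.sigma_ee σ hee (k : ℤ)
      have e1 : (((k : ℤ) : ℂ) / ((n : ℕ) : ℂ)) = 1 / (m : ℂ) := by
        rw [hk]
        push_cast
        field_simp
      have e2 : ((((a ^ 2 - 7 * a * b + 14 * b ^ 2) * (k : ℤ) : ℤ) : ℂ) / ((n : ℕ) : ℂ)) =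
          ((a ^ 2 - 7 * a * b + 14 * b ^ 2 : ℤ) : ℂ) / (m : ℂ) := by
        rw [hk]
        push_cast
        field_simp
      rw [e1, e2] at h1
      exact h1
    have hsq := hN σ hσ _ hsm heem
    have ha := h3_gal D hg' hη hn0 hmn hrn (Psi := fun k => Φ (r.r k))
      (fun k => (ChS_id hΦ).fix σ hσ _) hs hact (CC_id D)
    have hb := h3_gal D hg' hη hn0 hmn hrn (Psi := fun k => phiC D Φ (r.r k))
      (fun k => (ChS_cj hΦ).fix σ hσ _) hs hact (CC_cj D)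
    rw [← hYa] at ha
    rw [← hYb] at hb
    have he := h3e_mul D hη a b
    have h1 : ((h3e D η (RingHom.id _) a b : ℤ) : ℂ) * ((h3e D η (RingHom.id _) a b : ℤ) : ℂ) = 1 := by
      exact_mod_cast h3e_sq D hη (RingHom.id _) hmn hs
    have h2 : ((h3e D η D.cjO a b : ℤ) : ℂ) * ((h3e D η D.cjO a b : ℤ) : ℂ) = 1 := by
      exact_mod_cast h3e_sq D hη D.cjO hmn hs
    rw [map_mul, map_mul, ha, hb, hsq, ← he, Int.cast_mul]
    have h3 : ∀ x y Ya Yb q : ℂ, x * x = 1 → y * y = 1 →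
        x * Ya * (y * Yb) * (x * y * q) = Ya * Yb * q := by
      intro x y Ya Yb q hx hy
      linear_combination Ya * Yb * q * y * y * hx + Ya * Yb * q * hy
    exact h3 _ _ _ _ _ h1 h2

end

end TRZ
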