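import Pool.Agent.TRZ.H3

/-! # [ALL2-H3b] the Galois action on the value: `σ X = η(α) X` -/

set_option autoImplicit false
set_option linter.unusedSectionVars false

open NumberField Ideal IsDedekindDomain
open scoped Real Classical ComplexConjugate
open TR TRG TRP TTS TU TT
open TRH (CC CC_id CC_cj omMap_Mab al_cj)

namespace TRZ

section
variable {L M : Type} [Field L] [NumberField L] [Field M] [NumberField M] [Algebra L M]
  [IsTotallyReal L]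

/-- `galois_E` with the normalisation at `7` -/
theorem galois_E7 (D : Dat L M) (hg' : Odd (Module.finrank ℚ L)) {n : ℕ} (hn2 : 2 < n) (σ : ℂ ≃+* ℂ)
    (hσ : σ (Complex.I * (√7 : ℝ)) = Complex.I * (√7 : ℝ)) :
    ∃ a b : ℤ, (7 ∣ n → c7 a = 1) ∧ IsCoprime (a ^ 2 - 7 * a * b + 14 * b ^ 2) ((n : ℕ) : ℤ) ∧
      σ (ee (1 / ((n : ℕ) : ℂ))) = ee (((a ^ 2 - 7 * a * b + 14 * b ^ 2 : ℤ) : ℂ) / ((n : ℕ) : ℂ)) ∧
      ∀ w w' : 𝓞 L × 𝓞 L → ℤ, OW n w → OW n w' →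
        (∀ x : 𝓞 L × 𝓞 L, w x = w' (TRS.actR (TRS.Mab a b) x)) →
        σ (ale n w) = ale n w' := by
  have : NeZero n := ⟨by omega⟩
  obtain ⟨a, b, a', b', ρ, G⟩ := TRS.exists_GalD σ hσ n
  have hm := TRS.ga_mat G
  have h00 := hm 0 0
  have h01 := hm 0 1
  have h10 := hm 1 0
  have h11 := hm 1 1
  refine ⟨a, b, fun h7 => TRS.gal_c7 σ hσ (by omega) h7 G.gal, ?_, gal_cyc G hn2, ?_⟩
  · have h1 : ((n : ℕ) : ℤ) ∣ (TRS.Mab a' b').det * (TRS.Mab a b).det - 1 := by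
      rw [← Matrix.det_mul, Matrix.det_fin_two]
      have e : (TRS.Mab a' b' * TRS.Mab a b) 0 0 * (TRS.Mab a' b' * TRS.Mab a b) 1 1 -
          (TRS.Mab a' b' * TRS.Mab a b) 0 1 * (TRS.Mab a' b' * TRS.Mab a b) 1 0 - 1 =
          ((TRS.Mab a' b' * TRS.Mab a b) 0 0 - (1 : Matrix (Fin 2) (Fin 2) ℤ) 0 0) * (TRS.Mab a' b' * TRS.Mab a b) 1 1 +
          ((TRS.Mab a' b' * TRS.Mab a b) 1 1 - (1 : Matrix (Fin 2) (Fin 2) ℤ) 1 1) -
          ((TRS.Mab a' b' * TRS.Mab a b) 0 1 - (1 : Matrix (Fin 2) (Fin 2) ℤ) 0 1) * (TRS.Mab a' b' * TRS.Mab a b) 1 0 := by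
        rw [Matrix.one_apply_eq, Matrix.one_apply_eq, Matrix.one_apply_ne (by decide)]
        ring
      rw [e]
      exact dvd_sub (dvd_add (h00.mul_right _) h11) (h01.mul_right _)
    have h2 : (TRS.Mab a b).det = a ^ 2 - 7 * a * b + 14 * b ^ 2 := by
      rw [Matrix.det_fin_two]
      simp [TRS.Mab]
      ring
    rw [h2] at h1
    obtain ⟨c, hc'⟩ := h1
    exact ⟨(TRS.Mab a' b').det, -c, by linear_combination hc'⟩
  · intro w w' hw hw' hrel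
    have h1 := TRZ.ale_gal D hg' hw G hn2
    have e1 : (fun x => w (TRS.actR (TRS.Mab a' b') x)) = w' := by
      have e2 : (fun x => w (TRS.actR (TRS.Mab a' b') x)) = fun x => w' (TRS.actR (TRS.Mab a' b' * TRS.Mab a b) x) := by
        funext x
        rw [hrel, TRH.actR_mul]
      rw [e2, OW_act_congr hw' (B := 1) hm]
      funext x
      rw [TRH.actR_one]
    rw [e1] at h1
    exact h1

/-- **the Galois action on the normalised value** -/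
theorem h3_act (D : Dat L M) (hg' : Odd (Module.finrank ℚ L)) {η : 𝓞 M → ℤ} {m : ℕ} (hη : Sg D η m)
    {Φ : Ideal (𝓞 M) →*₀ ℂ} (hΦ : ChB D η m Φ)
    {Z : ℂ → ℂ} (hZd : Differentiable ℂ Z)
    (hZ : ∀ t : ℂ, 3 / 2 < t.re → Z t = ∑' I : Ideal (𝓞 M), conj (Φ I) * (absNorm I : ℂ) ^ (-t)) :
    IsAlgebraic ℚ (Z 1 * (((√|(discr L : ℝ)| : ℝ) : ℂ) / ((TRS.Om : ℝ) : ℂ) ^ Module.finrank ℚ L)) ∧
    ∀ σ : ℂ ≃+* ℂ, σ (Complex.I * (√7 : ℝ)) = Complex.I * (√7 : ℝ) →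
      ∃ a b : ℤ, (7 ∣ m → c7 a = 1) ∧ IsCoprime (a ^ 2 - 7 * a * b + 14 * b ^ 2) ((m : ℕ) : ℤ) ∧
        σ (ee (1 / ((m : ℕ) : ℂ))) = ee (((a ^ 2 - 7 * a * b + 14 * b ^ 2 : ℤ) : ℂ) / ((m : ℕ) : ℂ)) ∧
        σ (Z 1 * (((√|(discr L : ℝ)| : ℝ) : ℂ) / ((TRS.Om : ℝ) : ℂ) ^ Module.finrank ℚ L)) =
          ((η ((a : 𝓞 M) + (b : 𝓞 M) * D.om) : ℤ) : ℂ) *
            (Z 1 * (((√|(discr L : ℝ)| : ℝ) : ℂ) / ((TRS.Om : ℝ) : ℂ) ^ Module.finrank ℚ L)) := by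
  obtain ⟨r⟩ := exists_goodReps M D.hodd hη.pos
  have hrpos : 0 < ∏ k, absNorm (r.r k) := Finset.prod_pos fun k _ => absNorm_pos (r.ne k)
  obtain ⟨n, hn⟩ : ∃ n, n = 3 * (m * ∏ k, absNorm (r.r k)) := ⟨_, rfl⟩
  have hn2 : 2 < n := by
    have h1 : 0 < m * ∏ k, absNorm (r.r k) := Nat.mul_pos hη.pos hrpos
    omega
  have hn0 : 0 < n := by omega
  have hmn : m ∣ n := by
    rw [hn]
    exact Dvd.dvd.mul_left (Dvd.intro _ rfl) _
  have hrn : ∀ k, absNorm (r.r k) ∣ n := by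
    intro k
    rw [hn]
    exact Dvd.dvd.mul_left (Dvd.dvd.mul_left (Finset.dvd_prod_of_mem (fun k => absNorm (r.r k)) (Finset.mem_univ k)) _) _
  have hA := h3_value D hg' hη (CC_id D) (ChS_id hΦ) r hn0 hmn hrn hZd hZ
  rw [hA]
  constructor
  · refine Finset.sum_induction _ (IsAlgebraic ℚ) (fun _ _ => IsAlgebraic.add)
      isAlgebraic_zero fun k _ => ?_
    exact ((ChS_id hΦ).alg _).mul (TRZ.ale_alg D hg' (h3_OW D hη (CC_id D) hn0 hmn (hrn k)) hn2)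
  · intro σ hσ
    obtain ⟨a, b, h7, hs, hee, hact⟩ := galois_E7 D hg' hn2 σ hσ
    have hsm : IsCoprime (a ^ 2 - 7 * a * b + 14 * b ^ 2) ((m : ℕ) : ℤ) := by
      obtain ⟨k, hk⟩ := hmn
      rw [hk, Nat.cast_mul] at hs
      exact hs.of_mul_right_left
    have heem : σ (ee (1 / (m : ℂ))) = ee (((a ^ 2 - 7 * a * b + 14 * b ^ 2 : ℤ) : ℂ) / (m : ℂ)) := by
      obtain ⟨k, hk⟩ := hmn
      have hk0 : (k : ℂ) ≠ 0 := by
        rw [Nat.cast_ne_zero]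
        rintro rfl
        omega
      have hm0 : (m : ℂ) ≠ 0 := Nat.cast_ne_zero.2 hη.pos.ne'
      have h1 := TRS.sigma_ee σ hee (k : ℤ)
      have e1 : (((k : ℤ) : ℂ) / ((n : ℕ) : ℂ)) = 1 / (m : ℂ) := by
        rw [hk]
        push_cast
        field_simp
      have e2 : ((((a ^ 2 - 7 * a * b + 14 * b ^ 2) * (k : ℤ) : ℤ) : ℂ) / ((n : ℕ) : ℂ)) =
          ((a ^ 2 - 7 * a * b + 14 * b ^ 2 : ℤ) : ℂ) / (m : ℂ) := by
        rw [hk]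
        push_cast
        field_simp
      rw [e1, e2] at h1
      exact h1
    exact ⟨a, b, fun h => h7 (h.trans hmn), hsm, heem,
      h3_gal D hg' hη hn0 hmn hrn (Psi := fun k => Φ (r.r k)) (fun k => (ChS_id hΦ).fix σ hσ _) hs hact (CC_id D)⟩

end

end TRZ
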