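import Pool.Agent.TRZ.I9
import Pool.Agent.TRR.L4a
import Pool.Agent.TRP.RL
import Pool.Agent.TRG.LEb0
import Pool.Agent.TRG.NGS

/-! # [INT-10] integrality at `2` over `L`, good reduction at `2` -/

set_option autoImplicit false
set_option linter.unusedSectionVars false

open NumberField Ideal IsDedekindDomain
open scoped Real Classical ComplexConjugate
open TR TRG TRP TTS TU TT CM27 CMT GE

namespace TRZ

/-- uniqueness of the entire `L`-function -/
theorem i10_uniq {K : Type} [Field K] [NumberField K] {E : WeierstrassCurve K} {Z Z' : ℂ → ℂ}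
    (h : SBSD2.IsEntireLSeries E Z) (h' : SBSD2.IsEntireLSeries E Z') : Z = Z' :=
  z2_identity h.1 h'.1 fun s hs => by rw [(h.2 s hs).2, (h'.2 s hs).2]

section
variable {L M : Type} [Field L] [NumberField L] [Field M] [NumberField M] [Algebra L M]
  [IsTotallyReal L] {D : Dat L M}

/-- the set `T` of a twist from `L` -/
theorem i10_T {d : L} {k : ℕ} {t c : 𝓞 L} {S : Finset (HeightOneSpectrum (𝓞 L))} (h : TRB.NG L d k t c S)
    {SM : Finset (HeightOneSpectrum (𝓞 M))}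
    (hSM : ∀ P : HeightOneSpectrum (𝓞 M), (P ∈ SM ↔ algebraMap (𝓞 L) (𝓞 M) (t ^ 2 + 4 * c) ∈ P.asIdeal) ∧
      (P ∈ SM ↔ ∃ v ∈ S, P.asIdeal.comap (algebraMap (𝓞 L) (𝓞 M)) = v.asIdeal))
    {R : HeightOneSpectrum (𝓞 M)} (hR : R.asIdeal = span {D.rr})
    {s : Bool} {T : Finset (HeightOneSpectrum (𝓞 M))} {z : HeightOneSpectrum (𝓞 M) → 𝓞 M} {ε : (𝓞 L)ˣ} {i j : Bool}
    (H : DK D s (algebraMap L M d) T z ε i j) : T.card = SM.card + 1 := by
  have hRn : R ∉ SM := by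
    rw [(hSM R).2]
    rintro ⟨v, hv, h1⟩
    apply h.adm.seven v hv
    rw [← h1, Ideal.mem_comap, map_ofNat, hR]
    exact (Ideal.mem_span_singleton.2 ⟨-D.rr, by linear_combination D.rr_sq⟩)
  have hT : T = insert R SM := by
    ext P
    rw [Finset.mem_insert]
    by_cases h2 : (2 : 𝓞 M) ∈ P.asIdeal
    · constructor
      · exact fun hP => absurd h2 (H.two P hP)
      · rintro (rfl | hP)
        · exact absurd h2 (g2_two_R hR)
        · obtain ⟨v, hv, h1⟩ := (hSM P).2.1 hP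
          refine absurd ?_ (h.adm.two v hv)
          rw [← h1, Ideal.mem_comap, map_ofNat]
          exact h2
    · rw [H.mem_iff h2, g2_sq_mul H.h2_ne g2_r_ne]
      by_cases hPR : P = R
      · subst hPR
        have h3 := (ngs_ur D h hSM hRn).val
        have h4 := g2_R_not_sq (D := D) hR
        constructor
        · exact fun _ => Or.inl rfl
        · exact fun _ h5 => h4 (h5.1 h3)
      · have h3 := g2_ne_R (D := D) hR hPR
        constructor
        · intro h4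
          right
          by_contra h5
          exact h4 ⟨fun _ => h3, fun _ => (ngs_ur D h hSM h5).val⟩
        · rintro (h4 | h4) h5
          · exact hPR h4
          · obtain ⟨v, hv, h1⟩ := (hSM P).2.1 h4
            have h6 := (h.sg.od v hv).val
            rw [← TRB.f4_val (TRB.ofTR D) (h.adm.seven _ hv) h1] at h6
            exact h6 (h5.2 h3)
  rw [hT, Finset.card_insert_of_notMem hRn]

variable (hD : Od2 D)
include hD

/-- the bound for the rational number over `M` -/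
theorem i10_bound (Ψ : PsiDat D) {s : Bool} {d : M} {T : Finset (HeightOneSpectrum (𝓞 M))} {z : HeightOneSpectrum (𝓞 M) → 𝓞 M} {ε : (𝓞 L)ˣ} {i j : Bool}
    (H : DK D s d T z ε i j) (hd : d ≠ 0) (hn : ∀ s, ¬ Nsq D s d) (hT : T.Nonempty)
    {V : ValuationSubring ℂ} (hV : V.valuation 2 < 1) (hc : V.valuation (c1 s) < 1)
    {Φ : Ideal (𝓞 M) →*₀ ℂ} (hΦ : PhiK D s T (kp (cd D s T z ε) i) (kp (ε : 𝓞 L) j) Φ)
    {Z : ℂ → ℂ} (hZd : Differentiable ℂ Z)
    (hZ : ∀ t : ℂ, 3 / 2 < t.re → Z t = ∑' I : Ideal (𝓞 M), conj (Φ I) * (absNorm I : ℂ) ^ (-t)) {Q : ℚ}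
    (hQ : Z 1 * conj (Z 1) * ((√|(discr L : ℝ)| : ℝ) : ℂ) ^ 2 * ((√((NN (L := L) T i j : ℕ) : ℝ) : ℝ) : ℂ) /
        ((TRS.Om : ℝ) : ℂ) ^ (2 * Module.finrank ℚ L) = Q) :
    (i = false ∧ j = false) ∧ (Q ≠ 0 → 2 * (T.card : ℤ) ≤ padicValRat 2 Q + 4) := by
  obtain ⟨κ, hκ⟩ := IsAlgClosed.exists_pow_nat_eq (E4f tau0 ^ Module.finrank ℚ L) (n := 4) (by norm_num)
  obtain ⟨ζ, h1, h1'⟩ := i8_val hD Ψ H hd hn hT hV hc hκ hΦ hZd hZ
  have hfe := DK.fe hD H hV hc hΦ hZd hZ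
  have hR := f3_unr hD H hd (hn (!s))
  have hR' := i8_unr hD H hd (hn s)
  have hi : i = false := by
    by_contra h
    exact hR (Or.inl (by simpa using h))
  have hj : j = false := by
    by_contra h
    exact hR' (Or.inl (by simpa using h))
  refine ⟨⟨hi, hj⟩, fun hQ0 => ?_⟩
  have ha : V.valuation (2 : ℂ) ≠ 0 := by
    rw [Ne, map_eq_zero]
    exact two_ne_zero
  have hc1 : ∀ (c : 𝓞 L) (i : Bool), ce c i + 2 * (if Rm c i then 0 else 1) = 2 + (if i then 1 else 0) := by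
    intro c i
    unfold ce
    by_cases h : Rm c i
    · rw [if_pos h, if_pos h]
      cases i <;> rfl
    · have h5 : ¬ (i = true) := fun h6 => h (Or.inl h6)
      rw [if_neg h, if_neg h, if_neg h5]
  have hx := f1_val (L := L) hV hκ (Z 1)
  have hr := f2_sqrt (V := V) hV (N := 7 ^ Module.finrank ℚ L * ∏ P ∈ T, absNorm P.asIdeal)
    ((Odd.pow (by decide)).mul (f2_odd_norm hD H)) (M' := NN (L := L) T i j) rfl
  have hfe' : V.valuation (Z 1 * ((√|(discr L : ℝ)| : ℝ) : ℂ) / ((TRS.Om : ℝ) : ℂ) ^ Module.finrank ℚ L) ^ 2 *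
        V.valuation 2 ^ (Module.finrank ℚ L * ce (cd D s T z ε) i) =
      V.valuation 2 ^ (Module.finrank ℚ L * ce (ε : 𝓞 L) j) *
        V.valuation (conj (Z 1) * ((√|(discr L : ℝ)| : ℝ) : ℂ) / ((TRS.Om : ℝ) : ℂ) ^ Module.finrank ℚ L) ^ 2 := by
    rw [mul_div_assoc, mul_div_assoc, map_mul, map_mul, mul_pow, mul_pow, mul_right_comm, hfe, mul_assoc]
  have h1'' : V.valuation (Z 1 / (KL L * κ)) ^ 2 * V.valuation 2 ^ (2 * (if Rm (ε : 𝓞 L) j then 0 else 1) +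
      (Module.finrank ℚ L * (if i then 1 else 0) + 2 * (if Rm (cd D s T z ε) i then 0 else 1))) =
      V.valuation 2 ^ (2 * T.card + 2 * Module.finrank ℚ L * (if Rm (cd D s T z ε) i then 0 else 1)) * V.valuation ζ ^ 2 := by
    rw [if_neg hR, if_neg hR', hi, if_neg Bool.false_ne_true, mul_zero, mul_one, mul_one, zero_add]
    exact h1'
  have h7 := f4_key (hc1 _ i) (hc1 _ j) ha hx hfe' hr h1''
  have h8 : Z 1 * ((√|(discr L : ℝ)| : ℝ) : ℂ) / ((TRS.Om : ℝ) : ℂ) ^ Module.finrank ℚ L *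
      (conj (Z 1) * ((√|(discr L : ℝ)| : ℝ) : ℂ) / ((TRS.Om : ℝ) : ℂ) ^ Module.finrank ℚ L) *
      ((√((NN (L := L) T i j : ℕ) : ℝ) : ℝ) : ℂ) = Q := by
    rw [← hQ, two_mul, pow_add]
    ring
  rw [h8, if_neg hR, if_neg hR'] at h7
  have h9 : V.valuation (Q : ℂ) * V.valuation 2 ^ (2 * Module.finrank ℚ L + 2 * (1 + 1)) ≤
      V.valuation 2 ^ (2 * T.card + Module.finrank ℚ L * (1 + 1)) := by
    rw [h7]
    exact mul_le_of_le_one_right' (mul_le_one' h1 h1)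
  rw [z2_val hV hQ0, ← zpow_natCast, ← zpow_natCast, ← zpow_add₀ ha] at h9
  have h10 := (zpow_right_strictAnti₀ (zero_lt_iff.2 ha) hV).le_iff_ge.1 h9
  push_cast at h10
  linarith

/-- [INT-10] **good reduction at `2`, exceptional** -/
theorem i10_good (Ψ : PsiDat D) {d : L} {k : ℕ} {t c : 𝓞 L} {S : Finset (HeightOneSpectrum (𝓞 L))} (h : TRB.NG L d k t c S)
    (hn : ∀ s, ¬ Nsq D s (algebraMap L M d)) {E : WeierstrassCurve L}
    {C C' : WeierstrassCurve.VariableChange L} (hE : E = C • TTS.Ws d) (hE' : E = C' • Wd d) :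
    XTB.IntTwo E := by
  have hd : algebraMap L M d ≠ 0 := (map_ne_zero _).2 h.ne
  have h2 := h.adm.two
  have h7 := h.adm.seven
  -- the series over `L`
  have hlam : ∀ v ∈ S, ∃ lam : Ideal (𝓞 M) →*₀ ℤ, LamG D v lam := fun v hv => exists_lamG D (h2 v hv) (h7 v hv)
  choose! Lam hL using hlam
  have hG : GDat D S Lam := ⟨hL, h2, h7⟩
  obtain ⟨Z, hZd, hZ⟩ := leb_exists_Z Ψ hG S
  obtain ⟨hs1, hs2⟩ := le_series Ψ h hL hZd hZ
  refine ⟨TRB.m1_ell h.ne hE, Z, by rw [hE']; exact hs1 C', ?_⟩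
  have hodd : Odd (∏ v ∈ S, absNorm v.asIdeal) := h.adm.odd_prod
  have hcase : (∏ v ∈ S, absNorm v.asIdeal) % 4 = 1 ∨ (∏ v ∈ S, absNorm v.asIdeal) % 4 = 3 := by
    obtain ⟨m, hm⟩ := hodd
    omega
  rcases hcase with h4 | h4
  · obtain ⟨q, hq⟩ := le_rational Ψ h2 h7 hL h4 hZd hZ
    obtain ⟨q', h5, h6, h8, -⟩ := TRB.quotient_LG (TRB.ofTR D) h h4 C (Z 1) q hq
    rw [← hE] at h5
    refine ⟨q', h5, ?_⟩
    by_cases h0 : q' = 0
    · rw [h0, padicValRat.zero]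
    rw [h8 h0]
    have hq0 : q ≠ 0 := fun h9 => h0 (h6 h9)
    -- over `M`
    obtain ⟨R, hRR⟩ := se4_R D
    obtain ⟨SM, hSM⟩ := exists_SM D h
    have hSM' : ∀ P, P ∈ SM ↔ a7a_pi (L := L) P ∈ S := by
      intro P
      rw [(hSM P).2]
      constructor
      · rintro ⟨v, hv, hP⟩
        have h1 : a7a_pi (L := L) P = v := HeightOneSpectrum.ext hP
        rw [h1]
        exact hv
      · intro h
        exact ⟨_, h, rfl⟩
    obtain ⟨V, hV⟩ := exists_V
    obtain ⟨s, hc⟩ := f1_side hV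
    obtain ⟨T, z, ε, i, j, H, -⟩ := exists_DK hD hd s
    have hsq := i9_sq hD hd hn
    have hTn := f4_ne hD H hd (hn (!s)) (f4_neg hD (hsq (!s)))
    obtain ⟨Φ, hΦ⟩ := exists_PhiK hD H Ψ
    obtain ⟨ZM, hZMd, hZM⟩ := exists_ZK hD H hΦ
    obtain ⟨Q, hQ⟩ := rational_K hD H hΦ hZMd hZM
    have hser := series_K hD H hΦ hZMd hZM 1
    have hu := congrFun (i10_uniq hser (hs2 1)) 1
    simp only [map_one] at hu
    obtain ⟨⟨hi, hj⟩, hb⟩ := i10_bound hD Ψ H hd hn hTn hV hc hΦ hZMd hZM hQ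
    rw [hu] at hQ
    have hN0 : NN (L := L) T i j ≠ 0 := H.NN_pos.ne'
    have hNodd : Odd (NN (L := L) T i j) := by
      unfold NN
      rw [hi, hj]
      simp only [Bool.false_eq_true, if_false, add_zero, mul_zero, pow_zero, mul_one]
      exact (Odd.pow (by decide)).mul (f2_odd_norm hD H)
    have : Fact (Nat.Prime 2) := ⟨Nat.prime_two⟩
    obtain ⟨P, hP⟩ : ∃ P : ℕ, P = ∏ v ∈ S, absNorm v.asIdeal := ⟨_, rfl⟩
    rw [← hP] at hodd hq
    have hP0 : P ≠ 0 := hodd.pos.ne'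
    have hOm : ((TRS.Om : ℝ) : ℂ) ^ Module.finrank ℚ L ≠ 0 := by
      apply pow_ne_zero
      exact_mod_cast TRS.Om_pos.ne'
    have hP2 : ((√(P : ℝ) : ℝ) : ℂ) ^ 2 = (P : ℂ) := by
      rw [← Complex.ofReal_pow, Real.sq_sqrt (Nat.cast_nonneg P)]
      norm_cast
    obtain ⟨hQq, hQv⟩ := TRR.l4_q (Q := Q) (q := q) (A := (P : ℚ)) (k := 0) (N := NN (L := L) T i j) (e := 0) (by
      rw [← hQ, ← hq, two_mul, pow_add]
      push_cast
      rw [← hP2]
      field_simp) (by exact_mod_cast hP0) hN0 (q1_odd hodd) (by rw [q1_odd hNodd, mul_zero])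
    have hcard := eS_eq D h7 (SM := SM) hSM'
    have hTc := i10_T h hSM hRR H
    have hQ0 : Q ≠ 0 := fun h => hq0 (hQq.1 h)
    have h9 := hb hQ0
    rw [hQv, hTc, ← hcard] at h9
    push_cast at h9
    linarith
  · have hZ1 := le_zero Ψ h2 h7 hL h4 hZd hZ
    exact ⟨0, by rw [hZ1]; exact TRB.quotient_zero E, by rw [padicValRat.zero]⟩

end

end TRZ
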