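import Pool.Agent.TRZ.I10
import Pool.Agent.TRR.L4

/-! # [INT-11] integrality at `2` over `L` -/

set_option autoImplicit false
set_option linter.unusedSectionVars false

open NumberField Ideal IsDedekindDomain
open scoped Real Classical ComplexConjugate
open TR TRG TRP TTS TU TT CM27 CMT GE XTB TRR

namespace TRZ

section
variable {L M : Type} [Field L] [NumberField L] [Field M] [NumberField M] [Algebra L M]
  [IsTotallyReal L] {D : Dat L M} (hD : Od2 D)
include hD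

/-- both primes above `2` are exceptional for the twists from `L` with good reduction at `2` which are not allowed -/
theorem i11_nsq {n : HeightOneSpectrum (𝓞 L) → 𝓞 L} (hn : ∀ v : OQ L, NL v.1 (n v.1)) (u : (𝓞 L)ˣ) (i b : Bool) (S : Finset (OQ L))
    (hκ : IsSquare (kap u i)) (hτ : ∑ v ∈ S, tauL v ≠ 0) (t : Bool) : ¬ Nsq D t (algebraMap L M (dL n u i b S)) := by
  have hne : algebraMap L M (dL n u i b S) ≠ 0 := by
    rw [Ne, map_eq_zero]
    exact dL_ne hD hn u i b S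
  obtain ⟨w, hw⟩ := hκ
  have hw0 : (w : L) ≠ 0 := by
    rw [RingOfIntegers.coe_ne_zero_iff]
    rintro rfl
    apply hne
    unfold dL
    rw [hw, mul_zero]
    rw [show (((0 : 𝓞 L)) : L) = 0 from map_zero (algebraMap (𝓞 L) L), zero_mul, zero_mul, map_zero]
  have hr : D.r ≠ 0 := by
    intro h
    have h1 := D.hr
    rw [h] at h1
    norm_num at h1
  obtain ⟨y, hy⟩ : ∃ y : M, y = algebraMap L M (w : L) * (if b then D.r else 1) := ⟨_, rfl⟩
  have hy0 : y ≠ 0 := by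
    rw [hy]
    exact mul_ne_zero ((map_ne_zero _).2 hw0) (by split_ifs; exacts [hr, one_ne_zero])
  obtain ⟨x, hx⟩ : ∃ x : 𝓞 M, x = algebraMap (𝓞 L) (𝓞 M) (∏ v ∈ S, n v.1) * rs7 D t := ⟨_, rfl⟩
  have hd : algebraMap L M (dL n u i b S) * (rs7 D t : M) = y ^ 2 * (x : M) := by
    have e3 : (∏ v ∈ S, ((n v.1 : 𝓞 L) : L)) = (((∏ v ∈ S, n v.1 : 𝓞 L)) : L) := (map_prod (algebraMap (𝓞 L) L) _ _).symm
    have e4 : algebraMap L M (if b then -7 else 1) = (if b then D.r else 1) ^ 2 := by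
      cases b
      · simp
      · simp only [if_true]
        rw [D.hr, map_neg, map_ofNat]
    have e5 : (((w * w : 𝓞 L)) : L) = (w : L) * (w : L) := map_mul (algebraMap (𝓞 L) L) _ _
    unfold dL
    rw [hw, e3, e5, map_mul, map_mul, map_mul, e4, hx, x7_cm, x7_alg, hy]
    ring
  have hEx : Et D t x := by
    rw [hx]
    exact Et.mul' (x7_et hn D t S) (se4_et_rs7 D t)
  have ht8 : t8 (rd8 D t x) = -∏ v ∈ S, TT.qr v.1 2 := by
    rw [hx, sg_t8_mul hD, x1_t8_per (rd8_alg hD t _), x1_t8_per (c1_rs7 hD t), sg_t8_five hD, x7_t8 hn]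
    ring
  have hval : ∏ v ∈ S, TT.qr v.1 2 = 1 ∨ ∏ v ∈ S, TT.qr v.1 2 = -1 := by
    have h1 := k1_val (∏ v ∈ S, n v.1)
    rw [x7_t8 hn] at h1
    rcases h1 with h1 | h1
    · exfalso
      obtain ⟨v, -, h2⟩ := Finset.prod_eq_zero_iff.1 h1
      exact v.2.1 ((TT.qr_eq_zero v.1).1 h2)
    · exact h1
  rw [Ne, ← lf_tau] at hτ
  have hτ' := hval.resolve_left hτ
  intro h
  have hV : p2 D t ∈ (Vp hD (!t)).asIdeal := Ideal.mem_span_singleton_self _
  have h1 := h (Vp hD (!t)) hV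
  have h2 : IsSquare (algebraMap M ((Vp hD (!t)).adicCompletion M) (x : M)) := by
    rw [sg_t8 hD hV hEx, ht8, hτ', neg_neg]
  apply h1
  obtain ⟨a, ha⟩ := h2
  rw [hd, map_mul, map_pow]
  exact ⟨algebraMap M ((Vp hD (!t)).adicCompletion M) y * a, by rw [ha]; ring⟩

omit hD in
theorem i11_sq {d y : M} {t : Bool} (h : Nsq D t (d * y ^ 2)) : Nsq D t d := by
  intro P hP hs
  apply h P hP
  obtain ⟨a, ha⟩ := hs
  refine ⟨a * algebraMap M (P.adicCompletion M) y, ?_⟩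
  rw [mul_right_comm, map_mul, ha, map_pow]
  ring

/-- [INT-11] **the integrality at `2` over `L`** -/
theorem int_real {E : WeierstrassCurve L} (hE : ∃ _ : E.IsElliptic, E.j = -3375) : XTB.IntTwo E := by
  by_cases hG : GenCurve E
  · exact XTB.IntTwo.of_modTwo (gen_real hD hG).1
  obtain ⟨hell, hj⟩ := hE
  have hgood : ∀ v : HeightOneSpectrum (𝓞 L), (2 : 𝓞 L) ∈ v.asIdeal → GoodAt v E := by
    intro v hv
    by_contra hb
    apply hG
    refine ⟨⟨hell, hj⟩, fun P hP hg => ?_⟩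
    rw [(V2_iff hD P).1 hP] at hg
    rw [(V2_iff hD v).1 hv] at hb
    exact absurd hg hb
  obtain ⟨d, k, t, c, S, C, C', hNG, -, hC, hC', -⟩ := TRB.exists_NG (TRB.ofTR D) D.hodd E hj hgood
  obtain ⟨n, hn⟩ : ∃ n : HeightOneSpectrum (𝓞 L) → 𝓞 L, ∀ v : OQ L, NL v.1 (n v.1) := by
    have h1 : ∀ v : HeightOneSpectrum (𝓞 L), ∃ q, (2 : 𝓞 L) ∉ v.asIdeal → NL v q := by
      intro v
      by_cases hv : (2 : 𝓞 L) ∉ v.asIdeal
      · obtain ⟨q, hq⟩ := exists_NL hD hv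
        exact ⟨q, fun _ => hq⟩
      · exact ⟨0, fun h => absurd h hv⟩
    choose n hn using h1
    exact ⟨n, fun v => hn v.1 v.2.1⟩
  obtain ⟨q, i, b, U, y, hy, hdy⟩ := exists_dL hD hn hNG.ne
  obtain ⟨C1, hC1, -⟩ := Ws_scale (d := dL n (Quotient.out q) i b U) hy
  have hE1 : E = (C * C1) • Ws (dL n (Quotient.out q) i b U) := by
    rw [hC, hdy, mul_comm _ (y ^ 2), hC1, mul_smul]
  rw [hE1, dL_ok hD hn] at hG
  push Not at hG
  obtain ⟨hκ, hτ⟩ := hG
  obtain ⟨Ψ⟩ := D.exists_psi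
  refine i10_good hD Ψ hNG (fun s hs => ?_) hC hC'
  rw [hdy, map_mul, map_pow] at hs
  exact i11_nsq hD hn _ i b U hκ hτ s (i11_sq hs)

end

end TRZ
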