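import Pool.Agent.TRZ.I1
import Pool.Agent.TRZ.I2
import Pool.Agent.TRZ.FD10
import Pool.Agent.TRZ.H3

/-! # [INT-3] two sets of primes which differ by one given prime, with nonzero invariants, ramified at both primes above `2` -/

set_option autoImplicit false
set_option linter.unusedSectionVars false

open NumberField Ideal IsDedekindDomain
open scoped Real Classical ComplexConjugate
open TR TRG TTS TU TT TRP

namespace TRZ

section
variable {L M : Type} [Field L] [NumberField L] [Field M] [NumberField M] [Algebra L M]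
  [IsTotallyReal L] {D : Dat L M} (hD : Od2 D)

/-- the value at `q` of the character of `GT` -/
theorem i3_FK (s : Bool) (T : Finset (HeightOneSpectrum (𝓞 M))) (z : HeightOneSpectrum (𝓞 M) → 𝓞 M) (ε : (𝓞 L)ˣ) (q : 𝓞 M) :
    FK D s (kp (cd D s T z ε) true) true q =
      tau D (!s) q (-(algebraMap (𝓞 L) (𝓞 M) (ε : 𝓞 L)) * ∏ P ∈ T, z P) * t8 (rd8 D (!s) q) * t8 (rd8 D s q) := by
  have h : Rm (cd D s T z ε) true := Or.inl rfl
  unfold FK kp
  rw [if_pos h]
  rfl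

theorem i3_GT (s : Bool) (T : Finset (HeightOneSpectrum (𝓞 M))) (z : HeightOneSpectrum (𝓞 M) → 𝓞 M) (ε : (𝓞 L)ˣ) :
    GT D s T z ε true true = Pool.Agent.TRG.fU (fun P Q => aM z Q P)
      (bt (FK D s (kp (cd D s T z ε) true) true) z) (nv D s z) (nu D s) T := by
  have h : Rm (cd D s T z ε) true := Or.inl rfl
  unfold GT
  rw [if_pos h]

include hD

theorem i3_t8 {s : Bool} {q : 𝓞 M} (hq : IsCoprime q 2) : t8 (rd8 D s q) = 1 ∨ t8 (rd8 D s q) = -1 := by
  rcases x1_t8_val (rd8 D s q) with h | h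
  · exact absurd ((t8_zero hD _).1 h) (rd8_nm hD hq)
  · exact h

/-- `nu + nv + nu nv`, for `ε = 1` -/
theorem i3_bt {s : Bool} {P : HeightOneSpectrum (𝓞 M)} {q c : 𝓞 M} (hq : NG D s P q) (hq2 : IsCoprime q 2)
    (h1 : tau D (!s) q c = 1) (h : t8 (rd8 D (!s) q) = -1 ∨ t8 (rd8 D s q) = -1) :
    (if tau D (!s) q c * t8 (rd8 D (!s) q) * t8 (rd8 D s q) = -1 then (1 : ZMod 2) else 0) +
      (if t8 (rd8 D s q) = -1 then (1 : ZMod 2) else 0) * (if t8 (rd8 D (!s) q) = -1 then (1 : ZMod 2) else 0) = 1 := by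
  have _ := hq
  rw [h1]
  rcases i3_t8 hD (s := s) hq2 with ha | ha <;> rcases i3_t8 hD (s := !s) hq2 with hb | hb <;> rw [ha, hb] at h ⊢
  · norm_num at h
  · norm_num
  · norm_num
  · norm_num

/-- `(q, -ε q)_ϖ = (q, ε)_ϖ` -/
theorem i3_self {s : Bool} {q : 𝓞 M} (hq : IsCoprime q 2) (ε : (𝓞 L)ˣ) :
    tau D s q (-(algebraMap (𝓞 L) (𝓞 M) (ε : 𝓞 L)) * q) = tau D s q (algebraMap (𝓞 L) (𝓞 M) (ε : 𝓞 L)) := by
  rw [tau_comm hD, tau_mul hD hq, show -(algebraMap (𝓞 L) (𝓞 M) (ε : 𝓞 L)) = (-1) * algebraMap (𝓞 L) (𝓞 M) (ε : 𝓞 L) by ring,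
    tau_mul hD hq, tau_self hD hq, tau_comm hD s (algebraMap (𝓞 L) (𝓞 M) (ε : 𝓞 L))]
  have h1 : IsCoprime (-1 : 𝓞 M) 2 := isCoprime_one_left.neg_left
  rcases tau_pm hD (s := s) h1 hq with h | h <;> rw [h] <;> ring

theorem i3_one {s : Bool} {q : 𝓞 M} (hq : IsCoprime q 2) : tau D s q (algebraMap (𝓞 L) (𝓞 M) ((1 : (𝓞 L)ˣ) : 𝓞 L)) = 1 := by
  rw [tau_comm hD]
  unfold tau
  rw [Units.val_one, map_one]
  refine tp_q4 hD ?_ (rd8_nm hD hq)
  obtain ⟨e, he⟩ := Ideal.mem_span_singleton'.1 (rd8_alg hD s (1 : 𝓞 L))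
  rw [map_one] at he
  exact ⟨1, 2 * e, isCoprime_one_left, by linear_combination -he⟩

/-- a unit with a given symbol -/
theorem i3_unit {s : Bool} {q : 𝓞 M} (hq : IsCoprime q 2) (h : ¬ Q4 (rd8 D s q)) :
    ∃ ε : (𝓞 L)ˣ, tau D s q (algebraMap (𝓞 L) (𝓞 M) (ε : 𝓞 L)) = -1 := by
  obtain ⟨x, hx⟩ := tp_nondeg hD (rd8_nm hD hq) h
  have hb : (1 + 2 * x : 𝓞 L) ∉ span {(2 : 𝓞 L)} := by
    intro h1
    rw [tp_zero hD (Or.inl h1)] at hx
    norm_num at hx
  obtain ⟨u, hu⟩ := exists_dy hD hb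
  refine ⟨u, ?_⟩
  have h1 : tp ((u : 𝓞 L) * (1 + 2 * x)) (rd8 D s q) = 1 := tp_q4 hD hu (rd8_nm hD hq)
  rw [tp_mul hD _ _ _ (rd8_nm hD hq), hx] at h1
  rw [tau_comm hD]
  unfold tau
  obtain ⟨e, he⟩ := Ideal.mem_span_singleton'.1 (rd8_alg hD s (u : 𝓞 L))
  have h2 : rd8 D s (algebraMap (𝓞 L) (𝓞 M) (u : 𝓞 L)) = (u : 𝓞 L) + 4 * (2 * e) := by linear_combination -he
  rw [h2, tp_per hD]
  linarith

/-! ### the characters `ν`, `ν'` are independent -/

theorem i3_rd5 (s : Bool) : t8 (rd8 D (!s) (1 + 4 * p2 D s)) = -1 ∧ t8 (rd8 D s (1 + 4 * p2 D s)) = 1 := by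
  have hm := x_mul D s
  have ha := x_add D s
  constructor
  · have h1 : rd8 D (!s) (1 + 4 * p2 D s) - 5 ∈ span {(8 : 𝓞 L)} := by
      apply rd8_uniq hD
      rw [p2_not, map_ofNat]
      refine Ideal.mem_span_singleton'.2 ⟨-(p2 D s ^ 2), ?_⟩
      linear_combination (-(p1 D s) * (p1 D s * p2 D s + 2)) * hm - 4 * ha
    rw [x1_t8_per h1]
    have h5 := h3_t8_int hD (5 : ℤ)
    have e : ((5 : ℤ) : 𝓞 L) = 5 := by norm_num
    rw [e] at h5
    rw [h5]
    decide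
  · have h1 : rd8 D s (1 + 4 * p2 D s) - 1 ∈ span {(8 : 𝓞 L)} := by
      apply rd8_uniq hD
      rw [map_one]
      refine Ideal.mem_span_singleton'.2 ⟨p1 D s ^ 2, ?_⟩
      linear_combination (p2 D s * (p1 D s * p2 D s + 2)) * hm
    rw [x1_t8_per h1, x1_t8_one]

theorem i3_rd5' (s : Bool) : t8 (rd8 D (!s) (1 + 4 * p1 D s)) = 1 ∧ t8 (rd8 D s (1 + 4 * p1 D s)) = -1 := by
  have h := i3_rd5 hD (!s)
  rw [p2_not, Bool.not_not] at h
  exact ⟨h.2, h.1⟩

omit hD [NumberField L] [IsTotallyReal L] in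
theorem i3_cop (x : 𝓞 M) : IsCoprime (1 + 4 * x) 2 := ⟨1, -(2 * x), by ring⟩

theorem i3_chi (s : Bool) {x : 𝓞 M} (hx : Et D s x) (hx2 : IsCoprime x 2) :
    chi D s (-p1 D s) (c8 D s x) = s01 (t8 (rd8 D (!s) x)) ∧ chi D s (-p2 D s) (c8 D s x) = s01 (t8 (rd8 D s x)) := by
  constructor
  · rw [chi_c8 (K8.w1 hD s) hx hx2, rec_unif hD hx2]
  · rw [chi_c8 (K8.w2 hD s) hx hx2]
    have h := rec_unif hD hx2 (!s)
    rw [Bool.not_not] at h
    rw [← h]
    rfl

theorem i3_indep (s : Bool) : chi D s (-p1 D s) ≠ 0 ∧ chi D s (-p2 D s) ≠ 0 ∧ chi D s (-p1 D s) + chi D s (-p2 D s) ≠ 0 := by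
  have hm := x_mul D s
  have e1 : Et D s (1 + 4 * p2 D s) := ⟨1, p1 D s ^ 2 * p2 D s, isCoprime_one_left, by
    linear_combination (-(p2 D s) * (p1 D s * p2 D s + 2)) * hm⟩
  have e2 : Et D s (1 + 4 * p1 D s) := ⟨1, p1 D s ^ 3, isCoprime_one_left, by
    linear_combination (-(p1 D s) * (p1 D s * p2 D s + 2)) * hm⟩
  obtain ⟨a1, a2⟩ := i3_chi hD s e1 (i3_cop _)
  obtain ⟨b1, b2⟩ := i3_chi hD s e2 (i3_cop _)
  rw [(i3_rd5 hD s).1] at a1
  rw [(i3_rd5 hD s).2] at a2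
  rw [(i3_rd5' hD s).1] at b1
  rw [(i3_rd5' hD s).2] at b2
  have s1 : s01 1 = 0 := by decide
  have s2 : s01 (-1) = 1 := by decide
  have h10 : (1 : ZMod 2) ≠ 0 := by decide
  rw [s2] at a1 b2
  rw [s1] at a2 b1
  refine ⟨fun h => ?_, fun h => ?_, fun h => ?_⟩
  · rw [h] at a1
    exact h10 a1.symm
  · rw [h] at b2
    exact h10 b2.symm
  · have h3 := DFunLike.congr_fun h (c8 D s (1 + 4 * p2 D s))
    rw [AddMonoidHom.add_apply, a1, a2, add_zero] at h3
    exact h10 h3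

/-- [INT-3] **the two sets** -/
theorem i3_pair (s : Bool) {P : HeightOneSpectrum (𝓞 M)} (h2 : (2 : 𝓞 M) ∉ P.asIdeal) {q : 𝓞 M} (hq : NG D s P q) :
    ∃ (T : Finset (HeightOneSpectrum (𝓞 M))) (z : HeightOneSpectrum (𝓞 M) → 𝓞 M) (ε : (𝓞 L)ˣ), P ∉ T ∧ z P = q ∧
      (∀ Q ∈ insert P T, (2 : 𝓞 M) ∉ Q.asIdeal) ∧ (∀ Q ∈ insert P T, NG D s Q (z Q)) ∧
      GT D s T z ε true true = 1 ∧ GT D s (insert P T) z ε true true = 1 := by
  have hq2 := ng_odd h2 hq
  have hz0 : ∀ Q : HeightOneSpectrum (𝓞 M), ∃ y : 𝓞 M, (2 : 𝓞 M) ∉ Q.asIdeal → NG D s Q y := by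
    intro Q
    by_cases hQ : (2 : 𝓞 M) ∉ Q.asIdeal
    · obtain ⟨y, hy⟩ := exists_NG hD s hQ
      exact ⟨y, fun _ => hy⟩
    · exact ⟨0, fun h => absurd h hQ⟩
  choose z0 hz0 using hz0
  set z : HeightOneSpectrum (𝓞 M) → 𝓞 M := Function.update z0 P q with hzd
  have hzP : z P = q := Function.update_self P q z0
  have hz : ∀ Q, (2 : 𝓞 M) ∉ Q.asIdeal → NG D s Q (z Q) := by
    intro Q hQ
    by_cases h : Q = P
    · subst h
      rwa [hzP]
    · rw [hzd, Function.update_of_ne h]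
      exact hz0 Q hQ
  have hempty : ∀ ε : (𝓞 L)ˣ, GT D s ∅ z ε true true = 1 := by
    intro ε
    rw [i3_GT, Pool.Agent.TRG.fU_empty]
  have hnuP : ∀ Q, (2 : 𝓞 M) ∉ Q.asIdeal → nu D s Q = if t8 (rd8 D (!s) (z Q)) = -1 then 1 else 0 := fun Q hQ =>
    nu_eq hD hQ (hz Q hQ)
  by_cases hA : t8 (rd8 D (!s) q) = -1 ∨ t8 (rd8 D s q) = -1
  · refine ⟨∅, z, 1, Finset.notMem_empty _, hzP, ?_, ?_, hempty 1, ?_⟩
    · intro Q hQ
      rw [Finset.mem_insert] at hQ
      rcases hQ with rfl | hQ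
      · exact h2
      · exact absurd hQ (Finset.notMem_empty _)
    · intro Q hQ
      rw [Finset.mem_insert] at hQ
      rcases hQ with rfl | hQ
      · exact hz _ h2
      · exact absurd hQ (Finset.notMem_empty _)
    · rw [i3_GT, insert_empty_eq, Pool.Agent.TRG.fU_one]
      have h := i3_bt hD (P := P) (c := -(algebraMap (𝓞 L) (𝓞 M) ((1 : (𝓞 L)ˣ) : 𝓞 L)) * q) hq hq2
        (by rw [i3_self hD hq2, i3_one hD hq2]) hA
      rw [hnuP P h2]
      unfold nv bt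
      rw [i3_FK, Finset.prod_singleton, hzP]
      exact h
  · push Not at hA
    have ha : t8 (rd8 D (!s) q) = 1 := (i3_t8 hD hq2).resolve_right hA.1
    have hb : t8 (rd8 D s q) = 1 := (i3_t8 hD hq2).resolve_right hA.2
    have h11 : ¬ ((1 : ℤ) = -1) := by norm_num
    by_cases hB : Q4 (rd8 D (!s) q)
    · -- `q` is a local square at both primes above `2`
      obtain ⟨om, hsy, hom, -, -⟩ := exists_om hD s
      obtain ⟨B, hN, hw, hc, hBom⟩ := exists_dsys hD s hz om hsy fun P Q hPQ hP hQ =>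
        hom z P Q hPQ hP hQ (hz P hP) (hz Q hQ)
      obtain ⟨i1, i2, i3⟩ := i3_indep hD s
      obtain ⟨⟨R, hR2⟩, hRP, hwR, hχ⟩ := TRPA.exists_edge B ⟨P, h2⟩ i1 i2 i3
      have hRP' : P ≠ R := fun h => hRP (Subtype.ext h.symm)
      have hR := hz R hR2
      have hRo := ng_odd hR2 hR
      rw [hw] at hwR
      rw [hc] at hχ
      change aM z P R = 1 at hwR
      change chi D s (-p1 D s) (c8 D s (z R)) ≠ 0 ∨ chi D s (-p2 D s) (c8 D s (z R)) ≠ 0 at hχ
      obtain ⟨c1, c2⟩ := i3_chi hD s hR.et hRo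
      rw [c1, c2] at hχ
      have hχ' : t8 (rd8 D (!s) (z R)) = -1 ∨ t8 (rd8 D s (z R)) = -1 := by
        rcases hχ with h | h
        · left
          by_contra h3
          apply h
          unfold s01
          rw [if_neg h3]
        · right
          by_contra h3
          apply h
          unfold s01
          rw [if_neg h3]
      have hcop : IsCoprime q (z R) := by
        rw [← r1_cop]
        obtain ⟨k, -, hk⟩ := hq.gen
        obtain ⟨l, -, hl⟩ := hR.gen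
        rw [hk, hl]
        refine IsCoprime.pow ?_
        rw [Ideal.isCoprime_iff_sup_eq]
        exact P.isMaximal.coprime_of_ne R.isMaximal fun h => hRP' (HeightOneSpectrum.ext h)
      -- reciprocity
      have h3 : tau D (!s) q (z R) = 1 := tp_q4 hD hB (rd8_nm hD hRo)
      have hrec : TT.qr R q = TT.qr P (z R) := by
        have h := rs_tau hD hq2 hRo hcop s
        rw [tau_et hD hq.et hRo, h3, mul_one] at h
        unfold rs at h
        rw [sy_gen hR.gen, sy_gen hq.gen] at h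
        rcases qr_cases R q with h4 | h4 | h4 <;> rcases qr_cases P (z R) with h5 | h5 | h5 <;> rw [h4, h5] at h ⊢ <;>
          norm_num at h
      have hRq : aM z R P = 1 := by
        unfold TRG.aM at hwR ⊢
        rw [hzP, hrec]
        exact hwR
      have hbR := i3_bt hD (P := R) (c := -(algebraMap (𝓞 L) (𝓞 M) ((1 : (𝓞 L)ˣ) : 𝓞 L)) * z R) hR hRo
        (by rw [i3_self hD hRo, i3_one hD hRo]) hχ'
      refine ⟨{R}, z, 1, fun h => hRP' (Finset.mem_singleton.1 h), hzP, ?_, ?_, ?_, ?_⟩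
      · intro Q hQ
        rw [Finset.mem_insert, Finset.mem_singleton] at hQ
        rcases hQ with rfl | rfl
        · exact h2
        · exact hR2
      · intro Q hQ
        rw [Finset.mem_insert, Finset.mem_singleton] at hQ
        rcases hQ with rfl | rfl
        · exact hz _ h2
        · exact hR
      · rw [i3_GT, Pool.Agent.TRG.fU_one, hnuP R hR2]
        unfold nv bt
        rw [i3_FK, Finset.prod_singleton]
        exact hbR
      · have hτP : tau D (!s) q (-(algebraMap (𝓞 L) (𝓞 M) ((1 : (𝓞 L)ˣ) : 𝓞 L)) * (q * z R)) = 1 := by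
          refine tp_q4 hD hB (rd8_nm hD ?_)
          refine IsCoprime.mul_left ?_ (hq2.mul_left hRo)
          rw [Units.val_one, map_one]
          exact isCoprime_one_left.neg_left
        have hτR : tau D (!s) (z R) (-(algebraMap (𝓞 L) (𝓞 M) ((1 : (𝓞 L)ˣ) : 𝓞 L)) * (q * z R)) = 1 := by
          rw [tau_comm hD, show -(algebraMap (𝓞 L) (𝓞 M) ((1 : (𝓞 L)ˣ) : 𝓞 L)) * (q * z R) =
            (-(algebraMap (𝓞 L) (𝓞 M) ((1 : (𝓞 L)ˣ) : 𝓞 L)) * z R) * q by ring, tau_mul hD hRo,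
            h3, mul_one, tau_comm hD, i3_self hD hRo, i3_one hD hRo]
        rw [i3_GT, Pool.Agent.TRG.fU_two hRP' hRq hwR, hnuP R hR2]
        · unfold nv bt
          rw [i3_FK, Finset.prod_pair hRP', hzP, hτR]
          have h7 := hbR
          rw [i3_self hD hRo, i3_one hD hRo] at h7
          exact h7
        · unfold bt
          rw [i3_FK, Finset.prod_pair hRP', hzP, hτP, ha, hb]
          norm_num
        · unfold nv bt
          simp only [hzP, hb]
          norm_num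
        · rw [hnuP P h2, hzP, ha]
          norm_num
    · obtain ⟨ε, hε⟩ := i3_unit hD hq2 hB
      refine ⟨∅, z, ε, Finset.notMem_empty _, hzP, ?_, ?_, hempty ε, ?_⟩
      · intro Q hQ
        rw [Finset.mem_insert] at hQ
        rcases hQ with rfl | hQ
        · exact h2
        · exact absurd hQ (Finset.notMem_empty _)
      · intro Q hQ
        rw [Finset.mem_insert] at hQ
        rcases hQ with rfl | hQ
        · exact hz _ h2
        · exact absurd hQ (Finset.notMem_empty _)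
      · rw [i3_GT, insert_empty_eq, Pool.Agent.TRG.fU_one, hnuP P h2]
        unfold nv bt
        rw [i3_FK, Finset.prod_singleton, hzP, i3_self hD hq2, hε, ha, hb]
        norm_num

end

end TRZ
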