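import Pool.Agent.TRZ.F3

/-! # [INT-4] the decomposition for given data -/

set_option autoImplicit false
set_option linter.unusedSectionVars false

open NumberField Ideal IsDedekindDomain
open scoped Real Classical ComplexConjugate
open TR TRG TTS TU TT TRP

namespace TRZ

section
variable {L M : Type} [Field L] [NumberField L] [Field M] [NumberField M] [Algebra L M]
  [IsTotallyReal L] {D : Dat L M}

/-- [INT-4] every datum belongs to some `d` -/
theorem i4_DK {s : Bool} {T : Finset (HeightOneSpectrum (𝓞 M))} {z : HeightOneSpectrum (𝓞 M) → 𝓞 M}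
    (h2 : ∀ P ∈ T, (2 : 𝓞 M) ∉ P.asIdeal) (hz : ∀ P ∈ T, NG D s P (z P)) (ε : (𝓞 L)ˣ) (i j : Bool) :
    ∃ d : M, DK D s d T z ε i j := by
  refine ⟨((algebraMap (𝓞 L) (𝓞 M) (ε : 𝓞 L) * (if i then -(p1 D s) else 1) *
    (if j then -(p2 D s) else 1) * ∏ P ∈ T, z P : 𝓞 M) : M) / (rs7 D s : M), h2, hz, 1, one_ne_zero, ?_⟩
  rw [div_mul_cancel₀ _ (c2_rs7_ne (D := D) s), one_pow, mul_one]

variable (hD : Od2 D)
include hD

/-- [INT-4] odd valuation at `ϖ'` -/
theorem i4_nsq {s : Bool} {d : M} {T : Finset (HeightOneSpectrum (𝓞 M))} {z : HeightOneSpectrum (𝓞 M) → 𝓞 M}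
    {ε : (𝓞 L)ˣ} {i : Bool} (H : DK D s d T z ε i true) : Nsq D s d := by
  intro P hP hsq
  obtain ⟨y, hy, h⟩ := H.val_p2 hP hD
  have hd : d ≠ 0 := by
    rintro rfl
    rw [map_zero, if_pos rfl] at h
    have h1 : P.valuation M y ≠ 0 := (P.valuation M).ne_zero_iff.2 hy
    exact mul_ne_zero WithZero.exp_ne_zero (pow_ne_zero 2 h1) h.symm
  have h1 := (x0_sq (mul_ne_zero hd (c2_rs7_ne (D := D) s)) hsq).ur.val
  have hr : P.valuation M (rs7 D s : M) = 1 := (TU.g1_val_one P).2 (c2_rs7_mem hP)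
  rw [map_mul, hr, mul_one, h, if_pos rfl, c2_mul_sq ((P.valuation M).ne_zero_iff.2 hy), c2_exp_sq] at h1
  exact absurd h1 (by decide)

end

end TRZ
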