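import Pool.Agent.TRZ.H3b
import Pool.Agent.TRZ.F1

/-! # [INT-5] the Galois action on several values at the same time -/

set_option autoImplicit false
set_option linter.unusedSectionVars false

open NumberField Ideal IsDedekindDomain
open scoped Real Classical ComplexConjugate
open TR TRG TRP TTS TU TT
open TRH (CC CC_id CC_cj omMap_Mab al_cj)

namespace TRZ

/-! ### numbers fixed by `Aut(ℂ / ℚ(√-7))` -/

/-- the conjugate of an automorphism -/
noncomputable def i5_conj (σ : ℂ ≃+* ℂ) : ℂ ≃+* ℂ := ((starRingAut : ℂ ≃+* ℂ).trans σ).trans (starRingAut : ℂ ≃+* ℂ)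

theorem i5_conj_apply (σ : ℂ ≃+* ℂ) (x : ℂ) : i5_conj σ x = conj (σ (conj x)) := rfl

theorem i5_r : conj (Complex.I * (√7 : ℝ)) = -(Complex.I * (√7 : ℝ)) := by
  rw [map_mul, Complex.conj_I, Complex.conj_ofReal]
  ring

theorem i5_r_sq : (Complex.I * (√7 : ℝ)) ^ 2 = -7 := by
  have h : ((√7 : ℝ) : ℂ) ^ 2 = 7 := by
    rw [← Complex.ofReal_pow, Real.sq_sqrt (by norm_num)]
    norm_num
  rw [mul_pow, Complex.I_sq, h]
  ring

/-- a number which is fixed by `Aut(ℂ / ℚ(√-7))` is in `ℚ(√-7)` -/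
theorem i5_fix {y : ℂ} (ha : IsAlgebraic ℚ y)
    (h : ∀ σ : ℂ ≃+* ℂ, σ (Complex.I * (√7 : ℝ)) = Complex.I * (√7 : ℝ) → σ y = y) :
    ∃ u v : ℚ, y = u + v * (Complex.I * (√7 : ℝ)) := by
  have hc : ∀ σ : ℂ ≃+* ℂ, σ (Complex.I * (√7 : ℝ)) = Complex.I * (√7 : ℝ) → σ (conj y) = conj y := by
    intro σ hσ
    have h1 := h (i5_conj σ) (by
      rw [i5_conj_apply, i5_r, map_neg, hσ, map_neg, i5_r, neg_neg])
    rw [i5_conj_apply] at h1
    have h2 := congrArg (starRingEnd ℂ) h1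
    rwa [Complex.conj_conj] at h2
  have hac : IsAlgebraic ℚ (conj y) := by
    obtain ⟨p, hp, h0⟩ := ha
    refine ⟨p, hp, ?_⟩
    have h1 := congrArg (starRingEnd ℂ) h0
    have e : (starRingEnd ℂ).comp (algebraMap ℚ ℂ) = algebraMap ℚ ℂ := Subsingleton.elim _ _
    rw [map_zero, Polynomial.aeval_def, Polynomial.hom_eval₂, e] at h1
    rw [Polynomial.aeval_def]
    exact h1
  have hr0 : (Complex.I * (√7 : ℝ) : ℂ) ≠ 0 := by
    intro h0
    have h1 := i5_r_sq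
    rw [h0] at h1
    norm_num at h1
  have har : IsAlgebraic ℚ (Complex.I * (√7 : ℝ) : ℂ) := by
    refine ⟨Polynomial.X ^ 2 + Polynomial.C 7, (Polynomial.monic_X_pow_add_C _ (by norm_num)).ne_zero, ?_⟩
    simp only [map_add, map_pow, Polynomial.aeval_X, Polynomial.aeval_C]
    rw [i5_r_sq]
    simp
  obtain ⟨u, hu⟩ := TRS.rational_of_fixed (y + conj y) (ha.add hac) (by
    rw [Complex.add_im, Complex.conj_im]
    ring) (fun σ hσ => by rw [map_add, h σ hσ, hc σ hσ])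
  obtain ⟨v, hv⟩ := TRS.rational_of_fixed ((y - conj y) * (Complex.I * (√7 : ℝ))) ((ha.sub hac).mul har) (by
    rw [Complex.mul_im]
    simp) (fun σ hσ => by rw [map_mul, map_sub, h σ hσ, hc σ hσ, hσ])
  refine ⟨u / 2, -v / 14, ?_⟩
  have h1 : y = (y + conj y) / 2 - (y - conj y) * (Complex.I * (√7 : ℝ)) * (Complex.I * (√7 : ℝ)) / 14 := by
    linear_combination ((y - conj y) / 14) * i5_r_sq
  rw [h1, hu, hv]
  push_cast
  ring

section
variable (L : Type) [Field L] [NumberField L]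

/-- the pair `(a, b)` belongs to `σ` at the level `n` -/
structure GA (n : ℕ) (σ : ℂ ≃+* ℂ) (a b : ℤ) : Prop where
  fix : σ (Complex.I * (√7 : ℝ)) = Complex.I * (√7 : ℝ)
  seven : 7 ∣ n → c7 a = 1
  cop : IsCoprime (a ^ 2 - 7 * a * b + 14 * b ^ 2) ((n : ℕ) : ℤ)
  act : ∀ w w' : 𝓞 L × 𝓞 L → ℤ, OW n w → OW n w' →
    (∀ x : 𝓞 L × 𝓞 L, w x = w' (TRS.actR (TRS.Mab a b) x)) → σ (ale n w) = ale n w'

/-- the normalised value -/
noncomputable def XZ (x : ℂ) : ℂ := x * (((√|(discr L : ℝ)| : ℝ) : ℂ) / ((TRS.Om : ℝ) : ℂ) ^ Module.finrank ℚ L)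

end

section
variable {L M : Type} [Field L] [NumberField L] [Field M] [NumberField M] [Algebra L M]
  [IsTotallyReal L]

theorem ga_ex (D : Dat L M) (hg' : Odd (Module.finrank ℚ L)) {n : ℕ} (hn2 : 2 < n) (σ : ℂ ≃+* ℂ)
    (hσ : σ (Complex.I * (√7 : ℝ)) = Complex.I * (√7 : ℝ)) : ∃ a b : ℤ, GA L n σ a b := by
  obtain ⟨a, b, h7, hs, -, hact⟩ := galois_E7 D hg' hn2 σ hσ
  exact ⟨a, b, hσ, h7, hs, hact⟩

/-- `y` is algebraic, and `σ y = θ(a + b ω) y` for all `σ` which fix `√-7`, `(a, b)` attached to `σ` at a large level -/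
structure YG (D : Dat L M) (θ : 𝓞 M → ℤ) (y : ℂ) : Prop where
  alg : IsAlgebraic ℚ y
  gal : ∃ n₀ : ℕ, 0 < n₀ ∧ ∀ n : ℕ, 2 < n → n₀ ∣ n → ∀ (σ : ℂ ≃+* ℂ) (a b : ℤ), GA L n σ a b →
    σ y = ((θ ((a : 𝓞 M) + (b : 𝓞 M) * D.om) : ℤ) : ℂ) * y

theorem YG.mul {D : Dat L M} {θ θ' : 𝓞 M → ℤ} {y y' : ℂ} (h : YG D θ y) (h' : YG D θ' y') :
    YG D (fun x => θ x * θ' x) (y * y') := by
  obtain ⟨n₀, hn0, h1⟩ := h.gal
  obtain ⟨n₁, hn1, h2⟩ := h'.gal
  refine ⟨h.alg.mul h'.alg, n₀ * n₁, Nat.mul_pos hn0 hn1, fun n hn hd σ a b hG => ?_⟩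
  rw [map_mul, h1 n hn ((Dvd.intro _ rfl).trans hd) σ a b hG, h2 n hn ((Dvd.intro_left _ rfl).trans hd) σ a b hG]
  push_cast
  ring

theorem YG.one {D : Dat L M} : YG D (fun _ => 1) 1 := by
  refine ⟨isAlgebraic_one, 1, one_pos, fun n hn hd σ a b hG => ?_⟩
  rw [map_one, Int.cast_one, mul_one]

theorem YG.prod {D : Dat L M} {ι : Type} (T : Finset ι) {θ : ι → 𝓞 M → ℤ} {y : ι → ℂ} (h : ∀ i ∈ T, YG D (θ i) (y i)) :
    YG D (fun x => ∏ i ∈ T, θ i x) (∏ i ∈ T, y i) := by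
  induction T using Finset.induction_on with
  | empty =>
    simp only [Finset.prod_empty]
    exact YG.one
  | insert i T hi ih =>
    simp only [Finset.prod_insert hi]
    exact (h i (Finset.mem_insert_self i T)).mul (ih fun k hk => h k (Finset.mem_insert_of_mem hk))

/-- the character may be changed -/
theorem YG.congr {D : Dat L M} {θ θ' : 𝓞 M → ℤ} {y : ℂ} (h : YG D θ y) {n₁ : ℕ} (hn1 : 0 < n₁)
    (hθ : ∀ a b : ℤ, c7 a = 1 → IsCoprime (a ^ 2 - 7 * a * b + 14 * b ^ 2) ((n₁ : ℕ) : ℤ) →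
      θ ((a : 𝓞 M) + (b : 𝓞 M) * D.om) = θ' ((a : 𝓞 M) + (b : 𝓞 M) * D.om)) : YG D θ' y := by
  obtain ⟨n₀, hn0, h1⟩ := h.gal
  refine ⟨h.alg, 7 * (n₀ * n₁), by positivity, fun n hn hd σ a b hG => ?_⟩
  have h7 : 7 ∣ n := (Dvd.intro _ rfl).trans hd
  have h0 : n₀ ∣ n := (Dvd.intro _ rfl).trans ((Dvd.intro_left 7 rfl).trans hd)
  have h2 : n₁ ∣ n := (Dvd.intro_left _ rfl).trans ((Dvd.intro_left 7 rfl).trans hd)
  rw [h1 n hn h0 σ a b hG, hθ a b (hG.seven h7) (IsCoprime.of_isCoprime_of_dvd_right hG.cop (Int.natCast_dvd_natCast.2 h2))]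

theorem YG.fixed {D : Dat L M} (hg' : Odd (Module.finrank ℚ L)) {y : ℂ} (h : YG D (fun _ => 1) y) :
    ∃ u v : ℚ, y = u + v * (Complex.I * (√7 : ℝ)) := by
  obtain ⟨n₀, hn0, h1⟩ := h.gal
  refine i5_fix h.alg fun σ hσ => ?_
  obtain ⟨a, b, hG⟩ := ga_ex D hg' (n := 3 * n₀) (by omega) σ hσ
  have h2 := h1 (3 * n₀) (by omega) (Dvd.intro_left _ rfl) σ a b hG
  rw [Int.cast_one, one_mul] at h2
  exact h2

/-- [INT-5] **the Galois action on the normalised value** -/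
theorem yg_act (D : Dat L M) (hg' : Odd (Module.finrank ℚ L)) {η : 𝓞 M → ℤ} {m : ℕ} (hη : Sg D η m)
    {Φ : Ideal (𝓞 M) →*₀ ℂ} (hΦ : ChB D η m Φ)
    {Z : ℂ → ℂ} (hZd : Differentiable ℂ Z)
    (hZ : ∀ t : ℂ, 3 / 2 < t.re → Z t = ∑' I : Ideal (𝓞 M), conj (Φ I) * (absNorm I : ℂ) ^ (-t)) :
    YG D η (XZ L (Z 1)) := by
  obtain ⟨r⟩ := exists_goodReps M D.hodd hη.pos
  have hrpos : 0 < ∏ k, absNorm (r.r k) := Finset.prod_pos fun k _ => absNorm_pos (r.ne k)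
  refine ⟨(h3_act D hg' hη hΦ hZd hZ).1, m * ∏ k, absNorm (r.r k), Nat.mul_pos hη.pos hrpos,
    fun n hn2 hd σ a b hG => ?_⟩
  have hn0 : 0 < n := by omega
  have hmn : m ∣ n := (Dvd.intro _ rfl).trans hd
  have hrn : ∀ k, absNorm (r.r k) ∣ n := fun k =>
    (Finset.dvd_prod_of_mem (fun k => absNorm (r.r k)) (Finset.mem_univ k)).trans ((Dvd.intro_left _ rfl).trans hd)
  have hA := h3_value D hg' hη (CC_id D) (ChS_id hΦ) r hn0 hmn hrn hZd hZ
  unfold XZ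
  rw [hA]
  exact h3_gal D hg' hη hn0 hmn hrn (Psi := fun k => Φ (r.r k)) (fun k => (ChS_id hΦ).fix σ hG.fix _) hG.cop hG.act (CC_id D)

end

/-! ### the valuation of the elements of `ℚ(√-7)` -/

/-- elements `x + y ω`, integers `x`, `y` -/
theorem i5_int {V : ValuationSubring ℂ} (h2 : V.valuation 2 < 1) {s : Bool} (hs : V.valuation (c1 s) < 1) (N : ℕ) :
    ∀ x y : ℤ, (x ^ 2 + x * y + 2 * y ^ 2).toNat = N → 0 < N →
      ∃ k : ℤ, V.valuation ((x : ℂ) + y * c1 s) = V.valuation 2 ^ k := by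
  have hint : ∀ z : ℤ, V.valuation (z : ℂ) ≤ 1 := fun z => by
    rw [ValuationSubring.valuation_le_one_iff]
    exact intCast_mem V z
  have hc' : V.valuation (1 - c1 s) = 1 := by
    apply v5_unit
    rw [show (1 - c1 s - 1 : ℂ) = -c1 s by ring, Valuation.map_neg]
    exact hs
  have hc : V.valuation (c1 s) = V.valuation 2 := by
    rw [← z_mul s, map_mul, hc', mul_one]
  have h20 : V.valuation (2 : ℂ) ≠ 0 := by
    rw [Ne, map_eq_zero]
    exact two_ne_zero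
  induction N using Nat.strong_induction_on with
  | _ N ih =>
  intro x y hN hN0
  rcases Int.even_or_odd x with ⟨m, hm⟩ | hx
  · have e1 : x ^ 2 + x * y + 2 * y ^ 2 = 2 * ((m + y) ^ 2 + (m + y) * (-m) + 2 * (-m) ^ 2) := by
      rw [hm]
      ring
    have hpos : 0 < (m + y) ^ 2 + (m + y) * (-m) + 2 * (-m) ^ 2 := by omega
    obtain ⟨k, hk⟩ := ih ((m + y) ^ 2 + (m + y) * (-m) + 2 * (-m) ^ 2).toNat (by omega) (m + y) (-m) rfl (by omega)
    refine ⟨k + 1, ?_⟩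
    have e2 : (x : ℂ) + y * c1 s = c1 s * (((m + y : ℤ) : ℂ) + ((-m : ℤ) : ℂ) * c1 s) := by
      rw [hm]
      push_cast
      linear_combination -(m : ℂ) * z_mul s
    rw [e2, map_mul, hk, hc, zpow_add₀ h20, zpow_one, mul_comm]
  · refine ⟨0, ?_⟩
    rw [zpow_zero]
    apply v5_unit
    have e1 : (x : ℂ) + y * c1 s - 1 = ((x : ℂ) - 1) + y * c1 s := by ring
    rw [e1]
    refine Valuation.map_add_lt _ (val_odd h2 hx) ?_
    rw [map_mul]
    exact mul_lt_one_of_nonneg_of_lt_one_right (hint y) zero_le hs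

/-- the value group of `ℚ(√-7)` -/
theorem i5_val {V : ValuationSubring ℂ} (h2 : V.valuation 2 < 1) {s : Bool} (hs : V.valuation (c1 s) < 1) {y : ℂ} (hy : y ≠ 0)
    {u v : ℚ} (h : y = u + v * (Complex.I * (√7 : ℝ))) : ∃ k : ℤ, V.valuation y = V.valuation 2 ^ k := by
  have h20 : V.valuation (2 : ℂ) ≠ 0 := by
    rw [Ne, map_eq_zero]
    exact two_ne_zero
  -- coordinates with respect to `1`, `c1 s`
  obtain ⟨p, q, hpq⟩ : ∃ p q : ℚ, y = p + q * c1 s := by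
    cases s
    · refine ⟨u + v, -(2 * v), ?_⟩
      have e : c1 false = -3 - tau0 := by simp [c1]
      rw [h, e]
      unfold tau0
      push_cast
      ring
    · refine ⟨u - v, 2 * v, ?_⟩
      have e : c1 true = tau0 + 4 := by simp [c1]
      rw [h, e]
      unfold tau0
      push_cast
      ring
  have hd : (p.den * q.den : ℕ) ≠ 0 := Nat.mul_ne_zero p.den_nz q.den_nz
  have hdC : ((p.den * q.den : ℕ) : ℂ) ≠ 0 := Nat.cast_ne_zero.2 hd
  have hp0 : (p.den : ℂ) ≠ 0 := Nat.cast_ne_zero.2 p.den_nz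
  have hq0 : (q.den : ℂ) ≠ 0 := Nat.cast_ne_zero.2 q.den_nz
  have e1 : y * ((p.den * q.den : ℕ) : ℂ) = ((p.num * q.den : ℤ) : ℂ) + ((q.num * p.den : ℤ) : ℂ) * c1 s := by
    have e2 : (p : ℂ) = p.num / p.den := by
      have := Rat.cast_def (K := ℂ) p
      exact this
    have e3 : (q : ℂ) = q.num / q.den := Rat.cast_def (K := ℂ) q
    rw [hpq, e2, e3]
    push_cast
    field_simp
  set X : ℤ := p.num * q.den with hX
  set Y : ℤ := q.num * p.den with hY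
  have hne : 0 < X ^ 2 + X * Y + 2 * Y ^ 2 := by
    by_contra hcon
    have hXY : Y = 0 ∧ X = 0 := by
      have h3 : 4 * (X ^ 2 + X * Y + 2 * Y ^ 2) = (2 * X + Y) ^ 2 + 7 * Y ^ 2 := by ring
      have h4 : Y = 0 := by
        by_contra h5
        have h6 : 0 < Y ^ 2 := by positivity
        nlinarith [sq_nonneg (2 * X + Y)]
      refine ⟨h4, ?_⟩
      rw [h4] at hcon
      by_contra h5
      have h6 : 0 < X ^ 2 := by positivity
      apply hcon
      linarith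
    rw [hXY.1, hXY.2] at e1
    apply hy
    have h3 : y * ((p.den * q.den : ℕ) : ℂ) = 0 := by
      rw [e1]
      push_cast
      ring
    exact (mul_eq_zero.1 h3).resolve_right hdC
  obtain ⟨k, hk⟩ := i5_int h2 hs _ X Y rfl (by omega)
  have hQ : (((p.den * q.den : ℕ) : ℚ)) ≠ 0 := Nat.cast_ne_zero.2 hd
  have hv := z2_val h2 hQ
  rw [Rat.cast_natCast] at hv
  refine ⟨k - padicValRat 2 ((p.den * q.den : ℕ) : ℚ), ?_⟩
  rw [← e1, map_mul, hv] at hk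
  rw [zpow_sub₀ h20, ← hk, mul_div_cancel_right₀ _ (zpow_ne_zero _ h20)]

end TRZ
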