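import Pool.Agent.TRZ.I3
import Pool.Agent.TRZ.I4
import Pool.Agent.TRZ.I5
import Pool.Agent.TRZ.F2

/-! # [INT-6] the number attached to a prime -/

set_option autoImplicit false
set_option linter.unusedSectionVars false

open NumberField Ideal IsDedekindDomain
open scoped Real Classical ComplexConjugate
open TR TRG TRP TTS TU TT CM27 CMT GE

namespace TRZ

section
variable {L M : Type} [Field L] [NumberField L] [Field M] [NumberField M] [Algebra L M]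
  [IsTotallyReal L] {D : Dat L M}

theorem i6_cop {a b : ℤ} {n : ℕ} (h : IsCoprime (a ^ 2 - 7 * a * b + 14 * b ^ 2) ((n : ℕ) : ℤ)) :
    IsCoprime ((a : 𝓞 M) + (b : 𝓞 M) * D.om) ((n : ℕ) : 𝓞 M) := by
  obtain ⟨u, v, huv⟩ := h
  refine ⟨(u : 𝓞 M) * ((a : 𝓞 M) - 7 * b - b * D.om), (v : 𝓞 M), ?_⟩
  have h1 := congrArg (fun z : ℤ => (z : 𝓞 M)) huv
  push_cast at h1
  linear_combination h1 - (u : 𝓞 M) * (b : 𝓞 M) ^ 2 * D.a2_om_sq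

omit [IsTotallyReal L] in
theorem i6_nm {x : 𝓞 M} {n : ℕ} (h : IsCoprime x ((n : ℕ) : 𝓞 M)) {P : HeightOneSpectrum (𝓞 M)}
    (hd : absNorm P.asIdeal ∣ n) : x ∉ P.asIdeal := by
  intro hx
  obtain ⟨u, v, huv⟩ := h
  apply P.isPrime.ne_top
  rw [Ideal.eq_top_iff_one, ← huv]
  refine add_mem (Ideal.mul_mem_left _ _ hx) (Ideal.mul_mem_left _ _ ?_)
  obtain ⟨k, hk⟩ := hd
  rw [hk, Nat.cast_mul]
  exact Ideal.mul_mem_right _ _ (absNorm_mem _)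

theorem i6_two {x : 𝓞 M} {n : ℕ} (h : IsCoprime x ((n : ℕ) : 𝓞 M)) (hd : 2 ∣ n) : IsCoprime x 2 := by
  refine h.of_isCoprime_of_dvd_right ?_
  obtain ⟨k, hk⟩ := hd
  refine ⟨(k : 𝓞 M), ?_⟩
  rw [hk, Nat.cast_mul]
  norm_num

theorem i6_pm {a : ℤ} (h : a = 1 ∨ a = -1) : a * a = 1 := by
  rcases h with rfl | rfl <;> norm_num

theorem i6_qr {T : Finset (HeightOneSpectrum (𝓞 M))} {x : 𝓞 M} (h : ∀ P ∈ T, x ∉ P.asIdeal) :
    (∏ P ∈ T, TT.qr P x) * (∏ P ∈ T, TT.qr P x) = 1 := by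
  rw [← Finset.prod_mul_distrib]
  exact Finset.prod_eq_one fun P hP => i6_pm (qr_pm (h P hP))

variable (hD : Od2 D)
include hD

theorem i6_kp {c : 𝓞 L} (hc : c ∉ span {(2 : 𝓞 L)}) {y : 𝓞 L} (hy : y ∉ span {(2 : 𝓞 L)}) : kp c true y * kp c true y = 1 := by
  have h : Rm c true := Or.inl rfl
  have h1 := i6_pm (t1_tp_pm hD.two hy hc)
  have h3 : t8 y = 1 ∨ t8 y = -1 := by
    rcases x1_t8_val y with h | h
    · exact absurd ((t8_zero hD _).1 h) hy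
    · exact h
  have h4 := i6_pm h3
  unfold kp
  rw [if_pos h]
  show tp y c * t8 y * (tp y c * t8 y) = 1
  calc tp y c * t8 y * (tp y c * t8 y) = (tp y c * tp y c) * (t8 y * t8 y) := by ring
    _ = 1 := by rw [h1, h4, mul_one]

theorem i6_kp2 {s : Bool} {x c c' : 𝓞 M} (hx : IsCoprime x 2) (hc : IsCoprime c 2) :
    kp (rd8 D (!s) c) true (rd8 D (!s) x) * kp (rd8 D (!s) (c * c')) true (rd8 D (!s) x) = tau D (!s) x c' := by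
  have h : Rm (rd8 D (!s) c) true := Or.inl rfl
  have h' : Rm (rd8 D (!s) (c * c')) true := Or.inl rfl
  unfold kp
  rw [if_pos h, if_pos h']
  have h4 := i6_pm (i3_t8 hD (s := !s) hx)
  have h1 := i6_pm (tau_pm hD (s := !s) hx hc)
  have h2 : tau D (!s) x (c * c') = tau D (!s) x c * tau D (!s) x c' := by
    rw [tau_comm hD (!s) x, tau_mul hD hx, tau_comm hD (!s) c, tau_comm hD (!s) c']
  show tau D (!s) x c * t8 (rd8 D (!s) x) * (tau D (!s) x (c * c') * t8 (rd8 D (!s) x)) = _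
  rw [h2]
  calc tau D (!s) x c * t8 (rd8 D (!s) x) * (tau D (!s) x c * tau D (!s) x c' * t8 (rd8 D (!s) x)) =
      (tau D (!s) x c * tau D (!s) x c) * (t8 (rd8 D (!s) x) * t8 (rd8 D (!s) x)) * tau D (!s) x c' := by ring
    _ = _ := by rw [h1, h4, one_mul, one_mul]

/-- the product of the two sign functions -/
theorem i6_sign {s : Bool} {P : HeightOneSpectrum (𝓞 M)} {T : Finset (HeightOneSpectrum (𝓞 M))} (hPT : P ∉ T)
    {z : HeightOneSpectrum (𝓞 M) → 𝓞 M} {ε : (𝓞 L)ˣ} (h2 : ∀ Q ∈ insert P T, (2 : 𝓞 M) ∉ Q.asIdeal)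
    (hz : ∀ Q ∈ insert P T, NG D s Q (z Q)) {x : 𝓞 M} (hx2 : IsCoprime x 2) (hx : ∀ Q ∈ T, x ∉ Q.asIdeal) :
    h2S D s T (kp (cd D s T z ε) true) (kp (ε : 𝓞 L) true) x *
      h2S D s (insert P T) (kp (cd D s (insert P T) z ε) true) (kp (ε : 𝓞 L) true) x = TT.qr P x * tau D (!s) x (z P) := by
  have hzo : ∀ Q ∈ insert P T, IsCoprime (z Q) 2 := fun Q hQ => ng_odd (h2 Q hQ) (hz Q hQ)
  have hc : IsCoprime (-(algebraMap (𝓞 L) (𝓞 M) (ε : 𝓞 L)) * ∏ Q ∈ T, z Q) 2 := by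
    refine IsCoprime.mul_left ?_ (IsCoprime.prod_left fun Q hQ => hzo Q (Finset.mem_insert_of_mem hQ))
    exact (IsCoprime.of_isCoprime_of_dvd_left isCoprime_one_left
      (isUnit_iff_dvd_one.1 ((ε.isUnit.map (algebraMap (𝓞 L) (𝓞 M))).neg)))
  have e : cd D s (insert P T) z ε = rd8 D (!s) ((-(algebraMap (𝓞 L) (𝓞 M) (ε : 𝓞 L)) * ∏ Q ∈ T, z Q) * z P) := by
    unfold cd
    rw [Finset.prod_insert hPT]
    congr 1
    ring
  have h1 := i6_kp2 hD (s := s) (c' := z P) hx2 hc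
  have h3 := i6_qr hx
  have h4 := i6_kp hD (h4_unit_odd hD ε) (rd8_nm hD (s := s) hx2)
  have e2 : cd D s T z ε = rd8 D (!s) (-(algebraMap (𝓞 L) (𝓞 M) (ε : 𝓞 L)) * ∏ Q ∈ T, z Q) := rfl
  unfold h2S
  rw [e, e2, Finset.prod_insert hPT]
  linear_combination (TT.qr P x * (kp (rd8 D (!s) (-(algebraMap (𝓞 L) (𝓞 M) (ε : 𝓞 L)) * ∏ Q ∈ T, z Q)) true (rd8 D (!s) x) *
    kp (rd8 D (!s) ((-(algebraMap (𝓞 L) (𝓞 M) (ε : 𝓞 L)) * ∏ Q ∈ T, z Q) * z P)) true (rd8 D (!s) x)) *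
    (kp (ε : 𝓞 L) true (rd8 D s x) * kp (ε : 𝓞 L) true (rd8 D s x))) * h3 +
    (TT.qr P x * (kp (rd8 D (!s) (-(algebraMap (𝓞 L) (𝓞 M) (ε : 𝓞 L)) * ∏ Q ∈ T, z Q)) true (rd8 D (!s) x) *
    kp (rd8 D (!s) ((-(algebraMap (𝓞 L) (𝓞 M) (ε : 𝓞 L)) * ∏ Q ∈ T, z Q) * z P)) true (rd8 D (!s) x))) * h4 +
    TT.qr P x * h1

/-- the valuation of the normalised value -/
theorem i6_val (Ψ : PsiDat D) {s : Bool} {d : M} {T : Finset (HeightOneSpectrum (𝓞 M))} {z : HeightOneSpectrum (𝓞 M) → 𝓞 M} {ε : (𝓞 L)ˣ}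
    (H : DK D s d T z ε true true) (hG : GT D s T z ε true true = 1)
    {V : ValuationSubring ℂ} (h2 : V.valuation 2 < 1) (hs : V.valuation (c1 s) < 1)
    {Φ : Ideal (𝓞 M) →*₀ ℂ} (hΦ : PhiK D s T (kp (cd D s T z ε) true) (kp (ε : 𝓞 L) true) Φ)
    {Z : ℂ → ℂ} (hZd : Differentiable ℂ Z)
    (hZ : ∀ t : ℂ, 3 / 2 < t.re → Z t = ∑' I : Ideal (𝓞 M), conj (Φ I) * (absNorm I : ℂ) ^ (-t)) :
    V.valuation (XZ L (Z 1)) ^ 2 * V.valuation 2 ^ (3 * Module.finrank ℚ L) = V.valuation 2 ^ (2 * T.card) := by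
  obtain ⟨κ, hκ⟩ := IsAlgClosed.exists_pow_nat_eq (E4f tau0 ^ Module.finrank ℚ L) (n := 4) (by norm_num)
  obtain ⟨ζ, h1, h3⟩ := val_fin hD Ψ H (i4_nsq hD H) (Or.inr (Or.inr rfl)) h2 hs hκ hΦ hZd hZ
  have hR : Rm (cd D s T z ε) true := Or.inl rfl
  have hR' : Rm (ε : 𝓞 L) true := Or.inl rfl
  unfold zl at h1
  rw [hG, if_neg one_ne_zero] at h1
  rw [if_pos hR, if_pos hR', if_pos hR, if_pos rfl, zero_add, add_zero, v5_unit h1, one_pow, mul_one,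
    ← f1_val (L := L) h2 hκ (Z 1), mul_div_assoc, mul_pow, ← pow_mul, mul_assoc, ← pow_add] at h3
  unfold XZ
  rw [← h3]
  congr 2
  ring

/-- [INT-6] **the number attached to a prime** -/
theorem i6_pair (Ψ : PsiDat D) (s : Bool) {P : HeightOneSpectrum (𝓞 M)} (h2 : (2 : 𝓞 M) ∉ P.asIdeal) {q : 𝓞 M} (hq : NG D s P q) :
    ∃ y : ℂ, YG D (fun x => TT.qr P x * tau D (!s) x q) y ∧ ∀ V : ValuationSubring ℂ, V.valuation 2 < 1 →
      V.valuation (c1 s) < 1 → ∃ k : ℤ, V.valuation y = V.valuation 2 ^ k := by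
  obtain ⟨T, z, ε, hPT, hzP, h2T, hzT, hG1, hG2⟩ := i3_pair hD s h2 hq
  obtain ⟨d₁, H₁⟩ := i4_DK (T := T) (fun Q hQ => h2T Q (Finset.mem_insert_of_mem hQ))
    (fun Q hQ => hzT Q (Finset.mem_insert_of_mem hQ)) ε true true
  obtain ⟨d₂, H₂⟩ := i4_DK h2T hzT ε true true
  obtain ⟨Φ₁, hΦ₁⟩ := exists_PhiK hD H₁ Ψ
  obtain ⟨Φ₂, hΦ₂⟩ := exists_PhiK hD H₂ Ψ
  obtain ⟨Z₁, hZd₁, hZ₁⟩ := exists_ZK hD H₁ hΦ₁
  obtain ⟨Z₂, hZd₂, hZ₂⟩ := exists_ZK hD H₂ hΦ₂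
  have hε := h2_gd hD (h4_unit_odd hD ε) true
  have hc₁ := h2_gd hD (h4_cd_odd hD H₁) true
  have hc₂ := h2_gd hD (h4_cd_odd hD H₂) true
  have hy₁ := yg_act D hD.odd (h3_Sg hD H₁.two hc₁ hε hΦ₁) (h3_ChB hD hc₁ hε hΦ₁) hZd₁ hZ₁
  have hy₂ := yg_act D hD.odd (h3_Sg hD H₂.two hc₂ hε hΦ₂) (h3_ChB hD hc₂ hε hΦ₂) hZd₂ hZ₂
  refine ⟨_, (hy₁.mul hy₂).congr (n₁ := 2 * ∏ Q ∈ T, absNorm Q.asIdeal)
    (Nat.mul_pos two_pos (Finset.prod_pos fun Q _ => Nat.pos_of_ne_zero fun h => Q.ne_bot (Ideal.absNorm_eq_zero_iff.1 h))) ?_, ?_⟩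
  · intro a b _ hab
    have hcop := i6_cop (D := D) hab
    rw [← hzP]
    exact i6_sign hD hPT h2T hzT (i6_two hcop (Dvd.intro _ rfl)) fun Q hQ => i6_nm hcop
      ((Finset.dvd_prod_of_mem (fun Q : HeightOneSpectrum (𝓞 M) => absNorm Q.asIdeal) hQ).trans (Dvd.intro_left _ rfl))
  · intro V hV hs
    have h1 := i6_val hD Ψ H₁ hG1 hV hs hΦ₁ hZd₁ hZ₁
    have h3 := i6_val hD Ψ H₂ hG2 hV hs hΦ₂ hZd₂ hZ₂
    have h20 : V.valuation (2 : ℂ) ≠ 0 := by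
      rw [Ne, map_eq_zero]
      exact two_ne_zero
    refine ⟨((T.card + (insert P T).card : ℕ) : ℤ) - ((3 * Module.finrank ℚ L : ℕ) : ℤ), ?_⟩
    rw [zpow_sub₀ h20, zpow_natCast, zpow_natCast, eq_div_iff (pow_ne_zero _ h20), map_mul,
      ← pow_left_inj₀ zero_le zero_le two_ne_zero]
    have h5 := f2_mon (h1.trans (mul_one _).symm) (h3.trans (mul_one _).symm) (e := 3 * Module.finrank ℚ L * 2)
      (e' := (T.card + (insert P T).card) * 2) (by ring) (by ring)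
    rw [mul_one, mul_one] at h5
    rw [mul_pow, mul_pow, ← pow_mul, ← pow_mul]
    exact h5

end

end TRZ
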