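import Pool.Agent.TRZ.I6

/-! # [INT-7] the value of an everywhere unramified character at `2` has a valuation in the value group of `ℚ(√-7)` -/

set_option autoImplicit false
set_option linter.unusedSectionVars false

open NumberField Ideal IsDedekindDomain
open scoped Real Classical ComplexConjugate
open TR TRG TRP TTS TU TT CM27 CMT GE

namespace TRZ

section
variable {L M : Type} [Field L] [NumberField L] [Field M] [NumberField M] [Algebra L M]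
  [IsTotallyReal L] {D : Dat L M}

/-- the quadratic symbol at `√-7` -/
theorem i7_seven {R : HeightOneSpectrum (𝓞 M)} (hR : R.asIdeal = span {D.rr}) {a b : ℤ} (ha : c7 a = 1) :
    TT.qr R ((a : 𝓞 M) + (b : 𝓞 M) * D.om) = 1 := by
  have h2 := bl_R_two hR
  have hrr : D.rr ∈ R.asIdeal := by
    rw [hR]
    exact Ideal.mem_span_singleton_self _
  have h7 : (7 : 𝓞 M) ∈ R.asIdeal := by
    have e : (7 : 𝓞 M) = -(D.rr * D.rr) := by linear_combination D.rr_sq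
    rw [e]
    exact neg_mem (Ideal.mul_mem_left _ _ hrr)
  have hom : D.om ∈ R.asIdeal := by
    have h : (2 : 𝓞 M) * D.om ∈ R.asIdeal := by
      have e : (2 : 𝓞 M) * D.om = D.rr - 7 := by
        unfold Dat.rr
        ring
      rw [e]
      exact sub_mem hrr h7
    exact (R.isPrime.mem_or_mem h).resolve_left h2
  obtain ⟨m, hm, hm0⟩ : ∃ m : ℤ, (7 : ℤ) ∣ a - m ^ 2 ∧ (m = 1 ∨ m = 2 ∨ m = 3) := by
    unfold c7 at ha
    split_ifs at ha with h1 h3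
    · rcases h1 with h1 | h1 | h1
      · exact ⟨1, by omega, Or.inl rfl⟩
      · exact ⟨3, by omega, Or.inr (Or.inr rfl)⟩
      · exact ⟨2, by omega, Or.inr (Or.inl rfl)⟩
    · exact absurd ha (by norm_num)
  have hmn : (m : 𝓞 M) ∉ R.asIdeal := by
    intro h
    have h1 : (1 : 𝓞 M) ∉ R.asIdeal := fun h => R.isPrime.ne_top ((Ideal.eq_top_iff_one _).2 h)
    rcases hm0 with rfl | rfl | rfl
    · apply h1
      simpa using h
    · apply h2
      simpa using h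
    · apply h1
      have e : (1 : 𝓞 M) = 7 - 2 * ((3 : ℤ) : 𝓞 M) := by
        push_cast
        norm_num
      rw [e]
      exact sub_mem h7 (Ideal.mul_mem_left _ _ h)
  rw [← qr_sq R hmn]
  apply TT.qr_congr
  obtain ⟨k, hk⟩ := hm
  have e : (a : 𝓞 M) + (b : 𝓞 M) * D.om - (m : 𝓞 M) ^ 2 = (k : 𝓞 M) * 7 + (b : 𝓞 M) * D.om := by
    have h1 := congrArg (fun z : ℤ => (z : 𝓞 M)) hk
    push_cast at h1
    linear_combination h1
  rw [e]
  exact add_mem (Ideal.mul_mem_left _ _ h7) (Ideal.mul_mem_left _ _ hom)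

variable (hD : Od2 D)
include hD

theorem i7_tau_prod {s : Bool} {T : Finset (HeightOneSpectrum (𝓞 M))} {z : HeightOneSpectrum (𝓞 M) → 𝓞 M} {x : 𝓞 M}
    (hx : IsCoprime x 2) : tau D s x (∏ P ∈ T, z P) = ∏ P ∈ T, tau D s x (z P) := by
  induction T using Finset.induction_on with
  | empty =>
    rw [Finset.prod_empty, Finset.prod_empty]
    have h := i3_one hD (s := s) hx
    rwa [Units.val_one, map_one] at h
  | insert P T hP ih =>
    rw [Finset.prod_insert hP, Finset.prod_insert hP, ← ih, tau_comm hD s x, tau_mul hD hx, tau_comm hD s (z P),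
      tau_comm hD s (∏ P ∈ T, z P)]

theorem i7_tau {s : Bool} {d : M} {T : Finset (HeightOneSpectrum (𝓞 M))} {z : HeightOneSpectrum (𝓞 M) → 𝓞 M} {ε : (𝓞 L)ˣ} {i j : Bool}
    (H : DK D s d T z ε i j) (hR : ¬ Rm (cd D s T z ε) i) (hR' : ¬ Rm (ε : 𝓞 L) j) {x : 𝓞 M} (hx : IsCoprime x 2) :
    tau D (!s) x (rs7 D s) * ∏ P ∈ T, tau D (!s) x (z P) = 1 := by
  have _ := H
  have hq : Q4 (cd D s T z ε) := by
    by_contra h
    exact hR (Or.inr h)
  have hq' : Q4 (ε : 𝓞 L) := by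
    by_contra h
    exact hR' (Or.inr h)
  have hxn := rd8_nm hD (s := !s) hx
  have hm1 : IsCoprime (-1 : 𝓞 M) 2 := isCoprime_one_left.neg_left
  have mul' : ∀ a b : 𝓞 M, tau D (!s) x (a * b) = tau D (!s) x a * tau D (!s) x b := fun a b => by
    rw [tau_comm hD (!s) x, tau_mul hD hx, tau_comm hD (!s) a, tau_comm hD (!s) b]
  have h1 : tau D (!s) x (-(algebraMap (𝓞 L) (𝓞 M) (ε : 𝓞 L)) * ∏ P ∈ T, z P) = 1 := by
    rw [tau_comm hD]
    exact tp_q4 hD hq hxn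
  have h3 : tau D (!s) x (algebraMap (𝓞 L) (𝓞 M) (ε : 𝓞 L)) = 1 := by
    rw [tau_comm hD]
    refine tp_q4 hD ?_ hxn
    rw [q4_per_iff (rd8_alg hD (!s) (ε : 𝓞 L))]
    exact hq'
  have h4 : tau D (!s) x (-rs7 D s) = 1 := by
    rw [tau_comm hD, ← c2_rs7_not]
    exact tau_et hD (rs7_et (!s)) hx
  have h5 : tau D (!s) x (-1) * tau D (!s) x (-1) = 1 := i6_pm (tau_pm hD hx hm1)
  rw [show -(algebraMap (𝓞 L) (𝓞 M) (ε : 𝓞 L)) * ∏ P ∈ T, z P = (-1) * algebraMap (𝓞 L) (𝓞 M) (ε : 𝓞 L) * ∏ P ∈ T, z P by ring,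
    mul', mul', h3, mul_one] at h1
  rw [show -rs7 D s = (-1) * rs7 D s by ring, mul'] at h4
  rw [← i7_tau_prod hD hx]
  calc tau D (!s) x (rs7 D s) * tau D (!s) x (∏ P ∈ T, z P) =
      (tau D (!s) x (-1) * tau D (!s) x (-1)) * (tau D (!s) x (rs7 D s) * tau D (!s) x (∏ P ∈ T, z P)) := by rw [h5, one_mul]
    _ = (tau D (!s) x (-1) * tau D (!s) x (rs7 D s)) * (tau D (!s) x (-1) * tau D (!s) x (∏ P ∈ T, z P)) := by ring
    _ = 1 := by rw [h1, h4, one_mul]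

/-- [INT-7] **the valuation of the value is in the value group of `ℚ(√-7)`** -/
theorem i7_val (Ψ : PsiDat D) {s : Bool} {d : M} {T : Finset (HeightOneSpectrum (𝓞 M))} {z : HeightOneSpectrum (𝓞 M) → 𝓞 M} {ε : (𝓞 L)ˣ} {i j : Bool}
    (H : DK D s d T z ε i j) (hR : ¬ Rm (cd D s T z ε) i) (hR' : ¬ Rm (ε : 𝓞 L) j)
    {Φ : Ideal (𝓞 M) →*₀ ℂ} (hΦ : PhiK D s T (kp (cd D s T z ε) i) (kp (ε : 𝓞 L) j) Φ)
    {Z : ℂ → ℂ} (hZd : Differentiable ℂ Z)
    (hZ : ∀ t : ℂ, 3 / 2 < t.re → Z t = ∑' I : Ideal (𝓞 M), conj (Φ I) * (absNorm I : ℂ) ^ (-t))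
    (h1 : Z 1 ≠ 0) {V : ValuationSubring ℂ} (hV : V.valuation 2 < 1) (hs : V.valuation (c1 s) < 1) :
    ∃ k : ℤ, V.valuation (XZ L (Z 1)) = V.valuation 2 ^ k := by
  have h20 : V.valuation (2 : ℂ) ≠ 0 := by
    rw [Ne, map_eq_zero]
    exact two_ne_zero
  have hε := h2_gd hD (h4_unit_odd hD ε) j
  have hc := h2_gd hD (h4_cd_odd hD H) i
  have hy₀ := yg_act D hD.odd (h3_Sg hD H.two hc hε hΦ) (h3_ChB hD hc hε hΦ) hZd hZ
  obtain ⟨R, hRR⟩ := se4_R D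
  have ngr : NG D s R (rs7 D s) := ⟨⟨1, odd_one, by rw [pow_one, hRR, rs7_span]⟩, rs7_et s⟩
  obtain ⟨y7, hy7, hv7⟩ := i6_pair hD Ψ s (bl_R_two hRR) ngr
  have hex : ∀ P : HeightOneSpectrum (𝓞 M), ∃ y : ℂ, P ∈ T → (YG D (fun x => TT.qr P x * tau D (!s) x (z P)) y ∧
      ∀ V : ValuationSubring ℂ, V.valuation 2 < 1 → V.valuation (c1 s) < 1 → ∃ k : ℤ, V.valuation y = V.valuation 2 ^ k) := by
    intro P
    by_cases hP : P ∈ T
    · obtain ⟨y, hy⟩ := i6_pair hD Ψ s (H.two P hP) (H.ng P hP)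
      exact ⟨y, fun _ => hy⟩
    · exact ⟨1, fun h => absurd h hP⟩
  choose y hy using hex
  have hprod := YG.prod T (θ := fun P x => TT.qr P x * tau D (!s) x (z P)) (y := y) fun P hP => (hy P hP).1
  have htot := ((hy₀.mul hy7).mul hprod).congr (θ' := fun _ => 1) (n₁ := 2 * ∏ Q ∈ T, absNorm Q.asIdeal)
    (Nat.mul_pos two_pos (Finset.prod_pos fun Q _ => Nat.pos_of_ne_zero fun h => Q.ne_bot (Ideal.absNorm_eq_zero_iff.1 h))) (by
      intro a b ha hab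
      have hcop := i6_cop (D := D) hab
      have hx2 := i6_two hcop (Dvd.intro _ rfl)
      have hx : ∀ Q ∈ T, (a : 𝓞 M) + (b : 𝓞 M) * D.om ∉ Q.asIdeal := fun Q hQ => i6_nm hcop
        ((Finset.dvd_prod_of_mem (fun Q : HeightOneSpectrum (𝓞 M) => absNorm Q.asIdeal) hQ).trans (Dvd.intro_left _ rfl))
      have h3 := i6_qr hx
      have h4 := i7_tau hD H hR hR' hx2
      have h5 := i7_seven (D := D) hRR (b := b) ha
      show h2S D s T (kp (cd D s T z ε) i) (kp (ε : 𝓞 L) j) _ * (TT.qr R _ * tau D (!s) _ (rs7 D s)) *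
        ∏ P ∈ T, TT.qr P _ * tau D (!s) _ (z P) = 1
      unfold h2S
      rw [kp_one hD hR, kp_one hD hR', Finset.prod_mul_distrib, h5]
      linear_combination h3 + (∏ P ∈ T, TT.qr P ((a : 𝓞 M) + (b : 𝓞 M) * D.om)) * (∏ P ∈ T, TT.qr P ((a : 𝓞 M) + (b : 𝓞 M) * D.om)) * h4)
  obtain ⟨u, v, huv⟩ := htot.fixed hD.odd
  obtain ⟨k7, hk7⟩ := hv7 V hV hs
  obtain ⟨kp', hkp'⟩ : ∃ k : ℤ, V.valuation (∏ P ∈ T, y P) = V.valuation 2 ^ k := by
    rw [map_prod]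
    refine Finset.prod_induction (fun P => V.valuation (y P)) (fun v => ∃ k : ℤ, v = V.valuation 2 ^ k) ?_ ⟨0, (zpow_zero _).symm⟩
      fun P hP => (hy P hP).2 V hV hs
    rintro a b ⟨k, rfl⟩ ⟨l, rfl⟩
    exact ⟨k + l, (zpow_add₀ h20 k l).symm⟩
  have hX0 : XZ L (Z 1) ≠ 0 := by
    obtain ⟨κ, hκ⟩ := IsAlgClosed.exists_pow_nat_eq (E4f tau0 ^ Module.finrank ℚ L) (n := 4) (by norm_num)
    have hκ0 : κ ≠ 0 := by
      rintro rfl
      rw [zero_pow (by norm_num)] at hκ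
      exact pow_ne_zero _ E4f_ne hκ.symm
    intro h
    have h3 := f1_val (L := L) hV hκ (Z 1)
    have e : Z 1 * ((√|(discr L : ℝ)| : ℝ) : ℂ) / ((TRS.Om : ℝ) : ℂ) ^ Module.finrank ℚ L = 0 := by
      rw [mul_div_assoc]
      exact h
    rw [e, map_zero, zero_mul] at h3
    exact div_ne_zero h1 (mul_ne_zero (KL_ne L) hκ0) ((map_eq_zero _).1 h3.symm)
  have hy0 : XZ L (Z 1) * y7 * ∏ P ∈ T, y P ≠ 0 := by
    refine mul_ne_zero (mul_ne_zero hX0 ?_) ?_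
    · intro h
      rw [h, map_zero] at hk7
      exact zpow_ne_zero _ h20 hk7.symm
    · intro h
      rw [h, map_zero] at hkp'
      exact zpow_ne_zero _ h20 hkp'.symm
  obtain ⟨k, hk⟩ := i5_val hV hs hy0 huv
  rw [map_mul, map_mul, hk7, hkp'] at hk
  refine ⟨k - kp' - k7, ?_⟩
  rw [zpow_sub₀ h20, zpow_sub₀ h20, ← hk, mul_div_cancel_right₀ _ (zpow_ne_zero _ h20), mul_div_cancel_right₀ _ (zpow_ne_zero _ h20)]

end

end TRZ
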