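import Pool.Agent.TRZ.I7
import Pool.Agent.TRZ.F4

/-! # [INT-8] two exceptional primes: the value is integral -/

set_option autoImplicit false
set_option linter.unusedSectionVars false

open NumberField Ideal IsDedekindDomain
open scoped Real Classical ComplexConjugate
open TR TRG TRP TTS TU TT CM27 CMT GE

namespace TRZ

theorem i8_c1 {V : ValuationSubring ℂ} {s : Bool} (hs : V.valuation (c1 s) < 1) : V.valuation (c1 s) = V.valuation 2 := by
  have hc' : V.valuation (1 - c1 s) = 1 := by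
    apply v5_unit
    rw [show (1 - c1 s - 1 : ℂ) = -c1 s by ring, Valuation.map_neg]
    exact hs
  rw [← z_mul s, map_mul, hc', mul_one]

/-- the Euler factor with the sign `-1`: `4` times a unit -/
theorem i8_unit {V : ValuationSubring ℂ} {s : Bool} (hs : V.valuation (c1 s) < 1) {g : ℕ} (hg : Odd g) :
    V.valuation (1 + ((c1 (!s)) ^ g)⁻¹) = V.valuation 2 ^ 2 := by
  have hv := z_cg_inv hs
  rw [one_div] at hv
  set v : ℂ := (1 - c1 s)⁻¹ with hvd
  have hne := (TRP.z_ne s).2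
  have hv1 : v * (1 - c1 s) = 1 := inv_mul_cancel₀ hne
  have e1 : ((c1 (!s)) ^ g)⁻¹ = v ^ g := by
    rw [z_not, hvd, inv_pow]
  have e2 : 1 + v ^ g = (1 + v) * ∑ i ∈ Finset.range g, (-v) ^ i := by
    have h := geom_sum_mul_neg (-v) g
    rw [hg.neg_pow, sub_neg_eq_add, sub_neg_eq_add] at h
    rw [← h, mul_comm]
  have h3 : Cg V (∑ i ∈ Finset.range g, (-v) ^ i) 1 := by
    have h5 := Cg.sum (V := V) (s := Finset.range g) (x := fun i => (-v) ^ i) (y := fun i => (-1 : ℂ) ^ i)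
      (fun i _ => cg_pow hv.neg i)
    rwa [neg_one_geom_sum, if_neg (Nat.not_even_iff_odd.2 hg)] at h5
  have h4 : V.valuation (∑ i ∈ Finset.range g, (-v) ^ i) = 1 := v5_unit h3.2
  have h5 : 1 + v = -(c1 s * c1 s * v) := by
    have h6 := z_sq s
    linear_combination v * h6 - hv1
  have h6 : V.valuation v = 1 := v5_unit hv.2
  rw [e1, e2, map_mul, h4, mul_one, h5, Valuation.map_neg, map_mul, map_mul, h6, mul_one, i8_c1 hs, sq]

section
variable {L M : Type} [Field L] [NumberField L] [Field M] [NumberField M] [Algebra L M]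
  [IsTotallyReal L] {D : Dat L M} (hD : Od2 D)
include hD

/-- `δ` a local square at `ϖ'`: the class is unramified -/
theorem i8_unr {s : Bool} {d : M} {T : Finset (HeightOneSpectrum (𝓞 M))} {z : HeightOneSpectrum (𝓞 M) → 𝓞 M}
    {ε : (𝓞 L)ˣ} {i j : Bool} (H : DK D s d T z ε i j) (hd : d ≠ 0) (hn : ¬ Nsq D s d) :
    ¬ Rm (ε : 𝓞 L) j := by
  unfold Nsq at hn
  push Not at hn
  obtain ⟨P, hP, hsq⟩ := hn
  have hr := c2_rs7_ne (D := D) s
  have h1 : Ur P (d * (rs7 D s : M)) := (x0_sq (mul_ne_zero hd hr) hsq).ur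
  exact (H.ur_p2 hP hD).1 ((sg_ur_dr hD hP).1 h1)

/-- the matrix invariant vanishes -/
theorem i8_GT {s : Bool} {d : M} {T : Finset (HeightOneSpectrum (𝓞 M))} {z : HeightOneSpectrum (𝓞 M) → 𝓞 M}
    {ε : (𝓞 L)ˣ} {i j : Bool} (H : DK D s d T z ε i j) (hT : T.Nonempty) (hR : ¬ Rm (cd D s T z ε) i)
    (hR' : ¬ Rm (ε : 𝓞 L) j) (hn : ¬ Nsq D s d) : GT D s T z ε i j = 0 := by
  have hi : i = false := by
    by_contra h
    exact hR (Or.inl (by simpa using h))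
  have hj : j = false := by
    by_contra h
    exact hR' (Or.inl (by simpa using h))
  have hsum : ∑ P ∈ T, nv D s z P = 0 := by
    have h := (DK.nsq hD H hR').2
    rw [hi, if_neg Bool.false_ne_true, zero_add] at h
    have h1 : ∑ P ∈ T, nv D s z P ≠ 1 := fun h1 => hn (h.2 h1)
    generalize ∑ P ∈ T, nv D s z P = a at h1
    revert h1
    revert a
    decide
  have hq' : Q4 (ε : 𝓞 L) := by
    by_contra h
    exact hR' (Or.inr h)
  obtain ⟨w, hw⟩ := q4_unit hD hq'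
  have hbal : ∀ P ∈ T, ∑ Q ∈ T.erase P, (fun P Q => aM z Q P) P Q = ∑ Q ∈ T.erase P, (fun P Q => aM z Q P) Q P := by
    intro P hP
    have h := DK.kap hD H hP
    have h1 : TT.qr P (algebraMap (𝓞 L) (𝓞 M) (ε : 𝓞 L) * (if i then -(p1 D s) else 1) * (if j then -(p2 D s) else 1)) = 1 := by
      rw [hi, hj, if_neg Bool.false_ne_true, if_neg Bool.false_ne_true, mul_one, mul_one]
      have e : algebraMap (𝓞 L) (𝓞 M) (ε : 𝓞 L) = (algebraMap (𝓞 L) (𝓞 M) (w : 𝓞 L)) ^ 2 := by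
        rw [← map_pow, ← Units.val_pow_eq_pow_val, ← hw]
      rw [e]
      exact qr_sq P fun h => P.isPrime.ne_top (Ideal.eq_top_of_isUnit_mem _ h (w.isUnit.map _))
    have h3 : FK D s (kp (cd D s T z ε) i) j (z P) = 1 := by
      unfold FK
      rw [kp_one hD hR, hj]
      show (1 : ℤ) * (if false = true then _ else 1) = 1
      rw [if_neg Bool.false_ne_true, mul_one]
    unfold bt at h
    rw [h1, h3, if_neg (by norm_num), add_zero, add_zero] at h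
    exact h.symm
  obtain ⟨k, hk⟩ := hT
  unfold GT
  rw [if_neg hR, if_neg (by rw [hj]; exact Bool.false_ne_true), Pool.Agent.TRP.sum_cof hbal (nv D s z) hk, hsum, zero_mul]

/-- the primitive and the depleted series: the sign `-1` -/
theorem i8_dep {s : Bool} {d : M} {T : Finset (HeightOneSpectrum (𝓞 M))} {z : HeightOneSpectrum (𝓞 M) → 𝓞 M} {ε : (𝓞 L)ˣ} {i j : Bool}
    (H : DK D s d T z ε i j) (hR : ¬ Rm (ε : 𝓞 L) j) (hn : ¬ Nsq D s d) (P0 : PsiZ D s) {X : HeightOneSpectrum (𝓞 M) → (Ideal (𝓞 M) →*₀ ℤ)}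
    (hX : ∀ P ∈ T, LamE D s P (X P)) {Y : Ideal (𝓞 M) →*₀ ℤ} (hY : LamF D s (FK D s (kp (cd D s T z ε) i) j) Y)
    {Zd : ℂ → ℂ} (hZd' : ZY P0 X Y T T Zd)
    {Φ : Ideal (𝓞 M) →*₀ ℂ} (hΦ : PhiK D s T (kp (cd D s T z ε) i) (kp (ε : 𝓞 L) j) Φ)
    {Z : ℂ → ℂ} (hZd : Differentiable ℂ Z)
    (hZ : ∀ t : ℂ, 3 / 2 < t.re → Z t = ∑' I : Ideal (𝓞 M), conj (Φ I) * (absNorm I : ℂ) ^ (-t)) :
    Zd 1 = (1 + ((c1 (!s)) ^ Module.finrank ℚ L)⁻¹) * Z 1 := by
  have hc := h4_cd_odd hD H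
  have hb := hΦ.h4_bound hD (h4_fz hD hc i) (h4_fz hD (h4_unit_odd hD ε) j)
  have hne : p2 D s ≠ 0 := by
    rw [show p2 D s = p1 D (!s) from rfl]
    exact bl_ne (D := D) (!s)
  have hser : ∀ t : ℂ, 3 / 2 < t.re → Zd t = ∑' I : Ideal (𝓞 M),
      (if I ≤ span {p2 D s} then 0 else conj (Φ I)) * (absNorm I : ℂ) ^ (-t) := by
    intro t ht
    rw [hZd'.eq t ht]
    refine tsum_congr fun I => ?_
    by_cases hI : I ≤ span {p2 D s}
    · rw [if_pos hI, (P0.zero_iff I).2 hI, map_zero, zero_mul]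
    · rw [if_neg hI, ← PhiK.twist hD H hX hY hΦ hI, map_mul, map_intCast]
  have hsg : (∏ P ∈ T, TT.qr P (p2 D s)) * kp (cd D s T z ε) i (rd8 D (!s) (p2 D s)) = -1 := by
    have h1 : (∏ P ∈ T, TT.qr P (p2 D s)) * kp (cd D s T z ε) i (rd8 D (!s) (p2 D s)) ≠ 1 := fun h => hn ((DK.nsq hD H hR).1.2 h)
    have h3 : ∏ P ∈ T, TT.qr P (p2 D s) = 1 ∨ ∏ P ∈ T, TT.qr P (p2 D s) = -1 :=
      (s01_prod T (fun P => TT.qr P (p2 D s)) fun P hP => qr_pm fun h => H.two P hP (by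
        rw [← x_mul D s]
        exact Ideal.mul_mem_left _ _ h)).1
    have h4 := r6_kp_p hD hc i (s := !s) (x := p2 D s) (rd8_p2 hD s)
    have h5 := t1_tp_pm hD.two (show (-1 : 𝓞 L) ∉ span {(2 : 𝓞 L)} by
      have := r6_od_unit hD (-1)
      rwa [Units.val_neg, Units.val_one] at this) hc
    have h6 : kp (cd D s T z ε) i (rd8 D (!s) (p2 D s)) = 1 ∨ kp (cd D s T z ε) i (rd8 D (!s) (p2 D s)) = -1 := by
      rw [h4]
      rcases h5 with h5 | h5 <;> rw [h5] <;> cases i <;> norm_num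
    rcases h3 with h3 | h3 <;> rcases h6 with h6 | h6 <;> rw [h3, h6] at h1 ⊢
    · exact absurd rfl h1
    · norm_num
    · norm_num
    · norm_num at h1
  have hΦ2 : Φ (span {p2 D s}) = -D.NK (p2 D s : M) := by
    rw [hΦ.span_eq _ hne, kp_one hD hR, mul_one, hsg]
    push_cast
    ring
  have h := remove_p2 hD hb hZd hZd'.diff hZ hser
  rw [h, hΦ2, map_neg, neg_div, conj_NK_p2 hD s, sub_neg_eq_add]

/-- [INT-8] **the value for two exceptional primes** -/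
theorem i8_val (Ψ : PsiDat D) {s : Bool} {d : M} {T : Finset (HeightOneSpectrum (𝓞 M))} {z : HeightOneSpectrum (𝓞 M) → 𝓞 M} {ε : (𝓞 L)ˣ} {i j : Bool}
    (H : DK D s d T z ε i j) (hd : d ≠ 0) (hn : ∀ s, ¬ Nsq D s d) (hT : T.Nonempty)
    {V : ValuationSubring ℂ} (h2 : V.valuation 2 < 1) (hs : V.valuation (c1 s) < 1)
    {κ₀ : ℂ} (hκ₀ : κ₀ ^ 4 = E4f tau0 ^ Module.finrank ℚ L)
    {Φ : Ideal (𝓞 M) →*₀ ℂ} (hΦ : PhiK D s T (kp (cd D s T z ε) i) (kp (ε : 𝓞 L) j) Φ)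
    {Z : ℂ → ℂ} (hZd : Differentiable ℂ Z)
    (hZ : ∀ t : ℂ, 3 / 2 < t.re → Z t = ∑' I : Ideal (𝓞 M), conj (Φ I) * (absNorm I : ℂ) ^ (-t)) :
    ∃ ζ : ℂ, V.valuation ζ ≤ 1 ∧ V.valuation (Z 1 / (KL L * κ₀)) ^ 2 * V.valuation 2 ^ 4 =
        V.valuation 2 ^ (2 * T.card + 2 * Module.finrank ℚ L) * V.valuation ζ ^ 2 := by
  have ha : V.valuation (2 : ℂ) ≠ 0 := by
    rw [Ne, map_eq_zero]
    exact two_ne_zero
  by_cases h0 : Z 1 = 0
  · refine ⟨0, by rw [map_zero]; exact zero_le, ?_⟩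
    rw [h0, zero_div, map_zero, zero_pow two_ne_zero, zero_mul, mul_zero]
  have hR := f3_unr hD H hd (hn (!s))
  have hR' := i8_unr hD H hd (hn s)
  have hj : j = false := by
    by_contra h
    exact hR' (Or.inl (by simpa using h))
  have hG := i8_GT hD H hT hR hR' (hn s)
  obtain ⟨P0⟩ := exists_psiZ hD Ψ s
  have hXe : ∀ P : HeightOneSpectrum (𝓞 M), ∃ X : Ideal (𝓞 M) →*₀ ℤ, P ∈ T → LamE D s P X := by
    intro P
    by_cases hP : P ∈ T
    · obtain ⟨X, hX⟩ := exists_lamE hD s (H.two P hP)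
      exact ⟨X, fun _ => hX⟩
    · exact ⟨1, fun h => absurd h hP⟩
  choose X hX using hXe
  have hX' : ∀ P ∈ T, LamE D s P (X P) := fun P hP => hX P hP
  obtain ⟨Y, hY⟩ := exists_lamT hD s j
  have hY' : LamF D s (FK D s (kp (cd D s T z ε) i) j) Y := by
    rw [kp_one hD hR]
    exact hY
  obtain ⟨Zd, hZd'⟩ := exists_ZY hD P0 H.two hX' (Or.inr rfl) hY T
  have hdep := i8_dep hD H hR' (hn s) P0 hX' hY' hZd' hΦ hZd hZ
  have hZE : ZE P0 X T T Zd := by
    refine ⟨hZd'.diff, fun t ht => ?_⟩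
    rw [hZd'.eq t ht]
    refine tsum_congr fun I => ?_
    by_cases hI : I ≤ span {p2 D s}
    · simp only [(P0.zero_iff I).2 hI, map_zero, zero_mul]
    · obtain ⟨x, hx, -, hYI⟩ := hY.pow I hI
      have h1 : Y I = 1 := by
        rw [hYI, hj]
        show (1 : ℤ) * (if false = true then _ else 1) = 1
        rw [if_neg Bool.false_ne_true, mul_one]
      rw [h1, mul_one]
  have hv := val_O hD P0 Ψ h2 hs hκ₀ H.two hX' H.ng hT hZE
  unfold GT at hG
  rw [if_neg hR, if_neg (by rw [hj]; exact Bool.false_ne_true)] at hG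
  rw [hG] at hv
  unfold zl at hv
  rw [if_pos rfl, sub_zero] at hv
  set ζ : ℂ := 2 * Zd 1 / (2 ^ Module.finrank ℚ L * (KL L * κ₀)) / 2 ^ T.card with hζ
  have h4 := h4_alg (V := V) 2 (Zd 1) (KL L * κ₀) (Module.finrank ℚ L) T.card
  rw [← hζ] at h4
  have h5 : V.valuation (Zd 1 / (KL L * κ₀)) = V.valuation 2 ^ 2 * V.valuation (Z 1 / (KL L * κ₀)) := by
    rw [hdep, mul_div_assoc, map_mul, i8_unit hs hD.odd]
  have h6 : V.valuation 2 ^ (2 * T.card + 2 * Module.finrank ℚ L) * V.valuation ζ ^ 2 =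
      V.valuation 2 ^ 6 * V.valuation (Z 1 / (KL L * κ₀)) ^ 2 := by
    rw [h4, h5, mul_pow, ← mul_assoc, ← pow_mul, ← pow_add]
  -- the parity
  obtain ⟨k, hk⟩ := i7_val hD Ψ H hR hR' hΦ hZd hZ h0 h2 hs
  have h7 := f1_val (L := L) h2 hκ₀ (Z 1)
  have e7 : Z 1 * ((√|(discr L : ℝ)| : ℝ) : ℂ) / ((TRS.Om : ℝ) : ℂ) ^ Module.finrank ℚ L = XZ L (Z 1) := by
    unfold XZ
    rw [mul_div_assoc]
  rw [e7, hk] at h7
  rw [← h7] at h6
  have h8 : V.valuation ζ ^ 2 = (V.valuation 2 ^ (k + 3 - (T.card : ℤ))) ^ 2 := by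
    apply mul_left_cancel₀ (pow_ne_zero (2 * T.card + 2 * Module.finrank ℚ L) ha)
    rw [h6]
    simp only [← zpow_natCast, ← zpow_mul, ← zpow_add₀ ha]
    congr 1
    push_cast
    ring
  have h9 : V.valuation ζ = V.valuation 2 ^ (k + 3 - (T.card : ℤ)) := (pow_left_inj₀ zero_le zero_le two_ne_zero).1 h8
  have h10 : 1 ≤ k + 3 - (T.card : ℤ) := by
    by_contra hcon
    push Not at hcon
    have h11 : k + 3 - (T.card : ℤ) ≤ 0 := by omega
    rw [h9] at hv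
    have h12 := (zpow_right_strictAnti₀ (zero_lt_iff.2 ha) h2).antitone h11
    rw [zpow_zero] at h12
    exact absurd hv (not_lt.2 h12)
  refine ⟨ζ / 2, ?_, ?_⟩
  · rw [map_div₀, h9, div_le_one₀ (zero_lt_iff.2 ha)]
    have h12 := (zpow_right_strictAnti₀ (zero_lt_iff.2 ha) h2).antitone h10
    rwa [zpow_one] at h12
  · apply mul_right_cancel₀ (pow_ne_zero 2 ha)
    rw [map_div₀ V.valuation ζ 2, div_pow, mul_assoc, mul_assoc, div_mul_cancel₀ _ (pow_ne_zero 2 ha), h6, h7, ← pow_add]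
    exact mul_comm _ _

end

end TRZ
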