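import Pool.Agent.TRZ.I8
import Pool.Agent.TRZ.INTD
import Pool.Agent.TRZ.CL2

/-! # [INT-9] integrality at `2` for all twists over `M` -/

set_option autoImplicit false
set_option linter.unusedSectionVars false

open NumberField Ideal IsDedekindDomain
open scoped Real Classical ComplexConjugate
open TR TRG TRP TTS TU TT CM27 CMT GE

namespace TRZ

section
variable {L M : Type} [Field L] [NumberField L] [Field M] [NumberField M] [Algebra L M]
  [IsTotallyReal L] {D : Dat L M} (hD : Od2 D)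
include hD

/-- from the valuation of the rational number to the integrality -/
theorem i9_core {s : Bool} {d : M} {T : Finset (HeightOneSpectrum (𝓞 M))}
    {z : HeightOneSpectrum (𝓞 M) → 𝓞 M} {ε : (𝓞 L)ˣ} {i j : Bool} (H : DK D s d T z ε i j) (hd : d ≠ 0)
    {Φ : Ideal (𝓞 M) →*₀ ℂ} (hΦ : PhiK D s T (kp (cd D s T z ε) i) (kp (ε : 𝓞 L) j) Φ)
    {Z : ℂ → ℂ} (hZd : Differentiable ℂ Z)
    (hZ : ∀ t : ℂ, 3 / 2 < t.re → Z t = ∑' I : Ideal (𝓞 M), conj (Φ I) * (absNorm I : ℂ) ^ (-t))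
    {E : WeierstrassCurve M} {C C' : WeierstrassCurve.VariableChange M} (hE : E = C • TTS.Ws d) (hE' : E = C' • Wd d)
    (htor : ∃ m : ℕ, (m = 0 ∨ Odd m) ∧ Nat.card (AddCommGroup.torsion (C • TTS.Ws d).toAffine.Point) = 4 * m)
    {V : ValuationSubring ℂ} (hV : V.valuation 2 < 1) {W : V.ValueGroup} (hW : W ≤ 1)
    (hv : ∀ Q : ℚ, Z 1 * conj (Z 1) * ((√|(discr L : ℝ)| : ℝ) : ℂ) ^ 2 *
        ((√((NN (L := L) T i j : ℕ) : ℝ) : ℝ) : ℂ) /
        ((TRS.Om : ℝ) : ℂ) ^ (2 * Module.finrank ℚ L) = Q → V.valuation (Q : ℂ) *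
          V.valuation 2 ^ (2 * Module.finrank ℚ L + 2 * nu2 (cd D s T z ε) (ε : 𝓞 L) i j) =
      V.valuation 2 ^ (2 * T.card + Module.finrank ℚ L * nu2 (cd D s T z ε) (ε : 𝓞 L) i j) * W) :
    XTB.IntTwo E := by
  refine ⟨TRB.m1_ell hd hE, ?_⟩
  have hser := series_K hD H hΦ hZd hZ C'
  rw [← hE'] at hser
  obtain ⟨Q0, hQ0⟩ := rational_K hD H hΦ hZd hZ
  have hvQ := hv Q0 hQ0
  set g := Module.finrank ℚ L with hg
  set n := T.card with hn
  obtain ⟨u, hu⟩ : ∃ u : ℕ, u = nu2 (cd D s T z ε) (ε : 𝓞 L) i j := ⟨_, rfl⟩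
  obtain ⟨r, hr⟩ : ∃ r : ℕ, r = nr (cd D s T z ε) (ε : 𝓞 L) i j := ⟨_, rfl⟩
  have hur : u + r = 2 := by
    rw [hu, hr]
    unfold nr nu2
    split_ifs <;> rfl
  rw [← hu] at hvQ
  obtain ⟨N, hN'⟩ : ∃ N : ℕ, N = NN (L := L) T i j := ⟨_, rfl⟩
  have hN0 : N ≠ 0 := by
    rw [hN']
    unfold NN
    have h3 : ∏ P ∈ T, absNorm P.asIdeal ≠ 0 := by
      rw [Finset.prod_ne_zero_iff]
      intro P _ h4
      exact P.ne_bot (Ideal.absNorm_eq_zero_iff.1 h4)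
    exact mul_ne_zero (mul_ne_zero (pow_ne_zero _ (by norm_num)) h3) (pow_ne_zero _ two_ne_zero)
  rw [← hN'] at hQ0
  have ha : V.valuation (2 : ℂ) ≠ 0 := by
    rw [Ne, map_eq_zero]
    exact two_ne_zero
  -- the valuation of the rational number
  have hle : Q0 ≠ 0 → 2 * (n : ℤ) + g * u ≤ padicValRat 2 Q0 + (2 * g + 2 * u) := by
    intro hQ0
    have h4 : V.valuation (Q0 : ℂ) * V.valuation 2 ^ (2 * g + 2 * u) ≤ V.valuation 2 ^ (2 * n + g * u) := by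
      rw [hvQ]
      exact mul_le_of_le_one_right' hW
    rw [z2_val hV hQ0, ← zpow_natCast, ← zpow_natCast, ← zpow_add₀ ha] at h4
    have h5 := (zpow_right_strictAnti₀ (zero_lt_iff.2 ha) hV).le_iff_ge.1 h4
    push_cast at h5
    linarith
  -- the quotient
  obtain ⟨qP, hqP, hqP2, hper⟩ := period_K hD H C
  obtain ⟨m, hm, hcard⟩ := htor
  have htam := tam_K hD H C
  rw [← hE] at hper hcard htam
  rw [← hN'] at hper
  rw [← hr] at hqP2
  rw [← hn, ← hr] at htam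
  have hqP0 : qP ≠ 0 := hqP.ne'
  have hsN0 : √(N : ℝ) ≠ 0 := (Real.sqrt_pos.2 (by exact_mod_cast Nat.pos_of_ne_zero hN0)).ne'
  have hquot : SBSD2.bsdQuotient E (Z 1 * conj (Z (conj 1))) =
      ((Q0 * (4 * (m : ℚ)) ^ 2 / (qP * 4 ^ (n + r)) : ℚ) : ℂ) := by
    have hper' : SBSD.period E = (qP : ℝ) * √7 ^ g * TRS.Om ^ (2 * g) / √(N : ℝ) := by
      rw [← hper, mul_div_cancel_right₀ _ hsN0]
    have hdiscr := TRB.f6_discr (TRB.ofTR D)
    rw [← hg] at hdiscr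
    have hOm : ((TRS.Om : ℝ) : ℂ) ^ g ≠ 0 := by
      apply pow_ne_zero
      exact_mod_cast TRS.Om_pos.ne'
    have h7 : ((√7 : ℝ) : ℂ) ^ g ≠ 0 := by
      apply pow_ne_zero
      rw [Complex.ofReal_ne_zero]
      exact (Real.sqrt_pos.2 (by norm_num)).ne'
    have hsNC : ((√(N : ℝ) : ℝ) : ℂ) ≠ 0 := by rw [Complex.ofReal_ne_zero]; exact hsN0
    have hqPC : (qP : ℂ) ≠ 0 := by exact_mod_cast hqP0
    have h4C : (4 : ℂ) ^ (n + r) ≠ 0 := pow_ne_zero _ (by norm_num)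
    have hQ : Z 1 * conj (Z 1) * ((√|(discr L : ℝ)| : ℝ) : ℂ) ^ 2 * ((√(N : ℝ) : ℝ) : ℂ) =
        (Q0 : ℂ) * (((TRS.Om : ℝ) : ℂ) ^ g) ^ 2 := by
      rw [← hQ0, ← pow_mul, mul_comm g 2, div_mul_cancel₀]
      rw [mul_comm 2 g, pow_mul]
      exact pow_ne_zero _ hOm
    unfold SBSD2.bsdQuotient
    rw [hcard, htam, hper', hdiscr, map_one]
    push_cast
    rw [mul_comm 2 g, pow_mul]
    generalize ((TRS.Om : ℝ) : ℂ) ^ g = A at hQ hOm ⊢
    generalize ((√|(discr L : ℝ)| : ℝ) : ℂ) = Y at hQ ⊢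
    generalize ((√7 : ℝ) : ℂ) ^ g = B at h7 ⊢
    generalize ((√(N : ℝ) : ℝ) : ℂ) = W at hQ hsNC ⊢
    generalize (4 : ℂ) ^ (n + r) = F at h4C ⊢
    field_simp
    linear_combination (m : ℂ) ^ 2 * hQ
  have : Fact (Nat.Prime 2) := ⟨Nat.prime_two⟩
  have h4v : padicValRat 2 (4 : ℚ) = 2 := by
    rw [show (4 : ℚ) = 2 ^ 2 by norm_num, padicValRat.pow, q1_v2]
    norm_num
  have h4Q : (4 : ℚ) ^ (n + r) ≠ 0 := pow_ne_zero _ four_ne_zero
  have hval : ∀ (h0 : Q0 * (4 * (m : ℚ)) ^ 2 / (qP * 4 ^ (n + r)) ≠ 0),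
      padicValRat 2 (Q0 * (4 * (m : ℚ)) ^ 2 / (qP * 4 ^ (n + r))) = padicValRat 2 Q0 + 4 - 2 * (n + r) + g * r := by
    intro h0
    have hQ00 : Q0 ≠ 0 := by
      rintro rfl
      exact h0 (by ring)
    have hm0 : (m : ℚ) ≠ 0 := by
      intro h1
      exact h0 (by rw [h1]; ring)
    have hmo : Odd m := by
      rcases hm with h1 | h1
      · exact absurd (by exact_mod_cast h1) hm0
      · exact h1
    have hmv : padicValRat 2 (m : ℚ) = 0 := q1_odd hmo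
    rw [padicValRat.div (mul_ne_zero hQ00 (pow_ne_zero _ (mul_ne_zero four_ne_zero hm0)))
      (mul_ne_zero hqP0 h4Q), padicValRat.mul hQ00
      (pow_ne_zero _ (mul_ne_zero four_ne_zero hm0)), padicValRat.pow, padicValRat.mul four_ne_zero hm0,
      padicValRat.mul hqP0 h4Q, padicValRat.pow, h4v, hmv, hqP2]
    push_cast
    ring
  have hurZ : (u : ℤ) + r = 2 := by exact_mod_cast hur
  have hbk : 2 * (n : ℤ) + g * u - (2 * g + 2 * u) + 4 - 2 * (n + r) + g * r = 0 := by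
    linear_combination ((g : ℤ) - 2) * hurZ
  refine ⟨_, hser, Q0 * (4 * (m : ℚ)) ^ 2 / (qP * 4 ^ (n + r)), hquot, ?_⟩
  by_cases h0 : Q0 * (4 * (m : ℚ)) ^ 2 / (qP * 4 ^ (n + r)) = 0
  · rw [h0, padicValRat.zero]
  · rw [hval h0]
    have hQ00 : Q0 ≠ 0 := by
      rintro rfl
      exact h0 (by ring)
    have := hle hQ00
    linarith

/-- `-1` is no square in the completion at `ϖ'` -/
theorem i9_sq {d : M} (hd : d ≠ 0) (hn : ∀ s, ¬ Nsq D s d) (s : Bool) : ¬ IsSquare (d * (rs7 D s : M)) := by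
  intro h
  have hn' := hn (!s)
  obtain ⟨T, z, ε, i, j, H, -⟩ := exists_DK hD hd (!s)
  have hsq : IsSquare (-(d * (rs7 D (!s) : M))) := by
    have e : -(d * (rs7 D (!s) : M)) = d * (rs7 D s : M) := by
      rw [c2_rs7_not]
      have e1 : ((-rs7 D s : 𝓞 M) : M) = -(rs7 D s : M) := map_neg _ _
      rw [e1, mul_neg, neg_neg]
    rw [e]
    exact h
  obtain ⟨hT, hR, hj⟩ := f3_triv hD H hd hsq
  have hR' := i8_unr hD H hd hn'
  have hq : Q4 (cd D (!s) T z ε) := by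
    by_contra h
    exact hR (Or.inr h)
  have hq' : Q4 (ε : 𝓞 L) := by
    by_contra h
    exact hR' (Or.inr h)
  have hm1 : (-1 : 𝓞 L) ∉ span {(2 : 𝓞 L)} := by
    have := r6_od_unit hD (-1)
    rwa [Units.val_neg, Units.val_one] at this
  have h1 := H.r6_neg hD
  rw [tp_comm hD (-1) (ε : 𝓞 L), tp_comm hD (-1) (cd D (!s) T z ε), tp_q4 hD hq hm1, tp_q4 hD hq' hm1, hT, Finset.prod_empty] at h1
  norm_num at h1

/-- [INT-9] **two exceptional primes: the quotient is integral at `2`** -/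
theorem i9_two (Ψ : PsiDat D) {d : M} (hd : d ≠ 0) (hn : ∀ s, ¬ Nsq D s d) {E : WeierstrassCurve M}
    {C C' : WeierstrassCurve.VariableChange M} (hE : E = C • TTS.Ws d) (hE' : E = C' • Wd d) :
    XTB.IntTwo E := by
  have hsq := i9_sq hD hd hn
  obtain ⟨V, hV⟩ := exists_V
  obtain ⟨s, hc⟩ := f1_side hV
  obtain ⟨T, z, ε, i, j, H, -⟩ := exists_DK hD hd s
  have hTn := f4_ne hD H hd (hn (!s)) (f4_neg hD (hsq (!s)))
  obtain ⟨Φ, hΦ⟩ := exists_PhiK hD H Ψ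
  obtain ⟨Z, hZd, hZ⟩ := exists_ZK hD H hΦ
  obtain ⟨κ, hκ⟩ := IsAlgClosed.exists_pow_nat_eq (E4f tau0 ^ Module.finrank ℚ L) (n := 4) (by norm_num)
  obtain ⟨ζ, h1, h1'⟩ := i8_val hD Ψ H hd hn hTn hV hc hκ hΦ hZd hZ
  have hfe := DK.fe hD H hV hc hΦ hZd hZ
  have hR := f3_unr hD H hd (hn (!s))
  have hR' := i8_unr hD H hd (hn s)
  have hi : i = false := by
    by_contra h
    exact hR (Or.inl (by simpa using h))
  have hj : j = false := by
    by_contra h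
    exact hR' (Or.inl (by simpa using h))
  have ha : V.valuation (2 : ℂ) ≠ 0 := by
    rw [Ne, map_eq_zero]
    exact two_ne_zero
  refine i9_core hD H hd hΦ hZd hZ hE hE' (tor_K' hD hd hsq C) hV (W := V.valuation ζ * V.valuation ζ) (mul_le_one' h1 h1) ?_
  intro Q hQ
  have hc1 : ∀ (c : 𝓞 L) (i : Bool), ce c i + 2 * (if Rm c i then 0 else 1) = 2 + (if i then 1 else 0) := by
    intro c i
    unfold ce
    by_cases h : Rm c i
    · rw [if_pos h, if_pos h]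
      cases i <;> rfl
    · have h5 : ¬ (i = true) := fun h6 => h (Or.inl h6)
      rw [if_neg h, if_neg h, if_neg h5]
  have hx := f1_val (L := L) hV hκ (Z 1)
  have hr := f2_sqrt (V := V) hV (N := 7 ^ Module.finrank ℚ L * ∏ P ∈ T, absNorm P.asIdeal)
    ((Odd.pow (by decide)).mul (f2_odd_norm hD H)) (M' := NN (L := L) T i j) rfl
  have hfe' : V.valuation (Z 1 * ((√|(discr L : ℝ)| : ℝ) : ℂ) / ((TRS.Om : ℝ) : ℂ) ^ Module.finrank ℚ L) ^ 2 *
        V.valuation 2 ^ (Module.finrank ℚ L * ce (cd D s T z ε) i) =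
      V.valuation 2 ^ (Module.finrank ℚ L * ce (ε : 𝓞 L) j) *
        V.valuation (conj (Z 1) * ((√|(discr L : ℝ)| : ℝ) : ℂ) / ((TRS.Om : ℝ) : ℂ) ^ Module.finrank ℚ L) ^ 2 := by
    rw [mul_div_assoc, mul_div_assoc, map_mul, map_mul, mul_pow, mul_pow, mul_right_comm, hfe, mul_assoc]
  have h1'' : V.valuation (Z 1 / (KL L * κ)) ^ 2 * V.valuation 2 ^ (2 * (if Rm (ε : 𝓞 L) j then 0 else 1) +
      (Module.finrank ℚ L * (if i then 1 else 0) + 2 * (if Rm (cd D s T z ε) i then 0 else 1))) =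
      V.valuation 2 ^ (2 * T.card + 2 * Module.finrank ℚ L * (if Rm (cd D s T z ε) i then 0 else 1)) * V.valuation ζ ^ 2 := by
    rw [if_neg hR, if_neg hR', hi, if_neg Bool.false_ne_true, mul_zero, mul_one, mul_one, zero_add]
    exact h1'
  have h7 := f4_key (hc1 _ i) (hc1 _ j) ha hx hfe' hr h1''
  unfold nu2
  rw [← h7]
  congr 2
  rw [← hQ, two_mul, pow_add]
  ring

/-- [INT-9] **the quotient is integral at `2`** -/
theorem i9_all (Ψ : PsiDat D) {d : M} (hd : d ≠ 0) {E : WeierstrassCurve M}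
    {C C' : WeierstrassCurve.VariableChange M} (hE : E = C • TTS.Ws d) (hE' : E = C' • Wd d) :
    XTB.IntTwo E := by
  by_cases hN : ∃ s, Nsq D s d
  · exact XTB.IntTwo.of_modTwo (modTwo_one hD Ψ hd hN hE hE')
  · push Not at hN
    exact i9_two hD Ψ hd hN hE hE'

theorem int_modM {E : WeierstrassCurve M} (hE : ∃ _ : E.IsElliptic, E.j = -3375) : XTB.IntTwo E := by
  obtain ⟨hell, hj⟩ := hE
  obtain ⟨d, C, C', hd, hC, hC'⟩ := exists_Ws E hj
  obtain ⟨Ψ⟩ := D.exists_psi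
  exact i9_all hD Ψ hd hC hC'

end

end TRZ
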