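import Pool.Agent.TRZ.R5a
import Mathlib.NumberTheory.Zsqrtd.Basic

/-! # [ALL2-R5] explicit reciprocity at `2`, second part: two primes above `2` -/

set_option autoImplicit false
set_option linter.unusedSectionVars false

open NumberField Ideal IsDedekindDomain UniqueFactorizationMonoid
open scoped Classical nonZeroDivisors
open TR TT TRP

namespace TRZ

section
variable {L : Type} [Field L] [NumberField L]

/-- the norm of `x² - 2 y²` is a norm from `ℤ[√2]` -/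
theorem r5_norm (x y : 𝓞 L) : ∃ u v : ℤ, Algebra.norm ℤ (x ^ 2 - 2 * y ^ 2) = u * u - 2 * v * v := by
  let b := RingOfIntegers.basis L
  let ι := Module.Free.ChooseBasisIndex ℤ (𝓞 L)
  let A : Matrix ι ι ℤ := Algebra.leftMulMatrix b x
  let B : Matrix ι ι ℤ := Algebra.leftMulMatrix b y
  have hAB : A * B = B * A := by
    show Algebra.leftMulMatrix b x * Algebra.leftMulMatrix b y = Algebra.leftMulMatrix b y * Algebra.leftMulMatrix b x
    rw [← map_mul, ← map_mul, mul_comm]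
  have h1 : Algebra.leftMulMatrix b (x ^ 2 - 2 * y ^ 2) = A * A - (B * B + B * B) := by
    show _ = Algebra.leftMulMatrix b x * Algebra.leftMulMatrix b x -
      (Algebra.leftMulMatrix b y * Algebra.leftMulMatrix b y + Algebra.leftMulMatrix b y * Algebra.leftMulMatrix b y)
    rw [← map_mul, ← map_mul, ← map_add, ← map_sub]
    congr 1
    ring
  let φ : ℤ →+* Zsqrtd 2 := Int.castRingHom (Zsqrtd 2)
  let r : Zsqrtd 2 := Zsqrtd.sqrtd
  have hr : r * r = 2 := by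
    have h := Zsqrtd.dmuld (d := 2)
    exact_mod_cast h
  let A' : Matrix ι ι (Zsqrtd 2) := φ.mapMatrix A
  let B' : Matrix ι ι (Zsqrtd 2) := φ.mapMatrix B
  have hAB' : A' * B' = B' * A' := by
    show φ.mapMatrix A * φ.mapMatrix B = φ.mapMatrix B * φ.mapMatrix A
    rw [← map_mul, hAB, map_mul]
  have h2 : (A' + r • B') * (A' - r • B') = φ.mapMatrix (A * A - (B * B + B * B)) := by
    rw [map_sub, map_add, map_mul, map_mul]
    show _ = A' * A' - (B' * B' + B' * B')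
    have e : (A' + r • B') * (A' - r • B') = A' * A' - r • (A' * B') + (r • (B' * A') - (r * r) • (B' * B')) := by
      rw [add_mul, mul_sub, mul_sub, Matrix.smul_mul, Matrix.mul_smul, Matrix.mul_smul, Matrix.smul_mul, smul_smul]
    rw [e, hAB', hr, two_smul]
    abel
  have h3 : (starRingEnd (Zsqrtd 2)) (A' + r • B').det = (A' - r • B').det := by
    rw [RingHom.map_det]
    congr 1
    have hs : (starRingEnd (Zsqrtd 2)) (Zsqrtd.sqrtd) = -Zsqrtd.sqrtd := rfl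
    ext i j
    · simp [A', B', φ, r, RingHom.mapMatrix_apply, hs]
    · simp [A', B', φ, r, RingHom.mapMatrix_apply, hs]
  have h4 : ((Algebra.norm ℤ (x ^ 2 - 2 * y ^ 2) : ℤ) : Zsqrtd 2) = ((A' + r • B').det.norm : ℤ) := by
    rw [Algebra.norm_eq_matrix_det b, h1, Zsqrtd.norm_eq_mul_conj]
    have h5 : star (A' + r • B').det = (A' - r • B').det := h3
    rw [h5, ← Matrix.det_mul, h2]
    exact RingHom.map_det φ _
  have h5 : Algebra.norm ℤ (x ^ 2 - 2 * y ^ 2) = (A' + r • B').det.norm := by exact_mod_cast h4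
  exact ⟨(A' + r • B').det.re, (A' + r • B').det.im, h5⟩

theorem r5_t8 {x y : 𝓞 L} (h : t8 (x ^ 2 - 2 * y ^ 2) ≠ 0) : t8 (x ^ 2 - 2 * y ^ 2) = 1 := by
  obtain ⟨u, v, huv⟩ := r5_norm x y
  unfold t8 at h ⊢
  rw [huv] at h ⊢
  push_cast at h ⊢
  have key : ∀ a b : ZMod 8, ZMod.χ₈ (a * a - 2 * b * b) ≠ 0 → ZMod.χ₈ (a * a - 2 * b * b) = 1 := by decide
  exact key _ _ h

end

section
variable {F : Type} [Field F] [NumberField F] [IsTotallyComplex F]
variable {V V' : HeightOneSpectrum (𝓞 F)} {p p' : 𝓞 F}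

theorem r5_q (D : Dy V p p') : p ^ 2 - p + 2 = 0 := by
  have h1 := D.mul
  have h2 : p' = 1 - p := by rw [← D.add]; ring
  rw [h2] at h1
  linear_combination -h1

theorem r5_p' (D : Dy V p p') : p' = 1 - p := by rw [← D.add]; ring

theorem r5_mix (D : Dy V p p') (D' : Dy V' p' p) (z w : 𝓞 F) : bb (z * p') (w * p) = 1 := by
  by_cases hz : z ∈ V.asIdeal
  · rw [bb_congr_left D.hodd _ (z' := 0) (by rw [sub_zero]; exact D.mem_two hz), bb_zero_left D.hodd]
  by_cases hw : w ∈ V'.asIdeal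
  · rw [bb_congr_right D.hodd _ (w' := 0) (by rw [sub_zero]; exact D'.mem_two hw), bb_zero_right D.hodd]
  apply bb_stein D.hodd (u := w * p + p') (v := z * p' + p) (D'.odd hw) (D.odd hz)
  refine Ideal.mem_span_singleton'.2 ⟨z * w ^ 2 * p + w * z ^ 2 * p' + z * w - z * p' - w * p - 1, ?_⟩
  have hq := r5_q D
  rw [r5_p' D]
  linear_combination (-(p * w * z ^ 2 - p * w ^ 2 * z - w * z ^ 2 + p * w - p * z - w * z + z + 1)) * hq

/-- the reciprocity symbol as a product of local symbols -/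
theorem r5_rs (D : Dy V p p') (D' : Dy V' p' p) {z w a b : 𝓞 F} (ha : Cl z a) (hb : Cl w b)
    (hab : IsCoprime a b) : rs a b = chd 1 (z * w) V * chd 1 (z * w) V' := by
  have hz : z = z * p' + z * p := by rw [r5_p' D]; ring
  have hw : w = w * p' + w * p := by rw [r5_p' D]; ring
  rw [bb_eq D.hodd ha hb hab]
  have h1 : bb z w = bb (z * p' + z * p) (w * p' + w * p) := by rw [← hz, ← hw]
  rw [h1, bb_add_left D.hodd, bb_add_right D.hodd, bb_add_right D.hodd, r5_mix D D', D.bb_val, D'.bb_val,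
    bb_comm D.hodd (z * p) (w * p'), r5_mix D D', mul_one, one_mul]

theorem r5_cl (D : Dy V p p') (D' : Dy V' p' p) {a : 𝓞 F} (ha : IsCoprime a 2) : ∃ z, Cl z a := by
  obtain ⟨s1, h1⟩ := sq_mod D.two a
  obtain ⟨s2, h2⟩ := sq_mod D'.two a
  rw [D.span, Ideal.mem_span_singleton] at h1
  rw [D'.span, Ideal.mem_span_singleton] at h2
  have hp' := r5_p' D
  have h3 : p ∣ (s1 * p' + s2 * p) ^ 2 - a := by
    have e : (s1 * p' + s2 * p) ^ 2 - a = (s1 ^ 2 - a) + p * ((s2 - s1) * (s1 * p' + s2 * p + s1)) := by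
      rw [hp']; ring
    rw [e]
    exact dvd_add h1 (dvd_mul_right _ _)
  have h4 : p' ∣ (s1 * p' + s2 * p) ^ 2 - a := by
    have e : (s1 * p' + s2 * p) ^ 2 - a = (s2 ^ 2 - a) + p' * ((s1 - s2) * (s1 * p' + s2 * p + s2)) := by
      rw [hp']; ring
    rw [e]
    exact dvd_add h2 (dvd_mul_right _ _)
  have h5 : IsCoprime p p' := ⟨1, 1, by rw [one_mul, one_mul]; exact D.add⟩
  obtain ⟨k, hk⟩ := h5.mul_dvd h3 h4
  rw [D.mul] at hk
  generalize s1 * p' + s2 * p = s at hk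
  have hs : IsCoprime s 2 := by
    have h6 : IsCoprime (s ^ 2) 2 := by
      have e : s ^ 2 = a + 2 * k := by linear_combination hk
      rw [e, IsCoprime.add_mul_left_left_iff]
      exact ha
    exact (IsCoprime.pow_left_iff (by norm_num)).1 h6
  obtain ⟨u, v, huv⟩ := hs
  refine ⟨-k * u ^ 2, s, -2 * k * v + 2 * k * v ^ 2, ⟨u, v, huv⟩, ?_⟩
  have e : u * s = 1 - v * 2 := by linear_combination huv
  have e2 : s ^ 2 * (1 + 2 * (-k * u ^ 2)) = s ^ 2 - 2 * k * (u * s) ^ 2 := by ring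
  rw [e2, e]
  linear_combination -hk

/-- elements with symbol `1` -/
theorem r5_stein (D : Dy V p p') {X Y : 𝓞 F} (ha : IsCoprime (X ^ 2 + p * Y ^ 2) 2) (hXY : IsCoprime X Y) :
    sy (-p) (span {X ^ 2 + p * Y ^ 2}) = 1 := by
  have hJ : span {X ^ 2 + p * Y ^ 2} ≠ ⊥ := r2_span_ne ha
  have h2 : IsCoprime (span {(2 : 𝓞 F)}) (span {X ^ 2 + p * Y ^ 2}) := r1_cop.2 ha.symm
  have hY : IsCoprime (X ^ 2 + p * Y ^ 2) Y := by
    have h := (hXY.pow_left (m := 2)).add_mul_left_left (p * Y)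
    rwa [show X ^ 2 + Y * (p * Y) = X ^ 2 + p * Y ^ 2 by ring] at h
  have hp : IsCoprime (X ^ 2 + p * Y ^ 2) p := by
    rw [← D.mul] at ha
    exact ha.of_mul_right_left
  have hX : IsCoprime (X ^ 2 + p * Y ^ 2) X := by
    have h3 : IsCoprime (X ^ 2 + p * Y ^ 2) (p * Y ^ 2) := hp.mul_right hY.pow_right
    have h4 : IsCoprime (X ^ 2 + p * Y ^ 2) (X ^ 2) := by
      have h5 := h3.neg_right.add_mul_left_right 1
      rwa [show -(p * Y ^ 2) + (X ^ 2 + p * Y ^ 2) * 1 = X ^ 2 by ring] at h5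
    exact (IsCoprime.pow_right_iff (by norm_num)).1 h4
  have h3 : sy (-p * Y ^ 2) (span {X ^ 2 + p * Y ^ 2}) = 1 := by
    rw [r1_sy_congr hJ (b := X ^ 2), r1_sy_sq hJ (r1_cop.2 hX.symm)]
    rw [Ideal.mem_span_singleton]
    exact ⟨-1, by ring⟩
  rw [r1_sy_mul_left hJ h2, r1_sy_sq hJ (r1_cop.2 hY.symm), mul_one] at h3
  exact h3

/-- every class contains such an element -/
theorem r5_rep (D : Dy V p p') (z : 𝓞 F) : ∃ X Y : 𝓞 F, IsCoprime X Y ∧ Cl z (X ^ 2 + p * Y ^ 2) := by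
  have hq := r5_q D
  have hp' := r5_p' D
  obtain ⟨x, hx⟩ := sq_mod D.two z
  have h1 := D.mem_two hx
  -- a nonzero second coordinate
  obtain ⟨n, hn⟩ : ∃ n : 𝓞 F, x * p' ^ 2 + z * p ^ 2 + 4 * n ≠ 0 := by
    by_cases h : x * p' ^ 2 + z * p ^ 2 + 4 * 0 = 0
    · refine ⟨1, fun h2 => ?_⟩
      have h3 : (4 : 𝓞 F) = 0 := by linear_combination h2 - h
      exact absurd h3 (by norm_num)
    · exact ⟨0, h⟩
  set Y : 𝓞 F := x * p' ^ 2 + z * p ^ 2 + 4 * n with hY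
  have h2 : IsCoprime (1 + z * p ^ 2 + Y * p ^ 2) 2 := by
    have e : 1 + z * p ^ 2 + Y * p ^ 2 = 1 + 2 * (-(z * p) + 2 * x + 2 * n * p ^ 2) := by
      rw [hY, hp']
      linear_combination (p ^ 2 * x + p ^ 2 * z - p * x + p * z - 2 * x) * hq
    rw [e]
    exact isCoprime_one_left.add_mul_left_left _
  obtain ⟨r, hr⟩ := r3_exists h2 hn
  have h3 : IsCoprime (1 + z * p ^ 2 + 4 * r) Y := by
    have h4 := hr.add_mul_left_left (-p ^ 2)
    rwa [show 1 + z * p ^ 2 + Y * p ^ 2 + 4 * r + Y * -p ^ 2 = 1 + z * p ^ 2 + 4 * r by ring] at h4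
  refine ⟨_, Y, h3, ?_⟩
  have h4 : Cl (x ^ 2 * p' + z * p) (1 + 2 * (x ^ 2 * p' + z * p)) := cl_one _
  have h5 : Cl z (1 + 2 * (x ^ 2 * p' + z * p)) := by
    refine cl_congr ?_ h4
    have e : x ^ 2 * p' + z * p - z = (x ^ 2 - z) * p' := by rw [hp']; ring
    rw [e]
    exact h1
  have h6 := cl_add h5 (-z - z ^ 2 * p ^ 2 + 2 * x * z * p - p' * x ^ 2 - x ^ 2 +
    (2 * r * (1 + z * p ^ 2) + 4 * r ^ 2) + p * (2 * n * (x * p' ^ 2 + z * p ^ 2) + 4 * n ^ 2))
  have e : (1 + z * p ^ 2 + 4 * r) ^ 2 + p * Y ^ 2 = 1 + 2 * (x ^ 2 * p' + z * p) +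
      4 * (-z - z ^ 2 * p ^ 2 + 2 * x * z * p - p' * x ^ 2 - x ^ 2 +
        (2 * r * (1 + z * p ^ 2) + 4 * r ^ 2) + p * (2 * n * (x * p' ^ 2 + z * p ^ 2) + 4 * n ^ 2)) := by
    rw [hY, hp']
    linear_combination (2 * p ^ 3 * x * z + p ^ 3 * x ^ 2 + p ^ 3 * z ^ 2 - 2 * p ^ 2 * x * z - 3 * p ^ 2 * x ^ 2 +
      2 * p ^ 2 * z ^ 2 - 4 * p * x * z + p * x ^ 2 + 3 * x ^ 2 + 2 * z) * hq
  rw [e]
  exact h6

theorem chd_scale {v : HeightOneSpectrum (𝓞 F)} {t c c' : 𝓞 F} (ht : t ∉ v.asIdeal)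
    (h : t ^ 2 * c' - c ∈ v.asIdeal) : chd t c v = chd 1 c' v := by
  unfold chd
  refine if_congr ?_ rfl rfl
  constructor
  · rintro ⟨b, hb⟩
    obtain ⟨g, i, hi, hgi⟩ := v.isMaximal.exists_inv ht
    refine ⟨g * b, ?_⟩
    have h1 : t ^ 2 * ((g * b) ^ 2 - 1 * (g * b) - c') ∈ v.asIdeal := by
      have e : t ^ 2 * ((g * b) ^ 2 - 1 * (g * b) - c') = (b ^ 2 - t * b - c) - (t ^ 2 * c' - c) +
          i * (-(1 + g * t) * b ^ 2 + t * b) := by
        have hi' : i = 1 - g * t := by rw [← hgi]; ring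
        rw [hi']
        ring
      rw [e]
      exact v.asIdeal.add_mem (v.asIdeal.sub_mem hb h) (v.asIdeal.mul_mem_right _ hi)
    rcases v.isPrime.mem_or_mem h1 with h2 | h2
    · exact absurd (v.isPrime.mem_of_pow_mem _ h2) ht
    · exact h2
  · rintro ⟨b, hb⟩
    refine ⟨t * b, ?_⟩
    have e : (t * b) ^ 2 - t * (t * b) - c = t ^ 2 * (b ^ 2 - 1 * b - c') + (t ^ 2 * c' - c) := by ring
    rw [e]
    exact v.asIdeal.add_mem (v.asIdeal.mul_mem_left _ hb) h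

theorem chd_congr {v : HeightOneSpectrum (𝓞 F)} {t c c' : 𝓞 F} (h : c - c' ∈ v.asIdeal) :
    chd t c v = chd t c' v := by
  unfold chd
  refine if_congr (exists_congr fun b => ?_) rfl rfl
  constructor
  · intro hb
    have h1 := v.asIdeal.add_mem hb h
    rwa [show b ^ 2 - t * b - c + (c - c') = b ^ 2 - t * b - c' by ring] at h1
  · intro hb
    have h1 := v.asIdeal.sub_mem hb h
    rwa [show b ^ 2 - t * b - c' - (c - c') = b ^ 2 - t * b - c by ring] at h1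

end

end TRZ
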