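import Pool.Agent.TRZ.F4
import Pool.Agent.TRZ.RES
import Pool.Agent.TRZ.FD15

/-! # [FE] the final statements, at most one exceptional prime above `2` -/

set_option autoImplicit false

open NumberField IsDedekindDomain XTR XTS Filter Topology
open scoped Classical

namespace XTB

open TRB

section
variable {L : Type} [Field L] [NumberField L] (hL : Admissible L) (h2 : (Ideal.span {(2 : 𝓞 L)}).IsPrime)
  (ho : Odd (Module.finrank ℚ L)) {M : Type} [Field M] [NumberField M] [Algebra L M]
  (hM : Module.finrank L M = 2) (hr : ∃ r : M, r ^ 2 = -7)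
include hL h2 ho hM hr

/-- the conjecture modulo `2` over `M`, at most one exceptional prime above `2` -/
theorem gen1_modTwo {E : WeierstrassCurve M} (hE : GenOne E) : ModTwo E := by
  have : IsTotallyReal L := hL.real
  obtain ⟨D, hD⟩ := exists_datOd2 hL h2 ho hM hr
  obtain ⟨hell, hj⟩ := hE.j_eq
  obtain ⟨d, C, C', hd, hC, hC'⟩ := TTS.exists_Ws E hj
  obtain ⟨Ψ⟩ := D.exists_psi
  obtain ⟨h1, h2⟩ := (TRZ.cl1_iff hD hd C).1 (hC ▸ hE)
  exact TRZ.modTwo_K1 hD Ψ hd h1 h2 hC hC'

/-- the proportion of the curves over `M` with at most one exceptional prime above `2` -/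
theorem gen1_prop :
    Tendsto (fun X : ℕ => ((cmFamily M X GenOne).ncard : ℝ) / ((cmFamily M X fun _ => True).ncard : ℝ)) atTop
      (𝓝 (1 - 1 / (6 - 2 / 2 ^ Module.finrank ℚ L) ^ 2)) := by
  have : IsTotallyReal L := hL.real
  obtain ⟨D, hD⟩ := exists_datOd2 hL h2 ho hM hr
  exact (TRZ.fe_prop hD (fun d hd C => TRZ.cl1_iff hD hd C)).2

end

end XTB
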