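import Pool.Agent.TRZ.CL2
import Pool.Agent.TRZ.RES
import Pool.Agent.TRR.RES

/-! # [FE] the final statements, at most one exceptional prime above `2`, no condition on the torsion -/

set_option autoImplicit false

open NumberField IsDedekindDomain XTR XTS Filter Topology
open scoped Classical

namespace XTB

open TRB

section
variable {L : Type} [Field L] [NumberField L] (hL : Admissible L) (h2 : (Ideal.span {(2 : 𝓞 L)}).IsPrime)
  (ho : Odd (Module.finrank ℚ L)) {M : Type} [Field M] [NumberField M] [Algebra L M]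
  (hM : Module.finrank L M = 2) (hr : ∃ r : M, r ^ 2 = -7)
include hL h2 ho hM hr

/-- the conjecture modulo `2` over `M` -/
theorem ex_modTwo {E : WeierstrassCurve M} (hE : GenEx E) : ModTwo E := by
  have : IsTotallyReal L := hL.real
  obtain ⟨D, hD⟩ := exists_datOd2 hL h2 ho hM hr
  exact TRZ.genEx_modTwo hD hE

/-- over `M`: the curves without exceptional prime -/
theorem GenCurve.ex {E : WeierstrassCurve M} (hE : GenCurve E) : GenEx E := by
  have : IsTotallyReal L := hL.real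
  obtain ⟨D, hD⟩ := exists_datOd2 hL h2 ho hM hr
  obtain ⟨P, hP⟩ := TRZ.h2_exists hD true
  have h3 : (2 : 𝓞 M) ∈ P.asIdeal := TRZ.c1_mem_two (D := D) (s := true) (by rw [hP]; exact Ideal.mem_span_singleton_self _)
  exact ⟨hE.j_eq, P, h3, hE.two P h3⟩

/-- the proportions over `M` -/
theorem ex_density :
    (∀ X : ℕ, (cmFamily M X fun _ => True).Finite) ∧
    Tendsto (fun X : ℕ => ((cmFamily M X GenEx).ncard : ℝ) / ((cmFamily M X fun _ => True).ncard : ℝ)) atTop
      (𝓝 (1 - 1 / (6 - 2 / 2 ^ Module.finrank ℚ L) ^ 2)) ∧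
    Tendsto (fun X : ℕ => (cmFamily M X GenCurve).ncard) atTop atTop ∧
    Tendsto (fun X : ℕ => ((cmFamily M X GenCurve).ncard : ℝ) / ((cmFamily M X fun _ => True).ncard : ℝ)) atTop
      (𝓝 ((1 - 1 / (6 - 2 / 2 ^ Module.finrank ℚ L)) ^ 2)) ∧
    Tendsto (fun X : ℕ => ((cmFamily M X fun E => GenCurve E ∧ FiniteSha E).ncard : ℝ) /
      ((cmFamily M X GenCurve).ncard : ℝ)) atTop (𝓝 (∏' k : ℕ, (1 - 1 / 2 ^ (k + 1)))) := by
  obtain ⟨h3, h4, h5, h6⟩ := gen_density hL h2 ho hM hr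
  have : IsTotallyReal L := hL.real
  obtain ⟨D, hD⟩ := exists_datOd2 hL h2 ho hM hr
  exact ⟨h3, (TRZ.genEx_prop hD).2, h4, h5, h6⟩

end

/-- over `L` both classes are the same -/
theorem ex_iff {L : Type} [Field L] [NumberField L] (h2 : (Ideal.span {(2 : 𝓞 L)}).IsPrime) (E : WeierstrassCurve L) :
    GenEx E ↔ GenCurve E := by
  have h20 : (2 : 𝓞 L) ≠ 0 := two_ne_zero
  have h4 : Ideal.span {(2 : 𝓞 L)} ≠ ⊥ := by rwa [Ne, Ideal.span_singleton_eq_bot]
  have key : ∀ P : HeightOneSpectrum (𝓞 L), (2 : 𝓞 L) ∈ P.asIdeal → P.asIdeal = Ideal.span {(2 : 𝓞 L)} := by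
    intro P hP
    have h3 : Ideal.span {(2 : 𝓞 L)} ≤ P.asIdeal := (Ideal.span_singleton_le_iff_mem _).2 hP
    exact ((h2.isMaximal h4).eq_of_le P.isPrime.ne_top h3).symm
  constructor
  · rintro ⟨hj, P, hP, hg⟩
    refine ⟨hj, fun Q hQ => ?_⟩
    have hPQ : Q = P := HeightOneSpectrum.ext ((key Q hQ).trans (key P hP).symm)
    rw [hPQ]
    exact hg
  · intro hE
    exact ⟨hE.j_eq, ⟨Ideal.span {(2 : 𝓞 L)}, h2, h4⟩, Ideal.mem_span_singleton_self _,
      hE.two _ (Ideal.mem_span_singleton_self _)⟩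

/-- the statement over `L` -/
theorem ex_L {L : Type} [Field L] [NumberField L] (hL : Admissible L) (h2 : (Ideal.span {(2 : 𝓞 L)}).IsPrime)
    (ho : Odd (Module.finrank ℚ L)) {E : WeierstrassCurve L} (hE : GenEx E) : ModTwo E ∧
      ∀ (M : Type) [Field M] [NumberField M] [Algebra L M], Module.finrank L M = 2 →
        (∃ r : M, r ^ 2 = -7) → GenEx (E.baseChange M) ∧ GenCurve (E.baseChange M) ∧
          (FiniteSha E ↔ FiniteSha (E.baseChange M)) := by
  obtain ⟨h3, h4⟩ := gen_L hL h2 ho ((ex_iff h2 E).1 hE)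
  refine ⟨h3, fun M _ _ _ hM hr => ?_⟩
  obtain ⟨h5, h6⟩ := h4 M hM hr
  exact ⟨h5.ex hL h2 ho hM hr, h5, h6⟩

/-- the density theorem over `L` -/
theorem ex_densityL {L : Type} [Field L] [NumberField L] (hL : Admissible L) (h2 : (Ideal.span {(2 : 𝓞 L)}).IsPrime)
    (ho : Odd (Module.finrank ℚ L)) :
    (∀ X : ℕ, (cmFamily L X fun _ => True).Finite) ∧
    Tendsto (fun X : ℕ => (cmFamily L X GenEx).ncard) atTop atTop ∧
    Tendsto (fun X : ℕ => ((cmFamily L X GenEx).ncard : ℝ) / ((cmFamily L X fun _ => True).ncard : ℝ)) atTop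
      (𝓝 (1 - 1 / (6 - 2 / 2 ^ Module.finrank ℚ L))) ∧
    Tendsto (fun X : ℕ => ((cmFamily L X fun E => GenEx E ∧ FiniteSha E).ncard : ℝ) /
      ((cmFamily L X GenEx).ncard : ℝ)) atTop (𝓝 (1 / 4 * ∏' k : ℕ, (1 - 1 / 2 ^ (2 * k + 1)))) := by
  have h : (GenEx : WeierstrassCurve L → Prop) = GenCurve := funext fun E => propext (ex_iff h2 E)
  rw [h]
  exact gen_densityL hL h2 ho

end XTB
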