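import Pool.Agent.TRZ.I11
import Pool.Agent.TRZ.RESX

/-! # [INT] the integrality at `2` of the analytic order, all curves with `j = -3375` -/

set_option autoImplicit false

open NumberField IsDedekindDomain XTR XTS

namespace XTB

/-- [INT] over `M`: for **every** elliptic curve with `j = -3375` the `L`-function is entire and the analytic order predicted by the
conjecture of Birch and Swinnerton-Dyer is integral at `2` -/
theorem int_M {L : Type} [Field L] [NumberField L] (hL : Admissible L) (h2 : (Ideal.span {(2 : 𝓞 L)}).IsPrime)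
    (ho : Odd (Module.finrank ℚ L)) {M : Type} [Field M] [NumberField M] [Algebra L M]
    (hM : Module.finrank L M = 2) (hr : ∃ r : M, r ^ 2 = -7)
    {E : WeierstrassCurve M} (hE : ∃ _ : E.IsElliptic, E.j = -3375) : IntTwo E := by
  have : IsTotallyReal L := hL.real
  obtain ⟨D, hD⟩ := exists_datOd2 hL h2 ho hM hr
  exact TRZ.int_modM hD hE

/-- [INT] over `L` -/
theorem int_L {L : Type} [Field L] [NumberField L] (hL : Admissible L) (h2 : (Ideal.span {(2 : 𝓞 L)}).IsPrime)
    (ho : Odd (Module.finrank ℚ L)) {E : WeierstrassCurve L} (hE : ∃ _ : E.IsElliptic, E.j = -3375) : IntTwo E := by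
  have : IsTotallyReal L := hL.real
  obtain ⟨M, _, _, _, r, hr, gen⟩ := TR.exists_sqrt L
  have hM : Module.finrank L M = 2 := (hL.good.dat hL.inert M r hr gen).finrank_eq_two
  obtain ⟨D, hD⟩ := exists_datOd2 hL h2 ho hM ⟨r, hr⟩
  exact TRZ.int_real hD hE

end XTB
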