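import Pool.Agent.TRZ.FD19
import Pool.Agent.TRZ.RESX

/-! # [FE] the density of the finite groups among the curves over `M` with at most one exceptional prime above `2` -/

set_option autoImplicit false

open NumberField IsDedekindDomain XTR XTS Filter Topology
open scoped Classical

namespace XTB

open TRB

section
variable {L : Type} [Field L] [NumberField L] (hL : Admissible L) (h2 : (Ideal.span {(2 : 𝓞 L)}).IsPrime)
  (ho : Odd (Module.finrank ℚ L)) {M : Type} [Field M] [NumberField M] [Algebra L M]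
  (hM : Module.finrank L M = 2) (hr : ∃ r : M, r ^ 2 = -7)
include hL h2 ho hM hr

/-- the proportions over `M` and the density of the finite groups -/
theorem ex_density2 :
    (∀ X : ℕ, (cmFamily M X fun _ => True).Finite) ∧
    Tendsto (fun X : ℕ => (cmFamily M X GenEx).ncard) atTop atTop ∧
    Tendsto (fun X : ℕ => ((cmFamily M X GenEx).ncard : ℝ) / ((cmFamily M X fun _ => True).ncard : ℝ)) atTop
      (𝓝 (1 - 1 / (6 - 2 / 2 ^ Module.finrank ℚ L) ^ 2)) ∧
    Tendsto (fun X : ℕ => ((cmFamily M X fun E => GenEx E ∧ FiniteSha E).ncard : ℝ) /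
      ((cmFamily M X GenEx).ncard : ℝ)) atTop (𝓝 (∏' k : ℕ, (1 - 1 / 2 ^ (k + 1)))) := by
  have : IsTotallyReal L := hL.real
  obtain ⟨D, hD⟩ := exists_datOd2 hL h2 ho hM hr
  obtain ⟨h3, h4⟩ := TRZ.genEx_prop hD
  obtain ⟨-, h5, h6⟩ := TRZ.fe_density2 hD (Al := GenEx) fun d hd C => TRZ.cl2_iff hD hd C
  exact ⟨h3, h5, h4, h6⟩

end

end XTB
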