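import Pool.Agent.TRZ.C2
import Pool.Agent.TRX2.SL7
import Pool.Agent.TRP.SE3

/-! # [ALL2-SG1] the local conditions above `2` for all types: lemmas -/

set_option autoImplicit false
set_option linter.unusedSectionVars false

open NumberField Ideal IsDedekindDomain
open scoped Real Classical ComplexConjugate
open TR TRG TRP TTS TU TT

namespace TRZ

open WithZero TRX2

/-- the local condition implies the norm form -/
theorem sg_nm {K : Type} [Field K] [CharZero K] {d r z : K} (hr : r ^ 2 = -7)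
    (h : TTS.LocCond d r z) : ∃ u t : K, z = u ^ 2 + d * r * t ^ 2 := by
  rcases h with ⟨c, hc⟩ | ⟨X, Y, h, hX, hs⟩
  · exact ⟨c, 0, by rw [hc]; ring⟩
  obtain ⟨x, hx⟩ : ∃ x : K, x = X - d * e2 r := ⟨_, rfl⟩
  have hx0 : x ≠ 0 := by
    rw [hx]
    exact sub_ne_zero.2 hX
  have hXx : X = d * e2 r + x := by rw [hx]; ring
  rw [hXx, sl1_factor hr] at h
  rw [← hx] at hs
  have h1 : ∃ u t : K, x = u ^ 2 + d * r * t ^ 2 := by
    by_cases hxw : x - d * r * wB r ^ 2 = 0
    · exact ⟨0, wB r, by linear_combination hxw⟩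
    · apply sl1_nm_div hxw
      exact ⟨Y, (1 - wB r ^ 2) * x, by linear_combination -h⟩
  obtain ⟨c, hc⟩ := hs
  apply sl1_nm_div hx0
  have h2 : z * x ^ 2 = c ^ 2 * x := by
    rw [sq, ← mul_assoc, hc]
    ring
  rw [h2]
  exact sl1_nm ⟨c, 0, by ring⟩ h1

section
variable {F : Type} [Field F] [NumberField F]

theorem sg_v2 {v : HeightOneSpectrum (𝓞 F)} (h2 : (2 : 𝓞 F) ∈ v.asIdeal) : v.valuation F (2 : F) < 1 := by
  have h3 : v.valuation F ((2 : 𝓞 F) : F) < 1 := (HeightOneSpectrum.valuation_lt_one_iff_mem v _).2 h2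
  rwa [g1_two] at h3

/-- the type of an element in the completion -/
theorem sg_unr {v : HeightOneSpectrum (𝓞 F)} (h2 : (2 : 𝓞 F) ∈ v.asIdeal) {a : F} (ha : a ≠ 0)
    (h : UnR (Valued.v : Valuation (v.adicCompletion F) (WithZero (Multiplicative ℤ))) (algebraMap F (v.adicCompletion F) a)) :
    Ur v a := by
  obtain ⟨s, c, hc, h⟩ := h
  have hchar : CharZero (v.adicCompletion F) :=
    charZero_of_injective_algebraMap (algebraMap F (v.adicCompletion F)).injective
  set i := algebraMap F (v.adicCompletion F) with hi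
  have hia : i a ≠ 0 := (map_ne_zero _).2 ha
  have hs0 : s ≠ 0 := by
    rintro rfl
    apply hia
    rw [h]
    ring
  have hvs : Valued.v s ≠ (0 : WithZero (Multiplicative ℤ)) := (Valuation.ne_zero_iff _).2 hs0
  have h4 : (4 : v.adicCompletion F) ≠ 0 := by norm_num
  have hv4 : Valued.v (4 : v.adicCompletion F) ≠ (0 : WithZero (Multiplicative ℤ)) := (Valuation.ne_zero_iff _).2 h4
  have hv41 : (Valued.v (4 : v.adicCompletion F) : WithZero (Multiplicative ℤ)) ≤ 1 := by
    have e : (4 : v.adicCompletion F) = 2 * 2 := by norm_num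
    rw [e, map_mul]
    exact mul_le_one' (hr_two_le v) (hr_two_le v)
  obtain ⟨n, hn⟩ := hr_exp (mul_ne_zero hv4 hvs)
  obtain ⟨s0, hs⟩ := hr_dense v s n
  have hs' : Valued.v (s - i s0) < (Valued.v (4 : v.adicCompletion F) * Valued.v s : WithZero (Multiplicative ℤ)) := hs.trans_lt hn
  have hs'' : Valued.v (s - i s0) < (Valued.v s : WithZero (Multiplicative ℤ)) :=
    hs'.trans_le (mul_le_of_le_one_left zero_le hv41)
  have hvs0 : Valued.v (i s0) = (Valued.v s : WithZero (Multiplicative ℤ)) := by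
    have e : i s0 = s - (s - i s0) := by ring
    rw [e, Valuation.map_sub_eq_of_lt_left _ hs'']
  have hs00 : s0 ≠ 0 := by
    rintro rfl
    rw [map_zero, map_zero] at hvs0
    exact hvs hvs0.symm
  have hdiff : Valued.v (i a - i s0 ^ 2) ≤ (Valued.v (4 : v.adicCompletion F) * Valued.v s ^ 2 : WithZero (Multiplicative ℤ)) := by
    have e : i a - i s0 ^ 2 = (s - i s0) * (s + i s0) + 4 * c * s ^ 2 := by
      rw [h]
      ring
    rw [e]
    refine Valuation.map_add_le _ ?_ ?_
    · rw [map_mul, sq, ← mul_assoc]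
      exact mul_le_mul' hs'.le (Valuation.map_add_le _ le_rfl hvs0.le)
    · rw [map_mul, map_mul, map_pow]
      exact mul_le_mul' (mul_le_of_le_one_right' hc) le_rfl
  have hc0 : v.valuation F ((a - s0 ^ 2) / (4 * s0 ^ 2)) ≤ 1 := by
    rw [← hr_val_coe, ← hi, map_div₀, map_sub, map_mul, map_pow, map_ofNat, map_div₀, map_mul, map_pow, hvs0]
    exact div_le_one_of_le₀ hdiff zero_le
  refine TRH.ur_of_form v h2 hs00 hc0 ?_
  field_simp
  ring

/-- two nonsquare unramified classes are equal -/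
theorem sg_two {v : HeightOneSpectrum (𝓞 F)} {a b : F} (ha : Ur v a) (hb : Ur v b)
    (ha' : ¬ IsSquare (algebraMap F (v.adicCompletion F) a)) (hb' : ¬ IsSquare (algebraMap F (v.adicCompletion F) b)) :
    IsSquare (algebraMap F (v.adicCompletion F) (a * b)) := by
  have h1 : sg v a = -1 := (sg_ur ha).resolve_left fun h => ha' (TRX.isSquare_of_Sq v (sg_eq_one_iff.1 h))
  have h2 : sg v b = -1 := (sg_ur hb).resolve_left fun h => hb' (TRX.isSquare_of_Sq v (sg_eq_one_iff.1 h))
  apply TRX.isSquare_of_Sq v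
  rw [← sg_eq_one_iff, sg_mul ha hb, h1, h2]
  norm_num

end

end TRZ
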