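import Pool.Agent.TRZ.SG2
import Pool.Agent.TRP.U

/-! # [ALL2-SG3] the elements `(-ϖ)^m ∏ z_Q`: valuations, symbols, rows -/

set_option autoImplicit false
set_option linter.unusedSectionVars false

open NumberField Ideal IsDedekindDomain
open scoped Real Classical ComplexConjugate
open TR TRG TRP TTS TU TT

namespace TRZ

open WithZero TRX2

/-- a square or `d r` times a square satisfies the local condition -/
theorem sg_loc_of {K : Type} [Field K] [CharZero K] {d r z : K} (hr : r ^ 2 = -7) (hd : d * r ≠ 0)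
    (h : IsSquare z ∨ IsSquare (z * (d * r))) : TTS.LocCond d r z := by
  rcases h with h | h
  · exact Or.inl h
  · right
    refine ⟨d * e2 r + d * r, 0, ?_, ?_, ?_⟩
    · rw [sl1_factor hr, sub_self]
      ring
    · intro h1
      exact hd (by linear_combination h1)
    · rwa [add_sub_cancel_left]

section
variable {L M : Type} [Field L] [NumberField L] [Field M] [NumberField M] [Algebra L M]

/-- the element `(-ϖ)^m ∏_{Q ∈ U} z_Q` -/
noncomputable def sgx (D : Dat L M) (s : Bool) (z : HeightOneSpectrum (𝓞 M) → 𝓞 M) (m : Bool)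
    (U : Finset (HeightOneSpectrum (𝓞 M))) : 𝓞 M := (if m then -(p1 D s) else 1) * ∏ Q ∈ U, z Q

end

section
variable {L M : Type} [Field L] [NumberField L] [Field M] [NumberField M] [Algebra L M]
  [IsTotallyReal L] {D : Dat L M} {s : Bool} {d : M} {T : Finset (HeightOneSpectrum (𝓞 M))}
  {z : HeightOneSpectrum (𝓞 M) → 𝓞 M} {ε : (𝓞 L)ˣ} {i j : Bool} (H : DK D s d T z ε i j)
include H

theorem sgx_prod_not {U : Finset (HeightOneSpectrum (𝓞 M))} (hU : U ⊆ T) {v : HeightOneSpectrum (𝓞 M)} (h : v ∉ U) :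
    ∏ P ∈ U, z P ∉ v.asIdeal := by
  intro hm
  obtain ⟨P, hP, hz⟩ := (v.isPrime.prod_mem_iff).1 hm
  exact H.z_not (hU hP) (fun e => h (by rw [e]; exact hP)) hz

theorem sgx_et (hD : Od2 D) {U : Finset (HeightOneSpectrum (𝓞 M))} (hU : U ⊆ T) (m : Bool) : Et D s (sgx D s z m U) := by
  have h1 : Et D s (∏ Q ∈ U, z Q) := by
    induction U using Finset.induction_on with
    | empty =>
      rw [Finset.prod_empty]
      exact Et.one s
    | insert Q U hQ ih =>
      rw [Finset.prod_insert hQ]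
      exact (H.ng Q (hU (Finset.mem_insert_self _ _))).et.mul' (ih fun x hx => hU (Finset.mem_insert_of_mem hx))
  unfold sgx
  refine Et.mul' ?_ h1
  cases m
  · simp only [Bool.false_eq_true, if_false]
    exact Et.one s
  · simp only [if_true]
    exact sg_et_p1 hD s

/-- the symbol at `ϖ'` -/
theorem sgx_t8 (hD : Od2 D) {U : Finset (HeightOneSpectrum (𝓞 M))} (hU : U ⊆ T) (m : Bool) :
    (t8 (rd8 D s (sgx D s z m U)) = 1 ∨ t8 (rd8 D s (sgx D s z m U)) = -1) ∧
      s5_par (t8 (rd8 D s (sgx D s z m U))) = (if m then 1 else 0) + ∑ Q ∈ U, nv D s z Q := by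
  have hpm : ∀ {x : 𝓞 M}, Et D s x → t8 (rd8 D s x) = 1 ∨ t8 (rd8 D s x) = -1 := by
    intro x hx
    rcases k1_val (rd8 D s x) with h | h | h
    · exfalso
      rw [k1_zero hD.two, rd8_even hD s] at h
      exact hx.notMem hD h
    · exact Or.inl h
    · exact Or.inr h
  have h1 : Et D s (∏ Q ∈ U, z Q) ∧ s5_par (t8 (rd8 D s (∏ Q ∈ U, z Q))) = ∑ Q ∈ U, nv D s z Q := by
    induction U using Finset.induction_on with
    | empty =>
      rw [Finset.prod_empty, Finset.sum_empty]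
      refine ⟨Et.one s, ?_⟩
      have h2 : t8 (rd8 D s (1 : 𝓞 M)) = 1 := by
        have h3 := rd8_alg hD s (1 : 𝓞 L)
        rw [map_one] at h3
        rw [x1_t8_per h3, x1_t8_one]
      rw [h2]
      unfold s5_par
      rw [if_neg (by norm_num)]
    | insert Q U hQ ih =>
      obtain ⟨h2, h3⟩ := ih fun x hx => hU (Finset.mem_insert_of_mem hx)
      have h4 := (H.ng Q (hU (Finset.mem_insert_self _ _))).et
      rw [Finset.prod_insert hQ, Finset.sum_insert hQ]
      refine ⟨h4.mul' h2, ?_⟩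
      rw [sg_t8_mul hD, s5_par_mul (hpm h4) (hpm h2), h3]
      rfl
  refine ⟨hpm (sgx_et H hD hU m), ?_⟩
  unfold sgx
  cases m
  · simp only [Bool.false_eq_true, if_false]
    rw [one_mul, zero_add]
    exact h1.2
  · simp only [if_true]
    rw [sg_t8_mul hD, s5_par_mul (hpm (sg_et_p1 hD s)) (hpm h1.1), h1.2, sg_t8_p1 hD]
    unfold s5_par
    rw [if_pos rfl]

theorem sgx_coe (m : Bool) (U : Finset (HeightOneSpectrum (𝓞 M))) :
    ((sgx D s z m U : 𝓞 M) : M) = ((if m then -(p1 D s) else 1 : 𝓞 M) : M) * ((∏ Q ∈ U, z Q : 𝓞 M) : M) := map_mul _ _ _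

theorem sgx_ne {U : Finset (HeightOneSpectrum (𝓞 M))} (hU : U ⊆ T) (m : Bool) : ((sgx D s z m U : 𝓞 M) : M) ≠ 0 := by
  rw [sgx_coe H]
  refine mul_ne_zero ?_ ?_
  · cases m
    · simp only [Bool.false_eq_true, if_false]
      exact RingOfIntegers.coe_ne_zero_iff.2 one_ne_zero
    · simp only [if_true]
      refine RingOfIntegers.coe_ne_zero_iff.2 (neg_ne_zero.2 fun h => ?_)
      have h2 := x_mul D s
      rw [h, zero_mul] at h2
      exact two_ne_zero h2.symm
  · refine RingOfIntegers.coe_ne_zero_iff.2 (Finset.prod_ne_zero_iff.2 fun Q hQ => ?_)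
    exact (se2_val (H.ng Q (hU hQ)).gen).1

/-- the valuation at the odd primes outside `U` and at `ϖ'` -/
theorem sgx_val {U : Finset (HeightOneSpectrum (𝓞 M))} (hU : U ⊆ T) (m : Bool) {P : HeightOneSpectrum (𝓞 M)}
    (hP : p1 D s ∉ P.asIdeal) (hPU : P ∉ U) : sgx D s z m U ∉ P.asIdeal ∧ P.valuation M ((sgx D s z m U : 𝓞 M) : M) = 1 := by
  have h1 : sgx D s z m U ∉ P.asIdeal := by
    intro h
    rcases P.isPrime.mem_or_mem h with h | h
    · exact c2_not_if m hP h
    · exact sgx_prod_not H hU hPU h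
  exact ⟨h1, (TU.g1_val_one P).2 h1⟩

/-- the valuation at the primes of `U` -/
theorem sgx_odd {U : Finset (HeightOneSpectrum (𝓞 M))} (hU : U ⊆ T) (m : Bool) {P : HeightOneSpectrum (𝓞 M)}
    (hPU : P ∈ U) : ¬ IsSquare (P.valuation M ((sgx D s z m U : 𝓞 M) : M)) := by
  have h2 := H.two P (hU hPU)
  have hp1 : p1 D s ∉ P.asIdeal := fun h => h2 (by
    rw [← x_mul D s]
    exact Ideal.mul_mem_right _ _ h)
  have h3 : sgx D s z m U = z P * sgx D s z m (U.erase P) := by
    unfold sgx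
    rw [← Finset.mul_prod_erase U z hPU]
    ring
  have h4 := (sgx_val H ((Finset.erase_subset P U).trans hU) m hp1 (Finset.notMem_erase P U)).2
  have h5 : ((z P * sgx D s z m (U.erase P) : 𝓞 M) : M) = (z P : M) * ((sgx D s z m (U.erase P) : 𝓞 M) : M) := map_mul _ _ _
  rw [h3, h5, map_mul, h4, mul_one]
  exact (se2_val (H.ng P (hU hPU)).gen).2.1

/-- the valuation at `ϖ` -/
theorem sgx_p1 (hD : Od2 D) {U : Finset (HeightOneSpectrum (𝓞 M))} (hU : U ⊆ T) (m : Bool) {P : HeightOneSpectrum (𝓞 M)}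
    (hP : p1 D s ∈ P.asIdeal) : P.valuation M ((sgx D s z m U : 𝓞 M) : M) = if m then exp (-1 : ℤ) else 1 := by
  have hP' : p2 D (!s) ∈ P.asIdeal := by
    rw [c2_p2_not]
    exact hP
  have h2 := c1_mem_two hP'
  have hPU : P ∉ U := fun h => H.two P (hU h) h2
  have hv : P.valuation M ((p1 D s : 𝓞 M) : M) = exp (-1 : ℤ) := by
    have h3 := c1_val hD hP'
    rwa [c2_p2_not] at h3
  rw [sgx_coe H, map_mul, (TU.g1_val_one P).2 (sgx_prod_not H hU hPU), mul_one]
  exact c2_val_if m hv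

/-- a unit at `P ∈ T` -/
theorem sgx_unit {P : HeightOneSpectrum (𝓞 M)} (h2 : (2 : 𝓞 M) ∉ P.asIdeal) {A : 𝓞 M} (hA : A ∉ P.asIdeal)
    {U : Finset (HeightOneSpectrum (𝓞 M))} (hU : U ⊆ T) (hPU : P ∉ U) :
    IsSquare (algebraMap M (P.adicCompletion M) ((A * ∏ Q ∈ U, z Q : 𝓞 M) : M)) ↔
      s5_par (TT.qr P A) + ∑ Q ∈ U, aM z P Q = 0 := by
  have hz : ∀ Q ∈ U, z Q ∉ P.asIdeal := fun Q hQ => H.z_not (hU hQ) (fun e => hPU (by rw [e]; exact hQ))
  obtain ⟨h3, h4⟩ := s5_prod h2 z U hz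
  have h5 : A * ∏ Q ∈ U, z Q ∉ P.asIdeal := fun h => (P.isPrime.mem_or_mem h).elim hA h3
  rw [sq_iff_qr P h2 _ h5, s5_par_iff (s5_sgn h5), TT.qr_mul P h2, s5_par_mul (s5_sgn hA) (s5_sgn h3), h4]

/-- **the rows** -/
theorem sgx_row {U : Finset (HeightOneSpectrum (𝓞 M))} (hU : U ⊆ T) (m : Bool)
    {P : HeightOneSpectrum (𝓞 M)} (hP : P ∈ T) :
    (IsSquare (algebraMap M (P.adicCompletion M) (sgx D s z m U : M)) ∨
      IsSquare (algebraMap M (P.adicCompletion M) ((sgx D s z m U : M) * (d * (rs7 D s : M))))) ↔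
    ((if P ∈ U then (1 : ZMod 2) else 0) * ((if TT.qr P (algebraMap (𝓞 L) (𝓞 M) (ε : 𝓞 L) * (if i then -(p1 D s) else 1) *
      (if j then -(p2 D s) else 1)) = -1 then 1 else 0) + ∑ Q ∈ T.erase P, aM z P Q) +
      ∑ Q ∈ T.erase P, aM z P Q * (if Q ∈ U then 1 else 0)) + nu D s P * (if m then 1 else 0) = 0 := by
  have h2 := H.two P hP
  have hp1 : p1 D s ∉ P.asIdeal := fun h => h2 (by
    rw [← x_mul D s]
    exact Ideal.mul_mem_right _ _ h)
  have hp2 : p2 D s ∉ P.asIdeal := fun h => h2 (by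
    rw [← x_mul D s]
    exact Ideal.mul_mem_left _ _ h)
  have hqm : s5_par (TT.qr P (if m then -(p1 D s) else 1)) = nu D s P * (if m then 1 else 0) := by
    cases m
    · simp only [Bool.false_eq_true, if_false]
      have h1 : (1 : 𝓞 M) ∉ P.asIdeal := fun h => P.isPrime.ne_top ((Ideal.eq_top_iff_one _).2 h)
      have h3 : TT.qr P ((1 : 𝓞 M) ^ 2) = 1 := TT.qr_sq P h1
      rw [one_pow] at h3
      rw [h3, mul_zero]
      unfold s5_par
      rw [if_neg (by norm_num)]
    · simp only [if_true]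
      rw [mul_one]
      rfl
  have hchar : ∀ a : ZMod 2, a + a = 0 := CharTwo.add_self_eq_zero
  by_cases hPU : P ∈ U
  · have hno : ¬ IsSquare (algebraMap M (P.adicCompletion M) (sgx D s z m U : M)) :=
      fun h => sgx_odd H hU m hPU (s5_val h)
    rw [or_iff_right hno]
    obtain ⟨y, hy, hδ⟩ := H.eq
    have hK : (if m then -(p1 D s) else 1) * (algebraMap (𝓞 L) (𝓞 M) (ε : 𝓞 L) * (if i then -(p1 D s) else 1) *
        (if j then -(p2 D s) else 1)) ∉ P.asIdeal := by
      intro h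
      rcases P.isPrime.mem_or_mem h with h | h
      · exact c2_not_if m hp1 h
      rcases P.isPrime.mem_or_mem h with h | h
      · rcases P.isPrime.mem_or_mem h with h | h
        · exact c2_unit_not P ε h
        · exact c2_not_if i hp1 h
      · exact c2_not_if j hp2 h
    have hK2 : algebraMap (𝓞 L) (𝓞 M) (ε : 𝓞 L) * (if i then -(p1 D s) else 1) *
        (if j then -(p2 D s) else 1) ∉ P.asIdeal := fun h => hK (P.asIdeal.mul_mem_left _ h)
    have hU0 : ((∏ Q ∈ U, z Q : 𝓞 M) : M) ≠ 0 := by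
      refine RingOfIntegers.coe_ne_zero_iff.2 (Finset.prod_ne_zero_iff.2 fun Q hQ => ?_)
      exact (se2_val (H.ng Q (hU hQ)).gen).1
    have e2 : (sgx D s z m U : M) * (d * (rs7 D s : M)) =
        ((((if m then -(p1 D s) else 1) * (algebraMap (𝓞 L) (𝓞 M) (ε : 𝓞 L) * (if i then -(p1 D s) else 1) *
        (if j then -(p2 D s) else 1))) * ∏ Q ∈ T \ U, z Q : 𝓞 M) : M) * (((∏ Q ∈ U, z Q : 𝓞 M) : M) * y) ^ 2 := by
      rw [hδ, sgx_coe H, ← Finset.prod_sdiff hU]
      simp only [map_mul]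
      ring
    rw [e2, s5_sq (mul_ne_zero hU0 hy), sgx_unit H h2 hK Finset.sdiff_subset (fun h => (Finset.mem_sdiff.1 h).2 hPU),
      TT.qr_mul P h2, s5_par_mul (s5_sgn (c2_not_if m hp1)) (s5_sgn hK2), hqm, if_pos hPU, one_mul]
    have e3 : ∑ Q ∈ T \ U, aM z P Q = ∑ Q ∈ T.erase P, aM z P Q + ∑ Q ∈ T.erase P, aM z P Q * (if Q ∈ U then 1 else 0) := by
      have e4 : T \ U = (T.erase P).filter (fun Q => Q ∉ U) := by
        ext Q
        simp only [Finset.mem_sdiff, Finset.mem_filter, Finset.mem_erase]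
        constructor
        · rintro ⟨i1, i2⟩
          exact ⟨⟨fun h => i2 (h ▸ hPU), i1⟩, i2⟩
        · rintro ⟨⟨i1, i2⟩, i3⟩
          exact ⟨i2, i3⟩
      rw [e4, Finset.sum_filter, ← Finset.sum_add_distrib]
      refine Finset.sum_congr rfl fun Q hQ => ?_
      by_cases hQU : Q ∈ U
      · rw [if_pos hQU, if_neg (not_not.2 hQU), mul_one, hchar]
      · rw [if_neg hQU, if_pos hQU, mul_zero, add_zero]
    rw [e3]
    unfold s5_par
    have e5 : ∀ a b c e : ZMod 2, a + b + (c + e) = b + c + e + a := fun a b c e => by ring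
    rw [e5]
  · have hδ : ¬ IsSquare (P.valuation M (d * (rs7 D s : M))) := by
      rw [c2_val_rs7]
      exact (H.mem_iff h2).1 hP
    have hno : ¬ IsSquare (algebraMap M (P.adicCompletion M) ((sgx D s z m U : M) * (d * (rs7 D s : M)))) := by
      intro h
      apply hδ
      have h3 := s5_val h
      rw [map_mul, (sgx_val H hU m hp1 hPU).2, one_mul] at h3
      exact h3
    rw [or_iff_left hno]
    unfold sgx
    rw [sgx_unit H h2 (c2_not_if m hp1) hU hPU, hqm, if_neg hPU, zero_mul, zero_add]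
    have e3 : ∑ Q ∈ T.erase P, aM z P Q * (if Q ∈ U then 1 else 0) = ∑ Q ∈ U, aM z P Q := by
      have e4 : U = (T.erase P).filter (fun Q => Q ∈ U) := by
        ext Q
        simp only [Finset.mem_filter, Finset.mem_erase]
        constructor
        · intro i1
          exact ⟨⟨fun h => hPU (h ▸ i1), hU i1⟩, i1⟩
        · rintro ⟨-, i3⟩
          exact i3
      conv_rhs => rw [e4]
      rw [Finset.sum_filter]
      refine Finset.sum_congr rfl fun Q _ => ?_
      by_cases hQU : Q ∈ U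
      · rw [if_pos hQU, if_pos hQU, mul_one]
      · rw [if_neg hQU, if_neg hQU, mul_zero]
    rw [e3, add_comm]

end

end TRZ
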