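import Pool.Agent.TRZ.K1
import Pool.Agent.TRZ.X1
import Pool.Agent.TRP.Z
import Pool.Agent.TRP.G2a
import Pool.Agent.TRG.Z2

/-! # [ALL2-Z1] Euler factors -/

set_option autoImplicit false
set_option linter.unusedSectionVars false

open NumberField Ideal IsDedekindDomain
open scoped Real Classical ComplexConjugate
open TR TRG TRP TTS TU TT

namespace TRZ

section
variable {L M : Type} [Field L] [NumberField L] [Field M] [NumberField M] [Algebra L M]
  [IsTotallyReal L] {D : Dat L M}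

/-- the Euler factor for the sign `(-1)^n` -/
theorem z1c_core {s : Bool} {V : ValuationSubring ℂ} (h2 : V.valuation 2 < 1) (hs : V.valuation (c1 s) < 1)
    {ψ : ℂ} {a b : ℤ} (h3 : ψ = a + b * c1 s) (h4 : Odd a) (h5 : V.valuation ψ = 1) (n : ℕ) :
    V.valuation ((1 - (((-1) ^ n : ℤ) : ℂ) / ψ) / 2 - zl ((((a - 1) / 2 + b : ℤ) : ZMod 2) + (n : ZMod 2))) < 1 := by
  obtain ⟨m, hm⟩ := h4
  obtain ⟨m', hm', hm2⟩ : ∃ m' : ℤ, a - (-1) ^ n = 2 * m' ∧
      ((m' + b : ℤ) : ZMod 2) = (((a - 1) / 2 + b : ℤ) : ZMod 2) + (n : ZMod 2) := by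
    have h6 : (a - 1) / 2 = m := by omega
    rw [h6]
    rcases Nat.even_or_odd n with hev | hod
    · refine ⟨m, by rw [hev.neg_one_pow]; omega, ?_⟩
      have h7 : (n : ZMod 2) = 0 := (ZMod.natCast_eq_zero_iff_even).2 hev
      rw [h7, add_zero]
    · refine ⟨m + 1, by rw [hod.neg_one_pow]; omega, ?_⟩
      have h7 : (n : ZMod 2) = 1 := (ZMod.natCast_eq_one_iff_odd).2 hod
      rw [h7]
      push_cast
      ring
  have h6 := z_half (V := V) hs (b := b) hm'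
  rw [← h3] at h6
  have h0 : ψ ≠ 0 := by
    intro h0
    rw [h0, map_zero] at h5
    exact zero_ne_one h5
  have h7 : Cg V (1 / ψ) 1 := by
    refine ⟨by rw [map_one], ?_⟩
    have h8 : Cg V ψ 1 := by
      rw [h3]
      have h9 := (z_cg hs a b).trans (Cg.int h2 (a := a) (b := 1) ⟨m, by omega⟩)
      rwa [Int.cast_one] at h9
    have h9 : 1 / ψ - 1 = -(ψ - 1) / ψ := by
      field_simp
      ring
    rw [h9, map_div₀, h5, div_one, Valuation.map_neg]
    exact h8.2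
  have h8 := (h6.mul h7).trans (by
    rw [mul_one]
    exact zl_int h2 (m' + b))
  rw [hm2] at h8
  have h9 : (ψ - (((-1) ^ n : ℤ) : ℂ)) / 2 * (1 / ψ) = (1 - (((-1) ^ n : ℤ) : ℂ) / ψ) / 2 := by
    field_simp
  rw [h9] at h8
  exact h8.2

theorem z1c_FK_ne (hD : Od2 D) {s : Bool} {f : 𝓞 L → ℤ} {e : Bool} (hf : (∃ k, Kp k f) ∨ f = fun _ => 1) {P : HeightOneSpectrum (𝓞 M)}
    (hP : (2 : 𝓞 M) ∉ P.asIdeal) {x : 𝓞 M} {k : ℕ} (hx : span {x} = P.asIdeal ^ k) : FK D s f e x ≠ 0 := by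
  have h1 : ∀ t : Bool, rd8 D t x ∉ span {(2 : 𝓞 L)} := by
    intro t h
    rw [rd8_even hD] at h
    have hp := x_prime hD t
    have h3 : P.asIdeal ^ k ≤ span {p2 D t} := by
      rw [← hx]
      exact (Ideal.span_singleton_le_iff_mem _).2 h
    have h4 := hp.le_of_pow_le h3
    have h5 : P.asIdeal = span {p2 D t} := P.isMaximal.eq_of_le hp.ne_top h4
    apply hP
    rw [h5, ← x_mul D t]
    exact Ideal.mul_mem_left _ _ (Ideal.mem_span_singleton_self _)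
  unfold FK
  refine mul_ne_zero ?_ ?_
  · rcases hf with ⟨k, hk⟩ | rfl
    · rw [Ne, hk.zero]
      exact h1 (!s)
    · exact one_ne_zero
  · unfold te
    split_ifs
    · rw [Ne, t8_zero hD]
      exact h1 s
    · exact one_ne_zero

theorem z1c_FK_val (hD : Od2 D) {s : Bool} {f : 𝓞 L → ℤ} {e : Bool} (hf : (∃ k, Kp k f) ∨ f = fun _ => 1) {P : HeightOneSpectrum (𝓞 M)}
    (hP : (2 : 𝓞 M) ∉ P.asIdeal) {x : 𝓞 M} {k : ℕ} (hx : span {x} = P.asIdeal ^ k) : FK D s f e x = 1 ∨ FK D s f e x = -1 := by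
  have hne := z1c_FK_ne hD (s := s) (e := e) hf hP hx
  have ha : f (rd8 D (!s) x) = 0 ∨ f (rd8 D (!s) x) = 1 ∨ f (rd8 D (!s) x) = -1 := by
    rcases hf with ⟨k, hk⟩ | rfl
    · exact hk.val _
    · exact Or.inr (Or.inl rfl)
  have hb : te e (rd8 D s x) = 0 ∨ te e (rd8 D s x) = 1 ∨ te e (rd8 D s x) = -1 := by
    unfold te
    split_ifs
    · exact t8_val hD _
    · exact Or.inr (Or.inl rfl)
  unfold FK at hne ⊢
  rcases ha with ha | ha | ha <;> rcases hb with hb | hb | hb <;> rw [ha, hb] at hne ⊢ <;> simp at hne ⊢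

/-- the value of a class character at a prime -/
theorem z1c_Y (hD : Od2 D) {s : Bool} {f : 𝓞 L → ℤ} {e : Bool} (hf : (∃ k, Kp k f) ∨ f = fun _ => 1) {Y : Ideal (𝓞 M) →*₀ ℤ}
    (hY : LamF D s (FK D s f e) Y) {P : HeightOneSpectrum (𝓞 M)}
    (hP : (2 : 𝓞 M) ∉ P.asIdeal) {x : 𝓞 M} (hx : NG D s P x) : Y P.asIdeal = FK D s f e x := by
  obtain ⟨k, hk, hkP⟩ := hx.gen
  have h1 : Y P.asIdeal ^ k = FK D s f e x := by
    rw [← map_pow, ← hkP, hY.span_eq x hx.et]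
  have h3 := z1c_FK_ne hD (s := s) (e := e) hf hP hkP
  rcases hY.val P.asIdeal with h | h | h
  · exfalso
    apply h3
    rw [← h1, h, zero_pow hk.pos.ne']
  · rw [← h1, h, one_pow]
  · rw [← h1, h, hk.neg_one_pow]

end

section
variable {L M : Type} [Field L] [NumberField L] [Field M] [NumberField M] [Algebra L M]
  [IsTotallyReal L] {D : Dat L M} (hD : Od2 D) {s : Bool} (P0 : PsiZ D s)
  {X : HeightOneSpectrum (𝓞 M) → (Ideal (𝓞 M) →*₀ ℤ)}
include hD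

/-- [Z1] -/
theorem euler_b {V : ValuationSubring ℂ} (h2 : V.valuation 2 < 1) (hs : V.valuation (c1 s) < 1)
    {S : Finset (HeightOneSpectrum (𝓞 M))} (h2S : ∀ P ∈ S, (2 : 𝓞 M) ∉ P.asIdeal)
    (hX : ∀ P ∈ S, LamE D s P (X P)) {z : HeightOneSpectrum (𝓞 M) → 𝓞 M} (hz : ∀ P ∈ S, NG D s P (z P)) :
    ∃ b : HeightOneSpectrum (𝓞 M) → ZMod 2,
      (∀ T ⊆ S, ∀ P ∈ S \ T, V.valuation ((1 - (twP T T X P.asIdeal : ℂ) / P0.psi P.asIdeal) / 2 -
        zl (b P + ∑ Q ∈ T, aM z Q P)) < 1) ∧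
      (∀ (f : 𝓞 L → ℤ) (e : Bool), ((∃ k, Kp k f) ∨ f = fun _ => 1) → ∀ Y, LamF D s (FK D s f e) Y →
        ∀ T ⊆ S, ∀ P ∈ S \ T, V.valuation ((1 - ((twP T T X P.asIdeal * Y P.asIdeal : ℤ) : ℂ) / P0.psi P.asIdeal) / 2 -
        zl (b P + bt (FK D s f e) z P + ∑ Q ∈ T, aM z Q P)) < 1) ∧
      (∀ P ∈ S, V.valuation ((1 - 1 / (absNorm P.asIdeal : ℂ)) / 2 - zl (b P)) < 1) := by
  have key : ∀ P : HeightOneSpectrum (𝓞 M), ∃ a b c : ℤ, P ∈ S → (P0.psi P.asIdeal = a + b * c1 s ∧ Odd a ∧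
      V.valuation (P0.psi P.asIdeal) = 1 ∧ zQ V (conj (P0.psi P.asIdeal)) c ∧
      P0.psi P.asIdeal * conj (P0.psi P.asIdeal) = (absNorm P.asIdeal : ℂ) ∧ Odd (absNorm P.asIdeal)) := by
    intro P
    by_cases hP : P ∈ S
    · obtain ⟨a, b, c, h⟩ := z_prime P0 h2 hs (h2S P hP) (hz P hP)
      exact ⟨a, b, c, fun _ => h⟩
    · exact ⟨0, 0, 0, fun h => absurd h hP⟩
  choose a b c hk using key
  -- the product of the signs
  have hpr : ∀ T ⊆ S, ∀ P ∈ S \ T, ∃ n : ℕ, ∏ Q ∈ T, X Q P.asIdeal = (-1) ^ n ∧ ∑ Q ∈ T, aM z Q P = (n : ZMod 2) := by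
    intro T hT P hP
    obtain ⟨hP0, hPT⟩ := Finset.mem_sdiff.1 hP
    have hne : ∀ Q ∈ T, P ≠ Q := fun Q hQ h => hPT (h ▸ hQ)
    have hXQ : ∀ Q ∈ T, X Q P.asIdeal = TT.qr Q (z P) ∧ (X Q P.asIdeal = 1 ∨ X Q P.asIdeal = -1) :=
      fun Q hQ => z_lam (hX Q (hT hQ)) (hz P hP0) (hne Q hQ)
    refine ⟨∑ Q ∈ T, (if X Q P.asIdeal = -1 then 1 else 0 : ℕ), prod_signs T (fun Q => X Q P.asIdeal) (fun Q hQ => (hXQ Q hQ).2), ?_⟩
    push_cast
    refine Finset.sum_congr rfl fun Q hQ => ?_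
    unfold TRG.aM
    rw [(hXQ Q hQ).1]
  refine ⟨fun P => (((a P - 1) / 2 + b P : ℤ) : ZMod 2), ?_, ?_, ?_⟩
  · intro T hT P hP
    obtain ⟨n, hn1, hn2⟩ := hpr T hT P hP
    obtain ⟨hP0, hPT⟩ := Finset.mem_sdiff.1 hP
    obtain ⟨h3, h4, h5, -, -, -⟩ := hk P hP0
    rw [twP_TT, hn1, hn2]
    exact z1c_core h2 hs h3 h4 h5 n
  · intro f e hf Y hY T hT P hP
    obtain ⟨n, hn1, hn2⟩ := hpr T hT P hP
    obtain ⟨hP0, hPT⟩ := Finset.mem_sdiff.1 hP
    obtain ⟨h3, h4, h5, -, -, -⟩ := hk P hP0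
    obtain ⟨k, hk', hkP⟩ := (hz P hP0).gen
    have hv := z1c_FK_val hD (s := s) (e := e) hf (h2S P hP0) hkP
    rw [twP_TT, hn1, hn2, z1c_Y hD hf hY (h2S P hP0) (hz P hP0)]
    have h6 : FK D s f e (z P) = (-1) ^ (if FK D s f e (z P) = -1 then 1 else 0 : ℕ) := by
      rcases hv with h | h <;> rw [h] <;> norm_num
    have h7 : bt (FK D s f e) z P = ((if FK D s f e (z P) = -1 then 1 else 0 : ℕ) : ZMod 2) := by
      unfold bt
      split_ifs <;> simp
    have h8 := z1c_core h2 hs h3 h4 h5 (n + (if FK D s f e (z P) = -1 then 1 else 0 : ℕ))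
    rw [pow_add, ← h6, Nat.cast_add, ← h7] at h8
    have e1 : ((((a P - 1) / 2 + b P : ℤ) : ZMod 2) + bt (FK D s f e) z P + (n : ZMod 2)) =
        (((a P - 1) / 2 + b P : ℤ) : ZMod 2) + ((n : ZMod 2) + bt (FK D s f e) z P) := by ring
    rw [e1]
    exact h8
  · intro P hP
    obtain ⟨h3, h4, h5, ⟨y, hy, hyc⟩, h7, h8⟩ := hk P hP
    have h0 : P0.psi P.asIdeal ≠ 0 := by
      intro h0
      rw [h0, map_zero] at h5
      exact zero_ne_one h5
    have h9 : V.valuation ((absNorm P.asIdeal : ℕ) : ℂ) = 1 := by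
      have := z_odd_one h2 (n := (absNorm P.asIdeal : ℤ)) (by exact_mod_cast h8)
      exact_mod_cast this
    have h9' : ((absNorm P.asIdeal : ℕ) : ℂ) ≠ 0 := by
      intro h
      rw [h, map_zero] at h9
      exact zero_ne_one h9
    have h10 := z1c_core h2 hs h3 h4 h5 0
    rw [pow_zero, Int.cast_one, Nat.cast_zero, add_zero] at h10
    have e1 : (1 - 1 / (absNorm P.asIdeal : ℂ)) / 2 - zl ((((a P - 1) / 2 + b P : ℤ) : ZMod 2)) =
        ((1 - 1 / P0.psi P.asIdeal) / 2 - zl ((((a P - 1) / 2 + b P : ℤ) : ZMod 2))) + 2 * (y / (absNorm P.asIdeal : ℂ)) := by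
      have h12 : 1 / P0.psi P.asIdeal = (1 + 4 * y) / (absNorm P.asIdeal : ℂ) := by
        rw [← h7, ← hy]
        have h13 : conj (P0.psi P.asIdeal) ≠ 0 := by
          intro h13
          rw [h13, mul_zero] at h7
          exact h9' h7.symm
        field_simp
      rw [h12]
      field_simp
      ring
    rw [e1]
    refine (V.valuation.map_add _ _).trans_lt (max_lt h10 ?_)
    rw [map_mul, map_div₀, h9, div_one]
    exact mul_lt_one_of_lt_of_le h2 (Cg.left hyc)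

omit hD in
/-- the norm of `y + ϖ'³ c` -/
theorem z1c_nk (D : Dat L M) (s : Bool) (a c : 𝓞 M) : ∃ γ : ℂ, IsIntegral ℤ γ ∧
    D.NK ((a + p2 D s ^ 3 * c : 𝓞 M) : M) = D.NK (a : M) + c1 (!s) ^ 3 * γ := by
  have key : ∀ t : Finset (L →+* ℝ), ∃ γ : ℂ, IsIntegral ℤ γ ∧
      ∏ j ∈ t, D.emb j ((a + p2 D s ^ 3 * c : 𝓞 M) : M) =
        (∏ j ∈ t, D.emb j (a : M)) + c1 (!s) ^ 3 * γ := by
    intro t
    induction t using Finset.induction_on with
    | empty => exact ⟨0, isIntegral_zero, by simp⟩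
    | insert j t hj ih =>
      obtain ⟨γ, hγ, h⟩ := ih
      have hP : IsIntegral ℤ (∏ j ∈ t, D.emb j (a : M)) := IsIntegral.prod _ fun j _ => emb_int D j a
      refine ⟨D.emb j (c : M) * (∏ j ∈ t, D.emb j (a : M)) + D.emb j (a : M) * γ +
        c1 (!s) ^ 3 * D.emb j (c : M) * γ, ?_, ?_⟩
      · exact ((((emb_int D j c).mul hP).add ((emb_int D j a).mul hγ)).add
          ((((z_int (!s)).pow 3).mul (emb_int D j c)).mul hγ))
      · rw [Finset.prod_insert hj, Finset.prod_insert hj, h]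
        have e1 : D.emb j ((a + p2 D s ^ 3 * c : 𝓞 M) : M) =
            D.emb j (a : M) + c1 (!s) ^ 3 * D.emb j (c : M) := by
          have : ((a + p2 D s ^ 3 * c : 𝓞 M) : M) = (a : M) + (p1 D (!s) : M) ^ 3 * (c : M) := by
            push_cast
            rfl
          rw [this, map_add, map_mul, map_pow, z_emb]
        rw [e1]
        ring
  exact key Finset.univ

omit hD in
theorem z1c_v8 {V : ValuationSubring ℂ} (hs : V.valuation (c1 s) < 1) : V.valuation (c1 s ^ 3) = V.valuation 8 := by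
  have e : (8 : ℂ) = 2 ^ 3 := by norm_num
  rw [e, map_pow, map_pow, z_v2 hs]

omit hD [IsTotallyReal L] in
theorem z1c_int4 {V : ValuationSubring ℂ} (h2 : V.valuation 2 < 1) {n : ℤ} (h : V.valuation (n : ℂ) ≤ V.valuation 4) : (4 : ℤ) ∣ n := by
  by_cases h0 : n = 0
  · rw [h0]
    exact dvd_zero _
  have ha : V.valuation (2 : ℂ) ≠ 0 := by
    rw [Ne, map_eq_zero]
    exact two_ne_zero
  have h1 := z2_val h2 (q := (n : ℚ)) (by exact_mod_cast h0)
  have e : V.valuation (4 : ℂ) = V.valuation 2 ^ (2 : ℤ) := by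
    have e2 : (4 : ℂ) = 2 ^ 2 := by norm_num
    rw [e2, map_pow]
    rfl
  rw [Rat.cast_intCast] at h1
  rw [h1, e] at h
  have h5 := (zpow_right_strictAnti₀ (zero_lt_iff.2 ha) h2).le_iff_ge.1 h
  rw [padicValRat.of_int] at h5
  have h6 : 2 ≤ padicValInt 2 n := by exact_mod_cast h5
  have h7 := (padicValInt_dvd_iff 2 n).2 (Or.inr h6)
  norm_num at h7
  exact h7

/-- [Z1] `σ = ν'` -/
theorem sigma_eq {V : ValuationSubring ℂ} (h2 : V.valuation 2 < 1) (hs : V.valuation (c1 s) < 1)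
    {x : 𝓞 M} (hx : Et D s x) :
    V.valuation ((1 - conj (D.NK (x : M))) / 4 - zl (if t8 (rd8 D s x) = -1 then 1 else 0)) < 1 := by
  obtain ⟨c, hc⟩ := Ideal.mem_span_singleton'.1 (rd8_cong hD s x)
  obtain ⟨y, hy⟩ : ∃ y, y = rd8 D s x := ⟨_, rfl⟩
  rw [← hy] at hc ⊢
  have hxe : x = algebraMap (𝓞 L) (𝓞 M) y + p2 D s ^ 3 * c := by linear_combination -hc
  obtain ⟨γ, hγ, h⟩ := z1c_nk D s (algebraMap (𝓞 L) (𝓞 M) y) c
  rw [← hxe, g2_NK_alg] at h
  obtain ⟨n, hn⟩ : ∃ n : ℤ, n = Algebra.norm ℤ y := ⟨_, rfl⟩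
  rw [← hn] at h
  have h3 : conj (D.NK (x : M)) = (n : ℂ) + c1 s ^ 3 * conj γ := by
    rw [h, map_add, map_mul, map_pow, z_conj, z_not, map_intCast]
    ring
  have hγ' : V.valuation (conj γ) ≤ 1 := val_integral (int_conj hγ)
  have h8 : V.valuation (c1 s ^ 3 * conj γ) ≤ V.valuation 8 := by
    rw [map_mul, z1c_v8 hs]
    exact mul_le_of_le_one_right' hγ'
  have h84 : V.valuation (8 : ℂ) ≤ V.valuation 4 := by
    have e : (8 : ℂ) = 2 * 4 := by norm_num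
    rw [e, map_mul]
    exact mul_le_of_le_one_left' h2.le
  have h4 : (4 : ℤ) ∣ n - 1 := by
    apply z1c_int4 h2
    have e : ((n - 1 : ℤ) : ℂ) = (conj (D.NK (x : M)) - 1) - c1 s ^ 3 * conj γ := by
      rw [h3]
      push_cast
      ring
    rw [e]
    exact (V.valuation.map_sub _ _).trans (max_le (z_et D h2 hs hx) (h8.trans h84))
  obtain ⟨m, hm⟩ := h4
  have hnm : n = 1 + 4 * m := by omega
  have h5 : (if t8 y = -1 then (1 : ZMod 2) else 0) = ((-m : ℤ) : ZMod 2) := by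
    unfold t8
    rw [← hn, hnm]
    rcases Int.even_or_odd' m with ⟨k, hk | hk⟩
    · have e1 : ((1 + 4 * m : ℤ) : ZMod 8) = 1 := by
        rw [hk]
        push_cast
        have : (4 * (2 * (k : ZMod 8))) = 8 * k := by ring
        rw [this, show (8 : ZMod 8) = 0 from rfl, zero_mul, add_zero]
      rw [e1, if_neg (by decide)]
      rw [hk]
      push_cast
      rw [show (2 : ZMod 2) = 0 from rfl]
      ring
    · have e1 : ((1 + 4 * m : ℤ) : ZMod 8) = 5 := by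
        rw [hk]
        push_cast
        have : (1 + 4 * (2 * (k : ZMod 8) + 1)) = 8 * k + 5 := by ring
        rw [this, show (8 : ZMod 8) = 0 from rfl, zero_mul, zero_add]
      rw [e1, if_pos (by decide)]
      rw [hk]
      push_cast
      rw [show (2 : ZMod 2) = 0 from rfl, zero_mul, zero_add]
      decide
  rw [h5]
  have h6 := (zl_int h2 (-m)).2
  have e : (1 - conj (D.NK (x : M))) / 4 - zl ((-m : ℤ) : ZMod 2) =
      (((-m : ℤ) : ℂ) - zl ((-m : ℤ) : ZMod 2)) + -(c1 s ^ 3 * conj γ) / 4 := by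
    rw [h3, hnm]
    push_cast
    ring
  rw [e]
  refine (V.valuation.map_add _ _).trans_lt (max_lt h6 ?_)
  have h40 : V.valuation (4 : ℂ) ≠ 0 := by
    rw [Ne, map_eq_zero]
    norm_num
  rw [map_div₀, Valuation.map_neg]
  refine lt_of_le_of_lt (div_le_div_of_nonneg_right h8 zero_le) ?_
  have e8 : (8 : ℂ) = 2 * 4 := by norm_num
  rw [e8, map_mul, mul_div_assoc, div_self h40, mul_one]
  exact h2

end

end TRZ
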