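import Pool.Agent.TRZ.K4
import Pool.Agent.TRZ.E4
import Pool.Agent.TRZ.Y1
import Pool.Agent.TRZ.Y1c
import Pool.Agent.TRZ.Y3
import Pool.Agent.TRZ.Z1
import Pool.Agent.TRZ.CB2
import Pool.Agent.TRP.AN
import Pool.Agent.TRP.CB
import Pool.Agent.TRP.VI

/-! # [ALL2-V1] the values modulo the maximal ideal -/

set_option autoImplicit false
set_option linter.unusedSectionVars false

open NumberField Ideal IsDedekindDomain
open scoped Real Classical ComplexConjugate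
open TR TRG TRP TTS TU TT

namespace TRZ

section
variable {V : ValuationSubring ℂ}

/-- the recursion determines the values -/
theorem v1_ind (h2 : V.valuation 2 < 1) {ι : Type} {S : Finset ι} {G : Finset ι → ℂ}
    {eT : Finset ι → ι → ℂ} {h : Finset ι → ZMod 2} {q : Finset ι → ι → ZMod 2}
    (he : ∀ T ⊆ S, ∀ P ∈ S \ T, Cg V (eT T P) (zl (q T P)))
    (hs : ∀ W ⊆ S, Cg V (∑ T ∈ W.powerset, G T * ∏ P ∈ W \ T, eT T P)
      (zl (∑ T ∈ W.powerset, h T * ∏ P ∈ W \ T, q T P))) :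
    ∀ W ⊆ S, Cg V (G W) (zl (h W)) := by
  intro W
  induction W using Finset.strongInduction with
  | H W ih =>
  intro hW
  have hA : Cg V (∑ T ∈ W.powerset.erase W, G T * ∏ P ∈ W \ T, eT T P)
      (zl (∑ T ∈ W.powerset.erase W, h T * ∏ P ∈ W \ T, q T P)) := by
    refine vi_sum h2 _ fun T hT => ?_
    rw [Finset.mem_erase, Finset.mem_powerset] at hT
    refine vi_mul h2 (ih T (Finset.ssubset_iff_subset_ne.2 ⟨hT.2, hT.1⟩) (hT.2.trans hW))
      (vi_prod h2 _ fun P hP => ?_)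
    rw [Finset.mem_sdiff] at hP
    exact he T (hT.2.trans hW) P (Finset.mem_sdiff.2 ⟨hW hP.1, hP.2⟩)
  have hWm : W ∈ W.powerset := Finset.mem_powerset_self W
  have e1 : G W = ∑ T ∈ W.powerset, G T * ∏ P ∈ W \ T, eT T P +
      -(∑ T ∈ W.powerset.erase W, G T * ∏ P ∈ W \ T, eT T P) := by
    rw [← Finset.add_sum_erase _ _ hWm, Finset.sdiff_self, Finset.prod_empty]
    ring
  have e2 : h W = ∑ T ∈ W.powerset, h T * ∏ P ∈ W \ T, q T P +
      ∑ T ∈ W.powerset.erase W, h T * ∏ P ∈ W \ T, q T P := by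
    rw [← Finset.add_sum_erase _ _ hWm, Finset.sdiff_self, Finset.prod_empty, mul_one]
    generalize ∑ T ∈ W.powerset.erase W, h T * ∏ P ∈ W \ T, q T P = A
    rw [add_assoc, CharTwo.add_self_eq_zero, add_zero]
  rw [e1, e2]
  exact vi_add h2 (hs W hW) (vi_neg h2 hA)

theorem v1_zl_inj {x y : ZMod 2} {w : ℂ} (hx : V.valuation (w - zl x) < 1) (hy : V.valuation (w - zl y) < 1) :
    x = y := by
  by_contra hne
  have h : V.valuation (zl x - zl y) < 1 := by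
    have e : zl x - zl y = (w - zl y) - (w - zl x) := by ring
    rw [e]
    exact (V.valuation.map_sub _ _).trans_lt (max_lt hy hx)
  have h01 : (x = 0 ∧ y = 1) ∨ (x = 1 ∧ y = 0) := by
    revert hne
    clear h hx hy
    revert x y
    decide
  rcases h01 with ⟨rfl, rfl⟩ | ⟨rfl, rfl⟩
  · rw [vi_zero, vi_one, zero_sub, Valuation.map_neg, map_one] at h
    exact lt_irrefl _ h
  · rw [vi_zero, vi_one, sub_zero, map_one] at h
    exact lt_irrefl _ h

/-- `(1 - ϖ)^g ≡ 3` modulo `8` for odd `g` -/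
theorem v1_c2_pow {s : Bool} (h2 : V.valuation 2 < 1) (hs : V.valuation (c1 s) < 1) {g : ℕ} (hg : Odd g) :
    ∃ γ : ℂ, V.valuation γ ≤ 1 ∧ (c1 (!s)) ^ g = 3 + 8 * γ := by
  have hc : Cg V (1 - c1 s) 1 := z_cg_c2 hs
  -- `c1 = -2 - 8 / (c1 - 3)`
  have hu : V.valuation (c1 s - 3) = 1 := by
    have h3 : V.valuation (3 : ℂ) = 1 := by
      have := z_odd_one (V := V) h2 (n := 3) (by decide)
      exact_mod_cast this
    rw [Valuation.map_sub_eq_of_lt_right _ (by rw [h3]; exact hs), h3]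
  have hne : c1 s - 3 ≠ 0 := by
    intro h
    rw [h, map_zero] at hu
    exact zero_ne_one hu
  have h1 : c1 (!s) = 3 + 8 * (1 / (c1 s - 3)) := by
    rw [z_not]
    have h := z_sq s
    field_simp
    linear_combination (-1 : ℂ) * h
  have hsq : (c1 (!s)) ^ 2 = 1 + 8 * (1 / (c1 s - 3)) := by
    rw [z_sq, h1]
    ring
  have hint : V.valuation (1 / (c1 s - 3)) ≤ 1 := by
    rw [map_div₀, hu, map_one, div_one]
  obtain ⟨m, hm⟩ := hg
  have hpow : ∀ m : ℕ, ∃ γ : ℂ, V.valuation γ ≤ 1 ∧ (c1 (!s)) ^ (2 * m + 1) = 3 + 8 * γ := by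
    intro m
    induction m with
    | zero => exact ⟨_, hint, by rw [mul_zero, zero_add, pow_one, h1]⟩
    | succ m ih =>
      obtain ⟨γ, hγ, h⟩ := ih
      refine ⟨γ + (3 + 8 * γ) * (1 / (c1 s - 3)), ?_, ?_⟩
      · refine (V.valuation.map_add _ _).trans (max_le hγ ?_)
        rw [map_mul]
        refine mul_le_one' ?_ hint
        refine (V.valuation.map_add _ _).trans (max_le ?_ ?_)
        · have := z_vint (V := V) 3
          exact_mod_cast this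
        · rw [map_mul]
          refine mul_le_one' ?_ hγ
          have := z_vint (V := V) 8
          exact_mod_cast this
      · have e : 2 * (m + 1) + 1 = (2 * m + 1) + 2 := by ring
        rw [e, pow_add, h, hsq]
        ring
  rw [hm]
  exact hpow m

/-- `λ^(k-1) (λ - 1) / 4 ≡ 1` for `λ = -(1 - ϖ)^g` -/
theorem v1_lam0 {s : Bool} (h2 : V.valuation 2 < 1) (hs : V.valuation (c1 s) < 1) {g : ℕ} (hg : Odd g) (k : ℕ)
    {lam : ℂ} (hlam : lam = -(c1 (!s)) ^ g) : Cg V (lam ^ k * (lam - 1) / 4) (zl 1) := by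
  obtain ⟨γ, hγ, h⟩ := v1_c2_pow (V := V) h2 hs hg
  have h1 : Cg V lam (zl 1) := by
    rw [hlam, vi_one]
    refine ⟨by rw [map_one], ?_⟩
    rw [h]
    have e : -(3 + 8 * γ) - 1 = 2 * (-(2 + 4 * γ)) := by ring
    rw [e, map_mul]
    refine mul_lt_one_of_lt_of_le h2 ?_
    rw [Valuation.map_neg]
    refine (V.valuation.map_add _ _).trans (max_le h2.le ?_)
    rw [map_mul]
    refine mul_le_one' ?_ hγ
    have := z_vint (V := V) 4
    exact_mod_cast this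
  have h3 : Cg V ((lam - 1) / 4) (zl 1) := by
    rw [vi_one]
    refine ⟨by rw [map_one], ?_⟩
    rw [hlam, h]
    have e : (-(3 + 8 * γ) - 1) / 4 - 1 = 2 * (-(1 + γ)) := by ring
    rw [e, map_mul]
    refine mul_lt_one_of_lt_of_le h2 ?_
    rw [Valuation.map_neg]
    exact (V.valuation.map_add _ _).trans (max_le (by rw [map_one]) hγ)
  have h4 : Cg V (lam ^ k) (zl 1) := by
    have := cg_pow h1 k
    rwa [vi_one, one_pow, ← vi_one] at this
  have h5 := vi_mul h2 h4 h3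
  rw [one_mul] at h5
  rwa [mul_div_assoc]

/-- `λ^(k-1) (λ - 1) / 2 ≡ 1` for `λ = (1 - ϖ)^g` -/
theorem v1_lam1 {s : Bool} (h2 : V.valuation 2 < 1) (hs : V.valuation (c1 s) < 1) {g : ℕ} (hg : Odd g) (k : ℕ)
    {lam : ℂ} (hlam : lam = (c1 (!s)) ^ g) : Cg V (lam ^ k * (lam - 1) / 2) (zl 1) := by
  obtain ⟨γ, hγ, h⟩ := v1_c2_pow (V := V) h2 hs hg
  have h1 : Cg V lam (zl 1) := by
    rw [hlam, vi_one]
    refine ⟨by rw [map_one], ?_⟩
    rw [h]
    have e : 3 + 8 * γ - 1 = 2 * (1 + 4 * γ) := by ring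
    rw [e, map_mul]
    refine mul_lt_one_of_lt_of_le h2 ?_
    refine (V.valuation.map_add _ _).trans (max_le (by rw [map_one]) ?_)
    rw [map_mul]
    refine mul_le_one' ?_ hγ
    have := z_vint (V := V) 4
    exact_mod_cast this
  have h3 : Cg V ((lam - 1) / 2) (zl 1) := by
    rw [vi_one]
    refine ⟨by rw [map_one], ?_⟩
    rw [hlam, h]
    have e : (3 + 8 * γ - 1) / 2 - 1 = 2 * (2 * γ) := by ring
    rw [e, map_mul]
    refine mul_lt_one_of_lt_of_le h2 ?_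
    rw [map_mul]
    exact mul_le_one' h2.le hγ
  have h4 : Cg V (lam ^ k) (zl 1) := by
    have := cg_pow h1 k
    rwa [vi_one, one_pow, ← vi_one] at this
  have h5 := vi_mul h2 h4 h3
  rw [one_mul] at h5
  rwa [mul_div_assoc]

end

section
variable {L M : Type} [Field L] [NumberField L] [Field M] [NumberField M] [Algebra L M]
  [IsTotallyReal L] {D : Dat L M} (hD : Od2 D) {s : Bool} (P0 : PsiZ D s)
  {X : HeightOneSpectrum (𝓞 M) → (Ideal (𝓞 M) →*₀ ℤ)}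

theorem v1_uniq {Y : Ideal (𝓞 M) →*₀ ℤ} {S T : Finset (HeightOneSpectrum (𝓞 M))} {Z Z' : ℂ → ℂ}
    (h : ZY P0 X Y S T Z) (h' : ZY P0 X Y S T Z') : Z 1 = Z' 1 := by
  have key : Z = Z' := z2_identity h.diff h'.diff fun z hz => by rw [h.eq z hz, h'.eq z hz]
  rw [key]

include hD

/-- [V1] **the values, `κ` and `t8` trivial** (`val_imprimitive` with `σ = ν'`) -/
theorem val_O (Ψ : PsiDat D) {V : ValuationSubring ℂ} (h2 : V.valuation 2 < 1) (hs : V.valuation (c1 s) < 1)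
    {κ₀ : ℂ} (hκ₀ : κ₀ ^ 4 = E4f tau0 ^ Module.finrank ℚ L) {S : Finset (HeightOneSpectrum (𝓞 M))}
    (h2S : ∀ P ∈ S, (2 : 𝓞 M) ∉ P.asIdeal) (hX : ∀ P ∈ S, LamE D s P (X P))
    {z : HeightOneSpectrum (𝓞 M) → 𝓞 M} (hz : ∀ P ∈ S, NG D s P (z P)) (hS : S.Nonempty) {Z : ℂ → ℂ} (hZ : ZE P0 X S S Z) :
    V.valuation (2 * Z 1 / (2 ^ Module.finrank ℚ L * (KL L * κ₀)) / 2 ^ S.card -
      zl (∑ j ∈ S, nv D s z j * Pool.Agent.TRP.cof (fun P Q => aM z Q P) S j)) < 1 := by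
  obtain ⟨σ, hσ1, hσ2⟩ := val_imprimitive hD Ψ P0 h2 hs hκ₀ h2S hX hz
  have h := hσ2 S (Finset.Subset.refl S) hS Z hZ
  have hσ : ∀ P ∈ S, σ P = nv D s z P := by
    intro P hP
    obtain ⟨k, hk, hkP⟩ := (hz P hP).gen
    have h3 := hσ1 {P} (Finset.singleton_subset_iff.2 hP) k hk (z P) (hz P hP).et (by rw [Finset.prod_singleton, hkP])
    rw [Finset.sum_singleton] at h3
    have h4 := sigma_eq hD (s := s) h2 hs (hz P hP).et
    exact v1_zl_inj h3 h4
  rw [Finset.sum_congr rfl fun j hj => by rw [hσ j hj]] at h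
  exact h

/-- [V1] **the values, `κ` trivial, `t8` at `ϖ'`** (recursion `comb_value`; `int_T`, `anchor_E`) -/
theorem val_E (Ψ : PsiDat D) {V : ValuationSubring ℂ} (h2 : V.valuation 2 < 1) (hs : V.valuation (c1 s) < 1)
    {κ₀ : ℂ} (hκ₀ : κ₀ ^ 4 = E4f tau0 ^ Module.finrank ℚ L) {S : Finset (HeightOneSpectrum (𝓞 M))}
    (h2S : ∀ P ∈ S, (2 : 𝓞 M) ∉ P.asIdeal) (hX : ∀ P ∈ S, LamE D s P (X P))
    {Y : Ideal (𝓞 M) →*₀ ℤ} (hY : LamF D s (FK D s (fun _ => 1) true) Y)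
    {z : HeightOneSpectrum (𝓞 M) → 𝓞 M} (hz : ∀ P ∈ S, NG D s P (z P)) {Z : ℂ → ℂ} (hZ : ZY P0 X Y S S Z) :
    V.valuation (2 * Z 1 / (2 ^ Module.finrank ℚ L * (KL L * κ₀)) / 2 ^ S.card -
      zl (Pool.Agent.TRG.f (fun P Q => aM z Q P) (nv D s z) S)) < 1 := by
  obtain ⟨b, -, hb2, hb3⟩ := euler_b hD P0 h2 hs h2S hX hz
  have hf : (∃ k, Kp k (fun _ : 𝓞 L => (1 : ℤ))) ∨ (fun _ : 𝓞 L => (1 : ℤ)) = fun _ => 1 := Or.inr rfl
  have hb2' := hb2 _ true hf Y hY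
  have hbt : ∀ P, bt (FK D s (fun _ => 1) true) z P = nv D s z P := by
    intro P
    unfold nv bt FK te
    simp only [one_mul, if_true]
  obtain ⟨c, hc⟩ : ∃ c : ℂ, c = 2 ^ Module.finrank ℚ L * (KL L * κ₀) := ⟨_, rfl⟩
  -- the primitive series
  have hYe : ∀ T : Finset (HeightOneSpectrum (𝓞 M)), ∃ Z' : ℂ → ℂ, T ⊆ S → ZY P0 X Y T T Z' := by
    intro T
    by_cases hT : T ⊆ S
    · obtain ⟨Z', hZ'⟩ := exists_ZY hD P0 (X := X) (S := T) (fun P hP => h2S P (hT hP)) (fun P hP => hX P (hT hP)) hf hY T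
      exact ⟨Z', fun _ => hZ'⟩
    · exact ⟨0, fun h => absurd h hT⟩
  choose YT hYT using hYe
  have hanc := anchor_E hD P0 Ψ h2 hs hκ₀ hY (hYT ∅ (Finset.empty_subset S))
  rw [← hc] at hanc
  have hc0 : c ≠ 0 := by
    rintro rfl
    rw [div_zero, zero_sub, Valuation.map_neg, map_one] at hanc
    exact lt_irrefl _ hanc
  have hanc' : Cg V (2 * YT ∅ 1 / c) (zl 1) := by
    rw [vi_one]
    exact ⟨by rw [map_one], hanc⟩
  obtain ⟨eT, heT⟩ : ∃ eT : Finset (HeightOneSpectrum (𝓞 M)) → HeightOneSpectrum (𝓞 M) → ℂ,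
      ∀ T P, eT T P = (1 - ((twP T T X P.asIdeal * Y P.asIdeal : ℤ) : ℂ) / P0.psi P.asIdeal) / 2 := ⟨_, fun _ _ => rfl⟩
  obtain ⟨q, hq⟩ : ∃ q : Finset (HeightOneSpectrum (𝓞 M)) → HeightOneSpectrum (𝓞 M) → ZMod 2,
      ∀ T P, q T P = b P + nv D s z P + ∑ Q ∈ T, aM z Q P := ⟨_, fun _ _ => rfl⟩
  obtain ⟨g, hg⟩ : ∃ g : Finset (HeightOneSpectrum (𝓞 M)) → ℂ, ∀ T, g T = 2 * YT T 1 / c / 2 ^ T.card := ⟨_, fun _ => rfl⟩
  obtain ⟨f, hfd⟩ : ∃ f : HeightOneSpectrum (𝓞 M) → ℂ, ∀ P, f P = (1 - 1 / (absNorm P.asIdeal : ℂ)) / 2 := ⟨_, fun _ => rfl⟩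
  have key := v1_ind (V := V) h2 (S := S) (G := g) (eT := eT) (q := q)
    (h := fun T => Pool.Agent.TRG.f (fun P Q => aM z Q P) (nv D s z) T) (fun T hT P hP => by
      apply vi_cg h2
      rw [heT, hq, ← hbt P]
      exact hb2' T hT P hP) (fun W hW => by
    have h2W : ∀ P ∈ W, (2 : 𝓞 M) ∉ P.asIdeal := fun P hP => h2S P (hW hP)
    have hXW : ∀ P ∈ W, LamE D s P (X P) := fun P hP => hX P (hW hP)
    choose ZW hZW using fun T : Finset (HeightOneSpectrum (𝓞 M)) => exists_ZY hD P0 (X := X) h2W hXW hf hY T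
    have hint := int_T hD P0 h2 hs hκ₀ h2W hXW hY (Z := ZW) (fun T _ => hZW T) (hYT ∅ (Finset.empty_subset S))
    rw [← hc] at hint
    have hrem : ∀ T ∈ W.powerset, ZW T 1 = (2 ^ W.card * c / 2) * (g T * ∏ P ∈ W \ T, eT T P) := by
      intro T hT
      rw [Finset.mem_powerset] at hT
      rw [ZY.removal hD P0 h2W hXW hT hf hY (hYT T (hT.trans hW)) (hZW T), hg]
      have h1 : ∏ P ∈ W \ T, (1 - ((twP T T X P.asIdeal * Y P.asIdeal : ℤ) : ℂ) / P0.psi P.asIdeal) =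
          2 ^ (W \ T).card * ∏ P ∈ W \ T, eT T P := by
        rw [← Finset.prod_const, ← Finset.prod_mul_distrib]
        refine Finset.prod_congr rfl fun P _ => ?_
        rw [heT]
        ring
      have h3 : (2 : ℂ) ^ W.card = 2 ^ (W \ T).card * 2 ^ T.card := by
        rw [← pow_add, Finset.card_sdiff_add_card_eq_card hT]
      have h4 : (2 : ℂ) ^ T.card ≠ 0 := pow_ne_zero _ two_ne_zero
      rw [h1, h3]
      field_simp
    have hf' : ∏ P ∈ W, (1 - 1 / (absNorm P.asIdeal : ℂ)) = 2 ^ W.card * ∏ P ∈ W, f P := by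
      rw [← Finset.prod_const, ← Finset.prod_mul_distrib]
      refine Finset.prod_congr rfl fun P _ => ?_
      rw [hfd]
      ring
    obtain ⟨η, hη⟩ : ∃ η : ℂ, η = ∑ T ∈ W.powerset, g T * ∏ P ∈ W \ T, eT T P -
      (2 * YT ∅ 1 / c) * ∏ P ∈ W, f P := ⟨_, rfl⟩
    have hη1 : V.valuation η < 1 := by
      have e1 : (∑ T ∈ W.powerset, ZW T 1 - (∏ P ∈ W, (1 - 1 / (absNorm P.asIdeal : ℂ))) * YT ∅ 1) / (2 ^ W.card * c) =
          η / 2 := by
        rw [Finset.sum_congr rfl hrem, ← Finset.mul_sum, hf', hη]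
        have h4 : (2 : ℂ) ^ W.card ≠ 0 := pow_ne_zero _ two_ne_zero
        field_simp
      rw [e1] at hint
      have e2 : η = 2 * (η / 2) := by ring
      rw [e2, map_mul]
      exact (mul_le_of_le_one_right' hint).trans_lt h2
    have e3 : ∑ T ∈ W.powerset, g T * ∏ P ∈ W \ T, eT T P = η + (2 * YT ∅ 1 / c) * ∏ P ∈ W, f P := by
      rw [hη]
      ring
    have e4 : ∑ T ∈ W.powerset, Pool.Agent.TRG.f (fun P Q => aM z Q P) (nv D s z) T * ∏ P ∈ W \ T, q T P =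
        0 + 1 * ∏ P ∈ W, b P := by
      rw [zero_add, one_mul, ← Pool.Agent.TRG.comb_value (fun P Q => aM z Q P) (nv D s z) b W]
      simp only [hq]
    rw [e3, e4]
    refine vi_add h2 (vi_small hη1) (vi_mul h2 hanc' (vi_prod h2 _ fun P hP => ?_))
    apply vi_cg h2
    rw [hfd]
    exact hb3 P (hW hP))
  have hfin := (key S (Finset.Subset.refl S)).2
  rw [hg, v1_uniq P0 (hYT S (Finset.Subset.refl S)) hZ, hc] at hfin
  exact hfin

/-- [V1] **the values, `κ` nontrivial** (strong induction on `T` from `int_K` for `S = T`, `ZY.removal`, `euler_b`,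
`val_O`, `anchor`; the recursion is that of `comb_indepU` with `b = bt`, `b' = 0`, `fU_zero`) -/
theorem val_K (Ψ : PsiDat D) {V : ValuationSubring ℂ} (h2 : V.valuation 2 < 1) (hs : V.valuation (c1 s) < 1)
    {κ₀ : ℂ} (hκ₀ : κ₀ ^ 4 = E4f tau0 ^ Module.finrank ℚ L) {S : Finset (HeightOneSpectrum (𝓞 M))}
    (h2S : ∀ P ∈ S, (2 : 𝓞 M) ∉ P.asIdeal) (hX : ∀ P ∈ S, LamE D s P (X P)) {k : ℕ} {κ : 𝓞 L → ℤ} (hk : Kp k κ)
    {G : ℂ} (hG : Hat k κ (2 ^ (Module.finrank ℚ L * k) / G)) (hG0 : G ≠ 0) {e : Bool}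
    {Y : Ideal (𝓞 M) →*₀ ℤ} (hY : LamF D s (FK D s κ e) Y)
    {z : HeightOneSpectrum (𝓞 M) → 𝓞 M} (hz : ∀ P ∈ S, NG D s P (z P)) {Z : ℂ → ℂ} (hZ : ZY P0 X Y S S Z) :
    V.valuation (2 ^ (Module.finrank ℚ L * k) / G * Z 1 / (2 ^ Module.finrank ℚ L * (KL L * κ₀)) / 2 ^ S.card -
      zl (Pool.Agent.TRG.fU (fun P Q => aM z Q P) (bt (FK D s κ e) z) (nv D s z) (nu D s) S)) < 1 := by
  obtain ⟨b, hb1, hb2, -⟩ := euler_b hD P0 h2 hs h2S hX hz
  have hf : (∃ k, Kp k κ) ∨ κ = fun _ => 1 := Or.inl ⟨k, hk⟩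
  have hb2' := hb2 _ e hf Y hY
  obtain ⟨c, hc⟩ : ∃ c : ℂ, c = 2 ^ Module.finrank ℚ L * (KL L * κ₀) := ⟨_, rfl⟩
  obtain ⟨γ, hγ⟩ : ∃ γ : ℂ, γ = 2 ^ (Module.finrank ℚ L * k) / G := ⟨_, rfl⟩
  -- the primitive series
  have hYe : ∀ T : Finset (HeightOneSpectrum (𝓞 M)), ∃ Z' : ℂ → ℂ, T ⊆ S → ZY P0 X Y T T Z' := by
    intro T
    by_cases hT : T ⊆ S
    · obtain ⟨Z', hZ'⟩ := exists_ZY hD P0 (X := X) (S := T) (fun P hP => h2S P (hT hP)) (fun P hP => hX P (hT hP)) hf hY T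
      exact ⟨Z', fun _ => hZ'⟩
    · exact ⟨0, fun h => absurd h hT⟩
  choose YT hYT using hYe
  have hEe : ∀ T : Finset (HeightOneSpectrum (𝓞 M)), ∃ Z' : ℂ → ℂ, T ⊆ S → ZE P0 X T T Z' := by
    intro T
    by_cases hT : T ⊆ S
    · obtain ⟨Z', hZ'⟩ := exists_ZE hD P0 (X := X) (S := T) (fun P hP => h2S P (hT hP)) (fun P hP => hX P (hT hP)) T
      exact ⟨Z', fun _ => hZ'⟩
    · exact ⟨0, fun h => absurd h hT⟩
  choose ET hET using hEe
  have hanc := anchor hD Ψ P0 h2 hs hκ₀ (hET ∅ (Finset.empty_subset S))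
  rw [← hc] at hanc
  have hc0 : c ≠ 0 := by
    rintro rfl
    rw [div_zero, zero_sub, Valuation.map_neg, map_one] at hanc
    exact lt_irrefl _ hanc
  have hanc' : Cg V (4 * ET ∅ 1 / c) (zl 1) := by
    rw [vi_one]
    exact ⟨by rw [map_one], hanc⟩
  obtain ⟨eT, heT⟩ : ∃ eT : Finset (HeightOneSpectrum (𝓞 M)) → HeightOneSpectrum (𝓞 M) → ℂ,
      ∀ T P, eT T P = (1 - ((twP T T X P.asIdeal * Y P.asIdeal : ℤ) : ℂ) / P0.psi P.asIdeal) / 2 := ⟨_, fun _ _ => rfl⟩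
  obtain ⟨eE, heE⟩ : ∃ eE : Finset (HeightOneSpectrum (𝓞 M)) → HeightOneSpectrum (𝓞 M) → ℂ,
      ∀ T P, eE T P = (1 - (twP T T X P.asIdeal : ℂ) / P0.psi P.asIdeal) / 2 := ⟨_, fun _ _ => rfl⟩
  obtain ⟨q, hq⟩ : ∃ q : Finset (HeightOneSpectrum (𝓞 M)) → HeightOneSpectrum (𝓞 M) → ZMod 2,
      ∀ T P, q T P = b P + bt (FK D s κ e) z P + ∑ Q ∈ T, aM z Q P := ⟨_, fun _ _ => rfl⟩
  obtain ⟨g, hg⟩ : ∃ g : Finset (HeightOneSpectrum (𝓞 M)) → ℂ, ∀ T, g T = γ * YT T 1 / c / 2 ^ T.card := ⟨_, fun _ => rfl⟩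
  obtain ⟨gE, hgE⟩ : ∃ gE : Finset (HeightOneSpectrum (𝓞 M)) → ℂ, ∀ T, gE T = 2 * ET T 1 / c / 2 ^ T.card := ⟨_, fun _ => rfl⟩
  obtain ⟨lam, hlam⟩ : ∃ lam : Finset (HeightOneSpectrum (𝓞 M)) → ℂ, ∀ T, lam T =
      - (c1 (!s)) ^ Module.finrank ℚ L * (if ∑ P ∈ T, nu D s P = 0 then 1 else -1) := ⟨_, fun _ => rfl⟩
  have hk1 : k - 1 + 1 = k := Nat.sub_add_cancel (by have := hk.two_le; omega)
  have key := v1_ind (V := V) h2 (S := S) (G := g) (eT := eT) (q := q)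
    (h := fun T => Pool.Agent.TRG.fU (fun P Q => aM z Q P) (bt (FK D s κ e) z) (nv D s z) (nu D s) T)
    (fun T hT P hP => by
      apply vi_cg h2
      rw [heT, hq]
      exact hb2' T hT P hP) (fun W hW => by
    have h2W : ∀ P ∈ W, (2 : 𝓞 M) ∉ P.asIdeal := fun P hP => h2S P (hW hP)
    have hXW : ∀ P ∈ W, LamE D s P (X P) := fun P hP => hX P (hW hP)
    choose ZW hZW using fun T : Finset (HeightOneSpectrum (𝓞 M)) => exists_ZY hD P0 (X := X) h2W hXW hf hY T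
    choose EW hEW using fun T : Finset (HeightOneSpectrum (𝓞 M)) => exists_ZE hD P0 (X := X) h2W hXW T
    have hint := int_K hD P0 h2 hs hκ₀ h2W hXW hk hG hG0 hY (Zk := ZW) (fun T _ => hZW T) (Z := EW)
      (fun T _ => hEW T) hlam
    rw [← hc, ← hγ] at hint
    have hcard : ∀ T ⊆ W, (2 : ℂ) ^ W.card = 2 ^ (W \ T).card * 2 ^ T.card := by
      intro T hT
      rw [← pow_add, Finset.card_sdiff_add_card_eq_card hT]
    have hrem : ∀ T ∈ W.powerset, γ * ZW T 1 = (2 ^ W.card * c) * (g T * ∏ P ∈ W \ T, eT T P) := by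
      intro T hT
      rw [Finset.mem_powerset] at hT
      rw [ZY.removal hD P0 h2W hXW hT hf hY (hYT T (hT.trans hW)) (hZW T), hg]
      have h1 : ∏ P ∈ W \ T, (1 - ((twP T T X P.asIdeal * Y P.asIdeal : ℤ) : ℂ) / P0.psi P.asIdeal) =
          2 ^ (W \ T).card * ∏ P ∈ W \ T, eT T P := by
        rw [← Finset.prod_const, ← Finset.prod_mul_distrib]
        refine Finset.prod_congr rfl fun P _ => ?_
        rw [heT]
        ring
      have h4 : (2 : ℂ) ^ T.card ≠ 0 := pow_ne_zero _ two_ne_zero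
      rw [h1, hcard T hT]
      field_simp
    have hremE : ∀ T ∈ W.powerset, EW T 1 = (2 ^ W.card * c / 2) * (gE T * ∏ P ∈ W \ T, eE T P) := by
      intro T hT
      rw [Finset.mem_powerset] at hT
      rw [ZE.removal hD P0 h2W hXW hT (hET T (hT.trans hW)) (hEW T), hgE]
      have h1 : ∏ P ∈ W \ T, (1 - (twP T T X P.asIdeal : ℂ) / P0.psi P.asIdeal) =
          2 ^ (W \ T).card * ∏ P ∈ W \ T, eE T P := by
        rw [← Finset.prod_const, ← Finset.prod_mul_distrib]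
        refine Finset.prod_congr rfl fun P _ => ?_
        rw [heE]
        ring
      have h4 : (2 : ℂ) ^ T.card ≠ 0 := pow_ne_zero _ two_ne_zero
      rw [h1, hcard T hT]
      field_simp
    obtain ⟨η, hη⟩ : ∃ η : ℂ, η = ∑ T ∈ W.powerset, g T * ∏ P ∈ W \ T, eT T P -
      ∑ T ∈ W.powerset, (lam T ^ (k - 1) * (lam T - 1) / 2) * (gE T * ∏ P ∈ W \ T, eE T P) := ⟨_, rfl⟩
    have hη1 : V.valuation η < 1 := by
      have e1 : (∑ T ∈ W.powerset, (γ * ZW T 1 - lam T ^ (k - 1) * (lam T - 1) * EW T 1)) /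
          (2 ^ (W.card + 1) * c) = η / 2 := by
        have e2 : ∀ T ∈ W.powerset, γ * ZW T 1 - lam T ^ (k - 1) * (lam T - 1) * EW T 1 =
            (2 ^ W.card * c) * (g T * ∏ P ∈ W \ T, eT T P -
              (lam T ^ (k - 1) * (lam T - 1) / 2) * (gE T * ∏ P ∈ W \ T, eE T P)) := by
          intro T hT
          rw [hrem T hT, hremE T hT]
          ring
        rw [Finset.sum_congr rfl e2, ← Finset.mul_sum, Finset.sum_sub_distrib, ← hη]
        have h4 : (2 : ℂ) ^ W.card ≠ 0 := pow_ne_zero _ two_ne_zero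
        rw [pow_succ]
        field_simp
      rw [e1] at hint
      have e2 : η = 2 * (η / 2) := by ring
      rw [e2, map_mul]
      exact (mul_le_of_le_one_right' hint).trans_lt h2
    have e3 : ∑ T ∈ W.powerset, g T * ∏ P ∈ W \ T, eT T P = η +
        ∑ T ∈ W.powerset, (lam T ^ (k - 1) * (lam T - 1) / 2) * (gE T * ∏ P ∈ W \ T, eE T P) := by
      rw [hη]
      ring
    have e4 : ∑ T ∈ W.powerset, Pool.Agent.TRG.fU (fun P Q => aM z Q P) (bt (FK D s κ e) z) (nv D s z) (nu D s) T *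
        ∏ P ∈ W \ T, q T P = 0 + ∑ T ∈ W.powerset,
          Pool.Agent.TRG.fU (fun P Q => aM z Q P) (fun _ => 0) (nv D s z) (nu D s) T *
            ∏ P ∈ W \ T, (b P + ∑ Q ∈ T, aM z Q P) := by
      have h := Pool.Agent.TRG.comb_indepU (fun P Q => aM z Q P) (bt (FK D s κ e) z) (fun _ => 0) (nv D s z) (nu D s) b W
      simp only [hq]
      rw [h, zero_add]
      simp only [add_zero]
    rw [e3, e4]
    refine vi_add h2 (vi_small hη1) (vi_sum h2 _ fun T hT => ?_)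
    rw [Finset.mem_powerset] at hT
    have hprod : Cg V (∏ P ∈ W \ T, eE T P) (zl (∏ P ∈ W \ T, (b P + ∑ Q ∈ T, aM z Q P))) := by
      refine vi_prod h2 _ fun P hP => ?_
      rw [Finset.mem_sdiff] at hP
      apply vi_cg h2
      rw [heE]
      exact hb1 T (hT.trans hW) P (Finset.mem_sdiff.2 ⟨hW hP.1, hP.2⟩)
    rw [← mul_assoc]
    refine vi_mul h2 ?_ hprod
    rw [fU_zero]
    by_cases hT0 : T = ∅
    · subst hT0
      rw [if_pos rfl, Finset.sum_empty, zero_mul, add_zero]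
      have hl := v1_lam0 (V := V) h2 hs hD.odd (k - 1) (lam := lam ∅) (by
        rw [hlam, Finset.sum_empty, if_pos rfl, mul_one])
      have h5 := vi_mul h2 hl hanc'
      rw [one_mul] at h5
      have e5 : lam ∅ ^ (k - 1) * (lam ∅ - 1) / 2 * gE ∅ =
          lam ∅ ^ (k - 1) * (lam ∅ - 1) / 4 * (4 * ET ∅ 1 / c) := by
        rw [hgE, Finset.card_empty, pow_zero, div_one]
        ring
      rw [e5]
      exact h5
    · rw [if_neg hT0, zero_add]
      have hTn := Finset.nonempty_iff_ne_empty.2 hT0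
      have hv := val_O hD P0 Ψ h2 hs hκ₀ (fun P hP => h2S P (hW (hT hP))) (fun P hP => hX P (hW (hT hP)))
        (fun P hP => hz P (hW (hT hP))) hTn (hET T (hT.trans hW))
      rw [← hc, ← hgE] at hv
      have hv' := vi_cg h2 hv
      by_cases hν : ∑ P ∈ T, nu D s P = 0
      · rw [hν, zero_mul]
        have hl := v1_lam0 (V := V) h2 hs hD.odd (k - 1) (lam := lam T) (by
          rw [hlam, if_pos hν, mul_one])
        apply vi_small
        have e6 : lam T ^ (k - 1) * (lam T - 1) / 2 * gE T =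
            2 * ((lam T ^ (k - 1) * (lam T - 1) / 4) * gE T) := by ring
        rw [e6, map_mul]
        refine mul_lt_one_of_lt_of_le h2 ?_
        rw [map_mul]
        exact mul_le_one' hl.left hv'.left
      · have hν1 : ∑ P ∈ T, nu D s P = 1 := by
          revert hν
          generalize ∑ P ∈ T, nu D s P = y
          revert y
          decide
        have hl := v1_lam1 (V := V) h2 hs hD.odd (k - 1) (lam := lam T) (by
          rw [hlam, if_neg hν]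
          ring)
        rw [hν1]
        exact vi_mul h2 hl hv')
  have hfin := (key S (Finset.Subset.refl S)).2
  rw [hg, v1_uniq P0 (hYT S (Finset.Subset.refl S)) hZ, hc, hγ] at hfin
  exact hfin

end

end TRZ
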